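import Pool.Agent.NQR.Defs

/-!
# NQR-BMcd: Bernoulli measures on subsets

`bern A p T = (∏_{i ∈ T} p i) ∏_{i ∈ A \ T} (1 - p i)` (NQ.Defs).

PLAN. `bern_sum`: induction / `Finset.prod_add`. `mcd`: induction on `A`: split off `i`: conditionally on the rest,
`p e^{x+u} + (1-p) e^{x} ≤ exp (x + p u + u²)` for `|u| ≤ c`: because `e^v ≤ v + e^{v²}` for all real `v`
(`v = (1-p)u` and `v = -p u`): `p e^{(1-p)u} + (1-p) e^{-pu} ≤ p e^{(1-p)²u²} + (1-p) e^{p²u²} ≤ e^{u²}`. The conditional
expectation `T ↦ p f(insert i T) + (1-p) f T` on `A.erase i` satisfies the same Lipschitz conditions.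
`bern_prod`: product of sums.
-/

set_option autoImplicit false

open Finset

namespace Pool.Agent.NQR

open Pool.Agent.NQ (board dsum F Ent Dg phi ln Q Qset st cellD bern)

private theorem bern_out {I : Type*} [DecidableEq I] {A : Finset I} {i : I} (hi : i ∉ A)
    (p : I → ℝ) {T : Finset I} (hT : T ⊆ A) :
    bern (insert i A) p T = (1 - p i) * bern A p T := by
  unfold bern
  have h1 : insert i A \ T = insert i (A \ T) := insert_sdiff_of_notMem _ fun h => hi (hT h)
  have h2 : i ∉ A \ T := fun h => hi (mem_sdiff.1 h).1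
  rw [h1, prod_insert h2]
  ring

private theorem bern_in {I : Type*} [DecidableEq I] {A : Finset I} {i : I} (hi : i ∉ A)
    (p : I → ℝ) {T : Finset I} (hT : T ⊆ A) :
    bern (insert i A) p (insert i T) = p i * bern A p T := by
  unfold bern
  have h1 : insert i A \ insert i T = A \ T := by
    ext x
    simp only [mem_sdiff, mem_insert, not_or]
    constructor
    · rintro ⟨h2 | h2, h3, h4⟩
      · exact absurd h2 h3
      · exact ⟨h2, h4⟩
    · rintro ⟨h2, h3⟩
      exact ⟨Or.inr h2, fun h4 => hi (h4 ▸ h2), h3⟩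
  have h2 : i ∉ T := fun h => hi (hT h)
  rw [h1, prod_insert h2]
  ring

private theorem bern_step {I : Type*} [DecidableEq I] {A : Finset I} {i : I} (hi : i ∉ A)
    (p : I → ℝ) (f : Finset I → ℝ) :
    ∑ T ∈ (insert i A).powerset, bern (insert i A) p T * f T =
      ∑ T ∈ A.powerset, bern A p T * ((1 - p i) * f T + p i * f (insert i T)) := by
  rw [sum_powerset_insert hi, ← sum_add_distrib]
  refine sum_congr rfl fun T hT => ?_
  rw [bern_out hi p (mem_powerset.1 hT), bern_in hi p (mem_powerset.1 hT)]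
  ring

theorem bern_sum {I : Type*} [DecidableEq I] (A : Finset I) (p : I → ℝ) :
    ∑ T ∈ A.powerset, bern A p T = 1 := by
  have h : ∏ i ∈ A, (p i + (1 - p i)) = ∑ T ∈ A.powerset, bern A p T := prod_add _ _ _
  rw [← h]
  exact prod_eq_one fun i _ => by ring

theorem bern_nonneg {I : Type*} [DecidableEq I] (A : Finset I) (p : I → ℝ)
    (hp : ∀ i ∈ A, 0 ≤ p i ∧ p i ≤ 1) {T : Finset I} (hT : T ⊆ A) : 0 ≤ bern A p T := by
  unfold bern
  refine mul_nonneg (prod_nonneg fun i hi => (hp i (hT hi)).1) (prod_nonneg fun i hi => ?_)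
  exact sub_nonneg.2 (hp i (mem_sdiff.1 hi).1).2

private theorem exp_le_add (v : ℝ) : Real.exp v ≤ v + Real.exp (v ^ 2) := by
  have h1 : v ^ 2 + 1 ≤ Real.exp (v ^ 2) := Real.add_one_le_exp _
  rcases le_or_gt |v| 1 with h | h
  · have h2 := Real.abs_exp_sub_one_sub_id_le h
    have h3 := le_abs_self (Real.exp v - 1 - v)
    linarith
  · rcases lt_or_ge v 0 with h0 | h0
    · have h2 : Real.exp v ≤ 1 := Real.exp_le_one_iff.2 h0.le
      rw [abs_of_neg h0] at h
      nlinarith
    · rw [abs_of_nonneg h0] at h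
      have h2 : Real.exp v ≤ Real.exp (v ^ 2) := Real.exp_le_exp.2 (by nlinarith)
      linarith

private theorem two_point {p x u c : ℝ} (hp0 : 0 ≤ p) (hp1 : p ≤ 1) (hu : |u| ≤ c) :
    (1 - p) * Real.exp x + p * Real.exp (x + u) ≤
      Real.exp ((1 - p) * x + p * (x + u)) * Real.exp (c ^ 2) := by
  have hc : u ^ 2 ≤ c ^ 2 := by
    have := abs_nonneg u
    rw [← sq_abs u]
    exact pow_le_pow_left₀ this hu 2
  have h1 := exp_le_add (-(p * u))
  have h2 := exp_le_add ((1 - p) * u)
  have h3 : Real.exp ((-(p * u)) ^ 2) ≤ Real.exp (c ^ 2) := by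
    apply Real.exp_le_exp.2
    have : (-(p * u)) ^ 2 = p ^ 2 * u ^ 2 := by ring
    rw [this]
    have hp2 : p ^ 2 ≤ 1 := by nlinarith
    nlinarith [sq_nonneg u]
  have h4 : Real.exp (((1 - p) * u) ^ 2) ≤ Real.exp (c ^ 2) := by
    apply Real.exp_le_exp.2
    have : ((1 - p) * u) ^ 2 = (1 - p) ^ 2 * u ^ 2 := by ring
    rw [this]
    have hp2 : (1 - p) ^ 2 ≤ 1 := by nlinarith
    nlinarith [sq_nonneg u]
  have h5 : (1 - p) * Real.exp (-(p * u)) + p * Real.exp ((1 - p) * u) ≤ Real.exp (c ^ 2) := by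
    have h6 := mul_le_mul_of_nonneg_left (h1.trans (add_le_add_right h3 _)) (sub_nonneg.2 hp1)
    have h7 := mul_le_mul_of_nonneg_left (h2.trans (add_le_add_right h4 _)) hp0
    nlinarith
  have e1 : Real.exp x = Real.exp ((1 - p) * x + p * (x + u)) * Real.exp (-(p * u)) := by
    rw [← Real.exp_add]
    congr 1
    ring
  have e2 : Real.exp (x + u) = Real.exp ((1 - p) * x + p * (x + u)) *
      Real.exp ((1 - p) * u) := by
    rw [← Real.exp_add]
    congr 1
    ring
  have e3 : (1 - p) * Real.exp x + p * Real.exp (x + u) =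
      Real.exp ((1 - p) * x + p * (x + u)) *
        ((1 - p) * Real.exp (-(p * u)) + p * Real.exp ((1 - p) * u)) := by
    rw [mul_add]
    nth_rewrite 1 [e1]
    nth_rewrite 1 [e2]
    ring
  rw [e3]
  exact mul_le_mul_of_nonneg_left h5 (Real.exp_pos _).le

theorem mcd {I : Type*} [DecidableEq I] (A : Finset I) (p : I → ℝ) (hp : ∀ i ∈ A, 0 ≤ p i ∧ p i ≤ 1)
    (f : Finset I → ℝ) (c : I → ℝ)
    (hc : ∀ i ∈ A, ∀ T : Finset I, T ⊆ A.erase i → |f (insert i T) - f T| ≤ c i) :
    ∑ T ∈ A.powerset, bern A p T * Real.exp (f T) ≤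
      Real.exp ((∑ T ∈ A.powerset, bern A p T * f T) + ∑ i ∈ A, c i ^ 2) := by
  induction A using Finset.induction_on generalizing f with
  | empty => simp [bern]
  | insert i A hi ih =>
    have hpi := hp i (mem_insert_self i A)
    have hpA : ∀ j ∈ A, 0 ≤ p j ∧ p j ≤ 1 := fun j hj => hp j (mem_insert_of_mem hj)
    rw [bern_step hi, bern_step hi, sum_insert hi]
    set g : Finset I → ℝ := fun T => (1 - p i) * f T + p i * f (insert i T) with hg
    have h1 : ∀ T ∈ A.powerset, bern A p T *
        ((1 - p i) * Real.exp (f T) + p i * Real.exp (f (insert i T))) ≤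
          bern A p T * (Real.exp (g T) * Real.exp (c i ^ 2)) := by
      intro T hT
      have hTA := mem_powerset.1 hT
      apply mul_le_mul_of_nonneg_left _ (bern_nonneg A p hpA hTA)
      have hu : |f (insert i T) - f T| ≤ c i := by
        apply hc i (mem_insert_self i A)
        rw [erase_insert hi]
        exact hTA
      have := two_point (x := f T) hpi.1 hpi.2 hu
      rw [add_sub_cancel] at this
      exact this
    have h2 : ∀ j ∈ A, ∀ T : Finset I, T ⊆ A.erase j → |g (insert j T) - g T| ≤ c j := by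
      intro j hj T hT
      have hji : j ≠ i := fun h => hi (h ▸ hj)
      have e1 : |f (insert j T) - f T| ≤ c j := by
        apply hc j (mem_insert_of_mem hj)
        exact hT.trans (erase_subset_erase j (subset_insert i A))
      have e2 : |f (insert i (insert j T)) - f (insert i T)| ≤ c j := by
        rw [Finset.insert_comm]
        apply hc j (mem_insert_of_mem hj)
        intro x hx
        rw [mem_erase, mem_insert]
        rcases mem_insert.1 hx with h | h
        · exact ⟨h ▸ hji.symm, Or.inl h⟩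
        · have := mem_erase.1 (hT h)
          exact ⟨this.1, Or.inr this.2⟩
      have e3 : g (insert j T) - g T = (1 - p i) * (f (insert j T) - f T) +
          p i * (f (insert i (insert j T)) - f (insert i T)) := by
        simp only [hg]
        ring
      rw [e3]
      refine (abs_add_le _ _).trans ?_
      rw [abs_mul, abs_mul, abs_of_nonneg (sub_nonneg.2 hpi.2), abs_of_nonneg hpi.1]
      nlinarith [mul_le_mul_of_nonneg_left e1 (sub_nonneg.2 hpi.2),
        mul_le_mul_of_nonneg_left e2 hpi.1]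
    have h3 := ih hpA g h2
    calc ∑ T ∈ A.powerset, bern A p T *
        ((1 - p i) * Real.exp (f T) + p i * Real.exp (f (insert i T)))
        ≤ ∑ T ∈ A.powerset, bern A p T * (Real.exp (g T) * Real.exp (c i ^ 2)) :=
          sum_le_sum h1
      _ = (∑ T ∈ A.powerset, bern A p T * Real.exp (g T)) * Real.exp (c i ^ 2) := by
          rw [sum_mul]
          exact sum_congr rfl fun T _ => by ring
      _ ≤ Real.exp ((∑ T ∈ A.powerset, bern A p T * g T) + ∑ j ∈ A, c j ^ 2) *
            Real.exp (c i ^ 2) := mul_le_mul_of_nonneg_right h3 (Real.exp_pos _).le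
      _ = Real.exp ((∑ T ∈ A.powerset, bern A p T * g T) +
            (c i ^ 2 + ∑ j ∈ A, c j ^ 2)) := by
          rw [← Real.exp_add]
          congr 1
          ring

theorem bern_prod {I : Type*} [DecidableEq I] (A : Finset I) (p : I → ℝ) {S1 S2 : Finset I} (h1 : S1 ⊆ A)
    (h2 : S2 ⊆ A) (hd : Disjoint S1 S2) :
    ∑ T ∈ A.powerset, bern A p T * (if S1 ⊆ T ∧ Disjoint S2 T then 1 else 0) =
      (∏ i ∈ S1, p i) * ∏ i ∈ S2, (1 - p i) := by
  have e1 : ∏ i ∈ A, ((if i ∈ S2 then 0 else p i) + (if i ∈ S1 then 0 else 1 - p i)) =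
      ∑ T ∈ A.powerset, bern A p T * (if S1 ⊆ T ∧ Disjoint S2 T then 1 else 0) := by
    rw [prod_add]
    refine sum_congr rfl fun T hT => ?_
    have hTA := mem_powerset.1 hT
    unfold bern
    split_ifs with h
    · rw [mul_one]
      congr 1
      · refine prod_congr rfl fun i hi => ?_
        rw [if_neg]
        exact fun h' => (disjoint_left.1 h.2 h') hi
      · refine prod_congr rfl fun i hi => ?_
        rw [if_neg]
        exact fun h' => (mem_sdiff.1 hi).2 (h.1 h')
    · rw [mul_zero]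
      by_cases hS : S1 ⊆ T
      · have hnd : ¬ Disjoint S2 T := fun h' => h ⟨hS, h'⟩
        obtain ⟨i, hi2, hiT⟩ := not_disjoint_iff.1 hnd
        rw [prod_eq_zero hiT (by rw [if_pos hi2]), zero_mul]
      · obtain ⟨i, hi1, hiT⟩ := not_subset.1 hS
        have : i ∈ A \ T := mem_sdiff.2 ⟨h1 hi1, hiT⟩
        rw [prod_eq_zero this (by rw [if_pos hi1]), mul_zero]
  have e2 : ∏ i ∈ A, ((if i ∈ S2 then 0 else p i) + (if i ∈ S1 then 0 else 1 - p i)) =
      ∏ i ∈ A, ((if i ∈ S1 then p i else 1) * (if i ∈ S2 then 1 - p i else 1)) := by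
    refine prod_congr rfl fun i _ => ?_
    by_cases hi1 : i ∈ S1
    · have hi2 : i ∉ S2 := disjoint_left.1 hd hi1
      simp [hi1, hi2]
    · by_cases hi2 : i ∈ S2
      · simp [hi1, hi2]
      · simp [hi1, hi2]
  rw [← e1, e2, prod_mul_distrib, prod_ite_mem, prod_ite_mem, inter_eq_right.2 h1,
    inter_eq_right.2 h2]

end Pool.Agent.NQR
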