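import Pool.Agent.NQR.Defs
import Pool.Agent.NQ.Lower

/-!
# NQR-PLow: the lower bound for the number of configurations

`Pool.Agent.NQ.lower` with `Λ = z^40`.
-/

set_option autoImplicit false

open Finset

namespace Pool.Agent.NQR

open Pool.Agent.NQ (board dsum F Ent Dg phi ln Q Qset st cellD bern)

private theorem plow_le_one {N : ℕ} {W : ℤ × ℤ → ℝ} (hW : Adm N W) : (∀ s, dsum N W 0 s ≤ 1) ∧
    ∀ s, dsum N W 1 s ≤ 1 := by
  constructor
  · intro s
    by_cases hs : 0 ≤ s ∧ s < N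
    · exact (hW.row s hs.1 hs.2).le
    · have h1 : (board N).filter (fun e => ln 0 e = s) = ∅ := by
        rw [filter_eq_empty_iff]
        intro e he h2
        rw [Pool.Agent.NQ.mem_board] at he
        have h3 : e.1 = s := h2
        rw [h3] at he
        exact hs he.1
      unfold dsum
      rw [h1, sum_empty]
      exact zero_le_one
  · intro s
    by_cases hs : 0 ≤ s ∧ s < N
    · exact (hW.col s hs.1 hs.2).le
    · have h1 : (board N).filter (fun e => ln 1 e = s) = ∅ := by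
        rw [filter_eq_empty_iff]
        intro e he h2
        rw [Pool.Agent.NQ.mem_board] at he
        have h3 : e.2 = s := h2
        rw [h3] at he
        exact hs he.2
      unfold dsum
      rw [h1, sum_empty]
      exact zero_le_one

private theorem plow_tot {N : ℕ} {W : ℤ × ℤ → ℝ} (hW : Adm N W) : ∑ e ∈ board N, W e = N := by
  have h1 : ∑ e ∈ board N, W e = ∑ x ∈ Finset.Ico (0 : ℤ) N, dsum N W 0 x := by
    unfold dsum
    refine (sum_fiberwise_of_maps_to (g := fun e => ln 0 e) (fun e he => ?_) _).symm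
    rw [Pool.Agent.NQ.mem_board] at he
    exact mem_Ico.2 he.1
  rw [h1, sum_congr rfl fun x hx => hW.row x (mem_Ico.1 hx).1 (mem_Ico.1 hx).2, sum_const, Int.card_Ico,
    sub_zero, Int.toNat_natCast, nsmul_eq_mul, mul_one]

theorem low (L : ℝ) (hL : 1 ≤ L) : ∃ z0 : ℕ, ∀ z N : ℕ, z0 ≤ z → InR z N → ∀ W : ℤ × ℤ → ℝ, Adm N W →
    Bd L N W → 0 < Q N ∧ F N W - N - N / (z : ℝ) ^ 39 ≤ Real.log (Q N) := by
  obtain ⟨Λ0, C, h⟩ := Pool.Agent.NQ.lower
  refine ⟨Λ0 + C + ⌈L⌉₊ + 2, ?_⟩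
  intro z N hz hR W hW hB
  have hz1 : (1 : ℝ) ≤ z := by exact_mod_cast (by omega : 1 ≤ z)
  have hz0 : (0 : ℝ) < z := by linarith
  have hLz : L ≤ z := (Nat.le_ceil L).trans (by exact_mod_cast (by omega : ⌈L⌉₊ ≤ z))
  have hCz : (C : ℝ) ≤ z := by exact_mod_cast (by omega : C ≤ z)
  have hzL : z ≤ z ^ 40 := Nat.le_self_pow (by norm_num) z
  obtain ⟨Λ, hΛ⟩ : ∃ Λ : ℕ, Λ = z ^ 40 := ⟨_, rfl⟩
  have hΛr : (Λ : ℝ) = (z : ℝ) ^ 40 := by rw [hΛ]; push_cast; ring
  have hzΛ : (z : ℝ) ≤ Λ := by rw [hΛ]; exact_mod_cast hzL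
  have hΛ1 : (1 : ℝ) ≤ Λ := hz1.trans hzΛ
  have hLΛ : L ≤ Λ := hLz.trans hzΛ
  have hL0 : 0 < L := by linarith
  have hN1 : (z ^ 40) ^ 500 ≤ N := hR.1
  have hN : 0 < N := lt_of_lt_of_le (pow_pos (pow_pos (by omega : 0 < z) 40) 500) hN1
  have hNr : (0 : ℝ) < N := by exact_mod_cast hN
  have hΛ2 : L ≤ (Λ : ℝ) ^ 2 := hLΛ.trans (le_self_pow₀ hΛ1 (by norm_num))
  have hΛ60 : L ≤ (Λ : ℝ) ^ 60 := hLΛ.trans (le_self_pow₀ hΛ1 (by norm_num))
  have hsq : 1 / (10 * (Λ : ℝ) ^ 2) ≤ 1 / L := by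
    refine one_div_le_one_div_of_le hL0 ?_
    have : 0 ≤ (Λ : ℝ) ^ 2 := by positivity
    linarith
  have hG : Pool.Agent.NQ.GW Λ N W := by
    refine ⟨fun e he => ?_, fun e he => ?_, (plow_le_one hW).1, (plow_le_one hW).2, fun s => ?_,
      fun s => ?_, ?_⟩
    · refine le_trans ?_ (hB.lo e he)
      refine one_div_le_one_div_of_le (by positivity) ?_
      have : 0 ≤ (Λ : ℝ) ^ 2 := by positivity
      exact mul_le_mul_of_nonneg_right (by linarith) hNr.le
    · refine (hB.hi e he).trans ?_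
      exact div_le_div_of_nonneg_right hΛ60 hNr.le
    · have h1 := hB.sd s
      unfold hS at h1
      linarith
    · have h1 := hB.dd s
      unfold hD at h1
      linarith
    · rw [plow_tot hW]
      have h1 : 0 ≤ 1 / (Λ : ℝ) ^ 28 := by positivity
      nlinarith
  have h1 := h Λ N (by rw [hΛ]; omega) (by rw [hΛ]; exact hR.1) (by rw [hΛ]; exact hR.2) W hG
  refine ⟨h1.1, le_trans ?_ h1.2⟩
  have h2 : (C : ℝ) * N / Λ ≤ N / (z : ℝ) ^ 39 := by
    rw [hΛr, div_le_div_iff₀ (by positivity) (by positivity)]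
    have h3 : (z : ℝ) ^ 40 = z * z ^ 39 := by ring
    rw [h3]
    have h4 : 0 ≤ (N : ℝ) * z ^ 39 := by positivity
    nlinarith [mul_le_mul_of_nonneg_right hCz h4]
  linarith

end Pool.Agent.NQR
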