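import Pool.Agent.NQR.Defs

/-!
# NQR-PFoc: first order condition

`sum_dsum2`, ...: fiberwise summation over the lines. `foc`: `V_t = W + t (V - W)`, `0 ≤ t ≤ 1`, is admissible, so
`F N V_t ≤ F N W`. The function `t ↦ F N V_t` has at `t = 0` the derivative
`∑_e (V e - W e)(- log (W e) - 1) + ∑_s log (hS s) (dsum V 2 s - dsum W 2 s) + ∑_s log (hD s) (dsum V 3 s - dsum W 3 s)`
`= ∑_e (V e - W e) (ell N W e)`, because `∑_e V e = ∑_e W e`; the difference quotients for `t > 0` are `≤ 0`.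
-/

set_option autoImplicit false

open Finset

namespace Pool.Agent.NQR

open Pool.Agent.NQ (board dsum F Ent Dg phi ln Q Qset st cellD bern)

private theorem sum_fib (N : ℕ) (W : ℤ × ℤ → ℝ) (f : ℤ → ℝ) (k : Fin 4) (S : Finset ℤ)
    (hS : ∀ e ∈ board N, ln k e ∈ S) :
    ∑ e ∈ board N, W e * f (ln k e) = ∑ s ∈ S, dsum N W k s * f s := by
  rw [← Finset.sum_fiberwise_of_maps_to hS]
  refine Finset.sum_congr rfl fun s _ => ?_
  unfold dsum
  rw [Finset.sum_mul]
  refine Finset.sum_congr rfl fun e he => ?_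
  rw [Finset.mem_filter] at he
  rw [he.2]

private theorem mem_bd {N : ℕ} {e : ℤ × ℤ} (he : e ∈ board N) : 0 ≤ e.1 ∧ e.1 < N ∧ 0 ≤ e.2 ∧ e.2 < N := by
  unfold board at he
  rw [Finset.mem_product, Finset.mem_Ico, Finset.mem_Ico] at he
  exact ⟨he.1.1, he.1.2, he.2.1, he.2.2⟩

/-- summation over the sum diagonals -/
theorem sum_dsum2 (N : ℕ) (W : ℤ × ℤ → ℝ) (f : ℤ → ℝ) :
    ∑ e ∈ board N, W e * f (e.1 + e.2) = ∑ s ∈ Finset.Ico (0 : ℤ) (2 * N), dsum N W 2 s * f s := by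
  refine sum_fib N W f 2 _ fun e he => ?_
  obtain ⟨h1, h2, h3, h4⟩ := mem_bd he
  show e.1 + e.2 ∈ _
  rw [Finset.mem_Ico]
  omega

/-- summation over the difference diagonals -/
theorem sum_dsum3 (N : ℕ) (W : ℤ × ℤ → ℝ) (f : ℤ → ℝ) :
    ∑ e ∈ board N, W e * f (e.1 - e.2) = ∑ s ∈ Finset.Ioo (-(N : ℤ)) N, dsum N W 3 s * f s := by
  refine sum_fib N W f 3 _ fun e he => ?_
  obtain ⟨h1, h2, h3, h4⟩ := mem_bd he
  show e.1 - e.2 ∈ _
  rw [Finset.mem_Ioo]
  omega

/-- summation over the rows -/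
theorem sum_dsum0 (N : ℕ) (W : ℤ × ℤ → ℝ) (f : ℤ → ℝ) :
    ∑ e ∈ board N, W e * f e.1 = ∑ x ∈ Finset.Ico (0 : ℤ) N, dsum N W 0 x * f x := by
  refine sum_fib N W f 0 _ fun e he => ?_
  obtain ⟨h1, h2, h3, h4⟩ := mem_bd he
  show e.1 ∈ _
  rw [Finset.mem_Ico]
  omega

/-- summation over the columns -/
theorem sum_dsum1 (N : ℕ) (W : ℤ × ℤ → ℝ) (f : ℤ → ℝ) :
    ∑ e ∈ board N, W e * f e.2 = ∑ y ∈ Finset.Ico (0 : ℤ) N, dsum N W 1 y * f y := by
  refine sum_fib N W f 1 _ fun e he => ?_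
  obtain ⟨h1, h2, h3, h4⟩ := mem_bd he
  show e.2 ∈ _
  rw [Finset.mem_Ico]
  omega

/-- total mass -/
theorem adm_mass {N : ℕ} {W : ℤ × ℤ → ℝ} (h : Adm N W) : ∑ e ∈ board N, W e = N := by
  have h1 := sum_dsum0 N W (fun _ => 1)
  simp only [mul_one] at h1
  rw [h1, Finset.sum_congr rfl (g := fun _ => (1 : ℝ))]
  · rw [Finset.sum_const, Int.card_Ico, sub_zero, Int.toNat_natCast, nsmul_eq_mul, mul_one]
  · intro x hx
    rw [Finset.mem_Ico] at hx
    exact h.row x hx.1 hx.2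

/-- the segment from `W` to `V` -/
private noncomputable def sg (V W : ℤ × ℤ → ℝ) (t : ℝ) : ℤ × ℤ → ℝ := fun e => W e + t * (V e - W e)

private theorem dsum_sg (N : ℕ) (V W : ℤ × ℤ → ℝ) (t : ℝ) (k : Fin 4) (s : ℤ) :
    dsum N (sg V W t) k s = dsum N W k s + t * (dsum N V k s - dsum N W k s) := by
  unfold dsum sg
  rw [Finset.sum_add_distrib, ← Finset.mul_sum, Finset.sum_sub_distrib]

private theorem dsum_sub (N : ℕ) (V W : ℤ × ℤ → ℝ) (k : Fin 4) (s : ℤ) :
    dsum N (fun e => V e - W e) k s = dsum N V k s - dsum N W k s := by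
  unfold dsum
  rw [Finset.sum_sub_distrib]

private theorem adm_sg {N : ℕ} {V W : ℤ × ℤ → ℝ} (hV : Adm N V) (hW : Adm N W) {t : ℝ} (h0 : 0 ≤ t)
    (h1 : t ≤ 1) : Adm N (sg V W t) where
  nn := fun e => by
    have h2 := hV.nn e
    have h3 := hW.nn e
    have h4 : sg V W t e = (1 - t) * W e + t * V e := by
      unfold sg
      ring
    rw [h4]
    exact add_nonneg (mul_nonneg (by linarith) h3) (mul_nonneg h0 h2)
  out := fun e he => by
    unfold sg
    rw [hV.out e he, hW.out e he]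
    ring
  row := fun x hx hx' => by
    rw [dsum_sg, hV.row x hx hx', hW.row x hx hx']
    ring
  col := fun x hx hx' => by
    rw [dsum_sg, hV.col x hx hx', hW.col x hx hx']
    ring
  sd := fun s => by
    have h2 := hV.sd s
    have h3 := hW.sd s
    rw [dsum_sg]
    nlinarith
  dd := fun s => by
    have h2 := hV.dd s
    have h3 := hW.dd s
    rw [dsum_sg]
    nlinarith

private theorem hd_aff (a d : ℝ) : HasDerivAt (fun t : ℝ => a + t * d) d 0 := by
  have h := ((hasDerivAt_id (0 : ℝ)).mul_const d).const_add a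
  rw [one_mul] at h
  exact h

private theorem hd_neg {a : ℝ} (d : ℝ) (ha : 0 < a) :
    HasDerivAt (fun t : ℝ => Real.negMulLog (a + t * d)) ((-Real.log a - 1) * d) 0 := by
  refine HasDerivAt.comp_of_eq (0 : ℝ) (Real.hasDerivAt_negMulLog ha.ne') (hd_aff a d) ?_
  ring

private theorem hd_phi {a : ℝ} (d : ℝ) (ha : a < 1) :
    HasDerivAt (fun t : ℝ => phi (a + t * d)) (-Real.log (1 - a) * d) 0 := by
  have h0 : 1 - a ≠ 0 := by linarith
  have h1 : HasDerivAt (fun u : ℝ => 1 - u) (-1) a := by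
    have := (hasDerivAt_id a).const_sub 1
    exact this
  have h2 := h1.log h0
  have h3 := (hasDerivAt_id a).add (h1.mul h2)
  have h4 : HasDerivAt phi (-Real.log (1 - a)) a := by
    have e : (1 : ℝ) + (-1 * Real.log (1 - a) + (1 - a) * (-1 / (1 - a))) = -Real.log (1 - a) := by
      field_simp
      ring
    rw [e] at h3
    exact h3
  refine HasDerivAt.comp_of_eq (0 : ℝ) h4 (hd_aff a d) ?_
  ring

theorem foc {N : ℕ} {W : ℤ × ℤ → ℝ} (h : Opt N W) (h0 : ∀ e ∈ board N, 0 < W e)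
    (h2 : ∀ s, dsum N W 2 s < 1) (h3 : ∀ s, dsum N W 3 s < 1) {V : ℤ × ℤ → ℝ} (hV : Adm N V) :
    ∑ e ∈ board N, (V e - W e) * ell N W e ≤ 0 := by
  obtain ⟨hW, hmax⟩ := h
  have hF : ∀ t, F N (sg V W t) = (∑ e ∈ board N, Real.negMulLog (W e + t * (V e - W e))) -
      ((∑ s ∈ Finset.Ico (0 : ℤ) (2 * N), phi (dsum N W 2 s + t * (dsum N V 2 s - dsum N W 2 s))) +
        ∑ s ∈ Finset.Ioo (-(N : ℤ)) N, phi (dsum N W 3 s + t * (dsum N V 3 s - dsum N W 3 s))) := by
    intro t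
    unfold F Ent Dg
    simp only [dsum_sg]
    rfl
  have hd : HasDerivAt (fun t => F N (sg V W t))
      ((∑ e ∈ board N, (-Real.log (W e) - 1) * (V e - W e)) -
        ((∑ s ∈ Finset.Ico (0 : ℤ) (2 * N), -Real.log (1 - dsum N W 2 s) * (dsum N V 2 s - dsum N W 2 s)) +
          ∑ s ∈ Finset.Ioo (-(N : ℤ)) N, -Real.log (1 - dsum N W 3 s) * (dsum N V 3 s - dsum N W 3 s))) 0 := by
    have e1 : (fun t => F N (sg V W t)) = fun t => (∑ e ∈ board N, Real.negMulLog (W e + t * (V e - W e))) -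
      ((∑ s ∈ Finset.Ico (0 : ℤ) (2 * N), phi (dsum N W 2 s + t * (dsum N V 2 s - dsum N W 2 s))) +
        ∑ s ∈ Finset.Ioo (-(N : ℤ)) N, phi (dsum N W 3 s + t * (dsum N V 3 s - dsum N W 3 s))) :=
      funext hF
    rw [e1]
    refine HasDerivAt.sub (HasDerivAt.fun_sum fun e he => hd_neg _ (h0 e he)) (HasDerivAt.add ?_ ?_)
    · exact HasDerivAt.fun_sum fun s _ => hd_phi _ (h2 s)
    · exact HasDerivAt.fun_sum fun s _ => hd_phi _ (h3 s)
  have hval : (∑ e ∈ board N, (-Real.log (W e) - 1) * (V e - W e)) -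
        ((∑ s ∈ Finset.Ico (0 : ℤ) (2 * N), -Real.log (1 - dsum N W 2 s) * (dsum N V 2 s - dsum N W 2 s)) +
          ∑ s ∈ Finset.Ioo (-(N : ℤ)) N, -Real.log (1 - dsum N W 3 s) * (dsum N V 3 s - dsum N W 3 s)) =
      ∑ e ∈ board N, (V e - W e) * ell N W e := by
    have e2 := sum_dsum2 N (fun e => V e - W e) (fun s => Real.log (1 - dsum N W 2 s))
    have e3 := sum_dsum3 N (fun e => V e - W e) (fun s => Real.log (1 - dsum N W 3 s))
    have e4 : ∑ e ∈ board N, (V e - W e) = 0 := by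
      rw [Finset.sum_sub_distrib, adm_mass hV, adm_mass hW, sub_self]
    have e5 : ∑ s ∈ Finset.Ico (0 : ℤ) (2 * N), -Real.log (1 - dsum N W 2 s) * (dsum N V 2 s - dsum N W 2 s) =
        -∑ e ∈ board N, (V e - W e) * Real.log (1 - dsum N W 2 (e.1 + e.2)) := by
      rw [e2, ← Finset.sum_neg_distrib]
      refine Finset.sum_congr rfl fun s _ => ?_
      rw [dsum_sub]
      ring
    have e6 : ∑ s ∈ Finset.Ioo (-(N : ℤ)) N, -Real.log (1 - dsum N W 3 s) * (dsum N V 3 s - dsum N W 3 s) =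
        -∑ e ∈ board N, (V e - W e) * Real.log (1 - dsum N W 3 (e.1 - e.2)) := by
      rw [e3, ← Finset.sum_neg_distrib]
      refine Finset.sum_congr rfl fun s _ => ?_
      rw [dsum_sub]
      ring
    have e7 : ∑ e ∈ board N, (-Real.log (W e) - 1) * (V e - W e) =
        (∑ e ∈ board N, (V e - W e) * (-Real.log (W e))) - ∑ e ∈ board N, (V e - W e) := by
      rw [← Finset.sum_sub_distrib]
      refine Finset.sum_congr rfl fun e _ => ?_
      ring
    rw [e5, e6, e7, e4]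
    unfold ell hS hD
    simp only [mul_add, Finset.sum_add_distrib]
    ring
  rw [hval] at hd
  have hlim := hd.tendsto_slope_zero_right
  refine le_of_tendsto hlim ?_
  filter_upwards [Ioo_mem_nhdsGT (show (0 : ℝ) < 1 by norm_num)] with t ht
  have h4 := hmax _ (adm_sg hV hW ht.1.le ht.2.le)
  have h5 : sg V W 0 = W := by
    funext e
    unfold sg
    ring
  rw [zero_add, h5, smul_eq_mul]
  exact mul_nonpos_of_nonneg_of_nonpos (inv_nonneg.2 ht.1.le) (by linarith)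

end Pool.Agent.NQR
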