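import Pool.Agent.NQR.Defs
import Pool.Agent.NQ.UCelA
import Pool.Agent.NQR.PFoc

/-!
# NQR-GStr: geometry of the parity strips

`l` even, `0 < l ≤ N`, `m = l/2`. `{s : st l s = σ}` has exactly `m` elements if `σ.2 ∈ {0,1}` (`NQ.UCelA.card_st`), and they are
within distance `l` of each other; `st l s = (s/l, s%2)`.

PLAN. `si_card`: `s/l` takes at most `3N/l + 2` values for `-N ≤ s ≤ 2N`. `mD_mean`: `mD/m` is the mean of `dsum N W 3` over
the strip (`dsum = 0` outside of `(-N, N)`: empty filter), so `|p_s - mean| ≤ max |p_s - p_t| ≤ L √(l/N)` and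
`1 - mean` = mean of `hD ≥ 1/L`. `mD_sum`: total mass (`adm_mass`). `mD_log`: Jensen (concavity of `log`) in each
strip: `m log (1 - mD/m) ≥ ∑_{s in strip} log (hD s)`, the terms with `|s| ≥ N` vanish. The same for sums.
`cD_le`: `U.toLeft ∩ strip` has at most `m` elements.
-/

set_option autoImplicit false

open Finset

namespace Pool.Agent.NQR

open Pool.Agent.NQ (board dsum F Ent Dg phi ln Q Qset st cellD bern)

private noncomputable def stp (l : ℤ) (σ : ℤ × ℤ) : Finset ℤ :=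
  (Finset.Ico (σ.1 * l) (σ.1 * l + l)).filter (fun s => s % 2 = σ.2)

private theorem mem_stp {l : ℤ} (hl : 0 < l) (σ : ℤ × ℤ) (s : ℤ) : s ∈ stp l σ ↔ st l s = σ := by
  obtain ⟨a, p⟩ := σ
  unfold stp st
  rw [mem_filter, mem_Ico, Prod.mk.injEq]
  constructor
  · rintro ⟨⟨h1, h2⟩, h3⟩
    refine ⟨?_, h3⟩
    rw [Int.ediv_eq_iff_of_pos hl]
    constructor
    · exact h1
    · show s < a * l + l
      exact h2
  · rintro ⟨h1, h2⟩
    rw [Int.ediv_eq_iff_of_pos hl] at h1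
    exact ⟨h1, h2⟩

private theorem card_stp {l : ℤ} (hl : 0 < l) (he : Even l) (σ : ℤ × ℤ)
    (hp : σ.2 = 0 ∨ σ.2 = 1) : ((stp l σ).card : ℝ) = (l : ℝ) / 2 :=
  Pool.Agent.NQ.card_st hl he σ.1 hp

private theorem stp_empty {l : ℤ} (σ : ℤ × ℤ) (hp : ¬ (σ.2 = 0 ∨ σ.2 = 1)) : stp l σ = ∅ := by
  unfold stp
  rw [filter_eq_empty_iff]
  intro s _ h
  apply hp
  omega

private theorem card_stp_le {l : ℤ} (hl : 0 < l) (he : Even l) (σ : ℤ × ℤ) :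
    ((stp l σ).card : ℝ) ≤ (l : ℝ) / 2 := by
  by_cases hp : σ.2 = 0 ∨ σ.2 = 1
  · exact (card_stp hl he σ hp).le
  · rw [stp_empty σ hp]
    have : (0 : ℝ) < l := by exact_mod_cast hl
    simp only [card_empty, Nat.cast_zero]
    linarith

private theorem sum_stp {l : ℤ} (hl : 0 < l) (R : Finset ℤ) (f : ℤ → ℝ) (hf : ∀ s, s ∉ R → f s = 0)
    (σ : ℤ × ℤ) : ∑ s ∈ R.filter (fun s => st l s = σ), f s = ∑ s ∈ stp l σ, f s := by
  apply sum_subset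
  · intro s hs
    rw [mem_filter] at hs
    rw [mem_stp hl]
    exact hs.2
  · intro s hs hs2
    apply hf
    intro h
    apply hs2
    rw [mem_filter]
    exact ⟨h, (mem_stp hl σ s).1 hs⟩

private theorem si_valid {N : ℕ} {l : ℤ} {σ : ℤ × ℤ} (h : σ ∈ SI N l) : σ.2 = 0 ∨ σ.2 = 1 := by
  unfold SI at h
  rw [mem_image] at h
  obtain ⟨s, _, rfl⟩ := h
  unfold st
  show s % 2 = 0 ∨ s % 2 = 1
  omega

private theorem sum_si {N : ℕ} {l : ℤ} (R : Finset ℤ) (hR : R ⊆ Finset.Icc (-(N : ℤ)) (2 * N))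
    (f : ℤ → ℝ) : ∑ σ ∈ SI N l, ∑ s ∈ R.filter (fun s => st l s = σ), f s = ∑ s ∈ R, f s := by
  apply sum_fiberwise_of_maps_to
  intro s hs
  unfold SI
  exact mem_image_of_mem _ (hR hs)

private theorem st_dist {l : ℤ} {N : ℕ} (hl : 0 < l) {s t : ℤ} (h : st l t = st l s) :
    Real.sqrt ((|s - t| : ℤ) / N) ≤ Real.sqrt (l / N) := by
  apply Real.sqrt_le_sqrt
  apply div_le_div_of_nonneg_right _ (Nat.cast_nonneg _)
  have h1 := (mem_stp hl (st l s) s).2 rfl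
  have h2 := (mem_stp hl (st l s) t).2 h
  unfold stp at h1 h2
  rw [mem_filter, mem_Ico] at h1 h2
  have h3 : |s - t| ≤ l := by
    rw [abs_le]
    constructor <;> linarith [h1.1.1, h1.1.2, h2.1.1, h2.1.2]
  exact_mod_cast h3

private theorem gen_mean {L : ℝ} (hL : 1 ≤ L) {N : ℕ} (R : Finset ℤ) (f : ℤ → ℝ)
    (hf : ∀ s, s ∉ R → f s = 0)
    (hp : ∀ s t : ℤ, |f s - f t| ≤ L * Real.sqrt ((|s - t| : ℤ) / N)) {l : ℤ} (hl : 0 < l)
    (he : Even l) (s : ℤ) :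
    |f s - (∑ t ∈ R.filter (fun t => st l t = st l s), f t) / ((l : ℝ) / 2)| ≤
      L * Real.sqrt (l / N) := by
  rw [sum_stp hl R f hf]
  have hv : (st l s).2 = 0 ∨ (st l s).2 = 1 := by
    unfold st
    show s % 2 = 0 ∨ s % 2 = 1
    omega
  have hc := card_stp hl he (st l s) hv
  have hl0 : (0 : ℝ) < (l : ℝ) / 2 := by
    have : (0 : ℝ) < l := by exact_mod_cast hl
    linarith
  have h1 : f s - (∑ t ∈ stp l (st l s), f t) / ((l : ℝ) / 2) =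
      (∑ t ∈ stp l (st l s), (f s - f t)) / ((l : ℝ) / 2) := by
    rw [sum_sub_distrib, sum_const, nsmul_eq_mul, hc]
    field_simp
  rw [h1, abs_div, abs_of_pos hl0, div_le_iff₀ hl0]
  calc |∑ t ∈ stp l (st l s), (f s - f t)| ≤ ∑ t ∈ stp l (st l s), |f s - f t| :=
        abs_sum_le_sum_abs _ _
    _ ≤ ∑ _t ∈ stp l (st l s), L * Real.sqrt (l / N) := by
        apply sum_le_sum
        intro t ht
        refine (hp s t).trans ?_
        apply mul_le_mul_of_nonneg_left _ (by linarith)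
        exact st_dist hl ((mem_stp hl _ _).1 ht)
    _ = L * Real.sqrt (l / N) * ((l : ℝ) / 2) := by
        rw [sum_const, nsmul_eq_mul, hc]
        ring

private theorem gen_lt {L : ℝ} (hL : 1 ≤ L) (R : Finset ℤ) (f : ℤ → ℝ)
    (hf : ∀ s, s ∉ R → f s = 0) (h0 : ∀ s, 0 ≤ f s) (h1 : ∀ s, 1 / L ≤ 1 - f s) {l : ℤ}
    (hl : 0 < l) (he : Even l) (σ : ℤ × ℤ) :
    0 ≤ ∑ t ∈ R.filter (fun t => st l t = σ), f t ∧
      (∑ t ∈ R.filter (fun t => st l t = σ), f t) / ((l : ℝ) / 2) ≤ 1 - 1 / L := by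
  refine ⟨sum_nonneg fun t _ => h0 t, ?_⟩
  rw [sum_stp hl R f hf]
  have hl0 : (0 : ℝ) < (l : ℝ) / 2 := by
    have : (0 : ℝ) < l := by exact_mod_cast hl
    linarith
  have hL1 : 0 ≤ 1 - 1 / L := by
    have : 1 / L ≤ 1 := by
      rw [div_le_one (by linarith)]
      exact hL
    linarith
  rw [div_le_iff₀ hl0]
  calc ∑ t ∈ stp l σ, f t ≤ ∑ _t ∈ stp l σ, (1 - 1 / L) :=
        sum_le_sum fun t _ => by linarith [h1 t]
    _ = (stp l σ).card * (1 - 1 / L) := by rw [sum_const, nsmul_eq_mul]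
    _ ≤ (l : ℝ) / 2 * (1 - 1 / L) := mul_le_mul_of_nonneg_right (card_stp_le hl he σ) hL1
    _ = (1 - 1 / L) * ((l : ℝ) / 2) := by ring

private theorem jensen {ι : Type*} (T : Finset ι) (hT : T.Nonempty) (g : ι → ℝ) (hg : ∀ t ∈ T, 0 < g t) :
    ∑ t ∈ T, Real.log (g t) ≤ T.card * Real.log ((∑ t ∈ T, g t) / T.card) := by
  have hc : (0 : ℝ) < T.card := by exact_mod_cast hT.card_pos
  have h := strictConcaveOn_log_Ioi.concaveOn.le_map_sum (t := T) (w := fun _ => 1 / (T.card : ℝ))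
    (p := g) (fun _ _ => by positivity) (by
      rw [sum_const, nsmul_eq_mul]
      field_simp) (fun t ht => hg t ht)
  simp only [smul_eq_mul] at h
  rw [← mul_sum, ← mul_sum] at h
  have e1 : 1 / (T.card : ℝ) * ∑ t ∈ T, g t = (∑ t ∈ T, g t) / T.card := by ring
  rw [e1] at h
  have e2 : 1 / (T.card : ℝ) * ∑ t ∈ T, Real.log (g t) = (∑ t ∈ T, Real.log (g t)) / T.card := by ring
  rw [e2, div_le_iff₀ hc] at h
  linarith

private theorem gen_log {L : ℝ} (hL : 1 ≤ L) {N : ℕ} (R : Finset ℤ)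
    (hR : R ⊆ Finset.Icc (-(N : ℤ)) (2 * N)) (f : ℤ → ℝ)
    (hf : ∀ s, s ∉ R → f s = 0) (h1 : ∀ s, 1 / L ≤ 1 - f s) {l : ℤ}
    (hl : 0 < l) (he : Even l) :
    ∑ σ ∈ SI N l, (-((l : ℝ) / 2 *
      Real.log (1 - (∑ t ∈ R.filter (fun t => st l t = σ), f t) / ((l : ℝ) / 2)))) ≤
      - ∑ s ∈ R, Real.log (1 - f s) := by
  have hl0 : (0 : ℝ) < (l : ℝ) / 2 := by
    have : (0 : ℝ) < l := by exact_mod_cast hl
    linarith
  rw [← sum_si (N := N) (l := l) R hR (fun s => Real.log (1 - f s)), ← sum_neg_distrib]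
  apply sum_le_sum
  intro σ hσ
  have hv := si_valid hσ
  have hc := card_stp hl he σ hv
  rw [sum_stp hl R f hf, sum_stp hl R (fun s => Real.log (1 - f s)) (fun s hs => by
    show Real.log (1 - f s) = 0
    rw [hf s hs]; simp)]
  have hne : (stp l σ).Nonempty := by
    rw [← card_pos]
    have : (0 : ℝ) < (stp l σ).card := by rw [hc]; exact hl0
    exact_mod_cast this
  have hj := jensen (stp l σ) hne (fun s => 1 - f s) (fun s _ => by
    have : 0 < 1 / L := by positivity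
    linarith [h1 s])
  rw [hc] at hj
  have e : (∑ s ∈ stp l σ, (1 - f s)) / ((l : ℝ) / 2) = 1 - (∑ s ∈ stp l σ, f s) / ((l : ℝ) / 2) := by
    rw [sum_sub_distrib, sum_const, nsmul_eq_mul, hc]
    field_simp
  rw [e] at hj
  linarith

private theorem dsum3_zero {N : ℕ} (W : ℤ × ℤ → ℝ) (s : ℤ) (hs : s ∉ Finset.Ioo (-(N : ℤ)) N) :
    dsum N W 3 s = 0 := by
  unfold Pool.Agent.NQ.dsum
  rw [filter_eq_empty_iff.2, sum_empty]
  intro e he h
  rw [Pool.Agent.NQ.mem_board] at he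
  rw [Pool.Agent.NQ.ln_three] at h
  apply hs
  rw [mem_Ioo]
  constructor <;> omega

private theorem dsum2_zero {N : ℕ} (W : ℤ × ℤ → ℝ) (s : ℤ) (hs : s ∉ Finset.Ico (0 : ℤ) (2 * N)) :
    dsum N W 2 s = 0 := by
  unfold Pool.Agent.NQ.dsum
  rw [filter_eq_empty_iff.2, sum_empty]
  intro e he h
  rw [Pool.Agent.NQ.mem_board] at he
  rw [Pool.Agent.NQ.ln_two] at h
  apply hs
  rw [mem_Ico]
  constructor <;> omega

private theorem subR3 (N : ℕ) : Finset.Ioo (-(N : ℤ)) N ⊆ Finset.Icc (-(N : ℤ)) N := by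
  intro s hs
  rw [mem_Ioo] at hs
  rw [mem_Icc]
  omega

private theorem subR2 (N : ℕ) : Finset.Ico (0 : ℤ) (2 * N) ⊆ Finset.Icc (0 : ℤ) (2 * N) := by
  intro s hs
  rw [mem_Ico] at hs
  rw [mem_Icc]
  omega

private theorem mD_z {N : ℕ} (W : ℤ × ℤ → ℝ) (s : ℤ) (hs : s ∉ Finset.Icc (-(N : ℤ)) N) :
    dsum N W 3 s = 0 := dsum3_zero W s (fun h => hs (subR3 N h))

private theorem mS_z {N : ℕ} (W : ℤ × ℤ → ℝ) (s : ℤ) (hs : s ∉ Finset.Icc (0 : ℤ) (2 * N)) :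
    dsum N W 2 s = 0 := dsum2_zero W s (fun h => hs (subR2 N h))

private theorem dsum_nn {N : ℕ} {W : ℤ × ℤ → ℝ} (h : Adm N W) (k : Fin 4) (s : ℤ) :
    0 ≤ dsum N W k s := by
  unfold Pool.Agent.NQ.dsum
  exact sum_nonneg fun e _ => h.nn e

theorem si_card {N : ℕ} {l : ℤ} (hl : 0 < l) (hlN : l ≤ N) : ((SI N l).card : ℝ) ≤ 10 * N / l := by
  have hl0 : (0 : ℝ) < l := by exact_mod_cast hl
  have h1 : SI N l ⊆ (Finset.Icc (-(N : ℤ) / l) (2 * N / l)) ×ˢ ({0, 1} : Finset ℤ) := by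
    intro σ hσ
    have hv := si_valid hσ
    unfold SI at hσ
    rw [mem_image] at hσ
    obtain ⟨s, hs, rfl⟩ := hσ
    rw [mem_Icc] at hs
    rw [mem_product, mem_Icc]
    refine ⟨⟨?_, ?_⟩, ?_⟩
    · exact Int.ediv_le_ediv hl hs.1
    · exact Int.ediv_le_ediv hl hs.2
    · rw [mem_insert, mem_singleton]
      exact hv
  have h2 := card_le_card h1
  rw [card_product, Int.card_Icc] at h2
  have h3 : ({0, 1} : Finset ℤ).card = 2 := by decide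
  rw [h3] at h2
  have a1 := Int.ediv_mul_le (2 * (N : ℤ)) hl.ne'
  have a2 := Int.lt_ediv_add_one_mul_self (-(N : ℤ)) hl
  have a3 : (2 * (N : ℤ) / l : ℤ) * (l : ℝ) ≤ 2 * N := by exact_mod_cast a1
  have a4 : (-(N : ℝ)) < ((-(N : ℤ) / l : ℤ) + 1 : ℝ) * l := by exact_mod_cast a2
  have hlN' : (l : ℝ) ≤ N := by exact_mod_cast hlN
  have h4 : (((2 * (N : ℤ) / l + 1 - -(N : ℤ) / l).toNat : ℕ) : ℝ) * l ≤ 5 * N := by
    by_cases hneg : 0 ≤ 2 * (N : ℤ) / l + 1 - -(N : ℤ) / l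
    · have e1 : (((2 * (N : ℤ) / l + 1 - -(N : ℤ) / l).toNat : ℤ) : ℝ) =
          ((2 * (N : ℤ) / l + 1 - -(N : ℤ) / l : ℤ) : ℝ) := by rw [Int.toNat_of_nonneg hneg]
      have e2 : (((2 * (N : ℤ) / l + 1 - -(N : ℤ) / l).toNat : ℕ) : ℝ) =
          (((2 * (N : ℤ) / l + 1 - -(N : ℤ) / l).toNat : ℤ) : ℝ) := by norm_cast
      rw [e2, e1]
      push_cast
      nlinarith
    · rw [Int.toNat_of_nonpos (by omega)]
      simp only [Nat.cast_zero, zero_mul]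
      positivity
  have h5 : ((SI N l).card : ℝ) ≤
      (((2 * (N : ℤ) / l + 1 - -(N : ℤ) / l).toNat : ℕ) : ℝ) * 2 := by exact_mod_cast h2
  rw [le_div_iff₀ hl0]
  nlinarith

theorem cD_le {l : ℤ} (hl : 0 < l) (he : Even l) (U : Finset (ℤ ⊕ ℤ)) (σ : ℤ × ℤ) :
    (cD l U σ : ℝ) ≤ (l : ℝ) / 2 := by
  refine le_trans ?_ (card_stp_le hl he σ)
  have h : cD l U σ ≤ (stp l σ).card := by
    unfold cD
    apply card_le_card
    intro s hs
    rw [mem_filter] at hs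
    rw [mem_stp hl]
    exact hs.2
  exact_mod_cast h

theorem cS_le {l : ℤ} (hl : 0 < l) (he : Even l) (U : Finset (ℤ ⊕ ℤ)) (σ : ℤ × ℤ) :
    (cS l U σ : ℝ) ≤ (l : ℝ) / 2 := by
  refine le_trans ?_ (card_stp_le hl he σ)
  have h : cS l U σ ≤ (stp l σ).card := by
    unfold cS
    apply card_le_card
    intro s hs
    rw [mem_filter] at hs
    rw [mem_stp hl]
    exact hs.2
  exact_mod_cast h

theorem mD_mean {L : ℝ} (hL : 1 ≤ L) {N : ℕ} {W : ℤ × ℤ → ℝ} {A B : ℤ → ℝ} (h : Rf L N W A B) {l : ℤ}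
    (hl : 0 < l) (he : Even l) (s : ℤ) : |dsum N W 3 s - mD N W l (st l s) / ((l : ℝ) / 2)| ≤
      L * Real.sqrt (l / N) :=
  gen_mean hL (Finset.Icc (-(N : ℤ)) N) (dsum N W 3) (mD_z W) h.hp hl he s

theorem mS_mean {L : ℝ} (hL : 1 ≤ L) {N : ℕ} {W : ℤ × ℤ → ℝ} {A B : ℤ → ℝ} (h : Rf L N W A B) {l : ℤ}
    (hl : 0 < l) (he : Even l) (s : ℤ) : |dsum N W 2 s - mS N W l (st l s) / ((l : ℝ) / 2)| ≤
      L * Real.sqrt (l / N) :=
  gen_mean hL (Finset.Icc (0 : ℤ) (2 * N)) (dsum N W 2) (mS_z W) h.hq hl he s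

theorem mD_lt {L : ℝ} (hL : 1 ≤ L) {N : ℕ} {W : ℤ × ℤ → ℝ} {A B : ℤ → ℝ} (h : Rf L N W A B) {l : ℤ}
    (hl : 0 < l) (he : Even l) (σ : ℤ × ℤ) :
    0 ≤ mD N W l σ ∧ mD N W l σ / ((l : ℝ) / 2) ≤ 1 - 1 / L :=
  gen_lt hL (Finset.Icc (-(N : ℤ)) N) (dsum N W 3) (mD_z W) (dsum_nn h.adm 3) h.bd.dd hl he σ

theorem mS_lt {L : ℝ} (hL : 1 ≤ L) {N : ℕ} {W : ℤ × ℤ → ℝ} {A B : ℤ → ℝ} (h : Rf L N W A B) {l : ℤ}
    (hl : 0 < l) (he : Even l) (σ : ℤ × ℤ) :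
    0 ≤ mS N W l σ ∧ mS N W l σ / ((l : ℝ) / 2) ≤ 1 - 1 / L :=
  gen_lt hL (Finset.Icc (0 : ℤ) (2 * N)) (dsum N W 2) (mS_z W) (dsum_nn h.adm 2) h.bd.sd hl he σ

theorem mD_sum {N : ℕ} {W : ℤ × ℤ → ℝ} (h : Adm N W) (l : ℤ) : ∑ σ ∈ SI N l, mD N W l σ = N := by
  unfold mD
  rw [sum_si (N := N) (l := l) (Finset.Icc (-(N : ℤ)) N) (by
    intro s hs
    rw [mem_Icc] at hs ⊢
    constructor <;> omega) (dsum N W 3)]
  rw [← sum_subset (subR3 N) (fun s _ hs => dsum3_zero W s hs)]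
  have h1 := sum_dsum3 N W (fun _ => 1)
  simp only [mul_one] at h1
  rw [← h1]
  exact adm_mass h

theorem mS_sum {N : ℕ} {W : ℤ × ℤ → ℝ} (h : Adm N W) (l : ℤ) : ∑ σ ∈ SI N l, mS N W l σ = N := by
  unfold mS
  rw [sum_si (N := N) (l := l) (Finset.Icc (0 : ℤ) (2 * N)) (by
    intro s hs
    rw [mem_Icc] at hs ⊢
    constructor <;> omega) (dsum N W 2)]
  rw [← sum_subset (subR2 N) (fun s _ hs => dsum2_zero W s hs)]
  have h1 := sum_dsum2 N W (fun _ => 1)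
  simp only [mul_one] at h1
  rw [← h1]
  exact adm_mass h

theorem mD_log {L : ℝ} (hL : 1 ≤ L) {N : ℕ} {W : ℤ × ℤ → ℝ} {A B : ℤ → ℝ} (h : Rf L N W A B) {l : ℤ}
    (hl : 0 < l) (he : Even l) :
    ∑ σ ∈ SI N l, (-((l : ℝ) / 2 * Real.log (1 - mD N W l σ / ((l : ℝ) / 2)))) ≤
      - ∑ s ∈ Finset.Ioo (-(N : ℤ)) N, Real.log (hD N W s) := by
  have h1 := gen_log (N := N) hL (Finset.Icc (-(N : ℤ)) N) (by
    intro s hs
    rw [mem_Icc] at hs ⊢
    constructor <;> omega) (dsum N W 3) (mD_z W) h.bd.dd hl he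
  refine h1.trans (le_of_eq ?_)
  congr 1
  symm
  apply sum_subset (subR3 N)
  intro s _ hs
  unfold hD
  rw [dsum3_zero W s hs]
  simp

theorem mS_log {L : ℝ} (hL : 1 ≤ L) {N : ℕ} {W : ℤ × ℤ → ℝ} {A B : ℤ → ℝ} (h : Rf L N W A B) {l : ℤ}
    (hl : 0 < l) (he : Even l) :
    ∑ σ ∈ SI N l, (-((l : ℝ) / 2 * Real.log (1 - mS N W l σ / ((l : ℝ) / 2)))) ≤
      - ∑ s ∈ Finset.Ico (0 : ℤ) (2 * N), Real.log (hS N W s) := by
  have h1 := gen_log (N := N) hL (Finset.Icc (0 : ℤ) (2 * N)) (by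
    intro s hs
    rw [mem_Icc] at hs ⊢
    constructor <;> omega) (dsum N W 2) (mS_z W) h.bd.sd hl he
  refine h1.trans (le_of_eq ?_)
  congr 1
  symm
  apply sum_subset (subR2 N)
  intro s _ hs
  unfold hS
  rw [dsum2_zero W s hs]
  simp

end Pool.Agent.NQR
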