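import Pool.Agent.NQR.Defs
import Pool.Agent.NQR.GStr

/-!
# NQR-GCelA: the reference weights on a cell

Two squares `e, e'` with `cellD l e = cellD l e'` have sums and differences within `l` of each other, so
`|x - x'|, |y - y'| ≤ l`. `rp N l D` is a square of the board in the cell (`D ∈ DI`). Write `ρ = √(l/N) ≤ 1`.
`A e.1 * B e.2` and `A rp * B rp`: both in `[1/(L² N), L²/N]`, difference `≤ 2 L² ρ/N`, so the logarithms differ by
`≤ C ρ`. The two diagonal factors: `mD_mean`, `mS_mean`, both in `[1/L, 1]`. Hence `W e` and `Wh/m²`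
(`m = l/2`, `Wh/m² = (1 - mS/m)(1 - mD/m) A B (rp)`) differ by `≤ C ρ/N` and `W e ≤ (1 + C ρ) Wh/m²`.
-/

set_option autoImplicit false

open Finset

namespace Pool.Agent.NQR

open Pool.Agent.NQ (board dsum F Ent Dg phi ln Q Qset st cellD bern)

private theorem floor_close {l s s' : ℤ} (hl : 0 < l) (h : s / l = s' / l) : |s - s'| < l := by
  have h1 := Int.emod_nonneg s hl.ne'
  have h2 := Int.emod_lt_of_pos s hl
  have h3 := Int.mul_ediv_add_emod s l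
  have h1' := Int.emod_nonneg s' hl.ne'
  have h2' := Int.emod_lt_of_pos s' hl
  have h3' := Int.mul_ediv_add_emod s' l
  rw [h] at h3
  rw [abs_lt]
  constructor <;> linarith

private theorem cell_close {l : ℤ} (hl : 0 < l) {e e' : ℤ × ℤ} (h : cellD l e = cellD l e') :
    |e.1 - e'.1| ≤ l ∧ |e.2 - e'.2| ≤ l := by
  have h2 : (e.1 + e.2) / l = (e'.1 + e'.2) / l := congrArg (fun D => D.1.1) h
  have h3 : (e.1 - e.2) / l = (e'.1 - e'.2) / l := congrArg (fun D => D.2.1) h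
  have c2 := abs_lt.1 (floor_close hl h2)
  have c3 := abs_lt.1 (floor_close hl h3)
  constructor <;> rw [abs_le] <;> constructor <;> linarith [c2.1, c2.2, c3.1, c3.2]

private theorem rp_spec {N : ℕ} {l : ℤ} {e : ℤ × ℤ} (he : e ∈ board N) :
    rp N l (cellD l e) ∈ board N ∧ cellD l (rp N l (cellD l e)) = cellD l e := by
  have h : ∃ e' ∈ board N, cellD l e' = cellD l e := ⟨e, he, rfl⟩
  unfold rp
  rw [dif_pos h]
  exact h.choose_spec

private theorem mem_bd {N : ℕ} {e : ℤ × ℤ} (he : e ∈ board N) :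
    0 ≤ e.1 ∧ e.1 < N ∧ 0 ≤ e.2 ∧ e.2 < N := by
  unfold Pool.Agent.NQ.board at he
  rw [Finset.mem_product, Finset.mem_Ico, Finset.mem_Ico] at he
  exact ⟨he.1.1, he.1.2, he.2.1, he.2.2⟩

private theorem dsum_nn {N : ℕ} {W : ℤ × ℤ → ℝ} (h : Adm N W) (k : Fin 4) (s : ℤ) : 0 ≤ dsum N W k s :=
  Finset.sum_nonneg fun e _ => h.nn e

private theorem hold_le {L N a : ℝ} {z l : ℤ} (hL : 0 ≤ L) (hN : 0 < N) (hz : |z| ≤ l)
    (h : a ≤ L / Real.sqrt N * Real.sqrt ((|z| : ℤ) / N)) : a ≤ L / Real.sqrt N * Real.sqrt (l / N) := by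
  refine le_trans h (mul_le_mul_of_nonneg_left (Real.sqrt_le_sqrt ?_) (div_nonneg hL (Real.sqrt_nonneg _)))
  exact div_le_div_of_nonneg_right (by exact_mod_cast hz) hN.le

private theorem prod_close {L N ρ a a' b b' : ℝ} (hL : 0 ≤ L) (hN : 0 < N) (ha : 0 ≤ a) (ha2 : a ≤ L / Real.sqrt N)
    (hb' : 0 ≤ b') (hb2 : b' ≤ L / Real.sqrt N) (hρ : 0 ≤ ρ) (h1 : |a - a'| ≤ L / Real.sqrt N * ρ)
    (h2 : |b - b'| ≤ L / Real.sqrt N * ρ) : |a * b - a' * b'| ≤ 2 * L ^ 2 * ρ / N := by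
  have hs : 0 < Real.sqrt N := Real.sqrt_pos.2 hN
  have e1 : a * b - a' * b' = a * (b - b') + (a - a') * b' := by ring
  have hq : 0 ≤ L / Real.sqrt N := div_nonneg hL hs.le
  have hsq : L / Real.sqrt N * (L / Real.sqrt N) = L ^ 2 / N := by
    rw [div_mul_div_comm, Real.mul_self_sqrt hN.le, sq]
  calc |a * b - a' * b'| ≤ |a * (b - b')| + |(a - a') * b'| := by rw [e1]; exact abs_add_le _ _
    _ = a * |b - b'| + |a - a'| * b' := by rw [abs_mul, abs_mul, abs_of_nonneg ha, abs_of_nonneg hb']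
    _ ≤ L / Real.sqrt N * (L / Real.sqrt N * ρ) + L / Real.sqrt N * ρ * (L / Real.sqrt N) :=
        add_le_add (mul_le_mul ha2 h2 (abs_nonneg _) hq)
          (mul_le_mul h1 hb2 hb' (mul_nonneg hq hρ))
    _ = 2 * (L / Real.sqrt N * (L / Real.sqrt N)) * ρ := by ring
    _ = 2 * L ^ 2 * ρ / N := by rw [hsq]; ring

private theorem prod_bounds {L N a b : ℝ} (hL : 1 ≤ L) (hN : 0 < N) (ha1 : 1 / (L * Real.sqrt N) ≤ a)
    (ha2 : a ≤ L / Real.sqrt N) (hb1 : 1 / (L * Real.sqrt N) ≤ b) (hb2 : b ≤ L / Real.sqrt N) :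
    1 / (L ^ 2 * N) ≤ a * b ∧ a * b ≤ L ^ 2 / N := by
  have hs : 0 < Real.sqrt N := Real.sqrt_pos.2 hN
  have hL0 : 0 < L := by linarith
  have hq : 0 ≤ 1 / (L * Real.sqrt N) := by positivity
  have hq2 : 0 ≤ L / Real.sqrt N := by positivity
  constructor
  · have e1 : 1 / (L ^ 2 * N) = 1 / (L * Real.sqrt N) * (1 / (L * Real.sqrt N)) := by
      rw [div_mul_div_comm, one_mul]
      congr 1
      calc L ^ 2 * N = L ^ 2 * (Real.sqrt N * Real.sqrt N) := by rw [Real.mul_self_sqrt hN.le]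
        _ = _ := by ring
    rw [e1]
    exact mul_le_mul ha1 hb1 hq (le_trans hq ha1)
  · have e1 : L ^ 2 / N = L / Real.sqrt N * (L / Real.sqrt N) := by
      rw [div_mul_div_comm, Real.mul_self_sqrt hN.le, sq]
    rw [e1]
    exact mul_le_mul ha2 hb2 (le_trans hq hb1) hq2

private theorem log_close {L N ρ P P' : ℝ} (hL : 1 ≤ L) (hN : 0 < N) (hP : 1 / (L ^ 2 * N) ≤ P)
    (hP' : 1 / (L ^ 2 * N) ≤ P') (hd : |P - P'| ≤ 2 * L ^ 2 * ρ / N) :
    Real.log P' - Real.log P ≤ 2 * L ^ 4 * ρ := by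
  have hL0 : 0 < L := by linarith
  have h0 : 0 < 1 / (L ^ 2 * N) := by positivity
  have hP0 : 0 < P := lt_of_lt_of_le h0 hP
  have hP0' : 0 < P' := lt_of_lt_of_le h0 hP'
  rw [← Real.log_div hP0'.ne' hP0.ne']
  have h1 := Real.log_le_sub_one_of_pos (div_pos hP0' hP0)
  refine le_trans h1 ?_
  have h2 : P' / P - 1 = (P' - P) / P := by
    rw [sub_div, div_self hP0.ne']
  rw [h2, div_le_iff₀ hP0]
  have h3 : P' - P ≤ 2 * L ^ 2 * ρ / N := by
    have := neg_le_of_abs_le hd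
    linarith
  have h4 : 0 ≤ 2 * L ^ 4 * ρ := by
    have h5 := le_trans (abs_nonneg _) hd
    have h6 : 0 ≤ ρ := by
      by_contra h
      push Not at h
      have : 2 * L ^ 2 * ρ / N < 0 := div_neg_of_neg_of_pos (mul_neg_of_pos_of_neg (by positivity) h) hN
      linarith
    positivity
  calc P' - P ≤ 2 * L ^ 2 * ρ / N := h3
    _ = 2 * L ^ 4 * ρ * (1 / (L ^ 2 * N)) := by field_simp
    _ ≤ 2 * L ^ 4 * ρ * P := mul_le_mul_of_nonneg_left hP h4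

private theorem core {L N ρ P P' u v u' v' : ℝ} (hL : 1 ≤ L) (hN : 0 < N) (hρ : 0 ≤ ρ)
    (hP : 1 / (L ^ 2 * N) ≤ P) (hP2 : P ≤ L ^ 2 / N) (hP' : 1 / (L ^ 2 * N) ≤ P')
    (hd : |P - P'| ≤ 2 * L ^ 2 * ρ / N) (hu2 : u ≤ 1) (hu : 0 ≤ u)
    (hu' : 1 / L ≤ u') (hu2' : u' ≤ 1) (hv' : 1 / L ≤ v') (hv2' : v' ≤ 1)
    (hdu : |u' - u| ≤ L * ρ) (hdv : |v' - v| ≤ L * ρ) :
    |u' * v' * P' - P * (u * v)| ≤ 4 * L ^ 3 * ρ / N ∧
    4 * L ^ 3 * ρ / N ≤ 4 * L ^ 7 * ρ * (u' * v' * P') := by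
  have hL0 : 0 < L := by linarith
  have h0 : 0 < 1 / (L ^ 2 * N) := by positivity
  have hP0 : 0 < P := lt_of_lt_of_le h0 hP
  have hP0' : 0 < P' := lt_of_lt_of_le h0 hP'
  have hi : 0 < 1 / L := by positivity
  have hu0' : 0 < u' := lt_of_lt_of_le hi hu'
  have hv0' : 0 < v' := lt_of_lt_of_le hi hv'
  constructor
  · have e1 : u' * v' * P' - P * (u * v) = u' * v' * (P' - P) + (P * v') * (u' - u) + (P * u) * (v' - v) := by ring
    have huv : u' * v' ≤ 1 := mul_le_one₀ hu2' hv0'.le hv2'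
    have t1 : |u' * v' * (P' - P)| ≤ 2 * L ^ 2 * ρ / N := by
      rw [abs_mul, abs_of_nonneg (mul_nonneg hu0'.le hv0'.le), abs_sub_comm]
      calc u' * v' * |P - P'| ≤ 1 * |P - P'| := mul_le_mul_of_nonneg_right huv (abs_nonneg _)
        _ = |P - P'| := one_mul _
        _ ≤ _ := hd
    have t2 : |(P * v') * (u' - u)| ≤ L ^ 2 / N * (L * ρ) := by
      rw [abs_mul, abs_of_nonneg (mul_nonneg hP0.le hv0'.le)]
      refine mul_le_mul ?_ hdu (abs_nonneg _) (by positivity)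
      calc P * v' ≤ P * 1 := mul_le_mul_of_nonneg_left hv2' hP0.le
        _ = P := mul_one _
        _ ≤ _ := hP2
    have t3 : |(P * u) * (v' - v)| ≤ L ^ 2 / N * (L * ρ) := by
      rw [abs_mul, abs_of_nonneg (mul_nonneg hP0.le hu)]
      refine mul_le_mul ?_ hdv (abs_nonneg _) (by positivity)
      calc P * u ≤ P * 1 := mul_le_mul_of_nonneg_left hu2 hP0.le
        _ = P := mul_one _
        _ ≤ _ := hP2
    have hLL : L ^ 2 ≤ L ^ 3 := pow_le_pow_right₀ hL (by norm_num)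
    calc |u' * v' * P' - P * (u * v)| ≤ |u' * v' * (P' - P)| + |(P * v') * (u' - u)| + |(P * u) * (v' - v)| := by
          rw [e1]
          exact le_trans (abs_add_le _ _) (add_le_add (abs_add_le _ _) le_rfl)
      _ ≤ 2 * L ^ 2 * ρ / N + L ^ 2 / N * (L * ρ) + L ^ 2 / N * (L * ρ) := add_le_add (add_le_add t1 t2) t3
      _ = (2 * L ^ 2 + 2 * L ^ 3) * (ρ / N) := by ring
      _ ≤ (4 * L ^ 3) * (ρ / N) := mul_le_mul_of_nonneg_right (by linarith) (by positivity)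
      _ = 4 * L ^ 3 * ρ / N := by ring
  · have h1 : 1 / L * (1 / L) * (1 / (L ^ 2 * N)) ≤ u' * v' * P' :=
      mul_le_mul (mul_le_mul hu' hv' hi.le hu0'.le) hP' h0.le (mul_nonneg hu0'.le hv0'.le)
    calc 4 * L ^ 3 * ρ / N = 4 * L ^ 7 * ρ * (1 / L * (1 / L) * (1 / (L ^ 2 * N))) := by field_simp
      _ ≤ _ := mul_le_mul_of_nonneg_left h1 (by positivity)

theorem cell_facts (L : ℝ) (hL : 1 ≤ L) : ∃ C : ℝ, 1 ≤ C ∧ ∀ (N : ℕ) (W : ℤ × ℤ → ℝ) (A B : ℤ → ℝ),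
    1 ≤ N → Rf L N W A B → ∀ l : ℤ, 0 < l → Even l → l ≤ N → ∀ e ∈ board N,
      |Wh N W A B l (cellD l e) / ((l : ℝ) / 2) ^ 2 - W e| ≤ C * Real.sqrt (l / N) / N ∧
      W e ≤ (1 + C * Real.sqrt (l / N)) * (Wh N W A B l (cellD l e) / ((l : ℝ) / 2) ^ 2) ∧
      0 < Wh N W A B l (cellD l e) ∧
      Wh N W A B l (cellD l e) ≤ C * ((l : ℝ) / 2) ^ 2 / N ∧
      |Real.log (A (rp N l (cellD l e)).1 * B (rp N l (cellD l e)).2) - Real.log (A e.1 * B e.2)| ≤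
        C * Real.sqrt (l / N) := by
  refine ⟨4 * L ^ 7, by nlinarith [one_le_pow₀ (n := 7) hL], ?_⟩
  intro N W A B hN h l hl hev hlN e he
  have hL0 : 0 < L := by linarith
  have hNr : 0 < (N : ℝ) := by exact_mod_cast hN
  have hm : 0 < (l : ℝ) / 2 := by
    have : 0 < (l : ℝ) := by exact_mod_cast hl
    positivity
  obtain ⟨hrb, hrc⟩ := rp_spec (l := l) he
  set r := rp N l (cellD l e) with hr
  obtain ⟨c1, c2⟩ := cell_close hl hrc.symm
  obtain ⟨x0, x1, y0, y1⟩ := mem_bd he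
  obtain ⟨x0', x1', y0', y1'⟩ := mem_bd hrb
  set ρ : ℝ := Real.sqrt ((l : ℝ) / N) with hρ
  have hρ0 : 0 ≤ ρ := Real.sqrt_nonneg _
  have dA : |A e.1 - A r.1| ≤ L / Real.sqrt N * ρ := hold_le hL0.le hNr c1 (h.hA _ _ x0 x1 x0' x1')
  have dB : |B e.2 - B r.2| ≤ L / Real.sqrt N * ρ := hold_le hL0.le hNr c2 (h.hB _ _ y0 y1 y0' y1')
  have hq : 0 ≤ 1 / (L * Real.sqrt N) := by positivity
  have bP := prod_bounds hL hNr (h.A1 _ x0 x1) (h.A2 _ x0 x1) (h.B1 _ y0 y1) (h.B2 _ y0 y1)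
  have bP' := prod_bounds hL hNr (h.A1 _ x0' x1') (h.A2 _ x0' x1') (h.B1 _ y0' y1') (h.B2 _ y0' y1')
  have dP := prod_close hL0.le hNr (le_trans hq (h.A1 _ x0 x1)) (h.A2 _ x0 x1) (le_trans hq (h.B1 _ y0' y1'))
    (h.B2 _ y0' y1') hρ0 dA dB
  have muS := mS_mean hL h hl hev (e.1 + e.2)
  have muD := mD_mean hL h hl hev (e.1 - e.2)
  have ltS := mS_lt hL h hl hev (st l (e.1 + e.2))
  have ltD := mD_lt hL h hl hev (st l (e.1 - e.2))
  have eW : W e = A e.1 * B e.2 * (hS N W (e.1 + e.2) * hD N W (e.1 - e.2)) := h.el e he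
  have eWh : Wh N W A B l (cellD l e) / ((l : ℝ) / 2) ^ 2 =
      (1 - mS N W l (st l (e.1 + e.2)) / ((l : ℝ) / 2)) * (1 - mD N W l (st l (e.1 - e.2)) / ((l : ℝ) / 2)) *
        (A r.1 * B r.2) := by
    have e1 : Wh N W A B l (cellD l e) = ((l : ℝ) / 2) ^ 2 * (1 - mS N W l (st l (e.1 + e.2)) / ((l : ℝ) / 2)) *
      (1 - mD N W l (st l (e.1 - e.2)) / ((l : ℝ) / 2)) * (A r.1 * B r.2) := rfl
    rw [e1, div_eq_iff (pow_pos hm 2).ne']
    ring
  have hdu : |(1 - mS N W l (st l (e.1 + e.2)) / ((l : ℝ) / 2)) - hS N W (e.1 + e.2)| ≤ L * ρ := by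
    have e1 : (1 - mS N W l (st l (e.1 + e.2)) / ((l : ℝ) / 2)) - hS N W (e.1 + e.2) =
      dsum N W 2 (e.1 + e.2) - mS N W l (st l (e.1 + e.2)) / ((l : ℝ) / 2) := by
      unfold hS
      ring
    rw [e1]
    exact muS
  have hdv : |(1 - mD N W l (st l (e.1 - e.2)) / ((l : ℝ) / 2)) - hD N W (e.1 - e.2)| ≤ L * ρ := by
    have e1 : (1 - mD N W l (st l (e.1 - e.2)) / ((l : ℝ) / 2)) - hD N W (e.1 - e.2) =
      dsum N W 3 (e.1 - e.2) - mD N W l (st l (e.1 - e.2)) / ((l : ℝ) / 2) := by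
      unfold hD
      ring
    rw [e1]
    exact muD
  have hu2 : hS N W (e.1 + e.2) ≤ 1 := by
    have := dsum_nn h.adm 2 (e.1 + e.2)
    unfold hS
    linarith
  have hi : 0 < 1 / L := by positivity
  have hu : 0 ≤ hS N W (e.1 + e.2) := le_trans hi.le (h.bd.sd _)
  have nS : 0 ≤ mS N W l (st l (e.1 + e.2)) / ((l : ℝ) / 2) := div_nonneg ltS.1 hm.le
  have nD : 0 ≤ mD N W l (st l (e.1 - e.2)) / ((l : ℝ) / 2) := div_nonneg ltD.1 hm.le
  have hu' : 1 / L ≤ 1 - mS N W l (st l (e.1 + e.2)) / ((l : ℝ) / 2) := by linarith [ltS.2]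
  have hv' : 1 / L ≤ 1 - mD N W l (st l (e.1 - e.2)) / ((l : ℝ) / 2) := by linarith [ltD.2]
  obtain ⟨k1, k2⟩ := core hL hNr hρ0 bP.1 bP.2 bP'.1 dP hu2 hu hu' (by linarith) hv' (by linarith) hdu hdv
  have hpos : 0 < (1 - mS N W l (st l (e.1 + e.2)) / ((l : ℝ) / 2)) * (1 - mD N W l (st l (e.1 - e.2)) / ((l : ℝ) / 2)) *
        (A r.1 * B r.2) := by
    have h1 : 0 < 1 / (L ^ 2 * (N : ℝ)) := by positivity
    exact mul_pos (mul_pos (lt_of_lt_of_le hi hu') (lt_of_lt_of_le hi hv')) (lt_of_lt_of_le h1 bP'.1)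
  have hL37 : 4 * L ^ 3 * ρ / N ≤ 4 * L ^ 7 * ρ / N := by
    have h1 : L ^ 3 ≤ L ^ 7 := pow_le_pow_right₀ hL (by norm_num)
    gcongr
  have hWe : Wh N W A B l (cellD l e) = ((l : ℝ) / 2) ^ 2 * (Wh N W A B l (cellD l e) / ((l : ℝ) / 2) ^ 2) := by
    field_simp
  refine ⟨?_, ?_, ?_, ?_, ?_⟩
  · rw [eWh, eW]
    exact le_trans k1 hL37
  · rw [eWh, eW]
    have := (abs_le.1 k1).1
    linarith
  · rw [hWe, eWh]
    exact mul_pos (pow_pos hm 2) hpos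
  · rw [hWe, eWh]
    have h1 : (1 - mS N W l (st l (e.1 + e.2)) / ((l : ℝ) / 2)) * (1 - mD N W l (st l (e.1 - e.2)) / ((l : ℝ) / 2)) ≤ 1 :=
      mul_le_one₀ (by linarith) (le_trans hi.le hv') (by linarith)
    have h3 : 0 < 1 / (L ^ 2 * (N : ℝ)) := by positivity
    have h2 : (1 - mS N W l (st l (e.1 + e.2)) / ((l : ℝ) / 2)) * (1 - mD N W l (st l (e.1 - e.2)) / ((l : ℝ) / 2)) *
        (A r.1 * B r.2) ≤ L ^ 2 / N :=
      calc _ ≤ 1 * (A r.1 * B r.2) := mul_le_mul_of_nonneg_right h1 (le_trans h3.le bP'.1)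
        _ = A r.1 * B r.2 := one_mul _
        _ ≤ _ := bP'.2
    have h4 : L ^ 2 ≤ 4 * L ^ 7 := by
      have h1 : L ^ 2 ≤ L ^ 7 := pow_le_pow_right₀ hL (by norm_num)
      have h5 : 0 ≤ L ^ 7 := by positivity
      linarith
    calc _ ≤ ((l : ℝ) / 2) ^ 2 * (L ^ 2 / N) := mul_le_mul_of_nonneg_left h2 (pow_pos hm 2).le
      _ = L ^ 2 * (((l : ℝ) / 2) ^ 2 / N) := by ring
      _ ≤ 4 * L ^ 7 * (((l : ℝ) / 2) ^ 2 / N) := mul_le_mul_of_nonneg_right h4 (by positivity)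
      _ = _ := by ring
  · have l1 := log_close hL hNr bP.1 bP'.1 dP
    have l2 := log_close hL hNr bP'.1 bP.1 (by rw [abs_sub_comm]; exact dP)
    have h4 : 2 * L ^ 4 * ρ ≤ 4 * L ^ 7 * ρ := by
      have h1 : L ^ 4 ≤ L ^ 7 := pow_le_pow_right₀ hL (by norm_num)
      have h5 : 0 ≤ L ^ 7 := by positivity
      exact mul_le_mul_of_nonneg_right (by linarith) hρ0
    rw [abs_le]
    constructor <;> linarith

end Pool.Agent.NQR
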