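import Pool.Agent.NQR.Defs
import Pool.Agent.NQR.GCelA

/-!
# NQR-GCelB: sums over all cells

PLAN. `m = l/2`. A parity cell `D = cellD l e` contains exactly `m²` squares of `ℤ²` (a square is determined by its sum and
its difference, which must have the same parity; both strips have `m` elements of that parity).
`cells_l1`: `∑_D |Wh D - Wc D| ≤ ∑_{e ∈ board} |Wh/m² - W e| + ∑_{D ∈ DI} Wh D (1 - #(D ∩ board)/m²)`; first sum
`≤ N² C ρ/N`. Second: only cells that are not contained in the board; their squares have distance `≤ l` from the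
border of the board, there are at most `40 N l` such squares in `ℤ²`, so at most `40 N l/m²` such cells, each
`Wh D ≤ C m²/N`: sum `≤ 40 C l`. `cells_sum`: `∑ Wc D = N`.
`row_cells`: number of `D ∈ DI` with `D.2 = σ` is at most the number of sum strips, `≤ 10 N/l`, each `Wh ≤ C m²/N`.
`corner_cells`: a cell containing a square `e` of the board with `N - |x - y| ≤ b` or `x + y + 1 ≤ b` or
`2N - 1 - x - y ≤ b`: all its squares satisfy the same with `b + l`, and lie in the `l`-neighbourhood of the board: at most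
`16 (b + 2l)²` squares of `ℤ²`, so at most `16 (b+2l)²/m²` cells.
-/

set_option autoImplicit false

open Finset

namespace Pool.Agent.NQR

open Pool.Agent.NQ (board dsum F Ent Dg phi ln Q Qset st cellD bern)

/-- The parity strip as a finset. -/
private noncomputable def gcStr (l : ℤ) (σ : ℤ × ℤ) : Finset ℤ :=
  (Finset.Ico (σ.1 * l) (σ.1 * l + l)).filter (fun s => s % 2 = σ.2)

private theorem gc_mem_str {l : ℤ} (hl : 0 < l) (σ : ℤ × ℤ) (s : ℤ) :
    s ∈ gcStr l σ ↔ st l s = σ := by
  obtain ⟨a, p⟩ := σ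
  unfold gcStr Pool.Agent.NQ.st
  rw [mem_filter, mem_Ico, Prod.mk.injEq]
  simp only
  constructor
  · rintro ⟨⟨h1, h2⟩, h3⟩
    refine ⟨?_, h3⟩
    apply le_antisymm
    · have : s / l < a + 1 := by
        rw [Int.ediv_lt_iff_lt_mul hl]
        linarith
      omega
    · rw [Int.le_ediv_iff_mul_le hl]
      exact h1
  · rintro ⟨h1, h3⟩
    refine ⟨⟨?_, ?_⟩, h3⟩
    · rw [← Int.le_ediv_iff_mul_le hl]
      omega
    · have : s / l < a + 1 := by omega
      rw [Int.ediv_lt_iff_lt_mul hl] at this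
      linarith

private theorem gc_cell_iff {l : ℤ} (e : ℤ × ℤ) (D : (ℤ × ℤ) × (ℤ × ℤ)) :
    cellD l e = D ↔ st l (e.1 + e.2) = D.1 ∧ st l (e.1 - e.2) = D.2 := by
  obtain ⟨D1, D2⟩ := D
  unfold Pool.Agent.NQ.cellD
  rw [Prod.mk.injEq]
  rfl

private theorem gc_st_near {l : ℤ} (hl : 0 < l) {s t : ℤ} (h : st l s = st l t) : |s - t| < l := by
  have h1 := (gc_mem_str hl (st l t) s).2 h
  have h2 := (gc_mem_str hl (st l t) t).2 rfl
  unfold gcStr at h1 h2
  rw [mem_filter, mem_Ico] at h1 h2
  rw [abs_lt]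
  constructor <;> linarith [h1.1.1, h1.1.2, h2.1.1, h2.1.2]

private theorem gc_near {l : ℤ} (hl : 0 < l) {e e' : ℤ × ℤ} (h : cellD l e = cellD l e') :
    |(e.1 + e.2) - (e'.1 + e'.2)| < l ∧ |(e.1 - e.2) - (e'.1 - e'.2)| < l := by
  rw [gc_cell_iff] at h
  exact ⟨gc_st_near hl h.1, gc_st_near hl h.2⟩

/-- a box around the board -/
private noncomputable def gcBox (N : ℕ) (l : ℤ) : Finset (ℤ × ℤ) :=
  Finset.Ico (-l) (N + l) ×ˢ Finset.Ico (-l) (N + l)

private theorem gc_mem_box {N : ℕ} {l : ℤ} {e : ℤ × ℤ} :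
    e ∈ gcBox N l ↔ (-l ≤ e.1 ∧ e.1 < N + l) ∧ (-l ≤ e.2 ∧ e.2 < N + l) := by
  unfold gcBox
  rw [mem_product, mem_Ico, mem_Ico]

private theorem gc_box_of {N : ℕ} {l : ℤ} (hl : 0 < l) {e e' : ℤ × ℤ} (he : e ∈ board N)
    (h : cellD l e' = cellD l e) : e' ∈ gcBox N l := by
  obtain ⟨h1, h2⟩ := gc_near hl h
  rw [abs_lt] at h1 h2
  rw [Pool.Agent.NQ.mem_board] at he
  rw [gc_mem_box]
  omega

private theorem gc_mem_DI {N : ℕ} {l : ℤ} {D : (ℤ × ℤ) × (ℤ × ℤ)} :
    D ∈ DI N l ↔ ∃ e ∈ board N, cellD l e = D := by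
  unfold DI
  rw [mem_image]

private theorem gc_str_card {l : ℤ} (hl : 0 < l) (he : Even l) (s : ℤ) :
    ((gcStr l (st l s)).card : ℝ) = (l : ℝ) / 2 := by
  unfold gcStr
  apply Pool.Agent.NQ.card_st hl he
  unfold Pool.Agent.NQ.st
  simp only
  omega

private theorem gc_card_cell {l : ℤ} (hl : 0 < l) (he : Even l) {N : ℕ} {D : (ℤ × ℤ) × (ℤ × ℤ)}
    (hD : D ∈ DI N l) :
    (((gcBox N l).filter (fun e => cellD l e = D)).card : ℝ) = ((l : ℝ) / 2) ^ 2 := by
  obtain ⟨e0, he0, rfl⟩ := gc_mem_DI.1 hD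
  have hc : ((gcBox N l).filter (fun e => cellD l e = cellD l e0)).card =
      (gcStr l (st l (e0.1 + e0.2)) ×ˢ gcStr l (st l (e0.1 - e0.2))).card := by
    refine Finset.card_nbij' (fun e => (e.1 + e.2, e.1 - e.2))
      (fun q => ((q.1 + q.2) / 2, (q.1 - q.2) / 2)) ?_ ?_ ?_ ?_
    · intro e h
      rw [Finset.mem_coe, mem_filter, gc_cell_iff] at h
      rw [Finset.mem_coe, mem_product, gc_mem_str hl, gc_mem_str hl]
      exact h.2
    · intro q h
      rw [Finset.mem_coe, mem_product, gc_mem_str hl, gc_mem_str hl] at h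
      obtain ⟨h1, h2⟩ := h
      have hp : q.1 % 2 = q.2 % 2 := by
        have a1 := congrArg Prod.snd h1
        have a2 := congrArg Prod.snd h2
        unfold Pool.Agent.NQ.st at a1 a2
        simp only at a1 a2
        omega
      have e1 : (q.1 + q.2) / 2 + (q.1 - q.2) / 2 = q.1 := by omega
      have e2 : (q.1 + q.2) / 2 - (q.1 - q.2) / 2 = q.2 := by omega
      have hcell : cellD l ((q.1 + q.2) / 2, (q.1 - q.2) / 2) = cellD l e0 := by
        rw [gc_cell_iff]
        simp only
        rw [e1, e2]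
        exact ⟨h1, h2⟩
      rw [Finset.mem_coe, mem_filter]
      exact ⟨gc_box_of hl he0 hcell, hcell⟩
    · intro e _
      obtain ⟨x, y⟩ := e
      simp only [Prod.mk.injEq]
      constructor <;> omega
    · intro q h
      rw [Finset.mem_coe, mem_product, gc_mem_str hl, gc_mem_str hl] at h
      obtain ⟨h1, h2⟩ := h
      obtain ⟨s, t⟩ := q
      have hp : s % 2 = t % 2 := by
        have a1 := congrArg Prod.snd h1
        have a2 := congrArg Prod.snd h2
        unfold Pool.Agent.NQ.st at a1 a2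
        simp only at a1 a2
        omega
      simp only [Prod.mk.injEq]
      constructor <;> omega
  rw [hc, card_product]
  push_cast
  rw [gc_str_card hl he, gc_str_card hl he]
  ring

private theorem gc_card_T {l : ℤ} (hl : 0 < l) (he : Even l) {N : ℕ}
    {T : Finset ((ℤ × ℤ) × (ℤ × ℤ))} (hT : T ⊆ DI N l) :
    (T.card : ℝ) * ((l : ℝ) / 2) ^ 2 =
      (((gcBox N l).filter (fun e => cellD l e ∈ T)).card : ℝ) := by
  have h := Finset.card_eq_sum_card_fiberwise (f := fun e => cellD l e)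
    (s := (gcBox N l).filter (fun e => cellD l e ∈ T)) (t := T)
    (fun e h => by
      rw [Finset.mem_coe, mem_filter] at h
      exact h.2)
  rw [h]
  push_cast
  rw [Finset.sum_congr rfl (g := fun _ => ((l : ℝ) / 2) ^ 2)]
  · rw [Finset.sum_const, nsmul_eq_mul]
  · intro D hD
    rw [← gc_card_cell hl he (hT hD), Finset.filter_filter]
    congr 2
    apply Finset.filter_congr
    intro e _
    constructor
    · rintro ⟨_, h⟩
      exact h
    · intro h
      exact ⟨by rw [h]; exact hD, h⟩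

/-- sums of cell weights by counting squares -/
private theorem gc_sum_T {l : ℤ} (hl : 0 < l) (he : Even l) {N : ℕ} {f : (ℤ × ℤ) × (ℤ × ℤ) → ℝ}
    {c : ℝ} (hf : ∀ D ∈ DI N l, f D ≤ c * ((l : ℝ) / 2) ^ 2 / N)
    {T : Finset ((ℤ × ℤ) × (ℤ × ℤ))} (hT : T ⊆ DI N l) :
    ∑ D ∈ T, f D ≤ c / N * (((gcBox N l).filter (fun e => cellD l e ∈ T)).card : ℝ) := by
  rw [← gc_card_T hl he hT]
  calc ∑ D ∈ T, f D ≤ ∑ _D ∈ T, c * ((l : ℝ) / 2) ^ 2 / N :=
        Finset.sum_le_sum (fun D hD => hf D (hT hD))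
    _ = c / N * ((T.card : ℝ) * ((l : ℝ) / 2) ^ 2) := by
        rw [Finset.sum_const, nsmul_eq_mul]
        ring

private theorem gc_Ico_card {a b : ℤ} (h : a ≤ b) : ((Finset.Ico a b).card : ℝ) = (b : ℝ) - a := by
  rw [Int.card_Ico]
  have h1 : (((b - a).toNat : ℤ) : ℝ) = ((b - a : ℤ) : ℝ) := by
    rw [Int.toNat_of_nonneg (by omega)]
  have h2 : (((b - a).toNat : ℕ) : ℝ) = ((b - a : ℤ) : ℝ) := by exact_mod_cast h1
  rw [h2]
  push_cast
  ring

private theorem gc_board_card (N : ℕ) : ((board N).card : ℝ) = (N : ℝ) ^ 2 := by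
  unfold Pool.Agent.NQ.board
  rw [card_product]
  push_cast
  rw [gc_Ico_card (by omega)]
  push_cast
  ring

private theorem gc_box_card {N : ℕ} {l : ℤ} (hl : 0 < l) :
    ((gcBox N l).card : ℝ) = ((N : ℝ) + 2 * l) ^ 2 := by
  unfold gcBox
  rw [card_product]
  push_cast
  rw [gc_Ico_card (by omega)]
  push_cast
  ring

private theorem gc_board_box {N : ℕ} {l : ℤ} (hl : 0 < l) : board N ⊆ gcBox N l := by
  intro e he
  exact gc_box_of hl he rfl

/-- counting a strip in the box -/
private theorem gc_strip_count {N : ℕ} {l : ℤ} (hl : 0 < l) (σ : ℤ × ℤ) {g : ℤ × ℤ → ℤ}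
    (hg : ∀ e e' : ℤ × ℤ, e.1 = e'.1 → g e = g e' → e = e')
    {T : Finset (ℤ × ℤ)} (hT : T ⊆ gcBox N l) (hs : ∀ e ∈ T, st l (g e) = σ) :
    (T.card : ℝ) ≤ ((N : ℝ) + 2 * l) * l := by
  have h1 : T.card ≤ (Finset.Ico (-l) (N + l) ×ˢ Finset.Ico (σ.1 * l) (σ.1 * l + l)).card := by
    apply Finset.card_le_card_of_injOn (fun e => (e.1, g e))
    · intro e he
      have he' : e ∈ T := he
      have h2 := (gc_mem_str hl σ (g e)).2 (hs e he')
      unfold gcStr at h2
      rw [mem_filter] at h2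
      have h3 := gc_mem_box.1 (hT he')
      rw [Finset.mem_coe, mem_product]
      exact ⟨mem_Ico.2 h3.1, h2.1⟩
    · intro e _ e' _ h
      simp only [Prod.mk.injEq] at h
      exact hg e e' h.1 h.2
  have h2 : (T.card : ℝ) ≤
      ((Finset.Ico (-l) (N + l) ×ˢ Finset.Ico (σ.1 * l) (σ.1 * l + l)).card : ℝ) := by
    exact_mod_cast h1
  rw [card_product] at h2
  push_cast at h2
  rw [gc_Ico_card (by omega), gc_Ico_card (by omega)] at h2
  push_cast at h2
  linarith

theorem cells_l1 (L : ℝ) (hL : 1 ≤ L) : ∃ C : ℝ, 1 ≤ C ∧ ∀ (N : ℕ) (W : ℤ × ℤ → ℝ) (A B : ℤ → ℝ),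
    1 ≤ N → Rf L N W A B → ∀ l : ℤ, 0 < l → Even l → l ≤ N →
      (∑ D ∈ DI N l, |Wh N W A B l D - Wc N W l D| ≤ C * (N * Real.sqrt (l / N) + l)) ∧
      (∑ D ∈ DI N l, Wh N W A B l D ≤ N + C * (N * Real.sqrt (l / N) + l)) ∧
      (∀ σ, ∑ D ∈ (DI N l).filter (fun D => D.2 = σ), Wh N W A B l D ≤ C * l) ∧
      (∀ σ, ∑ D ∈ (DI N l).filter (fun D => D.1 = σ), Wh N W A B l D ≤ C * l) := by
  obtain ⟨C, hC, hfacts⟩ := cell_facts L hL
  refine ⟨8 * C, by linarith, ?_⟩
  intro N W A B hN hR l hl he hlN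
  have hf := hfacts N W A B hN hR l hl he hlN
  have hN0 : (0 : ℝ) < N := by exact_mod_cast hN
  have hl0 : (0 : ℝ) < l := by exact_mod_cast hl
  have hlN' : (l : ℝ) ≤ N := by exact_mod_cast hlN
  have hC0 : 0 < C := by linarith
  set ρ : ℝ := Real.sqrt (l / N) with hρ
  have hρ0 : 0 ≤ ρ := Real.sqrt_nonneg _
  have hm : (0 : ℝ) < ((l : ℝ) / 2) ^ 2 := by positivity
  have hup : ∀ D ∈ DI N l, Wh N W A B l D ≤ C * ((l : ℝ) / 2) ^ 2 / N := by
    intro D hD
    obtain ⟨e, he', rfl⟩ := gc_mem_DI.1 hD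
    exact (hf e he').2.2.2.1
  have hpos : ∀ D ∈ DI N l, 0 < Wh N W A B l D := by
    intro D hD
    obtain ⟨e, he', rfl⟩ := gc_mem_DI.1 hD
    exact (hf e he').2.2.1
  -- the individual cells
  have hone : ∀ D ∈ DI N l, |Wh N W A B l D - Wc N W l D| ≤
      ∑ e ∈ (board N).filter (fun e => cellD l e = D), C * ρ / N +
        (C / N) * (((l : ℝ) / 2) ^ 2 - (((board N).filter (fun e => cellD l e = D)).card : ℝ)) := by
    intro D hD
    have hcard : (((board N).filter (fun e => cellD l e = D)).card : ℝ) ≤ ((l : ℝ) / 2) ^ 2 := by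
      rw [← gc_card_cell hl he hD]
      exact_mod_cast Finset.card_le_card (Finset.filter_subset_filter _ (gc_board_box hl))
    have hdec : Wh N W A B l D - Wc N W l D =
        ∑ e ∈ (board N).filter (fun e => cellD l e = D),
          (Wh N W A B l D / ((l : ℝ) / 2) ^ 2 - W e) +
        Wh N W A B l D / ((l : ℝ) / 2) ^ 2 *
          (((l : ℝ) / 2) ^ 2 - (((board N).filter (fun e => cellD l e = D)).card : ℝ)) := by
      unfold Wc
      rw [Finset.sum_sub_distrib, Finset.sum_const, nsmul_eq_mul]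
      field_simp
      ring
    rw [hdec]
    refine (abs_add_le _ _).trans ?_
    apply add_le_add
    · refine (Finset.abs_sum_le_sum_abs _ _).trans ?_
      apply Finset.sum_le_sum
      intro e he'
      rw [mem_filter] at he'
      have h := (hf e he'.1).1
      rw [he'.2] at h
      exact h
    · rw [abs_mul, abs_of_nonneg (sub_nonneg.2 hcard),
        abs_of_nonneg (div_nonneg (hpos D hD).le hm.le)]
      apply mul_le_mul_of_nonneg_right _ (sub_nonneg.2 hcard)
      rw [div_le_iff₀ hm]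
      calc Wh N W A B l D ≤ C * ((l : ℝ) / 2) ^ 2 / N := hup D hD
        _ = C / N * ((l : ℝ) / 2) ^ 2 := by ring
  have hfib : ∀ f : ℤ × ℤ → ℝ, ∑ D ∈ DI N l, ∑ e ∈ (board N).filter (fun e => cellD l e = D), f e =
      ∑ e ∈ board N, f e := by
    intro f
    apply Finset.sum_fiberwise_of_maps_to
    intro e he'
    exact gc_mem_DI.2 ⟨e, he', rfl⟩
  have hp1 : ∑ D ∈ DI N l, |Wh N W A B l D - Wc N W l D| ≤ 8 * C * (N * ρ + l) := by
    calc ∑ D ∈ DI N l, |Wh N W A B l D - Wc N W l D| ≤
        ∑ D ∈ DI N l, (∑ e ∈ (board N).filter (fun e => cellD l e = D), C * ρ / N +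
        (C / N) * (((l : ℝ) / 2) ^ 2 - (((board N).filter (fun e => cellD l e = D)).card : ℝ))) :=
          Finset.sum_le_sum hone
      _ = (N : ℝ) ^ 2 * (C * ρ / N) + (C / N) *
          (((DI N l).card : ℝ) * ((l : ℝ) / 2) ^ 2 - (N : ℝ) ^ 2) := by
          rw [Finset.sum_add_distrib, hfib, ← Finset.mul_sum, Finset.sum_sub_distrib,
            Finset.sum_const, Finset.sum_const, nsmul_eq_mul, nsmul_eq_mul, gc_board_card]
          have h1 : ∑ D ∈ DI N l, (((board N).filter (fun e => cellD l e = D)).card : ℝ) =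
              (N : ℝ) ^ 2 := by
            have h2 := hfib (fun _ => 1)
            simp only [Finset.sum_const, nsmul_eq_mul, mul_one] at h2
            rw [h2, gc_board_card]
          rw [h1]
      _ ≤ 8 * C * (N * ρ + l) := by
          have h1 : ((DI N l).card : ℝ) * ((l : ℝ) / 2) ^ 2 ≤ ((N : ℝ) + 2 * l) ^ 2 := by
            rw [gc_card_T hl he (Finset.Subset.refl _), ← gc_box_card hl]
            exact_mod_cast Finset.card_le_card (Finset.filter_subset _ _)
          have h2 : ((DI N l).card : ℝ) * ((l : ℝ) / 2) ^ 2 - (N : ℝ) ^ 2 ≤ 8 * N * l := by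
            nlinarith
          have h3 : (C / N) * (((DI N l).card : ℝ) * ((l : ℝ) / 2) ^ 2 - (N : ℝ) ^ 2) ≤
              (C / N) * (8 * N * l) := mul_le_mul_of_nonneg_left h2 (by positivity)
          have h4 : (C / N) * (8 * N * l) = 8 * C * l := by field_simp
          have h5 : (N : ℝ) ^ 2 * (C * ρ / N) = C * N * ρ := by field_simp
          rw [h5]
          have h6 : 0 ≤ C * N * ρ := by positivity
          nlinarith
  refine ⟨hp1, ?_, ?_, ?_⟩
  · have h1 : ∑ D ∈ DI N l, Wc N W l D = N := by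
      unfold Wc
      rw [hfib, adm_mass hR.adm]
    have h2 : ∑ D ∈ DI N l, Wh N W A B l D ≤
        ∑ D ∈ DI N l, (Wc N W l D + |Wh N W A B l D - Wc N W l D|) := by
      apply Finset.sum_le_sum
      intro D _
      linarith [le_abs_self (Wh N W A B l D - Wc N W l D)]
    rw [Finset.sum_add_distrib, h1] at h2
    linarith
  · intro σ
    have h1 := gc_sum_T hl he hup (Finset.filter_subset (fun D => D.2 = σ) (DI N l))
    have h2 := gc_strip_count (N := N) hl σ (g := fun e => e.1 - e.2)
      (T := (gcBox N l).filter (fun e => cellD l e ∈ (DI N l).filter (fun D => D.2 = σ)))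
      (by
        intro e e' a b
        exact Prod.ext a (by omega))
      (Finset.filter_subset _ _)
      (by
        intro e h
        rw [mem_filter, mem_filter] at h
        exact h.2.2)
    refine h1.trans ((mul_le_mul_of_nonneg_left h2 (by positivity)).trans ?_)
    have h3 : C / N * (((N : ℝ) + 2 * l) * l) ≤ C / N * ((3 * N) * l) := by
      apply mul_le_mul_of_nonneg_left _ (by positivity)
      apply mul_le_mul_of_nonneg_right _ hl0.le
      linarith
    refine h3.trans ?_
    have h4 : C / N * ((3 * N) * l) = 3 * C * l := by field_simp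
    rw [h4]
    nlinarith [mul_pos hC0 hl0]
  · intro σ
    have h1 := gc_sum_T hl he hup (Finset.filter_subset (fun D => D.1 = σ) (DI N l))
    have h2 := gc_strip_count (N := N) hl σ (g := fun e => e.1 + e.2)
      (T := (gcBox N l).filter (fun e => cellD l e ∈ (DI N l).filter (fun D => D.1 = σ)))
      (by
        intro e e' a b
        exact Prod.ext a (by omega))
      (Finset.filter_subset _ _)
      (by
        intro e h
        rw [mem_filter, mem_filter] at h
        exact h.2.2)
    refine h1.trans ((mul_le_mul_of_nonneg_left h2 (by positivity)).trans ?_)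
    have h3 : C / N * (((N : ℝ) + 2 * l) * l) ≤ C / N * ((3 * N) * l) := by
      apply mul_le_mul_of_nonneg_left _ (by positivity)
      apply mul_le_mul_of_nonneg_right _ hl0.le
      linarith
    refine h3.trans ?_
    have h4 : C / N * ((3 * N) * l) = 3 * C * l := by field_simp
    rw [h4]
    nlinarith [mul_pos hC0 hl0]

/-- the weight of a line is at least the number of its squares times the minimum -/
private theorem gc_line_lo {L : ℝ} (hL : 1 ≤ L) {N : ℕ} {W : ℤ × ℤ → ℝ} (hN : 1 ≤ N)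
    (hlo : ∀ e ∈ board N, 1 / (L * N) ≤ W e) {k : Fin 4} {s : ℤ} {κ0 : ℝ}
    (h : dsum N W k s < κ0) {a b : ℤ} (hab : a ≤ b) {f : ℤ → ℤ × ℤ}
    (hf : ∀ x y, f x = f y → x = y)
    (hm : ∀ x, a ≤ x → x < b → f x ∈ board N ∧ ln k (f x) = s) : (b : ℝ) - a < κ0 * L * N := by
  have hN0 : (0 : ℝ) < N := by exact_mod_cast hN
  have hL0 : 0 < L := by linarith
  have h1 : (Finset.Ico a b).card ≤ ((board N).filter (fun e => ln k e = s)).card := by
    apply Finset.card_le_card_of_injOn f
    · intro x hx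
      rw [Finset.mem_coe, mem_Ico] at hx
      rw [Finset.mem_coe, mem_filter]
      exact hm x hx.1 hx.2
    · intro x _ y _ hxy
      exact hf x y hxy
  have h1' : ((Finset.Ico a b).card : ℝ) ≤ (((board N).filter (fun e => ln k e = s)).card : ℝ) := by
    exact_mod_cast h1
  rw [gc_Ico_card hab] at h1'
  have h2 : (((board N).filter (fun e => ln k e = s)).card : ℝ) * (1 / (L * N)) ≤ dsum N W k s := by
    unfold Pool.Agent.NQ.dsum
    rw [← nsmul_eq_mul, ← Finset.sum_const]
    apply Finset.sum_le_sum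
    intro e he
    exact hlo e (mem_filter.1 he).1
  have h3 : ((b : ℝ) - a) * (1 / (L * N)) < κ0 := by
    have h4 : ((b : ℝ) - a) * (1 / (L * N)) ≤
        (((board N).filter (fun e => ln k e = s)).card : ℝ) * (1 / (L * N)) :=
      mul_le_mul_of_nonneg_right h1' (by positivity)
    linarith
  rw [mul_one_div, div_lt_iff₀ (by positivity)] at h3
  linarith [h3]

/-- counting a corner -/
private theorem gc_corner_count {R : ℝ} (hR : 0 ≤ R) {T : Finset (ℤ × ℤ)} {g : ℤ × ℤ → ℤ × ℤ}
    (hg : ∀ e e', g e = g e' → e = e')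
    (h : ∀ e ∈ T, 0 ≤ (g e).1 ∧ 0 ≤ (g e).2 ∧ (((g e).1 + (g e).2 : ℤ) : ℝ) < R) :
    (T.card : ℝ) ≤ (R + 1) ^ 2 := by
  have hc0 : 0 ≤ ⌈R⌉ := Int.ceil_nonneg hR
  have h1 : T.card ≤ (Finset.Ico (0 : ℤ) ⌈R⌉ ×ˢ Finset.Ico (0 : ℤ) ⌈R⌉).card := by
    apply Finset.card_le_card_of_injOn g
    · intro e he
      obtain ⟨a1, a2, a3⟩ := h e he
      rw [Finset.mem_coe, mem_product, mem_Ico, mem_Ico]
      have a4 : (g e).1 + (g e).2 < ⌈R⌉ := by
        rw [Int.lt_ceil]
        exact a3
      omega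
    · intro e _ e' _ hh
      exact hg e e' hh
  have h2 : (T.card : ℝ) ≤ ((Finset.Ico (0 : ℤ) ⌈R⌉ ×ˢ Finset.Ico (0 : ℤ) ⌈R⌉).card : ℝ) := by
    exact_mod_cast h1
  rw [card_product] at h2
  push_cast at h2
  rw [gc_Ico_card hc0] at h2
  have h3 : (⌈R⌉ : ℝ) < R + 1 := Int.ceil_lt_add_one R
  have h4 : (0 : ℝ) ≤ ⌈R⌉ := by exact_mod_cast hc0
  push_cast at h2
  nlinarith

open Classical in
theorem corner_cells (L : ℝ) (hL : 1 ≤ L) : ∃ C : ℝ, 1 ≤ C ∧ ∀ (N : ℕ) (W : ℤ × ℤ → ℝ) (A B : ℤ → ℝ),
    1 ≤ N → Rf L N W A B → ∀ l : ℤ, 0 < l → Even l → l ≤ N → ∀ κ0 : ℝ, 0 < κ0 → κ0 ≤ 1 →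
      ∑ D ∈ (DI N l).filter (fun D => ∃ e ∈ board N, cellD l e = D ∧ ¬ Mn N W κ0 e.1 e.2),
        Wh N W A B l D ≤ C * (κ0 * N + l + 1) ^ 2 / N := by
  obtain ⟨C, hC, hfacts⟩ := cell_facts L hL
  refine ⟨36 * L ^ 2 * C, by nlinarith [mul_nonneg (by linarith : (0:ℝ) ≤ L - 1) (by linarith : (0:ℝ) ≤ L + 1)], ?_⟩
  intro N W A B hN hR l hl he hlN κ0 hκ0 hκ1
  have hf := hfacts N W A B hN hR l hl he hlN
  have hN0 : (0 : ℝ) < N := by exact_mod_cast hN
  have hl0 : (0 : ℝ) < l := by exact_mod_cast hl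
  have hC0 : 0 < C := by linarith
  have hL0 : 0 < L := by linarith
  have hup : ∀ D ∈ DI N l, Wh N W A B l D ≤ C * ((l : ℝ) / 2) ^ 2 / N := by
    intro D hD
    obtain ⟨e, he', rfl⟩ := gc_mem_DI.1 hD
    exact (hf e he').2.2.2.1
  set T := (DI N l).filter (fun D => ∃ e ∈ board N, cellD l e = D ∧ ¬ Mn N W κ0 e.1 e.2) with hT
  set b : ℝ := κ0 * L * N with hb
  have hb0 : 0 < b := by positivity
  -- the four corners
  have hmn : ∀ e ∈ board N, ¬ Mn N W κ0 e.1 e.2 →
      ((N : ℝ) - ((e.1 - e.2 : ℤ) : ℝ) < b ∨ (N : ℝ) + ((e.1 - e.2 : ℤ) : ℝ) < b) ∨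
      (((e.1 + e.2 : ℤ) : ℝ) + 1 < b ∨ 2 * (N : ℝ) - 1 - ((e.1 + e.2 : ℤ) : ℝ) < b) := by
    rintro ⟨x, y⟩ he' hmn
    rw [Pool.Agent.NQ.mem_board] at he'
    simp only at he' ⊢
    unfold Mn at hmn
    simp only at hmn
    rw [not_and_or, not_le, not_le] at hmn
    rcases hmn with h | h
    · left
      rcases le_total 0 (x - y) with hs | hs
      · left
        have := gc_line_lo hL hN hR.bd.lo h (a := 0) (b := N - (x - y)) (by omega)
          (f := fun t => (t + (x - y), t))
          (by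
            intro t t' htt
            exact (Prod.mk.inj htt).2)
          (by
            intro t h1 h2
            rw [Pool.Agent.NQ.mem_board, Pool.Agent.NQ.ln_three]
            simp only
            omega)
        push_cast at this ⊢
        linarith
      · right
        have := gc_line_lo hL hN hR.bd.lo h (a := 0) (b := N + (x - y)) (by omega)
          (f := fun t => (t, t - (x - y)))
          (by
            intro t t' htt
            exact (Prod.mk.inj htt).1)
          (by
            intro t h1 h2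
            rw [Pool.Agent.NQ.mem_board, Pool.Agent.NQ.ln_three]
            simp only
            omega)
        push_cast at this ⊢
        linarith
    · right
      rcases lt_or_ge (x + y) N with hs | hs
      · left
        have := gc_line_lo hL hN hR.bd.lo h (a := 0) (b := x + y + 1) (by omega)
          (f := fun t => (t, x + y - t))
          (by
            intro t t' htt
            exact (Prod.mk.inj htt).1)
          (by
            intro t h1 h2
            rw [Pool.Agent.NQ.mem_board, Pool.Agent.NQ.ln_two]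
            simp only
            omega)
        push_cast at this ⊢
        linarith
      · right
        have := gc_line_lo hL hN hR.bd.lo h (a := x + y - N + 1) (b := N) (by omega)
          (f := fun t => (t, x + y - t))
          (by
            intro t t' htt
            exact (Prod.mk.inj htt).1)
          (by
            intro t h1 h2
            rw [Pool.Agent.NQ.mem_board, Pool.Agent.NQ.ln_two]
            simp only
            omega)
        push_cast at this ⊢
        linarith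
  set R : ℝ := b + 3 * l with hRdef
  have hR0 : 0 ≤ R := by positivity
  have hcount : (((gcBox N l).filter (fun e => cellD l e ∈ T)).card : ℝ) ≤ 4 * (R + 1) ^ 2 := by
    set T1 := (gcBox N l).filter (fun e => (N : ℝ) - ((e.1 - e.2 : ℤ) : ℝ) < b + l) with hT1
    set T2 := (gcBox N l).filter (fun e => (N : ℝ) + ((e.1 - e.2 : ℤ) : ℝ) < b + l) with hT2
    set T3 := (gcBox N l).filter (fun e => ((e.1 + e.2 : ℤ) : ℝ) + 1 < b + l) with hT3
    set T4 := (gcBox N l).filter (fun e => 2 * (N : ℝ) - 1 - ((e.1 + e.2 : ℤ) : ℝ) < b + l) with hT4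
    have hsub : (gcBox N l).filter (fun e => cellD l e ∈ T) ⊆ (T1 ∪ T2) ∪ (T3 ∪ T4) := by
      intro e he'
      rw [mem_filter] at he'
      obtain ⟨hbox, hcell⟩ := he'
      rw [hT, mem_filter] at hcell
      obtain ⟨_, e', he'', hc, hmn'⟩ := hcell
      obtain ⟨n1, n2⟩ := gc_near hl hc
      rw [abs_lt] at n1 n2
      have m1 : ((e'.1 + e'.2 : ℤ) : ℝ) - ((e.1 + e.2 : ℤ) : ℝ) < l := by exact_mod_cast n1.2
      have m2 : -(l : ℝ) < ((e'.1 + e'.2 : ℤ) : ℝ) - ((e.1 + e.2 : ℤ) : ℝ) := by exact_mod_cast n1.1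
      have m3 : ((e'.1 - e'.2 : ℤ) : ℝ) - ((e.1 - e.2 : ℤ) : ℝ) < l := by exact_mod_cast n2.2
      have m4 : -(l : ℝ) < ((e'.1 - e'.2 : ℤ) : ℝ) - ((e.1 - e.2 : ℤ) : ℝ) := by exact_mod_cast n2.1
      rw [mem_union, mem_union, mem_union, hT1, hT2, hT3, hT4, mem_filter, mem_filter, mem_filter,
        mem_filter]
      rcases hmn e' he'' hmn' with (h | h) | (h | h)
      · left; left
        exact ⟨hbox, by linarith⟩
      · left; right
        exact ⟨hbox, by linarith⟩
      · right; left
        exact ⟨hbox, by linarith⟩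
      · right; right
        exact ⟨hbox, by linarith⟩
    have c1 : (T1.card : ℝ) ≤ (R + 1) ^ 2 := by
      apply gc_corner_count hR0 (g := fun e => ((N : ℤ) + l - 1 - e.1, e.2 + l))
      · intro e e' h
        have h1 := congrArg Prod.fst h
        have h2 := congrArg Prod.snd h
        simp only at h1 h2
        exact Prod.ext (by omega) (by omega)
      · intro e he'
        rw [hT1, mem_filter, gc_mem_box] at he'
        obtain ⟨hbox, h⟩ := he'
        simp only
        refine ⟨by omega, by omega, ?_⟩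
        push_cast at h ⊢
        linarith
    have c2 : (T2.card : ℝ) ≤ (R + 1) ^ 2 := by
      apply gc_corner_count hR0 (g := fun e => (e.1 + l, (N : ℤ) + l - 1 - e.2))
      · intro e e' h
        have h1 := congrArg Prod.fst h
        have h2 := congrArg Prod.snd h
        simp only at h1 h2
        exact Prod.ext (by omega) (by omega)
      · intro e he'
        rw [hT2, mem_filter, gc_mem_box] at he'
        obtain ⟨hbox, h⟩ := he'
        simp only
        refine ⟨by omega, by omega, ?_⟩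
        push_cast at h ⊢
        linarith
    have c3 : (T3.card : ℝ) ≤ (R + 1) ^ 2 := by
      apply gc_corner_count hR0 (g := fun e => (e.1 + l, e.2 + l))
      · intro e e' h
        have h1 := congrArg Prod.fst h
        have h2 := congrArg Prod.snd h
        simp only at h1 h2
        exact Prod.ext (by omega) (by omega)
      · intro e he'
        rw [hT3, mem_filter, gc_mem_box] at he'
        obtain ⟨hbox, h⟩ := he'
        simp only
        refine ⟨by omega, by omega, ?_⟩
        push_cast at h ⊢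
        linarith
    have c4 : (T4.card : ℝ) ≤ (R + 1) ^ 2 := by
      apply gc_corner_count hR0 (g := fun e => ((N : ℤ) + l - 1 - e.1, (N : ℤ) + l - 1 - e.2))
      · intro e e' h
        have h1 := congrArg Prod.fst h
        have h2 := congrArg Prod.snd h
        simp only at h1 h2
        exact Prod.ext (by omega) (by omega)
      · intro e he'
        rw [hT4, mem_filter, gc_mem_box] at he'
        obtain ⟨hbox, h⟩ := he'
        simp only
        refine ⟨by omega, by omega, ?_⟩
        push_cast at h ⊢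
        linarith
    have k1 : ((gcBox N l).filter (fun e => cellD l e ∈ T)).card ≤
        (T1.card + T2.card) + (T3.card + T4.card) := by
      refine (Finset.card_le_card hsub).trans ((Finset.card_union_le _ _).trans ?_)
      exact add_le_add (Finset.card_union_le _ _) (Finset.card_union_le _ _)
    have k2 : (((gcBox N l).filter (fun e => cellD l e ∈ T)).card : ℝ) ≤
        ((T1.card : ℝ) + T2.card) + ((T3.card : ℝ) + T4.card) := by exact_mod_cast k1
    linarith
  have h1 := gc_sum_T hl he hup (T := T) (Finset.filter_subset _ _)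
  refine h1.trans ((mul_le_mul_of_nonneg_left hcount (by positivity)).trans ?_)
  have h2 : R + 1 ≤ 3 * L * (κ0 * N + l + 1) := by
    rw [hRdef, hb]
    nlinarith [mul_pos hL0 (mul_pos hκ0 hN0), mul_nonneg (by linarith : (0:ℝ) ≤ L - 1) hl0.le]
  have h3 : (R + 1) ^ 2 ≤ (3 * L * (κ0 * N + l + 1)) ^ 2 := by
    apply pow_le_pow_left₀ (by linarith) h2
  calc C / N * (4 * (R + 1) ^ 2) ≤ C / N * (4 * (3 * L * (κ0 * N + l + 1)) ^ 2) := by
        apply mul_le_mul_of_nonneg_left _ (by positivity)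
        linarith
    _ = 36 * L ^ 2 * C * (κ0 * N + l + 1) ^ 2 / N := by ring

end Pool.Agent.NQR
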