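import Pool.Agent.NQR.Defs
import Pool.Agent.NQR.PFoc

/-!
# NQR-PKl: stability of the maximiser

`kl_le`: convexity of `phi` and of `x log x` together with the first order condition `foc`.
`l1_le`: the relative entropy dominates the Hellinger distance (`hell`), Cauchy-Schwarz.
-/

set_option autoImplicit false

open Finset

namespace Pool.Agent.NQR

open Pool.Agent.NQ (board dsum F Ent Dg phi ln Q Qset st cellD bern)

/-- `a log (a/b) ≥ a - b + (√a - √b)²` -/
theorem hell {a b : ℝ} (ha : 0 ≤ a) (hb : 0 < b) :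
    a - b + (Real.sqrt a - Real.sqrt b) ^ 2 ≤ a * Real.log (a / b) := by
  rcases ha.eq_or_lt with h | h
  · rw [← h, Real.sqrt_zero, zero_sub, zero_sub, neg_sq, Real.sq_sqrt hb.le, zero_mul]
    linarith
  · have hx : 0 < Real.sqrt a := Real.sqrt_pos.2 h
    have hy : 0 < Real.sqrt b := Real.sqrt_pos.2 hb
    have ea : Real.sqrt a ^ 2 = a := Real.sq_sqrt h.le
    have eb : Real.sqrt b ^ 2 = b := Real.sq_sqrt hb.le
    have h1 : Real.log (a / b) = -2 * Real.log (Real.sqrt b / Real.sqrt a) := by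
      have h2 : a / b = ((Real.sqrt b / Real.sqrt a) ^ 2)⁻¹ := by
        rw [div_pow, ea, eb, inv_div]
      rw [h2, Real.log_inv, Real.log_pow]
      push_cast
      ring
    have h3 := Real.log_le_sub_one_of_pos (div_pos hy hx)
    have h4 : a * (Real.sqrt b / Real.sqrt a) = Real.sqrt a * Real.sqrt b := by
      have h5 : a * (Real.sqrt b / Real.sqrt a) = Real.sqrt a ^ 2 * (Real.sqrt b / Real.sqrt a) := by
        rw [ea]
      rw [h5]
      field_simp
    rw [h1]
    nlinarith [mul_le_mul_of_nonneg_left h3 h.le]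

/-- the tangent inequality for `x log x` -/
private theorem pkl_tan {s t : ℝ} (hs : 0 < s) (ht : 0 ≤ t) : t - s ≤ t * Real.log t - t * Real.log s := by
  rcases ht.eq_or_lt with h | h
  · rw [← h, zero_mul, zero_mul]
    linarith
  · have h1 := Real.log_le_sub_one_of_pos (div_pos hs h)
    rw [Real.log_div hs.ne' h.ne'] at h1
    have h2 := mul_le_mul_of_nonneg_left h1 h.le
    have h3 : t * (s / t - 1) = s - t := by
      field_simp
    rw [h3] at h2
    linarith

private theorem pkl_phi {u v : ℝ} (hu : u < 1) (hv : v ≤ 1) :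
    -phi v ≤ -phi u + Real.log (1 - u) * (v - u) := by
  have h1 := pkl_tan (s := 1 - u) (t := 1 - v) (by linarith) (by linarith)
  unfold phi
  nlinarith [h1]

private theorem pkl_dsum_sub (N : ℕ) (V W : ℤ × ℤ → ℝ) (k : Fin 4) (s : ℤ) :
    dsum N (fun e => V e - W e) k s = dsum N V k s - dsum N W k s := by
  unfold dsum
  rw [Finset.sum_sub_distrib]

theorem kl_le {N : ℕ} {W : ℤ × ℤ → ℝ} (h : Opt N W) (h0 : ∀ e ∈ board N, 0 < W e)
    (h2 : ∀ s, dsum N W 2 s < 1) (h3 : ∀ s, dsum N W 3 s < 1) {V : ℤ × ℤ → ℝ} (hV : Adm N V) :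
    KL N V W ≤ F N W - F N V := by
  have hfoc := foc h h0 h2 h3 hV
  -- entropy
  have e1 : Ent N V = (∑ e ∈ board N, V e * (-Real.log (W e))) - KL N V W := by
    unfold Ent KL
    rw [← Finset.sum_sub_distrib]
    refine Finset.sum_congr rfl fun e he => ?_
    rcases (hV.nn e).eq_or_lt with hz | hz
    · rw [← hz]
      simp
    · rw [Real.log_div hz.ne' (h0 e he).ne', Real.negMulLog]
      ring
  have e2 : Ent N W = ∑ e ∈ board N, W e * (-Real.log (W e)) := by
    unfold Ent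
    refine Finset.sum_congr rfl fun e _ => ?_
    rw [Real.negMulLog]
    ring
  -- diagonals
  have s2 := sum_dsum2 N (fun e => V e - W e) (fun s => Real.log (1 - dsum N W 2 s))
  have s3 := sum_dsum3 N (fun e => V e - W e) (fun s => Real.log (1 - dsum N W 3 s))
  simp only [pkl_dsum_sub] at s2 s3
  have d2 : ∑ s ∈ Finset.Ico (0 : ℤ) (2 * N), -phi (dsum N V 2 s) ≤
      (∑ s ∈ Finset.Ico (0 : ℤ) (2 * N), -phi (dsum N W 2 s)) +
        ∑ s ∈ Finset.Ico (0 : ℤ) (2 * N), (dsum N V 2 s - dsum N W 2 s) * Real.log (1 - dsum N W 2 s) := by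
    rw [← Finset.sum_add_distrib]
    refine Finset.sum_le_sum fun s _ => ?_
    have h4 := pkl_phi (h2 s) (hV.sd s)
    rw [mul_comm] at h4
    exact h4
  have d3 : ∑ s ∈ Finset.Ioo (-(N : ℤ)) N, -phi (dsum N V 3 s) ≤
      (∑ s ∈ Finset.Ioo (-(N : ℤ)) N, -phi (dsum N W 3 s)) +
        ∑ s ∈ Finset.Ioo (-(N : ℤ)) N, (dsum N V 3 s - dsum N W 3 s) * Real.log (1 - dsum N W 3 s) := by
    rw [← Finset.sum_add_distrib]
    refine Finset.sum_le_sum fun s _ => ?_
    have h4 := pkl_phi (h3 s) (hV.dd s)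
    rw [mul_comm] at h4
    exact h4
  rw [← s2] at d2
  rw [← s3] at d3
  simp only [Finset.sum_neg_distrib] at d2 d3
  have e3 : ∑ e ∈ board N, (V e - W e) * ell N W e =
      (∑ e ∈ board N, V e * (-Real.log (W e))) - (∑ e ∈ board N, W e * (-Real.log (W e))) +
        (∑ e ∈ board N, (V e - W e) * Real.log (1 - dsum N W 2 (e.1 + e.2))) +
        ∑ e ∈ board N, (V e - W e) * Real.log (1 - dsum N W 3 (e.1 - e.2)) := by
    rw [← Finset.sum_sub_distrib, ← Finset.sum_add_distrib, ← Finset.sum_add_distrib]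
    refine Finset.sum_congr rfl fun e _ => ?_
    unfold ell hS hD
    ring
  rw [e3] at hfoc
  unfold F Dg
  rw [e1, e2]
  linarith

theorem l1_le {N : ℕ} {W : ℤ × ℤ → ℝ} (h : Opt N W) (h0 : ∀ e ∈ board N, 0 < W e)
    (h2 : ∀ s, dsum N W 2 s < 1) (h3 : ∀ s, dsum N W 3 s < 1) {V : ℤ × ℤ → ℝ} (hV : Adm N V) :
    (l1 N V W) ^ 2 ≤ 4 * N * (F N W - F N V) := by
  have hkl := kl_le h h0 h2 h3 hV
  have hW := h.1
  have c1 : ∑ e ∈ board N, (Real.sqrt (V e) - Real.sqrt (W e)) ^ 2 ≤ F N W - F N V := by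
    have c2 : ∑ e ∈ board N, (V e - W e + (Real.sqrt (V e) - Real.sqrt (W e)) ^ 2) ≤ KL N V W :=
      Finset.sum_le_sum fun e he => hell (hV.nn e) (h0 e he)
    rw [Finset.sum_add_distrib, Finset.sum_sub_distrib, adm_mass hV, adm_mass hW, sub_self, zero_add] at c2
    exact c2.trans hkl
  have c3 : ∑ e ∈ board N, (Real.sqrt (V e) + Real.sqrt (W e)) ^ 2 ≤ 4 * N := by
    have c4 : ∑ e ∈ board N, (Real.sqrt (V e) + Real.sqrt (W e)) ^ 2 ≤ ∑ e ∈ board N, (2 * V e + 2 * W e) := by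
      refine Finset.sum_le_sum fun e _ => ?_
      have a1 := Real.sq_sqrt (hV.nn e)
      have a2 := Real.sq_sqrt (hW.nn e)
      nlinarith [sq_nonneg (Real.sqrt (V e) - Real.sqrt (W e))]
    rw [Finset.sum_add_distrib, ← Finset.mul_sum, ← Finset.mul_sum, adm_mass hV, adm_mass hW] at c4
    linarith
  have c5 : l1 N V W = ∑ e ∈ board N, |Real.sqrt (V e) - Real.sqrt (W e)| * (Real.sqrt (V e) + Real.sqrt (W e)) := by
    unfold l1
    refine Finset.sum_congr rfl fun e _ => ?_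
    have a1 := Real.sq_sqrt (hV.nn e)
    have a2 := Real.sq_sqrt (hW.nn e)
    have a3 : V e - W e = (Real.sqrt (V e) - Real.sqrt (W e)) * (Real.sqrt (V e) + Real.sqrt (W e)) := by
      nlinarith
    rw [a3, abs_mul, abs_of_nonneg (add_nonneg (Real.sqrt_nonneg (V e)) (Real.sqrt_nonneg (W e)))]
  have c6 := Finset.sum_mul_sq_le_sq_mul_sq (board N)
    (fun e => |Real.sqrt (V e) - Real.sqrt (W e)|) (fun e => Real.sqrt (V e) + Real.sqrt (W e))
  simp only [sq_abs] at c6
  rw [c5]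
  have c7 : 0 ≤ ∑ e ∈ board N, (Real.sqrt (V e) - Real.sqrt (W e)) ^ 2 :=
    Finset.sum_nonneg fun e _ => sq_nonneg _
  have c8 : (∑ e ∈ board N, (Real.sqrt (V e) - Real.sqrt (W e)) ^ 2) *
      ∑ e ∈ board N, (Real.sqrt (V e) + Real.sqrt (W e)) ^ 2 ≤ (F N W - F N V) * (4 * N) :=
    mul_le_mul c1 c3 (Finset.sum_nonneg fun e _ => sq_nonneg _) (c7.trans c1)
  calc _ ≤ _ := c6
    _ ≤ (F N W - F N V) * (4 * N) := c8
    _ = 4 * N * (F N W - F N V) := by ring

end Pool.Agent.NQR
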