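import Pool.Agent.NQR.Defs

/-!
# NQR-SInt: the time integral (Mathlib only)

Let `u = η^(1/3) ≤ 1` and `m = max t u`. Then `log (η + s t³) ≤ 3 log m + (u/m)² + s - 1` (`log x ≤ log y + x/y - 1` for
`y = m³`). The Riemann sums of `log m` and `1/m²` are estimated by the telescoping sums of `BB u`
(`BB u' = log m`) and `CC u` (`CC u' = 1/m²`): `3 (BB (1+h) - BB h) + u² (CC 1 - CC 0) ≤ -3 + 5 u + 3 h (h - log u)`, `h = 1/M`.
-/

set_option autoImplicit false

open Finset

namespace Pool.Agent.NQR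

open Pool.Agent.NQ (board dsum F Ent Dg phi ln Q Qset st cellD bern)

open Classical in
private noncomputable def BB (u t : ℝ) : ℝ := if t ≤ u then t * Real.log u else t * Real.log t - t + u

open Classical in
private noncomputable def CC (u t : ℝ) : ℝ := if t ≤ u then t / u ^ 2 else 2 / u - 1 / t

/-- `y - x ≤ y (log y - log x)` -/
private theorem ll_ge {x y : ℝ} (hx : 0 < x) (hy : 0 < y) : y - x ≤ y * (Real.log y - Real.log x) := by
  have h1 := Real.log_le_sub_one_of_pos (div_pos hx hy)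
  rw [Real.log_div hx.ne' hy.ne'] at h1
  have h2 : y * (x / y - 1) = x - y := by field_simp
  have h3 := mul_le_mul_of_nonneg_left h1 hy.le
  rw [h2] at h3
  nlinarith

private theorem BB_step {u t h : ℝ} (hu : 0 < u) (ht : 0 < t) (hh : 0 < h) :
    h * Real.log (max t u) ≤ BB u (t + h) - BB u t := by
  unfold BB
  rcases le_or_gt t u with h1 | h1
  · rw [max_eq_right h1, if_pos h1]
    rcases le_or_gt (t + h) u with h2 | h2
    · rw [if_pos h2]
      apply le_of_eq
      ring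
    · rw [if_neg (not_le.2 h2)]
      have h3 := ll_ge hu (show 0 < t + h by linarith)
      nlinarith
  · rw [max_eq_left h1.le, if_neg (not_le.2 h1), if_neg (not_le.2 (by linarith))]
    have h3 := ll_ge ht (show 0 < t + h by linarith)
    nlinarith

/-- `(y - x)/y² ≤ 1/x - 1/y` for `x ≤ y` -/
private theorem inv_ge {x y : ℝ} (hx : 0 < x) (hxy : x ≤ y) : (y - x) / y ^ 2 ≤ 1 / x - 1 / y := by
  have hy : 0 < y := by linarith
  have h1 : 1 / x - 1 / y - (y - x) / y ^ 2 = (y - x) ^ 2 / (x * y ^ 2) := by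
    field_simp
  have h2 : 0 ≤ (y - x) ^ 2 / (x * y ^ 2) := by positivity
  linarith

private theorem CC_step {u t h : ℝ} (hu : 0 < u) (_ht : 0 ≤ t) (hh : 0 < h) :
    h / (max (t + h) u) ^ 2 ≤ CC u (t + h) - CC u t := by
  unfold CC
  rcases le_or_gt (t + h) u with h1 | h1
  · rw [max_eq_right h1, if_pos h1, if_pos (by linarith)]
    apply le_of_eq
    ring
  · rw [max_eq_left h1.le, if_neg (not_le.2 h1)]
    have hth : 0 < t + h := by linarith
    rcases le_or_gt t u with h2 | h2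
    · rw [if_pos h2]
      have h3 := inv_ge hu h1.le
      have h4 : (u - t) / (t + h) ^ 2 ≤ (u - t) / u ^ 2 := by
        apply div_le_div_of_nonneg_left (by linarith) (by positivity)
        exact pow_le_pow_left₀ hu.le h1.le 2
      have h5 : h / (t + h) ^ 2 = (t + h - u) / (t + h) ^ 2 + (u - t) / (t + h) ^ 2 := by
        rw [← add_div]
        congr 1
        ring
      have h6 : (u - t) / u ^ 2 = 1 / u - t / u ^ 2 := by
        field_simp
      have h7 : 2 / u = 1 / u + 1 / u := by ring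
      rw [h5, h7]
      linarith
    · rw [if_neg (not_le.2 h2)]
      have h3 := inv_ge (by linarith : 0 < t) (by linarith : t ≤ t + h)
      have h4 : t + h - t = h := by ring
      rw [h4] at h3
      linarith

private theorem term_le {η s u t : ℝ} (hu : 0 < u) (hη : η = u ^ 3) (hs : 0 ≤ s) (ht : 0 ≤ t) :
    Real.log (η + s * t ^ 3) ≤ 3 * Real.log (max t u) + u ^ 2 * (1 / (max t u) ^ 2) + (s - 1) := by
  obtain ⟨m, hm⟩ : ∃ m, m = max t u := ⟨_, rfl⟩
  have hum : u ≤ m := by rw [hm]; exact le_max_right _ _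
  have htm : t ≤ m := by rw [hm]; exact le_max_left _ _
  rw [← hm]
  have hm0 : 0 < m := lt_of_lt_of_le hu hum
  have hη0 : 0 < η := by rw [hη]; positivity
  have hx : 0 < η + s * t ^ 3 := by positivity
  have h1 := Real.log_le_sub_one_of_pos (div_pos hx (show 0 < m ^ 3 by positivity))
  rw [Real.log_div hx.ne' (by positivity), Real.log_pow] at h1
  have h2 : (η + s * t ^ 3) / m ^ 3 = (u / m) ^ 3 + s * (t / m) ^ 3 := by
    rw [hη]
    field_simp
  have h3 : (u / m) ^ 3 ≤ (u / m) ^ 2 :=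
    pow_le_pow_of_le_one (by positivity) ((div_le_one hm0).2 hum) (by norm_num)
  have h4 : (t / m) ^ 3 ≤ 1 := pow_le_one₀ (by positivity) ((div_le_one hm0).2 htm)
  have h5 : s * (t / m) ^ 3 ≤ s := by nlinarith
  have h6 : u ^ 2 * (1 / m ^ 2) = (u / m) ^ 2 := by
    rw [div_pow]
    ring
  rw [h6]
  push_cast at h1
  linarith

theorem time_bound {η s ε : ℝ} (hη : 0 < η) (hη1 : η ≤ 1) (hs : 0 ≤ s) (hε : 0 < ε) :
    ∃ M0 : ℕ, ∀ M : ℕ, M0 ≤ M → 0 < M →
      (1 / (M : ℝ)) * ∑ k ∈ Finset.range M, Real.log (η + s * (((M : ℝ) - k) / M) ^ 3) ≤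
        s - 1 - 3 + 6 * η ^ (1 / 3 : ℝ) + ε := by
  obtain ⟨u, hu⟩ : ∃ u, u = η ^ (1 / 3 : ℝ) := ⟨_, rfl⟩
  have hu0 : 0 < u := by rw [hu]; positivity
  have hu1 : u ≤ 1 := by rw [hu]; exact Real.rpow_le_one hη.le hη1 (by norm_num)
  have hu3 : η = u ^ 3 := by
    rw [hu, ← Real.rpow_natCast, ← Real.rpow_mul hη.le]
    norm_num
  rw [← hu]
  have hlu : Real.log u ≤ 0 := Real.log_nonpos hu0.le hu1
  obtain ⟨M0, hM0⟩ := exists_nat_ge (max (1 / u) (3 * (1 - Real.log u) / ε))
  refine ⟨M0, fun M hM hMpos => ?_⟩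
  have hMR : (0 : ℝ) < M := by exact_mod_cast hMpos
  have hMM : (M0 : ℝ) ≤ M := by exact_mod_cast hM
  obtain ⟨h, hh⟩ : ∃ h : ℝ, h = 1 / M := ⟨_, rfl⟩
  have hh0 : 0 < h := by rw [hh]; positivity
  have hM1 : (1 : ℝ) ≤ M := by exact_mod_cast hMpos
  have hh1 : h ≤ 1 := by
    rw [hh, div_le_one hMR]
    exact hM1
  have hMh : (M : ℝ) * h = 1 := by rw [hh]; field_simp
  have hhu : h ≤ u := by
    have h1 : 1 / u ≤ M := (le_max_left _ _).trans (hM0.trans hMM)
    rw [hh, div_le_iff₀ hMR]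
    rw [div_le_iff₀ hu0] at h1
    linarith
  have hhε : 3 * (h * (1 - Real.log u)) ≤ ε := by
    have h1 : 3 * (1 - Real.log u) / ε ≤ M := (le_max_right _ _).trans (hM0.trans hMM)
    rw [div_le_iff₀ hε] at h1
    have h2 : h * (3 * (1 - Real.log u)) ≤ h * (M * ε) := mul_le_mul_of_nonneg_left h1 hh0.le
    have h3 : h * (M * ε) = ε := by
      calc h * (M * ε) = (M * h) * ε := by ring
        _ = ε := by rw [hMh, one_mul]
    linarith
  -- reflection
  have hrefl : ∑ k ∈ Finset.range M, Real.log (η + s * (((M : ℝ) - k) / M) ^ 3) =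
      ∑ i ∈ Finset.range M, Real.log (η + s * (((i : ℝ) + 1) * h) ^ 3) := by
    rw [← Finset.sum_range_reflect (fun i => Real.log (η + s * (((i : ℝ) + 1) * h) ^ 3)) M]
    refine Finset.sum_congr rfl fun k hk => ?_
    rw [Finset.mem_range] at hk
    have h1 : ((M - 1 - k : ℕ) : ℝ) = (M : ℝ) - 1 - k := by
      rw [Nat.cast_sub (by omega), Nat.cast_sub (by omega)]
      push_cast
      ring
    rw [h1, hh]
    congr 4
    ring
  rw [hrefl, ← hh]
  have hterm : ∀ i ∈ Finset.range M, Real.log (η + s * (((i : ℝ) + 1) * h) ^ 3) ≤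
      3 * Real.log (max (((i : ℝ) + 1) * h) u) + u ^ 2 * (1 / (max (((i : ℝ) + 1) * h) u) ^ 2) + (s - 1) :=
    fun i _ => term_le hu0 hu3 hs (by positivity)
  have hsum := Finset.sum_le_sum hterm
  rw [Finset.sum_add_distrib, Finset.sum_add_distrib, ← Finset.mul_sum, ← Finset.mul_sum, Finset.sum_const,
    Finset.card_range, nsmul_eq_mul] at hsum
  have hB : h * ∑ i ∈ Finset.range M, Real.log (max (((i : ℝ) + 1) * h) u) ≤ BB u (1 + h) - BB u h := by
    rw [Finset.mul_sum]
    have h1 : ∀ i ∈ Finset.range M, h * Real.log (max (((i : ℝ) + 1) * h) u) ≤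
        BB u ((((i + 1 : ℕ) : ℝ) + 1) * h) - BB u (((i : ℝ) + 1) * h) := by
      intro i _
      have h2 := BB_step (u := u) (t := ((i : ℝ) + 1) * h) (h := h) hu0 (by positivity) hh0
      have h3 : (((i + 1 : ℕ) : ℝ) + 1) * h = ((i : ℝ) + 1) * h + h := by
        push_cast
        ring
      rw [h3]
      exact h2
    refine (Finset.sum_le_sum h1).trans (le_of_eq ?_)
    rw [Finset.sum_range_sub (fun i : ℕ => BB u (((i : ℝ) + 1) * h)) M]
    have h4 : ((M : ℝ) + 1) * h = 1 + h := by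
      rw [add_mul, hMh, one_mul]
    rw [h4]
    norm_num
  have hC : h * ∑ i ∈ Finset.range M, (1 / (max (((i : ℝ) + 1) * h) u) ^ 2) ≤ CC u 1 - CC u 0 := by
    rw [Finset.mul_sum]
    have h1 : ∀ i ∈ Finset.range M, h * (1 / (max (((i : ℝ) + 1) * h) u) ^ 2) ≤
        CC u (((i + 1 : ℕ) : ℝ) * h) - CC u ((i : ℝ) * h) := by
      intro i _
      have h2 := CC_step (u := u) (t := (i : ℝ) * h) (h := h) hu0 (by positivity) hh0
      have h3 : ((i + 1 : ℕ) : ℝ) * h = (i : ℝ) * h + h := by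
        push_cast
        ring
      have h4 : ((i : ℝ) + 1) * h = (i : ℝ) * h + h := by ring
      rw [h3, h4, mul_one_div]
      exact h2
    refine (Finset.sum_le_sum h1).trans (le_of_eq ?_)
    rw [Finset.sum_range_sub (fun i : ℕ => CC u ((i : ℝ) * h)) M, hMh]
    norm_num
  have hB2 : BB u (1 + h) - BB u h ≤ -1 + u + h * (1 - Real.log u) := by
    unfold BB
    rw [if_neg (not_le.2 (by linarith)), if_pos hhu]
    have h1 := Real.log_le_sub_one_of_pos (show 0 < 1 + h by linarith)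
    have h2 : (1 + h) * Real.log (1 + h) ≤ (1 + h) * h := mul_le_mul_of_nonneg_left (by linarith) (by linarith)
    nlinarith
  have hC2 : u ^ 2 * (CC u 1 - CC u 0) ≤ 2 * u := by
    have h1 : CC u 1 - CC u 0 ≤ 2 / u := by
      unfold CC
      rw [if_pos hu0.le, zero_div, sub_zero]
      split_ifs with h2
      · have h3 : u = 1 := le_antisymm hu1 h2
        rw [h3]
        norm_num
      · linarith
    calc u ^ 2 * (CC u 1 - CC u 0) ≤ u ^ 2 * (2 / u) := mul_le_mul_of_nonneg_left h1 (by positivity)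
      _ = 2 * u := by field_simp
  have hC3 : u ^ 2 * (h * ∑ i ∈ Finset.range M, (1 / (max (((i : ℝ) + 1) * h) u) ^ 2)) ≤ 2 * u :=
    (mul_le_mul_of_nonneg_left hC (by positivity)).trans hC2
  have hfin := mul_le_mul_of_nonneg_left hsum hh0.le
  have e1 : h * (3 * ∑ i ∈ Finset.range M, Real.log (max (((i : ℝ) + 1) * h) u) +
      u ^ 2 * ∑ i ∈ Finset.range M, (1 / (max (((i : ℝ) + 1) * h) u) ^ 2) + M * (s - 1)) =
      3 * (h * ∑ i ∈ Finset.range M, Real.log (max (((i : ℝ) + 1) * h) u)) +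
      u ^ 2 * (h * ∑ i ∈ Finset.range M, (1 / (max (((i : ℝ) + 1) * h) u) ^ 2)) + (M * h) * (s - 1) := by ring
  rw [e1, hMh, one_mul] at hfin
  linarith

end Pool.Agent.NQR
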