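import Pool.Agent.NQR.Defs
import Pool.Agent.NQ.UBij

/-!
# NQR-YCnt: the counts of queens configurations

PLAN. `hole_spec`: an injective `Y : Fin n → Fin (n+1)` misses exactly one value (cardinality).
`card_free`: a configuration `S` of `n + 1` queens on `board (n+1)` has one queen in each row `0,...,n`; removing the queen
`(0, a)` of row `0` gives `Y` with hole `a` and the square `(0, a)` free; conversely. Bijection
`Qset (n+1) ≃ {Y ∈ Ys n | Fr (occ Y) 0 (cl (hole Y))}` (`S` as the graph of a function on rows: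
`NQ.UBij` has `Q_eq : Q m = (QFs m).card` with functions `Fin m → Fin m`; use `Fin.cons`). Note that for the
square `(0,a)` the difference is `0 - a`, the sum `0 + a`, `Fr` says exactly that no queen attacks it diagonally.
`card_zero`: hole `0`: columns `1,...,n`, subtract one from rows and columns: differences unchanged, sums
changed by the constant `2`. `le_card`: from `card_free`.
-/

set_option autoImplicit false

open Finset

namespace Pool.Agent.NQR

open Pool.Agent.NQ (board dsum F Ent Dg phi ln Q Qset st cellD bern)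

private theorem yc_ex {n : ℕ} (Y : Fin n → Fin (n + 1)) : ∃ a, ∀ i, Y i ≠ a := by
  by_contra hcon
  push Not at hcon
  have h := Fintype.card_le_of_surjective Y hcon
  rw [Fintype.card_fin, Fintype.card_fin] at h
  omega

private theorem yc_hole {n : ℕ} (Y : Fin n → Fin (n + 1)) (i : Fin n) : Y i ≠ hole Y := by
  unfold hole
  rw [dif_pos (yc_ex Y)]
  exact (yc_ex Y).choose_spec i

theorem hole_ne {n : ℕ} {Y : Fin n → Fin (n + 1)} (h : YF n Y) (i : Fin n) : Y i ≠ hole Y :=
  yc_hole Y i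

theorem hole_unique {n : ℕ} {Y : Fin n → Fin (n + 1)} (h : YF n Y) {b : Fin (n + 1)} (hb : b ≠ hole Y) :
    ∃ i, Y i = b := by
  classical
  have h1 : (univ : Finset (Fin n)).image Y = univ.erase (hole Y) := by
    refine Finset.eq_of_subset_of_card_le ?_ ?_
    · intro a ha
      obtain ⟨i, _, rfl⟩ := Finset.mem_image.1 ha
      exact Finset.mem_erase.2 ⟨yc_hole Y i, Finset.mem_univ _⟩
    · rw [Finset.card_erase_of_mem (Finset.mem_univ _), Finset.card_image_of_injective _ h.1,
        Finset.card_univ, Finset.card_univ, Fintype.card_fin, Fintype.card_fin]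
      omega
  have h2 : b ∈ (univ : Finset (Fin n)).image Y := by
    rw [h1]
    exact Finset.mem_erase.2 ⟨hb, Finset.mem_univ _⟩
  obtain ⟨i, _, hi⟩ := Finset.mem_image.1 h2
  exact ⟨i, hi⟩

private theorem yc_eq {n : ℕ} {Y : Fin n → Fin (n + 1)} (h : YF n Y) {a : Fin (n + 1)}
    (ha : ∀ i, Y i ≠ a) : hole Y = a := by
  by_contra hne
  obtain ⟨i, hi⟩ := hole_unique h (Ne.symm hne)
  exact ha i hi

private theorem yc_inj {n : ℕ} {α : Type} (f : Fin (n + 1) → α) :
    Function.Injective f ↔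
      (∀ i : Fin n, f i.succ ≠ f 0) ∧ Function.Injective (fun i : Fin n => f i.succ) := by
  constructor
  · intro h
    exact ⟨fun i e => Fin.succ_ne_zero i (h e), fun i j e => Fin.succ_injective n (h e)⟩
  · rintro ⟨h0, h1⟩ i j e
    induction i using Fin.cases with
    | zero =>
      induction j using Fin.cases with
      | zero => rfl
      | succ j => exact absurd e.symm (h0 j)
    | succ i =>
      induction j using Fin.cases with
      | zero => exact absurd e (h0 i)
      | succ j => rw [h1 e]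

private theorem yc_occl {n : ℕ} (Y : Fin n → Fin (n + 1)) (s : ℤ) :
    Sum.inl s ∈ occ Y ↔ ∃ i, ro i - cl (Y i) = s := by
  unfold occ
  rw [Finset.mem_union, Finset.mem_image, Finset.mem_image]
  constructor
  · rintro (⟨i, _, h⟩ | ⟨i, _, h⟩)
    · exact ⟨i, Sum.inl.inj h⟩
    · exact absurd h (by simp)
  · rintro ⟨i, rfl⟩
    exact Or.inl ⟨i, Finset.mem_univ _, rfl⟩

private theorem yc_occr {n : ℕ} (Y : Fin n → Fin (n + 1)) (s : ℤ) :
    Sum.inr s ∈ occ Y ↔ ∃ i, ro i + cl (Y i) = s := by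
  unfold occ
  rw [Finset.mem_union, Finset.mem_image, Finset.mem_image]
  constructor
  · rintro (⟨i, _, h⟩ | ⟨i, _, h⟩)
    · exact absurd h (by simp)
    · exact ⟨i, Sum.inr.inj h⟩
  · rintro ⟨i, rfl⟩
    exact Or.inr ⟨i, Finset.mem_univ _, rfl⟩

private theorem yc_succ {n : ℕ} (i : Fin n) : (((i.succ : Fin (n + 1)) : ℕ) : ℤ) = ro i := by
  unfold ro
  rw [Fin.val_succ]
  push_cast
  rfl

private theorem yc_QF {n : ℕ} (X : Fin (n + 1) → Fin (n + 1)) :
    NQ.QF (n + 1) X ↔ YF n (fun i => X i.succ) ∧ (∀ i : Fin n, X i.succ ≠ X 0) ∧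
      Fr (occ fun i : Fin n => X i.succ) 0 (cl (X 0)) := by
  unfold NQ.QF YF Fr
  rw [yc_inj X, yc_inj (fun i => ln 2 (NQ.sq X i)), yc_inj (fun i => ln 3 (NQ.sq X i)),
    yc_occl, yc_occr]
  have e2 : ∀ i : Fin n, ln 2 (NQ.sq X i.succ) = ro i + cl (X i.succ) := by
    intro i
    show (((i.succ : Fin (n + 1)) : ℕ) : ℤ) + ((X i.succ : ℕ) : ℤ) = ro i + cl (X i.succ)
    rw [yc_succ]
    rfl
  have e3 : ∀ i : Fin n, ln 3 (NQ.sq X i.succ) = ro i - cl (X i.succ) := by
    intro i
    show (((i.succ : Fin (n + 1)) : ℕ) : ℤ) - ((X i.succ : ℕ) : ℤ) = ro i - cl (X i.succ)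
    rw [yc_succ]
    rfl
  have f2 : ln 2 (NQ.sq X 0) = 0 + cl (X 0) := by
    show (((0 : Fin (n + 1)) : ℕ) : ℤ) + ((X 0 : ℕ) : ℤ) = 0 + cl (X 0)
    rfl
  have f3 : ln 3 (NQ.sq X 0) = 0 - cl (X 0) := by
    show (((0 : Fin (n + 1)) : ℕ) : ℤ) - ((X 0 : ℕ) : ℤ) = 0 - cl (X 0)
    rfl
  simp only [e2, e3, f2, f3, not_exists]
  constructor
  · rintro ⟨⟨h1, h2⟩, ⟨h3, h4⟩, h5, h6⟩
    exact ⟨⟨h2, h4, h6⟩, h1, h5, h3⟩
  · rintro ⟨⟨h2, h4, h6⟩, h1, h5, h3⟩
    exact ⟨⟨h1, h2⟩, ⟨h3, h4⟩, h5, h6⟩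

theorem card_free (n : ℕ) :
    ((Ys n).filter (fun Y => Fr (occ Y) 0 (cl (hole Y)))).card = Q (n + 1) := by
  rw [NQ.Q_eq]
  refine Finset.card_bij (fun Y _ => (Fin.cons (hole Y) Y : Fin (n + 1) → Fin (n + 1))) ?_ ?_ ?_
  · intro Y hY
    rw [Finset.mem_filter, mem_Ys] at hY
    rw [NQ.mem_QFs, yc_QF]
    exact ⟨hY.1, yc_hole Y, hY.2⟩
  · intro Y _ Y' _ h
    funext i
    have h1 := congrFun h i.succ
    exact h1
  · intro X hX
    rw [NQ.mem_QFs, yc_QF] at hX
    obtain ⟨h1, h2, h3⟩ := hX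
    have h4 : hole (fun i : Fin n => X i.succ) = X 0 := yc_eq h1 h2
    refine ⟨fun i => X i.succ, ?_, ?_⟩
    · rw [Finset.mem_filter, mem_Ys, h4]
      exact ⟨h1, h3⟩
    · funext i
      induction i using Fin.cases with
      | zero => exact h4
      | succ i => rfl

private theorem yc_QF0 {n : ℕ} (X : Fin n → Fin n) :
    NQ.QF n X ↔ YF n (fun i => (X i).succ) := by
  unfold NQ.QF YF
  have e1 : Function.Injective (fun i => (X i).succ) ↔ Function.Injective X :=
    ⟨fun h i j e => h (congrArg Fin.succ e), fun h i j e => h (Fin.succ_injective n e)⟩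
  have c2 : ∀ i : Fin n, ro i + cl (X i).succ = ln 2 (NQ.sq X i) + 2 := by
    intro i
    show (((i : ℕ) : ℤ) + 1) + (((X i).succ : ℕ) : ℤ) = (((i : ℕ) : ℤ) + ((X i : ℕ) : ℤ)) + 2
    rw [Fin.val_succ]
    push_cast
    ring
  have c3 : ∀ i : Fin n, ro i - cl (X i).succ = ln 3 (NQ.sq X i) := by
    intro i
    show (((i : ℕ) : ℤ) + 1) - (((X i).succ : ℕ) : ℤ) = (((i : ℕ) : ℤ) - ((X i : ℕ) : ℤ))
    rw [Fin.val_succ]
    push_cast
    ring
  have e2 : Function.Injective (fun i => ro i + cl (X i).succ) ↔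
      Function.Injective (fun i => ln 2 (NQ.sq X i)) := by
    constructor
    · intro h i j e
      refine h ?_
      show ro i + cl (X i).succ = ro j + cl (X j).succ
      rw [c2, c2]
      exact congrArg (· + 2) e
    · intro h i j e
      refine h ?_
      have e' : ro i + cl (X i).succ = ro j + cl (X j).succ := e
      rw [c2, c2] at e'
      exact add_right_cancel e'
  have e3 : Function.Injective (fun i => ro i - cl (X i).succ) ↔
      Function.Injective (fun i => ln 3 (NQ.sq X i)) := by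
    have : (fun i => ro i - cl (X i).succ) = fun i => ln 3 (NQ.sq X i) := funext c3
    rw [this]
  rw [e1, e2, e3]

theorem card_zero (n : ℕ) : ((Ys n).filter (fun Y => hole Y = 0)).card = Q n := by
  rw [NQ.Q_eq]
  symm
  refine Finset.card_bij (fun X _ => (fun i => (X i).succ : Fin n → Fin (n + 1))) ?_ ?_ ?_
  · intro X hX
    rw [NQ.mem_QFs, yc_QF0] at hX
    rw [Finset.mem_filter, mem_Ys]
    exact ⟨hX, yc_eq hX fun i => Fin.succ_ne_zero _⟩
  · intro X _ X' _ h
    funext i
    have h1 := congrFun h i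
    exact Fin.succ_injective n h1
  · intro Y hY
    rw [Finset.mem_filter, mem_Ys] at hY
    obtain ⟨h1, h2⟩ := hY
    have h3 : ∀ i, Y i ≠ 0 := by
      intro i h4
      exact yc_hole Y i (h4.trans h2.symm)
    have h5 : (fun i => ((Y i).pred (h3 i)).succ) = Y := by
      funext i
      exact Fin.succ_pred _ _
    refine ⟨fun i => (Y i).pred (h3 i), ?_, h5⟩
    rw [NQ.mem_QFs, yc_QF0, h5]
    exact h1

theorem le_card (n : ℕ) : Q (n + 1) ≤ (Ys n).card := by
  rw [← card_free]
  exact Finset.card_filter_le _ _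

end Pool.Agent.NQR
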