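import Pool.Agent.NQR.Defs
import Pool.Agent.NQR.YCnt
import Pool.Agent.NQ.UTime

/-!
# NQR-STim: the probability that a square is available

PLAN. Copy of `NQ.UTime` (`pr_av`), all three lines occupied: let `b ≠ Y i`, `b ≠ hole Y`, both diagonals of the square
`(ro i, cl b)` in `U = occ Y`. The queens in column `b`, on the difference diagonal and on the sum diagonal are in three
different rows, all different from `i` (two of them equal would be a queen on the square itself). `avY τ i` contains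
`b` iff none of these three rows has a time `< τ i`. Independence: probability `(1/M) ((M-k)/M)³`.
-/

set_option autoImplicit false

open Finset

namespace Pool.Agent.NQR

open Pool.Agent.NQ (board dsum F Ent Dg phi ln Q Qset st cellD bern)

/-- squares available in row `i` after the rows with smaller time, both diagonals in `U`, column `≠ a` -/
noncomputable def avY {n M : ℕ} (U : Finset (ℤ ⊕ ℤ)) (a : Fin (n + 1)) (Y : Fin n → Fin (n + 1))
    (τ : Fin n → Fin M) (i : Fin n) : Finset (Fin (n + 1)) := by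
  classical
  exact univ.filter (fun b => b ≠ a ∧ Oc U (ro i) (cl b) ∧ ∀ j, τ j < τ i →
    Y j ≠ b ∧ ro j - cl (Y j) ≠ ro i - cl b ∧ ro j + cl (Y j) ≠ ro i + cl b)

private theorem utime_eq {M : ℕ} (k : Fin M) :
    Pool.Agent.PGr.Pr (fun x : Fin M => x = k) = 1 / (M : ℝ) := by
  rw [Pool.Agent.PGr.Pr_eq_card, Finset.filter_eq' univ k, if_pos (mem_univ k), card_singleton,
    Fintype.card_fin, Nat.cast_one]

private theorem utime_ge {M : ℕ} (k : Fin M) :
    Pool.Agent.PGr.Pr (fun x : Fin M => ¬ x < k) = 1 - (k : ℕ) / (M : ℝ) := by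
  have hM : 0 < M := lt_of_le_of_lt (Nat.zero_le _) k.2
  have hM' : (M : ℝ) ≠ 0 := by exact_mod_cast hM.ne'
  rw [Pool.Agent.PGr.Pr_eq_card, Fintype.card_fin]
  have h1 : (univ.filter fun x : Fin M => x < k).card = (k : ℕ) := by
    have h2 : (univ.filter fun x : Fin M => x < k) = Finset.Iio k := by
      ext x
      simp
    rw [h2, Fin.card_Iio]
  have h3 := Finset.card_filter_add_card_filter_not (s := (univ : Finset (Fin M)))
    fun x : Fin M => x < k
  rw [h1, card_univ, Fintype.card_fin] at h3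
  have h4 : ((univ.filter fun x : Fin M => ¬ x < k).card : ℝ) = M - (k : ℕ) := by
    have h5 : (((k : ℕ) + (univ.filter fun x : Fin M => ¬ x < k).card : ℕ) : ℝ) = (M : ℝ) := by
      rw [h3]
    push_cast at h5
    linarith
  rw [h4, sub_div, div_self hM']

/-- the probability for a general set of blockers -/
private theorem utime_pr {m M : ℕ} (i : Fin m) (k : Fin M) (J : Finset (Fin m)) (hi : i ∉ J) :
    Pool.Agent.PGr.Pr (fun τ : Fin m → Fin M => τ i = k ∧ ∀ j ∈ J, ¬ τ j < k) =
      (1 / (M : ℝ)) * (1 - (k : ℕ) / (M : ℝ)) ^ J.card := by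
  classical
  have : Nonempty (Fin M) := ⟨k⟩
  have h1 := Pool.Agent.PGr.Pr_pi_forall (insert i J)
    (fun (j : Fin m) (x : Fin M) => if j = i then x = k else ¬ x < k)
  rw [Finset.prod_insert hi] at h1
  have h2 : Pool.Agent.PGr.Pr (fun x : Fin M => if i = i then x = k else ¬ x < k) =
      1 / (M : ℝ) := by
    simp only [if_true]
    exact utime_eq k
  have h3 : ∏ j ∈ J, Pool.Agent.PGr.Pr (fun x : Fin M => if j = i then x = k else ¬ x < k) =
      (1 - (k : ℕ) / (M : ℝ)) ^ J.card := by
    rw [← Finset.prod_const]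
    refine Finset.prod_congr rfl fun j hj => ?_
    have hji : j ≠ i := fun h => hi (h ▸ hj)
    simp only [if_neg hji]
    exact utime_ge k
  rw [h2, h3] at h1
  rw [← h1]
  congr 1
  funext τ
  apply propext
  constructor
  · rintro ⟨h4, h5⟩ j hj
    by_cases hji : j = i
    · rw [if_pos hji, hji]
      exact h4
    · rw [if_neg hji]
      exact h5 j ((Finset.mem_insert.1 hj).resolve_left hji)
  · intro h4
    refine ⟨?_, fun j hj => ?_⟩
    · have h5 := h4 i (Finset.mem_insert_self _ _)
      rwa [if_pos rfl] at h5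
    · have h5 := h4 j (Finset.mem_insert_of_mem hj)
      have hji : j ≠ i := fun h => hi (h ▸ hj)
      rwa [if_neg hji] at h5

/-- exactly one row with a given value -/
private theorem one_card {m : ℕ} {β : Type} [DecidableEq β] (f : Fin m → β)
    (hf : Function.Injective f) {s : β} (h : ∃ j, f j = s) :
    (univ.filter fun j => f j = s).card = 1 := by
  obtain ⟨j, hj⟩ := h
  rw [Finset.card_eq_one]
  refine ⟨j, ?_⟩
  ext x
  rw [mem_filter, mem_singleton]
  constructor
  · rintro ⟨_, hx⟩
    exact hf (hx.trans hj.symm)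
  · rintro rfl
    exact ⟨mem_univ _, hj⟩

private theorem mem_inl {n : ℕ} {Y : Fin n → Fin (n + 1)} {s : ℤ} :
    Sum.inl s ∈ occ Y ↔ ∃ j, ro j - cl (Y j) = s := by
  unfold occ
  simp

private theorem mem_inr {n : ℕ} {Y : Fin n → Fin (n + 1)} {s : ℤ} :
    Sum.inr s ∈ occ Y ↔ ∃ j, ro j + cl (Y j) = s := by
  unfold occ
  simp

theorem avY_self {n M : ℕ} {Y : Fin n → Fin (n + 1)} (hY : YF n Y) (τ : Fin n → Fin M) (i : Fin n) :
    Y i ∈ avY (occ Y) (hole Y) Y τ i := by
  unfold avY
  rw [mem_filter]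
  refine ⟨mem_univ _, hole_ne hY i, ⟨mem_inl.2 ⟨i, rfl⟩, mem_inr.2 ⟨i, rfl⟩⟩, fun j hj => ?_⟩
  have hji : j ≠ i := by
    rintro rfl
    exact lt_irrefl _ hj
  exact ⟨fun h => hji (hY.1 h), fun h => hji (hY.2.2 h), fun h => hji (hY.2.1 h)⟩

theorem pr_avY {n M : ℕ} {Y : Fin n → Fin (n + 1)} (hY : YF n Y) (i : Fin n) (b : Fin (n + 1))
    (hb : b ≠ Y i) (ha : b ≠ hole Y) (ho : Oc (occ Y) (ro i) (cl b)) (k : Fin M) :
    Pool.Agent.PGr.Pr (fun τ : Fin n → Fin M => τ i = k ∧ b ∈ avY (occ Y) (hole Y) Y τ i) =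
      (1 / (M : ℝ)) * (((M : ℝ) - (k : ℕ)) / M) ^ 3 := by
  classical
  set A1 : Finset (Fin n) := univ.filter fun j => Y j = b with hA1
  set A2 : Finset (Fin n) := univ.filter fun j => ro j + cl (Y j) = ro i + cl b with hA2
  set A3 : Finset (Fin n) := univ.filter fun j => ro j - cl (Y j) = ro i - cl b with hA3
  have m1 : ∀ j, j ∈ A1 ↔ Y j = b := fun j => by rw [hA1, mem_filter]; simp
  have m2 : ∀ j, j ∈ A2 ↔ ro j + cl (Y j) = ro i + cl b := fun j => by
    rw [hA2, mem_filter]; simp
  have m3 : ∀ j, j ∈ A3 ↔ ro j - cl (Y j) = ro i - cl b := fun j => by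
    rw [hA3, mem_filter]; simp
  have hXb : ∀ j : Fin n, cl (Y j) = cl b → Y j = b := by
    intro j h
    unfold cl at h
    exact Fin.ext (by exact_mod_cast h)
  have hji : ∀ j : Fin n, ro j = ro i → j = i := by
    intro j h
    unfold ro at h
    exact Fin.ext (by omega)
  have d12 : Disjoint A1 A2 := by
    rw [Finset.disjoint_left]
    intro j h1 h2
    rw [m1] at h1
    rw [m2, h1] at h2
    have h3 := hji j (by omega)
    rw [h3] at h1
    exact hb h1.symm
  have d13 : Disjoint A1 A3 := by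
    rw [Finset.disjoint_left]
    intro j h1 h2
    rw [m1] at h1
    rw [m3, h1] at h2
    have h3 := hji j (by omega)
    rw [h3] at h1
    exact hb h1.symm
  have d23 : Disjoint A2 A3 := by
    rw [Finset.disjoint_left]
    intro j h1 h2
    rw [m2] at h1
    rw [m3] at h2
    have h3 := hji j (by omega)
    have h4 := hXb j (by omega)
    rw [h3] at h4
    exact hb h4.symm
  have hi : i ∉ A1 ∪ A2 ∪ A3 := by
    rw [Finset.mem_union, Finset.mem_union, m1, m2, m3]
    rintro ((h | h) | h)
    · exact hb h.symm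
    · exact hb (hXb i (by omega)).symm
    · exact hb (hXb i (by omega)).symm
  have hcard : (A1 ∪ A2 ∪ A3).card = 3 := by
    rw [Finset.card_union_of_disjoint (Finset.disjoint_union_left.2 ⟨d13, d23⟩),
      Finset.card_union_of_disjoint d12]
    have h1 : A1.card = 1 := one_card Y hY.1 (hole_unique hY ha)
    have h2 : A2.card = 1 := one_card (fun j => ro j + cl (Y j)) hY.2.1 (mem_inr.1 ho.2)
    have h3 : A3.card = 1 := one_card (fun j => ro j - cl (Y j)) hY.2.2 (mem_inl.1 ho.1)
    rw [h1, h2, h3]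
  have hev : (fun τ : Fin n → Fin M => τ i = k ∧ b ∈ avY (occ Y) (hole Y) Y τ i) =
      fun τ : Fin n → Fin M => τ i = k ∧ ∀ j ∈ A1 ∪ A2 ∪ A3, ¬ τ j < k := by
    funext τ
    apply propext
    constructor
    · rintro ⟨h1, h2⟩
      refine ⟨h1, fun j hj hlt => ?_⟩
      unfold avY at h2
      rw [mem_filter] at h2
      rw [← h1] at hlt
      obtain ⟨h3, h4, h5⟩ := h2.2.2.2 j hlt
      rw [Finset.mem_union, Finset.mem_union] at hj
      rcases hj with (hj | hj) | hj
      · exact h3 ((m1 j).1 hj)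
      · exact h5 ((m2 j).1 hj)
      · exact h4 ((m3 j).1 hj)
    · rintro ⟨h1, h2⟩
      refine ⟨h1, ?_⟩
      unfold avY
      rw [mem_filter]
      refine ⟨mem_univ _, ha, ho, fun j hj => ?_⟩
      rw [h1] at hj
      refine ⟨fun h => ?_, fun h => ?_, fun h => ?_⟩
      · exact h2 j (Finset.mem_union_left _ (Finset.mem_union_left _ ((m1 j).2 h))) hj
      · exact h2 j (Finset.mem_union_right _ ((m3 j).2 h)) hj
      · exact h2 j (Finset.mem_union_left _ (Finset.mem_union_right _ ((m2 j).2 h))) hj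
  have hM : 0 < M := lt_of_le_of_lt (Nat.zero_le _) k.2
  have hM' : (M : ℝ) ≠ 0 := by exact_mod_cast hM.ne'
  rw [hev, utime_pr i k _ hi, hcard, sub_div, div_self hM']

end Pool.Agent.NQR
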