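import Pool.Agent.NQR.Defs
import Pool.Agent.NQR.SInt
import Pool.Agent.NQR.STim
import Pool.Agent.NQ.USis

/-!
# NQR-SMas: sequential importance sampling with fixed diagonals

PLAN. For `τ : Fin n → Fin M` apply `Pool.Agent.NQ.sis` (times `τ`, weights `w`, sets `avY U a · τ i`, class `C`):
`∑_{Y ∈ C} ∏_i w i (Y i) / Z_i(Y,τ) ≤ 1`, `Z_i = ∑_{b ∈ avY} w i b`. Average over `τ` (`PGr.Ex`) and Jensen: for `Y` with all
`w i (Y i) > 0`: `Ex_τ ∏ (w/Z) ≥ exp (∑ log w i (Y i) - ∑_i Ex_τ log Z_i)` (inequality of arithmetic and geometric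
means / `exp` convex; terms with some `w i (Y i) = 0` vanish on the left and on the right). By `pr_avY` and concavity of
`log`, conditionally on `τ i = k`: `Ex (1_{τ i = k} log Z_i) ≤ (1/M) log (w i (Y i) + s_i t³) ≤ (1/M) log (η + s_i t³)`,
`t = (M-k)/M`, `s_i` = sum of `w i b` over `b ≠ a`, both diagonals in `U`. By `time_bound` (`M` large, all `i`, error `ε/n`)
`∑_i Ex log Z_i ≤ ∑_i (s_i - 1) - 3n + 6 n η^(1/3) + ε`. So `∑_{Y∈C} ∏ w i (Y i) ≤ exp(∑ (s_i - 1) - 3n + 6nη^(1/3) + ε)`; `ε → 0`.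
-/

set_option autoImplicit false

open Finset

namespace Pool.Agent.NQR

open Pool.Agent.NQ (board dsum F Ent Dg phi ln Q Qset st cellD bern)
open Pool.Agent.PGr (Pr Ex)

private lemma smas_ite {Ω : Type*} [Fintype Ω] (p : Ω → Prop) [DecidablePred p] :
    Ex (fun ω => if p ω then (1 : ℝ) else 0) = Pr p := by
  classical
  unfold Pr
  refine Pool.Agent.PGr.Ex_congr fun ω => ?_
  by_cases h : p ω
  · rw [if_pos h, if_pos h]
  · rw [if_neg h, if_neg h]

private lemma smas_jensen {Ω : Type*} [Fintype Ω] [Nonempty Ω] (f : Ω → ℝ) :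
    Real.exp (Ex f) ≤ Ex (fun ω => Real.exp (f ω)) := by
  have h1 : ∀ ω, Real.exp (Ex f) * (1 + (f ω - Ex f)) ≤ Real.exp (f ω) := by
    intro ω
    have h2 := Real.add_one_le_exp (f ω - Ex f)
    have h3 : Real.exp (f ω) = Real.exp (Ex f) * Real.exp (f ω - Ex f) := by
      rw [← Real.exp_add]
      congr 1
      ring
    rw [h3]
    exact mul_le_mul_of_nonneg_left (by linarith) (Real.exp_pos _).le
  have h4 := Pool.Agent.PGr.Ex_mono h1
  rw [Pool.Agent.PGr.Ex_const_mul] at h4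
  have h5 : Ex (fun ω => 1 + (f ω - Ex f)) = 1 := by
    rw [Pool.Agent.PGr.Ex_add, Pool.Agent.PGr.Ex_sub, Pool.Agent.PGr.Ex_const,
      Pool.Agent.PGr.Ex_const]
    ring
  rw [h5, mul_one] at h4
  exact h4

private lemma smas_zero {Ω : Type*} [Fintype Ω] (p : Ω → Prop) (h : ∀ ω, ¬ p ω) : Pr p = 0 := by
  classical
  unfold Pr
  rw [Pool.Agent.PGr.Ex_congr (g := fun _ => (0 : ℝ)) (fun ω => if_neg (h ω))]
  unfold Pool.Agent.PGr.Ex
  simp

private lemma smas_mem {n M : ℕ} {U : Finset (ℤ ⊕ ℤ)} {a : Fin (n + 1)} {Y : Fin n → Fin (n + 1)}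
    {τ : Fin n → Fin M} {i : Fin n} {b : Fin (n + 1)} (h : b ∈ avY U a Y τ i) :
    b ≠ a ∧ Oc U (ro i) (cl b) := by
  unfold avY at h
  rw [mem_filter] at h
  exact ⟨h.2.1, h.2.2.1⟩

private lemma smas_mean {n M : ℕ} {Y : Fin n → Fin (n + 1)} (hY : YF n Y)
    (w : Fin n → Fin (n + 1) → ℝ) {η : ℝ} (hη : 0 < η) (hw : ∀ i b, 0 ≤ w i b ∧ w i b ≤ η)
    (i : Fin n) (k : Fin M) :
    Ex (fun τ : Fin n → Fin M => if τ i = k then
      ∑ b ∈ avY (occ Y) (hole Y) Y τ i, w i b else 0) ≤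
      (1 / (M : ℝ)) * (η + (∑ b : Fin (n + 1), if Oc (occ Y) (ro i) (cl b) then w i b else 0) *
        (((M : ℝ) - (k : ℕ)) / M) ^ 3) := by
  classical
  have hM : 0 < M := lt_of_le_of_lt (Nat.zero_le _) k.2
  have hM0 : (0 : ℝ) < M := by exact_mod_cast hM
  have hkM : ((k : ℕ) : ℝ) ≤ M := by exact_mod_cast k.2.le
  have ht : (0 : ℝ) ≤ (((M : ℝ) - (k : ℕ)) / M) ^ 3 :=
    pow_nonneg (div_nonneg (by linarith) hM0.le) 3
  have hM1 : (0 : ℝ) ≤ 1 / (M : ℝ) := by positivity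
  have e1 : Ex (fun τ : Fin n → Fin M => if τ i = k then
      ∑ b ∈ avY (occ Y) (hole Y) Y τ i, w i b else 0) =
      ∑ b, w i b * Pr (fun τ : Fin n → Fin M => τ i = k ∧ b ∈ avY (occ Y) (hole Y) Y τ i) := by
    have h1 : ∀ b, w i b *
        Pr (fun τ : Fin n → Fin M => τ i = k ∧ b ∈ avY (occ Y) (hole Y) Y τ i) =
        Ex (fun τ : Fin n → Fin M => w i b *
          if τ i = k ∧ b ∈ avY (occ Y) (hole Y) Y τ i then (1 : ℝ) else 0) := by
      intro b
      rw [Pool.Agent.PGr.Ex_const_mul, smas_ite]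
    rw [Finset.sum_congr rfl fun b _ => h1 b, ← Pool.Agent.PGr.Ex_sum]
    refine Pool.Agent.PGr.Ex_congr fun τ => ?_
    by_cases h : τ i = k
    · rw [if_pos h, ← Finset.sum_subset (Finset.subset_univ (avY (occ Y) (hole Y) Y τ i))]
      · refine Finset.sum_congr rfl fun b hb => ?_
        rw [if_pos ⟨h, hb⟩, mul_one]
      · intro b _ hb
        rw [if_neg fun h' => hb h'.2, mul_zero]
    · rw [if_neg h]
      symm
      refine Finset.sum_eq_zero fun b _ => ?_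
      rw [if_neg fun h' => h h'.1, mul_zero]
  rw [e1]
  have hb : ∀ b, w i b *
      Pr (fun τ : Fin n → Fin M => τ i = k ∧ b ∈ avY (occ Y) (hole Y) Y τ i) ≤
      (1 / (M : ℝ)) * ((if b = Y i then η else 0) +
        (if Oc (occ Y) (ro i) (cl b) then w i b else 0) * (((M : ℝ) - (k : ℕ)) / M) ^ 3) := by
    intro b
    have hwb := hw i b
    have h0 : 0 ≤ (if Oc (occ Y) (ro i) (cl b) then w i b else 0) *
        (((M : ℝ) - (k : ℕ)) / M) ^ 3 := by
      refine mul_nonneg ?_ ht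
      split_ifs
      · exact hwb.1
      · exact le_rfl
    by_cases hbY : b = Y i
    · rw [if_pos hbY]
      have h1 : Pr (fun τ : Fin n → Fin M => τ i = k ∧ b ∈ avY (occ Y) (hole Y) Y τ i) ≤
          1 / (M : ℝ) := by
        rw [← Pool.Agent.NQ.pr_tau (m := n) hM i k]
        exact Pool.Agent.PGr.Pr_mono fun τ h => h.1
      calc _ ≤ w i b * (1 / (M : ℝ)) := mul_le_mul_of_nonneg_left h1 hwb.1
        _ ≤ η * (1 / (M : ℝ)) := mul_le_mul_of_nonneg_right hwb.2 hM1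
        _ = (1 / (M : ℝ)) * (η + 0) := by ring
        _ ≤ _ := mul_le_mul_of_nonneg_left (by linarith) hM1
    · rw [if_neg hbY, zero_add]
      by_cases ha : b = hole Y
      · rw [smas_zero _ fun τ h => (smas_mem h.2).1 ha, mul_zero]
        exact mul_nonneg hM1 h0
      · by_cases ho : Oc (occ Y) (ro i) (cl b)
        · rw [if_pos ho, pr_avY hY i b hbY ha ho k]
          apply le_of_eq
          ring
        · rw [smas_zero _ fun τ h => ho (smas_mem h.2).2, mul_zero]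
          exact mul_nonneg hM1 h0
  refine (Finset.sum_le_sum fun b _ => hb b).trans (le_of_eq ?_)
  rw [← Finset.mul_sum, Finset.sum_add_distrib, Finset.sum_ite_eq' univ (Y i) (fun _ => η),
    if_pos (mem_univ _), ← Finset.sum_mul]

private lemma smas_log {n M : ℕ} (hM : 0 < M) {Y : Fin n → Fin (n + 1)} (hY : YF n Y)
    (w : Fin n → Fin (n + 1) → ℝ) {η : ℝ} (hη : 0 < η) (hw : ∀ i b, 0 ≤ w i b ∧ w i b ≤ η)
    (hpos : ∀ i, 0 < w i (Y i)) (i : Fin n) :
    Ex (fun τ : Fin n → Fin M => Real.log (∑ b ∈ avY (occ Y) (hole Y) Y τ i, w i b)) ≤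
      (1 / (M : ℝ)) * ∑ k ∈ Finset.range M, Real.log (η +
        (∑ b : Fin (n + 1), if Oc (occ Y) (ro i) (cl b) then w i b else 0) *
          (((M : ℝ) - k) / M) ^ 3) := by
  classical
  have hM0 : (0 : ℝ) < M := by exact_mod_cast hM
  obtain ⟨S, hS⟩ : ∃ S : ℝ, S = ∑ b : Fin (n + 1), if Oc (occ Y) (ro i) (cl b) then w i b else 0 :=
    ⟨_, rfl⟩
  have hS0 : 0 ≤ S := by
    rw [hS]
    refine Finset.sum_nonneg fun b _ => ?_
    split_ifs
    · exact (hw i b).1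
    · exact le_rfl
  obtain ⟨c, hc⟩ : ∃ c : ℕ → ℝ, ∀ k : ℕ, c k = η + S * (((M : ℝ) - (k : ℝ)) / M) ^ 3 :=
    ⟨fun k => η + S * (((M : ℝ) - (k : ℝ)) / M) ^ 3, fun k => rfl⟩
  have hcpos : ∀ k : Fin M, 0 < c (k : ℕ) := by
    intro k
    have hkM : ((k : ℕ) : ℝ) ≤ M := by exact_mod_cast k.2.le
    have ht : (0 : ℝ) ≤ (((M : ℝ) - (k : ℕ)) / M) ^ 3 :=
      pow_nonneg (div_nonneg (by linarith) hM0.le) 3
    rw [hc]
    have := mul_nonneg hS0 ht
    linarith
  have hZ : ∀ τ : Fin n → Fin M, 0 < ∑ b ∈ avY (occ Y) (hole Y) Y τ i, w i b := fun τ =>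
    Finset.sum_pos' (fun b _ => (hw i b).1) ⟨Y i, avY_self hY τ i, hpos i⟩
  -- the tangent line
  have h1 : ∀ τ : Fin n → Fin M, Real.log (∑ b ∈ avY (occ Y) (hole Y) Y τ i, w i b) ≤
      ∑ k : Fin M, ((Real.log (c k) - 1) * (if τ i = k then (1 : ℝ) else 0) +
        (1 / c k) * (if τ i = k then ∑ b ∈ avY (occ Y) (hole Y) Y τ i, w i b else 0)) := by
    intro τ
    rw [Finset.sum_eq_single (τ i)]
    · rw [if_pos rfl, if_pos rfl, mul_one]
      have hcp := hcpos (τ i)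
      have h2 := Real.log_le_sub_one_of_pos (div_pos (hZ τ) hcp)
      rw [Real.log_div (hZ τ).ne' hcp.ne'] at h2
      have h3 : (1 / c (τ i)) * (∑ b ∈ avY (occ Y) (hole Y) Y τ i, w i b) =
          (∑ b ∈ avY (occ Y) (hole Y) Y τ i, w i b) / c (τ i) := by ring
      rw [h3]
      linarith
    · intro k _ hk
      rw [if_neg fun h => hk h.symm, if_neg fun h => hk h.symm]
      ring
    · intro h
      exact absurd (mem_univ _) h
  refine (Pool.Agent.PGr.Ex_mono h1).trans ?_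
  rw [Pool.Agent.PGr.Ex_sum, Finset.mul_sum, Finset.sum_range]
  refine Finset.sum_le_sum fun k _ => ?_
  rw [Pool.Agent.PGr.Ex_add, Pool.Agent.PGr.Ex_const_mul, Pool.Agent.PGr.Ex_const_mul, smas_ite,
    Pool.Agent.NQ.pr_tau (m := n) hM i k]
  have h4 := smas_mean hY w hη hw i k
  rw [← hS] at h4
  have hck : c (k : ℕ) = η + S * (((M : ℝ) - (k : ℕ)) / M) ^ 3 := hc k
  rw [← hS, ← hck]
  rw [← hck] at h4
  have hcp := hcpos k
  have h5 : (1 / c (k : ℕ)) * Ex (fun τ : Fin n → Fin M => if τ i = k then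
      ∑ b ∈ avY (occ Y) (hole Y) Y τ i, w i b else 0) ≤
      (1 / c (k : ℕ)) * ((1 / (M : ℝ)) * c (k : ℕ)) :=
    mul_le_mul_of_nonneg_left h4 (by positivity)
  have h6 : (1 / c (k : ℕ)) * ((1 / (M : ℝ)) * c (k : ℕ)) = 1 / (M : ℝ) := by
    field_simp
  rw [h6] at h5
  have h7 : (Real.log (c (k : ℕ)) - 1) * (1 / (M : ℝ)) + 1 / (M : ℝ) =
      1 / (M : ℝ) * Real.log (c (k : ℕ)) := by ring
  linarith

private lemma smas_loc {n M : ℕ} (U : Finset (ℤ ⊕ ℤ)) (a : Fin (n + 1)) (τ : Fin n → Fin M)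
    (i : Fin n) (X Y : Fin n → Fin (n + 1)) (h : ∀ j, ((τ j : Fin M) : ℕ) < (τ i : Fin M) → X j = Y j) :
    avY U a X τ i = avY U a Y τ i := by
  have h0 : ∀ j, τ j < τ i → X j = Y j := fun j hj => h j hj
  unfold avY
  ext b
  simp only [mem_filter, mem_univ, true_and]
  constructor
  · rintro ⟨h1, h2, h3⟩
    refine ⟨h1, h2, fun j hj => ?_⟩
    have := h3 j hj
    rw [h0 j hj] at this
    exact this
  · rintro ⟨h1, h2, h3⟩
    refine ⟨h1, h2, fun j hj => ?_⟩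
    have := h3 j hj
    rw [← h0 j hj] at this
    exact this

theorem master {n : ℕ} (U : Finset (ℤ ⊕ ℤ)) (a : Fin (n + 1)) (C : Finset (Fin n → Fin (n + 1)))
    (hC : ∀ Y ∈ C, YF n Y ∧ occ Y = U ∧ hole Y = a) (w : Fin n → Fin (n + 1) → ℝ) {η : ℝ} (hη : 0 < η)
    (hη1 : η ≤ 1) (hw : ∀ i b, 0 ≤ w i b ∧ w i b ≤ η) :
    ∑ Y ∈ C, ∏ i, w i (Y i) ≤ Real.exp (∑ i : Fin n, ((∑ b : Fin (n + 1),
      if Oc U (ro i) (cl b) then w i b else 0) - 1) - 3 * n + 6 * n * η ^ (1 / 3 : ℝ)) := by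
  classical
  obtain ⟨S, hS⟩ : ∃ S : Fin n → ℝ, ∀ i, S i = ∑ b : Fin (n + 1),
      if Oc U (ro i) (cl b) then w i b else 0 := ⟨_, fun i => rfl⟩
  have hS0 : ∀ i, 0 ≤ S i := by
    intro i
    rw [hS i]
    refine Finset.sum_nonneg fun b _ => ?_
    split_ifs
    · exact (hw i b).1
    · exact le_rfl
  have hSS : ∑ i : Fin n, ((∑ b : Fin (n + 1),
      if Oc U (ro i) (cl b) then w i b else 0) - 1) = ∑ i, (S i - 1) :=
    Finset.sum_congr rfl fun i _ => by rw [hS i]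
  rw [hSS]
  obtain ⟨R, hR⟩ : ∃ R : ℝ, R = ∑ i, (S i - 1) - 3 * n + 6 * n * η ^ (1 / 3 : ℝ) := ⟨_, rfl⟩
  rw [← hR]
  have key : ∀ ε : ℝ, 0 < ε → ∑ Y ∈ C, ∏ i, w i (Y i) ≤ Real.exp (R + n * ε) := by
    intro ε hε
    have hM0 : ∀ i, ∃ M0 : ℕ, ∀ M : ℕ, M0 ≤ M → 0 < M →
      (1 / (M : ℝ)) * ∑ k ∈ Finset.range M, Real.log (η + S i * (((M : ℝ) - k) / M) ^ 3) ≤
        S i - 1 - 3 + 6 * η ^ (1 / 3 : ℝ) + ε := fun i => time_bound hη hη1 (hS0 i) hε
    choose M0 hM0 using hM0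
    obtain ⟨M, hM⟩ : ∃ M, M = ∑ i, M0 i + 1 := ⟨_, rfl⟩
    have hMpos : 0 < M := by omega
    have hMi : ∀ i, M0 i ≤ M := by
      intro i
      have := Finset.single_le_sum (f := M0) (fun _ _ => Nat.zero_le _) (mem_univ i)
      omega
    have hne : Nonempty (Fin n → Fin M) := ⟨fun _ => ⟨0, hMpos⟩⟩
    have h1 : ∀ τ : Fin n → Fin M,
        ∑ Y ∈ C, ∏ i, (w i (Y i) / ∑ b ∈ avY U a Y τ i, w i b) ≤ 1 := by
      intro τ
      refine Pool.Agent.NQ.sis (fun i => ((τ i : Fin M) : ℕ)) w (fun i b => (hw i b).1)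
        (fun i Y => avY U a Y τ i) (fun i X Y h => smas_loc U a τ i X Y h) C ?_
      intro Y hY i
      obtain ⟨h2, h3, h4⟩ := hC Y hY
      have h5 := avY_self h2 τ i
      rw [h3, h4] at h5
      exact h5
    have h2 : ∑ Y ∈ C, Ex (fun τ : Fin n → Fin M =>
        ∏ i, (w i (Y i) / ∑ b ∈ avY U a Y τ i, w i b)) ≤ 1 := by
      rw [← Pool.Agent.PGr.Ex_sum, ← Pool.Agent.PGr.Ex_const (Ω := Fin n → Fin M) (1 : ℝ)]
      exact Pool.Agent.PGr.Ex_mono h1
    have h3 : ∀ Y ∈ C, (∏ i, w i (Y i)) * Real.exp (-(R + n * ε)) ≤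
        Ex (fun τ : Fin n → Fin M => ∏ i, (w i (Y i) / ∑ b ∈ avY U a Y τ i, w i b)) := by
      intro Y hY
      obtain ⟨g1, g2, g3⟩ := hC Y hY
      by_cases hz : ∃ i, w i (Y i) = 0
      · obtain ⟨i, hi⟩ := hz
        rw [Finset.prod_eq_zero (mem_univ i) hi, zero_mul]
        refine Pool.Agent.PGr.Ex_nonneg fun τ => Finset.prod_nonneg fun j _ => ?_
        exact div_nonneg (hw _ _).1 (Finset.sum_nonneg fun b _ => (hw _ _).1)
      · have hpos : ∀ i, 0 < w i (Y i) := fun i =>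
          lt_of_le_of_ne (hw i _).1 fun h => hz ⟨i, h.symm⟩
        have hZ : ∀ (τ : Fin n → Fin M) (i : Fin n), 0 < ∑ b ∈ avY U a Y τ i, w i b := by
          intro τ i
          have h5 := avY_self g1 τ i
          rw [g2, g3] at h5
          exact Finset.sum_pos' (fun b _ => (hw i b).1) ⟨Y i, h5, hpos i⟩
        have h6 : ∀ τ : Fin n → Fin M, ∏ i, (w i (Y i) / ∑ b ∈ avY U a Y τ i, w i b) =
            (∏ i, w i (Y i)) * Real.exp (-∑ i, Real.log (∑ b ∈ avY U a Y τ i, w i b)) := by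
          intro τ
          rw [Finset.prod_div_distrib, Real.exp_neg, Real.exp_sum, div_eq_mul_inv]
          congr 2
          refine Finset.prod_congr rfl fun i _ => ?_
          rw [Real.exp_log (hZ τ i)]
        rw [Pool.Agent.PGr.Ex_congr h6, Pool.Agent.PGr.Ex_const_mul]
        refine mul_le_mul_of_nonneg_left ?_ (Finset.prod_nonneg fun i _ => (hw i _).1)
        refine le_trans (Real.exp_le_exp.2 ?_) (smas_jensen _)
        have h7 : Ex (fun τ : Fin n → Fin M =>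
            -∑ i, Real.log (∑ b ∈ avY U a Y τ i, w i b)) =
            -∑ i, Ex (fun τ : Fin n → Fin M => Real.log (∑ b ∈ avY U a Y τ i, w i b)) := by
          rw [← Pool.Agent.PGr.Ex_sum]
          have h8 := Pool.Agent.PGr.Ex_const_mul (-1 : ℝ) (fun τ : Fin n → Fin M =>
            ∑ i, Real.log (∑ b ∈ avY U a Y τ i, w i b))
          rw [neg_one_mul] at h8
          rw [← h8]
          exact Pool.Agent.PGr.Ex_congr fun τ => (neg_one_mul _).symm
        rw [h7, neg_le_neg_iff]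
        have h9 : ∀ i, Ex (fun τ : Fin n → Fin M => Real.log (∑ b ∈ avY U a Y τ i, w i b)) ≤
            S i - 1 - 3 + 6 * η ^ (1 / 3 : ℝ) + ε := by
          intro i
          have h10 := smas_log hMpos g1 w hη hw hpos i
          rw [g2, g3, ← hS i] at h10
          exact h10.trans (hM0 i M (hMi i) hMpos)
        refine (Finset.sum_le_sum fun i _ => h9 i).trans (le_of_eq ?_)
        rw [hR]
        simp only [Finset.sum_add_distrib, Finset.sum_sub_distrib, Finset.sum_const, card_univ,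
          Fintype.card_fin, nsmul_eq_mul]
        ring
    have h4 := (Finset.sum_le_sum h3).trans h2
    rw [← Finset.sum_mul, Real.exp_neg] at h4
    have h5 := Real.exp_pos (R + n * ε)
    have h6 := mul_le_mul_of_nonneg_right h4 h5.le
    rw [mul_assoc, inv_mul_cancel₀ h5.ne', mul_one, one_mul] at h6
    exact h6
  by_contra hlt
  push Not at hlt
  have hA : 0 < ∑ Y ∈ C, ∏ i, w i (Y i) := (Real.exp_pos R).trans hlt
  have h1 : R < Real.log (∑ Y ∈ C, ∏ i, w i (Y i)) := by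
    rw [← Real.log_exp R]
    exact Real.log_lt_log (Real.exp_pos R) hlt
  have hn : (0 : ℝ) < (n : ℝ) + 1 := by positivity
  obtain ⟨d, hd⟩ : ∃ d : ℝ, d = Real.log (∑ Y ∈ C, ∏ i, w i (Y i)) - R := ⟨_, rfl⟩
  have hd0 : 0 < d := by
    rw [hd]
    linarith
  have h2 := key (d / (n + 1)) (div_pos hd0 hn)
  have h3 : R + n * (d / (n + 1)) < Real.log (∑ Y ∈ C, ∏ i, w i (Y i)) := by
    have h4 : (n : ℝ) * (d / (n + 1)) < d := by
      rw [← mul_div_assoc, div_lt_iff₀ hn]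
      nlinarith
    linarith
  have h5 : Real.exp (R + n * (d / (n + 1))) < ∑ Y ∈ C, ∏ i, w i (Y i) := by
    rw [← Real.exp_log hA]
    exact Real.exp_lt_exp.2 h3
  linarith

end Pool.Agent.NQR
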