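import Pool.Agent.NQR.Defs
import Pool.Agent.NQR.SMas
import Pool.Agent.NQ.UCelA

/-!
# NQR-SCls: configurations with given diagonals, hole and cell counts

PLAN. `m = l/2`. `master` with `w i b = c_D / (max (cS D.1) (κ m) * max (cD D.2) (κ m))`, `D` = cell of `(ro i, cl b)`
(`cS = cS l U`, `cD = cD l U`, `c_D = cY l Y D` for all `Y ∈ C`). `c_D ≤ cD ≤ m` (the queens of a cell are on different
difference diagonals of one strip, a parity strip has `m` elements: `NQ.UCelA.card_st`), so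
`w ≤ m/(κ m)² = 2/(κ² l) = η`. `∑_i ∑_b [Oc] w ≤ ∑_D w_D * #{(u,v) : u ∈ U inl in strip D.2, v ∈ U inr in strip D.1} ≤
∑_D w_D cS cD ≤ ∑_D c_D = n` (a square is determined by its two diagonals). So
`|C| * ∏_D w_D^(c_D) ≤ exp(-3n + 6 n η^(1/3))`, all `w_D > 0` for `c_D > 0`. Take logarithms
(`log (x/y)` with `y = c_D`; for `c_D = 0` the summand is `0`). Every queen is in a cell of `DI (n+1) l`.
-/

set_option autoImplicit false

open Finset

namespace Pool.Agent.NQR

open Pool.Agent.NQ (board dsum F Ent Dg phi ln Q Qset st cellD bern)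

private lemma cY_le {n : ℕ} {Y : Fin n → Fin (n + 1)} (hY : YF n Y) {l : ℤ} (hl : 0 < l)
    (he : Even l) (D : (ℤ × ℤ) × (ℤ × ℤ)) : (cY l Y D : ℝ) ≤ (l : ℝ) / 2 := by
  obtain ⟨σ, a, p⟩ := D
  have hlr : (0 : ℝ) < l := by exact_mod_cast hl
  by_cases hp : p = 0 ∨ p = 1
  · rw [← Pool.Agent.NQ.card_st hl he a hp]
    unfold cY
    have h1 : (univ.filter (fun i => cellD l (ro i, cl (Y i)) = (σ, a, p))).card ≤
        ((Finset.Ico (a * l) (a * l + l)).filter (fun s => s % 2 = p)).card := by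
      apply card_le_card_of_injOn (fun i => ro i - cl (Y i))
      · intro i hi
        rw [mem_coe, mem_filter] at hi
        rw [mem_coe, mem_filter, mem_Ico]
        have h2 : st l (ro i - cl (Y i)) = (a, p) := congrArg Prod.snd hi.2
        unfold st at h2
        rw [Prod.mk.injEq] at h2
        have h3 := Int.emod_add_mul_ediv (ro i - cl (Y i)) l
        have h4 := Int.emod_nonneg (ro i - cl (Y i)) hl.ne'
        have h5 := Int.emod_lt_of_pos (ro i - cl (Y i)) hl
        rw [h2.1, mul_comm] at h3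
        refine ⟨⟨?_, ?_⟩, h2.2⟩
        · show a * l ≤ ro i - cl (Y i)
          linarith
        · show ro i - cl (Y i) < a * l + l
          linarith
      · exact hY.2.2.injOn
    exact_mod_cast h1
  · have h1 : cY l Y (σ, a, p) = 0 := by
      unfold cY
      rw [card_eq_zero, filter_eq_empty_iff]
      intro i _ h2
      have h3 : st l (ro i - cl (Y i)) = (a, p) := congrArg Prod.snd h2
      unfold st at h3
      rw [Prod.mk.injEq] at h3
      apply hp
      have h4 := h3.2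
      omega
    rw [h1]
    simp only [Nat.cast_zero]
    linarith

private lemma sum_cY_le {n : ℕ} (Y : Fin n → Fin (n + 1)) (l : ℤ)
    (T : Finset ((ℤ × ℤ) × (ℤ × ℤ))) : ∑ D ∈ T, (cY l Y D : ℝ) ≤ n := by
  have h1 : ∀ D, (cY l Y D : ℝ) = ∑ i : Fin n, if cellD l (ro i, cl (Y i)) = D then (1 : ℝ) else 0 := by
    intro D
    unfold cY
    rw [Finset.card_filter]
    push_cast
    rfl
  simp only [h1]
  rw [Finset.sum_comm]
  have h2 : ∀ i : Fin n, (∑ D ∈ T, if cellD l (ro i, cl (Y i)) = D then (1 : ℝ) else 0) ≤ 1 := by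
    intro i
    rw [Finset.sum_ite_eq]
    split_ifs
    · exact le_rfl
    · exact zero_le_one
  calc ∑ i : Fin n, (∑ D ∈ T, if cellD l (ro i, cl (Y i)) = D then (1 : ℝ) else 0)
      ≤ ∑ _i : Fin n, (1 : ℝ) := Finset.sum_le_sum fun i _ => h2 i
    _ = n := by simp

private lemma pairs_le {n : ℕ} (U : Finset (ℤ ⊕ ℤ)) (l : ℤ) (D : (ℤ × ℤ) × (ℤ × ℤ)) :
    (((univ : Finset (Fin n × Fin (n + 1))).filter (fun p => Oc U (ro p.1) (cl p.2))).filter
      (fun p => cellD l (ro p.1, cl p.2) = D)).card ≤ cS l U D.1 * cD l U D.2 := by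
  unfold cS cD
  rw [← Finset.card_product]
  apply card_le_card_of_injOn (fun p => (ro p.1 + cl p.2, ro p.1 - cl p.2))
  · intro p hp
    rw [mem_coe, mem_filter, mem_filter] at hp
    obtain ⟨⟨_, h1, h2⟩, h3⟩ := hp
    rw [mem_coe, mem_product, mem_filter, mem_filter, Finset.mem_toRight, Finset.mem_toLeft]
    exact ⟨⟨h2, congrArg Prod.fst h3⟩, ⟨h1, congrArg Prod.snd h3⟩⟩
  · intro p _ q _ hpq
    have h1 : ro p.1 + cl p.2 = ro q.1 + cl q.2 := congrArg Prod.fst hpq
    have h2 : ro p.1 - cl p.2 = ro q.1 - cl q.2 := congrArg Prod.snd hpq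
    unfold ro cl at h1 h2
    refine Prod.ext (Fin.ext ?_) (Fin.ext ?_)
    · omega
    · omega

private lemma cell_mem_DI {n : ℕ} (Y : Fin n → Fin (n + 1)) (l : ℤ) (i : Fin n) :
    cellD l (ro i, cl (Y i)) ∈ DI (n + 1) l := by
  unfold DI
  apply Finset.mem_image_of_mem
  unfold board ro cl
  rw [mem_product, mem_Ico, mem_Ico]
  have h1 := i.2
  have h2 := (Y i).2
  refine ⟨⟨?_, ?_⟩, ⟨?_, ?_⟩⟩
  · show (0 : ℤ) ≤ ((i : ℕ) : ℤ) + 1
    omega
  · show ((i : ℕ) : ℤ) + 1 < ((n + 1 : ℕ) : ℤ)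
    omega
  · show (0 : ℤ) ≤ ((Y i : ℕ) : ℤ)
    omega
  · show ((Y i : ℕ) : ℤ) < ((n + 1 : ℕ) : ℤ)
    omega

theorem class_fix {n : ℕ} (U : Finset (ℤ ⊕ ℤ)) (a : Fin (n + 1)) (C : Finset (Fin n → Fin (n + 1)))
    (hC : ∀ Y ∈ C, YF n Y ∧ occ Y = U ∧ hole Y = a) {l : ℤ} (hl : 0 < l) (he : Even l)
    (c : (ℤ × ℤ) × (ℤ × ℤ) → ℕ) (hc : ∀ Y ∈ C, ∀ D, cY l Y D = c D) (hne : C.Nonempty) {κ : ℝ}
    (hκ : 0 < κ) (hκ1 : κ ≤ 1) (hη : 2 / (κ ^ 2 * l) ≤ 1) :
    Real.log C.card ≤ - 3 * n + 6 * n * (2 / (κ ^ 2 * l)) ^ (1 / 3 : ℝ) +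
      ∑ D ∈ DI (n + 1) l, (c D : ℝ) * Real.log (max (cS l U D.1 : ℝ) (κ * l / 2) *
        max (cD l U D.2 : ℝ) (κ * l / 2) / c D) := by
  classical
  have hlr : (0 : ℝ) < l := by exact_mod_cast hl
  have hkl : 0 < κ * l / 2 := by positivity
  obtain ⟨Y₀, hY₀⟩ := hne
  let S : (ℤ × ℤ) × (ℤ × ℤ) → ℝ := fun D => max (cS l U D.1 : ℝ) (κ * l / 2)
  let T : (ℤ × ℤ) × (ℤ × ℤ) → ℝ := fun D => max (cD l U D.2 : ℝ) (κ * l / 2)
  have hS : ∀ D, 0 < S D := fun D => lt_of_lt_of_le hkl (le_max_right _ _)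
  have hT : ∀ D, 0 < T D := fun D => lt_of_lt_of_le hkl (le_max_right _ _)
  let v : (ℤ × ℤ) × (ℤ × ℤ) → ℝ := fun D => (c D : ℝ) / (S D * T D)
  have hv0 : ∀ D, 0 ≤ v D := fun D =>
    div_nonneg (Nat.cast_nonneg _) (mul_pos (hS D) (hT D)).le
  have hcle : ∀ D, (c D : ℝ) ≤ (l : ℝ) / 2 := fun D => by
    rw [← hc Y₀ hY₀ D]
    exact cY_le (hC Y₀ hY₀).1 hl he D
  have hηpos : 0 < 2 / (κ ^ 2 * l) := by positivity
  have hvη : ∀ D, v D ≤ 2 / (κ ^ 2 * l) := by
    intro D
    have h1 : (κ * l / 2) * (κ * l / 2) ≤ S D * T D :=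
      mul_le_mul (le_max_right _ _) (le_max_right _ _) hkl.le (hS D).le
    calc v D ≤ ((l : ℝ) / 2) / ((κ * l / 2) * (κ * l / 2)) :=
          div_le_div₀ (by positivity) (hcle D) (by positivity) h1
      _ = 2 / (κ ^ 2 * l) := by
          field_simp
          try ring
  have hmas := master U a C hC (fun i b => v (cellD l (ro i, cl b))) hηpos hη
    (fun i b => ⟨hv0 _, hvη _⟩)
  -- the sum of the weights
  have hsum : ∑ i : Fin n, ((∑ b : Fin (n + 1),
      if Oc U (ro i) (cl b) then v (cellD l (ro i, cl b)) else 0) - 1) ≤ 0 := by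
    rw [Finset.sum_sub_distrib]
    have h1 : ∑ i : Fin n, (∑ b : Fin (n + 1),
        if Oc U (ro i) (cl b) then v (cellD l (ro i, cl b)) else 0) =
        ∑ p ∈ (univ : Finset (Fin n × Fin (n + 1))).filter (fun p => Oc U (ro p.1) (cl p.2)),
          v (cellD l (ro p.1, cl p.2)) := by
      rw [Finset.sum_filter, ← Finset.univ_product_univ, Finset.sum_product]
    have h2 : ∑ p ∈ (univ : Finset (Fin n × Fin (n + 1))).filter (fun p => Oc U (ro p.1) (cl p.2)),
          v (cellD l (ro p.1, cl p.2)) ≤ n := by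
      rw [← Finset.sum_fiberwise_of_maps_to (g := fun p => cellD l (ro p.1, cl p.2))
        (t := ((univ : Finset (Fin n × Fin (n + 1))).filter
          (fun p => Oc U (ro p.1) (cl p.2))).image (fun p => cellD l (ro p.1, cl p.2)))
        (fun p hp => Finset.mem_image_of_mem _ hp)]
      refine le_trans ?_ (sum_cY_le Y₀ l (((univ : Finset (Fin n × Fin (n + 1))).filter
          (fun p => Oc U (ro p.1) (cl p.2))).image (fun p => cellD l (ro p.1, cl p.2))))
      refine Finset.sum_le_sum fun D _ => ?_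
      rw [hc Y₀ hY₀ D]
      have h3 : ∑ p ∈ ((univ : Finset (Fin n × Fin (n + 1))).filter
          (fun p => Oc U (ro p.1) (cl p.2))).filter (fun p => cellD l (ro p.1, cl p.2) = D),
          v (cellD l (ro p.1, cl p.2)) =
          ((((univ : Finset (Fin n × Fin (n + 1))).filter
          (fun p => Oc U (ro p.1) (cl p.2))).filter
            (fun p => cellD l (ro p.1, cl p.2) = D)).card : ℝ) * v D := by
        rw [← nsmul_eq_mul, ← Finset.sum_const]
        refine Finset.sum_congr rfl fun p hp => ?_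
        rw [(Finset.mem_filter.mp hp).2]
      rw [h3]
      have h4 : ((((univ : Finset (Fin n × Fin (n + 1))).filter
          (fun p => Oc U (ro p.1) (cl p.2))).filter
            (fun p => cellD l (ro p.1, cl p.2) = D)).card : ℝ) ≤ S D * T D := by
        refine le_trans (Nat.cast_le.mpr (pairs_le U l D)) ?_
        rw [Nat.cast_mul]
        exact mul_le_mul (le_max_left _ _) (le_max_left _ _) (Nat.cast_nonneg _) (hS D).le
      have h5 : 0 < S D * T D := mul_pos (hS D) (hT D)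
      calc _ ≤ (S D * T D) * v D := mul_le_mul_of_nonneg_right h4 (hv0 D)
        _ = c D := by
            show (S D * T D) * ((c D : ℝ) / (S D * T D)) = c D
            exact mul_div_cancel₀ _ h5.ne'
    rw [h1]
    simp only [Finset.sum_const, Finset.card_univ, Fintype.card_fin, nsmul_eq_mul, mul_one]
    linarith
  -- the products
  have hpos : ∀ Y ∈ C, ∀ i, 0 < v (cellD l (ro i, cl (Y i))) := by
    intro Y hY i
    apply div_pos _ (mul_pos (hS _) (hT _))
    rw [← hc Y hY]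
    have h1 : 0 < cY l Y (cellD l (ro i, cl (Y i))) := by
      unfold cY
      rw [Finset.card_pos]
      exact ⟨i, Finset.mem_filter.mpr ⟨Finset.mem_univ _, rfl⟩⟩
    exact_mod_cast h1
  have hprod : ∀ Y ∈ C, ∏ i, v (cellD l (ro i, cl (Y i))) =
      Real.exp (∑ D ∈ DI (n + 1) l, (c D : ℝ) * Real.log (v D)) := by
    intro Y hY
    rw [← Real.exp_log (Finset.prod_pos fun i _ => hpos Y hY i),
      Real.log_prod (fun i _ => (hpos Y hY i).ne')]
    congr 1
    rw [← Finset.sum_fiberwise_of_maps_to (g := fun i => cellD l (ro i, cl (Y i)))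
      (t := DI (n + 1) l) (fun i _ => cell_mem_DI Y l i)]
    refine Finset.sum_congr rfl fun D _ => ?_
    rw [← hc Y hY D]
    unfold cY
    rw [← nsmul_eq_mul, ← Finset.sum_const]
    refine Finset.sum_congr rfl fun i hi => ?_
    rw [(Finset.mem_filter.mp hi).2]
  have hCpos : (0 : ℝ) < C.card := by
    exact_mod_cast Finset.card_pos.mpr ⟨Y₀, hY₀⟩
  rw [Finset.sum_congr rfl hprod, Finset.sum_const, nsmul_eq_mul] at hmas
  have hlog := Real.log_le_log (mul_pos hCpos (Real.exp_pos _)) hmas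
  rw [Real.log_mul hCpos.ne' (Real.exp_pos _).ne', Real.log_exp, Real.log_exp] at hlog
  have hfin : ∑ D ∈ DI (n + 1) l, (c D : ℝ) * Real.log (v D) =
      - ∑ D ∈ DI (n + 1) l, (c D : ℝ) * Real.log (max (cS l U D.1 : ℝ) (κ * l / 2) *
        max (cD l U D.2 : ℝ) (κ * l / 2) / c D) := by
    rw [← Finset.sum_neg_distrib]
    refine Finset.sum_congr rfl fun D _ => ?_
    have h1 : v D = (S D * T D / c D)⁻¹ := by
      rw [inv_div]
    rw [h1, Real.log_inv]
    show (c D : ℝ) * -Real.log (S D * T D / c D) = -((c D : ℝ) * Real.log (S D * T D / c D))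
    ring
  rw [hfin] at hlog
  linarith

end Pool.Agent.NQR
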