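import Pool.Agent.NQR.Defs
import Pool.Agent.NQR.SCls
import Pool.Agent.NQ.UCelA

/-!
# NQR-SNum: configurations with given hole and cell counts

PLAN. Let `Y0 ∈ Ys n`, class `K = {Y ∈ Ys n | hole Y = hole Y0, cY l Y D = cY l Y0 D for all D}`. For `Y ∈ K` the strip counts
`cS l (occ Y) σ = ∑_{D.1 = σ} cY l Y D`, `cD l (occ Y) σ = ∑_{D.2 = σ} cY l Y D` are those of `Y0`. The number of possible sets
`occ Y` is at most `∏_{σ ∈ SI} C(m, cS σ) C(m, cD σ)`, `m = l/2`: `occ Y` is determined by its intersections with the strips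
`{inl s : st l s = σ}`, `{inr s : st l s = σ}`, `σ ∈ SI (n+1) l`, each a set with `m` elements
(`Finset.card_powersetCard`, an injection into `Fintype.piFinset`/`Finset.pi`). For each `U` apply `class_fix`
(the right hand side is the same for all `U`); `K` is the disjoint union over `U`.
-/

set_option autoImplicit false

open Finset

namespace Pool.Agent.NQR

open Pool.Agent.NQ (board dsum F Ent Dg phi ln Q Qset st cellD bern)

private noncomputable def snum_ss (l : ℤ) (σ : ℤ × ℤ) : Finset ℤ :=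
  (Finset.Ico (σ.1 * l) (σ.1 * l + l)).filter (fun s => s % 2 = σ.2)

private theorem snum_mem_ss {l : ℤ} (hl : 0 < l) {σ : ℤ × ℤ} {s : ℤ} (h : st l s = σ) :
    s ∈ snum_ss l σ := by
  subst h
  unfold snum_ss st
  rw [mem_filter, mem_Ico]
  have h3 := Int.emod_add_mul_ediv s l
  have h4 := Int.emod_nonneg s hl.ne'
  have h5 := Int.emod_lt_of_pos s hl
  rw [mul_comm] at h3
  exact ⟨⟨by show s / l * l ≤ s; linarith, by show s < s / l * l + l; linarith⟩, rfl⟩

private theorem snum_card_ss {l : ℤ} (hl : 0 < l) (he : Even l) {σ : ℤ × ℤ} (hσ : σ.2 = 0 ∨ σ.2 = 1) :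
    (snum_ss l σ).card = (l / 2).toNat := by
  have h1 := Pool.Agent.NQ.card_st hl he σ.1 hσ
  have h2 : (((l / 2).toNat : ℕ) : ℝ) = (l : ℝ) / 2 := by
    obtain ⟨h, rfl⟩ := he
    have e1 : (h + h) / 2 = h := by omega
    rw [e1]
    have e3 : ((h.toNat : ℤ) : ℝ) = (h : ℝ) := by rw [Int.toNat_of_nonneg (by omega)]
    have e4 : ((h.toNat : ℕ) : ℝ) = (h : ℝ) := by exact_mod_cast e3
    rw [e4]
    push_cast
    ring
  have h3 : ((snum_ss l σ).card : ℝ) = (((l / 2).toNat : ℕ) : ℝ) := by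
    rw [h2, ← h1]
    rfl
  exact_mod_cast h3

private theorem snum_SI_par {N : ℕ} {l : ℤ} {σ : ℤ × ℤ} (hσ : σ ∈ SI N l) : σ.2 = 0 ∨ σ.2 = 1 := by
  unfold SI at hσ
  rw [mem_image] at hσ
  obtain ⟨s, _, rfl⟩ := hσ
  unfold st
  show s % 2 = 0 ∨ s % 2 = 1
  omega

private theorem snum_toRight {n : ℕ} (Y : Fin n → Fin (n + 1)) :
    (occ Y).toRight = univ.image (fun i => ro i + cl (Y i)) := by
  ext s
  simp [occ, Finset.mem_toRight]

private theorem snum_toLeft {n : ℕ} (Y : Fin n → Fin (n + 1)) :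
    (occ Y).toLeft = univ.image (fun i => ro i - cl (Y i)) := by
  ext s
  simp [occ, Finset.mem_toLeft]

private theorem snum_cS {n : ℕ} {Y : Fin n → Fin (n + 1)} (hY : YF n Y) (l : ℤ) (σ : ℤ × ℤ) :
    cS l (occ Y) σ = (univ.filter (fun i => (cellD l (ro i, cl (Y i))).1 = σ)).card := by
  unfold cS
  rw [snum_toRight, Finset.filter_image, card_image_of_injective _ hY.2.1]
  rfl

private theorem snum_cD {n : ℕ} {Y : Fin n → Fin (n + 1)} (hY : YF n Y) (l : ℤ) (σ : ℤ × ℤ) :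
    cD l (occ Y) σ = (univ.filter (fun i => (cellD l (ro i, cl (Y i))).2 = σ)).card := by
  unfold cD
  rw [snum_toLeft, Finset.filter_image, card_image_of_injective _ hY.2.2]
  rfl

private theorem snum_congr {n : ℕ} {X X0 : Fin n → Fin (n + 1)} {l : ℤ}
    (h : ∀ D, cY l X D = cY l X0 D) (g : (ℤ × ℤ) × (ℤ × ℤ) → ℤ × ℤ) (σ : ℤ × ℤ) :
    (univ.filter (fun i => g (cellD l (ro i, cl (X i))) = σ)).card =
      (univ.filter (fun i => g (cellD l (ro i, cl (X0 i))) = σ)).card := by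
  classical
  set t := (univ.image (fun i => cellD l (ro i, cl (X i))) ∪
    univ.image (fun i => cellD l (ro i, cl (X0 i)))).filter (fun D => g D = σ) with ht
  have key : ∀ Y : Fin n → Fin (n + 1), (∀ i, cellD l (ro i, cl (Y i)) ∈
      univ.image (fun i => cellD l (ro i, cl (X i))) ∪ univ.image (fun i => cellD l (ro i, cl (X0 i)))) →
      (univ.filter (fun i => g (cellD l (ro i, cl (Y i))) = σ)).card = ∑ D ∈ t, cY l Y D := by
    intro Y hY
    rw [card_eq_sum_card_fiberwise (f := fun i => cellD l (ro i, cl (Y i))) (t := t)]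
    · apply sum_congr rfl
      intro D hD
      unfold cY
      congr 1
      ext i
      rw [mem_filter, mem_filter, mem_filter]
      constructor
      · rintro ⟨⟨h1, _⟩, h2⟩
        exact ⟨h1, h2⟩
      · rintro ⟨h1, h2⟩
        refine ⟨⟨h1, ?_⟩, h2⟩
        rw [h2]
        exact (mem_filter.1 hD).2
    · intro i hi
      rw [mem_coe, mem_filter] at hi
      rw [mem_coe, ht, mem_filter]
      exact ⟨hY i, hi.2⟩
  rw [key X (fun i => mem_union_left _ (mem_image_of_mem _ (mem_univ i))),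
    key X0 (fun i => mem_union_right _ (mem_image_of_mem _ (mem_univ i)))]
  exact sum_congr rfl fun D _ => h D

private theorem snum_count {N : ℕ} {l : ℤ} (hl : 0 < l) (he : Even l) (V : Finset (Finset (ℤ ⊕ ℤ)))
    (a b : ℤ × ℤ → ℕ) (hV : ∀ U ∈ V, (∀ s ∈ U.toRight, st l s ∈ SI N l) ∧ (∀ s ∈ U.toLeft, st l s ∈ SI N l) ∧
      ∀ σ, cS l U σ = a σ ∧ cD l U σ = b σ) :
    V.card ≤ ∏ σ ∈ SI N l, Nat.choose (l / 2).toNat (a σ) * Nat.choose (l / 2).toNat (b σ) := by
  classical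
  have h1 : ∏ σ ∈ SI N l, Nat.choose (l / 2).toNat (a σ) * Nat.choose (l / 2).toNat (b σ) =
      ((SI N l).pi (fun σ => powersetCard (a σ) (snum_ss l σ) ×ˢ powersetCard (b σ) (snum_ss l σ))).card := by
    rw [Finset.card_pi]
    apply prod_congr rfl
    intro σ hσ
    rw [card_product, card_powersetCard, card_powersetCard, snum_card_ss hl he (snum_SI_par hσ)]
  rw [h1]
  apply card_le_card_of_injOn (fun U σ _ =>
    (U.toRight.filter (fun s => st l s = σ), U.toLeft.filter (fun s => st l s = σ)))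
  · intro U hU
    rw [mem_coe, Finset.mem_pi]
    intro σ hσ
    obtain ⟨_, _, h2⟩ := hV U hU
    rw [mem_product, mem_powersetCard, mem_powersetCard]
    refine ⟨⟨?_, (h2 σ).1⟩, ⟨?_, (h2 σ).2⟩⟩
    · intro s hs
      exact snum_mem_ss hl (mem_filter.1 hs).2
    · intro s hs
      exact snum_mem_ss hl (mem_filter.1 hs).2
  · have key : ∀ U ∈ V, ∀ U' ∈ V, (∀ σ ∈ SI N l, (U.toRight.filter (fun s => st l s = σ) =
        U'.toRight.filter (fun s => st l s = σ)) ∧ (U.toLeft.filter (fun s => st l s = σ) =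
        U'.toLeft.filter (fun s => st l s = σ))) → U ⊆ U' := by
      intro U hU U' _ h e heU
      obtain ⟨h2, h3, _⟩ := hV U hU
      rcases e with s | s
      · have h4 : s ∈ U.toLeft := mem_toLeft.2 heU
        have h5 : s ∈ U.toLeft.filter (fun s' => st l s' = st l s) := mem_filter.2 ⟨h4, rfl⟩
        rw [(h _ (h3 s h4)).2] at h5
        exact mem_toLeft.1 (mem_filter.1 h5).1
      · have h4 : s ∈ U.toRight := mem_toRight.2 heU
        have h5 : s ∈ U.toRight.filter (fun s' => st l s' = st l s) := mem_filter.2 ⟨h4, rfl⟩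
        rw [(h _ (h2 s h4)).1] at h5
        exact mem_toRight.1 (mem_filter.1 h5).1
    intro U hU U' hU' h
    have h2 : ∀ σ ∈ SI N l, (U.toRight.filter (fun s => st l s = σ) =
        U'.toRight.filter (fun s => st l s = σ)) ∧ (U.toLeft.filter (fun s => st l s = σ) =
        U'.toLeft.filter (fun s => st l s = σ)) := by
      intro σ hσ
      have h3 := congrFun (congrFun h σ) hσ
      exact Prod.mk.inj h3
    exact Subset.antisymm (key U hU U' hU' h2)
      (key U' hU' U hU fun σ hσ => ⟨(h2 σ hσ).1.symm, (h2 σ hσ).2.symm⟩)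

private theorem snum_mem_SI {n : ℕ} (Y : Fin n → Fin (n + 1)) (l : ℤ) :
    (∀ s ∈ (occ Y).toRight, st l s ∈ SI (n + 1) l) ∧ (∀ s ∈ (occ Y).toLeft, st l s ∈ SI (n + 1) l) := by
  constructor
  · intro s hs
    rw [snum_toRight, mem_image] at hs
    obtain ⟨i, _, rfl⟩ := hs
    unfold SI
    apply mem_image_of_mem
    rw [mem_Icc]
    have h1 := i.2
    have h2 := (Y i).2
    unfold ro cl
    push_cast
    constructor <;> omega
  · intro s hs
    rw [snum_toLeft, mem_image] at hs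
    obtain ⟨i, _, rfl⟩ := hs
    unfold SI
    apply mem_image_of_mem
    rw [mem_Icc]
    have h1 := i.2
    have h2 := (Y i).2
    unfold ro cl
    push_cast
    constructor <;> omega

theorem class_num {n : ℕ} {l : ℤ} (hl : 0 < l) (he : Even l) (hln : l ≤ n + 1) {κ : ℝ} (hκ : 0 < κ)
    (hκ1 : κ ≤ 1) (hη : 2 / (κ ^ 2 * l) ≤ 1) {Y0 : Fin n → Fin (n + 1)} (hY : Y0 ∈ Ys n)
    (K : Finset (Fin n → Fin (n + 1)))
    (hK : ∀ Y, Y ∈ K ↔ Y ∈ Ys n ∧ hole Y = hole Y0 ∧ ∀ D, cY l Y D = cY l Y0 D) :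
    Real.log K.card ≤ - 3 * n + 6 * n * (2 / (κ ^ 2 * l)) ^ (1 / 3 : ℝ) +
      (∑ D ∈ DI (n + 1) l, (cY l Y0 D : ℝ) * Real.log (max (cS l (occ Y0) D.1 : ℝ) (κ * l / 2) *
        max (cD l (occ Y0) D.2 : ℝ) (κ * l / 2) / cY l Y0 D)) +
      ∑ σ ∈ SI (n + 1) l, (Real.log (Nat.choose (l / 2).toNat (cS l (occ Y0) σ)) +
        Real.log (Nat.choose (l / 2).toNat (cD l (occ Y0) σ))) := by
  classical
  set R : ℝ := - 3 * n + 6 * n * (2 / (κ ^ 2 * l)) ^ (1 / 3 : ℝ) +
      (∑ D ∈ DI (n + 1) l, (cY l Y0 D : ℝ) * Real.log (max (cS l (occ Y0) D.1 : ℝ) (κ * l / 2) *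
        max (cD l (occ Y0) D.2 : ℝ) (κ * l / 2) / cY l Y0 D)) with hR
  have hK0 : Y0 ∈ K := (hK Y0).2 ⟨hY, rfl, fun _ => rfl⟩
  have hcS : ∀ Y ∈ K, ∀ σ, cS l (occ Y) σ = cS l (occ Y0) σ ∧ cD l (occ Y) σ = cD l (occ Y0) σ := by
    intro Y hYK σ
    obtain ⟨h1, _, h3⟩ := (hK Y).1 hYK
    have h4 := mem_Ys.1 h1
    have h5 := mem_Ys.1 hY
    rw [snum_cS h4, snum_cS h5, snum_cD h4, snum_cD h5]
    exact ⟨snum_congr h3 Prod.fst σ, snum_congr h3 Prod.snd σ⟩
  -- number of sets of occupied diagonals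
  have hV : (K.image occ).card ≤ ∏ σ ∈ SI (n + 1) l, Nat.choose (l / 2).toNat (cS l (occ Y0) σ) *
      Nat.choose (l / 2).toNat (cD l (occ Y0) σ) := by
    apply snum_count hl he
    intro U hU
    rw [mem_image] at hU
    obtain ⟨Y, hYK, rfl⟩ := hU
    exact ⟨(snum_mem_SI Y l).1, (snum_mem_SI Y l).2, hcS Y hYK⟩
  -- each fibre
  have hF : ∀ U ∈ K.image occ, ((K.filter (fun Y => occ Y = U)).card : ℝ) ≤ Real.exp R := by
    intro U hU
    rw [mem_image] at hU
    obtain ⟨Y1, hY1, rfl⟩ := hU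
    have hne : (K.filter (fun Y => occ Y = occ Y1)).Nonempty := ⟨Y1, mem_filter.2 ⟨hY1, rfl⟩⟩
    have h1 := class_fix (occ Y1) (hole Y0) (K.filter (fun Y => occ Y = occ Y1)) (by
      intro Y hYf
      rw [mem_filter] at hYf
      obtain ⟨h2, h3, _⟩ := (hK Y).1 hYf.1
      exact ⟨mem_Ys.1 h2, hYf.2, h3⟩) hl he (fun D => cY l Y0 D) (by
      intro Y hYf D
      rw [mem_filter] at hYf
      exact ((hK Y).1 hYf.1).2.2 D) hne hκ hκ1 hη
    have h2 : Real.log (K.filter (fun Y => occ Y = occ Y1)).card ≤ R := by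
      refine le_trans h1 (le_of_eq ?_)
      rw [hR]
      congr 1
      apply sum_congr rfl
      intro D _
      rw [(hcS Y1 hY1 D.1).1, (hcS Y1 hY1 D.2).2]
    have h3 : (0 : ℝ) < (K.filter (fun Y => occ Y = occ Y1)).card := by
      exact_mod_cast card_pos.2 hne
    calc ((K.filter (fun Y => occ Y = occ Y1)).card : ℝ)
        = Real.exp (Real.log (K.filter (fun Y => occ Y = occ Y1)).card) := (Real.exp_log h3).symm
      _ ≤ Real.exp R := Real.exp_le_exp.2 h2
  have hcard : (K.card : ℝ) ≤ (K.image occ).card * Real.exp R := by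
    have h1 : K.card = ∑ U ∈ K.image occ, (K.filter (fun Y => occ Y = U)).card :=
      card_eq_sum_card_fiberwise (fun Y hY' => mem_coe.2 (mem_image_of_mem _ hY'))
    rw [h1]
    push_cast
    refine le_trans (sum_le_sum hF) ?_
    rw [sum_const, nsmul_eq_mul]
  have hKpos : (0 : ℝ) < K.card := by exact_mod_cast card_pos.2 ⟨Y0, hK0⟩
  have hIpos : (0 : ℝ) < (K.image occ).card := by
    exact_mod_cast card_pos.2 ⟨occ Y0, mem_image_of_mem _ hK0⟩
  have hch : ∀ σ ∈ SI (n + 1) l, (Nat.choose (l / 2).toNat (cS l (occ Y0) σ) : ℝ) ≠ 0 ∧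
      (Nat.choose (l / 2).toNat (cD l (occ Y0) σ) : ℝ) ≠ 0 := by
    intro σ hσ
    have h1 : cS l (occ Y0) σ ≤ (l / 2).toNat := by
      rw [← snum_card_ss hl he (snum_SI_par hσ)]
      exact card_le_card fun s hs => snum_mem_ss hl (mem_filter.1 hs).2
    have h2 : cD l (occ Y0) σ ≤ (l / 2).toNat := by
      rw [← snum_card_ss hl he (snum_SI_par hσ)]
      exact card_le_card fun s hs => snum_mem_ss hl (mem_filter.1 hs).2
    exact ⟨by exact_mod_cast (Nat.choose_pos h1).ne', by exact_mod_cast (Nat.choose_pos h2).ne'⟩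
  have hlogI : Real.log (K.image occ).card ≤
      ∑ σ ∈ SI (n + 1) l, (Real.log (Nat.choose (l / 2).toNat (cS l (occ Y0) σ)) +
        Real.log (Nat.choose (l / 2).toNat (cD l (occ Y0) σ))) := by
    have h1 : ((K.image occ).card : ℝ) ≤ ∏ σ ∈ SI (n + 1) l,
        ((Nat.choose (l / 2).toNat (cS l (occ Y0) σ) : ℝ) *
        (Nat.choose (l / 2).toNat (cD l (occ Y0) σ) : ℝ)) := by exact_mod_cast hV
    refine le_trans (Real.log_le_log hIpos h1) (le_of_eq ?_)
    rw [Real.log_prod (fun σ hσ => mul_ne_zero (hch σ hσ).1 (hch σ hσ).2)]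
    apply sum_congr rfl
    intro σ hσ
    rw [Real.log_mul (hch σ hσ).1 (hch σ hσ).2]
  calc Real.log K.card ≤ Real.log ((K.image occ).card * Real.exp R) := Real.log_le_log hKpos hcard
    _ = Real.log (K.image occ).card + R := by
        rw [Real.log_mul hIpos.ne' (Real.exp_pos R).ne', Real.log_exp]
    _ ≤ _ := by linarith

end Pool.Agent.NQR
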