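import Pool.Agent.NQR.Defs

/-!
# NQR-SStr: one strip (pure real analysis)

PLAN. `choose_le`: `C(m,w) (w/m)^w ((m-w)/m)^(m-w) ≤ 1` (one term of the binomial theorem for `(w/m + (m-w)/m)^m = 1`), so
`log C(m,w) ≤ w log (m/w) + (m-w) log (m/(m-w))` (`0 log .. = 0`). `w log (max w (κm)) ≤ w log w + κ m` (if `w < κ m`:
`w log (κm/w) ≤ κ m / e`, `x log(c/x) ≤ c/e ≤ c`; `w = 0`: trivial). With `t = (m-w)/m`, `u = 1 - p > 0`:
`- t log t ≤ - t log u - t + u` (`log (u/t) ≤ u/t - 1`), times `m`: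
`(m-w) log (m/(m-w)) ≤ - (m-w) log (1-p) - (m-w) + m (1-p)`. Sum up.
-/

set_option autoImplicit false

open Finset

namespace Pool.Agent.NQR

open Pool.Agent.NQ (board dsum F Ent Dg phi ln Q Qset st cellD bern)

private theorem choose_log {m w : ℕ} (hw : w ≤ m) :
    Real.log (Nat.choose m w) + w * Real.log w + (m - w : ℕ) * Real.log ((m - w : ℕ) : ℝ) ≤
      m * Real.log m := by
  have h1 : w ^ w * (m - w) ^ (m - w) * Nat.choose m w ≤ m ^ m := by
    have h2 := add_pow w (m - w) m
    rw [Nat.add_sub_cancel' hw] at h2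
    rw [h2]
    exact Finset.single_le_sum (f := fun k => w ^ k * (m - w) ^ (m - k) * Nat.choose m k)
      (fun k _ => Nat.zero_le _) (Finset.mem_range.2 (by omega))
  have hc : (0 : ℝ) < Nat.choose m w := by exact_mod_cast Nat.choose_pos hw
  have hpow : ∀ n : ℕ, (0 : ℝ) < (n : ℝ) ^ n := by
    intro n
    rcases Nat.eq_zero_or_pos n with h | h
    · subst h
      simp
    · positivity
  have h3 : ((w : ℝ) ^ w * ((m - w : ℕ) : ℝ) ^ (m - w) * Nat.choose m w) ≤ (m : ℝ) ^ m := by
    exact_mod_cast h1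
  have h4 := Real.log_le_log (mul_pos (mul_pos (hpow w) (hpow (m - w))) hc) h3
  rw [Real.log_mul (mul_pos (hpow w) (hpow (m - w))).ne' hc.ne',
    Real.log_mul (hpow w).ne' (hpow (m - w)).ne', Real.log_pow, Real.log_pow, Real.log_pow] at h4
  linarith

private theorem max_log {m w : ℕ} (hm : 0 < m) {κ : ℝ} (hκ : 0 < κ) :
    (w : ℝ) * Real.log (max (w : ℝ) (κ * m)) ≤ w * Real.log w + κ * m := by
  have hm0 : (0 : ℝ) < m := by exact_mod_cast hm
  have hkm : 0 < κ * m := mul_pos hκ hm0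
  rcases Nat.eq_zero_or_pos w with h | h
  · subst h
    simp only [Nat.cast_zero, zero_mul, zero_add]
    exact hkm.le
  · have hw0 : (0 : ℝ) < w := by exact_mod_cast h
    rcases le_total (κ * m) w with h1 | h1
    · rw [max_eq_left h1]
      linarith
    · rw [max_eq_right h1]
      have h2 : Real.log (κ * m / w) ≤ κ * m / w - 1 := Real.log_le_sub_one_of_pos
        (div_pos hkm hw0)
      rw [Real.log_div hkm.ne' hw0.ne'] at h2
      have h3 := mul_le_mul_of_nonneg_left h2 hw0.le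
      have h4 : (w : ℝ) * (κ * m / w - 1) = κ * m - w := by
        field_simp
      rw [h4] at h3
      linarith

private theorem rest_log {m n : ℕ} (hm : 0 < m) {p : ℝ} (hp1 : p < 1) :
    (n : ℝ) * Real.log m - n * Real.log n ≤ - (n * Real.log (1 - p)) - n + m * (1 - p) := by
  have hm0 : (0 : ℝ) < m := by exact_mod_cast hm
  have hu : 0 < 1 - p := by linarith
  rcases Nat.eq_zero_or_pos n with h | h
  · subst h
    simp only [Nat.cast_zero, zero_mul, neg_zero, sub_zero, zero_add]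
    exact (mul_pos hm0 hu).le
  · have hn0 : (0 : ℝ) < n := by exact_mod_cast h
    have hmu : 0 < m * (1 - p) := mul_pos hm0 hu
    have h2 : Real.log (m * (1 - p) / n) ≤ m * (1 - p) / n - 1 := Real.log_le_sub_one_of_pos
      (div_pos hmu hn0)
    rw [Real.log_div hmu.ne' hn0.ne', Real.log_mul hm0.ne' hu.ne'] at h2
    have h3 := mul_le_mul_of_nonneg_left h2 hn0.le
    have h4 : (n : ℝ) * (m * (1 - p) / n - 1) = m * (1 - p) - n := by
      field_simp
    rw [h4] at h3
    linarith

theorem strip_le {m w : ℕ} (hw : w ≤ m) (hm : 0 < m) {κ p : ℝ} (hκ : 0 < κ) (hκ1 : κ ≤ 1) (hp : 0 ≤ p)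
    (hp1 : p < 1) :
    (w : ℝ) * Real.log (max (w : ℝ) (κ * m)) + Real.log (Nat.choose m w) ≤
      κ * m + w * Real.log m - m * Real.log (1 - p) + w * Real.log (1 - p) + w - m * p := by
  have h1 := choose_log hw
  have h2 := max_log (w := w) hm hκ
  have h3 := rest_log (n := m - w) hm hp1
  have h4 : ((m - w : ℕ) : ℝ) = m - w := Nat.cast_sub hw
  rw [h4] at h1 h3
  have h5 : ((m : ℝ) - w) * Real.log (1 - p) = m * Real.log (1 - p) - w * Real.log (1 - p) := by
    ring
  have h6 : ((m : ℝ) - w) * Real.log m = m * Real.log m - w * Real.log m := by ring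
  have h7 : (m : ℝ) * (1 - p) = m - m * p := by ring
  rw [h5, h6, h7] at h3
  linarith

end Pool.Agent.NQR
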