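import Pool.Agent.NQR.Defs
import Pool.Agent.NQR.SNum
import Pool.Agent.NQR.SStr
import Pool.Agent.NQR.GStr
import Pool.Agent.NQR.GCelA
import Pool.Agent.NQR.GCelB
import Pool.Agent.NQR.PKl
import Pool.Agent.NQR.YCnt

/-!
# NQR-SL1: a class of configurations compared with the reference

The class bound of `class_num` is combined with the strip estimate `strip_le`, the cell estimates and the
identity `Rf.val`.
-/

set_option autoImplicit false

open Finset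

namespace Pool.Agent.NQR

open Pool.Agent.NQ (board dsum F Ent Dg phi ln Q Qset st cellD bern)

private theorem sl1_memb {n : ℕ} (Y : Fin n → Fin (n + 1)) (i : Fin n) :
    (ro i, cl (Y i)) ∈ board (n + 1) := by
  rw [Pool.Agent.NQ.mem_board]
  unfold ro cl
  have h1 := i.isLt
  have h2 := (Y i).isLt
  refine ⟨⟨?_, ?_⟩, ⟨?_, ?_⟩⟩
  · show (0 : ℤ) ≤ ((i : ℕ) : ℤ) + 1
    omega
  · show ((i : ℕ) : ℤ) + 1 < ((n + 1 : ℕ) : ℤ)
    omega
  · show (0 : ℤ) ≤ ((Y i : ℕ) : ℤ)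
    omega
  · show ((Y i : ℕ) : ℤ) < ((n + 1 : ℕ) : ℤ)
    omega

private theorem sl1_sumc {n : ℕ} {l : ℤ} (Y : Fin n → Fin (n + 1))
    (f : (ℤ × ℤ) × (ℤ × ℤ) → ℝ) :
    ∑ D ∈ DI (n + 1) l, (cY l Y D : ℝ) * f D = ∑ i, f (cellD l (ro i, cl (Y i))) := by
  have h := Finset.sum_fiberwise_of_maps_to (s := (univ : Finset (Fin n))) (t := DI (n + 1) l)
    (g := fun i => cellD l (ro i, cl (Y i)))
    (fun i _ => Finset.mem_image_of_mem _ (sl1_memb Y i))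
    (fun i => f (cellD l (ro i, cl (Y i))))
  rw [← h]
  apply Finset.sum_congr rfl
  intro D _
  have h2 : ∑ i ∈ univ.filter (fun i : Fin n => cellD l (ro i, cl (Y i)) = D),
      f (cellD l (ro i, cl (Y i))) =
      ∑ i ∈ univ.filter (fun i : Fin n => cellD l (ro i, cl (Y i)) = D), f D := by
    apply Finset.sum_congr rfl
    intro i hi
    rw [(mem_filter.1 hi).2]
  rw [h2, Finset.sum_const, nsmul_eq_mul]
  rfl

private theorem sl1_cS {n : ℕ} {l : ℤ} {Y : Fin n → Fin (n + 1)} (h : YF n Y) (σ : ℤ × ℤ) :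
    cS l (occ Y) σ = (univ.filter (fun i => st l (ro i + cl (Y i)) = σ)).card := by
  unfold cS
  have h1 : (occ Y).toRight.filter (fun s => st l s = σ) =
      (univ.filter (fun i => st l (ro i + cl (Y i)) = σ)).image (fun i => ro i + cl (Y i)) := by
    ext s
    rw [mem_filter, mem_toRight, mem_image]
    unfold occ
    rw [mem_union, mem_image, mem_image]
    constructor
    · rintro ⟨h2 | h2, h3⟩
      · obtain ⟨i, _, hi⟩ := h2
        exact absurd hi (by simp)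
      · obtain ⟨i, _, hi⟩ := h2
        have h4 : ro i + cl (Y i) = s := Sum.inr_injective hi
        exact ⟨i, mem_filter.2 ⟨mem_univ _, by rw [h4]; exact h3⟩, h4⟩
    · rintro ⟨i, hi, hs⟩
      exact ⟨Or.inr ⟨i, mem_univ _, by rw [hs]⟩, by rw [← hs]; exact (mem_filter.1 hi).2⟩
  rw [h1, card_image_of_injective _ h.2.1]

private theorem sl1_cD {n : ℕ} {l : ℤ} {Y : Fin n → Fin (n + 1)} (h : YF n Y) (σ : ℤ × ℤ) :
    cD l (occ Y) σ = (univ.filter (fun i => st l (ro i - cl (Y i)) = σ)).card := by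
  unfold cD
  have h1 : (occ Y).toLeft.filter (fun s => st l s = σ) =
      (univ.filter (fun i => st l (ro i - cl (Y i)) = σ)).image (fun i => ro i - cl (Y i)) := by
    ext s
    rw [mem_filter, mem_toLeft, mem_image]
    unfold occ
    rw [mem_union, mem_image, mem_image]
    constructor
    · rintro ⟨h2 | h2, h3⟩
      · obtain ⟨i, _, hi⟩ := h2
        have h4 : ro i - cl (Y i) = s := Sum.inl_injective hi
        exact ⟨i, mem_filter.2 ⟨mem_univ _, by rw [h4]; exact h3⟩, h4⟩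
      · obtain ⟨i, _, hi⟩ := h2
        exact absurd hi (by simp)
    · rintro ⟨i, hi, hs⟩
      exact ⟨Or.inl ⟨i, mem_univ _, by rw [hs]⟩, by rw [← hs]; exact (mem_filter.1 hi).2⟩
  rw [h1, card_image_of_injective _ h.2.2]

private theorem sl1_memSI {n : ℕ} {l s : ℤ} (h1 : -((n + 1 : ℕ) : ℤ) ≤ s)
    (h2 : s ≤ 2 * ((n + 1 : ℕ) : ℤ)) : st l s ∈ SI (n + 1) l :=
  Finset.mem_image_of_mem _ (Finset.mem_Icc.2 ⟨h1, h2⟩)

private theorem sl1_sumS {n : ℕ} {l : ℤ} {Y : Fin n → Fin (n + 1)} (h : YF n Y) (g : ℤ × ℤ → ℝ) :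
    ∑ σ ∈ SI (n + 1) l, (cS l (occ Y) σ : ℝ) * g σ = ∑ i, g (st l (ro i + cl (Y i))) := by
  have h0 := Finset.sum_fiberwise_of_maps_to (s := (univ : Finset (Fin n))) (t := SI (n + 1) l)
    (g := fun i => st l (ro i + cl (Y i)))
    (fun i _ => sl1_memSI (by
      have := i.isLt
      unfold ro cl
      push_cast
      omega) (by
      have := i.isLt
      have := (Y i).isLt
      unfold ro cl
      push_cast
      omega))
    (fun i => g (st l (ro i + cl (Y i))))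
  rw [← h0]
  apply Finset.sum_congr rfl
  intro σ _
  have h2 : ∑ i ∈ univ.filter (fun i : Fin n => st l (ro i + cl (Y i)) = σ),
      g (st l (ro i + cl (Y i))) =
      ∑ i ∈ univ.filter (fun i : Fin n => st l (ro i + cl (Y i)) = σ), g σ := by
    apply Finset.sum_congr rfl
    intro i hi
    rw [(mem_filter.1 hi).2]
  rw [h2, Finset.sum_const, nsmul_eq_mul, sl1_cS h]

private theorem sl1_sumD {n : ℕ} {l : ℤ} {Y : Fin n → Fin (n + 1)} (h : YF n Y) (g : ℤ × ℤ → ℝ) :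
    ∑ σ ∈ SI (n + 1) l, (cD l (occ Y) σ : ℝ) * g σ = ∑ i, g (st l (ro i - cl (Y i))) := by
  have h0 := Finset.sum_fiberwise_of_maps_to (s := (univ : Finset (Fin n))) (t := SI (n + 1) l)
    (g := fun i => st l (ro i - cl (Y i)))
    (fun i _ => sl1_memSI (by
      have := i.isLt
      have := (Y i).isLt
      unfold ro cl
      push_cast
      omega) (by
      have := i.isLt
      have := (Y i).isLt
      unfold ro cl
      push_cast
      omega))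
    (fun i => g (st l (ro i - cl (Y i))))
  rw [← h0]
  apply Finset.sum_congr rfl
  intro σ _
  have h2 : ∑ i ∈ univ.filter (fun i : Fin n => st l (ro i - cl (Y i)) = σ),
      g (st l (ro i - cl (Y i))) =
      ∑ i ∈ univ.filter (fun i : Fin n => st l (ro i - cl (Y i)) = σ), g σ := by
    apply Finset.sum_congr rfl
    intro i hi
    rw [(mem_filter.1 hi).2]
  rw [h2, Finset.sum_const, nsmul_eq_mul, sl1_cD h]

private theorem sl1_allc (n : ℕ) (f : ℤ → ℝ) :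
    ∑ b : Fin (n + 1), f (cl b) = ∑ x ∈ Finset.Ico (0 : ℤ) ((n + 1 : ℕ) : ℤ), f x := by
  have h1 : Finset.Ico (0 : ℤ) ((n + 1 : ℕ) : ℤ) = (univ : Finset (Fin (n + 1))).image cl := by
    ext x
    rw [mem_Ico, mem_image]
    constructor
    · rintro ⟨h2, h3⟩
      refine ⟨⟨x.toNat, by omega⟩, mem_univ _, ?_⟩
      unfold cl
      show ((x.toNat : ℕ) : ℤ) = x
      omega
    · rintro ⟨b, _, hb⟩
      unfold cl at hb
      have := b.isLt
      omega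
  rw [h1, sum_image]
  intro a _ b _ hab
  unfold cl at hab
  apply Fin.ext
  exact_mod_cast hab

private theorem sl1_row (n : ℕ) (f : ℤ → ℝ) :
    ∑ i : Fin n, f (ro i) = ∑ x ∈ Finset.Ico (0 : ℤ) ((n + 1 : ℕ) : ℤ), f x - f 0 := by
  rw [← sl1_allc, Fin.sum_univ_succ]
  have h0 : cl (0 : Fin (n + 1)) = 0 := by
    unfold cl
    simp
  have h1 : ∀ i : Fin n, cl (Fin.succ i) = ro i := by
    intro i
    unfold cl ro
    simp
  rw [h0]
  simp only [h1]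
  ring

private theorem sl1_col {n : ℕ} {Y : Fin n → Fin (n + 1)} (h : YF n Y) (f : ℤ → ℝ) :
    ∑ i : Fin n, f (cl (Y i)) =
      ∑ x ∈ Finset.Ico (0 : ℤ) ((n + 1 : ℕ) : ℤ), f x - f (cl (hole Y)) := by
  classical
  rw [← sl1_allc]
  have h1 : (univ : Finset (Fin (n + 1))).erase (hole Y) = univ.image Y := by
    ext b
    rw [mem_erase, mem_image]
    constructor
    · rintro ⟨hb, _⟩
      obtain ⟨i, hi⟩ := hole_unique h hb
      exact ⟨i, mem_univ _, hi⟩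
    · rintro ⟨i, _, hi⟩
      refine ⟨?_, mem_univ _⟩
      rw [← hi]
      exact hole_ne h i
  have h2 := Finset.add_sum_erase (univ : Finset (Fin (n + 1))) (fun b => f (cl b)) (mem_univ (hole Y))
  rw [h1, sum_image (fun a _ b _ hab => h.1 hab)] at h2
  have h3 : f (cl (hole Y)) + ∑ i : Fin n, f (cl (Y i)) = ∑ b : Fin (n + 1), f (cl b) := h2
  linarith

private theorem sl1_strip {κ : ℝ} (hκ : 0 < κ) (hκ1 : κ ≤ 1) {l : ℤ} (hl : 0 < l) (he : Even l)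
    (S : Finset (ℤ × ℤ)) (c : ℤ × ℤ → ℕ) (hc : ∀ σ, (c σ : ℝ) ≤ (l : ℝ) / 2) (M : ℤ × ℤ → ℝ) {L : ℝ}
    (hL : 1 ≤ L) (hM : ∀ σ, 0 ≤ M σ ∧ M σ / ((l : ℝ) / 2) ≤ 1 - 1 / L) :
    ∑ σ ∈ S, ((c σ : ℝ) * Real.log (max (c σ : ℝ) (κ * l / 2)) +
      Real.log (Nat.choose (l / 2).toNat (c σ))) ≤
    (S.card : ℝ) * (κ * ((l : ℝ) / 2)) + (∑ σ ∈ S, (c σ : ℝ) * 1) * Real.log ((l : ℝ) / 2) +
      ∑ σ ∈ S, (-((l : ℝ) / 2 * Real.log (1 - M σ / ((l : ℝ) / 2)))) +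
      ∑ σ ∈ S, (c σ : ℝ) * Real.log (1 - M σ / ((l : ℝ) / 2)) + ∑ σ ∈ S, (c σ : ℝ) * 1 -
      ∑ σ ∈ S, M σ := by
  obtain ⟨h, hh⟩ := he
  have hmm : (((l / 2).toNat : ℕ) : ℝ) = (l : ℝ) / 2 := by
    have h1 : l / 2 = h := by omega
    rw [h1]
    have h2 : ((h.toNat : ℕ) : ℤ) = h := Int.toNat_of_nonneg (by omega)
    have h3 : ((h.toNat : ℕ) : ℝ) = (h : ℝ) := by exact_mod_cast h2
    rw [h3, hh]
    push_cast
    ring
  have hm0 : 0 < (l / 2).toNat := by omega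
  have hmp : (0 : ℝ) < (l : ℝ) / 2 := by
    have : (0 : ℝ) < (l : ℝ) := by exact_mod_cast hl
    linarith
  have hL1 : 0 < 1 / L := by positivity
  have key : ∀ σ ∈ S, (c σ : ℝ) * Real.log (max (c σ : ℝ) (κ * l / 2)) +
      Real.log (Nat.choose (l / 2).toNat (c σ)) ≤
      κ * ((l : ℝ) / 2) + ((c σ : ℝ) * 1) * Real.log ((l : ℝ) / 2) +
        (-((l : ℝ) / 2 * Real.log (1 - M σ / ((l : ℝ) / 2)))) +
        (c σ : ℝ) * Real.log (1 - M σ / ((l : ℝ) / 2)) + (c σ : ℝ) * 1 - M σ := by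
    intro σ _
    have hw : c σ ≤ (l / 2).toNat := by
      have h1 := hc σ
      rw [← hmm] at h1
      exact_mod_cast h1
    have h2 := strip_le hw hm0 hκ hκ1 (p := M σ / ((l : ℝ) / 2)) (div_nonneg (hM σ).1 hmp.le)
      (by have := (hM σ).2; linarith)
    rw [hmm] at h2
    have h3 : κ * (l : ℝ) / 2 = κ * ((l : ℝ) / 2) := by ring
    rw [h3]
    have h4 : (l : ℝ) / 2 * (M σ / ((l : ℝ) / 2)) = M σ := by
      field_simp
    rw [h4] at h2
    linarith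
  refine (Finset.sum_le_sum key).trans (le_of_eq ?_)
  rw [Finset.sum_sub_distrib, Finset.sum_add_distrib, Finset.sum_add_distrib,
    Finset.sum_add_distrib, Finset.sum_add_distrib, Finset.sum_const, nsmul_eq_mul,
    ← Finset.sum_mul]

private theorem sl1_fin {C1 C2 L X1 l K X2 : ℝ} (h1 : 0 ≤ C1) (h2 : 0 ≤ C2) (hL : 0 ≤ L) (h3 : 0 ≤ X1)
    (h4 : 0 ≤ l) (h5 : 0 ≤ K) (h6 : 0 ≤ X2) :
    C1 * X1 + C2 * (X1 + l) + 6 * X2 + 10 * K + 2 + 2 * L ≤
      (C1 + C2 + 20 + 2 * L) * (X1 + l + K + X2 + 1) := by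
  have g1 : 0 ≤ C1 * (l + K + X2 + 1) := by positivity
  have g2 : 0 ≤ C2 * (K + X2 + 1) := by positivity
  have g3 : 0 ≤ L * (X1 + l + K + X2) := by positivity
  linarith

theorem class_ref (L : ℝ) (hL : 1 ≤ L) : ∃ C : ℝ, 1 ≤ C ∧ ∀ (n : ℕ) (W : ℤ × ℤ → ℝ) (A B : ℤ → ℝ),
    1 ≤ n → Rf L (n + 1) W A B → ∀ l : ℤ, 0 < l → Even l → l ≤ n + 1 → ∀ κ : ℝ, 0 < κ → κ ≤ 1 →
    2 / (κ ^ 2 * l) ≤ 1 → ∀ Y0 ∈ Ys n, ∀ K : Finset (Fin n → Fin (n + 1)),
    (∀ Y, Y ∈ K ↔ Y ∈ Ys n ∧ hole Y = hole Y0 ∧ ∀ D, cY l Y D = cY l Y0 D) →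
    Real.log K.card ≤ F (n + 1) W - (n + 1) + C * ((n + 1) * Real.sqrt (l / (n + 1)) + l +
      κ * (n + 1) + (n + 1) * (2 / (κ ^ 2 * l)) ^ (1 / 3 : ℝ) + 1) -
      ∑ D ∈ DI (n + 1) l, (Real.sqrt (cY l Y0 D) - Real.sqrt (Wh (n + 1) W A B l D)) ^ 2 := by
  obtain ⟨C1, hC1, hcf⟩ := cell_facts L hL
  obtain ⟨C2, hC2, hcl⟩ := cells_l1 L hL
  refine ⟨C1 + C2 + 20 + 2 * L, by linarith, ?_⟩
  intro n W A B hn hR l hl he hln κ hκ hκ1 hη Y0 hY0 K hK
  have hYF : YF n Y0 := mem_Ys.1 hY0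
  have hL0 : 0 < L := by linarith
  have hlN : l ≤ ((n + 1 : ℕ) : ℤ) := by
    push_cast
    exact hln
  have hNR : ((n + 1 : ℕ) : ℝ) = (n : ℝ) + 1 := by push_cast; ring
  have hn0 : (0 : ℝ) ≤ (n : ℝ) := Nat.cast_nonneg n
  have hlR : (0 : ℝ) < (l : ℝ) := by exact_mod_cast hl
  have hm0 : (0 : ℝ) < (l : ℝ) / 2 := by linarith
  -- the class bound
  have E1 := class_num hl he hln hκ hκ1 hη hY0 K hK
  -- split the logarithm
  have E2 : ∀ D ∈ DI (n + 1) l, (cY l Y0 D : ℝ) * Real.log (max (cS l (occ Y0) D.1 : ℝ) (κ * l / 2) *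
        max (cD l (occ Y0) D.2 : ℝ) (κ * l / 2) / cY l Y0 D) =
      (cY l Y0 D : ℝ) * (Real.log (max (cS l (occ Y0) D.1 : ℝ) (κ * l / 2)) +
        Real.log (max (cD l (occ Y0) D.2 : ℝ) (κ * l / 2))) -
      (cY l Y0 D : ℝ) * Real.log (cY l Y0 D) := by
    intro D _
    have hk : 0 < κ * l / 2 := by positivity
    have h1 : 0 < max (cS l (occ Y0) D.1 : ℝ) (κ * l / 2) := lt_of_lt_of_le hk (le_max_right _ _)
    have h2 : 0 < max (cD l (occ Y0) D.2 : ℝ) (κ * l / 2) := lt_of_lt_of_le hk (le_max_right _ _)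
    rcases Nat.eq_zero_or_pos (cY l Y0 D) with h3 | h3
    · rw [h3]
      simp
    · have h4 : (0 : ℝ) < (cY l Y0 D : ℝ) := by exact_mod_cast h3
      rw [Real.log_div (mul_pos h1 h2).ne' h4.ne', Real.log_mul h1.ne' h2.ne']
      ring
  rw [Finset.sum_congr rfl E2, Finset.sum_sub_distrib, sl1_sumc Y0 (fun D =>
    Real.log (max (cS l (occ Y0) D.1 : ℝ) (κ * l / 2)) +
        Real.log (max (cD l (occ Y0) D.2 : ℝ) (κ * l / 2)))] at E1
  have E3 : ∑ i : Fin n, (Real.log (max (cS l (occ Y0) (cellD l (ro i, cl (Y0 i))).1 : ℝ) (κ * l / 2)) +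
        Real.log (max (cD l (occ Y0) (cellD l (ro i, cl (Y0 i))).2 : ℝ) (κ * l / 2))) =
      ∑ σ ∈ SI (n + 1) l, (cS l (occ Y0) σ : ℝ) *
        Real.log (max (cS l (occ Y0) σ : ℝ) (κ * l / 2)) +
      ∑ σ ∈ SI (n + 1) l, (cD l (occ Y0) σ : ℝ) *
        Real.log (max (cD l (occ Y0) σ : ℝ) (κ * l / 2)) := by
    rw [Finset.sum_add_distrib,
      sl1_sumS hYF (fun σ => Real.log (max (cS l (occ Y0) σ : ℝ) (κ * l / 2))),
      sl1_sumD hYF (fun σ => Real.log (max (cD l (occ Y0) σ : ℝ) (κ * l / 2)))]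
    rfl
  -- strips
  have E4 := sl1_strip hκ hκ1 hl he (SI (n + 1) l) (cS l (occ Y0)) (cS_le hl he (occ Y0))
    (mS (n + 1) W l) hL (mS_lt hL hR hl he)
  have E5 := sl1_strip hκ hκ1 hl he (SI (n + 1) l) (cD l (occ Y0)) (cD_le hl he (occ Y0))
    (mD (n + 1) W l) hL (mD_lt hL hR hl he)
  rw [sl1_sumS hYF (fun _ => 1), sl1_sumS hYF (fun σ => Real.log (1 - mS (n + 1) W l σ / ((l : ℝ) / 2))),
    mS_sum hR.adm l, Finset.sum_add_distrib] at E4
  rw [sl1_sumD hYF (fun _ => 1), sl1_sumD hYF (fun σ => Real.log (1 - mD (n + 1) W l σ / ((l : ℝ) / 2))),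
    mD_sum hR.adm l, Finset.sum_add_distrib] at E5
  have E6 := mS_log hL hR hl he
  have E7 := mD_log hL hR hl he
  have hone : ∑ i : Fin n, (1 : ℝ) = (n : ℝ) := by simp
  rw [hone] at E4 E5
  -- the number of strips
  have E8 : ((SI (n + 1) l).card : ℝ) * (κ * ((l : ℝ) / 2)) ≤ 5 * κ * ((n + 1 : ℕ) : ℝ) := by
    have h1 := si_card hl hlN
    have h2 : ((SI (n + 1) l).card : ℝ) * (κ * ((l : ℝ) / 2)) ≤
        10 * ((n + 1 : ℕ) : ℝ) / l * (κ * ((l : ℝ) / 2)) :=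
      mul_le_mul_of_nonneg_right h1 (by positivity)
    refine h2.trans (le_of_eq ?_)
    field_simp
    ring
  -- the weights of the cells
  have hpos : ∀ D ∈ DI (n + 1) l, 0 < Wh (n + 1) W A B l D := by
    intro D hD
    obtain ⟨e, he1, rfl⟩ := Finset.mem_image.1 hD
    exact (hcf (n + 1) W A B (by omega) hR l hl he hlN e he1).2.2.1
  have E9 : ∑ i : Fin n, (Real.log ((l : ℝ) / 2) * 2 +
      Real.log (1 - mS (n + 1) W l (st l (ro i + cl (Y0 i))) / ((l : ℝ) / 2)) +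
      Real.log (1 - mD (n + 1) W l (st l (ro i - cl (Y0 i))) / ((l : ℝ) / 2))) =
      ∑ D ∈ DI (n + 1) l, (cY l Y0 D : ℝ) * (Real.log (Wh (n + 1) W A B l D)) -
      ∑ i : Fin n, Real.log (A (rp (n + 1) l (cellD l (ro i, cl (Y0 i)))).1 *
        B (rp (n + 1) l (cellD l (ro i, cl (Y0 i)))).2) := by
    rw [sl1_sumc Y0 (fun D => Real.log (Wh (n + 1) W A B l D)), ← Finset.sum_sub_distrib]
    apply Finset.sum_congr rfl
    intro i _
    have hp := (hcf (n + 1) W A B (by omega) hR l hl he hlN _ (sl1_memb Y0 i)).2.2.1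
    have hS := (mS_lt hL hR hl he (cellD l (ro i, cl (Y0 i))).1).2
    have hD := (mD_lt hL hR hl he (cellD l (ro i, cl (Y0 i))).2).2
    have hL1 : 0 < 1 / L := by positivity
    have hS' : 0 < 1 - mS (n + 1) W l (cellD l (ro i, cl (Y0 i))).1 / ((l : ℝ) / 2) := by linarith
    have hD' : 0 < 1 - mD (n + 1) W l (cellD l (ro i, cl (Y0 i))).2 / ((l : ℝ) / 2) := by linarith
    have hm2 : (0 : ℝ) < ((l : ℝ) / 2) ^ 2 := by positivity
    unfold Wh at hp ⊢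
    have hAB : A (rp (n + 1) l (cellD l (ro i, cl (Y0 i)))).1 *
        B (rp (n + 1) l (cellD l (ro i, cl (Y0 i)))).2 ≠ 0 := by
      intro h0
      rw [h0, mul_zero] at hp
      exact lt_irrefl _ hp
    rw [Real.log_mul (mul_pos (mul_pos hm2 hS') hD').ne' hAB,
      Real.log_mul (mul_pos hm2 hS').ne' hD'.ne', Real.log_mul hm2.ne' hS'.ne', Real.log_pow]
    have h5 : (cellD l (ro i, cl (Y0 i))).1 = st l (ro i + cl (Y0 i)) := rfl
    have h6 : (cellD l (ro i, cl (Y0 i))).2 = st l (ro i - cl (Y0 i)) := rfl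
    rw [h5, h6]
    push_cast
    ring
  rw [Finset.sum_add_distrib, Finset.sum_add_distrib, Finset.sum_const, Finset.card_univ,
    Fintype.card_fin, nsmul_eq_mul] at E9
  -- relative entropy
  have E10 : ∑ D ∈ DI (n + 1) l, (cY l Y0 D : ℝ) * (Real.log (Wh (n + 1) W A B l D)) -
      ∑ D ∈ DI (n + 1) l, (cY l Y0 D : ℝ) * Real.log (cY l Y0 D) ≤
      ∑ D ∈ DI (n + 1) l, Wh (n + 1) W A B l D - (n : ℝ) -
      ∑ D ∈ DI (n + 1) l, (Real.sqrt (cY l Y0 D) - Real.sqrt (Wh (n + 1) W A B l D)) ^ 2 := by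
    have h1 : (n : ℝ) = ∑ D ∈ DI (n + 1) l, (cY l Y0 D : ℝ) := by
      have h2 := sl1_sumc (l := l) Y0 (fun _ => 1)
      rw [hone] at h2
      rw [← h2]
      apply Finset.sum_congr rfl
      intro D _
      ring
    rw [h1, ← Finset.sum_sub_distrib, ← Finset.sum_sub_distrib, ← Finset.sum_sub_distrib]
    apply Finset.sum_le_sum
    intro D hD
    have h3 := hell (a := (cY l Y0 D : ℝ)) (Nat.cast_nonneg _) (hpos D hD)
    have h4 : (cY l Y0 D : ℝ) * Real.log ((cY l Y0 D : ℝ) / Wh (n + 1) W A B l D) =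
        (cY l Y0 D : ℝ) * Real.log (cY l Y0 D) -
        (cY l Y0 D : ℝ) * (Real.log (Wh (n + 1) W A B l D)) := by
      rcases Nat.eq_zero_or_pos (cY l Y0 D) with h5 | h5
      · rw [h5]
        simp
      · have h6 : (0 : ℝ) < (cY l Y0 D : ℝ) := by exact_mod_cast h5
        rw [Real.log_div h6.ne' (hpos D hD).ne']
        ring
    linarith
  have E11 := (hcl (n + 1) W A B (by omega) hR l hl he hlN).2.1
  -- the factors A, B
  have hAp : ∀ x : ℤ, 0 ≤ x → x < ((n + 1 : ℕ) : ℤ) → 0 < A x := by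
    intro x h1 h2
    refine lt_of_lt_of_le ?_ (hR.A1 x h1 h2)
    have : (0 : ℝ) < ((n + 1 : ℕ) : ℝ) := by rw [hNR]; linarith
    positivity
  have hBp : ∀ x : ℤ, 0 ≤ x → x < ((n + 1 : ℕ) : ℤ) → 0 < B x := by
    intro x h1 h2
    refine lt_of_lt_of_le ?_ (hR.B1 x h1 h2)
    have : (0 : ℝ) < ((n + 1 : ℕ) : ℝ) := by rw [hNR]; linarith
    positivity
  have hsq : 1 ≤ Real.sqrt ((n + 1 : ℕ) : ℝ) := by
    rw [← Real.sqrt_one]
    apply Real.sqrt_le_sqrt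
    rw [hNR]
    linarith
  have hLsq : L / Real.sqrt ((n + 1 : ℕ) : ℝ) ≤ L := div_le_self hL0.le hsq
  have hA0 : Real.log (A 0) ≤ L := by
    have h1 : 0 < A 0 := hAp 0 le_rfl (by push_cast; omega)
    have h2 : A 0 ≤ L := (hR.A2 0 le_rfl (by push_cast; omega)).trans hLsq
    have h3 := Real.log_le_sub_one_of_pos h1
    linarith
  have hBh : Real.log (B (cl (hole Y0))) ≤ L := by
    have h0 : 0 ≤ cl (hole Y0) ∧ cl (hole Y0) < ((n + 1 : ℕ) : ℤ) := by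
      unfold cl
      have := (hole Y0).isLt
      omega
    have h1 : 0 < B (cl (hole Y0)) := hBp _ h0.1 h0.2
    have h2 : B (cl (hole Y0)) ≤ L := (hR.B2 _ h0.1 h0.2).trans hLsq
    have h3 := Real.log_le_sub_one_of_pos h1
    linarith
  have E12 : - ∑ i : Fin n, Real.log (A (rp (n + 1) l (cellD l (ro i, cl (Y0 i)))).1 *
        B (rp (n + 1) l (cellD l (ro i, cl (Y0 i)))).2) ≤
      - ∑ i : Fin n, Real.log (A (ro i)) - ∑ i : Fin n, Real.log (B (cl (Y0 i))) +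
        (n : ℝ) * (C1 * Real.sqrt (l / ((n + 1 : ℕ) : ℝ))) := by
    have h1 : (n : ℝ) * (C1 * Real.sqrt (l / ((n + 1 : ℕ) : ℝ))) =
        ∑ i : Fin n, C1 * Real.sqrt (l / ((n + 1 : ℕ) : ℝ)) := by
      rw [Finset.sum_const, Finset.card_univ, Fintype.card_fin, nsmul_eq_mul]
    rw [h1, ← Finset.sum_neg_distrib, ← Finset.sum_neg_distrib, ← Finset.sum_sub_distrib,
      ← Finset.sum_add_distrib]
    apply Finset.sum_le_sum
    intro i _
    have hb := sl1_memb Y0 i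
    have h2 := (hcf (n + 1) W A B (by omega) hR l hl he hlN _ hb).2.2.2.2
    rw [Pool.Agent.NQ.mem_board] at hb
    have h3 := hAp (ro i) hb.1.1 hb.1.2
    have h4 := hBp (cl (Y0 i)) hb.2.1 hb.2.2
    have h5 := (abs_le.1 h2).1
    have h6 : Real.log (A (ro i, cl (Y0 i)).1 * B (ro i, cl (Y0 i)).2) =
        Real.log (A (ro i)) + Real.log (B (cl (Y0 i))) := Real.log_mul h3.ne' h4.ne'
    rw [h6] at h5
    linarith
  have E13 := sl1_row n (fun x => Real.log (A x))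
  have E14 := sl1_col hYF (fun x => Real.log (B x))
  have E15 := hR.val
  rw [E3, Finset.sum_add_distrib] at E1
  -- collect
  have hρ : 0 ≤ Real.sqrt (l / ((n + 1 : ℕ) : ℝ)) := Real.sqrt_nonneg _
  have hη0 : 0 ≤ (2 / (κ ^ 2 * l)) ^ (1 / 3 : ℝ) := by positivity
  rw [hNR] at E4 E5 E8 E11 E12 E15 hρ
  have F1 : (n : ℝ) * (C1 * Real.sqrt (l / ((n : ℝ) + 1))) ≤
      C1 * (((n : ℝ) + 1) * Real.sqrt (l / ((n : ℝ) + 1))) := by
    have : 0 ≤ C1 * Real.sqrt (l / ((n : ℝ) + 1)) := by positivity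
    linarith
  have F2 : 6 * (n : ℝ) * (2 / (κ ^ 2 * l)) ^ (1 / 3 : ℝ) ≤
      6 * (((n : ℝ) + 1) * (2 / (κ ^ 2 * l)) ^ (1 / 3 : ℝ)) := by
    linarith
  have F3 : 0 ≤ ((n : ℝ) + 1) * Real.sqrt (l / ((n : ℝ) + 1)) := by positivity
  have F4 : 0 ≤ κ * ((n : ℝ) + 1) := by positivity
  have F5 : 0 ≤ ((n : ℝ) + 1) * (2 / (κ ^ 2 * l)) ^ (1 / 3 : ℝ) := by positivity
  generalize ((n : ℝ) + 1) * Real.sqrt (l / ((n : ℝ) + 1)) = X1 at *
  generalize ((n : ℝ) + 1) * (2 / (κ ^ 2 * l)) ^ (1 / 3 : ℝ) = X2 at *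
  have F6 : C1 * X1 + C2 * (X1 + l) + 6 * X2 + 10 * (κ * ((n : ℝ) + 1)) + 2 + 2 * L ≤
      (C1 + C2 + 20 + 2 * L) * (X1 + l + κ * ((n : ℝ) + 1) + X2 + 1) :=
    sl1_fin (by linarith) (by linarith) hL0.le F3 hlR.le F4 F5
  linarith [E1, E4, E5, E6, E7, E8, E9, E10, E11, E12, E13, E14, E15, hA0, hBh, F1, F2, F6]

end Pool.Agent.NQR
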