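import Pool.Agent.NQR.Defs
import Pool.Agent.NQR.SL1
import Pool.Agent.NQR.GCelB

/-!
# NQR-SL1b: nearly all configurations have the reference strip counts

PLAN. `N = n + 1`, `l = ll z N` (`N/z^80 ≤ l ≤ 2N/z^80`, even), `κ = z^(-40)`. The classes of `class_ref`: determined by the hole
and the counts `c_D ≤ N`, `D ∈ DI`; `|DI| ≤ (SI card)² ≤ (10 N/l)² ≤ 100 z^160`, number of classes
`≤ N (N+1)^(100 z^160)`, logarithm `≤ 101 z^160 log (N+1) ≤ N/z^40` (`N ≥ z^20000`, `log (N+1) ≤ 40041 z`). By `class_ref` a class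
with `H = ∑_D (√c - √Wh)² > N/z^38` has logarithm of its size `≤ F - N + C N z^(-40) + .. - N/z^38`, error terms: `√(l/N) ≤ 2 z^(-40)`,
`l ≤ 2N/z^80`, `κ = z^(-40)`, `(2/(κ² l))^(1/3) ≤ z^(-40)` (`l ≥ z^19000`). With the hypothesis `F - N ≤ log |Ys| + N/z^39`
the number of configurations in such classes is `≤ |Ys| exp(N/z^40 + N/z^39 + C' N/z^40 - N/z^38) ≤ |Ys| exp(-N/z^39)`.
If `H ≤ N/z^38` then `∑_D |c_D - Wh D| ≤ √H √(∑ (√c + √Wh)²) ≤ √(N/z^38) √(2(n + 2N)) ≤ 3 N/z^19`, and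
`∑_D |Wh D - Wc D| ≤ C N/z^40` (`cells_l1`). `cD l (occ Y) σ - mD σ = ∑_{D ∈ DI, D.2 = σ} (c_D - Wc D)`, same for `cS`, `D.1`:
`dev ≤ 2 ∑_D |c_D - Wc D| ≤ 7 N/z^19 ≤ N/z^18`.
-/

set_option autoImplicit false

open Finset

namespace Pool.Agent.NQR

open Pool.Agent.NQ (board dsum F Ent Dg phi ln Q Qset st cellD bern)

/-! ### Numbers -/

private theorem pow40 (z a b : ℕ) (h : 40 * b = a) : (z ^ 40) ^ b = z ^ a := by
  rw [← pow_mul, h]

private theorem num_ll {z N : ℕ} (hz : 2 ≤ z) (h : InR z N) :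
    0 < ll z N ∧ Even (ll z N) ∧ ll z N ≤ N ∧ ((ll z N : ℤ) : ℝ) ≤ 2 * N / (z : ℝ) ^ 80 ∧
      (N : ℝ) / (z : ℝ) ^ 80 ≤ (ll z N : ℤ) ∧ 2 * (z : ℝ) ^ 200 ≤ (ll z N : ℤ) := by
  have hz1 : 1 ≤ z := by omega
  have hN : z ^ 280 ≤ N := by
    refine le_trans ?_ h.1
    rw [pow40 z 20000 500 (by norm_num)]
    exact Nat.pow_le_pow_right hz1 (by norm_num)
  have hzp : 0 < z ^ 80 := by positivity
  obtain ⟨q, hq⟩ : ∃ q, q = N / z ^ 80 := ⟨_, rfl⟩
  have hl : ll z N = 2 * (q : ℤ) := by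
    unfold ll
    rw [hq]
  have hq200 : z ^ 200 ≤ q := by
    rw [hq, Nat.le_div_iff_mul_le hzp, ← pow_add]
    exact hN
  have hq1 : 1 ≤ q := le_trans (Nat.one_le_pow _ _ hz1) hq200
  have hmul : q * z ^ 80 ≤ N := by
    rw [hq]
    exact Nat.div_mul_le_self _ _
  have hlt : N < (q + 1) * z ^ 80 := by
    have h1 := Nat.div_add_mod N (z ^ 80)
    have h2 := Nat.mod_lt N hzp
    rw [← hq] at h1
    nlinarith
  have h2 : 2 ≤ z ^ 80 := le_trans hz (Nat.le_self_pow (by norm_num) z)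
  have hZp : (0 : ℝ) < (z : ℝ) ^ 80 := by positivity
  rw [hl]
  refine ⟨by omega, even_two_mul _, ?_, ?_, ?_, ?_⟩
  · have h3 : 2 * q ≤ N := le_trans (by nlinarith) hmul
    exact_mod_cast h3
  · push_cast
    rw [le_div_iff₀ hZp]
    have h3 : (q : ℝ) * (z : ℝ) ^ 80 ≤ N := by exact_mod_cast hmul
    nlinarith
  · push_cast
    rw [div_le_iff₀ hZp]
    have h3 : (N : ℝ) ≤ ((q : ℝ) + 1) * (z : ℝ) ^ 80 := by exact_mod_cast hlt.le
    have h4 : (1 : ℝ) ≤ q := by exact_mod_cast hq1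
    refine h3.trans ?_
    exact mul_le_mul_of_nonneg_right (by linarith) hZp.le
  · push_cast
    have h3 : (z : ℝ) ^ 200 ≤ q := by exact_mod_cast hq200
    linarith

private theorem num_N {z N : ℕ} (hz : 2 ≤ z) (h : InR z N) :
    (z : ℝ) ^ 280 ≤ N ∧ Real.log N ≤ 40040 * z := by
  have hz1 : 1 ≤ z := by omega
  have hN : z ^ 280 ≤ N := by
    refine le_trans ?_ h.1
    rw [pow40 z 20000 500 (by norm_num)]
    exact Nat.pow_le_pow_right hz1 (by norm_num)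
  have hN1 : 1 ≤ N := le_trans (Nat.one_le_pow _ _ hz1) hN
  have hNp : (0 : ℝ) < N := by exact_mod_cast hN1
  have hzp : (0 : ℝ) < z := by exact_mod_cast hz1
  constructor
  · exact_mod_cast hN
  · have h1 : (N : ℝ) ≤ (z : ℝ) ^ 40040 := by
      have h2 := h.2
      rw [pow40 z 40040 1001 (by norm_num)] at h2
      calc (N : ℝ) ≤ ((z ^ 40040 : ℕ) : ℝ) := Nat.cast_le.2 h2
        _ = (z : ℝ) ^ 40040 := Nat.cast_pow z 40040
    have h2 := Real.log_le_log hNp h1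
    rw [Real.log_pow] at h2
    have h3 : Real.log z ≤ z := (Real.log_le_sub_one_of_pos hzp).trans (by linarith)
    have h4 : ((40040 : ℕ) : ℝ) = 40040 := by norm_num
    rw [h4] at h2
    linarith

private theorem num_err {Z R l : ℝ} (hZ : 2 ≤ Z) (hR : Z ^ 280 ≤ R) (hl0 : 0 < l)
    (hl1 : l ≤ 2 * R / Z ^ 80) (hl2 : 2 * Z ^ 200 ≤ l) :
    2 / ((1 / Z ^ 40) ^ 2 * l) ≤ 1 ∧ R * Real.sqrt (l / R) + l ≤ 4 * (R / Z ^ 40) ∧
    R * Real.sqrt (l / R) + l + (1 / Z ^ 40) * R +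
      R * (2 / ((1 / Z ^ 40) ^ 2 * l)) ^ (1 / 3 : ℝ) + 1 ≤ 7 * (R / Z ^ 40) := by
  have hZ0 : 0 < Z := by linarith
  have hZ1 : 1 ≤ Z := by linarith
  have h280 : (0 : ℝ) < Z ^ 280 := by positivity
  have hR0 : 0 < R := lt_of_lt_of_le h280 hR
  have h40 : (0 : ℝ) < Z ^ 40 := by positivity
  have h401 : (1 : ℝ) ≤ Z ^ 40 := one_le_pow₀ hZ1
  have h80 : Z ^ 80 = Z ^ 40 * Z ^ 40 := by rw [← pow_add]
  have hsq : Real.sqrt (l / R) ≤ 2 / Z ^ 40 := by
    rw [Real.sqrt_le_iff]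
    refine ⟨by positivity, ?_⟩
    rw [div_le_iff₀ hR0, div_pow]
    refine hl1.trans ?_
    have h1 : (Z ^ 40) ^ 2 = Z ^ 80 := by rw [← pow_mul]
    rw [h1, div_mul_eq_mul_div]
    apply div_le_div_of_nonneg_right _ (by positivity)
    nlinarith
  have hb : 2 / ((1 / Z ^ 40) ^ 2 * l) ≤ (1 / Z ^ 40) ^ 3 := by
    have h1 : (0 : ℝ) < (1 / Z ^ 40) ^ 2 * l := by positivity
    rw [div_le_iff₀ h1]
    have h2 : (1 / Z ^ 40) ^ 3 * ((1 / Z ^ 40) ^ 2 * l) = l / Z ^ 200 := by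
      rw [one_div, inv_pow, inv_pow, ← pow_mul, ← pow_mul]
      have h3 : Z ^ 200 = Z ^ (40 * 3) * Z ^ (40 * 2) := by rw [← pow_add]
      rw [h3]
      field_simp
    rw [h2, le_div_iff₀ (by positivity)]
    exact hl2
  have hk1 : 1 / Z ^ 40 ≤ 1 := by
    rw [div_le_one h40]
    exact h401
  have hk0 : 0 ≤ 1 / Z ^ 40 := by positivity
  have hcube : (2 / ((1 / Z ^ 40) ^ 2 * l)) ^ (1 / 3 : ℝ) ≤ 1 / Z ^ 40 := by
    have h1 : (2 / ((1 / Z ^ 40) ^ 2 * l)) ^ (1 / 3 : ℝ) ≤ ((1 / Z ^ 40) ^ 3) ^ (1 / 3 : ℝ) :=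
      Real.rpow_le_rpow (by positivity) hb (by norm_num)
    have h2 : ((1 / Z ^ 40) ^ 3) ^ (1 / 3 : ℝ) = 1 / Z ^ 40 := by
      have h3 : (1 / 3 : ℝ) = ((3 : ℕ) : ℝ)⁻¹ := by norm_num
      rw [h3]
      exact Real.pow_rpow_inv_natCast hk0 (by norm_num)
    rw [h2] at h1
    exact h1
  obtain ⟨t, ht⟩ : ∃ t, t = R / Z ^ 40 := ⟨_, rfl⟩
  have ht0 : 0 < t := by
    rw [ht]
    positivity
  have hRt : R * (2 / Z ^ 40) = 2 * t := by
    rw [ht]
    ring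
  have hRk : 1 / Z ^ 40 * R = t := by
    rw [ht]
    ring
  have hlt : l ≤ 2 * t := by
    refine hl1.trans ?_
    rw [ht, h80, ← mul_div_assoc]
    apply div_le_div_of_nonneg_left (by positivity) h40
    nlinarith
  have h1t : 1 ≤ t := by
    rw [ht, le_div_iff₀ h40, one_mul]
    exact (pow_le_pow_right₀ hZ1 (by norm_num)).trans hR
  have hA : R * Real.sqrt (l / R) ≤ 2 * t := by
    rw [← hRt]
    exact mul_le_mul_of_nonneg_left hsq hR0.le
  have hB : R * (2 / ((1 / Z ^ 40) ^ 2 * l)) ^ (1 / 3 : ℝ) ≤ t := by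
    rw [← hRk, mul_comm (1 / Z ^ 40) R]
    exact mul_le_mul_of_nonneg_left hcube hR0.le
  rw [← ht, hRk]
  refine ⟨hb.trans (pow_le_one₀ hk0 hk1), by linarith, by linarith⟩

/-! ### Combinatorics of the cells -/

private theorem fib {α β γ : Type} [DecidableEq β] [DecidableEq γ] (s : Finset α) (f : α → β)
    (g : β → γ) (t : Finset β) (c : γ) (w : α → ℝ) (h : ∀ a ∈ s, f a ∈ t) :
    ∑ b ∈ t.filter (fun b => g b = c), ∑ a ∈ s.filter (fun a => f a = b), w a =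
      ∑ a ∈ s.filter (fun a => g (f a) = c), w a := by
  rw [← sum_fiberwise_of_maps_to (s := s.filter (fun a => g (f a) = c))
    (t := t.filter (fun b => g b = c)) (g := f)]
  · refine sum_congr rfl fun b hb => ?_
    refine sum_congr ?_ fun _ _ => rfl
    ext a
    simp only [mem_filter]
    constructor
    · rintro ⟨h1, h2⟩
      refine ⟨⟨h1, ?_⟩, h2⟩
      rw [h2]
      exact (mem_filter.1 hb).2
    · rintro ⟨⟨h1, -⟩, h2⟩
      exact ⟨h1, h2⟩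
  · intro a ha
    rw [mem_filter] at ha ⊢
    exact ⟨h a ha.1, ha.2⟩

private theorem q_board {n : ℕ} (Y : Fin n → Fin (n + 1)) (i : Fin n) :
    (ro i, cl (Y i)) ∈ board (n + 1) := by
  unfold board ro cl
  rw [mem_product, mem_Ico, mem_Ico]
  have h1 := i.isLt
  have h2 := (Y i).isLt
  push_cast
  refine ⟨⟨?_, ?_⟩, ?_, ?_⟩ <;> omega

private theorem cell_mem {N : ℕ} (l : ℤ) {e : ℤ × ℤ} (he : e ∈ board N) : cellD l e ∈ DI N l :=
  mem_image_of_mem _ he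

private theorem board_bd {N : ℕ} {e : ℤ × ℤ} (he : e ∈ board N) :
    (0 ≤ e.1 ∧ e.1 < N) ∧ 0 ≤ e.2 ∧ e.2 < N := by
  unfold board at he
  rw [mem_product, mem_Ico, mem_Ico] at he
  exact he

private theorem DI_sub {N : ℕ} {l : ℤ} {D : (ℤ × ℤ) × (ℤ × ℤ)} (hD : D ∈ DI N l) :
    D.1 ∈ SI N l ∧ D.2 ∈ SI N l := by
  obtain ⟨e, he, rfl⟩ := mem_image.1 hD
  have h := board_bd he
  constructor
  · exact mem_image.2 ⟨e.1 + e.2, mem_Icc.2 (by omega), rfl⟩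
  · exact mem_image.2 ⟨e.1 - e.2, mem_Icc.2 (by omega), rfl⟩

private theorem cY_sum {n : ℕ} (Y : Fin n → Fin (n + 1)) (l : ℤ) {γ : Type} [DecidableEq γ]
    (g : (ℤ × ℤ) × (ℤ × ℤ) → γ) (c : γ) :
    ∑ D ∈ (DI (n + 1) l).filter (fun D => g D = c), (cY l Y D : ℝ) =
      ((univ.filter (fun i => g (cellD l (ro i, cl (Y i))) = c)).card : ℝ) := by
  have h := fib (univ : Finset (Fin n)) (fun i => cellD l (ro i, cl (Y i))) g (DI (n + 1) l) c
    (fun _ => (1 : ℝ)) (fun i _ => cell_mem l (q_board Y i))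
  rw [sum_const, nsmul_eq_mul, mul_one] at h
  rw [← h]
  refine sum_congr rfl fun D _ => ?_
  rw [sum_const, nsmul_eq_mul, mul_one]
  rfl

private theorem cY_total {n : ℕ} (Y : Fin n → Fin (n + 1)) (l : ℤ) :
    ∑ D ∈ DI (n + 1) l, (cY l Y D : ℝ) = n := by
  have h := cY_sum Y l (fun _ => ()) ()
  simp only [filter_true, card_univ, Fintype.card_fin] at h
  exact h

private theorem cD_eq {n : ℕ} {Y : Fin n → Fin (n + 1)} (hY : YF n Y) (l : ℤ) (σ : ℤ × ℤ) :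
    (cD l (occ Y) σ : ℝ) = ∑ D ∈ (DI (n + 1) l).filter (fun D => D.2 = σ), (cY l Y D : ℝ) := by
  have h1 : (occ Y).toLeft = univ.image (fun i => ro i - cl (Y i)) := by
    ext s
    rw [mem_toLeft]
    unfold occ
    rw [mem_union, mem_image, mem_image, mem_image]
    constructor
    · rintro (⟨i, -, h⟩ | ⟨i, -, h⟩)
      · exact ⟨i, mem_univ _, Sum.inl.inj h⟩
      · exact absurd h (by simp)
    · rintro ⟨i, -, h⟩
      exact Or.inl ⟨i, mem_univ _, by rw [h]⟩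
  have h2 : ((univ.image (fun i => ro i - cl (Y i))).filter (fun s => st l s = σ)).card =
      (univ.filter (fun i => st l (ro i - cl (Y i)) = σ)).card := by
    rw [filter_image, card_image_of_injective _ hY.2.2]
  rw [cY_sum Y l (fun D => D.2) σ]
  unfold cD
  rw [h1, h2]
  rfl

private theorem cS_eq {n : ℕ} {Y : Fin n → Fin (n + 1)} (hY : YF n Y) (l : ℤ) (σ : ℤ × ℤ) :
    (cS l (occ Y) σ : ℝ) = ∑ D ∈ (DI (n + 1) l).filter (fun D => D.1 = σ), (cY l Y D : ℝ) := by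
  have h1 : (occ Y).toRight = univ.image (fun i => ro i + cl (Y i)) := by
    ext s
    rw [mem_toRight]
    unfold occ
    rw [mem_union, mem_image, mem_image, mem_image]
    constructor
    · rintro (⟨i, -, h⟩ | ⟨i, -, h⟩)
      · exact absurd h (by simp)
      · exact ⟨i, mem_univ _, Sum.inr.inj h⟩
    · rintro ⟨i, -, h⟩
      exact Or.inr ⟨i, mem_univ _, by rw [h]⟩
  have h2 : ((univ.image (fun i => ro i + cl (Y i))).filter (fun s => st l s = σ)).card =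
      (univ.filter (fun i => st l (ro i + cl (Y i)) = σ)).card := by
    rw [filter_image, card_image_of_injective _ hY.2.1]
  rw [cY_sum Y l (fun D => D.1) σ]
  unfold cS
  rw [h1, h2]
  rfl

private theorem mD_eq (N : ℕ) (W : ℤ × ℤ → ℝ) (l : ℤ) (σ : ℤ × ℤ) :
    mD N W l σ = ∑ D ∈ (DI N l).filter (fun D => D.2 = σ), Wc N W l D := by
  have h1 := fib (board N) (fun e => ln 3 e) (st l) (Finset.Icc (-(N : ℤ)) N) σ W (fun e he => by
    have h := board_bd he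
    change e.1 - e.2 ∈ _
    exact mem_Icc.2 (by omega))
  have h2 := fib (board N) (cellD l) (fun D => D.2) (DI N l) σ W (fun e he => cell_mem l he)
  exact h1.trans h2.symm

private theorem mS_eq (N : ℕ) (W : ℤ × ℤ → ℝ) (l : ℤ) (σ : ℤ × ℤ) :
    mS N W l σ = ∑ D ∈ (DI N l).filter (fun D => D.1 = σ), Wc N W l D := by
  have h1 := fib (board N) (fun e => ln 2 e) (st l) (Finset.Icc (0 : ℤ) (2 * N)) σ W (fun e he => by
    have h := board_bd he
    change e.1 + e.2 ∈ _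
    exact mem_Icc.2 (by omega))
  have h2 := fib (board N) (cellD l) (fun D => D.1) (DI N l) σ W (fun e he => cell_mem l he)
  exact h1.trans h2.symm

private theorem dev_le {n : ℕ} {Y : Fin n → Fin (n + 1)} (hY : YF n Y) (W : ℤ × ℤ → ℝ) (l : ℤ) :
    dev (n + 1) W l (occ Y) ≤ 2 * ∑ D ∈ DI (n + 1) l, |(cY l Y D : ℝ) - Wc (n + 1) W l D| := by
  have h1 : ∑ σ ∈ SI (n + 1) l, |(cD l (occ Y) σ : ℝ) - mD (n + 1) W l σ| ≤
      ∑ D ∈ DI (n + 1) l, |(cY l Y D : ℝ) - Wc (n + 1) W l D| := by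
    rw [← sum_fiberwise_of_maps_to (s := DI (n + 1) l) (t := SI (n + 1) l) (g := fun D => D.2)
      (fun D hD => (DI_sub hD).2)]
    refine sum_le_sum fun σ _ => ?_
    rw [cD_eq hY, mD_eq, ← sum_sub_distrib]
    exact abs_sum_le_sum_abs _ _
  have h2 : ∑ σ ∈ SI (n + 1) l, |(cS l (occ Y) σ : ℝ) - mS (n + 1) W l σ| ≤
      ∑ D ∈ DI (n + 1) l, |(cY l Y D : ℝ) - Wc (n + 1) W l D| := by
    rw [← sum_fiberwise_of_maps_to (s := DI (n + 1) l) (t := SI (n + 1) l) (g := fun D => D.1)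
      (fun D hD => (DI_sub hD).1)]
    refine sum_le_sum fun σ _ => ?_
    rw [cS_eq hY, mS_eq, ← sum_sub_distrib]
    exact abs_sum_le_sum_abs _ _
  unfold dev
  rw [sum_add_distrib]
  linarith

private theorem DI_card {N : ℕ} {l : ℤ} : (DI N l).card ≤ (SI N l).card ^ 2 := by
  have h : DI N l ⊆ SI N l ×ˢ SI N l := fun D hD => mem_product.2 (DI_sub hD)
  refine (card_le_card h).trans ?_
  rw [card_product, sq]

private theorem cY_zero {n : ℕ} (Y : Fin n → Fin (n + 1)) {l : ℤ} {D : (ℤ × ℤ) × (ℤ × ℤ)}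
    (hD : D ∉ DI (n + 1) l) : cY l Y D = 0 := by
  unfold cY
  rw [card_eq_zero, filter_eq_empty_iff]
  intro i _ h
  exact hD (h ▸ cell_mem l (q_board Y i))

private theorem cY_lt {n : ℕ} (Y : Fin n → Fin (n + 1)) (l : ℤ) (D : (ℤ × ℤ) × (ℤ × ℤ)) :
    cY l Y D < n + 1 := by
  unfold cY
  refine Nat.lt_succ_of_le ((card_filter_le _ _).trans ?_)
  rw [card_univ, Fintype.card_fin]

open Classical in
private theorem classes {n : ℕ} (l : ℤ) (S : Finset (Fin n → Fin (n + 1))) {E : ℝ} (hE0 : 0 ≤ E)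
    (hE : ∀ Y0 ∈ S, ((S.filter (fun Y => hole Y = hole Y0 ∧ ∀ D, cY l Y D = cY l Y0 D)).card : ℝ) ≤ E) :
    (S.card : ℝ) ≤ ((n : ℝ) + 1) ^ ((DI (n + 1) l).card + 1) * E := by
  let key : (Fin n → Fin (n + 1)) → Fin (n + 1) × ({D // D ∈ DI (n + 1) l} → Fin (n + 1)) :=
    fun Y => (hole Y, fun D => ⟨cY l Y D.1, cY_lt Y l D.1⟩)
  have h1 : (S.card : ℝ) = ∑ a ∈ S.image key, ((S.filter (fun Y => key Y = a)).card : ℝ) := by
    rw [card_eq_sum_card_image key S]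
    push_cast
    rfl
  have h2 : ∀ a ∈ S.image key, ((S.filter (fun Y => key Y = a)).card : ℝ) ≤ E := by
    intro a ha
    obtain ⟨Y0, hY0, rfl⟩ := mem_image.1 ha
    refine le_trans ?_ (hE Y0 hY0)
    refine Nat.cast_le.2 (card_le_card ?_)
    intro Y hY
    rw [mem_filter] at hY ⊢
    refine ⟨hY.1, congrArg Prod.fst hY.2, fun D => ?_⟩
    by_cases hD : D ∈ DI (n + 1) l
    · have h3 := congrFun (congrArg Prod.snd hY.2) ⟨D, hD⟩
      exact congrArg Fin.val h3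
    · rw [cY_zero Y hD, cY_zero Y0 hD]
  have h3 : (((S.image key).card : ℕ) : ℝ) ≤ ((n : ℝ) + 1) ^ ((DI (n + 1) l).card + 1) := by
    have h4 : (S.image key).card ≤ (n + 1) ^ ((DI (n + 1) l).card + 1) := by
      refine (card_le_univ _).trans ?_
      rw [Fintype.card_prod, Fintype.card_fun, Fintype.card_fin, Fintype.card_coe, pow_succ, mul_comm]
    calc (((S.image key).card : ℕ) : ℝ) ≤ (((n + 1) ^ ((DI (n + 1) l).card + 1) : ℕ) : ℝ) :=
          Nat.cast_le.2 h4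
      _ = _ := by push_cast; rfl
  rw [h1]
  calc ∑ a ∈ S.image key, ((S.filter (fun Y => key Y = a)).card : ℝ)
      ≤ ∑ _a ∈ S.image key, E := sum_le_sum h2
    _ = (S.image key).card * E := by rw [sum_const, nsmul_eq_mul]
    _ ≤ _ := mul_le_mul_of_nonneg_right h3 hE0

/-- Cauchy-Schwarz -/
private theorem hell_l1 {ι : Type} (s : Finset ι) (c w : ι → ℝ) (hc : ∀ i ∈ s, 0 ≤ c i)
    (hw : ∀ i ∈ s, 0 ≤ w i) {H T : ℝ} (hH : ∑ i ∈ s, (Real.sqrt (c i) - Real.sqrt (w i)) ^ 2 ≤ H)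
    (hT : ∑ i ∈ s, c i + ∑ i ∈ s, w i ≤ T) : (∑ i ∈ s, |c i - w i|) ^ 2 ≤ H * (2 * T) := by
  have h1 : ∑ i ∈ s, |c i - w i| =
      ∑ i ∈ s, |Real.sqrt (c i) - Real.sqrt (w i)| * (Real.sqrt (c i) + Real.sqrt (w i)) := by
    refine sum_congr rfl fun i hi => ?_
    have h2 : c i - w i =
        (Real.sqrt (c i) - Real.sqrt (w i)) * (Real.sqrt (c i) + Real.sqrt (w i)) := by
      have h3 := Real.mul_self_sqrt (hc i hi)
      have h4 := Real.mul_self_sqrt (hw i hi)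
      nlinarith
    rw [h2, abs_mul, abs_of_nonneg (add_nonneg (Real.sqrt_nonneg _) (Real.sqrt_nonneg _))]
  have h5 := sum_mul_sq_le_sq_mul_sq s (fun i => |Real.sqrt (c i) - Real.sqrt (w i)|)
    (fun i => Real.sqrt (c i) + Real.sqrt (w i))
  have h6 : ∑ i ∈ s, |Real.sqrt (c i) - Real.sqrt (w i)| ^ 2 ≤ H := by
    refine le_trans (le_of_eq ?_) hH
    exact sum_congr rfl fun i _ => sq_abs _
  have h7 : ∑ i ∈ s, (Real.sqrt (c i) + Real.sqrt (w i)) ^ 2 ≤ 2 * T := by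
    calc ∑ i ∈ s, (Real.sqrt (c i) + Real.sqrt (w i)) ^ 2 ≤ ∑ i ∈ s, 2 * (c i + w i) := by
          refine sum_le_sum fun i hi => ?_
          have h3 := Real.mul_self_sqrt (hc i hi)
          have h4 := Real.mul_self_sqrt (hw i hi)
          nlinarith [sq_nonneg (Real.sqrt (c i) - Real.sqrt (w i))]
      _ = 2 * (∑ i ∈ s, c i + ∑ i ∈ s, w i) := by rw [← mul_sum, sum_add_distrib]
      _ ≤ 2 * T := by linarith
  rw [h1]
  refine h5.trans ?_
  have h8 : 0 ≤ ∑ i ∈ s, (Real.sqrt (c i) + Real.sqrt (w i)) ^ 2 := sum_nonneg fun i _ => sq_nonneg _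
  have h9 : 0 ≤ ∑ i ∈ s, |Real.sqrt (c i) - Real.sqrt (w i)| ^ 2 := sum_nonneg fun i _ => sq_nonneg _
  exact mul_le_mul h6 h7 h8 (h9.trans h6)

private theorem dev_small {C' Z R S1 S2 dv : ℝ} (hZ : 8 ≤ Z) (hC' : 4 * C' ≤ Z) (hR : 0 < R)
    (h0 : 0 ≤ S1) (h1 : S1 ^ 2 ≤ R / Z ^ 38 * (2 * (3 * R))) (h2 : S2 ≤ C' * (4 * (R / Z ^ 40)))
    (hd : dv ≤ 2 * (S1 + S2)) : dv ≤ R / Z ^ 18 := by
  have hZ0 : 0 < Z := by linarith
  have hZ1 : 1 ≤ Z := by linarith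
  obtain ⟨u, hu⟩ : ∃ u, u = R / Z ^ 19 := ⟨_, rfl⟩
  have hu0 : 0 < u := by
    rw [hu]
    positivity
  have e1 : R / Z ^ 38 * (2 * (3 * R)) = 6 * u ^ 2 := by
    rw [hu, div_pow, ← pow_mul]
    ring
  have e2 : R / Z ^ 18 = Z * u := by
    have h3 : Z ^ 19 = Z ^ 18 * Z := pow_succ Z 18
    rw [hu, h3]
    field_simp
  have e3 : R / Z ^ 40 = u / Z ^ 21 := by
    have h3 : Z ^ 40 = Z ^ 19 * Z ^ 21 := by rw [← pow_add]
    rw [hu, h3, div_div]
  have hS1 : S1 ≤ 3 * u := by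
    rw [e1] at h1
    by_contra hcon
    push Not at hcon
    nlinarith
  have hS2 : S2 ≤ u := by
    refine h2.trans ?_
    rw [e3]
    have h3 : Z ≤ Z ^ 21 := le_self_pow₀ hZ1 (by norm_num)
    have h4 : C' * (4 * (u / Z ^ 21)) = (4 * C') * u / Z ^ 21 := by ring
    rw [h4, div_le_iff₀ (by positivity)]
    nlinarith
  rw [e2]
  nlinarith

theorem level1 (L : ℝ) (hL : 1 ≤ L) : ∃ z0 : ℕ, ∀ z n : ℕ, z0 ≤ z → InR z (n + 1) →
    ∀ (W : ℤ × ℤ → ℝ) (A B : ℤ → ℝ), Rf L (n + 1) W A B → 0 < (Ys n).card →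
    F (n + 1) W - (n + 1) - (n + 1) / (z : ℝ) ^ 39 ≤ Real.log (Ys n).card →
    (((Ys n).filter (fun Y => (n + 1) / (z : ℝ) ^ 18 < dev (n + 1) W (ll z (n + 1)) (occ Y))).card : ℝ) ≤
      Real.exp (-((n + 1) / (z : ℝ) ^ 39)) * (Ys n).card := by
  classical
  obtain ⟨C, hC1, hC⟩ := class_ref L hL
  obtain ⟨C', hC'1, hC'⟩ := cells_l1 L hL
  obtain ⟨C2, -, hC2⟩ := cell_facts L hL
  obtain ⟨z0, hz0⟩ := exists_nat_ge (7 * C + 4 * C' + 4044040)
  refine ⟨z0, ?_⟩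
  intro z n hzz hin W A B hRf hcard hF
  have hZbig : 7 * C + 4 * C' + 4044040 ≤ (z : ℝ) := hz0.trans (by exact_mod_cast hzz)
  have hZ2 : (2 : ℝ) ≤ z := by linarith
  have hz2 : 2 ≤ z := by exact_mod_cast hZ2
  obtain ⟨hl0, hle, hlN, hl1, hl1', hl2⟩ := num_ll hz2 hin
  obtain ⟨hN280, hlogN⟩ := num_N hz2 hin
  obtain ⟨l, hl⟩ : ∃ l, l = ll z (n + 1) := ⟨_, rfl⟩
  rw [← hl] at hl0 hle hlN hl1 hl1' hl2 ⊢
  obtain ⟨Z, hZ⟩ : ∃ Z, Z = (z : ℝ) := ⟨_, rfl⟩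
  rw [← hZ] at hZbig hZ2 hl1 hl1' hl2 hN280 hlogN hF ⊢
  obtain ⟨R, hR⟩ : ∃ R, R = (n : ℝ) + 1 := ⟨_, rfl⟩
  have hRc : ((n + 1 : ℕ) : ℝ) = R := by
    rw [hR]
    push_cast
    rfl
  rw [hRc] at hl1 hl1' hN280 hlogN
  rw [← hR] at hF ⊢
  have hZ0 : 0 < Z := by linarith
  have hZ1 : 1 ≤ Z := by linarith
  have hlr : (0 : ℝ) < (l : ℝ) := by exact_mod_cast hl0
  have hR0 : 0 < R := lt_of_lt_of_le (by positivity) hN280
  obtain ⟨hη, herr1, herr2⟩ := num_err hZ2 hN280 hlr hl1 hl2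
  obtain ⟨t, ht⟩ : ∃ t, t = R / Z ^ 40 := ⟨_, rfl⟩
  have ht0 : 0 < t := by
    rw [ht]
    positivity
  have e39 : R / Z ^ 39 = t * Z := by
    have h3 : Z ^ 40 = Z ^ 39 * Z := pow_succ Z 39
    rw [ht, h3]
    field_simp
  have e38 : R / Z ^ 38 = t * Z ^ 2 := by
    have h3 : Z ^ 40 = Z ^ 38 * Z ^ 2 := by rw [← pow_add]
    rw [ht, h3]
    field_simp
  rw [← ht] at herr1 herr2
  -- the number of cells
  have hDI : ((DI (n + 1) l).card : ℝ) ≤ 100 * Z ^ 160 := by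
    have h1 := si_card hl0 hlN
    rw [hRc] at h1
    have h2 : 10 * R / (l : ℝ) ≤ 10 * Z ^ 80 := by
      rw [div_le_iff₀ hlr]
      rw [div_le_iff₀ (by positivity)] at hl1'
      nlinarith
    have h3 : (((DI (n + 1) l).card : ℕ) : ℝ) ≤ ((SI (n + 1) l).card : ℝ) ^ 2 := by
      exact_mod_cast DI_card
    refine h3.trans ?_
    calc ((SI (n + 1) l).card : ℝ) ^ 2 ≤ (10 * Z ^ 80) ^ 2 :=
          pow_le_pow_left₀ (Nat.cast_nonneg _) (h1.trans h2) 2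
      _ = 100 * Z ^ 160 := by
          rw [mul_pow, ← pow_mul]
          norm_num
  -- the number of classes
  have hcl : R ^ ((DI (n + 1) l).card + 1) ≤ Real.exp t := by
    rw [← Real.exp_log (pow_pos hR0 ((DI (n + 1) l).card + 1)), Real.log_pow]
    apply Real.exp_le_exp.2
    push_cast
    have hlog0 : 0 ≤ Real.log R := Real.log_nonneg (le_trans (one_le_pow₀ hZ1) hN280)
    have h161 : (0 : ℝ) < Z ^ 160 := by positivity
    have h1160 : (1 : ℝ) ≤ Z ^ 160 := one_le_pow₀ hZ1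
    have h1 : ((DI (n + 1) l).card : ℝ) + 1 ≤ 101 * Z ^ 160 := by linarith
    calc (((DI (n + 1) l).card : ℝ) + 1) * Real.log R ≤ (101 * Z ^ 160) * (40040 * Z) :=
          mul_le_mul h1 hlogN hlog0 (by positivity)
      _ = 4044040 * (Z ^ 160 * Z) := by ring
      _ ≤ Z * (Z ^ 160 * Z) := by
          apply mul_le_mul_of_nonneg_right _ (by positivity)
          linarith
      _ = Z ^ 162 := by ring
      _ ≤ Z ^ 240 := pow_le_pow_right₀ hZ1 (by norm_num)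
      _ ≤ t := by
          rw [ht, le_div_iff₀ (by positivity), ← pow_add]
          exact hN280
  have hM0 : (0 : ℝ) < (Ys n).card := by exact_mod_cast hcard
  -- configurations with small distance have small deviation
  have hsmall : ∀ Y ∈ Ys n, ∑ D ∈ DI (n + 1) l,
      (Real.sqrt (cY l Y D) - Real.sqrt (Wh (n + 1) W A B l D)) ^ 2 ≤ R / Z ^ 38 →
      dev (n + 1) W l (occ Y) ≤ R / Z ^ 18 := by
    intro Y hY hH
    obtain ⟨a1, a2, -, -⟩ := hC' (n + 1) W A B (by omega) hRf l hl0 hle hlN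
    rw [hRc] at a1 a2
    have hw : ∀ D ∈ DI (n + 1) l, 0 ≤ Wh (n + 1) W A B l D := by
      intro D hD
      obtain ⟨e, he, rfl⟩ := mem_image.1 hD
      exact (hC2 (n + 1) W A B (by omega) hRf l hl0 hle hlN e he).2.2.1.le
    have hC't : C' * (4 * t) ≤ R := by
      have h3 : Z ≤ Z ^ 40 := le_self_pow₀ hZ1 (by norm_num)
      have h4 : t * Z ^ 40 = R := by
        rw [ht]
        field_simp
      nlinarith
    have hT : ∑ D ∈ DI (n + 1) l, (cY l Y D : ℝ) + ∑ D ∈ DI (n + 1) l, Wh (n + 1) W A B l D ≤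
        3 * R := by
      rw [cY_total]
      have h3 : C' * (R * Real.sqrt (l / R) + l) ≤ C' * (4 * t) :=
        mul_le_mul_of_nonneg_left herr1 (by linarith)
      have h4 : (n : ℝ) ≤ R := by linarith
      linarith
    have h1 := hell_l1 (DI (n + 1) l) (fun D => (cY l Y D : ℝ)) (fun D => Wh (n + 1) W A B l D)
      (fun D _ => Nat.cast_nonneg _) hw hH hT
    refine dev_small (C' := C') (S1 := ∑ D ∈ DI (n + 1) l, |(cY l Y D : ℝ) - Wh (n + 1) W A B l D|)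
      (S2 := ∑ D ∈ DI (n + 1) l, |Wh (n + 1) W A B l D - Wc (n + 1) W l D|)
      (by linarith) (by linarith) hR0 (sum_nonneg fun _ _ => abs_nonneg _) h1 ?_ ?_
    · refine a1.trans ?_
      rw [← ht]
      exact mul_le_mul_of_nonneg_left herr1 (by linarith)
    · refine (dev_le (mem_Ys.1 hY) W l).trans ?_
      rw [← sum_add_distrib]
      refine mul_le_mul_of_nonneg_left (sum_le_sum fun D _ => ?_) (by norm_num)
      exact abs_sub_le _ _ _
  -- the classes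
  obtain ⟨S, hS⟩ : ∃ S, S = (Ys n).filter (fun Y => R / Z ^ 18 < dev (n + 1) W l (occ Y)) := ⟨_, rfl⟩
  rw [← hS]
  obtain ⟨E, hE⟩ : ∃ E, E = Real.exp (Real.log (Ys n).card + t * Z + C * (7 * t) - t * Z ^ 2) :=
    ⟨_, rfl⟩
  have hE0 : 0 ≤ E := by
    rw [hE]
    exact (Real.exp_pos _).le
  have hcls : ∀ Y0 ∈ S,
      ((S.filter (fun Y => hole Y = hole Y0 ∧ ∀ D, cY l Y D = cY l Y0 D)).card : ℝ) ≤ E := by
    intro Y0 hY0
    rw [hS, mem_filter] at hY0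
    obtain ⟨hY0, hdv⟩ := hY0
    obtain ⟨K, hK⟩ : ∃ K, K = (Ys n).filter (fun Y => hole Y = hole Y0 ∧ ∀ D, cY l Y D = cY l Y0 D) :=
      ⟨_, rfl⟩
    have h1 : ((S.filter (fun Y => hole Y = hole Y0 ∧ ∀ D, cY l Y D = cY l Y0 D)).card : ℝ) ≤
        (K.card : ℝ) := by
      refine Nat.cast_le.2 (card_le_card ?_)
      rw [hK, hS]
      exact filter_subset_filter _ (filter_subset _ _)
    refine h1.trans ?_
    have hY0K : Y0 ∈ K := by
      rw [hK, mem_filter]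
      exact ⟨hY0, rfl, fun _ => rfl⟩
    have hK0 : (0 : ℝ) < K.card := by exact_mod_cast card_pos.2 ⟨Y0, hY0K⟩
    have hn1 : 1 ≤ n := by
      by_contra hcon
      have h0 : n = 0 := by omega
      rw [h0] at hR
      have h3 : R = 1 := by rw [hR]; norm_num
      rw [h3] at hN280
      have h4 : (2 : ℝ) ≤ Z ^ 280 := hZ2.trans (le_self_pow₀ hZ1 (by norm_num))
      linarith
    have hbig : R / Z ^ 38 < ∑ D ∈ DI (n + 1) l,
        (Real.sqrt (cY l Y0 D) - Real.sqrt (Wh (n + 1) W A B l D)) ^ 2 := by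
      by_contra hcon
      push Not at hcon
      have h3 := hsmall Y0 hY0 hcon
      linarith
    have h2 := hC n W A B hn1 hRf l hl0 hle (by exact_mod_cast hlN) (1 / Z ^ 40) (by positivity)
      (by
        rw [div_le_one (by positivity)]
        exact one_le_pow₀ hZ1) hη Y0 hY0 K (fun Y => by rw [hK, mem_filter])
    rw [← hR] at h2
    rw [← Real.exp_log hK0, hE]
    apply Real.exp_le_exp.2
    rw [e39] at hF
    rw [e38] at hbig
    have h3 : C * (R * Real.sqrt (l / R) + l + 1 / Z ^ 40 * R +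
        R * (2 / ((1 / Z ^ 40) ^ 2 * l)) ^ (1 / 3 : ℝ) + 1) ≤ C * (7 * t) :=
      mul_le_mul_of_nonneg_left herr2 (by linarith)
    linarith
  have hfin := classes l S hE0 hcls
  rw [← hR] at hfin
  refine hfin.trans ?_
  refine (mul_le_mul_of_nonneg_right hcl hE0).trans ?_
  rw [hE, ← Real.exp_add, e39]
  have h5 : Real.exp (-(t * Z)) * ((Ys n).card : ℝ) = Real.exp (-(t * Z) + Real.log (Ys n).card) := by
    rw [Real.exp_add, Real.exp_log hM0]
  rw [h5]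
  apply Real.exp_le_exp.2
  have h6 : 1 + 7 * C + 2 * Z ≤ Z ^ 2 := by nlinarith
  nlinarith

end Pool.Agent.NQR
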