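import Pool.Agent.NQR.Defs

/-!
# NQR-TCap: the cost of the lower cut-off for the occupation probabilities, and the constant

PLAN. `cap_le`: `(1 - pp 0 u) ≤ (1 - pp κ u)` times `1` if `pp 0 u ≥ κ` and times `1/(1-κ) ≤ exp (2κ)` otherwise
(`κ ≤ 1/2`; note `pp κ u ≤ max (1 - 1/L) κ < 1`). Number of `u ∈ gd N` with `pp 0 u < κ`: a difference diagonal `s`
contains `N - |s|` squares, each `W ≥ 1/(L N)`, so `N - |s| < L κ N`: at most `2 L κ N + 2` values of `s` in `[-N,N]`; the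
same for sums. Total `≤ 4 L κ N + 8 ≤ 12 L κ N` (as `κ N ≥ 1`), so the product is `≤ exp (24 L κ² N)`.
`const_le`: logarithm of the left hand side, `Rf.val`, `1 - pp 0 (inl s) = hD s`, `1 - pp 0 (inr s) = hS s` (the extra
elements of `gd` have `dsum = 0`), `∑_{i} log A (ro i) = ∑_{x ∈ Ico 0 N} log A x - log A 0`,
`A 0 ∑ B ≤ L²`, `3 N - 3 n = 3`.
-/

set_option autoImplicit false

open Finset

namespace Pool.Agent.NQR

open Pool.Agent.NQ (board dsum F Ent Dg phi ln Q Qset st cellD bern)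

private theorem dsum_nn {L : ℝ} {N : ℕ} {W : ℤ × ℤ → ℝ} {A B : ℤ → ℝ} (h : Rf L N W A B)
    (k : Fin 4) (s : ℤ) : 0 ≤ dsum N W k s := by
  unfold dsum
  exact Finset.sum_nonneg (fun e _ => h.adm.nn e)

private theorem pp_inl {L : ℝ} {N : ℕ} {W : ℤ × ℤ → ℝ} {A B : ℤ → ℝ} (h : Rf L N W A B)
    (s : ℤ) : pp N W 0 (Sum.inl s) = dsum N W 3 s := max_eq_left (dsum_nn h 3 s)

private theorem pp_inr {L : ℝ} {N : ℕ} {W : ℤ × ℤ → ℝ} {A B : ℤ → ℝ} (h : Rf L N W A B)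
    (s : ℤ) : pp N W 0 (Sum.inr s) = dsum N W 2 s := max_eq_left (dsum_nn h 2 s)

private theorem pp_eq {L : ℝ} {N : ℕ} {W : ℤ × ℤ → ℝ} {A B : ℤ → ℝ} (h : Rf L N W A B)
    (κ : ℝ) (u : ℤ ⊕ ℤ) : pp N W κ u = max (pp N W 0 u) κ := by
  cases u with
  | inl s => rw [pp_inl h]; rfl
  | inr s => rw [pp_inr h]; rfl

private theorem pp_lt {L : ℝ} (hL : 1 ≤ L) {N : ℕ} {W : ℤ × ℤ → ℝ} {A B : ℤ → ℝ} (h : Rf L N W A B)
    (u : ℤ ⊕ ℤ) : pp N W 0 u < 1 := by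
  have hL0 : 0 < 1 / L := by positivity
  cases u with
  | inl s =>
    rw [pp_inl h]
    have := h.bd.dd s
    unfold hD at this
    linarith
  | inr s =>
    rw [pp_inr h]
    have := h.bd.sd s
    unfold hS at this
    linarith

private theorem dsum_lower {L : ℝ} {N : ℕ} {W : ℤ × ℤ → ℝ} {A B : ℤ → ℝ}
    (h : Rf L N W A B) (k : Fin 4) (s : ℤ) (m : ℕ) (f : ℕ → ℤ × ℤ)
    (hinj : Function.Injective f) (hf : ∀ i < m, f i ∈ board N ∧ ln k (f i) = s) :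
    (m : ℝ) * (1 / (L * N)) ≤ dsum N W k s := by
  unfold dsum
  have h1 : (m : ℝ) * (1 / (L * N)) ≤ ∑ i ∈ Finset.range m, W (f i) := by
    have : (m : ℝ) * (1 / (L * N)) = ∑ i ∈ Finset.range m, (1 / (L * N) : ℝ) := by
      rw [Finset.sum_const, Finset.card_range, nsmul_eq_mul]
    rw [this]
    exact Finset.sum_le_sum (fun i hi => h.bd.lo _ (hf i (Finset.mem_range.1 hi)).1)
  have h2 : ∑ i ∈ Finset.range m, W (f i) = ∑ e ∈ (Finset.range m).image f, W e := by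
    rw [Finset.sum_image (fun a _ b _ hab => hinj hab)]
  rw [h2] at h1
  refine h1.trans (Finset.sum_le_sum_of_subset_of_nonneg ?_ (fun e _ _ => h.adm.nn e))
  intro e he
  obtain ⟨i, hi, rfl⟩ := Finset.mem_image.1 he
  exact Finset.mem_filter.2 (hf i (Finset.mem_range.1 hi))

private theorem cnt_aux {L : ℝ} (hL : 1 ≤ L) {N : ℕ} {κ : ℝ} (hκN : 1 ≤ κ * N) {j : ℤ} (hj : 0 ≤ j)
    (h : (j.toNat : ℝ) * (1 / (L * N)) < κ) : j ≤ ⌊L * κ * N⌋ := by
  have hN : 0 < (N : ℝ) := by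
    rcases (Nat.cast_nonneg N : (0 : ℝ) ≤ N).lt_or_eq with h | h
    · exact h
    · rw [← h] at hκN
      linarith
  have hLN : 0 < L * N := by positivity
  rw [mul_one_div, div_lt_iff₀ hLN] at h
  have h1 : ((j.toNat : ℕ) : ℝ) = (j : ℝ) := by
    have : ((j.toNat : ℕ) : ℤ) = j := Int.toNat_of_nonneg hj
    exact_mod_cast this
  rw [h1] at h
  exact Int.le_floor.2 (by linarith)

private theorem bad_diff {L : ℝ} (hL : 1 ≤ L) {N : ℕ} {W : ℤ × ℤ → ℝ} {A B : ℤ → ℝ}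
    (h : Rf L N W A B) {κ : ℝ} (hκN : 1 ≤ κ * N) {s : ℤ} (hs : s ∈ Finset.Icc (-(N : ℤ)) N)
    (hb : dsum N W 3 s < κ) :
    s ∈ Finset.Icc (-(N : ℤ)) (-(N : ℤ) + ⌊L * κ * N⌋) ∪ Finset.Icc ((N : ℤ) - ⌊L * κ * N⌋) N := by
  rw [Finset.mem_Icc] at hs
  have habs : 0 ≤ (N : ℤ) - |s| := by
    have := abs_le.2 hs
    linarith
  have key : (N : ℤ) - |s| ≤ ⌊L * κ * N⌋ := by
    refine cnt_aux hL hκN habs ?_
    refine lt_of_le_of_lt ?_ hb
    by_cases h0 : 0 ≤ s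
    · refine dsum_lower h 3 s _ (fun i => ((i : ℤ) + s, (i : ℤ))) ?_ ?_
      · intro a b hab
        simp only [Prod.mk.injEq] at hab
        exact_mod_cast hab.2
      · intro i hi
        rw [abs_of_nonneg h0] at hi
        rw [Pool.Agent.NQ.mem_board]
        simp only [Pool.Agent.NQ.ln_three]
        omega
    · push Not at h0
      refine dsum_lower h 3 s _ (fun i => ((i : ℤ), (i : ℤ) - s)) ?_ ?_
      · intro a b hab
        simp only [Prod.mk.injEq] at hab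
        exact_mod_cast hab.1
      · intro i hi
        rw [abs_of_neg h0] at hi
        rw [Pool.Agent.NQ.mem_board]
        simp only [Pool.Agent.NQ.ln_three]
        omega
  rw [Finset.mem_union, Finset.mem_Icc, Finset.mem_Icc]
  by_cases h0 : 0 ≤ s
  · rw [abs_of_nonneg h0] at key
    right
    omega
  · push Not at h0
    rw [abs_of_neg h0] at key
    left
    omega

private theorem bad_sum {L : ℝ} (hL : 1 ≤ L) {N : ℕ} {W : ℤ × ℤ → ℝ} {A B : ℤ → ℝ}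
    (h : Rf L N W A B) {κ : ℝ} (hκN : 1 ≤ κ * N) {s : ℤ} (hs : s ∈ Finset.Icc (0 : ℤ) (2 * N))
    (hb : dsum N W 2 s < κ) :
    s ∈ Finset.Icc (0 : ℤ) ⌊L * κ * N⌋ ∪ Finset.Icc (2 * (N : ℤ) - 1 - ⌊L * κ * N⌋) (2 * N) := by
  rw [Finset.mem_Icc] at hs
  have hfl : 0 ≤ ⌊L * κ * N⌋ := by
    refine Int.floor_nonneg.2 ?_
    have : L * κ * N = L * (κ * N) := by ring
    rw [this]
    positivity
  rw [Finset.mem_union, Finset.mem_Icc, Finset.mem_Icc]
  by_cases h0 : s < N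
  · left
    have key : s + 1 ≤ ⌊L * κ * N⌋ := by
      refine cnt_aux hL hκN (by omega) ?_
      refine lt_of_le_of_lt ?_ hb
      refine dsum_lower h 2 s _ (fun i => ((i : ℤ), s - (i : ℤ))) ?_ ?_
      · intro a b hab
        simp only [Prod.mk.injEq] at hab
        exact_mod_cast hab.1
      · intro i hi
        rw [Pool.Agent.NQ.mem_board]
        simp only [Pool.Agent.NQ.ln_two]
        omega
    omega
  · right
    push Not at h0
    by_cases h1 : 2 * (N : ℤ) - 1 - s < 0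
    · omega
    · push Not at h1
      have key : 2 * (N : ℤ) - 1 - s ≤ ⌊L * κ * N⌋ := by
        refine cnt_aux hL hκN h1 ?_
        refine lt_of_le_of_lt ?_ hb
        refine dsum_lower h 2 s _ (fun i => (s - N + 1 + (i : ℤ), N - 1 - (i : ℤ))) ?_ ?_
        · intro a b hab
          simp only [Prod.mk.injEq] at hab
          have := hab.1
          omega
        · intro i hi
          rw [Pool.Agent.NQ.mem_board]
          simp only [Pool.Agent.NQ.ln_two]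
          omega
      omega

private theorem bad_card {L : ℝ} (hL : 1 ≤ L) {N : ℕ} {W : ℤ × ℤ → ℝ} {A B : ℤ → ℝ}
    (h : Rf L N W A B) {κ : ℝ} (hκN : 1 ≤ κ * N) (T : Finset (ℤ ⊕ ℤ)) (hT : T ⊆ gd N)
    (hb : ∀ u ∈ T, pp N W 0 u < κ) : (T.card : ℝ) ≤ 12 * L * κ * N := by
  have hM : 1 ≤ L * κ * N := by
    have : L * κ * N = L * (κ * N) := by ring
    rw [this]
    exact one_le_mul_of_one_le_of_one_le hL hκN
  have hsub : T ⊆ (Finset.Icc (-(N : ℤ)) (-(N : ℤ) + ⌊L * κ * N⌋) ∪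
      Finset.Icc ((N : ℤ) - ⌊L * κ * N⌋) N).disjSum (Finset.Icc (0 : ℤ) ⌊L * κ * N⌋ ∪
      Finset.Icc (2 * (N : ℤ) - 1 - ⌊L * κ * N⌋) (2 * N)) := by
    intro u hu
    have h1 := hT hu
    have h2 := hb u hu
    unfold gd at h1
    cases u with
    | inl s =>
      rw [Finset.inl_mem_disjSum] at h1 ⊢
      rw [pp_inl h] at h2
      exact bad_diff hL h hκN h1 h2
    | inr s =>
      rw [Finset.inr_mem_disjSum] at h1 ⊢
      rw [pp_inr h] at h2
      exact bad_sum hL h hκN h1 h2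
  have hfl : 0 ≤ ⌊L * κ * N⌋ := Int.floor_nonneg.2 (by linarith)
  have hc := Finset.card_le_card hsub
  rw [Finset.card_disjSum] at hc
  have c1 := Finset.card_union_le (Finset.Icc (-(N : ℤ)) (-(N : ℤ) + ⌊L * κ * N⌋))
    (Finset.Icc ((N : ℤ) - ⌊L * κ * N⌋) N)
  have c2 := Finset.card_union_le (Finset.Icc (0 : ℤ) ⌊L * κ * N⌋)
    (Finset.Icc (2 * (N : ℤ) - 1 - ⌊L * κ * N⌋) (2 * N))
  rw [Int.card_Icc, Int.card_Icc] at c1 c2
  have c3 : (T.card : ℤ) ≤ 4 * ⌊L * κ * N⌋ + 5 := by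
    omega
  have c4 : (T.card : ℝ) ≤ 4 * (⌊L * κ * N⌋ : ℝ) + 5 := by exact_mod_cast c3
  have c5 := Int.floor_le (L * κ * N)
  have : 12 * L * κ * N = 12 * (L * κ * N) := by ring
  rw [this]
  linarith

theorem cap_le {L : ℝ} (hL : 1 ≤ L) {N : ℕ} {W : ℤ × ℤ → ℝ} {A B : ℤ → ℝ} (h : Rf L N W A B) {κ : ℝ}
    (hκ : 0 < κ) (hκ1 : κ ≤ 1 / 2) (hκN : 1 ≤ κ * N) (U : Finset (ℤ ⊕ ℤ)) :
    ∏ u ∈ gd N \ U, (1 - pp N W 0 u) ≤
      Real.exp (24 * L * κ ^ 2 * N) * ∏ u ∈ gd N \ U, (1 - pp N W κ u) := by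
  classical
  have hpt : ∀ u ∈ gd N \ U, (1 - pp N W 0 u) ≤
      (if pp N W 0 u < κ then Real.exp (2 * κ) else 1) * (1 - pp N W κ u) := by
    intro u _
    rw [pp_eq h κ u]
    have h0 : 0 ≤ pp N W 0 u := by
      cases u with
      | inl s => rw [pp_inl h]; exact dsum_nn h 3 s
      | inr s => rw [pp_inr h]; exact dsum_nn h 2 s
    split_ifs with hc
    · rw [max_eq_right hc.le]
      have h1 : 2 * κ + 1 ≤ Real.exp (2 * κ) := Real.add_one_le_exp _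
      have h2 : 0 ≤ 1 - κ := by linarith
      have h3 := mul_le_mul_of_nonneg_right h1 h2
      nlinarith
    · push Not at hc
      rw [max_eq_left hc, one_mul]
  have hprod : ∏ u ∈ gd N \ U, (1 - pp N W 0 u) ≤
      ∏ u ∈ gd N \ U, ((if pp N W 0 u < κ then Real.exp (2 * κ) else 1) * (1 - pp N W κ u)) :=
    Finset.prod_le_prod (fun u _ => by linarith [pp_lt hL h u]) hpt
  rw [Finset.prod_mul_distrib] at hprod
  refine hprod.trans ?_
  have hκp : 0 ≤ ∏ u ∈ gd N \ U, (1 - pp N W κ u) := by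
    refine Finset.prod_nonneg (fun u _ => ?_)
    rw [pp_eq h κ u]
    have := pp_lt hL h u
    have : max (pp N W 0 u) κ ≤ 1 := max_le this.le (by linarith)
    linarith
  refine mul_le_mul_of_nonneg_right ?_ hκp
  rw [Finset.prod_ite, Finset.prod_const_one, mul_one, Finset.prod_const, ← Real.exp_nat_mul]
  refine Real.exp_le_exp.2 ?_
  have hcard := bad_card hL h hκN ((gd N \ U).filter (fun u => pp N W 0 u < κ))
    ((Finset.filter_subset _ _).trans Finset.sdiff_subset)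
    (fun u hu => (Finset.mem_filter.1 hu).2)
  have := mul_le_mul_of_nonneg_right hcard (show 0 ≤ 2 * κ by linarith)
  refine this.trans (le_of_eq ?_)
  ring

private theorem prod_Ico (f : ℤ → ℝ) (m : ℕ) :
    ∏ x ∈ Finset.Ico (0 : ℤ) m, f x = ∏ b : Fin m, f ((b : ℕ) : ℤ) := by
  rw [Fin.prod_univ_eq_prod_range (fun i : ℕ => f (i : ℤ)) m]
  refine (Finset.prod_nbij (fun i : ℕ => (i : ℤ)) ?_ ?_ ?_ ?_).symm
  · intro a ha
    rw [Finset.mem_range] at ha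
    rw [Finset.mem_Ico]
    omega
  · intro a _ b _ hab
    simp only at hab
    exact_mod_cast hab
  · intro x hx
    rw [Finset.mem_coe, Finset.mem_Ico] at hx
    refine ⟨x.toNat, ?_, ?_⟩
    · rw [Finset.mem_coe, Finset.mem_range]
      omega
    · simp only
      omega
  · intro a _
    rfl

private theorem prod_gd {L : ℝ} {N : ℕ} {W : ℤ × ℤ → ℝ} {A B : ℤ → ℝ}
    (h : Rf L N W A B) : ∏ u ∈ gd N, (1 - pp N W 0 u) =
      (∏ s ∈ Finset.Ioo (-(N : ℤ)) N, hD N W s) * ∏ s ∈ Finset.Ico (0 : ℤ) (2 * N), hS N W s := by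
  unfold gd
  rw [Finset.prod_disjSum]
  congr 1
  · have : ∀ s ∈ Finset.Icc (-(N : ℤ)) N, 1 - pp N W 0 (Sum.inl s) = hD N W s := by
      intro s _
      rw [pp_inl h]
      rfl
    rw [Finset.prod_congr rfl this]
    refine (Finset.prod_subset (fun s hs => ?_) (fun s hs hs' => ?_)).symm
    · rw [Finset.mem_Ioo] at hs
      rw [Finset.mem_Icc]
      omega
    · rw [Finset.mem_Icc] at hs
      rw [Finset.mem_Ioo] at hs'
      have : dsum N W 3 s = 0 := by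
        unfold dsum
        refine Finset.sum_eq_zero (fun e he => ?_)
        exfalso
        rw [Finset.mem_filter, Pool.Agent.NQ.mem_board, Pool.Agent.NQ.ln_three] at he
        omega
      unfold hD
      rw [this, sub_zero]
  · have : ∀ s ∈ Finset.Icc (0 : ℤ) (2 * N), 1 - pp N W 0 (Sum.inr s) = hS N W s := by
      intro s _
      rw [pp_inr h]
      rfl
    rw [Finset.prod_congr rfl this]
    refine (Finset.prod_subset (fun s hs => ?_) (fun s hs hs' => ?_)).symm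
    · rw [Finset.mem_Ico] at hs
      rw [Finset.mem_Icc]
      omega
    · rw [Finset.mem_Icc] at hs
      rw [Finset.mem_Ico] at hs'
      have : dsum N W 2 s = 0 := by
        unfold dsum
        refine Finset.sum_eq_zero (fun e he => ?_)
        exfalso
        rw [Finset.mem_filter, Pool.Agent.NQ.mem_board, Pool.Agent.NQ.ln_two] at he
        omega
      unfold hS
      rw [this, sub_zero]

private theorem exp_neg_sum_log {s : Finset ℤ} {f : ℤ → ℝ} (hf : ∀ x ∈ s, 0 < f x) :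
    Real.exp (- ∑ x ∈ s, Real.log (f x)) = (∏ x ∈ s, f x)⁻¹ := by
  rw [Real.exp_neg, Real.exp_sum]
  congr 1
  exact Finset.prod_congr rfl (fun x hx => Real.exp_log (hf x hx))

theorem const_le {L : ℝ} (hL : 1 ≤ L) {n : ℕ} {W : ℤ × ℤ → ℝ} {A B : ℤ → ℝ} (h : Rf L (n + 1) W A B) :
    (∑ b : Fin (n + 1), B (cl b)) * ((∏ i : Fin n, A (ro i)) * (∏ b : Fin (n + 1), B (cl b)) *
        ∏ u ∈ gd (n + 1), (1 - pp (n + 1) W 0 u))⁻¹ * Real.exp (-(3 * (n : ℝ))) ≤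
      Real.exp 3 * L ^ 2 * Real.exp (F (n + 1) W - (n + 1)) := by
  have hL0 : 0 < L := by linarith
  have hsq : 0 < Real.sqrt ((n + 1 : ℕ) : ℝ) := Real.sqrt_pos.2 (by positivity)
  have hA : ∀ x : ℤ, 0 ≤ x → x < ((n + 1 : ℕ) : ℤ) → 0 < A x := fun x h0 h1 =>
    lt_of_lt_of_le (by positivity) (h.A1 x h0 h1)
  have hB : ∀ x : ℤ, 0 ≤ x → x < ((n + 1 : ℕ) : ℤ) → 0 < B x := fun x h0 h1 =>
    lt_of_lt_of_le (by positivity) (h.B1 x h0 h1)
  have hS0 : ∀ s, 0 < hS (n + 1) W s := fun s => lt_of_lt_of_le (by positivity) (h.bd.sd s)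
  have hD0 : ∀ s, 0 < hD (n + 1) W s := fun s => lt_of_lt_of_le (by positivity) (h.bd.dd s)
  have hval := h.val
  have hPA : ∏ x ∈ Finset.Ico (0 : ℤ) ((n + 1 : ℕ) : ℤ), A x = A 0 * ∏ i : Fin n, A (ro i) := by
    rw [prod_Ico, Fin.prod_univ_succ]
    congr 1
  have hPB : ∏ x ∈ Finset.Ico (0 : ℤ) ((n + 1 : ℕ) : ℤ), B x = ∏ b : Fin (n + 1), B (cl b) := by
    rw [prod_Ico]
    rfl
  have hexp : Real.exp (F (n + 1) W - (n + 1)) =
      (A 0 * ∏ i : Fin n, A (ro i))⁻¹ * (∏ b : Fin (n + 1), B (cl b))⁻¹ *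
        (∏ s ∈ Finset.Ico (0 : ℤ) (2 * ((n + 1 : ℕ) : ℤ)), hS (n + 1) W s)⁻¹ *
        (∏ s ∈ Finset.Ioo (-((n + 1 : ℕ) : ℤ)) ((n + 1 : ℕ) : ℤ), hD (n + 1) W s)⁻¹ *
        Real.exp (-(3 * ((n : ℝ) + 1))) := by
    rw [← hPA, ← hPB, ← exp_neg_sum_log (s := Finset.Ico (0 : ℤ) ((n + 1 : ℕ) : ℤ)) (f := A)
        (fun x hx => hA x (Finset.mem_Ico.1 hx).1 (Finset.mem_Ico.1 hx).2),
      ← exp_neg_sum_log (s := Finset.Ico (0 : ℤ) ((n + 1 : ℕ) : ℤ)) (f := B)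
        (fun x hx => hB x (Finset.mem_Ico.1 hx).1 (Finset.mem_Ico.1 hx).2),
      ← exp_neg_sum_log (fun x _ => hS0 x), ← exp_neg_sum_log (fun x _ => hD0 x),
      ← Real.exp_add, ← Real.exp_add, ← Real.exp_add, ← Real.exp_add]
    congr 1
    have e1 : F (n + 1) W - ((n : ℝ) + 1) = F (n + 1) W - ((n + 1 : ℕ) : ℝ) := by push_cast; ring
    rw [e1, hval]
    push_cast
    ring_nf
  have hA0 : 0 < A 0 := hA 0 le_rfl (by positivity)
  have hPA0 : 0 < ∏ i : Fin n, A (ro i) := by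
    refine Finset.prod_pos (fun i _ => hA _ ?_ ?_)
    · unfold ro; positivity
    · unfold ro
      have := i.2
      push_cast
      omega
  have hcl : ∀ b : Fin (n + 1), 0 ≤ cl b ∧ cl b < ((n + 1 : ℕ) : ℤ) := by
    intro b
    unfold cl
    have := b.2
    omega
  have hPB0 : 0 < ∏ b : Fin (n + 1), B (cl b) :=
    Finset.prod_pos (fun b _ => hB _ (hcl b).1 (hcl b).2)
  have hsum : A 0 * ∑ b : Fin (n + 1), B (cl b) ≤ L ^ 2 := by
    have h1 : ∑ b : Fin (n + 1), B (cl b) ≤ ∑ _b : Fin (n + 1), L / Real.sqrt ((n + 1 : ℕ) : ℝ) :=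
      Finset.sum_le_sum (fun b _ => h.B2 _ (hcl b).1 (hcl b).2)
    rw [Finset.sum_const, Finset.card_univ, Fintype.card_fin, nsmul_eq_mul] at h1
    have h2 := h.A2 0 le_rfl (by positivity)
    have h3 : 0 ≤ ∑ b : Fin (n + 1), B (cl b) :=
      Finset.sum_nonneg (fun b _ => (hB _ (hcl b).1 (hcl b).2).le)
    calc A 0 * ∑ b : Fin (n + 1), B (cl b)
        ≤ (L / Real.sqrt ((n + 1 : ℕ) : ℝ)) *
          (((n + 1 : ℕ) : ℝ) * (L / Real.sqrt ((n + 1 : ℕ) : ℝ))) :=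
          mul_le_mul h2 h1 h3 (by positivity)
      _ = L ^ 2 * (((n + 1 : ℕ) : ℝ) / (Real.sqrt ((n + 1 : ℕ) : ℝ) * Real.sqrt ((n + 1 : ℕ) : ℝ))) := by
          field_simp
      _ = L ^ 2 := by
          rw [Real.mul_self_sqrt (by positivity), div_self (by positivity), mul_one]
  rw [prod_gd h, hexp]
  have hPS : 0 < ∏ s ∈ Finset.Ico (0 : ℤ) (2 * ((n + 1 : ℕ) : ℤ)), hS (n + 1) W s :=
    Finset.prod_pos (fun s _ => hS0 s)
  have hPD : 0 < ∏ s ∈ Finset.Ioo (-((n + 1 : ℕ) : ℤ)) ((n + 1 : ℕ) : ℤ), hD (n + 1) W s :=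
    Finset.prod_pos (fun s _ => hD0 s)
  have e3 : Real.exp (-(3 * (n : ℝ))) = Real.exp 3 * Real.exp (-(3 * ((n : ℝ) + 1))) := by
    rw [← Real.exp_add]
    congr 1
    ring
  rw [e3]
  generalize (∏ s ∈ Finset.Ico (0 : ℤ) (2 * ((n + 1 : ℕ) : ℤ)), hS (n + 1) W s) = PS at hPS ⊢
  generalize (∏ s ∈ Finset.Ioo (-((n + 1 : ℕ) : ℤ)) ((n + 1 : ℕ) : ℤ), hD (n + 1) W s) = PD at hPD ⊢
  generalize (∏ i : Fin n, A (ro i)) = PA at hPA0 ⊢
  generalize (∏ b : Fin (n + 1), B (cl b)) = PB at hPB0 ⊢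
  have hE1 : 0 < Real.exp (-(3 * ((n : ℝ) + 1))) := Real.exp_pos _
  have hE3 : 0 < Real.exp (3 : ℝ) := Real.exp_pos _
  generalize Real.exp (-(3 * ((n : ℝ) + 1))) = E1 at hE1 ⊢
  generalize Real.exp (3 : ℝ) = E3 at hE3 ⊢
  generalize (∑ b : Fin (n + 1), B (cl b)) = S at hsum ⊢
  have hS' : S ≤ L ^ 2 * (A 0)⁻¹ := by
    rw [← div_eq_mul_inv, le_div_iff₀ hA0]
    linarith
  have hc : 0 ≤ (PA * PB * (PD * PS))⁻¹ * (E3 * E1) := by positivity
  have := mul_le_mul_of_nonneg_right hS' hc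
  calc S * (PA * PB * (PD * PS))⁻¹ * (E3 * E1) = S * ((PA * PB * (PD * PS))⁻¹ * (E3 * E1)) := by ring
    _ ≤ L ^ 2 * (A 0)⁻¹ * ((PA * PB * (PD * PS))⁻¹ * (E3 * E1)) := this
    _ = E3 * L ^ 2 * ((A 0 * PA)⁻¹ * PB⁻¹ * PS⁻¹ * PD⁻¹ * E1) := by
        rw [mul_inv, mul_inv, mul_inv, mul_inv]
        ring

end Pool.Agent.NQR
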