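import Pool.Agent.NQR.Defs
import Pool.Agent.NQR.BMcd
import Pool.Agent.NQR.GStr

/-!
# NQR-TExp: expectation of the main statistic

PLAN. `N = n + 1`, `κ = z^(-4)`, `κ0 = 1/z`, Bernoulli measure with parameters `pp N W κ` on the subsets of `gd N`. For a main square
`(k,b)`: `om * P Q = W` where `P, Q` are the parameters of its two diagonals (`κ < κ0`), `om ≤ L z²/N`. Expectation of
`[Oc (k,b)] [Fr (k,a)] [Fr (r,b)]`: if the three difference diagonals `k-b, k-a, r-b` are distinct and the three sum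
diagonals `k+b, k+a, r+b` are distinct, it is (`bern_prod`) the product `P Q (1-P_{k-a})(1-Q_{k+a})(1-P_{r-b})(1-Q_{r+b})`
(all indices belong to `gd N` because `0 ≤ r ≤ n`). Not distinct: `b = a` (then the indicator vanishes), `k = r`, `k - a = r - b`,
`k + a = r + b`: at most `3 N + N` pairs `(k,b)`, each contributes `≤ om ≤ L z²/N` to the expectation, and its reference term
`W ≤ L/N`: total error `≤ 8 L z²`. Replacing `P = max p κ` by `p` in the factors `1 - P` changes each product by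
`≤ κ` per factor: total `≤ 4 κ N` (`∑ W ≤ N`). The squares that are not main: `∑ W ≤ C N/z²`: `p_s < κ0` forces
`N - |s| ≤ L κ0 N` (`dsum 3 s ≥ (N - |s|)/(L N)`), so at most `8 (L κ0 N + 1)²` squares, each `W ≤ L/N`. Sum: `≤ C N/z²`
(`z² ≤ N/z²`). For `r = none` there is no mask.
-/

set_option autoImplicit false

open Finset

namespace Pool.Agent.NQR

open Pool.Agent.NQ (board dsum F Ent Dg phi ln Q Qset st cellD bern)

/-! ### counting -/

private theorem te_one {m : ℕ} (f : Fin m → ℤ) (hf : Function.Injective f) (c : ℤ) :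
    ∑ b : Fin m, (if f b = c then (1 : ℝ) else 0) ≤ 1 := by
  rw [Finset.sum_boole]
  have h : (univ.filter (fun b => f b = c)).card ≤ 1 := by
    rw [Finset.card_le_one]
    intro a ha b hb
    rw [mem_filter] at ha hb
    exact hf (ha.2.trans hb.2.symm)
  exact_mod_cast h

private theorem te_cl {n : ℕ} : Function.Injective (cl (n := n)) := by
  intro a b h
  unfold cl at h
  exact Fin.ext (by exact_mod_cast h)

private theorem te_ro {n : ℕ} : Function.Injective (ro (n := n)) := by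
  intro a b h
  unfold ro at h
  exact Fin.ext (by omega)

private theorem te_mem {n : ℕ} (k : Fin n) (b : Fin (n + 1)) : (ro k, cl b) ∈ board (n + 1) := by
  unfold board ro cl
  rw [mem_product, mem_Ico, mem_Ico]
  have h1 := k.2
  have h2 := b.2
  push_cast
  refine ⟨⟨?_, ?_⟩, ?_, ?_⟩ <;> omega

private theorem te_board {n : ℕ} (f : ℤ × ℤ → ℝ) (hf : ∀ e ∈ board (n + 1), 0 ≤ f e) :
    ∑ k : Fin n, ∑ b : Fin (n + 1), f (ro k, cl b) ≤ ∑ e ∈ board (n + 1), f e := by
  classical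
  rw [← Finset.sum_product']
  have hinj : Set.InjOn (fun p : Fin n × Fin (n + 1) => (ro p.1, cl p.2))
      ((univ ×ˢ univ : Finset (Fin n × Fin (n + 1))) : Set (Fin n × Fin (n + 1))) := by
    intro p _ q _ h
    rw [Prod.mk.injEq] at h
    exact Prod.ext (te_ro h.1) (te_cl h.2)
  rw [← Finset.sum_image (f := f) hinj]
  refine Finset.sum_le_sum_of_subset_of_nonneg ?_ (fun e he _ => hf e he)
  intro e he
  obtain ⟨p, _, rfl⟩ := mem_image.1 he
  exact te_mem p.1 p.2

private theorem te_mass {N : ℕ} {W : ℤ × ℤ → ℝ} (h : Adm N W) : ∑ e ∈ board N, W e = N := by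
  have h1 := Finset.sum_fiberwise_of_maps_to (s := board N) (t := Finset.Ico (0 : ℤ) N)
    (g := fun e : ℤ × ℤ => e.1) (fun e he => (mem_product.1 he).1) W
  rw [← h1]
  have h2 : ∀ x ∈ Finset.Ico (0 : ℤ) N, ∑ e ∈ (board N).filter (fun e => e.1 = x), W e = 1 := by
    intro x hx
    rw [mem_Ico] at hx
    exact h.row x hx.1 hx.2
  rw [Finset.sum_congr rfl h2]
  simp

/-- the mass of the short difference diagonals -/
private theorem te_low3 {L : ℝ} (hL : 1 ≤ L) {N : ℕ} (hN : 0 < N) {W : ℤ × ℤ → ℝ}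
    (hb : Bd L N W) (ha : Adm N W) {s : ℤ} (hs : s ∈ Finset.Ioo (-(N : ℤ)) N) :
    ((N : ℝ) - |(s : ℝ)|) / (L * N) ≤ dsum N W 3 s := by
  classical
  rw [mem_Ioo] at hs
  set I : Finset ℤ := Finset.Ico (max 0 s) (min N (N + s)) with hI
  have hinj : Set.InjOn (fun i : ℤ => (i, i - s)) (I : Set ℤ) := by
    intro i _ j _ h
    exact (Prod.mk.injEq _ _ _ _ ▸ h).1
  have hsub : I.image (fun i : ℤ => (i, i - s)) ⊆ (board N).filter (fun e => ln 3 e = s) := by
    intro e he
    obtain ⟨i, hi, rfl⟩ := mem_image.1 he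
    rw [hI, mem_Ico] at hi
    rw [mem_filter]
    unfold board
    rw [mem_product, mem_Ico, mem_Ico]
    refine ⟨⟨⟨?_, ?_⟩, ?_, ?_⟩, ?_⟩
    · exact (le_max_left _ _).trans hi.1
    · exact hi.2.trans_le (min_le_left _ _)
    · show 0 ≤ i - s
      have := (le_max_right 0 s).trans hi.1
      omega
    · show i - s < N
      have := hi.2.trans_le (min_le_right _ _)
      omega
    · show i - (i - s) = s
      omega
  have h1 : ∑ e ∈ I.image (fun i : ℤ => (i, i - s)), W e ≤ dsum N W 3 s :=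
    Finset.sum_le_sum_of_subset_of_nonneg hsub fun e _ _ => ha.nn e
  rw [Finset.sum_image hinj] at h1
  have h2 : ∀ i ∈ I, 1 / (L * N) ≤ W (i, i - s) := by
    intro i hi
    have h3 := hsub (mem_image_of_mem _ hi)
    exact hb.lo _ (mem_filter.1 h3).1
  have h3 := Finset.card_nsmul_le_sum I (fun i => W (i, i - s)) _ h2
  rw [nsmul_eq_mul] at h3
  have h4 : (N : ℝ) - |(s : ℝ)| ≤ (I.card : ℝ) := by
    rw [hI, Int.card_Ico]
    have h5 : (N : ℤ) - |s| ≤ ((min (N : ℤ) (N + s) - max 0 s).toNat : ℤ) := by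
      rcases le_total 0 s with h | h
      · rw [abs_of_nonneg h, max_eq_right h, min_eq_left (by omega)]
        omega
      · rw [abs_of_nonpos h, max_eq_left h, min_eq_right (by omega)]
        omega
    have h6 : ((N : ℤ) - |s| : ℤ) ≤ (((min (N : ℤ) (N + s) - max 0 s).toNat : ℤ)) := h5
    have h7 : (((N : ℤ) - |s| : ℤ) : ℝ) ≤ ((((min (N : ℤ) (N + s) - max 0 s).toNat : ℕ) : ℤ) : ℝ) := by
      exact_mod_cast h6
    push_cast at h7
    exact h7
  have hN0 : (0 : ℝ) < N := by exact_mod_cast hN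
  have hLN : 0 < L * N := by positivity
  calc ((N : ℝ) - |(s : ℝ)|) / (L * N) ≤ (I.card : ℝ) / (L * N) :=
        div_le_div_of_nonneg_right h4 hLN.le
    _ = (I.card : ℝ) * (1 / (L * N)) := by ring
    _ ≤ dsum N W 3 s := h3.trans h1

/-- the mass of the short sum diagonals -/
private theorem te_low2 {L : ℝ} (hL : 1 ≤ L) {N : ℕ} (hN : 0 < N) {W : ℤ × ℤ → ℝ}
    (hb : Bd L N W) (ha : Adm N W) {s : ℤ} (hs : s ∈ Finset.Ico (0 : ℤ) (2 * N - 1)) :
    min ((s : ℝ) + 1) (2 * N - 1 - s) / (L * N) ≤ dsum N W 2 s := by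
  classical
  rw [mem_Ico] at hs
  set I : Finset ℤ := Finset.Ico (max 0 (s - N + 1)) (min N (s + 1)) with hI
  have hinj : Set.InjOn (fun i : ℤ => (i, s - i)) (I : Set ℤ) := by
    intro i _ j _ h
    exact (Prod.mk.injEq _ _ _ _ ▸ h).1
  have hsub : I.image (fun i : ℤ => (i, s - i)) ⊆ (board N).filter (fun e => ln 2 e = s) := by
    intro e he
    obtain ⟨i, hi, rfl⟩ := mem_image.1 he
    rw [hI, mem_Ico] at hi
    rw [mem_filter]
    unfold board
    rw [mem_product, mem_Ico, mem_Ico]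
    refine ⟨⟨⟨?_, ?_⟩, ?_, ?_⟩, ?_⟩
    · exact (le_max_left _ _).trans hi.1
    · exact hi.2.trans_le (min_le_left _ _)
    · show 0 ≤ s - i
      have := hi.2.trans_le (min_le_right _ _)
      omega
    · show s - i < N
      have := (le_max_right 0 (s - N + 1)).trans hi.1
      omega
    · show i + (s - i) = s
      omega
  have h1 : ∑ e ∈ I.image (fun i : ℤ => (i, s - i)), W e ≤ dsum N W 2 s :=
    Finset.sum_le_sum_of_subset_of_nonneg hsub fun e _ _ => ha.nn e
  rw [Finset.sum_image hinj] at h1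
  have h2 : ∀ i ∈ I, 1 / (L * N) ≤ W (i, s - i) := by
    intro i hi
    have h3 := hsub (mem_image_of_mem _ hi)
    exact hb.lo _ (mem_filter.1 h3).1
  have h3 := Finset.card_nsmul_le_sum I (fun i => W (i, s - i)) _ h2
  rw [nsmul_eq_mul] at h3
  have h4 : min ((s : ℝ) + 1) (2 * N - 1 - s) ≤ (I.card : ℝ) := by
    rw [hI, Int.card_Ico]
    have h5 : min (s + 1) (2 * (N : ℤ) - 1 - s) ≤
        ((min (N : ℤ) (s + 1) - max 0 (s - N + 1)).toNat : ℤ) := by
      rcases le_total (s - N + 1) 0 with h | h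
      · rw [max_eq_left h, min_eq_right (b := s + 1) (by omega)]
        have := min_le_left (s + 1) (2 * (N : ℤ) - 1 - s)
        omega
      · rw [max_eq_right h]
        have := min_le_right (s + 1) (2 * (N : ℤ) - 1 - s)
        have h8 : min (N : ℤ) (s + 1) = N := min_eq_left (by omega)
        rw [h8]
        omega
    have h7 : ((min (s + 1) (2 * (N : ℤ) - 1 - s) : ℤ) : ℝ) ≤
        ((((min (N : ℤ) (s + 1) - max 0 (s - N + 1)).toNat : ℕ) : ℤ) : ℝ) := by
      exact_mod_cast h5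
    push_cast at h7
    exact h7
  have hN0 : (0 : ℝ) < N := by exact_mod_cast hN
  have hLN : 0 < L * N := by positivity
  calc min ((s : ℝ) + 1) (2 * N - 1 - s) / (L * N) ≤ (I.card : ℝ) / (L * N) :=
        div_le_div_of_nonneg_right h4 hLN.le
    _ = (I.card : ℝ) * (1 / (L * N)) := by ring
    _ ≤ dsum N W 2 s := h3.trans h1

private theorem te_short3 {L : ℝ} (hL : 1 ≤ L) {N : ℕ} (hN : 0 < N) {W : ℤ × ℤ → ℝ}
    (hb : Bd L N W) (ha : Adm N W) {κ0 : ℝ} (hκ : 0 < κ0) :
    ∑ e ∈ board N, (if dsum N W 3 (e.1 - e.2) < κ0 then W e else 0) ≤ 2 * L * κ0 ^ 2 * N := by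
  classical
  have hN0 : (0 : ℝ) < N := by exact_mod_cast hN
  have hLN : 0 < L * N := by positivity
  have h1 := Finset.sum_fiberwise_of_maps_to (s := board N) (t := Finset.Ioo (-(N : ℤ)) N)
    (g := fun e : ℤ × ℤ => ln 3 e) (fun e he => by
      unfold board at he
      rw [mem_product, mem_Ico, mem_Ico] at he
      rw [mem_Ioo]
      show -(N : ℤ) < e.1 - e.2 ∧ e.1 - e.2 < N
      omega) (fun e => if dsum N W 3 (e.1 - e.2) < κ0 then W e else 0)
  rw [← h1]
  have h2 : ∀ s ∈ Finset.Ioo (-(N : ℤ)) N, ∑ e ∈ (board N).filter (fun e => ln 3 e = s),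
      (if dsum N W 3 (e.1 - e.2) < κ0 then W e else 0) =
      if dsum N W 3 s < κ0 then dsum N W 3 s else 0 := by
    intro s _
    have h3 : ∀ e ∈ (board N).filter (fun e => ln 3 e = s),
        (if dsum N W 3 (e.1 - e.2) < κ0 then W e else 0) = if dsum N W 3 s < κ0 then W e else 0 := by
      intro e he
      have h4 : e.1 - e.2 = s := (mem_filter.1 he).2
      rw [h4]
    rw [Finset.sum_congr rfl h3]
    split_ifs
    · rfl
    · simp
  rw [Finset.sum_congr rfl h2, ← Finset.sum_filter]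
  have h3 : ∑ s ∈ (Finset.Ioo (-(N : ℤ)) N).filter (fun s => dsum N W 3 s < κ0), dsum N W 3 s ≤
      ∑ s ∈ (Finset.Ioo (-(N : ℤ)) N).filter (fun s => dsum N W 3 s < κ0), κ0 :=
    Finset.sum_le_sum fun s hs => (mem_filter.1 hs).2.le
  refine h3.trans ?_
  rw [Finset.sum_const, nsmul_eq_mul]
  set T : ℝ := κ0 * (L * N) with hT
  have hT0 : 0 < T := by positivity
  have hsub : (Finset.Ioo (-(N : ℤ)) N).filter (fun s => dsum N W 3 s < κ0) ⊆
      Finset.Ioo (-(N : ℤ)) (-(N : ℤ) + ⌈T⌉) ∪ Finset.Ioo ((N : ℤ) - ⌈T⌉) N := by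
    intro s hs
    rw [mem_filter] at hs
    have h4 := te_low3 hL hN hb ha hs.1
    have h5 : (N : ℝ) - |(s : ℝ)| < T := by
      have h6 := h4.trans_lt hs.2
      rwa [div_lt_iff₀ hLN] at h6
    have h7 : ((N : ℤ) - |s| : ℤ) < ⌈T⌉ := by
      rw [Int.lt_ceil]
      push_cast
      exact h5
    have h8 := mem_Ioo.1 hs.1
    rw [mem_union, mem_Ioo, mem_Ioo]
    rcases le_total 0 s with h | h
    · right
      rw [abs_of_nonneg h] at h7
      omega
    · left
      rw [abs_of_nonpos h] at h7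
      omega
  have hcard : (((Finset.Ioo (-(N : ℤ)) N).filter (fun s => dsum N W 3 s < κ0)).card : ℝ) ≤
      2 * T := by
    have h4 := (Finset.card_le_card hsub).trans (Finset.card_union_le _ _)
    rw [Int.card_Ioo, Int.card_Ioo] at h4
    have h5 : (-(N : ℤ) + ⌈T⌉ - -(N : ℤ) - 1).toNat = (⌈T⌉ - 1).toNat := by congr 1; omega
    have h6 : ((N : ℤ) - ((N : ℤ) - ⌈T⌉) - 1).toNat = (⌈T⌉ - 1).toNat := by congr 1; omega
    rw [h5, h6] at h4
    have h7 : (((⌈T⌉ - 1).toNat : ℕ) : ℝ) ≤ T := by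
      have h8 : 0 < ⌈T⌉ := Int.ceil_pos.2 hT0
      have h9 : (((⌈T⌉ - 1).toNat : ℕ) : ℤ) = ⌈T⌉ - 1 := Int.toNat_of_nonneg (by omega)
      have h10 : (((⌈T⌉ - 1).toNat : ℕ) : ℝ) = (⌈T⌉ : ℝ) - 1 := by
        exact_mod_cast h9
      rw [h10]
      have := Int.ceil_lt_add_one T
      linarith
    have h8 : (((Finset.Ioo (-(N : ℤ)) N).filter (fun s => dsum N W 3 s < κ0)).card : ℝ) ≤
        (((⌈T⌉ - 1).toNat + (⌈T⌉ - 1).toNat : ℕ) : ℝ) := by exact_mod_cast h4
    push_cast at h8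
    linarith
  calc (((Finset.Ioo (-(N : ℤ)) N).filter (fun s => dsum N W 3 s < κ0)).card : ℝ) * κ0
      ≤ 2 * T * κ0 := mul_le_mul_of_nonneg_right hcard hκ.le
    _ = 2 * L * κ0 ^ 2 * N := by rw [hT]; ring

private theorem te_short2 {L : ℝ} (hL : 1 ≤ L) {N : ℕ} (hN : 0 < N) {W : ℤ × ℤ → ℝ}
    (hb : Bd L N W) (ha : Adm N W) {κ0 : ℝ} (hκ : 0 < κ0) :
    ∑ e ∈ board N, (if dsum N W 2 (e.1 + e.2) < κ0 then W e else 0) ≤ 2 * L * κ0 ^ 2 * N := by
  classical
  have hN0 : (0 : ℝ) < N := by exact_mod_cast hN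
  have hLN : 0 < L * N := by positivity
  have h1 := Finset.sum_fiberwise_of_maps_to (s := board N) (t := Finset.Ico (0 : ℤ) (2 * N - 1))
    (g := fun e : ℤ × ℤ => ln 2 e) (fun e he => by
      unfold board at he
      rw [mem_product, mem_Ico, mem_Ico] at he
      rw [mem_Ico]
      show (0 : ℤ) ≤ e.1 + e.2 ∧ e.1 + e.2 < 2 * N - 1
      omega) (fun e => if dsum N W 2 (e.1 + e.2) < κ0 then W e else 0)
  rw [← h1]
  have h2 : ∀ s ∈ Finset.Ico (0 : ℤ) (2 * N - 1), ∑ e ∈ (board N).filter (fun e => ln 2 e = s),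
      (if dsum N W 2 (e.1 + e.2) < κ0 then W e else 0) =
      if dsum N W 2 s < κ0 then dsum N W 2 s else 0 := by
    intro s _
    have h3 : ∀ e ∈ (board N).filter (fun e => ln 2 e = s),
        (if dsum N W 2 (e.1 + e.2) < κ0 then W e else 0) = if dsum N W 2 s < κ0 then W e else 0 := by
      intro e he
      have h4 : e.1 + e.2 = s := (mem_filter.1 he).2
      rw [h4]
    rw [Finset.sum_congr rfl h3]
    split_ifs
    · rfl
    · simp
  rw [Finset.sum_congr rfl h2, ← Finset.sum_filter]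
  have h3 : ∑ s ∈ (Finset.Ico (0 : ℤ) (2 * N - 1)).filter (fun s => dsum N W 2 s < κ0),
      dsum N W 2 s ≤
      ∑ s ∈ (Finset.Ico (0 : ℤ) (2 * N - 1)).filter (fun s => dsum N W 2 s < κ0), κ0 :=
    Finset.sum_le_sum fun s hs => (mem_filter.1 hs).2.le
  refine h3.trans ?_
  rw [Finset.sum_const, nsmul_eq_mul]
  set T : ℝ := κ0 * (L * N) with hT
  have hT0 : 0 < T := by positivity
  have hsub : (Finset.Ico (0 : ℤ) (2 * N - 1)).filter (fun s => dsum N W 2 s < κ0) ⊆
      Finset.Ico (0 : ℤ) (⌈T⌉ - 1) ∪ Finset.Ico (2 * (N : ℤ) - ⌈T⌉) (2 * N - 1) := by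
    intro s hs
    rw [mem_filter] at hs
    have h4 := te_low2 hL hN hb ha hs.1
    have h5 : min ((s : ℝ) + 1) (2 * N - 1 - s) < T := by
      have h6 := h4.trans_lt hs.2
      rwa [div_lt_iff₀ hLN] at h6
    have h8 := mem_Ico.1 hs.1
    rw [mem_union, mem_Ico, mem_Ico]
    rcases min_lt_iff.1 h5 with h | h
    · left
      have h7 : (s + 1 : ℤ) < ⌈T⌉ := by
        rw [Int.lt_ceil]
        push_cast
        exact h
      omega
    · right
      have h7 : (2 * (N : ℤ) - 1 - s : ℤ) < ⌈T⌉ := by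
        rw [Int.lt_ceil]
        push_cast
        exact h
      omega
  have hcard : (((Finset.Ico (0 : ℤ) (2 * N - 1)).filter (fun s => dsum N W 2 s < κ0)).card : ℝ) ≤
      2 * T := by
    have h4 := (Finset.card_le_card hsub).trans (Finset.card_union_le _ _)
    rw [Int.card_Ico, Int.card_Ico] at h4
    have h5 : (⌈T⌉ - 1 - 0).toNat = (⌈T⌉ - 1).toNat := by congr 1; omega
    have h6 : (2 * (N : ℤ) - 1 - (2 * (N : ℤ) - ⌈T⌉)).toNat = (⌈T⌉ - 1).toNat := by congr 1; omega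
    rw [h5, h6] at h4
    have h7 : (((⌈T⌉ - 1).toNat : ℕ) : ℝ) ≤ T := by
      have h8 : 0 < ⌈T⌉ := Int.ceil_pos.2 hT0
      have h9 : (((⌈T⌉ - 1).toNat : ℕ) : ℤ) = ⌈T⌉ - 1 := Int.toNat_of_nonneg (by omega)
      have h10 : (((⌈T⌉ - 1).toNat : ℕ) : ℝ) = (⌈T⌉ : ℝ) - 1 := by
        exact_mod_cast h9
      rw [h10]
      have := Int.ceil_lt_add_one T
      linarith
    have h8 : (((Finset.Ico (0 : ℤ) (2 * N - 1)).filter (fun s => dsum N W 2 s < κ0)).card : ℝ) ≤
        (((⌈T⌉ - 1).toNat + (⌈T⌉ - 1).toNat : ℕ) : ℝ) := by exact_mod_cast h4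
    push_cast at h8
    linarith
  calc (((Finset.Ico (0 : ℤ) (2 * N - 1)).filter (fun s => dsum N W 2 s < κ0)).card : ℝ) * κ0
      ≤ 2 * T * κ0 := mul_le_mul_of_nonneg_right hcard hκ.le
    _ = 2 * L * κ0 ^ 2 * N := by rw [hT]; ring

private theorem te_p0 {N : ℕ} {W : ℤ × ℤ → ℝ} (ha : Adm N W) (k : Fin 4) (s : ℤ) : 0 ≤ dsum N W k s :=
  Finset.sum_nonneg fun e _ => ha.nn e

private theorem te_mul {a b c d : ℝ} (ha : 0 ≤ a) (ha' : a ≤ 1) (hd : 0 ≤ d) (hd' : d ≤ 1) :
    |a * b - c * d| ≤ |b - d| + |a - c| := by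
  have h1 : a * b - c * d = a * (b - d) + (a - c) * d := by ring
  rw [h1]
  refine (abs_add_le _ _).trans ?_
  rw [abs_mul, abs_mul, abs_of_nonneg ha, abs_of_nonneg hd]
  have h2 := mul_le_mul_of_nonneg_right ha' (abs_nonneg (b - d))
  have h3 := mul_le_mul_of_nonneg_left hd' (abs_nonneg (a - c))
  linarith

private theorem te_max {p κ : ℝ} (hp : 0 ≤ p) (hκ : 0 ≤ κ) : |(1 - max p κ) - (1 - p)| ≤ κ := by
  rcases le_total p κ with h | h
  · rw [max_eq_right h, abs_le]
    constructor <;> linarith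
  · rw [max_eq_left h, sub_self, abs_zero]
    exact hκ

/-- the product of the two free factors, with and without the truncation -/
private theorem te_free {N : ℕ} {W : ℤ × ℤ → ℝ} (ha : Adm N W) {κ : ℝ} (hκ : 0 < κ) (hκ1 : κ ≤ 1)
    (x y : ℤ) : 0 ≤ (1 - pp N W κ (Sum.inl (x - y))) * (1 - pp N W κ (Sum.inr (x + y))) ∧
      (1 - pp N W κ (Sum.inl (x - y))) * (1 - pp N W κ (Sum.inr (x + y))) ≤ 1 ∧
      0 ≤ hh N W x y ∧ hh N W x y ≤ 1 ∧
      |(1 - pp N W κ (Sum.inl (x - y))) * (1 - pp N W κ (Sum.inr (x + y))) - hh N W x y| ≤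
        2 * κ := by
  have hp0 := te_p0 ha 3 (x - y)
  have hp1 := ha.dd (x - y)
  have hq0 := te_p0 ha 2 (x + y)
  have hq1 := ha.sd (x + y)
  have hP1 : max (dsum N W 3 (x - y)) κ ≤ 1 := max_le hp1 hκ1
  have hQ1 : max (dsum N W 2 (x + y)) κ ≤ 1 := max_le hq1 hκ1
  have hP0 : 0 ≤ max (dsum N W 3 (x - y)) κ := hp0.trans (le_max_left _ _)
  have hQ0 : 0 ≤ max (dsum N W 2 (x + y)) κ := hq0.trans (le_max_left _ _)
  have e1 : hh N W x y = (1 - dsum N W 3 (x - y)) * (1 - dsum N W 2 (x + y)) := by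
    unfold hh hS hD
    ring
  rw [e1]
  show 0 ≤ (1 - max (dsum N W 3 (x - y)) κ) * (1 - max (dsum N W 2 (x + y)) κ) ∧
      (1 - max (dsum N W 3 (x - y)) κ) * (1 - max (dsum N W 2 (x + y)) κ) ≤ 1 ∧ _ ∧ _ ∧
      |(1 - max (dsum N W 3 (x - y)) κ) * (1 - max (dsum N W 2 (x + y)) κ) - _| ≤ _
  refine ⟨mul_nonneg (by linarith) (by linarith), mul_le_one₀ (by linarith) (by linarith) (by linarith),
    mul_nonneg (by linarith) (by linarith), mul_le_one₀ (by linarith) (by linarith) (by linarith), ?_⟩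
  refine (te_mul (by linarith) (by linarith) (by linarith) (by linarith)).trans ?_
  have h1 := te_max hp0 hκ.le
  have h2 := te_max hq0 hκ.le
  linarith

private theorem te_gl {N : ℕ} {x y : ℤ} (hx : 0 ≤ x ∧ x < N) (hy : 0 ≤ y ∧ y < N) :
    (Sum.inl (x - y) : ℤ ⊕ ℤ) ∈ gd N := by
  unfold gd
  rw [Finset.inl_mem_disjSum, mem_Icc]
  omega

private theorem te_gr {N : ℕ} {x y : ℤ} (hx : 0 ≤ x ∧ x < N) (hy : 0 ≤ y ∧ y < N) :
    (Sum.inr (x + y) : ℤ ⊕ ℤ) ∈ gd N := by
  unfold gd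
  rw [Finset.inr_mem_disjSum, mem_Icc]
  omega

private theorem te_om {N : ℕ} {W : ℤ × ℤ → ℝ} {κ : ℝ} (hκ : 0 < κ) (x y : ℤ) :
    om N W κ x y * (pp N W κ (Sum.inl (x - y)) * pp N W κ (Sum.inr (x + y))) = W (x, y) := by
  show W (x, y) / (max (dsum N W 3 (x - y)) κ * max (dsum N W 2 (x + y)) κ) *
    (max (dsum N W 3 (x - y)) κ * max (dsum N W 2 (x + y)) κ) = W (x, y)
  have h1 : 0 < max (dsum N W 3 (x - y)) κ := lt_max_of_lt_right hκ
  have h2 : 0 < max (dsum N W 2 (x + y)) κ := lt_max_of_lt_right hκ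
  rw [div_mul_cancel₀]
  positivity

private theorem te_om0 {N : ℕ} {W : ℤ × ℤ → ℝ} (ha : Adm N W) {κ : ℝ} (hκ : 0 < κ) (x y : ℤ) :
    0 ≤ om N W κ x y := by
  have h1 : 0 < max (dsum N W 3 (x - y)) κ := lt_max_of_lt_right hκ
  have h2 : 0 < max (dsum N W 2 (x + y)) κ := lt_max_of_lt_right hκ
  unfold om
  exact div_nonneg (ha.nn _) (by positivity)

private theorem te_bn {N : ℕ} {W : ℤ × ℤ → ℝ} (ha : Adm N W) {κ : ℝ} (hκ : 0 < κ) (hκ1 : κ ≤ 1)
    {U : Finset (ℤ ⊕ ℤ)} (hU : U ⊆ gd N) : 0 ≤ bern (gd N) (pp N W κ) U := by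
  refine bern_nonneg _ _ ?_ hU
  intro i _
  rcases i with s | s
  · exact ⟨hκ.le.trans (le_max_right _ _), max_le (ha.dd s) hκ1⟩
  · exact ⟨hκ.le.trans (le_max_right _ _), max_le (ha.sd s) hκ1⟩

private theorem te_mk01 (U : Finset (ℤ ⊕ ℤ)) (r : Option ℤ) (y : ℤ) : 0 ≤ mk U r y ∧ mk U r y ≤ 1 := by
  rcases r with _ | ξ
  · exact ⟨zero_le_one, le_rfl⟩
  · show 0 ≤ (if Fr U ξ y then (1 : ℝ) else 0) ∧ (if Fr U ξ y then (1 : ℝ) else 0) ≤ 1
    split_ifs <;> norm_num

open Classical in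
/-- one square -/
private theorem te_pair {N : ℕ} {W : ℤ × ℤ → ℝ} (ha : Adm N W) {κ κ0 : ℝ} (hκ : 0 < κ) (hκ1 : κ ≤ 1)
    {x y α : ℤ} (hx : 0 ≤ x ∧ x < N) (hy : 0 ≤ y ∧ y < N) (hα : 0 ≤ α ∧ α < N) (r : Option ℤ)
    (hr : ∀ ξ ∈ r, 0 ≤ ξ ∧ ξ < N) {g : ℝ} (hg : 0 ≤ g ∧ g ≤ 1) :
    |(∑ U ∈ (gd N).powerset, bern (gd N) (pp N W κ) U *
      (if Mn N W κ0 x y ∧ Oc U x y ∧ Fr U x α then om N W κ x y * mk U r y * g else 0)) -
        hh N W x α * (W (x, y) * mk0 N W r y * g)| ≤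
      (if dsum N W 3 (x - y) < κ0 then W (x, y) else 0) +
      (if dsum N W 2 (x + y) < κ0 then W (x, y) else 0) +
      (if y = α then W (x, y) else 0) + (if x = r.getD 0 then W (x, y) else 0) +
      (if y = r.getD 0 - x + α then W (x, y) else 0) +
      (if y = x + α - r.getD 0 then W (x, y) else 0) + 4 * κ * W (x, y) := by
  have hW := ha.nn (x, y)
  have hfa := te_free ha hκ hκ1 x α
  have hi : ∀ (P : Prop) [Decidable P], 0 ≤ (if P then W (x, y) else 0) := by
    intro P _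
    split_ifs
    · exact hW
    · exact le_rfl
  have hκW : 0 ≤ 4 * κ * W (x, y) := by positivity
  have hm0 : 0 ≤ mk0 N W r y ∧ mk0 N W r y ≤ 1 := by
    rcases r with _ | ξ
    · exact ⟨zero_le_one, le_rfl⟩
    · exact ⟨(te_free ha hκ hκ1 ξ y).2.2.1, (te_free ha hκ hκ1 ξ y).2.2.2.1⟩
  have href0 : 0 ≤ hh N W x α * (W (x, y) * mk0 N W r y * g) :=
    mul_nonneg hfa.2.2.1 (mul_nonneg (mul_nonneg hW hm0.1) hg.1)
  have href1 : hh N W x α * (W (x, y) * mk0 N W r y * g) ≤ W (x, y) := by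
    have h1 : W (x, y) * mk0 N W r y * g ≤ W (x, y) := by
      have h2 : W (x, y) * mk0 N W r y ≤ W (x, y) := mul_le_of_le_one_right hW hm0.2
      exact (mul_le_of_le_one_right (mul_nonneg hW hm0.1) hg.2).trans h2
    exact (mul_le_of_le_one_left (mul_nonneg (mul_nonneg hW hm0.1) hg.1) hfa.2.2.2.1).trans h1
  by_cases hM : Mn N W κ0 x y
  swap
  · -- not a main square
    have h0 : ∑ U ∈ (gd N).powerset, bern (gd N) (pp N W κ) U *
        (if Mn N W κ0 x y ∧ Oc U x y ∧ Fr U x α then om N W κ x y * mk U r y * g else 0) = 0 := by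
      refine Finset.sum_eq_zero fun U _ => ?_
      rw [if_neg (fun h => hM h.1), mul_zero]
    rw [h0, zero_sub, abs_neg, abs_of_nonneg href0]
    have h1 := hi (y = α)
    have h2 := hi (x = r.getD 0)
    have h3 := hi (y = r.getD 0 - x + α)
    have h4 := hi (y = x + α - r.getD 0)
    have h5 := hi (dsum N W 3 (x - y) < κ0)
    have h6 := hi (dsum N W 2 (x + y) < κ0)
    unfold Mn at hM
    rw [not_and_or, not_le, not_le] at hM
    rcases hM with hM | hM
    · rw [if_pos hM]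
      linarith
    · rw [if_pos hM] at h6 ⊢
      linarith
  have hPQ := te_om (N := N) (W := W) hκ x y
  have hom := te_om0 ha hκ x y
  have h5 := hi (dsum N W 3 (x - y) < κ0)
  have h6 := hi (dsum N W 2 (x + y) < κ0)
  -- the expectation of the occupation of the square
  have hS1 : ({Sum.inl (x - y), Sum.inr (x + y)} : Finset (ℤ ⊕ ℤ)) ⊆ gd N := by
    intro i hi
    rw [mem_insert, mem_singleton] at hi
    rcases hi with rfl | rfl
    · exact te_gl hx hy
    · exact te_gr hx hy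
  have hPr1 : ∏ i ∈ ({Sum.inl (x - y), Sum.inr (x + y)} : Finset (ℤ ⊕ ℤ)), pp N W κ i =
      pp N W κ (Sum.inl (x - y)) * pp N W κ (Sum.inr (x + y)) :=
    Finset.prod_pair (by simp)
  have hOcS : ∀ U : Finset (ℤ ⊕ ℤ), Oc U x y ↔
      ({Sum.inl (x - y), Sum.inr (x + y)} : Finset (ℤ ⊕ ℤ)) ⊆ U := by
    intro U
    unfold Oc
    rw [Finset.insert_subset_iff, Finset.singleton_subset_iff]
  have hEO : ∑ U ∈ (gd N).powerset, bern (gd N) (pp N W κ) U * (if Oc U x y then (1 : ℝ) else 0) =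
      pp N W κ (Sum.inl (x - y)) * pp N W κ (Sum.inr (x + y)) := by
    have h1 := bern_prod (gd N) (pp N W κ) hS1 (Finset.empty_subset _) (Finset.disjoint_empty_right _)
    rw [Finset.prod_empty, mul_one, hPr1] at h1
    rw [← h1]
    refine Finset.sum_congr rfl fun U _ => ?_
    have h2 : (({Sum.inl (x - y), Sum.inr (x + y)} : Finset (ℤ ⊕ ℤ)) ⊆ U ∧
        Disjoint (∅ : Finset (ℤ ⊕ ℤ)) U) ↔ Oc U x y := by
      rw [hOcS]
      exact and_iff_left (Finset.disjoint_empty_left _)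
    by_cases h3 : Oc U x y
    · rw [if_pos h3, if_pos (h2.2 h3)]
    · rw [if_neg h3, if_neg (fun h => h3 (h2.1 h))]
  have he0 : 0 ≤ ∑ U ∈ (gd N).powerset, bern (gd N) (pp N W κ) U *
      (if Mn N W κ0 x y ∧ Oc U x y ∧ Fr U x α then om N W κ x y * mk U r y * g else 0) := by
    refine Finset.sum_nonneg fun U hU => ?_
    refine mul_nonneg (te_bn ha hκ hκ1 (mem_powerset.1 hU)) ?_
    split_ifs
    · exact mul_nonneg (mul_nonneg hom (te_mk01 U r y).1) hg.1
    · exact le_rfl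
  have he1 : ∑ U ∈ (gd N).powerset, bern (gd N) (pp N W κ) U *
      (if Mn N W κ0 x y ∧ Oc U x y ∧ Fr U x α then om N W κ x y * mk U r y * g else 0) ≤
      W (x, y) := by
    have h1 : ∑ U ∈ (gd N).powerset, bern (gd N) (pp N W κ) U *
        (if Mn N W κ0 x y ∧ Oc U x y ∧ Fr U x α then om N W κ x y * mk U r y * g else 0) ≤
        ∑ U ∈ (gd N).powerset, om N W κ x y *
          (bern (gd N) (pp N W κ) U * (if Oc U x y then (1 : ℝ) else 0)) := by
      refine Finset.sum_le_sum fun U hU => ?_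
      have h2 := te_bn ha hκ hκ1 (mem_powerset.1 hU)
      have h3 : (if Mn N W κ0 x y ∧ Oc U x y ∧ Fr U x α then om N W κ x y * mk U r y * g else 0) ≤
          om N W κ x y * (if Oc U x y then (1 : ℝ) else 0) := by
        by_cases h4 : Mn N W κ0 x y ∧ Oc U x y ∧ Fr U x α
        · rw [if_pos h4, if_pos h4.2.1, mul_one]
          have h7 : om N W κ x y * mk U r y ≤ om N W κ x y :=
            mul_le_of_le_one_right hom (te_mk01 U r y).2
          exact (mul_le_of_le_one_right (mul_nonneg hom (te_mk01 U r y).1) hg.2).trans h7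
        · rw [if_neg h4]
          split_ifs
          · rw [mul_one]; exact hom
          · rw [mul_zero]
      have h8 := mul_le_mul_of_nonneg_left h3 h2
      calc _ ≤ _ := h8
        _ = _ := by ring
    refine h1.trans ?_
    rw [← Finset.mul_sum, hEO, hPQ]
  have hbad : |(∑ U ∈ (gd N).powerset, bern (gd N) (pp N W κ) U *
      (if Mn N W κ0 x y ∧ Oc U x y ∧ Fr U x α then om N W κ x y * mk U r y * g else 0)) -
        hh N W x α * (W (x, y) * mk0 N W r y * g)| ≤ W (x, y) := by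
    rw [abs_le]
    constructor <;> linarith
  have h1 := hi (y = α)
  have h2 := hi (x = r.getD 0)
  have h3 := hi (y = r.getD 0 - x + α)
  have h4 := hi (y = x + α - r.getD 0)
  by_cases hb1 : y = α
  · refine hbad.trans ?_
    rw [if_pos hb1]
    linarith
  by_cases hb2 : x = r.getD 0
  · refine hbad.trans ?_
    rw [if_pos hb2]
    linarith
  by_cases hb3 : y = r.getD 0 - x + α
  · refine hbad.trans ?_
    rw [if_pos hb3]
    linarith
  by_cases hb4 : y = x + α - r.getD 0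
  · refine hbad.trans ?_
    rw [if_pos hb4]
    linarith
  -- good squares: an exact product
  have hgoal : |(∑ U ∈ (gd N).powerset, bern (gd N) (pp N W κ) U *
      (if Mn N W κ0 x y ∧ Oc U x y ∧ Fr U x α then om N W κ x y * mk U r y * g else 0)) -
        hh N W x α * (W (x, y) * mk0 N W r y * g)| ≤ 4 * κ * W (x, y) := by
    rcases r with _ | ξ
    · have hS2 : ({Sum.inl (x - α), Sum.inr (x + α)} : Finset (ℤ ⊕ ℤ)) ⊆ gd N := by
        intro i hi
        rw [mem_insert, mem_singleton] at hi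
        rcases hi with rfl | rfl
        · exact te_gl hx hα
        · exact te_gr hx hα
      have hd : Disjoint ({Sum.inl (x - y), Sum.inr (x + y)} : Finset (ℤ ⊕ ℤ))
          {Sum.inl (x - α), Sum.inr (x + α)} := by
        rw [Finset.disjoint_left]
        intro i hi hj
        rw [mem_insert, mem_singleton] at hi hj
        rcases hi with rfl | rfl <;> rcases hj with hj | hj
        · exact hb1 (by have := Sum.inl_injective hj; omega)
        · exact absurd hj (by simp)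
        · exact absurd hj (by simp)
        · exact hb1 (by have := Sum.inr_injective hj; omega)
      have hb := bern_prod (gd N) (pp N W κ) hS1 hS2 hd
      have hPr2 : ∏ i ∈ ({Sum.inl (x - α), Sum.inr (x + α)} : Finset (ℤ ⊕ ℤ)), (1 - pp N W κ i) =
          (1 - pp N W κ (Sum.inl (x - α))) * (1 - pp N W κ (Sum.inr (x + α))) :=
        Finset.prod_pair (by simp)
      rw [hPr1, hPr2] at hb
      have he : ∑ U ∈ (gd N).powerset, bern (gd N) (pp N W κ) U *
          (if Mn N W κ0 x y ∧ Oc U x y ∧ Fr U x α then om N W κ x y * mk U none y * g else 0) =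
          W (x, y) * g * ((1 - pp N W κ (Sum.inl (x - α))) * (1 - pp N W κ (Sum.inr (x + α)))) := by
        have h7 : ∑ U ∈ (gd N).powerset, bern (gd N) (pp N W κ) U *
            (if Mn N W κ0 x y ∧ Oc U x y ∧ Fr U x α then om N W κ x y * mk U none y * g else 0) =
            om N W κ x y * g * ∑ U ∈ (gd N).powerset, bern (gd N) (pp N W κ) U *
              (if ({Sum.inl (x - y), Sum.inr (x + y)} : Finset (ℤ ⊕ ℤ)) ⊆ U ∧
                Disjoint ({Sum.inl (x - α), Sum.inr (x + α)} : Finset (ℤ ⊕ ℤ)) U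
                then (1 : ℝ) else 0) := by
          rw [Finset.mul_sum]
          refine Finset.sum_congr rfl fun U _ => ?_
          have h8 : (({Sum.inl (x - y), Sum.inr (x + y)} : Finset (ℤ ⊕ ℤ)) ⊆ U ∧
              Disjoint ({Sum.inl (x - α), Sum.inr (x + α)} : Finset (ℤ ⊕ ℤ)) U) ↔
              (Oc U x y ∧ Fr U x α) := by
            rw [hOcS, Finset.disjoint_insert_left, Finset.disjoint_singleton_left]
            rfl
          by_cases h9 : Oc U x y ∧ Fr U x α
          · rw [if_pos ⟨hM, h9⟩, if_pos (h8.2 h9)]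
            show _ * (_ * (1 : ℝ) * g) = _
            ring
          · rw [if_neg (fun h => h9 h.2), if_neg (fun h => h9 (h8.1 h))]
            ring
        rw [h7, hb, ← hPQ]
        ring
      rw [he]
      have h7 : W (x, y) * g * ((1 - pp N W κ (Sum.inl (x - α))) * (1 - pp N W κ (Sum.inr (x + α)))) -
          hh N W x α * (W (x, y) * mk0 N W none y * g) = W (x, y) * g *
          ((1 - pp N W κ (Sum.inl (x - α))) * (1 - pp N W κ (Sum.inr (x + α))) - hh N W x α) := by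
        show _ - _ * (_ * (1 : ℝ) * g) = _
        ring
      rw [h7, abs_mul, abs_of_nonneg (mul_nonneg hW hg.1)]
      have h8 := hfa.2.2.2.2
      have h9 : W (x, y) * g ≤ W (x, y) := mul_le_of_le_one_right hW hg.2
      calc _ ≤ W (x, y) * (2 * κ) := mul_le_mul h9 h8 (abs_nonneg _) hW
        _ ≤ 4 * κ * W (x, y) := by nlinarith
    · have hξ := hr ξ rfl
      have hb2' : x ≠ ξ := hb2
      have hb3' : ¬ y = ξ - x + α := hb3
      have hb4' : ¬ y = x + α - ξ := hb4
      have hfx := te_free ha hκ hκ1 ξ y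
      have hS2 : ({Sum.inl (x - α), Sum.inr (x + α), Sum.inl (ξ - y), Sum.inr (ξ + y)} :
          Finset (ℤ ⊕ ℤ)) ⊆ gd N := by
        intro i hi
        rw [mem_insert, mem_insert, mem_insert, mem_singleton] at hi
        rcases hi with rfl | rfl | rfl | rfl
        · exact te_gl hx hα
        · exact te_gr hx hα
        · exact te_gl hξ hy
        · exact te_gr hξ hy
      have hd : Disjoint ({Sum.inl (x - y), Sum.inr (x + y)} : Finset (ℤ ⊕ ℤ))
          {Sum.inl (x - α), Sum.inr (x + α), Sum.inl (ξ - y), Sum.inr (ξ + y)} := by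
        rw [Finset.disjoint_left]
        intro i hi hj
        rw [mem_insert, mem_singleton] at hi
        rw [mem_insert, mem_insert, mem_insert, mem_singleton] at hj
        rcases hi with rfl | rfl <;> rcases hj with hj | hj | hj | hj
        · exact hb1 (by have := Sum.inl_injective hj; omega)
        · exact absurd hj (by simp)
        · exact hb2' (by have := Sum.inl_injective hj; omega)
        · exact absurd hj (by simp)
        · exact absurd hj (by simp)
        · exact hb1 (by have := Sum.inr_injective hj; omega)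
        · exact absurd hj (by simp)
        · exact hb2' (by have := Sum.inr_injective hj; omega)
      have hb := bern_prod (gd N) (pp N W κ) hS1 hS2 hd
      have hPr2 : ∏ i ∈ ({Sum.inl (x - α), Sum.inr (x + α), Sum.inl (ξ - y), Sum.inr (ξ + y)} :
          Finset (ℤ ⊕ ℤ)), (1 - pp N W κ i) =
          ((1 - pp N W κ (Sum.inl (x - α))) * (1 - pp N W κ (Sum.inr (x + α)))) *
            ((1 - pp N W κ (Sum.inl (ξ - y))) * (1 - pp N W κ (Sum.inr (ξ + y)))) := by
        have n1 : (Sum.inl (x - α) : ℤ ⊕ ℤ) ∉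
            ({Sum.inr (x + α), Sum.inl (ξ - y), Sum.inr (ξ + y)} : Finset (ℤ ⊕ ℤ)) := by
          rw [mem_insert, mem_insert, mem_singleton]
          rintro (h | h | h)
          · exact absurd h (by simp)
          · exact hb3' (by have := Sum.inl_injective h; omega)
          · exact absurd h (by simp)
        have n2 : (Sum.inr (x + α) : ℤ ⊕ ℤ) ∉
            ({Sum.inl (ξ - y), Sum.inr (ξ + y)} : Finset (ℤ ⊕ ℤ)) := by
          rw [mem_insert, mem_singleton]
          rintro (h | h)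
          · exact absurd h (by simp)
          · exact hb4' (by have := Sum.inr_injective h; omega)
        rw [Finset.prod_insert n1, Finset.prod_insert n2, Finset.prod_pair (by simp)]
        ring
      rw [hPr1, hPr2] at hb
      have he : ∑ U ∈ (gd N).powerset, bern (gd N) (pp N W κ) U *
          (if Mn N W κ0 x y ∧ Oc U x y ∧ Fr U x α then om N W κ x y * mk U (some ξ) y * g else 0) =
          W (x, y) * g * (((1 - pp N W κ (Sum.inl (x - α))) * (1 - pp N W κ (Sum.inr (x + α)))) *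
            ((1 - pp N W κ (Sum.inl (ξ - y))) * (1 - pp N W κ (Sum.inr (ξ + y))))) := by
        have h7 : ∑ U ∈ (gd N).powerset, bern (gd N) (pp N W κ) U *
            (if Mn N W κ0 x y ∧ Oc U x y ∧ Fr U x α then om N W κ x y * mk U (some ξ) y * g
              else 0) =
            om N W κ x y * g * ∑ U ∈ (gd N).powerset, bern (gd N) (pp N W κ) U *
              (if ({Sum.inl (x - y), Sum.inr (x + y)} : Finset (ℤ ⊕ ℤ)) ⊆ U ∧
                Disjoint ({Sum.inl (x - α), Sum.inr (x + α), Sum.inl (ξ - y), Sum.inr (ξ + y)} :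
                  Finset (ℤ ⊕ ℤ)) U then (1 : ℝ) else 0) := by
          rw [Finset.mul_sum]
          refine Finset.sum_congr rfl fun U _ => ?_
          have h8 : (({Sum.inl (x - y), Sum.inr (x + y)} : Finset (ℤ ⊕ ℤ)) ⊆ U ∧
              Disjoint ({Sum.inl (x - α), Sum.inr (x + α), Sum.inl (ξ - y), Sum.inr (ξ + y)} :
                Finset (ℤ ⊕ ℤ)) U) ↔ ((Oc U x y ∧ Fr U x α) ∧ Fr U ξ y) := by
            rw [hOcS, Finset.disjoint_insert_left, Finset.disjoint_insert_left,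
              Finset.disjoint_insert_left, Finset.disjoint_singleton_left]
            unfold Fr
            tauto
          by_cases h9 : Oc U x y ∧ Fr U x α
          · rw [if_pos ⟨hM, h9⟩]
            by_cases h10 : Fr U ξ y
            · rw [if_pos (h8.2 ⟨h9, h10⟩)]
              show _ * (_ * (if Fr U ξ y then (1 : ℝ) else 0) * g) = _
              rw [if_pos h10]
              ring
            · rw [if_neg (fun h => h10 (h8.1 h).2)]
              show _ * (_ * (if Fr U ξ y then (1 : ℝ) else 0) * g) = _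
              rw [if_neg h10]
              ring
          · rw [if_neg (fun h => h9 h.2), if_neg (fun h => h9 (h8.1 h).1)]
            ring
        rw [h7, hb, ← hPQ]
        ring
      rw [he]
      have h7 : W (x, y) * g *
          (((1 - pp N W κ (Sum.inl (x - α))) * (1 - pp N W κ (Sum.inr (x + α)))) *
            ((1 - pp N W κ (Sum.inl (ξ - y))) * (1 - pp N W κ (Sum.inr (ξ + y))))) -
          hh N W x α * (W (x, y) * mk0 N W (some ξ) y * g) = W (x, y) * g *
          (((1 - pp N W κ (Sum.inl (x - α))) * (1 - pp N W κ (Sum.inr (x + α)))) *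
            ((1 - pp N W κ (Sum.inl (ξ - y))) * (1 - pp N W κ (Sum.inr (ξ + y)))) -
            hh N W x α * hh N W ξ y) := by
        show _ - _ * (_ * hh N W ξ y * g) = _
        ring
      rw [h7, abs_mul, abs_of_nonneg (mul_nonneg hW hg.1)]
      have h8 := te_mul (b := (1 - pp N W κ (Sum.inl (ξ - y))) * (1 - pp N W κ (Sum.inr (ξ + y))))
        (c := hh N W x α) hfa.1 hfa.2.1 hfx.2.2.1 hfx.2.2.2.1
      have h9 : W (x, y) * g ≤ W (x, y) := mul_le_of_le_one_right hW hg.2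
      have h10 := hfa.2.2.2.2
      have h11 := hfx.2.2.2.2
      calc _ ≤ W (x, y) * (4 * κ) := mul_le_mul h9 (by linarith) (abs_nonneg _) hW
        _ = 4 * κ * W (x, y) := by ring
  linarith

private theorem te_line {L : ℝ} (hL : 1 ≤ L) {n : ℕ} {W : ℤ × ℤ → ℝ} (hb : Bd L (n + 1) W)
    (c : Fin n → ℤ) :
    ∑ k : Fin n, ∑ b : Fin (n + 1), (if cl b = c k then W (ro k, cl b) else 0) ≤ L := by
  have hN0 : (0 : ℝ) < ((n + 1 : ℕ) : ℝ) := by positivity
  have hLN : 0 ≤ L / ((n + 1 : ℕ) : ℝ) := by positivity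
  have h1 : ∀ k : Fin n, ∑ b : Fin (n + 1), (if cl b = c k then W (ro k, cl b) else 0) ≤
      L / ((n + 1 : ℕ) : ℝ) := by
    intro k
    have h2 : ∑ b : Fin (n + 1), (if cl b = c k then W (ro k, cl b) else 0) ≤
        ∑ b : Fin (n + 1), L / ((n + 1 : ℕ) : ℝ) * (if cl b = c k then (1 : ℝ) else 0) := by
      refine Finset.sum_le_sum fun b _ => ?_
      split_ifs
      · rw [mul_one]
        exact hb.hi _ (te_mem k b)
      · rw [mul_zero]
    rw [← Finset.mul_sum] at h2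
    exact h2.trans (mul_le_of_le_one_right hLN (te_one _ te_cl _))
  calc _ ≤ ∑ _k : Fin n, L / ((n + 1 : ℕ) : ℝ) := Finset.sum_le_sum fun k _ => h1 k
    _ = (n : ℝ) * (L / ((n + 1 : ℕ) : ℝ)) := by rw [Finset.sum_const, card_univ, Fintype.card_fin, nsmul_eq_mul]
    _ ≤ ((n + 1 : ℕ) : ℝ) * (L / ((n + 1 : ℕ) : ℝ)) := by
        refine mul_le_mul_of_nonneg_right ?_ hLN
        push_cast
        linarith
    _ = L := by field_simp

private theorem te_row {L : ℝ} (hL : 1 ≤ L) {n : ℕ} {W : ℤ × ℤ → ℝ} (hb : Bd L (n + 1) W)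
    (c : ℤ) :
    ∑ k : Fin n, ∑ b : Fin (n + 1), (if ro k = c then W (ro k, cl b) else 0) ≤ L := by
  have hN0 : (0 : ℝ) < ((n + 1 : ℕ) : ℝ) := by positivity
  have hLN : 0 ≤ L / ((n + 1 : ℕ) : ℝ) := by positivity
  rw [Finset.sum_comm]
  have h1 : ∀ b : Fin (n + 1), ∑ k : Fin n, (if ro k = c then W (ro k, cl b) else 0) ≤
      L / ((n + 1 : ℕ) : ℝ) := by
    intro b
    have h2 : ∑ k : Fin n, (if ro k = c then W (ro k, cl b) else 0) ≤
        ∑ k : Fin n, L / ((n + 1 : ℕ) : ℝ) * (if ro k = c then (1 : ℝ) else 0) := by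
      refine Finset.sum_le_sum fun k _ => ?_
      split_ifs
      · rw [mul_one]
        exact hb.hi _ (te_mem k b)
      · rw [mul_zero]
    rw [← Finset.mul_sum] at h2
    exact h2.trans (mul_le_of_le_one_right hLN (te_one _ te_ro _))
  calc _ ≤ ∑ _b : Fin (n + 1), L / ((n + 1 : ℕ) : ℝ) := Finset.sum_le_sum fun b _ => h1 b
    _ = ((n + 1 : ℕ) : ℝ) * (L / ((n + 1 : ℕ) : ℝ)) := by
        rw [Finset.sum_const, card_univ, Fintype.card_fin, nsmul_eq_mul]
    _ = L := by field_simp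

theorem exp_TM (L : ℝ) (hL : 1 ≤ L) : ∃ (C : ℝ) (z0 : ℕ), 1 ≤ C ∧ ∀ z n : ℕ, z0 ≤ z → InR z (n + 1) →
    ∀ (W : ℤ × ℤ → ℝ) (A B : ℤ → ℝ), Rf L (n + 1) W A B →
    ∀ (a : Fin (n + 1)) (r : Option ℤ), (∀ x ∈ r, 0 ≤ x ∧ x ≤ n) →
    ∀ g : Fin n → Fin (n + 1) → ℝ, (∀ k b, 0 ≤ g k b ∧ g k b ≤ 1) →
    |(∑ U ∈ (gd (n + 1)).powerset, bern (gd (n + 1)) (pp (n + 1) W (1 / (z : ℝ) ^ 4)) U *
      TM n W (1 / (z : ℝ) ^ 4) (1 / (z : ℝ)) U a r g) - TR n W a r g| ≤ C * (n + 1) / (z : ℝ) ^ 2 := by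
  refine ⟨8 * L + 4, 1, by linarith, ?_⟩
  intro z n hz hin W A B hR a r hr g hg
  classical
  have ha := hR.adm
  have hb := hR.bd
  have hz1 : (1 : ℝ) ≤ (z : ℝ) := by exact_mod_cast hz
  have hz0 : (0 : ℝ) < (z : ℝ) := by linarith
  have hκ : 0 < 1 / (z : ℝ) ^ 4 := by positivity
  have hκ0 : 0 < 1 / (z : ℝ) := by positivity
  have hκ1 : 1 / (z : ℝ) ^ 4 ≤ 1 := by
    rw [div_le_one (by positivity)]
    exact one_le_pow₀ hz1
  have hzN : (z : ℝ) ^ 2 ≤ ((n + 1 : ℕ) : ℝ) := by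
    have h1 : z ^ 2 ≤ (z ^ 40) ^ 500 := by
      rw [← pow_mul]
      exact Nat.pow_le_pow_right hz (by norm_num)
    exact_mod_cast h1.trans hin.1
  have hN : 0 < n + 1 := Nat.succ_pos n
  have hN0 : (0 : ℝ) < ((n + 1 : ℕ) : ℝ) := by exact_mod_cast hN
  set κ : ℝ := 1 / (z : ℝ) ^ 4 with hκdef
  set κ0 : ℝ := 1 / (z : ℝ) with hκ0def
  set ξ : ℤ := r.getD 0 with hξ
  have hE : ∑ U ∈ (gd (n + 1)).powerset, bern (gd (n + 1)) (pp (n + 1) W κ) U *
      TM n W κ κ0 U a r g = ∑ k : Fin n, ∑ b : Fin (n + 1), ∑ U ∈ (gd (n + 1)).powerset,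
        bern (gd (n + 1)) (pp (n + 1) W κ) U *
        (if Mn (n + 1) W κ0 (ro k) (cl b) ∧ Oc U (ro k) (cl b) ∧ Fr U (ro k) (cl a) then
          om (n + 1) W κ (ro k) (cl b) * mk U r (cl b) * g k b else 0) := by
    unfold TM
    simp_rw [Finset.mul_sum]
    rw [Finset.sum_comm]
    refine Finset.sum_congr rfl fun k _ => ?_
    rw [Finset.sum_comm]
  have hT : TR n W a r g = ∑ k : Fin n, ∑ b : Fin (n + 1), hh (n + 1) W (ro k) (cl a) *
      (W (ro k, cl b) * mk0 (n + 1) W r (cl b) * g k b) := by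
    unfold TR
    refine Finset.sum_congr rfl fun k _ => ?_
    rw [Finset.mul_sum]
  rw [hE, hT, ← Finset.sum_sub_distrib]
  simp_rw [← Finset.sum_sub_distrib]
  have hpair : ∀ (k : Fin n) (b : Fin (n + 1)), |(∑ U ∈ (gd (n + 1)).powerset,
        bern (gd (n + 1)) (pp (n + 1) W κ) U *
        (if Mn (n + 1) W κ0 (ro k) (cl b) ∧ Oc U (ro k) (cl b) ∧ Fr U (ro k) (cl a) then
          om (n + 1) W κ (ro k) (cl b) * mk U r (cl b) * g k b else 0)) -
      hh (n + 1) W (ro k) (cl a) * (W (ro k, cl b) * mk0 (n + 1) W r (cl b) * g k b)| ≤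
      (if dsum (n + 1) W 3 (ro k - cl b) < κ0 then W (ro k, cl b) else 0) +
      (if dsum (n + 1) W 2 (ro k + cl b) < κ0 then W (ro k, cl b) else 0) +
      (if cl b = cl a then W (ro k, cl b) else 0) + (if ro k = ξ then W (ro k, cl b) else 0) +
      (if cl b = ξ - ro k + cl a then W (ro k, cl b) else 0) +
      (if cl b = ro k + cl a - ξ then W (ro k, cl b) else 0) + 4 * κ * W (ro k, cl b) := by
    intro k b
    have hk := k.2
    have hb' := b.2
    have ha' := a.2
    refine te_pair ha hκ hκ1 ?_ ?_ ?_ r ?_ (hg k b)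
    · unfold ro
      push_cast
      omega
    · unfold cl
      push_cast
      omega
    · unfold cl
      push_cast
      omega
    · intro x hx
      have := hr x hx
      push_cast
      omega
  have hsum : |∑ k : Fin n, ∑ b : Fin (n + 1), ((∑ U ∈ (gd (n + 1)).powerset,
        bern (gd (n + 1)) (pp (n + 1) W κ) U *
        (if Mn (n + 1) W κ0 (ro k) (cl b) ∧ Oc U (ro k) (cl b) ∧ Fr U (ro k) (cl a) then
          om (n + 1) W κ (ro k) (cl b) * mk U r (cl b) * g k b else 0)) -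
      hh (n + 1) W (ro k) (cl a) * (W (ro k, cl b) * mk0 (n + 1) W r (cl b) * g k b))| ≤
      ∑ k : Fin n, ∑ b : Fin (n + 1),
      ((if dsum (n + 1) W 3 (ro k - cl b) < κ0 then W (ro k, cl b) else 0) +
      (if dsum (n + 1) W 2 (ro k + cl b) < κ0 then W (ro k, cl b) else 0) +
      (if cl b = cl a then W (ro k, cl b) else 0) + (if ro k = ξ then W (ro k, cl b) else 0) +
      (if cl b = ξ - ro k + cl a then W (ro k, cl b) else 0) +
      (if cl b = ro k + cl a - ξ then W (ro k, cl b) else 0) + 4 * κ * W (ro k, cl b)) := by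
    refine (Finset.abs_sum_le_sum_abs _ _).trans (Finset.sum_le_sum fun k _ => ?_)
    exact (Finset.abs_sum_le_sum_abs _ _).trans (Finset.sum_le_sum fun b _ => hpair k b)
  refine hsum.trans ?_
  simp_rw [Finset.sum_add_distrib, ← Finset.mul_sum]
  have hnn : ∀ (P : Prop) [Decidable P] (e : ℤ × ℤ), 0 ≤ (if P then W e else 0) := by
    intro P _ e
    split_ifs
    · exact ha.nn e
    · exact le_rfl
  have t1 := (te_board (n := n) (fun e => if dsum (n + 1) W 3 (e.1 - e.2) < κ0 then W e else 0)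
    (fun e _ => hnn _ e)).trans (te_short3 hL hN hb ha hκ0)
  have t2 := (te_board (n := n) (fun e => if dsum (n + 1) W 2 (e.1 + e.2) < κ0 then W e else 0)
    (fun e _ => hnn _ e)).trans (te_short2 hL hN hb ha hκ0)
  have t3 := te_line hL hb (fun _ => cl a)
  have t4 := te_row hL hb ξ
  have t5 := te_line hL hb (fun k => ξ - ro k + cl a)
  have t6 := te_line hL hb (fun k => ro k + cl a - ξ)
  have t7 := (te_board (n := n) W (fun e _ => ha.nn e)).trans_eq (te_mass ha)
  have t8 : 4 * κ * ∑ k : Fin n, ∑ b : Fin (n + 1), W (ro k, cl b) ≤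
      4 * κ * ((n + 1 : ℕ) : ℝ) := mul_le_mul_of_nonneg_left t7 (by positivity)
  have hz2 : (1 : ℝ) ≤ (z : ℝ) ^ 2 := one_le_pow₀ hz1
  have u1 : κ0 ^ 2 = 1 / (z : ℝ) ^ 2 := by
    rw [hκ0def]
    field_simp
  have u2 : κ ≤ 1 / (z : ℝ) ^ 2 := by
    rw [hκdef]
    exact one_div_le_one_div_of_le (by positivity) (pow_le_pow_right₀ hz1 (by norm_num))
  have u3 : 1 ≤ ((n + 1 : ℕ) : ℝ) / (z : ℝ) ^ 2 := by
    rw [le_div_iff₀ (by positivity), one_mul]
    exact hzN
  have u4 : 4 * κ * ((n + 1 : ℕ) : ℝ) ≤ 4 * (((n + 1 : ℕ) : ℝ) / (z : ℝ) ^ 2) := by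
    have := mul_le_mul_of_nonneg_right u2 hN0.le
    calc 4 * κ * ((n + 1 : ℕ) : ℝ) = 4 * (κ * ((n + 1 : ℕ) : ℝ)) := by ring
      _ ≤ 4 * (1 / (z : ℝ) ^ 2 * ((n + 1 : ℕ) : ℝ)) := by linarith
      _ = 4 * (((n + 1 : ℕ) : ℝ) / (z : ℝ) ^ 2) := by ring
  have u5 : 2 * L * κ0 ^ 2 * ((n + 1 : ℕ) : ℝ) = 2 * L * (((n + 1 : ℕ) : ℝ) / (z : ℝ) ^ 2) := by
    rw [u1]
    ring
  have u6 : L ≤ L * (((n + 1 : ℕ) : ℝ) / (z : ℝ) ^ 2) := le_mul_of_one_le_right (by linarith) u3
  rw [u5] at t1 t2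
  have u7 : (8 * L + 4) * ((n : ℝ) + 1) / (z : ℝ) ^ 2 =
      (8 * L + 4) * (((n + 1 : ℕ) : ℝ) / (z : ℝ) ^ 2) := by
    push_cast
    ring
  rw [u7]
  simp only at t1 t2
  nlinarith [t1, t2, t3, t4, t5, t6, t8, u4, u6]

end Pool.Agent.NQR
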