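import Pool.Agent.NQR.Defs

/-!
# NQR-TLip: the main statistic is Lipschitz

PLAN. `N = n + 1`. For a main square `om ≤ (L/N)/κ0² = K/N`, `K = L/κ0²` (`κ ≤ κ0`). Adding `u = inl s` to `U` changes a summand
`(k,b)` only if `ro k - cl b = s` (at most `N` pairs: one `b` for each `k`), or `ro k - cl a = s` (one `k`, `N` values of `b`), or
`x - cl b = s` with `r = some x` (one `b`, `n` values of `k`); every summand is in `[0, K/N]`. So the change is `≤ 3 K`.
The same for `inr`.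
-/

set_option autoImplicit false

open Finset

namespace Pool.Agent.NQR

open Pool.Agent.NQ (board dsum F Ent Dg phi ln Q Qset st cellD bern)

private theorem tl_board {n : ℕ} (k : Fin n) (b : Fin (n + 1)) :
    ((ro k, cl b) : ℤ × ℤ) ∈ board (n + 1) := by
  rw [NQ.mem_board]
  unfold ro cl
  have h1 := k.2
  have h2 := b.2
  dsimp only
  push_cast
  omega

private theorem tl_W {L : ℝ} (hL : 1 ≤ L) {n : ℕ} {W : ℤ × ℤ → ℝ} (hW : Bd L (n + 1) W)
    (k : Fin n) (b : Fin (n + 1)) : 0 ≤ W (ro k, cl b) := by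
  refine le_trans ?_ (hW.lo _ (tl_board k b))
  positivity

private theorem tl_om {L : ℝ} (hL : 1 ≤ L) {n : ℕ} {W : ℤ × ℤ → ℝ} (hW : Bd L (n + 1) W) {κ : ℝ}
    (hκ : 0 < κ) (k : Fin n) (b : Fin (n + 1)) : 0 ≤ om (n + 1) W κ (ro k) (cl b) := by
  unfold om
  refine div_nonneg (tl_W hL hW k b) (mul_nonneg ?_ ?_)
  · exact hκ.le.trans (le_max_right _ _)
  · exact hκ.le.trans (le_max_right _ _)

private theorem tl_om_le {L : ℝ} (hL : 1 ≤ L) {n : ℕ} {W : ℤ × ℤ → ℝ} (hW : Bd L (n + 1) W)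
    {κ κ0 : ℝ} (hκ : 0 < κ) (hκ0 : κ ≤ κ0) (k : Fin n) (b : Fin (n + 1))
    (h : Mn (n + 1) W κ0 (ro k) (cl b)) :
    om (n + 1) W κ (ro k) (cl b) ≤ L / κ0 ^ 2 / (n + 1) := by
  have hκ0' : 0 < κ0 := hκ.trans_le hκ0
  have h1 := hW.hi _ (tl_board k b)
  unfold om
  have h2 : κ0 ^ 2 ≤ max (dsum (n + 1) W 3 (ro k - cl b)) κ *
      max (dsum (n + 1) W 2 (ro k + cl b)) κ := by
    rw [sq]
    exact mul_le_mul (h.1.trans (le_max_left _ _)) (h.2.trans (le_max_left _ _)) hκ0'.le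
      (hκ0'.le.trans (h.1.trans (le_max_left _ _)))
  calc W (ro k, cl b) / (max (dsum (n + 1) W 3 (ro k - cl b)) κ *
        max (dsum (n + 1) W 2 (ro k + cl b)) κ)
      ≤ W (ro k, cl b) / κ0 ^ 2 :=
        div_le_div_of_nonneg_left (tl_W hL hW k b) (by positivity) h2
    _ ≤ (L / ((n + 1 : ℕ) : ℝ)) / κ0 ^ 2 := div_le_div_of_nonneg_right h1 (by positivity)
    _ = L / κ0 ^ 2 / (n + 1) := by
        push_cast
        rw [div_right_comm]

private theorem tl_mk (U : Finset (ℤ ⊕ ℤ)) (r : Option ℤ) (y : ℤ) :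
    0 ≤ mk U r y ∧ mk U r y ≤ 1 := by
  unfold mk
  cases r with
  | none => exact ⟨zero_le_one, le_rfl⟩
  | some x =>
    dsimp only
    split_ifs
    · exact ⟨zero_le_one, le_rfl⟩
    · exact ⟨le_rfl, zero_le_one⟩

/-- `u` is one of the two diagonals of `(x, y)` -/
private def Hit (u : ℤ ⊕ ℤ) (x y : ℤ) : Prop := u = Sum.inl (x - y) ∨ u = Sum.inr (x + y)

private theorem hit_y {u : ℤ ⊕ ℤ} {x y y' : ℤ} (h : Hit u x y) (h' : Hit u x y') : y = y' := by
  rcases h with h | h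
  · rcases h' with h' | h'
    · have := Sum.inl.inj (h.symm.trans h')
      omega
    · exact absurd (h.symm.trans h') (by simp)
  · rcases h' with h' | h'
    · exact absurd (h.symm.trans h') (by simp)
    · have := Sum.inr.inj (h.symm.trans h')
      omega

private theorem hit_x {u : ℤ ⊕ ℤ} {x x' y : ℤ} (h : Hit u x y) (h' : Hit u x' y) : x = x' := by
  rcases h with h | h
  · rcases h' with h' | h'
    · have := Sum.inl.inj (h.symm.trans h')
      omega
    · exact absurd (h.symm.trans h') (by simp)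
  · rcases h' with h' | h'
    · exact absurd (h.symm.trans h') (by simp)
    · have := Sum.inr.inj (h.symm.trans h')
      omega

private theorem oc_insert {u : ℤ ⊕ ℤ} {U : Finset (ℤ ⊕ ℤ)} {x y : ℤ} (h : ¬ Hit u x y) :
    Oc (insert u U) x y ↔ Oc U x y := by
  unfold Oc
  rw [mem_insert, mem_insert]
  have h1 : ¬ (Sum.inl (x - y) = u) := fun e => h (Or.inl e.symm)
  have h2 : ¬ (Sum.inr (x + y) = u) := fun e => h (Or.inr e.symm)
  simp only [h1, h2, false_or]

private theorem fr_insert {u : ℤ ⊕ ℤ} {U : Finset (ℤ ⊕ ℤ)} {x y : ℤ} (h : ¬ Hit u x y) :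
    Fr (insert u U) x y ↔ Fr U x y := by
  unfold Fr
  rw [mem_insert, mem_insert]
  have h1 : ¬ (Sum.inl (x - y) = u) := fun e => h (Or.inl e.symm)
  have h2 : ¬ (Sum.inr (x + y) = u) := fun e => h (Or.inr e.symm)
  simp only [h1, h2, false_or]

private theorem mk_insert {u : ℤ ⊕ ℤ} {U : Finset (ℤ ⊕ ℤ)} {r : Option ℤ} {y : ℤ}
    (h : ∀ x ∈ r, ¬ Hit u x y) : mk (insert u U) r y = mk U r y := by
  unfold mk
  cases r with
  | none => rfl
  | some x =>
    dsimp only
    have h1 := fr_insert (U := U) (h x rfl)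
    by_cases h2 : Fr U x y
    · rw [if_pos (h1.2 h2), if_pos h2]
    · rw [if_neg (fun h3 => h2 (h1.1 h3)), if_neg h2]

private theorem sum_one {m : ℕ} (p : Fin m → Prop) [DecidablePred p]
    (h : ∀ i j, p i → p j → i = j) :
    ∑ i, (if p i then (1 : ℝ) else 0) ≤ 1 := by
  rw [← Finset.sum_filter, Finset.sum_const, nsmul_eq_mul, mul_one]
  have h1 : (univ.filter p).card ≤ 1 := by
    rw [Finset.card_le_one]
    intro i hi j hj
    exact h i j (mem_filter.1 hi).2 (mem_filter.1 hj).2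
  exact_mod_cast h1

theorem lip_TM {L : ℝ} (hL : 1 ≤ L) {n : ℕ} {W : ℤ × ℤ → ℝ} (hW : Bd L (n + 1) W) {κ κ0 : ℝ} (hκ : 0 < κ)
    (hκ0 : κ ≤ κ0) (hκ1 : κ0 ≤ 1) (a : Fin (n + 1)) (r : Option ℤ) (g : Fin n → Fin (n + 1) → ℝ)
    (hg : ∀ k b, 0 ≤ g k b ∧ g k b ≤ 1) (u : ℤ ⊕ ℤ) (U : Finset (ℤ ⊕ ℤ)) :
    |TM n W κ κ0 (insert u U) a r g - TM n W κ κ0 U a r g| ≤ 3 * L / κ0 ^ 2 := by
  classical
  have hκ0' : 0 < κ0 := hκ.trans_le hκ0
  have _ := hκ1
  have hn : (0 : ℝ) < n + 1 := by positivity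
  have hM : 0 ≤ L / κ0 ^ 2 / (n + 1) := by positivity
  -- bounds for a single term
  have ht : ∀ (V : Finset (ℤ ⊕ ℤ)) (k : Fin n) (b : Fin (n + 1)),
      0 ≤ (if Mn (n + 1) W κ0 (ro k) (cl b) ∧ Oc V (ro k) (cl b) ∧ Fr V (ro k) (cl a) then
        om (n + 1) W κ (ro k) (cl b) * mk V r (cl b) * g k b else 0) ∧
      (if Mn (n + 1) W κ0 (ro k) (cl b) ∧ Oc V (ro k) (cl b) ∧ Fr V (ro k) (cl a) then
        om (n + 1) W κ (ro k) (cl b) * mk V r (cl b) * g k b else 0) ≤ L / κ0 ^ 2 / (n + 1) := by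
    intro V k b
    have h0 := tl_om hL hW hκ k b
    have h1 := tl_mk V r (cl b)
    have h2 := hg k b
    split_ifs with h
    · have h3 := tl_om_le hL hW hκ hκ0 k b h.1
      refine ⟨mul_nonneg (mul_nonneg h0 h1.1) h2.1, ?_⟩
      calc om (n + 1) W κ (ro k) (cl b) * mk V r (cl b) * g k b
          ≤ om (n + 1) W κ (ro k) (cl b) * 1 * 1 := by
            refine mul_le_mul (mul_le_mul_of_nonneg_left h1.2 h0) h2.2 h2.1 (by rwa [mul_one])
        _ ≤ _ := by rwa [mul_one, mul_one]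
    · exact ⟨le_rfl, hM⟩
  have hkey : ∀ (k : Fin n) (b : Fin (n + 1)),
      |(if Mn (n + 1) W κ0 (ro k) (cl b) ∧ Oc (insert u U) (ro k) (cl b) ∧
          Fr (insert u U) (ro k) (cl a) then
          om (n + 1) W κ (ro k) (cl b) * mk (insert u U) r (cl b) * g k b else 0) -
        (if Mn (n + 1) W κ0 (ro k) (cl b) ∧ Oc U (ro k) (cl b) ∧ Fr U (ro k) (cl a) then
          om (n + 1) W κ (ro k) (cl b) * mk U r (cl b) * g k b else 0)| ≤
      L / κ0 ^ 2 / (n + 1) * ((if Hit u (ro k) (cl b) then 1 else 0) +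
        (if Hit u (ro k) (cl a) then 1 else 0) +
        (if ∃ x ∈ r, Hit u x (cl b) then 1 else 0)) := by
    intro k b
    by_cases hA : Hit u (ro k) (cl b) ∨ Hit u (ro k) (cl a) ∨ ∃ x ∈ r, Hit u x (cl b)
    · have h1 : (1 : ℝ) ≤ (if Hit u (ro k) (cl b) then 1 else 0) +
        (if Hit u (ro k) (cl a) then 1 else 0) +
        (if ∃ x ∈ r, Hit u x (cl b) then 1 else 0) := by
        have a1 : (0 : ℝ) ≤ (if Hit u (ro k) (cl b) then 1 else 0) := by
          split_ifs <;> norm_num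
        have a2 : (0 : ℝ) ≤ (if Hit u (ro k) (cl a) then 1 else 0) := by
          split_ifs <;> norm_num
        have a3 : (0 : ℝ) ≤ (if ∃ x ∈ r, Hit u x (cl b) then 1 else 0) := by
          split_ifs <;> norm_num
        rcases hA with h | h | h
        · rw [if_pos h]
          linarith
        · rw [if_pos h]
          linarith
        · rw [if_pos h]
          linarith
      have h2 := ht (insert u U) k b
      have h3 := ht U k b
      calc _ ≤ L / κ0 ^ 2 / (n + 1) := by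
            rw [abs_le]
            constructor <;> linarith [h2.1, h2.2, h3.1, h3.2]
        _ ≤ _ := le_mul_of_one_le_right hM h1
    · rw [not_or, not_or] at hA
      obtain ⟨h1, h2, h3⟩ := hA
      have h3' : ∀ x ∈ r, ¬ Hit u x (cl b) := fun x hx hh => h3 ⟨x, hx, hh⟩
      rw [if_neg h1, if_neg h2, if_neg h3, mk_insert h3']
      have h4 : (Mn (n + 1) W κ0 (ro k) (cl b) ∧ Oc (insert u U) (ro k) (cl b) ∧
          Fr (insert u U) (ro k) (cl a)) ↔
          (Mn (n + 1) W κ0 (ro k) (cl b) ∧ Oc U (ro k) (cl b) ∧ Fr U (ro k) (cl a)) := by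
        rw [oc_insert h1, fr_insert h2]
      rw [if_congr h4 rfl rfl, sub_self, abs_zero]
      simp
  have hclinj : ∀ b b' : Fin (n + 1), cl b = cl b' → b = b' := by
    intro b b' h
    unfold cl at h
    exact Fin.ext (by exact_mod_cast h)
  have hroinj : ∀ k k' : Fin n, ro k = ro k' → k = k' := by
    intro k k' h
    unfold ro at h
    exact Fin.ext (by omega)
  have h10 : ∑ _k : Fin n, (1 : ℝ) = n := by simp
  have hS1 : ∑ k : Fin n, ∑ b : Fin (n + 1), (if Hit u (ro k) (cl b) then (1 : ℝ) else 0) ≤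
      n + 1 := by
    have h1 : ∑ k : Fin n, ∑ b : Fin (n + 1), (if Hit u (ro k) (cl b) then (1 : ℝ) else 0) ≤
        ∑ k : Fin n, (1 : ℝ) := Finset.sum_le_sum fun k _ =>
      sum_one _ fun i j hi hj => hclinj i j (hit_y hi hj)
    rw [h10] at h1
    linarith
  have hS2 : ∑ k : Fin n, ∑ _b : Fin (n + 1), (if Hit u (ro k) (cl a) then (1 : ℝ) else 0) ≤
      n + 1 := by
    have h1 : ∑ k : Fin n, ∑ _b : Fin (n + 1), (if Hit u (ro k) (cl a) then (1 : ℝ) else 0) =
        (n + 1) * ∑ k : Fin n, (if Hit u (ro k) (cl a) then (1 : ℝ) else 0) := by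
      rw [Finset.mul_sum]
      refine Finset.sum_congr rfl fun k _ => ?_
      rw [Finset.sum_const, Finset.card_univ, Fintype.card_fin, nsmul_eq_mul]
      push_cast
      rfl
    rw [h1]
    have h2 : ∑ k : Fin n, (if Hit u (ro k) (cl a) then (1 : ℝ) else 0) ≤ 1 :=
      sum_one _ fun i j hi hj => hroinj i j (hit_x hi hj)
    nlinarith
  have hS3 : ∑ k : Fin n, ∑ b : Fin (n + 1),
      (if ∃ x ∈ r, Hit u x (cl b) then (1 : ℝ) else 0) ≤ n + 1 := by
    have h1 : ∑ k : Fin n, ∑ b : Fin (n + 1),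
        (if ∃ x ∈ r, Hit u x (cl b) then (1 : ℝ) else 0) ≤ ∑ k : Fin n, (1 : ℝ) := by
      refine Finset.sum_le_sum fun k _ => sum_one _ fun i j hi hj => ?_
      obtain ⟨x, hx, hi⟩ := hi
      obtain ⟨x', hx', hj⟩ := hj
      have hxx : x = x' := Option.mem_unique hx hx'
      subst hxx
      exact hclinj i j (hit_y hi hj)
    rw [h10] at h1
    linarith
  unfold TM
  rw [← Finset.sum_sub_distrib]
  simp only [← Finset.sum_sub_distrib]
  calc _ ≤ ∑ k : Fin n, ∑ b : Fin (n + 1), L / κ0 ^ 2 / (n + 1) *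
        ((if Hit u (ro k) (cl b) then 1 else 0) + (if Hit u (ro k) (cl a) then 1 else 0) +
          (if ∃ x ∈ r, Hit u x (cl b) then 1 else 0)) := by
        refine (Finset.abs_sum_le_sum_abs _ _).trans (Finset.sum_le_sum fun k _ => ?_)
        exact (Finset.abs_sum_le_sum_abs _ _).trans (Finset.sum_le_sum fun b _ => hkey k b)
    _ = L / κ0 ^ 2 / (n + 1) *
        ((∑ k : Fin n, ∑ b : Fin (n + 1), (if Hit u (ro k) (cl b) then (1 : ℝ) else 0)) +
        (∑ k : Fin n, ∑ _b : Fin (n + 1), (if Hit u (ro k) (cl a) then (1 : ℝ) else 0)) +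
        (∑ k : Fin n, ∑ b : Fin (n + 1),
          (if ∃ x ∈ r, Hit u x (cl b) then (1 : ℝ) else 0))) := by
        simp only [← Finset.mul_sum, Finset.sum_add_distrib]
    _ ≤ L / κ0 ^ 2 / (n + 1) * (3 * (n + 1)) := by
        refine mul_le_mul_of_nonneg_left ?_ hM
        linarith
    _ = 3 * L / κ0 ^ 2 := by
        field_simp

theorem TA_le {L : ℝ} (hL : 1 ≤ L) {n : ℕ} {W : ℤ × ℤ → ℝ} (hW : Bd L (n + 1) W) {κ κ0 : ℝ} (hκ : 0 < κ)
    (a : Fin (n + 1)) (r : Option ℤ) (g : Fin n → Fin (n + 1) → ℝ)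
    (hg : ∀ k b, 0 ≤ g k b ∧ g k b ≤ 1) (U : Finset (ℤ ⊕ ℤ)) :
    TM n W κ κ0 U a r g ≤ TA n W κ U a r g ∧
      TA n W κ U a r g ≤ TM n W κ κ0 U a r g + SC n W κ κ0 U := by
  classical
  have hX : ∀ (k : Fin n) (b : Fin (n + 1)),
      0 ≤ om (n + 1) W κ (ro k) (cl b) * mk U r (cl b) * g k b ∧
        om (n + 1) W κ (ro k) (cl b) * mk U r (cl b) * g k b ≤
          om (n + 1) W κ (ro k) (cl b) := by
    intro k b
    have h0 := tl_om hL hW hκ k b
    have h1 := tl_mk U r (cl b)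
    have h2 := hg k b
    refine ⟨mul_nonneg (mul_nonneg h0 h1.1) h2.1, ?_⟩
    calc om (n + 1) W κ (ro k) (cl b) * mk U r (cl b) * g k b
        ≤ om (n + 1) W κ (ro k) (cl b) * 1 * 1 := by
          refine mul_le_mul (mul_le_mul_of_nonneg_left h1.2 h0) h2.2 h2.1 (by rwa [mul_one])
      _ = _ := by rw [mul_one, mul_one]
  constructor
  · unfold TM TA
    refine Finset.sum_le_sum fun k _ => Finset.sum_le_sum fun b _ => ?_
    by_cases h : Oc U (ro k) (cl b) ∧ Fr U (ro k) (cl a)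
    · rw [if_pos h]
      split_ifs
      · exact le_rfl
      · exact (hX k b).1
    · rw [if_neg h, if_neg (fun h' => h h'.2)]
  · unfold TM TA SC
    rw [← Finset.sum_add_distrib]
    simp only [← Finset.sum_add_distrib]
    refine Finset.sum_le_sum fun k _ => Finset.sum_le_sum fun b _ => ?_
    have h0 := tl_om hL hW hκ k b
    have h1 := hX k b
    by_cases h : Oc U (ro k) (cl b) ∧ Fr U (ro k) (cl a)
    · rw [if_pos h]
      by_cases h' : Mn (n + 1) W κ0 (ro k) (cl b)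
      · rw [if_pos ⟨h', h⟩, if_neg (fun h'' => h''.2 h'), add_zero]
      · rw [if_neg (fun h'' => h' h''.1), if_pos ⟨h.1, h'⟩, zero_add]
        exact h1.2
    · rw [if_neg h, if_neg (fun h' => h h'.2), zero_add]
      split_ifs
      · exact h0
      · exact le_rfl

end Pool.Agent.NQR
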