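import Pool.Agent.NQR.Defs
import Pool.Agent.NQR.GCelA
import Pool.Agent.NQR.GCelB
import Pool.Agent.NQR.GStr

/-!
# NQR-TSum: total weights for typical diagonal sets

PLAN. `N = n + 1`, `l = ll z N`, `m = l/2`, `ρ = √(l/N) ≤ 2 z^(-40)`, `κ = z^(-4)`, `Δ_σ = |cD l U σ - mD σ|` (differences),
`Δ'_σ = |cS l U σ - mS σ|` (sums), `∑ Δ + ∑ Δ' ≤ N/z^18` (hypothesis), all `Δ ≤ m`. For a square `e = (ro k, cl b)` in the cell `D`:
`om ≤ (1 + C ρ/κ) (Wh D/m²) / (P_D Q_D)`, `P_D = max (mD D.2/m) κ`, `Q_D = max (mS D.1/m) κ` (`cell_facts`, `mD_mean`, `mS_mean`: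
`max p κ ≥ P_D (1 - L ρ/κ)`). The number of squares of the cell with both diagonals in `U` is `≤ cS * cD`, and
`cD/(m P_D) ≤ 1 + Δ/(m κ)`, `cS/(m Q_D) ≤ 1 + Δ'/(m κ)`. So for any set `𝒟` of cells the total is
`≤ (1 + Cρ/κ) ∑_{D ∈ 𝒟} Wh D (1 + Δ/(mκ)) (1 + Δ'/(mκ)) ≤ (1 + Cρ/κ) [∑_{𝒟} Wh + ∑_D Wh Δ/(mκ) + ∑_D Wh Δ'/(mκ) (1 + 1/κ)]`
(`Δ ≤ m`), and `∑_D Wh Δ_{D.2} ≤ ∑_σ Δ_σ C l` (`cells_l1`, third and fourth part), so the last two sums are
`≤ C' (N/z^18)/κ² = C' N/z^10`. `su_le`: `𝒟 = DI`, `∑ Wh ≤ N + C (N ρ + l)`. `sc_le`: `𝒟` = cells of `corner_cells` with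
`κ0 = 1/z`: `∑ Wh ≤ C (N/z + l + 1)²/N ≤ 4 C N/z²`.
-/

set_option autoImplicit false

open Finset

namespace Pool.Agent.NQR

open Pool.Agent.NQ (board dsum F Ent Dg phi ln Q Qset st cellD bern)

private theorem ts_inv {κ x μ δ : ℝ} (hκ : 0 < κ) (hδ : 0 ≤ δ) (h : |x - μ| ≤ δ) :
    1 / max x κ ≤ (1 + δ / κ) / max μ κ := by
  have h1 : 0 < max x κ := lt_of_lt_of_le hκ (le_max_right _ _)
  have h2 : 0 < max μ κ := lt_of_lt_of_le hκ (le_max_right _ _)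
  rw [div_le_div_iff₀ h1 h2, one_mul]
  have h3 : δ ≤ δ / κ * max x κ := by
    calc δ = δ / κ * κ := by field_simp
      _ ≤ δ / κ * max x κ := mul_le_mul_of_nonneg_left (le_max_right _ _) (by positivity)
  have h4 := (abs_le.1 h).1
  have h5 : max μ κ ≤ max x κ + δ := by
    refine max_le ?_ ?_
    · have := le_max_left x κ
      linarith
    · have := le_max_right x κ
      linarith
  rw [add_mul, one_mul]
  linarith

private theorem ts_cnt {κ c M m : ℝ} (hκ : 0 < κ) (hm : 0 < m) (hM : 0 ≤ M) :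
    c / (m * max (M / m) κ) ≤ 1 + |c - M| / (m * κ) := by
  have h1 : κ ≤ max (M / m) κ := le_max_right _ _
  have h2 : 0 < max (M / m) κ := lt_of_lt_of_le hκ h1
  have h3 : c ≤ M + |c - M| := by
    have := le_abs_self (c - M)
    linarith
  have h4 : M / (m * max (M / m) κ) ≤ 1 := by
    rw [div_le_one (by positivity)]
    calc M = m * (M / m) := by field_simp
      _ ≤ m * max (M / m) κ := mul_le_mul_of_nonneg_left (le_max_left _ _) hm.le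
  have h5 : |c - M| / (m * max (M / m) κ) ≤ |c - M| / (m * κ) :=
    div_le_div_of_nonneg_left (abs_nonneg _) (by positivity) (mul_le_mul_of_nonneg_left h1 hm.le)
  calc c / (m * max (M / m) κ) ≤ (M + |c - M|) / (m * max (M / m) κ) :=
        div_le_div_of_nonneg_right h3 (by positivity)
    _ = M / (m * max (M / m) κ) + |c - M| / (m * max (M / m) κ) := add_div _ _ _
    _ ≤ 1 + |c - M| / (m * κ) := add_le_add h4 h5

private theorem ts_om {N : ℕ} {W : ℤ × ℤ → ℝ} (hW : ∀ e, 0 ≤ W e) {κ : ℝ} (hκ : 0 < κ) (x y : ℤ) :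
    0 ≤ om N W κ x y := by
  unfold om
  have h1 : κ ≤ max (dsum N W 3 (x - y)) κ := le_max_right _ _
  have h2 : κ ≤ max (dsum N W 2 (x + y)) κ := le_max_right _ _
  exact div_nonneg (hW _) (mul_nonneg (hκ.le.trans h1) (hκ.le.trans h2))

open Classical in
private theorem ts_sq (L : ℝ) (hL : 1 ≤ L) : ∃ C : ℝ, 1 ≤ C ∧ ∀ (N : ℕ) (W : ℤ × ℤ → ℝ)
    (A B : ℤ → ℝ), 1 ≤ N → Rf L N W A B → ∀ l : ℤ, 0 < l → Even l → l ≤ N → ∀ κ : ℝ, 0 < κ → κ ≤ 1 →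
    ∀ (U : Finset (ℤ ⊕ ℤ)) (E : Finset (ℤ × ℤ)) (T : Finset ((ℤ × ℤ) × (ℤ × ℤ))), T ⊆ DI N l →
    E ⊆ board N → (∀ e ∈ E, Oc U e.1 e.2) → (∀ e ∈ E, cellD l e ∈ T) →
    ∑ e ∈ E, om N W κ e.1 e.2 ≤
      ((1 + C * Real.sqrt (l / N)) * (1 + L * Real.sqrt (l / N) / κ) ^ 2) *
        (∑ D ∈ T, Wh N W A B l D + C / κ ^ 2 * dev N W l U) := by
  obtain ⟨C1, hC1, h1⟩ := cell_facts L hL
  obtain ⟨C2, hC2, h2⟩ := cells_l1 L hL
  refine ⟨C1 + 6 * C2, by linarith, ?_⟩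
  intro N W A B hN hR l hl hle hlN κ hκ hκ1 U E T hT hE hOc hET
  have hL0 : 0 < L := by linarith
  have hlr : (0 : ℝ) < l := by exact_mod_cast hl
  set m : ℝ := (l : ℝ) / 2 with hm
  have hm0 : 0 < m := by positivity
  set ρ : ℝ := Real.sqrt (l / N) with hρ
  have hρ0 : 0 ≤ ρ := Real.sqrt_nonneg _
  have hLρ : 0 ≤ L * ρ / κ := by positivity
  have hWh : ∀ D ∈ DI N l, 0 ≤ Wh N W A B l D := by
    intro D hD
    obtain ⟨e, he, rfl⟩ := Finset.mem_image.1 hD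
    exact (h1 N W A B hN hR l hl hle hlN e he).2.2.1.le
  -- one cell
  have hcell : ∀ D ∈ T, ∑ e ∈ E.filter (fun e => cellD l e = D), om N W κ e.1 e.2 ≤
      ((1 + C1 * ρ) * (1 + L * ρ / κ) ^ 2) * (Wh N W A B l D *
        ((1 + |(cD l U D.2 : ℝ) - mD N W l D.2| / (m * κ)) *
          (1 + |(cS l U D.1 : ℝ) - mS N W l D.1| / (m * κ)))) := by
    intro D hD
    set P : ℝ := max (mD N W l D.2 / m) κ with hP
    set R : ℝ := max (mS N W l D.1 / m) κ with hRr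
    have hP0 : 0 < P := lt_of_lt_of_le hκ (le_max_right _ _)
    have hR0 : 0 < R := lt_of_lt_of_le hκ (le_max_right _ _)
    have hWD := hWh D (hT hD)
    have hb : ∀ e ∈ E.filter (fun e => cellD l e = D), om N W κ e.1 e.2 ≤
        ((1 + C1 * ρ) * (Wh N W A B l D / m ^ 2)) * (((1 + L * ρ / κ) / P) * ((1 + L * ρ / κ) / R)) := by
      intro e he
      obtain ⟨he, heD⟩ := Finset.mem_filter.1 he
      have h3 := (h1 N W A B hN hR l hl hle hlN e (hE he)).2.1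
      rw [heD] at h3
      have h4 := mD_mean hL hR hl hle (e.1 - e.2)
      have h5 := mS_mean hL hR hl hle (e.1 + e.2)
      have h6 : st l (e.1 - e.2) = D.2 := by rw [← heD]; rfl
      have h7 : st l (e.1 + e.2) = D.1 := by rw [← heD]; rfl
      rw [h6] at h4
      rw [h7] at h5
      have h8 := ts_inv hκ (by positivity : (0 : ℝ) ≤ L * ρ) h4
      have h9 := ts_inv hκ (by positivity : (0 : ℝ) ≤ L * ρ) h5
      have h10 : om N W κ e.1 e.2 = W e * ((1 / max (dsum N W 3 (e.1 - e.2)) κ) *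
          (1 / max (dsum N W 2 (e.1 + e.2)) κ)) := by
        unfold om
        rw [div_eq_mul_one_div, one_div_mul_one_div]
      have h11 : 0 ≤ 1 / max (dsum N W 2 (e.1 + e.2)) κ := by
        have : κ ≤ max (dsum N W 2 (e.1 + e.2)) κ := le_max_right _ _
        exact div_nonneg zero_le_one (hκ.le.trans this)
      rw [h10]
      refine mul_le_mul h3 (mul_le_mul h8 h9 h11 (by positivity)) ?_ (by positivity)
      refine mul_nonneg (div_nonneg zero_le_one (hκ.le.trans (le_max_right _ _))) h11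
    have hcard : ((E.filter (fun e => cellD l e = D)).card : ℝ) ≤ (cD l U D.2 : ℝ) * cS l U D.1 := by
      have h3 : (E.filter (fun e => cellD l e = D)).card ≤
          ((U.toLeft.filter (fun s => st l s = D.2)) ×ˢ (U.toRight.filter (fun s => st l s = D.1))).card := by
        refine Finset.card_le_card_of_injOn (fun e => (e.1 - e.2, e.1 + e.2)) ?_ ?_
        · intro e he
          obtain ⟨he, heD⟩ := Finset.mem_filter.1 he
          have h4 := hOc e he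
          have h6 : st l (e.1 - e.2) = D.2 := by rw [← heD]; rfl
          have h7 : st l (e.1 + e.2) = D.1 := by rw [← heD]; rfl
          exact Finset.mem_product.2 ⟨Finset.mem_filter.2 ⟨Finset.mem_toLeft.2 h4.1, h6⟩,
            Finset.mem_filter.2 ⟨Finset.mem_toRight.2 h4.2, h7⟩⟩
        · intro e _ e' _ h
          obtain ⟨h4, h5⟩ := Prod.mk.inj h
          exact Prod.ext (by omega) (by omega)
      rw [Finset.card_product] at h3
      exact_mod_cast h3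
    have hsum := Finset.sum_le_card_nsmul _ _ _ hb
    rw [nsmul_eq_mul] at hsum
    refine hsum.trans ((mul_le_mul_of_nonneg_right hcard (by positivity)).trans ?_)
    have h3 := ts_cnt (c := (cD l U D.2 : ℝ)) hκ hm0 (mD_lt hL hR hl hle D.2).1
    have h4 := ts_cnt (c := (cS l U D.1 : ℝ)) hκ hm0 (mS_lt hL hR hl hle D.1).1
    have h5 : (cD l U D.2 : ℝ) * cS l U D.1 * ((1 + C1 * ρ) * (Wh N W A B l D / m ^ 2) *
        ((1 + L * ρ / κ) / P * ((1 + L * ρ / κ) / R))) =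
        ((1 + C1 * ρ) * (1 + L * ρ / κ) ^ 2) * (Wh N W A B l D *
          ((cD l U D.2 : ℝ) / (m * P) * ((cS l U D.1 : ℝ) / (m * R)))) := by
      field_simp
    rw [h5]
    refine mul_le_mul_of_nonneg_left (mul_le_mul_of_nonneg_left ?_ hWD) (by positivity)
    exact mul_le_mul h3 h4 (by positivity) (by positivity)
  -- sum over the cells
  have hsplit : ∑ e ∈ E, om N W κ e.1 e.2 =
      ∑ D ∈ T, ∑ e ∈ E.filter (fun e => cellD l e = D), om N W κ e.1 e.2 :=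
    (Finset.sum_fiberwise_of_maps_to hET _).symm
  rw [hsplit]
  refine (Finset.sum_le_sum hcell).trans ?_
  rw [← Finset.mul_sum]
  have hdev0 : 0 ≤ dev N W l U := Finset.sum_nonneg fun σ _ => by positivity
  have hSI : ∀ D ∈ DI N l, D.1 ∈ SI N l ∧ D.2 ∈ SI N l := by
    intro D hD
    obtain ⟨e, he, rfl⟩ := Finset.mem_image.1 hD
    obtain ⟨he1, he2⟩ := Finset.mem_product.1 he
    rw [Finset.mem_Ico] at he1 he2
    refine ⟨Finset.mem_image.2 ⟨e.1 + e.2, ?_, rfl⟩, Finset.mem_image.2 ⟨e.1 - e.2, ?_, rfl⟩⟩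
    · rw [Finset.mem_Icc]
      omega
    · rw [Finset.mem_Icc]
      omega
  have hgrp : ∀ (π : (ℤ × ℤ) × (ℤ × ℤ) → ℤ × ℤ), (∀ D ∈ DI N l, π D ∈ SI N l) →
      (∀ σ, ∑ D ∈ (DI N l).filter (fun D => π D = σ), Wh N W A B l D ≤ C2 * l) →
      ∀ g : ℤ × ℤ → ℝ, (∀ σ, 0 ≤ g σ) →
      ∑ D ∈ T, Wh N W A B l D * (g (π D) / (m * κ)) ≤ 2 * C2 / κ * ∑ σ ∈ SI N l, g σ := by
    intro π hπ hs g hg
    have h3 : ∑ D ∈ T, Wh N W A B l D * (g (π D) / (m * κ)) ≤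
        ∑ D ∈ DI N l, Wh N W A B l D * (g (π D) / (m * κ)) := by
      refine Finset.sum_le_sum_of_subset_of_nonneg hT fun D hD _ => ?_
      exact mul_nonneg (hWh D hD) (div_nonneg (hg _) (by positivity))
    refine h3.trans ?_
    rw [← Finset.sum_fiberwise_of_maps_to hπ, Finset.mul_sum]
    refine Finset.sum_le_sum fun σ _ => ?_
    have h4 : ∑ D ∈ (DI N l).filter (fun D => π D = σ), Wh N W A B l D * (g (π D) / (m * κ)) =
        (∑ D ∈ (DI N l).filter (fun D => π D = σ), Wh N W A B l D) * (g σ / (m * κ)) := by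
      rw [Finset.sum_mul]
      refine Finset.sum_congr rfl fun D hD => ?_
      rw [(Finset.mem_filter.1 hD).2]
    rw [h4]
    have h5 : 2 * C2 / κ * g σ = (C2 * l) * (g σ / (m * κ)) := by
      have : (l : ℝ) = 2 * m := by rw [hm]; ring
      rw [this]
      field_simp
    rw [h5]
    exact mul_le_mul_of_nonneg_right (hs σ) (div_nonneg (hg _) (by positivity))
  have hmain : ∑ D ∈ T, Wh N W A B l D *
        ((1 + |(cD l U D.2 : ℝ) - mD N W l D.2| / (m * κ)) *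
          (1 + |(cS l U D.1 : ℝ) - mS N W l D.1| / (m * κ))) ≤
      ∑ D ∈ T, Wh N W A B l D + (C1 + 6 * C2) / κ ^ 2 * dev N W l U := by
    have h3 : ∀ D ∈ T, Wh N W A B l D *
        ((1 + |(cD l U D.2 : ℝ) - mD N W l D.2| / (m * κ)) *
          (1 + |(cS l U D.1 : ℝ) - mS N W l D.1| / (m * κ))) ≤
        Wh N W A B l D + (Wh N W A B l D * (|(cD l U D.2 : ℝ) - mD N W l D.2| / (m * κ)) +
          2 / κ * (Wh N W A B l D * (|(cS l U D.1 : ℝ) - mS N W l D.1| / (m * κ)))) := by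
      intro D hD
      have hWD := hWh D (hT hD)
      have h4 : |(cD l U D.2 : ℝ) - mD N W l D.2| ≤ m := by
        have h5 := cD_le hl hle U D.2
        obtain ⟨h6, h7⟩ := mD_lt hL hR hl hle D.2
        have h8 : mD N W l D.2 ≤ m := by
          have h9 : mD N W l D.2 / m ≤ 1 := h7.trans (by
            have : 0 < 1 / L := by positivity
            linarith)
          exact (div_le_one hm0).1 h9
        have h9 : (0 : ℝ) ≤ cD l U D.2 := Nat.cast_nonneg _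
        rw [abs_le]
        constructor
        · linarith
        · linarith
      have h5 : |(cD l U D.2 : ℝ) - mD N W l D.2| / (m * κ) ≤ 1 / κ := by
        rw [div_le_div_iff₀ (by positivity) hκ, one_mul]
        exact mul_le_mul_of_nonneg_right h4 hκ.le
      have h6 : 1 + |(cD l U D.2 : ℝ) - mD N W l D.2| / (m * κ) ≤ 2 / κ := by
        have : 1 ≤ 1 / κ := by rw [le_div_iff₀ hκ]; linarith
        have h7 : 2 / κ = 1 / κ + 1 / κ := by ring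
        rw [h7]
        linarith
      have hb0 : 0 ≤ |(cS l U D.1 : ℝ) - mS N W l D.1| / (m * κ) := by positivity
      generalize |(cD l U D.2 : ℝ) - mD N W l D.2| / (m * κ) = a at h6 ⊢
      generalize |(cS l U D.1 : ℝ) - mS N W l D.1| / (m * κ) = b at hb0 ⊢
      have h8 := mul_le_mul_of_nonneg_right h6 (mul_nonneg hWD hb0)
      have e1 : Wh N W A B l D * ((1 + a) * (1 + b)) =
          Wh N W A B l D + (Wh N W A B l D * a + (1 + a) * (Wh N W A B l D * b)) := by ring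
      rw [e1]
      linarith
    refine (Finset.sum_le_sum h3).trans ?_
    rw [Finset.sum_add_distrib, Finset.sum_add_distrib, ← Finset.mul_sum]
    have h4 := hgrp (fun D => D.2) (fun D hD => (hSI D hD).2) (h2 N W A B hN hR l hl hle hlN).2.2.1
      (fun σ => |(cD l U σ : ℝ) - mD N W l σ|) (fun σ => abs_nonneg _)
    have h5 := hgrp (fun D => D.1) (fun D hD => (hSI D hD).1) (h2 N W A B hN hR l hl hle hlN).2.2.2
      (fun σ => |(cS l U σ : ℝ) - mS N W l σ|) (fun σ => abs_nonneg _)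
    have h6 : dev N W l U = ∑ σ ∈ SI N l, |(cD l U σ : ℝ) - mD N W l σ| +
        ∑ σ ∈ SI N l, |(cS l U σ : ℝ) - mS N W l σ| := Finset.sum_add_distrib
    have h7 : 0 ≤ ∑ σ ∈ SI N l, |(cD l U σ : ℝ) - mD N W l σ| :=
      Finset.sum_nonneg fun σ _ => abs_nonneg _
    have h8 : 0 ≤ ∑ σ ∈ SI N l, |(cS l U σ : ℝ) - mS N W l σ| :=
      Finset.sum_nonneg fun σ _ => abs_nonneg _
    have h9 : 1 ≤ 1 / κ := by rw [le_div_iff₀ hκ]; linarith
    have h10 := mul_le_mul_of_nonneg_left h5 (by positivity : (0 : ℝ) ≤ 2 / κ)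
    refine add_le_add_right ((add_le_add h4 h10).trans ?_) _
    rw [h6]
    generalize ∑ σ ∈ SI N l, |(cD l U σ : ℝ) - mD N W l σ| = X at h7 ⊢
    generalize ∑ σ ∈ SI N l, |(cS l U σ : ℝ) - mS N W l σ| = Y at h8 ⊢
    have e1 : 2 * C2 / κ * X + 2 / κ * (2 * C2 / κ * Y) =
        2 * C2 * (1 / κ * X) + 4 * C2 * ((1 / κ) ^ 2 * Y) := by ring
    have e2 : (C1 + 6 * C2) / κ ^ 2 * (X + Y) = (C1 + 6 * C2) * ((1 / κ) ^ 2 * X) +
        (C1 + 6 * C2) * ((1 / κ) ^ 2 * Y) := by ring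
    rw [e1, e2]
    have h11 : 1 / κ * X ≤ (1 / κ) ^ 2 * X := by
      refine mul_le_mul_of_nonneg_right ?_ h7
      rw [sq]
      exact le_mul_of_one_le_left (by positivity) h9
    have h12 : 0 ≤ (1 / κ) ^ 2 * X := by positivity
    have h13 : 0 ≤ (1 / κ) ^ 2 * Y := by positivity
    refine add_le_add ?_ ?_
    · exact (mul_le_mul_of_nonneg_left h11 (by positivity)).trans
        (mul_le_mul_of_nonneg_right (by linarith) h12)
    · exact mul_le_mul_of_nonneg_right (by linarith) h13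
  have hT0 : 0 ≤ ∑ D ∈ T, Wh N W A B l D := Finset.sum_nonneg fun D hD => hWh D (hT hD)
  refine (mul_le_mul_of_nonneg_left hmain (by positivity)).trans ?_
  refine mul_le_mul_of_nonneg_right (mul_le_mul_of_nonneg_right ?_ (by positivity)) (by positivity)
  have : 0 ≤ 6 * C2 * ρ := by positivity
  linarith

private theorem ts_dbl {n : ℕ} {W : ℤ × ℤ → ℝ} (hW : ∀ e, 0 ≤ W e) {κ : ℝ} (hκ : 0 < κ)
    (U : Finset (ℤ ⊕ ℤ)) (P : ℤ → ℤ → Prop) (f : Fin n → Fin (n + 1) → ℝ)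
    (hf : ∀ k b, Oc U (ro k) (cl b) ∧ P (ro k) (cl b) → f k b = om (n + 1) W κ (ro k) (cl b))
    (hf0 : ∀ k b, ¬ (Oc U (ro k) (cl b) ∧ P (ro k) (cl b)) → f k b = 0) :
    ∃ E : Finset (ℤ × ℤ), E ⊆ board (n + 1) ∧ (∀ e ∈ E, Oc U e.1 e.2 ∧ P e.1 e.2) ∧
    ∑ k : Fin n, ∑ b : Fin (n + 1), f k b ≤ ∑ e ∈ E, om (n + 1) W κ e.1 e.2 := by
  classical
  refine ⟨(board (n + 1)).filter (fun e => Oc U e.1 e.2 ∧ P e.1 e.2), filter_subset _ _,
    fun e he => (mem_filter.1 he).2, ?_⟩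
  rw [Finset.sum_filter, ← Finset.sum_product']
  have h1 : ∀ x ∈ (univ : Finset (Fin n)) ×ˢ (univ : Finset (Fin (n + 1))),
      f x.1 x.2 = (fun e : ℤ × ℤ => if Oc U e.1 e.2 ∧ P e.1 e.2 then om (n + 1) W κ e.1 e.2 else 0)
        (ro x.1, cl x.2) := by
    intro x _
    show f x.1 x.2 = if Oc U (ro x.1) (cl x.2) ∧ P (ro x.1) (cl x.2) then
      om (n + 1) W κ (ro x.1) (cl x.2) else 0
    by_cases h : Oc U (ro x.1) (cl x.2) ∧ P (ro x.1) (cl x.2)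
    · rw [if_pos h, hf _ _ h]
    · rw [if_neg h, hf0 _ _ h]
  rw [Finset.sum_congr rfl h1]
  have hinj : Set.InjOn (fun x : Fin n × Fin (n + 1) => (ro x.1, cl x.2))
      ((univ : Finset (Fin n)) ×ˢ (univ : Finset (Fin (n + 1))) : Finset (Fin n × Fin (n + 1))) := by
    intro x _ y _ h
    obtain ⟨h2, h3⟩ := Prod.mk.inj h
    unfold ro at h2
    unfold cl at h3
    exact Prod.ext (Fin.ext (by omega)) (Fin.ext (by omega))
  rw [← Finset.sum_image (f := fun e : ℤ × ℤ =>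
    if Oc U e.1 e.2 ∧ P e.1 e.2 then om (n + 1) W κ e.1 e.2 else 0) hinj]
  refine Finset.sum_le_sum_of_subset_of_nonneg ?_ fun e _ _ => ?_
  · intro e he
    obtain ⟨x, _, rfl⟩ := Finset.mem_image.1 he
    refine Finset.mem_product.2 ⟨?_, ?_⟩
    · rw [Finset.mem_Ico]
      show 0 ≤ ((x.1 : ℕ) : ℤ) + 1 ∧ ((x.1 : ℕ) : ℤ) + 1 < ((n + 1 : ℕ) : ℤ)
      have := x.1.2
      push_cast
      omega
    · rw [Finset.mem_Ico]
      show 0 ≤ ((x.2 : ℕ) : ℤ) ∧ ((x.2 : ℕ) : ℤ) < ((n + 1 : ℕ) : ℤ)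
      have := x.2.2
      push_cast
      omega
  · split_ifs
    · exact ts_om hW hκ _ _
    · exact le_rfl

/-- the parameters -/
private theorem ts_par {z n : ℕ} (hz : 2 ≤ z) (hR : InR z (n + 1)) :
    0 < ll z (n + 1) ∧ Even (ll z (n + 1)) ∧ ll z (n + 1) ≤ ((n + 1 : ℕ) : ℤ) ∧
      Real.sqrt (ll z (n + 1) / ((n + 1 : ℕ) : ℝ)) ≤ 2 / (z : ℝ) ^ 40 ∧
      (ll z (n + 1) : ℝ) ≤ 2 * ((n + 1 : ℕ) : ℝ) / (z : ℝ) ^ 80 ∧
      (z : ℝ) ≤ ((n + 1 : ℕ) : ℝ) := by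
  have hz0 : 0 < z := by omega
  have hzr : (0 : ℝ) < z := by exact_mod_cast hz0
  have hN : z ^ 80 ≤ n + 1 := by
    refine le_trans ?_ hR.1
    calc z ^ 80 = (z ^ 40) ^ 2 := by rw [← pow_mul]
      _ ≤ (z ^ 40) ^ 500 := Nat.pow_le_pow_right (by positivity) (by norm_num)
  have h1 : 1 ≤ (n + 1) / z ^ 80 := (Nat.one_le_div_iff (by positivity)).2 hN
  have h2 : ((((n + 1) / z ^ 80 : ℕ)) : ℝ) ≤ ((n + 1 : ℕ) : ℝ) / (z : ℝ) ^ 80 := by
    have := @Nat.cast_div_le ℝ _ _ _ (n + 1) (z ^ 80)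
    push_cast at this ⊢
    exact this
  have h3 : (ll z (n + 1) : ℝ) ≤ 2 * ((n + 1 : ℕ) : ℝ) / (z : ℝ) ^ 80 := by
    have h0 : (ll z (n + 1) : ℝ) = 2 * ((((n + 1) / z ^ 80 : ℕ)) : ℝ) := by
      unfold ll
      rw [Int.cast_mul, Int.cast_ofNat, Int.cast_natCast]
    rw [h0, mul_div_assoc]
    linarith
  have hN0 : (0 : ℝ) < ((n + 1 : ℕ) : ℝ) := by positivity
  refine ⟨?_, ?_, ?_, ?_, h3, ?_⟩
  · unfold ll
    omega
  · exact ⟨_, two_mul _⟩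
  · unfold ll
    have h4 : (n + 1) / z ^ 80 ≤ (n + 1) / 2 := by
      refine Nat.div_le_div_left ?_ (by norm_num)
      calc 2 ≤ z := hz
        _ = z ^ 1 := (pow_one z).symm
        _ ≤ z ^ 80 := Nat.pow_le_pow_right hz0 (by norm_num)
    omega
  · refine Real.sqrt_le_iff.2 ⟨by positivity, ?_⟩
    rw [div_le_iff₀ hN0]
    refine h3.trans ?_
    have e1 : (2 / (z : ℝ) ^ 40) ^ 2 * ((n + 1 : ℕ) : ℝ) = 4 * ((n + 1 : ℕ) : ℝ) / (z : ℝ) ^ 80 := by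
      rw [div_pow, ← pow_mul]
      ring
    rw [e1]
    refine div_le_div_of_nonneg_right ?_ (by positivity)
    linarith
  · have h4 : z ≤ n + 1 := by
      refine le_trans ?_ hN
      calc z = z ^ 1 := (pow_one z).symm
        _ ≤ z ^ 80 := Nat.pow_le_pow_right hz0 (by norm_num)
    exact_mod_cast h4

private theorem ts_fac {C L Z ρ : ℝ} (hC : 1 ≤ C) (hL : 1 ≤ L) (hZ : 100 * (C + L) ^ 2 ≤ Z)
    (hρ0 : 0 ≤ ρ) (hρ : ρ ≤ 2 / Z ^ 40) :
    (1 + C * ρ) * (1 + L * ρ / (1 / Z ^ 4)) ^ 2 ≤ 1 + 1 / Z ^ 10 := by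
  have hC200 : 200 * C ≤ Z := by nlinarith
  have hL200 : 200 * L ≤ Z := by nlinarith
  have hZ1 : 1 ≤ Z := by linarith
  have hZ0 : 0 < Z := by linarith
  have hv0 : 0 < 1 / Z ^ 10 := by positivity
  have hv1 : 1 / Z ^ 10 ≤ 1 := by
    rw [div_le_one (by positivity)]
    exact one_le_pow₀ hZ1
  have ha : C * ρ ≤ 1 / Z ^ 10 / 100 := by
    calc C * ρ ≤ C * (2 / Z ^ 40) := mul_le_mul_of_nonneg_left hρ (by linarith)
      _ = (200 * C) / (100 * Z ^ 40) := by ring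
      _ ≤ Z / (100 * Z ^ 40) := div_le_div_of_nonneg_right hC200 (by positivity)
      _ ≤ 1 / Z ^ 10 / 100 := by
        rw [div_div, div_le_div_iff₀ (by positivity) (by positivity), one_mul]
        have : Z ^ 11 ≤ Z ^ 40 := pow_le_pow_right₀ hZ1 (by norm_num)
        nlinarith
  have hb : L * ρ / (1 / Z ^ 4) ≤ 1 / Z ^ 10 / 100 := by
    calc L * ρ / (1 / Z ^ 4) = L * Z ^ 4 * ρ := by field_simp
      _ ≤ L * Z ^ 4 * (2 / Z ^ 40) := mul_le_mul_of_nonneg_left hρ (by positivity)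
      _ = (200 * L) * Z ^ 4 / (100 * Z ^ 40) := by ring
      _ ≤ Z * Z ^ 4 / (100 * Z ^ 40) :=
        div_le_div_of_nonneg_right (mul_le_mul_of_nonneg_right hL200 (by positivity)) (by positivity)
      _ ≤ 1 / Z ^ 10 / 100 := by
        rw [div_div, div_le_div_iff₀ (by positivity) (by positivity), one_mul]
        have : Z ^ 15 ≤ Z ^ 40 := pow_le_pow_right₀ hZ1 (by norm_num)
        nlinarith
  have hb0 : 0 ≤ L * ρ / (1 / Z ^ 4) := by positivity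
  have ha0 : 0 ≤ C * ρ := by positivity
  generalize C * ρ = a at ha ha0 ⊢
  generalize L * ρ / (1 / Z ^ 4) = b at hb hb0 ⊢
  generalize 1 / Z ^ 10 = v at hv0 hv1 ha hb ⊢
  have h1 : (1 + a) * (1 + b) ^ 2 ≤ (1 + v / 100) * (1 + v / 100) ^ 2 :=
    mul_le_mul (by linarith) (pow_le_pow_left₀ (by linarith) (by linarith) 2) (by positivity) (by positivity)
  refine h1.trans ?_
  have h2 : v ^ 2 ≤ v := by nlinarith
  have h3 : v ^ 3 ≤ v := by nlinarith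
  have e1 : (1 + v / 100) * (1 + v / 100) ^ 2 = 1 + 3 * v / 100 + 3 * v ^ 2 / 10000 + v ^ 3 / 1000000 := by
    ring
  rw [e1]
  linarith

private theorem ts_dev {C Z N d : ℝ} (hC : 1 ≤ C) (hZ : 1 ≤ Z) (hd : d ≤ N / Z ^ 18) :
    C / (1 / Z ^ 4) ^ 2 * d ≤ C * N * (1 / Z ^ 10) := by
  have hZ0 : 0 < Z := by linarith
  have e1 : C / (1 / Z ^ 4) ^ 2 = C * Z ^ 8 := by
    field_simp
  rw [e1]
  calc C * Z ^ 8 * d ≤ C * Z ^ 8 * (N / Z ^ 18) := mul_le_mul_of_nonneg_left hd (by positivity)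
    _ = C * N * (1 / Z ^ 10) := by
      field_simp

theorem su_le (L : ℝ) (hL : 1 ≤ L) : ∃ z0 : ℕ, ∀ z n : ℕ, z0 ≤ z → InR z (n + 1) →
    ∀ (W : ℤ × ℤ → ℝ) (A B : ℤ → ℝ), Rf L (n + 1) W A B → ∀ U : Finset (ℤ ⊕ ℤ),
    dev (n + 1) W (ll z (n + 1)) U ≤ (n + 1) / (z : ℝ) ^ 18 →
    SU n W (1 / (z : ℝ) ^ 4) U ≤ (n + 1) + (n + 1) / (z : ℝ) ^ 9 := by
  classical
  obtain ⟨C, hC, h1⟩ := ts_sq L hL
  obtain ⟨C2, hC2, h2⟩ := cells_l1 L hL
  refine ⟨⌈100 * (C + L) ^ 2 + (1 + 2 * (4 * C2 + C))⌉₊ + 2, ?_⟩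
  intro z n hz hR W A B hRf U hdev
  have hz2 : 2 ≤ z := by omega
  obtain ⟨hl, hle, hlN, hρ, hlr, hzN⟩ := ts_par hz2 hR
  have hZbig : 100 * (C + L) ^ 2 + (1 + 2 * (4 * C2 + C)) ≤ (z : ℝ) := by
    refine (Nat.le_ceil _).trans ?_
    exact_mod_cast (by omega : ⌈100 * (C + L) ^ 2 + (1 + 2 * (4 * C2 + C))⌉₊ ≤ z)
  have hZ1 : 100 * (C + L) ^ 2 ≤ (z : ℝ) := by linarith
  have hZ2 : 1 + 2 * (4 * C2 + C) ≤ (z : ℝ) := by
    have := sq_nonneg (C + L)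
    linarith
  have hz1 : (1 : ℝ) ≤ z := by linarith
  have hz0 : (0 : ℝ) < z := by linarith
  have hN1 : 1 ≤ n + 1 := by omega
  have hκ : (0 : ℝ) < 1 / (z : ℝ) ^ 4 := by positivity
  have hκ1 : 1 / (z : ℝ) ^ 4 ≤ 1 := by
    rw [div_le_one (by positivity)]
    exact one_le_pow₀ hz1
  have hN : ((n + 1 : ℕ) : ℝ) = (n : ℝ) + 1 := by push_cast; ring
  obtain ⟨E, hE1, hE2, h3⟩ := ts_dbl (n := n) hRf.adm.nn hκ U (fun _ _ => True)
    (fun k b => if Oc U (ro k) (cl b) then om (n + 1) W (1 / (z : ℝ) ^ 4) (ro k) (cl b) else 0)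
    (fun k b h => if_pos h.1) (fun k b h => if_neg fun h' => h ⟨h', trivial⟩)
  have h4 := h3.trans (h1 (n + 1) W A B hN1 hRf (ll z (n + 1)) hl hle hlN _ hκ hκ1 U
    E (DI (n + 1) (ll z (n + 1))) subset_rfl hE1 (fun e he => (hE2 e he).1)
    (fun e he => mem_image_of_mem _ (hE1 he)))
  refine h4.trans ?_
  have h5 := (h2 (n + 1) W A B hN1 hRf (ll z (n + 1)) hl hle hlN).2.1
  have h6 := ts_fac hC hL hZ1 (Real.sqrt_nonneg _) hρ
  have h7 := ts_dev (C := C) hC hz1 hdev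
  have hv0 : 0 < 1 / (z : ℝ) ^ 10 := by positivity
  have hv1 : 1 / (z : ℝ) ^ 10 ≤ 1 := by
    rw [div_le_one (by positivity)]
    exact one_le_pow₀ hz1
  have hn0 : (0 : ℝ) < (n : ℝ) + 1 := by positivity
  have h8 : ∑ D ∈ DI (n + 1) (ll z (n + 1)), Wh (n + 1) W A B (ll z (n + 1)) D ≤
      ((n : ℝ) + 1) + 4 * C2 * ((n : ℝ) + 1) * (1 / (z : ℝ) ^ 10) := by
    refine h5.trans ?_
    rw [hN] at hρ hlr ⊢
    have h9 : 1 / (z : ℝ) ^ 40 ≤ 1 / (z : ℝ) ^ 10 :=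
      one_div_le_one_div_of_le (by positivity) (pow_le_pow_right₀ hz1 (by norm_num))
    have h10 : 1 / (z : ℝ) ^ 80 ≤ 1 / (z : ℝ) ^ 10 :=
      one_div_le_one_div_of_le (by positivity) (pow_le_pow_right₀ hz1 (by norm_num))
    have h11 : ((n : ℝ) + 1) * Real.sqrt ((ll z (n + 1) : ℝ) / ((n : ℝ) + 1)) ≤
        ((n : ℝ) + 1) * (2 * (1 / (z : ℝ) ^ 10)) := by
      refine mul_le_mul_of_nonneg_left (hρ.trans ?_) hn0.le
      rw [show 2 / (z : ℝ) ^ 40 = 2 * (1 / (z : ℝ) ^ 40) by ring]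
      linarith
    have h12 : (ll z (n + 1) : ℝ) ≤ ((n : ℝ) + 1) * (2 * (1 / (z : ℝ) ^ 10)) := by
      refine hlr.trans ?_
      rw [show 2 * ((n : ℝ) + 1) / (z : ℝ) ^ 80 = ((n : ℝ) + 1) * (2 * (1 / (z : ℝ) ^ 80)) by ring]
      exact mul_le_mul_of_nonneg_left (by linarith) hn0.le
    have h13 := mul_le_mul_of_nonneg_left (add_le_add h11 h12) (by linarith : (0 : ℝ) ≤ C2)
    have e1 : C2 * (((n : ℝ) + 1) * (2 * (1 / (z : ℝ) ^ 10)) + ((n : ℝ) + 1) * (2 * (1 / (z : ℝ) ^ 10))) =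
        4 * C2 * ((n : ℝ) + 1) * (1 / (z : ℝ) ^ 10) := by ring
    rw [e1] at h13
    linarith
  have h14 : 0 ≤ ((n : ℝ) + 1) + 4 * C2 * ((n : ℝ) + 1) * (1 / (z : ℝ) ^ 10) +
      C * ((n : ℝ) + 1) * (1 / (z : ℝ) ^ 10) := by positivity
  have h15 : 0 ≤ (1 + C * Real.sqrt (ll z (n + 1) / ((n + 1 : ℕ) : ℝ))) *
      (1 + L * Real.sqrt (ll z (n + 1) / ((n + 1 : ℕ) : ℝ)) / (1 / (z : ℝ) ^ 4)) ^ 2 := by positivity
  refine (mul_le_mul_of_nonneg_left (add_le_add h8 h7) h15).trans ?_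
  refine (mul_le_mul_of_nonneg_right h6 h14).trans ?_
  have e2 : ((n : ℝ) + 1) / (z : ℝ) ^ 9 = (z : ℝ) * (((n : ℝ) + 1) * (1 / (z : ℝ) ^ 10)) := by
    field_simp
  rw [e2]
  have h16 : 0 ≤ ((n : ℝ) + 1) * (1 / (z : ℝ) ^ 10) := by positivity
  have h17 := mul_le_mul_of_nonneg_right hZ2 h16
  have h18 : ((n : ℝ) + 1) * (1 / (z : ℝ) ^ 10) * (1 / (z : ℝ) ^ 10) ≤
      ((n : ℝ) + 1) * (1 / (z : ℝ) ^ 10) := mul_le_of_le_one_right h16 hv1
  have h19 := mul_le_mul_of_nonneg_left h18 (by positivity : 0 ≤ 4 * C2 + C)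
  nlinarith

theorem sc_le (L : ℝ) (hL : 1 ≤ L) : ∃ (C : ℝ) (z0 : ℕ), 1 ≤ C ∧ ∀ z n : ℕ, z0 ≤ z → InR z (n + 1) →
    ∀ (W : ℤ × ℤ → ℝ) (A B : ℤ → ℝ), Rf L (n + 1) W A B → ∀ U : Finset (ℤ ⊕ ℤ),
    dev (n + 1) W (ll z (n + 1)) U ≤ (n + 1) / (z : ℝ) ^ 18 →
    SC n W (1 / (z : ℝ) ^ 4) (1 / (z : ℝ)) U ≤ C * (n + 1) / (z : ℝ) ^ 2 := by
  classical
  obtain ⟨C, hC, h1⟩ := ts_sq L hL
  obtain ⟨C3, hC3, h2⟩ := corner_cells L hL
  refine ⟨18 * C3 + 2 * C, ⌈100 * (C + L) ^ 2⌉₊ + 2, by linarith, ?_⟩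
  intro z n hz hR W A B hRf U hdev
  have hz2 : 2 ≤ z := by omega
  obtain ⟨hl, hle, hlN, hρ, hlr, hzN⟩ := ts_par hz2 hR
  have hZ1 : 100 * (C + L) ^ 2 ≤ (z : ℝ) := by
    refine (Nat.le_ceil _).trans ?_
    exact_mod_cast (by omega : ⌈100 * (C + L) ^ 2⌉₊ ≤ z)
  have hz2r : (2 : ℝ) ≤ z := by exact_mod_cast hz2
  have hz1 : (1 : ℝ) ≤ z := by linarith
  have hz0 : (0 : ℝ) < z := by linarith
  have hN1 : 1 ≤ n + 1 := by omega
  have hκ : (0 : ℝ) < 1 / (z : ℝ) ^ 4 := by positivity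
  have hκ1 : 1 / (z : ℝ) ^ 4 ≤ 1 := by
    rw [div_le_one (by positivity)]
    exact one_le_pow₀ hz1
  have hκ0 : (0 : ℝ) < 1 / (z : ℝ) := by positivity
  have hκ01 : 1 / (z : ℝ) ≤ 1 := by
    rw [div_le_one hz0]
    exact hz1
  have hN : ((n + 1 : ℕ) : ℝ) = (n : ℝ) + 1 := by push_cast; ring
  obtain ⟨E, hE1, hE2, h3⟩ := ts_dbl (n := n) hRf.adm.nn hκ U
    (fun x y => ¬ Mn (n + 1) W (1 / (z : ℝ)) x y)
    (fun k b => if Oc U (ro k) (cl b) ∧ ¬ Mn (n + 1) W (1 / (z : ℝ)) (ro k) (cl b) then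
      om (n + 1) W (1 / (z : ℝ) ^ 4) (ro k) (cl b) else 0)
    (fun k b h => if_pos h) (fun k b h => if_neg h)
  have h5 := h2 (n + 1) W A B hN1 hRf (ll z (n + 1)) hl hle hlN _ hκ0 hκ01
  have h4 := h3.trans (h1 (n + 1) W A B hN1 hRf (ll z (n + 1)) hl hle hlN _ hκ hκ1 U
    E
    ((DI (n + 1) (ll z (n + 1))).filter (fun D => ∃ e ∈ board (n + 1), cellD (ll z (n + 1)) e = D ∧
      ¬ Mn (n + 1) W (1 / (z : ℝ)) e.1 e.2)) (filter_subset _ _)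
    hE1 (fun e he => (hE2 e he).1)
    (fun e he => mem_filter.2 ⟨mem_image_of_mem _ (hE1 he), e, hE1 he, rfl, (hE2 e he).2⟩))
  have h0 : SC n W (1 / (z : ℝ) ^ 4) (1 / (z : ℝ)) U = ∑ k : Fin n, ∑ b : Fin (n + 1),
      if Oc U (ro k) (cl b) ∧ ¬ Mn (n + 1) W (1 / (z : ℝ)) (ro k) (cl b) then
      om (n + 1) W (1 / (z : ℝ) ^ 4) (ro k) (cl b) else 0 := by
    rfl
  rw [h0]
  refine h4.trans ?_
  have h6 := ts_fac hC hL hZ1 (Real.sqrt_nonneg _) hρ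
  have h7 := ts_dev (C := C) hC hz1 hdev
  have hv0 : 0 < 1 / (z : ℝ) ^ 10 := by positivity
  have hv1 : 1 / (z : ℝ) ^ 10 ≤ 1 := by
    rw [div_le_one (by positivity)]
    exact one_le_pow₀ hz1
  have hv2 : 1 / (z : ℝ) ^ 10 ≤ 1 / (z : ℝ) ^ 2 :=
    one_div_le_one_div_of_le (by positivity) (pow_le_pow_right₀ hz1 (by norm_num))
  have hn0 : (0 : ℝ) < (n : ℝ) + 1 := by positivity
  rw [hN] at h5 hlr hzN
  have h8 : C3 * (1 / (z : ℝ) * ((n : ℝ) + 1) + (ll z (n + 1) : ℝ) + 1) ^ 2 / ((n : ℝ) + 1) ≤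
      9 * C3 * ((n : ℝ) + 1) * (1 / (z : ℝ) ^ 2) := by
    have h9 : (ll z (n + 1) : ℝ) ≤ 1 / (z : ℝ) * ((n : ℝ) + 1) := by
      refine hlr.trans ?_
      rw [div_le_iff₀ (by positivity)]
      have h10 : (z : ℝ) * 2 ≤ (z : ℝ) ^ 80 := by
        calc (z : ℝ) * 2 ≤ z * z := mul_le_mul_of_nonneg_left hz2r hz0.le
          _ = (z : ℝ) ^ 2 := (sq _).symm
          _ ≤ (z : ℝ) ^ 80 := pow_le_pow_right₀ hz1 (by norm_num)
      have h11 : 2 ≤ 1 / (z : ℝ) * (z : ℝ) ^ 80 := by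
        rw [one_div, ← div_eq_inv_mul, le_div_iff₀ hz0]
        linarith
      calc 2 * ((n : ℝ) + 1) ≤ (1 / (z : ℝ) * (z : ℝ) ^ 80) * ((n : ℝ) + 1) :=
            mul_le_mul_of_nonneg_right h11 hn0.le
        _ = 1 / (z : ℝ) * ((n : ℝ) + 1) * (z : ℝ) ^ 80 := by ring
    have h10 : 1 ≤ 1 / (z : ℝ) * ((n : ℝ) + 1) := by
      rw [one_div, ← div_eq_inv_mul, le_div_iff₀ hz0]
      linarith
    have hl0 : (0 : ℝ) ≤ ll z (n + 1) := by exact_mod_cast hl.le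
    have h11 : (1 / (z : ℝ) * ((n : ℝ) + 1) + (ll z (n + 1) : ℝ) + 1) ^ 2 ≤
        (3 * (1 / (z : ℝ) * ((n : ℝ) + 1))) ^ 2 :=
      pow_le_pow_left₀ (by positivity) (by linarith) 2
    rw [div_le_iff₀ hn0]
    refine (mul_le_mul_of_nonneg_left h11 (by linarith)).trans (le_of_eq ?_)
    ring
  have h15 : 0 ≤ (1 + C * Real.sqrt (ll z (n + 1) / ((n + 1 : ℕ) : ℝ))) *
      (1 + L * Real.sqrt (ll z (n + 1) / ((n + 1 : ℕ) : ℝ)) / (1 / (z : ℝ) ^ 4)) ^ 2 := by positivity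
  have h14 : 0 ≤ 9 * C3 * ((n : ℝ) + 1) * (1 / (z : ℝ) ^ 2) + C * ((n : ℝ) + 1) * (1 / (z : ℝ) ^ 10) := by
    positivity
  refine (mul_le_mul_of_nonneg_left (add_le_add (h5.trans h8) h7) h15).trans ?_
  refine (mul_le_mul_of_nonneg_right h6 h14).trans ?_
  have h16 : C * ((n : ℝ) + 1) * (1 / (z : ℝ) ^ 10) ≤ C * ((n : ℝ) + 1) * (1 / (z : ℝ) ^ 2) :=
    mul_le_mul_of_nonneg_left hv2 (by positivity)
  calc (1 + 1 / (z : ℝ) ^ 10) * (9 * C3 * ((n : ℝ) + 1) * (1 / (z : ℝ) ^ 2) +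
        C * ((n : ℝ) + 1) * (1 / (z : ℝ) ^ 10)) ≤
      2 * (9 * C3 * ((n : ℝ) + 1) * (1 / (z : ℝ) ^ 2) + C * ((n : ℝ) + 1) * (1 / (z : ℝ) ^ 2)) :=
        mul_le_mul (by linarith) (by linarith) h14 (by norm_num)
    _ = (18 * C3 + 2 * C) * ((n : ℝ) + 1) / (z : ℝ) ^ 2 := by ring

end Pool.Agent.NQR
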