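import Pool.Agent.NQR.Defs
import Pool.Agent.NQR.YCnt

/-!
# NQR-YPot: the potential is the same for all configurations

The product of the reference weights over the queens depends only on the hole and on the occupied
diagonals.
-/

set_option autoImplicit false

open Finset

namespace Pool.Agent.NQR

open Pool.Agent.NQ (board dsum F Ent Dg phi ln Q Qset st cellD bern)

theorem occ_subset {n : ℕ} (Y : Fin n → Fin (n + 1)) : occ Y ⊆ gd (n + 1) := by
  intro u hu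
  unfold occ at hu
  rw [mem_union, mem_image, mem_image] at hu
  unfold gd
  rw [mem_disjSum]
  rcases hu with ⟨i, -, rfl⟩ | ⟨i, -, rfl⟩
  · left
    refine ⟨_, ?_, rfl⟩
    have h1 := i.isLt
    have h2 := (Y i).isLt
    rw [mem_Icc]
    unfold ro cl
    push_cast
    constructor <;> omega
  · right
    refine ⟨_, ?_, rfl⟩
    have h1 := i.isLt
    have h2 := (Y i).isLt
    rw [mem_Icc]
    unfold ro cl
    push_cast
    constructor <;> omega

theorem occ_prod {n : ℕ} {Y : Fin n → Fin (n + 1)} (h : YF n Y) (f : ℤ ⊕ ℤ → ℝ) :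
    ∏ u ∈ occ Y, f u = ∏ i, (f (Sum.inl (ro i - cl (Y i))) * f (Sum.inr (ro i + cl (Y i)))) := by
  unfold occ
  rw [prod_union, prod_image, prod_image, prod_mul_distrib]
  · intro i _ j _ hij
    exact h.2.1 (Sum.inr.inj hij)
  · intro i _ j _ hij
    exact h.2.2 (Sum.inl.inj hij)
  · rw [disjoint_left]
    intro u hu hu'
    rw [mem_image] at hu hu'
    obtain ⟨i, -, rfl⟩ := hu
    obtain ⟨j, -, hj⟩ := hu'
    exact Sum.inr_ne_inl hj

private theorem L_pos {N : ℕ} (hN : 0 < N) {L : ℝ} {W : ℤ × ℤ → ℝ} {A B : ℤ → ℝ}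
    (hR : Rf L N W A B) : 0 < L := by
  by_contra hL
  push Not at hL
  have h1 : dsum N W 0 0 = 1 := hR.adm.row 0 le_rfl (by exact_mod_cast hN)
  have h2 : dsum N W 0 0 ≤ 0 := by
    unfold dsum
    refine sum_nonpos (fun e he => ?_)
    have h3 := hR.bd.hi e (mem_filter.1 he).1
    have h4 : L / N ≤ 0 := div_nonpos_of_nonpos_of_nonneg hL (Nat.cast_nonneg N)
    linarith
  linarith

private theorem dsum_nn {N : ℕ} {W : ℤ × ℤ → ℝ} (h : ∀ e, 0 ≤ W e) (k : Fin 4) (s : ℤ) :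
    0 ≤ dsum N W k s := by
  unfold dsum
  exact sum_nonneg (fun e _ => h e)

private theorem one_sub_pp_inl {N : ℕ} {W : ℤ × ℤ → ℝ} (h : ∀ e, 0 ≤ W e) (s : ℤ) :
    1 - pp N W 0 (Sum.inl s) = hD N W s := by
  change 1 - max (dsum N W 3 s) 0 = 1 - dsum N W 3 s
  rw [max_eq_left (dsum_nn h 3 s)]

private theorem one_sub_pp_inr {N : ℕ} {W : ℤ × ℤ → ℝ} (h : ∀ e, 0 ≤ W e) (s : ℤ) :
    1 - pp N W 0 (Sum.inr s) = hS N W s := by
  change 1 - max (dsum N W 2 s) 0 = 1 - dsum N W 2 s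
  rw [max_eq_left (dsum_nn h 2 s)]

private theorem prod_cols {n : ℕ} {Y : Fin n → Fin (n + 1)} (h : YF n Y) (g : Fin (n + 1) → ℝ) :
    (∏ i, g (Y i)) * g (hole Y) = ∏ b, g b := by
  have h1 : ∏ i, g (Y i) = ∏ b ∈ univ.erase (hole Y), g b := by
    rw [← prod_image (s := univ) (g := Y) (f := g) (fun i _ j _ hij => h.1 hij)]
    refine prod_congr ?_ (fun _ _ => rfl)
    ext b
    rw [mem_image, mem_erase]
    constructor
    · rintro ⟨i, -, rfl⟩
      exact ⟨hole_ne h i, mem_univ _⟩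
    · rintro ⟨hb, -⟩
      obtain ⟨i, hi⟩ := hole_unique h hb
      exact ⟨i, mem_univ _, hi⟩
  rw [h1, prod_erase_mul _ _ (mem_univ _)]

theorem potential {n : ℕ} {Y : Fin n → Fin (n + 1)} (h : YF n Y) {L : ℝ} {W : ℤ × ℤ → ℝ} {A B : ℤ → ℝ}
    (hR : Rf L (n + 1) W A B) :
    (∏ i, W (ro i, cl (Y i))) * ∏ u ∈ gd (n + 1) \ occ Y, (1 - pp (n + 1) W 0 u) =
      (∏ i : Fin n, A (ro i)) * (∏ b : Fin (n + 1), B (cl b)) / B (cl (hole Y)) *
        ∏ u ∈ gd (n + 1), (1 - pp (n + 1) W 0 u) := by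
  have hL : 0 < L := L_pos (Nat.succ_pos n) hR
  have hB : 0 < B (cl (hole Y)) := by
    have h1 := (hole Y).isLt
    refine lt_of_lt_of_le ?_ (hR.B1 (cl (hole Y)) (by unfold cl; omega) (by unfold cl; push_cast; omega))
    have h2 : (0 : ℝ) < ((n + 1 : ℕ) : ℝ) := by exact_mod_cast Nat.succ_pos n
    have h3 : 0 < Real.sqrt ((n + 1 : ℕ) : ℝ) := Real.sqrt_pos.2 h2
    positivity
  have hW : ∀ i : Fin n, W (ro i, cl (Y i)) = A (ro i) * B (cl (Y i)) *
      ((1 - pp (n + 1) W 0 (Sum.inl (ro i - cl (Y i)))) *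
        (1 - pp (n + 1) W 0 (Sum.inr (ro i + cl (Y i))))) := by
    intro i
    have h1 := i.isLt
    have h2 := (Y i).isLt
    have hb : (ro i, cl (Y i)) ∈ board (n + 1) := by
      rw [Pool.Agent.NQ.mem_board]
      unfold ro cl
      push_cast
      refine ⟨⟨?_, ?_⟩, ⟨?_, ?_⟩⟩ <;> omega
    rw [hR.el _ hb, one_sub_pp_inl hR.adm.nn, one_sub_pp_inr hR.adm.nn]
    unfold hh
    ring
  have hprod : ∏ i, W (ro i, cl (Y i)) = (∏ i : Fin n, A (ro i)) * (∏ i, B (cl (Y i))) *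
      ∏ u ∈ occ Y, (1 - pp (n + 1) W 0 u) := by
    rw [occ_prod h, ← prod_mul_distrib, ← prod_mul_distrib]
    exact prod_congr rfl (fun i _ => hW i)
  have hcols := prod_cols h (fun b => B (cl b))
  have hsd := prod_sdiff (f := fun u => 1 - pp (n + 1) W 0 u) (occ_subset Y)
  rw [hprod, ← hcols, ← hsd]
  field_simp

theorem om_prod {n : ℕ} {Y : Fin n → Fin (n + 1)} (h : YF n Y) {W : ℤ × ℤ → ℝ} {κ : ℝ} (hκ : 0 < κ) :
    ∏ i, W (ro i, cl (Y i)) =
      (∏ i, om (n + 1) W κ (ro i) (cl (Y i))) * ∏ u ∈ occ Y, pp (n + 1) W κ u := by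
  rw [occ_prod h, ← prod_mul_distrib]
  refine prod_congr rfl (fun i _ => ?_)
  unfold om pp
  have h1 : 0 < max (dsum (n + 1) W 3 (ro i - cl (Y i))) κ := lt_of_lt_of_le hκ (le_max_right _ _)
  have h2 : 0 < max (dsum (n + 1) W 2 (ro i + cl (Y i))) κ := lt_of_lt_of_le hκ (le_max_right _ _)
  rw [div_mul_cancel₀]
  exact (mul_pos h1 h2).ne'

end Pool.Agent.NQR
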