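import Pool.Agent.NQR.Defs
import Pool.Agent.NQR.SMas
import Pool.Agent.NQR.YPot

/-!
# NQR-TTil: exponential moment for fixed diagonals

`master` with the weights `om (ro k) (cl b) * exp (θ φ_k b)`, where the statistic is `∑_k φ_k (Y k)`,
and convexity of the exponential function.
-/

set_option autoImplicit false

open Finset

namespace Pool.Agent.NQR

open Pool.Agent.NQ (board dsum F Ent Dg phi ln Q Qset st cellD bern)

private theorem mk_mem (U : Finset (ℤ ⊕ ℤ)) (r : Option ℤ) (y : ℤ) : 0 ≤ mk U r y ∧ mk U r y ≤ 1 := by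
  unfold mk
  rcases r with _ | x
  · exact ⟨zero_le_one, le_rfl⟩
  · show 0 ≤ (if Fr U x y then (1 : ℝ) else 0) ∧ (if Fr U x y then (1 : ℝ) else 0) ≤ 1
    split_ifs
    · exact ⟨zero_le_one, le_rfl⟩
    · exact ⟨le_rfl, zero_le_one⟩

private theorem exp_conv {θ φ : ℝ} (h0 : 0 ≤ φ) (h1 : φ ≤ 1) :
    Real.exp (θ * φ) ≤ 1 + (Real.exp θ - 1) * φ := by
  have h := convexOn_exp.2 (Set.mem_univ (0 : ℝ)) (Set.mem_univ θ)
    (by linarith : (0 : ℝ) ≤ 1 - φ) h0 (by ring)
  simp only [smul_eq_mul, mul_zero, zero_add, Real.exp_zero, mul_one] at h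
  have e : θ * φ = φ * θ := mul_comm _ _
  rw [e]
  linarith

theorem tilt {L : ℝ} (hL : 1 ≤ L) {n : ℕ} (U : Finset (ℤ ⊕ ℤ)) (a' : Fin (n + 1))
    (C : Finset (Fin n → Fin (n + 1))) (hC : ∀ Y ∈ C, YF n Y ∧ occ Y = U ∧ hole Y = a')
    {W : ℤ × ℤ → ℝ} (hW : Bd L (n + 1) W) {κ θ : ℝ} (hκ : 0 < κ) (hκ1 : κ ≤ 1) (hθ : |θ| ≤ 1)
    (hη : 3 * L / (κ ^ 2 * (n + 1)) ≤ 1) (a : Fin (n + 1)) (r : Option ℤ)
    (g : Fin n → Fin (n + 1) → ℝ) (hg : ∀ k b, 0 ≤ g k b ∧ g k b ≤ 1) :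
    ∑ Y ∈ C, (∏ i, W (ro i, cl (Y i))) * Real.exp (θ * TT Y a r g) ≤
      (∏ u ∈ U, pp (n + 1) W κ u) * Real.exp (SU n W κ U - n + (Real.exp θ - 1) * TA n W κ U a r g
        - 3 * n + 6 * n * (3 * L / (κ ^ 2 * (n + 1))) ^ (1 / 3 : ℝ)) := by
  classical
  set φ : Fin n → Fin (n + 1) → ℝ := fun k b =>
    if Fr U (ro k) (cl a) then mk U r (cl b) * g k b else 0 with hφ
  have hφ01 : ∀ k b, 0 ≤ φ k b ∧ φ k b ≤ 1 := by
    intro k b
    show 0 ≤ (if Fr U (ro k) (cl a) then mk U r (cl b) * g k b else 0) ∧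
      (if Fr U (ro k) (cl a) then mk U r (cl b) * g k b else 0) ≤ 1
    have h1 := mk_mem U r (cl b)
    have h2 := hg k b
    split_ifs
    · exact ⟨mul_nonneg h1.1 h2.1, mul_le_one₀ h1.2 h2.1 h2.2⟩
    · exact ⟨le_rfl, zero_le_one⟩
  set w : Fin n → Fin (n + 1) → ℝ := fun k b =>
    om (n + 1) W κ (ro k) (cl b) * Real.exp (θ * φ k b) with hw
  have hn1 : (0 : ℝ) < (n : ℝ) + 1 := by positivity
  have hboard : ∀ (k : Fin n) (b : Fin (n + 1)), (ro k, cl b) ∈ board (n + 1) := by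
    intro k b
    have h1 := k.isLt
    have h2 := b.isLt
    rw [Pool.Agent.NQ.mem_board]
    unfold ro cl
    push_cast
    refine ⟨⟨?_, ?_⟩, ⟨?_, ?_⟩⟩ <;> omega
  have hom : ∀ (k : Fin n) (b : Fin (n + 1)), 0 ≤ om (n + 1) W κ (ro k) (cl b) ∧
      om (n + 1) W κ (ro k) (cl b) ≤ L / (κ ^ 2 * (n + 1)) := by
    intro k b
    have h1 := hW.lo _ (hboard k b)
    have h2 := hW.hi _ (hboard k b)
    push_cast at h1 h2
    have h3 : 0 ≤ W (ro k, cl b) := by
      refine le_trans ?_ h1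
      have : 0 < L := by linarith
      positivity
    have h4 : κ ≤ max (dsum (n + 1) W 3 (ro k - cl b)) κ := le_max_right _ _
    have h5 : κ ≤ max (dsum (n + 1) W 2 (ro k + cl b)) κ := le_max_right _ _
    have h6 : κ ^ 2 ≤ max (dsum (n + 1) W 3 (ro k - cl b)) κ * max (dsum (n + 1) W 2 (ro k + cl b)) κ := by
      rw [sq]
      exact mul_le_mul h4 h5 hκ.le (hκ.le.trans h4)
    unfold om
    constructor
    · exact div_nonneg h3 (le_trans (by positivity) h6)
    · calc W (ro k, cl b) / (max (dsum (n + 1) W 3 (ro k - cl b)) κ *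
            max (dsum (n + 1) W 2 (ro k + cl b)) κ)
          ≤ W (ro k, cl b) / κ ^ 2 := div_le_div_of_nonneg_left h3 (by positivity) h6
        _ ≤ (L / (n + 1)) / κ ^ 2 := div_le_div_of_nonneg_right h2 (by positivity)
        _ = L / (κ ^ 2 * (n + 1)) := by rw [div_div, mul_comm]
  have hexp3 : ∀ k b, Real.exp (θ * φ k b) ≤ 3 := by
    intro k b
    have h1 := hφ01 k b
    have h2 : θ * φ k b ≤ 1 := by
      have h3 := (abs_le.1 hθ)
      nlinarith [h1.1, h1.2, h3.1, h3.2]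
    calc Real.exp (θ * φ k b) ≤ Real.exp 1 := Real.exp_le_exp.2 h2
      _ ≤ 3 := by have := Real.exp_one_lt_d9; linarith
  have hηpos : 0 < 3 * L / (κ ^ 2 * ((n : ℝ) + 1)) := by
    have : 0 < L := by linarith
    positivity
  have hwb : ∀ k b, 0 ≤ w k b ∧ w k b ≤ 3 * L / (κ ^ 2 * ((n : ℝ) + 1)) := by
    intro k b
    have h1 := hom k b
    refine ⟨mul_nonneg h1.1 (Real.exp_pos _).le, ?_⟩
    calc om (n + 1) W κ (ro k) (cl b) * Real.exp (θ * φ k b)
        ≤ L / (κ ^ 2 * (n + 1)) * 3 :=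
          mul_le_mul h1.2 (hexp3 k b) (Real.exp_pos _).le (h1.1.trans h1.2)
      _ = 3 * L / (κ ^ 2 * ((n : ℝ) + 1)) := by ring
  have hmaster := master U a' C hC w hηpos hη hwb
  have hterm : ∀ Y ∈ C, (∏ i, W (ro i, cl (Y i))) * Real.exp (θ * TT Y a r g) =
      (∏ u ∈ U, pp (n + 1) W κ u) * ∏ i, w i (Y i) := by
    intro Y hY
    obtain ⟨h1, h2, -⟩ := hC Y hY
    have h3 : TT Y a r g = ∑ k, φ k (Y k) := by
      unfold TT
      rw [h2]
    rw [om_prod h1 hκ, h2, h3, Finset.mul_sum, Real.exp_sum, Finset.prod_mul_distrib]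
    ring
  rw [Finset.sum_congr rfl hterm, ← Finset.mul_sum]
  have hpp : 0 ≤ ∏ u ∈ U, pp (n + 1) W κ u := by
    refine Finset.prod_nonneg fun u _ => ?_
    unfold pp
    rcases u with s | s
    · exact hκ.le.trans (le_max_right _ _)
    · exact hκ.le.trans (le_max_right _ _)
  refine mul_le_mul_of_nonneg_left (hmaster.trans (Real.exp_le_exp.2 ?_)) hpp
  have hsum : ∑ i : Fin n, ((∑ b : Fin (n + 1), if Oc U (ro i) (cl b) then w i b else 0) - 1) ≤
      SU n W κ U - n + (Real.exp θ - 1) * TA n W κ U a r g := by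
    rw [Finset.sum_sub_distrib, Finset.sum_const, Finset.card_univ, Fintype.card_fin,
      nsmul_eq_mul, mul_one]
    have h1 : ∑ i : Fin n, (∑ b : Fin (n + 1), if Oc U (ro i) (cl b) then w i b else 0) ≤
        SU n W κ U + (Real.exp θ - 1) * TA n W κ U a r g := by
      unfold SU TA
      rw [Finset.mul_sum, ← Finset.sum_add_distrib]
      refine Finset.sum_le_sum fun k _ => ?_
      rw [Finset.mul_sum, ← Finset.sum_add_distrib]
      refine Finset.sum_le_sum fun b _ => ?_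
      by_cases hO : Oc U (ro k) (cl b)
      · have h2 := exp_conv (θ := θ) (hφ01 k b).1 (hφ01 k b).2
        have h3 := mul_le_mul_of_nonneg_left h2 (hom k b).1
        by_cases hF : Fr U (ro k) (cl a)
        · have e : φ k b = mk U r (cl b) * g k b := if_pos hF
          rw [if_pos hO, if_pos hO, if_pos ⟨hO, hF⟩]
          show om (n + 1) W κ (ro k) (cl b) * Real.exp (θ * φ k b) ≤ _
          refine h3.trans (le_of_eq ?_)
          rw [e]
          ring
        · have e : φ k b = 0 := if_neg hF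
          rw [if_pos hO, if_pos hO, if_neg (fun h => hF h.2)]
          show om (n + 1) W κ (ro k) (cl b) * Real.exp (θ * φ k b) ≤ _
          refine h3.trans (le_of_eq ?_)
          rw [e]
          ring
      · rw [if_neg hO, if_neg hO, if_neg (fun h => hO h.1)]
        simp
    linarith
  linarith

end Pool.Agent.NQR
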