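import Pool.Agent.NQR.Defs
import Pool.Agent.NQR.YPot
import Pool.Agent.NQR.TSum
import Pool.Agent.NQR.TExp
import Pool.Agent.NQR.TLip
import Pool.Agent.NQR.TTil
import Pool.Agent.NQR.TCap
import Pool.Agent.NQR.BMcd

/-!
# NQR-TMgf: exponential moment over the typical configurations

PLAN. `N = n + 1`, `κ = z^(-4)`, `κ0 = 1/z`, `θ = ± z^(-6)`, `λ = exp θ - 1` (`|λ| ≤ 2|θ|`, `|λ - θ| ≤ θ²`). Let `V1` be the product in
`const_le` (`potential`: `1 = ∏ W * ∏_{gd \ occ Y} (1 - pp 0) * B (hole)/V1`). Sum over `a'`, `U ⊆ gd N` typical: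
`S = ∑_{Y typical} exp(θ TT) = ∑_{a'} ∑_U (B a'/V1) ∏_{gd \ U}(1 - pp 0) ∑_{Y ∈ C(U,a')} ∏ W exp (θ TT)`
`≤ ∑_{a'} (B a'/V1) ∑_U ∏_{gd\U} (1 - pp 0) ∏_U pp κ exp(SU - n + λ TA - 3n + 6n (..)^(1/3))` (`tilt`)
`≤ (∑ B/V1) exp(-3n + 24 L κ² N + 1 + N/z^9 + N/z^8 + |λ| C N/z²) ∑_U bern (gd) (pp κ) U exp (λ TM U)`: `cap_le`; `su_le`
(`SU - n ≤ 1 + N/z^9`); `TA_le` and `sc_le` (for `λ > 0` use `TA ≤ TM + SC`, for `λ < 0` use `TA ≥ TM`);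
`6 n (3 L z^8/N)^(1/3) ≤ N/z^8` since `N ≥ z^20000`. The sum over all `U ⊆ gd N` is by `mcd` (with `f = λ TM`, `c = |λ| 3 L z²`
by `lip_TM`; `|gd N| = 4N + 2`) `≤ exp (λ E TM + (4N+2)(6 L z² z^(-6))²)`, `|E TM - TR| ≤ C N/z²` (`exp_TM`), `|λ TR - θ TR| ≤ θ² N`
(`0 ≤ TR ≤ N`). With `const_le`: `S ≤ e³ L² exp (F - N) exp (θ TR + C' N/z^8)`, and `F - N ≤ log |Ys| + N/z^39`.
Absorb `e³ L²` in the exponent (`N/z^8` is large).
-/

set_option autoImplicit false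

open Finset

namespace Pool.Agent.NQR

open Pool.Agent.NQ (board dsum F Ent Dg phi ln Q Qset st cellD bern)

private theorem pp_nonneg' {N : ℕ} {W : ℤ × ℤ → ℝ} {κ : ℝ} (hκ : 0 ≤ κ) (u : ℤ ⊕ ℤ) :
    0 ≤ pp N W κ u := by
  cases u <;> exact le_max_of_le_right hκ

private theorem pp_le' {N : ℕ} {W : ℤ × ℤ → ℝ} {κ : ℝ} (h : Adm N W) (hκ : κ ≤ 1) (u : ℤ ⊕ ℤ) :
    pp N W κ u ≤ 1 := by
  cases u with
  | inl s => exact max_le (h.dd s) hκ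
  | inr s => exact max_le (h.sd s) hκ

private theorem pp0_lt' {L : ℝ} (hL : 1 ≤ L) {N : ℕ} {W : ℤ × ℤ → ℝ} (h : Bd L N W) (u : ℤ ⊕ ℤ) :
    0 < 1 - pp N W 0 u := by
  have hL0 : 0 < 1 / L := by positivity
  cases u with
  | inl s =>
    have h0 := h.dd s
    unfold hD at h0
    show 0 < 1 - max (dsum N W 3 s) 0
    rcases max_cases (dsum N W 3 s) 0 with ⟨h1, _⟩ | ⟨h1, _⟩ <;> rw [h1] <;> linarith
  | inr s =>
    have h0 := h.sd s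
    unfold hS at h0
    show 0 < 1 - max (dsum N W 2 s) 0
    rcases max_cases (dsum N W 2 s) 0 with ⟨h1, _⟩ | ⟨h1, _⟩ <;> rw [h1] <;> linarith

private theorem ro_rng {n : ℕ} (i : Fin n) : 0 ≤ ro i ∧ ro i < ((n + 1 : ℕ) : ℤ) := by
  unfold ro
  have := i.2
  constructor
  · positivity
  · push_cast
    omega

private theorem cl_rng {n : ℕ} (b : Fin (n + 1)) : 0 ≤ cl b ∧ cl b < ((n + 1 : ℕ) : ℤ) := by
  unfold cl
  have := b.2
  constructor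
  · positivity
  · exact_mod_cast this

private theorem mem_bd {n : ℕ} (i : Fin n) (b : Fin (n + 1)) : (ro i, cl b) ∈ board (n + 1) := by
  unfold board
  rw [Finset.mem_product, Finset.mem_Ico, Finset.mem_Ico]
  exact ⟨ro_rng i, cl_rng b⟩

private theorem A_pos {L : ℝ} (hL : 1 ≤ L) {n : ℕ} {W : ℤ × ℤ → ℝ} {A B : ℤ → ℝ}
    (h : Rf L (n + 1) W A B) (i : Fin n) : 0 < A (ro i) := by
  refine lt_of_lt_of_le ?_ (h.A1 _ (ro_rng i).1 (ro_rng i).2)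
  have : (0 : ℝ) < ((n + 1 : ℕ) : ℝ) := by positivity
  positivity

private theorem B_pos {L : ℝ} (hL : 1 ≤ L) {n : ℕ} {W : ℤ × ℤ → ℝ} {A B : ℤ → ℝ}
    (h : Rf L (n + 1) W A B) (b : Fin (n + 1)) : 0 < B (cl b) := by
  refine lt_of_lt_of_le ?_ (h.B1 _ (cl_rng b).1 (cl_rng b).2)
  have : (0 : ℝ) < ((n + 1 : ℕ) : ℝ) := by positivity
  positivity

private theorem hh_rng {L : ℝ} (hL : 1 ≤ L) {N : ℕ} {W : ℤ × ℤ → ℝ} (hA : Adm N W)
    (hB : Bd L N W) (x y : ℤ) : 0 ≤ hh N W x y ∧ hh N W x y ≤ 1 := by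
  have hL0 : 0 < 1 / L := by positivity
  have h1 := hB.sd (x + y)
  have h2 := hB.dd (x - y)
  have h3 : 0 ≤ dsum N W 2 (x + y) := Finset.sum_nonneg fun e _ => hA.nn e
  have h4 : 0 ≤ dsum N W 3 (x - y) := Finset.sum_nonneg fun e _ => hA.nn e
  unfold hh
  have h5 : hS N W (x + y) ≤ 1 := by unfold hS; linarith
  have h6 : hD N W (x - y) ≤ 1 := by unfold hD; linarith
  have h7 : 0 ≤ hS N W (x + y) := by linarith
  have h8 : 0 ≤ hD N W (x - y) := by linarith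
  exact ⟨mul_nonneg h7 h8, mul_le_one₀ h5 h8 h6⟩

private theorem TR_rng {L : ℝ} (hL : 1 ≤ L) {n : ℕ} {W : ℤ × ℤ → ℝ} (hA : Adm (n + 1) W)
    (hB : Bd L (n + 1) W) (a : Fin (n + 1)) (r : Option ℤ) (g : Fin n → Fin (n + 1) → ℝ)
    (hg : ∀ k b, 0 ≤ g k b ∧ g k b ≤ 1) : |TR n W a r g| ≤ L * (n + 1) := by
  have hN : (0 : ℝ) < (n : ℝ) + 1 := by positivity
  have hm : ∀ y, 0 ≤ mk0 (n + 1) W r y ∧ mk0 (n + 1) W r y ≤ 1 := by
    intro y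
    cases r with
    | none => exact ⟨zero_le_one, le_refl _⟩
    | some x => exact hh_rng hL hA hB x y
  have hin : ∀ k b, 0 ≤ W (ro k, cl b) * mk0 (n + 1) W r (cl b) * g k b ∧
      W (ro k, cl b) * mk0 (n + 1) W r (cl b) * g k b ≤ L / (n + 1) := by
    intro k b
    have h1 := hB.hi _ (mem_bd k b)
    push_cast at h1
    have h0 := hA.nn (ro k, cl b)
    refine ⟨mul_nonneg (mul_nonneg h0 (hm _).1) (hg k b).1, ?_⟩
    calc W (ro k, cl b) * mk0 (n + 1) W r (cl b) * g k b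
        ≤ W (ro k, cl b) * mk0 (n + 1) W r (cl b) * 1 :=
          mul_le_mul_of_nonneg_left (hg k b).2 (mul_nonneg h0 (hm _).1)
      _ = W (ro k, cl b) * mk0 (n + 1) W r (cl b) := mul_one _
      _ ≤ W (ro k, cl b) * 1 := mul_le_mul_of_nonneg_left (hm _).2 h0
      _ ≤ L / (n + 1) := by rw [mul_one]; exact h1
  have hk : ∀ k : Fin n, 0 ≤ hh (n + 1) W (ro k) (cl a) *
      ∑ b : Fin (n + 1), W (ro k, cl b) * mk0 (n + 1) W r (cl b) * g k b ∧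
      hh (n + 1) W (ro k) (cl a) *
      ∑ b : Fin (n + 1), W (ro k, cl b) * mk0 (n + 1) W r (cl b) * g k b ≤ L := by
    intro k
    have hs0 : 0 ≤ ∑ b : Fin (n + 1), W (ro k, cl b) * mk0 (n + 1) W r (cl b) * g k b :=
      Finset.sum_nonneg fun b _ => (hin k b).1
    have hs1 : ∑ b : Fin (n + 1), W (ro k, cl b) * mk0 (n + 1) W r (cl b) * g k b ≤ L := by
      calc ∑ b : Fin (n + 1), W (ro k, cl b) * mk0 (n + 1) W r (cl b) * g k b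
          ≤ ∑ b : Fin (n + 1), L / (n + 1) := Finset.sum_le_sum fun b _ => (hin k b).2
        _ = L := by
          rw [Finset.sum_const, Finset.card_univ, Fintype.card_fin, nsmul_eq_mul]
          push_cast
          field_simp
    have h1 := hh_rng hL hA hB (ro k) (cl a)
    refine ⟨mul_nonneg h1.1 hs0, ?_⟩
    calc hh (n + 1) W (ro k) (cl a) *
        ∑ b : Fin (n + 1), W (ro k, cl b) * mk0 (n + 1) W r (cl b) * g k b
        ≤ 1 * ∑ b : Fin (n + 1), W (ro k, cl b) * mk0 (n + 1) W r (cl b) * g k b :=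
          mul_le_mul_of_nonneg_right h1.2 hs0
      _ ≤ L := by rw [one_mul]; exact hs1
  have h0 : 0 ≤ TR n W a r g := Finset.sum_nonneg fun k _ => (hk k).1
  rw [abs_of_nonneg h0]
  calc TR n W a r g ≤ ∑ k : Fin n, L := Finset.sum_le_sum fun k _ => (hk k).2
    _ = n * L := by rw [Finset.sum_const, Finset.card_univ, Fintype.card_fin, nsmul_eq_mul]
    _ ≤ L * (n + 1) := by nlinarith

private theorem gd_card (N : ℕ) : ((gd N).card : ℝ) = 4 * N + 2 := by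
  unfold gd
  rw [Finset.card_disjSum, Int.card_Icc, Int.card_Icc]
  have h1 : ((N : ℤ) + 1 - (-(N : ℤ))).toNat = 2 * N + 1 := by omega
  have h2 : (2 * (N : ℤ) + 1 - 0).toNat = 2 * N + 1 := by omega
  rw [h1, h2]
  push_cast
  ring

/-- the cube root term -/
private theorem cube_le {L Z : ℝ} {n : ℕ} (hL : 1 ≤ L) (hZ : 648 * L ≤ Z)
    (hN : Z ^ 33 ≤ (n : ℝ) + 1) :
    3 * L / ((1 / Z ^ 4) ^ 2 * ((n : ℝ) + 1)) ≤ 1 ∧
      6 * n * (3 * L / ((1 / Z ^ 4) ^ 2 * ((n : ℝ) + 1))) ^ (1 / 3 : ℝ) ≤ ((n : ℝ) + 1) / Z ^ 8 := by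
  have hZ0 : 0 < Z := by linarith
  have hZ1 : 1 ≤ Z := by linarith
  have hN0 : (0 : ℝ) < (n : ℝ) + 1 := by positivity
  have e1 : 3 * L / ((1 / Z ^ 4) ^ 2 * ((n : ℝ) + 1)) = 3 * L * Z ^ 8 / ((n : ℝ) + 1) := by
    field_simp
  rw [e1]
  have h1 : 3 * L * Z ^ 8 / ((n : ℝ) + 1) ≤ (1 / (6 * Z ^ 8)) ^ 3 := by
    rw [div_le_iff₀ hN0]
    have h2 : (1 / (6 * Z ^ 8)) ^ 3 * Z ^ 33 ≤ (1 / (6 * Z ^ 8)) ^ 3 * ((n : ℝ) + 1) :=
      mul_le_mul_of_nonneg_left hN (by positivity)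
    refine le_trans ?_ h2
    have h3 : (1 / (6 * Z ^ 8)) ^ 3 * Z ^ 33 = Z ^ 8 * Z / 216 := by
      field_simp
      norm_num
    rw [h3]
    have h4 : 0 < Z ^ 8 := by positivity
    nlinarith
  have h0 : 0 ≤ 3 * L * Z ^ 8 / ((n : ℝ) + 1) := by positivity
  constructor
  · refine h1.trans ?_
    refine pow_le_one₀ (by positivity) ?_
    rw [div_le_one (by positivity)]
    have : 1 ≤ Z ^ 8 := one_le_pow₀ hZ1
    linarith
  · have h2 : (3 * L * Z ^ 8 / ((n : ℝ) + 1)) ^ (1 / 3 : ℝ) ≤ 1 / (6 * Z ^ 8) := by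
      calc (3 * L * Z ^ 8 / ((n : ℝ) + 1)) ^ (1 / 3 : ℝ)
          ≤ ((1 / (6 * Z ^ 8)) ^ 3) ^ (1 / 3 : ℝ) := Real.rpow_le_rpow h0 h1 (by norm_num)
        _ = 1 / (6 * Z ^ 8) := by
          rw [← Real.rpow_natCast, ← Real.rpow_mul (by positivity)]
          norm_num
    have h3 : (0 : ℝ) ≤ 6 * n := by positivity
    calc 6 * n * (3 * L * Z ^ 8 / ((n : ℝ) + 1)) ^ (1 / 3 : ℝ)
        ≤ 6 * n * (1 / (6 * Z ^ 8)) := mul_le_mul_of_nonneg_left h2 h3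
      _ = n / Z ^ 8 := by field_simp
      _ ≤ ((n : ℝ) + 1) / Z ^ 8 := by
        apply div_le_div_of_nonneg_right _ (by positivity)
        linarith

/-- the total exponent -/
private theorem expo_le {L Z N lam θ Cs Ce E TRv c csum M : ℝ} (hL : 1 ≤ L) (hZ : 1 ≤ Z)
    (hN : Z ^ 8 ≤ N) (hCs : 1 ≤ Cs) (hCe : 1 ≤ Ce)
    (hθ : |θ| = 1 / Z ^ 6) (hlam : |lam| ≤ 2 * |θ|) (hlt : |lam - θ| ≤ θ ^ 2)
    (hE : |E - TRv| ≤ Ce * N / Z ^ 2) (hTR : |TRv| ≤ L * N)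
    (hc : c = |lam| * (3 * L / (1 / Z) ^ 2)) (hcs : csum = (4 * N + 2) * c ^ 2)
    (hM : M ≤ N / Z ^ 8) :
    (3 + 2 * L) + N / Z ^ 39 + (24 * L * (1 / Z ^ 4) ^ 2 * N + 1 + N / Z ^ 9 +
      |lam| * (Cs * N / Z ^ 2) + M) + (lam * E + csum) ≤
      θ * TRv + (30 * L + 4 + 216 * L ^ 2 + 2 * Cs + 2 * Ce) * N / Z ^ 8 := by
  have hZ0 : 0 < Z := by linarith
  have hN0 : 0 < N := lt_of_lt_of_le (by positivity) hN
  have hq1 : 1 ≤ N / Z ^ 8 := by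
    rw [le_div_iff₀ (by positivity)]
    linarith
  obtain ⟨q, hq⟩ : ∃ q, q = N / Z ^ 8 := ⟨_, rfl⟩
  have hNq : N = q * Z ^ 8 := by rw [hq]; field_simp
  rw [← hq] at hq1 hM
  have hp8 : 1 ≤ Z ^ 8 := one_le_pow₀ hZ
  have hlam' : |lam| ≤ 2 / Z ^ 6 := by
    calc |lam| ≤ 2 * |θ| := hlam
      _ = 2 / Z ^ 6 := by rw [hθ]; ring
  have h39 : N / Z ^ 39 ≤ q := by
    rw [hq]
    exact div_le_div_of_nonneg_left hN0.le (by positivity) (pow_le_pow_right₀ hZ (by norm_num))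
  have h9 : N / Z ^ 9 ≤ q := by
    rw [hq]
    exact div_le_div_of_nonneg_left hN0.le (by positivity) (pow_le_pow_right₀ hZ (by norm_num))
  have h24 : 24 * L * (1 / Z ^ 4) ^ 2 * N = 24 * L * q := by
    rw [hq]; field_simp
  have hsc : |lam| * (Cs * N / Z ^ 2) ≤ 2 * Cs * q := by
    calc |lam| * (Cs * N / Z ^ 2) ≤ 2 / Z ^ 6 * (Cs * N / Z ^ 2) :=
          mul_le_mul_of_nonneg_right hlam' (by positivity)
      _ = 2 * Cs * q := by rw [hq]; field_simp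
  have hc2 : c ≤ 6 * L / Z ^ 4 := by
    rw [hc]
    calc |lam| * (3 * L / (1 / Z) ^ 2) ≤ 2 / Z ^ 6 * (3 * L / (1 / Z) ^ 2) :=
          mul_le_mul_of_nonneg_right hlam' (by positivity)
      _ = 6 * L / Z ^ 4 := by field_simp; norm_num
  have hc0 : 0 ≤ c := by rw [hc]; positivity
  have hcc : c ^ 2 ≤ 36 * L ^ 2 / Z ^ 8 := by
    calc c ^ 2 ≤ (6 * L / Z ^ 4) ^ 2 := pow_le_pow_left₀ hc0 hc2 2
      _ = 36 * L ^ 2 / Z ^ 8 := by field_simp; norm_num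
  have hcs2 : csum ≤ 216 * L ^ 2 * q := by
    rw [hcs]
    have h1 : 4 * N + 2 ≤ 6 * N := by linarith
    calc (4 * N + 2) * c ^ 2 ≤ 6 * N * c ^ 2 := mul_le_mul_of_nonneg_right h1 (by positivity)
      _ ≤ 6 * N * (36 * L ^ 2 / Z ^ 8) := mul_le_mul_of_nonneg_left hcc (by positivity)
      _ = 216 * L ^ 2 * q := by rw [hq]; ring
  have hth2 : θ ^ 2 ≤ 1 / Z ^ 8 := by
    have : θ ^ 2 = |θ| ^ 2 := (sq_abs θ).symm
    rw [this, hθ]
    calc (1 / Z ^ 6) ^ 2 = 1 / Z ^ 12 := by field_simp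
      _ ≤ 1 / Z ^ 8 := one_div_le_one_div_of_le (by positivity) (pow_le_pow_right₀ hZ (by norm_num))
  have hE2 : lam * E ≤ θ * TRv + (L * q + 2 * Ce * q) := by
    have e1 : lam * E = θ * TRv + ((lam - θ) * TRv + lam * (E - TRv)) := by ring
    have h1 : (lam - θ) * TRv ≤ L * q := by
      calc (lam - θ) * TRv ≤ |(lam - θ) * TRv| := le_abs_self _
        _ = |lam - θ| * |TRv| := abs_mul _ _
        _ ≤ (1 / Z ^ 8) * (L * N) :=
          mul_le_mul (hlt.trans hth2) hTR (abs_nonneg _) (by positivity)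
        _ = L * q := by rw [hq]; ring
    have h2 : lam * (E - TRv) ≤ 2 * Ce * q := by
      calc lam * (E - TRv) ≤ |lam * (E - TRv)| := le_abs_self _
        _ = |lam| * |E - TRv| := abs_mul _ _
        _ ≤ (2 / Z ^ 6) * (Ce * N / Z ^ 2) :=
          mul_le_mul hlam' hE (abs_nonneg _) (by positivity)
        _ = 2 * Ce * q := by rw [hq]; field_simp
    rw [e1]
    linarith
  have e2 : (30 * L + 4 + 216 * L ^ 2 + 2 * Cs + 2 * Ce) * N / Z ^ 8 =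
      (30 * L + 4 + 216 * L ^ 2 + 2 * Cs + 2 * Ce) * q := by rw [hq]; ring
  rw [e2, h24]
  have h5 : 3 + 2 * L ≤ 5 * L * q := by nlinarith
  linarith

/-- the sum over a fibre -/
private theorem fibre {L : ℝ} (hL : 1 ≤ L) {z n : ℕ} {Cs : ℝ} (hz1 : 1 ≤ (z : ℝ))
    (hz2 : 648 * L ≤ (z : ℝ)) (hN : (z : ℝ) ^ 33 ≤ (n : ℝ) + 1)
    {W : ℤ × ℤ → ℝ} {A B : ℤ → ℝ} (hR : Rf L (n + 1) W A B)
    (U : Finset (ℤ ⊕ ℤ)) (a' : Fin (n + 1))
    (C : Finset (Fin n → Fin (n + 1))) (hC : ∀ Y ∈ C, YF n Y ∧ occ Y = U ∧ hole Y = a')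
    (hCne : C.Nonempty)
    (hsu : SU n W (1 / (z : ℝ) ^ 4) U ≤ (n + 1) + (n + 1) / (z : ℝ) ^ 9)
    (hsc : SC n W (1 / (z : ℝ) ^ 4) (1 / (z : ℝ)) U ≤ Cs * (n + 1) / (z : ℝ) ^ 2)
    (θ : ℝ) (hθ : |θ| ≤ 1) (a : Fin (n + 1)) (r : Option ℤ)
    (g : Fin n → Fin (n + 1) → ℝ) (hg : ∀ k b, 0 ≤ g k b ∧ g k b ≤ 1) :
    ∑ Y ∈ C, Real.exp (θ * TT Y a r g) ≤
      B (cl a') * ((∏ i : Fin n, A (ro i)) * (∏ b : Fin (n + 1), B (cl b)) *
        ∏ u ∈ gd (n + 1), (1 - pp (n + 1) W 0 u))⁻¹ * Real.exp (-(3 * (n : ℝ))) *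
      Real.exp (24 * L * (1 / (z : ℝ) ^ 4) ^ 2 * ((n : ℝ) + 1) + 1 + ((n : ℝ) + 1) / (z : ℝ) ^ 9 +
        |Real.exp θ - 1| * (Cs * ((n : ℝ) + 1) / (z : ℝ) ^ 2) +
        6 * n * (3 * L / ((1 / (z : ℝ) ^ 4) ^ 2 * ((n : ℝ) + 1))) ^ (1 / 3 : ℝ)) *
      (bern (gd (n + 1)) (pp (n + 1) W (1 / (z : ℝ) ^ 4)) U *
        Real.exp ((Real.exp θ - 1) * TM n W (1 / (z : ℝ) ^ 4) (1 / (z : ℝ)) U a r g)) := by
  have hz0 : (0 : ℝ) < z := by linarith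
  obtain ⟨κ, hκ⟩ : ∃ κ : ℝ, κ = 1 / (z : ℝ) ^ 4 := ⟨_, rfl⟩
  obtain ⟨κ0, hκ0⟩ : ∃ κ0 : ℝ, κ0 = 1 / (z : ℝ) := ⟨_, rfl⟩
  obtain ⟨lam, hlam⟩ : ∃ lam : ℝ, lam = Real.exp θ - 1 := ⟨_, rfl⟩
  have hcube := cube_le hL hz2 hN
  rw [← hκ] at hcube
  rw [← hκ, ← hκ0, ← hlam]
  rw [← hκ] at hsu
  rw [← hκ, ← hκ0] at hsc
  have hκp : 0 < κ := by rw [hκ]; positivity
  have hz4 : (648 : ℝ) ≤ (z : ℝ) ^ 4 := by
    calc (648 : ℝ) ≤ z := by nlinarith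
      _ ≤ (z : ℝ) ^ 4 := le_self_pow₀ hz1 (by norm_num)
  have hκh : κ ≤ 1 / 2 := by
    rw [hκ]
    exact one_div_le_one_div_of_le (by norm_num) (by linarith)
  have hκN : 1 ≤ κ * ((n + 1 : ℕ) : ℝ) := by
    rw [hκ, one_div, inv_mul_eq_div, le_div_iff₀ (by positivity), one_mul]
    push_cast
    exact (pow_le_pow_right₀ hz1 (by norm_num)).trans hN
  obtain ⟨V, hV⟩ : ∃ V : ℝ, V = (∏ i : Fin n, A (ro i)) * (∏ b : Fin (n + 1), B (cl b)) *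
        ∏ u ∈ gd (n + 1), (1 - pp (n + 1) W 0 u) := ⟨_, rfl⟩
  rw [← hV]
  have hVp : 0 < V := by
    rw [hV]
    refine mul_pos (mul_pos ?_ ?_) ?_
    · exact Finset.prod_pos fun i _ => A_pos hL hR i
    · exact Finset.prod_pos fun b _ => B_pos hL hR b
    · exact Finset.prod_pos fun u _ => pp0_lt' hL hR.bd u
  have hBp := B_pos hL hR a'
  obtain ⟨Y0, hY0⟩ := hCne
  obtain ⟨hYF0, hocc0, hhole0⟩ := hC Y0 hY0
  have hUgd : U ⊆ gd (n + 1) := by rw [← hocc0]; exact occ_subset Y0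
  obtain ⟨P0, hP0⟩ : ∃ P0 : ℝ, P0 = ∏ u ∈ gd (n + 1) \ U, (1 - pp (n + 1) W 0 u) := ⟨_, rfl⟩
  obtain ⟨Pκ, hPκ⟩ : ∃ Pκ : ℝ, Pκ = ∏ u ∈ gd (n + 1) \ U, (1 - pp (n + 1) W κ u) := ⟨_, rfl⟩
  obtain ⟨Q, hQ⟩ : ∃ Q : ℝ, Q = ∏ u ∈ U, pp (n + 1) W κ u := ⟨_, rfl⟩
  have hP0p : 0 < P0 := by
    rw [hP0]
    exact Finset.prod_pos fun u _ => pp0_lt' hL hR.bd u
  have hQ0 : 0 ≤ Q := by
    rw [hQ]
    exact Finset.prod_nonneg fun u _ => pp_nonneg' hκp.le u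
  have hbern : bern (gd (n + 1)) (pp (n + 1) W κ) U = Q * Pκ := by
    rw [hQ, hPκ]
    rfl
  have hPκ0 : 0 ≤ Pκ := by
    rw [hPκ]
    exact Finset.prod_nonneg fun u _ => sub_nonneg.2 (pp_le' hR.adm (by linarith) u)
  have hcap := cap_le hL hR hκp hκh hκN U
  rw [← hP0, ← hPκ] at hcap
  push_cast at hcap
  have htilt := tilt hL U a' C hC hR.bd hκp (by linarith) hθ hcube.1 a r g hg
  rw [← hQ, ← hlam] at htilt
  have hpt : ∀ Y ∈ C, Real.exp (θ * TT Y a r g) =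
      B (cl a') * V⁻¹ * P0 * ((∏ i, W (ro i, cl (Y i))) * Real.exp (θ * TT Y a r g)) := by
    intro Y hY
    obtain ⟨hYF, hocc, hhole⟩ := hC Y hY
    have hpot := potential hYF hR
    rw [hocc, hhole, ← hP0] at hpot
    have e1 : (∏ i : Fin n, A (ro i)) * (∏ b : Fin (n + 1), B (cl b)) / B (cl a') *
        ∏ u ∈ gd (n + 1), (1 - pp (n + 1) W 0 u) = V / B (cl a') := by
      rw [hV]; ring
    rw [e1] at hpot
    have e2 : B (cl a') * V⁻¹ * ((∏ i, W (ro i, cl (Y i))) * P0) = 1 := by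
      rw [hpot]
      field_simp
    calc Real.exp (θ * TT Y a r g) = 1 * Real.exp (θ * TT Y a r g) := (one_mul _).symm
      _ = B (cl a') * V⁻¹ * ((∏ i, W (ro i, cl (Y i))) * P0) * Real.exp (θ * TT Y a r g) := by
        rw [e2]
      _ = _ := by ring
  have hTA := TA_le (κ0 := κ0) hL hR.bd hκp a r g hg U
  obtain ⟨M, hM⟩ : ∃ M : ℝ, M = 6 * n * (3 * L / (κ ^ 2 * ((n : ℝ) + 1))) ^ (1 / 3 : ℝ) := ⟨_, rfl⟩
  rw [← hM] at htilt ⊢
  have hlt : lam * TA n W κ U a r g ≤ lam * TM n W κ κ0 U a r g +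
      |lam| * (Cs * ((n : ℝ) + 1) / (z : ℝ) ^ 2) := by
    have hSC0 : 0 ≤ SC n W κ κ0 U := by linarith [hTA.1, hTA.2]
    rcases le_total 0 lam with h | h
    · rw [abs_of_nonneg h]
      have h1 := mul_le_mul_of_nonneg_left hTA.2 h
      have h2 := mul_le_mul_of_nonneg_left hsc h
      linarith
    · have h1 := mul_le_mul_of_nonpos_left hTA.1 h
      have h2 : 0 ≤ |lam| * (Cs * ((n : ℝ) + 1) / (z : ℝ) ^ 2) :=
        mul_nonneg (abs_nonneg _) (hSC0.trans hsc)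
      linarith
  calc ∑ Y ∈ C, Real.exp (θ * TT Y a r g)
      = ∑ Y ∈ C, B (cl a') * V⁻¹ * P0 *
        ((∏ i, W (ro i, cl (Y i))) * Real.exp (θ * TT Y a r g)) := Finset.sum_congr rfl hpt
    _ = B (cl a') * V⁻¹ * P0 *
        ∑ Y ∈ C, (∏ i, W (ro i, cl (Y i))) * Real.exp (θ * TT Y a r g) := by
        rw [Finset.mul_sum]
    _ ≤ B (cl a') * V⁻¹ * P0 * (Q * Real.exp (SU n W κ U - n + lam * TA n W κ U a r g
        - 3 * n + M)) := mul_le_mul_of_nonneg_left htilt (by positivity)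
    _ ≤ B (cl a') * V⁻¹ * (Real.exp (24 * L * κ ^ 2 * ((n : ℝ) + 1)) * Pκ) *
        (Q * Real.exp (SU n W κ U - n + lam * TA n W κ U a r g - 3 * n + M)) := by
        refine mul_le_mul_of_nonneg_right ?_ (by positivity)
        exact mul_le_mul_of_nonneg_left hcap (by positivity)
    _ = B (cl a') * V⁻¹ * (Q * Pκ) * Real.exp (24 * L * κ ^ 2 * ((n : ℝ) + 1) +
        (SU n W κ U - n + lam * TA n W κ U a r g - 3 * n + M)) := by
        rw [Real.exp_add (24 * L * κ ^ 2 * ((n : ℝ) + 1))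
          (SU n W κ U - n + lam * TA n W κ U a r g - 3 * n + M)]
        ring
    _ ≤ B (cl a') * V⁻¹ * (Q * Pκ) * Real.exp (-(3 * (n : ℝ)) +
        (24 * L * κ ^ 2 * ((n : ℝ) + 1) + 1 + ((n : ℝ) + 1) / (z : ℝ) ^ 9 +
          |lam| * (Cs * ((n : ℝ) + 1) / (z : ℝ) ^ 2) + M) + lam * TM n W κ κ0 U a r g) := by
        refine mul_le_mul_of_nonneg_left (Real.exp_le_exp.2 ?_) (by positivity)
        linarith
    _ = _ := by
        rw [Real.exp_add, Real.exp_add, hbern]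
        ring

open Classical in
theorem mgf (L : ℝ) (hL : 1 ≤ L) : ∃ (C : ℝ) (z0 : ℕ), 1 ≤ C ∧ ∀ z n : ℕ, z0 ≤ z → InR z (n + 1) →
    ∀ (W : ℤ × ℤ → ℝ) (A B : ℤ → ℝ), Rf L (n + 1) W A B → 0 < (Ys n).card →
    F (n + 1) W - (n + 1) - (n + 1) / (z : ℝ) ^ 39 ≤ Real.log (Ys n).card →
    ∀ (a : Fin (n + 1)) (r : Option ℤ), (∀ x ∈ r, 0 ≤ x ∧ x ≤ n) →
    ∀ g : Fin n → Fin (n + 1) → ℝ, (∀ k b, 0 ≤ g k b ∧ g k b ≤ 1) →
    ∀ θ : ℝ, (θ = 1 / (z : ℝ) ^ 6 ∨ θ = -(1 / (z : ℝ) ^ 6)) →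
    ∑ Y ∈ (Ys n).filter (fun Y => dev (n + 1) W (ll z (n + 1)) (occ Y) ≤ (n + 1) / (z : ℝ) ^ 18),
      Real.exp (θ * TT Y a r g) ≤
      (Ys n).card * Real.exp (θ * TR n W a r g + C * (n + 1) / (z : ℝ) ^ 8) := by
  obtain ⟨Ce, ze, hCe, hexp⟩ := exp_TM L hL
  obtain ⟨zs, hsu⟩ := su_le L hL
  obtain ⟨Cs, zc, hCs, hsc⟩ := sc_le L hL
  refine ⟨30 * L + 4 + 216 * L ^ 2 + 2 * Cs + 2 * Ce,
    max (max ze zs) (max zc (max 1 ⌈648 * L⌉₊)), by nlinarith, ?_⟩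
  intro z n hz hInR W A B hR hYs hF a r hr g hg θ hθ
  have hz1n : 1 ≤ z := by omega
  have hze : ze ≤ z := by omega
  have hzs : zs ≤ z := by omega
  have hzc : zc ≤ z := by omega
  have hz1 : (1 : ℝ) ≤ z := by exact_mod_cast hz1n
  have hz0 : (0 : ℝ) < z := by linarith
  have hz2 : 648 * L ≤ (z : ℝ) := by
    have h1 : ⌈648 * L⌉₊ ≤ z := by omega
    exact (Nat.le_ceil _).trans (by exact_mod_cast h1)
  have hN33 : (z : ℝ) ^ 33 ≤ (n : ℝ) + 1 := by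
    have h1 : z ^ 33 ≤ n + 1 := by
      calc z ^ 33 ≤ z ^ (40 * 500) := Nat.pow_le_pow_right hz1n (by norm_num)
        _ = (z ^ 40) ^ 500 := pow_mul z 40 500
        _ ≤ n + 1 := hInR.1
    exact_mod_cast h1
  have hN8 : (z : ℝ) ^ 8 ≤ (n : ℝ) + 1 := (pow_le_pow_right₀ hz1 (by norm_num)).trans hN33
  have hN0 : (0 : ℝ) < (n : ℝ) + 1 := by positivity
  have hθa : |θ| = 1 / (z : ℝ) ^ 6 := by
    have h6 : 0 < 1 / (z : ℝ) ^ 6 := by positivity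
    rcases hθ with h | h
    · rw [h, abs_of_pos h6]
    · rw [h, abs_neg, abs_of_pos h6]
  have hθ1 : |θ| ≤ 1 := by
    rw [hθa, div_le_one (by positivity)]
    exact one_le_pow₀ hz1
  have hlam1 : |Real.exp θ - 1| ≤ 2 * |θ| := Real.abs_exp_sub_one_le hθ1
  have hlam2 : |(Real.exp θ - 1) - θ| ≤ θ ^ 2 := Real.abs_exp_sub_one_sub_id_le hθ1
  have hE := hexp z n hze hInR W A B hR a r hr g hg
  have hTR := TR_rng hL hR.adm hR.bd a r g hg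
  have hcube := cube_le hL hz2 hN33
  obtain ⟨lam, hlam⟩ : ∃ lam : ℝ, lam = Real.exp θ - 1 := ⟨_, rfl⟩
  obtain ⟨M, hM⟩ : ∃ M : ℝ, M = 6 * n * (3 * L / ((1 / (z : ℝ) ^ 4) ^ 2 *
    ((n : ℝ) + 1))) ^ (1 / 3 : ℝ) := ⟨_, rfl⟩
  obtain ⟨κ, hκ⟩ : ∃ κ : ℝ, κ = 1 / (z : ℝ) ^ 4 := ⟨_, rfl⟩
  obtain ⟨κ0, hκ0⟩ : ∃ κ0 : ℝ, κ0 = 1 / (z : ℝ) := ⟨_, rfl⟩
  have hκp : 0 < κ := by rw [hκ]; positivity
  have hκ1 : κ ≤ 1 := by
    rw [hκ, div_le_one (by positivity)]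
    exact one_le_pow₀ hz1
  have hκκ0 : κ ≤ κ0 := by
    rw [hκ, hκ0]
    exact one_div_le_one_div_of_le hz0 (le_self_pow₀ hz1 (by norm_num))
  have hκ01 : κ0 ≤ 1 := by
    rw [hκ0, div_le_one hz0]
    exact hz1
  obtain ⟨V, hV⟩ : ∃ V : ℝ, V = (∏ i : Fin n, A (ro i)) * (∏ b : Fin (n + 1), B (cl b)) *
        ∏ u ∈ gd (n + 1), (1 - pp (n + 1) W 0 u) := ⟨_, rfl⟩
  obtain ⟨T, hT⟩ : ∃ T : Finset (Fin n → Fin (n + 1)), T = (Ys n).filter (fun Y =>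
    dev (n + 1) W (ll z (n + 1)) (occ Y) ≤ (n + 1) / (z : ℝ) ^ 18) := ⟨_, rfl⟩
  obtain ⟨X, hX⟩ : ∃ X : ℝ, X = 24 * L * (1 / (z : ℝ) ^ 4) ^ 2 * ((n : ℝ) + 1) + 1 +
    ((n : ℝ) + 1) / (z : ℝ) ^ 9 + |lam| * (Cs * ((n : ℝ) + 1) / (z : ℝ) ^ 2) + M := ⟨_, rfl⟩
  obtain ⟨G, hG⟩ : ∃ G : Finset (ℤ ⊕ ℤ) → ℝ, G = fun U => bern (gd (n + 1)) (pp (n + 1) W κ) U *
    Real.exp (lam * TM n W κ κ0 U a r g) := ⟨_, rfl⟩
  have hVp : 0 < V := by
    rw [hV]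
    refine mul_pos (mul_pos ?_ ?_) ?_
    · exact Finset.prod_pos fun i _ => A_pos hL hR i
    · exact Finset.prod_pos fun b _ => B_pos hL hR b
    · exact Finset.prod_pos fun u _ => pp0_lt' hL hR.bd u
  have hG0 : ∀ U, 0 ≤ G U := by
    intro U
    rw [hG]
    refine mul_nonneg (mul_nonneg ?_ ?_) (Real.exp_pos _).le
    · exact Finset.prod_nonneg fun u _ => pp_nonneg' hκp.le u
    · exact Finset.prod_nonneg fun u _ => sub_nonneg.2 (pp_le' hR.adm hκ1 u)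
  rw [← hT]
  have hfib : ∀ p ∈ (univ : Finset (Fin (n + 1))) ×ˢ (gd (n + 1)).powerset,
      ∑ Y ∈ T.filter (fun Y => (hole Y, occ Y) = p), Real.exp (θ * TT Y a r g) ≤
        (B (cl p.1) * (V⁻¹ * Real.exp (-(3 * (n : ℝ))) * Real.exp X)) * G p.2 := by
    rintro ⟨a', U⟩ _
    rcases (T.filter (fun Y => (hole Y, occ Y) = (a', U))).eq_empty_or_nonempty with h | h
    · rw [h, Finset.sum_empty]
      have h1 := B_pos hL hR a'
      exact mul_nonneg (by positivity) (hG0 U)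
    · have hC : ∀ Y ∈ T.filter (fun Y => (hole Y, occ Y) = (a', U)),
          YF n Y ∧ occ Y = U ∧ hole Y = a' := by
        intro Y hY
        rw [Finset.mem_filter, Prod.mk.injEq] at hY
        have h2 := hY.1
        rw [hT, Finset.mem_filter] at h2
        exact ⟨mem_Ys.1 h2.1, hY.2.2, hY.2.1⟩
      have hdev : dev (n + 1) W (ll z (n + 1)) U ≤ (n + 1) / (z : ℝ) ^ 18 := by
        obtain ⟨Y, hY⟩ := h
        have h1 := (hC Y hY).2.1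
        rw [Finset.mem_filter, hT, Finset.mem_filter] at hY
        rw [← h1]
        exact hY.1.2
      have h2 := fibre (Cs := Cs) hL hz1 hz2 hN33 hR U a' _ hC h
        (hsu z n hzs hInR W A B hR U hdev) (hsc z n hzc hInR W A B hR U hdev) θ hθ1 a r g hg
      rw [← hV, ← hM, ← hlam, ← hX, ← hκ, ← hκ0] at h2
      refine h2.trans (le_of_eq ?_)
      rw [hG]
      ring
  have hsum1 : ∑ Y ∈ T, Real.exp (θ * TT Y a r g) =
      ∑ p ∈ (univ : Finset (Fin (n + 1))) ×ˢ (gd (n + 1)).powerset,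
        ∑ Y ∈ T.filter (fun Y => (hole Y, occ Y) = p), Real.exp (θ * TT Y a r g) := by
    refine (Finset.sum_fiberwise_of_maps_to ?_ _).symm
    intro Y _
    rw [Finset.mem_product]
    exact ⟨Finset.mem_univ _, Finset.mem_powerset.2 (occ_subset Y)⟩
  have hsum2 : ∑ p ∈ (univ : Finset (Fin (n + 1))) ×ˢ (gd (n + 1)).powerset,
      (B (cl p.1) * (V⁻¹ * Real.exp (-(3 * (n : ℝ))) * Real.exp X)) * G p.2 =
      ((∑ b : Fin (n + 1), B (cl b)) * V⁻¹ * Real.exp (-(3 * (n : ℝ)))) * Real.exp X *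
        ∑ U ∈ (gd (n + 1)).powerset, G U := by
    have h1 := Finset.sum_mul_sum (univ : Finset (Fin (n + 1))) (gd (n + 1)).powerset
      (fun b => B (cl b) * (V⁻¹ * Real.exp (-(3 * (n : ℝ))) * Real.exp X)) G
    have h2 := Finset.sum_product (univ : Finset (Fin (n + 1))) (gd (n + 1)).powerset
      (fun p : Fin (n + 1) × Finset (ℤ ⊕ ℤ) =>
        (B (cl p.1) * (V⁻¹ * Real.exp (-(3 * (n : ℝ))) * Real.exp X)) * G p.2)
    rw [h2]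
    refine h1.symm.trans ?_
    rw [← Finset.sum_mul]
    ring
  have hmcd := mcd (gd (n + 1)) (pp (n + 1) W κ)
    (fun u _ => ⟨pp_nonneg' hκp.le u, pp_le' hR.adm hκ1 u⟩)
    (fun U => lam * TM n W κ κ0 U a r g) (fun _ => |lam| * (3 * L / κ0 ^ 2)) (by
      intro u _ U _
      rw [← mul_sub, abs_mul]
      exact mul_le_mul_of_nonneg_left
        (lip_TM hL hR.bd hκp hκκ0 hκ01 a r g hg u U) (abs_nonneg _))
  obtain ⟨E, hEdef⟩ : ∃ E : ℝ, E = ∑ U ∈ (gd (n + 1)).powerset,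
    bern (gd (n + 1)) (pp (n + 1) W κ) U * TM n W κ κ0 U a r g := ⟨_, rfl⟩
  have hEl : ∑ U ∈ (gd (n + 1)).powerset,
      bern (gd (n + 1)) (pp (n + 1) W κ) U * (lam * TM n W κ κ0 U a r g) = lam * E := by
    rw [hEdef, Finset.mul_sum]
    exact Finset.sum_congr rfl fun U _ => by ring
  rw [hEl, Finset.sum_const, nsmul_eq_mul, gd_card] at hmcd
  rw [← hκ, ← hκ0, ← hEdef] at hE
  have hGm : ∑ U ∈ (gd (n + 1)).powerset, G U ≤ Real.exp (lam * E +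
      (4 * ((n : ℝ) + 1) + 2) * (|lam| * (3 * L / κ0 ^ 2)) ^ 2) := by
    rw [hG]
    refine hmcd.trans (le_of_eq ?_)
    push_cast
    rfl
  have hconst := const_le hL hR
  rw [← hV] at hconst
  have hFc : Real.exp (F (n + 1) W - (n + 1)) ≤
      (Ys n).card * Real.exp (((n : ℝ) + 1) / (z : ℝ) ^ 39) := by
    have hc : (0 : ℝ) < (Ys n).card := by exact_mod_cast hYs
    calc Real.exp (F (n + 1) W - (n + 1))
        ≤ Real.exp (Real.log (Ys n).card + ((n : ℝ) + 1) / (z : ℝ) ^ 39) :=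
          Real.exp_le_exp.2 (by linarith)
      _ = _ := by rw [Real.exp_add, Real.exp_log hc]
  have hL2 : L ^ 2 ≤ Real.exp (2 * L) := by
    have h1 : L ≤ Real.exp L := by linarith [Real.add_one_le_exp L]
    calc L ^ 2 ≤ Real.exp L ^ 2 := pow_le_pow_left₀ (by linarith) h1 2
      _ = Real.exp (2 * L) := by rw [← Real.exp_nat_mul]; norm_num
  have hexpo := expo_le (Z := (z : ℝ)) (N := (n : ℝ) + 1) (lam := lam) (θ := θ) (Cs := Cs)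
    (Ce := Ce) (E := E) (TRv := TR n W a r g) (c := |lam| * (3 * L / (1 / (z : ℝ)) ^ 2))
    (M := M) hL hz1 hN8 hCs hCe hθa (by rw [hlam]; exact hlam1) (by rw [hlam]; exact hlam2) hE hTR
    rfl rfl (by rw [hM]; exact hcube.2)
  have hG1 : 0 ≤ ∑ U ∈ (gd (n + 1)).powerset, G U := Finset.sum_nonneg fun U _ => hG0 U
  calc ∑ Y ∈ T, Real.exp (θ * TT Y a r g)
      = ∑ p ∈ (univ : Finset (Fin (n + 1))) ×ˢ (gd (n + 1)).powerset,
        ∑ Y ∈ T.filter (fun Y => (hole Y, occ Y) = p), Real.exp (θ * TT Y a r g) := hsum1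
    _ ≤ ∑ p ∈ (univ : Finset (Fin (n + 1))) ×ˢ (gd (n + 1)).powerset,
      (B (cl p.1) * (V⁻¹ * Real.exp (-(3 * (n : ℝ))) * Real.exp X)) * G p.2 :=
        Finset.sum_le_sum hfib
    _ = ((∑ b : Fin (n + 1), B (cl b)) * V⁻¹ * Real.exp (-(3 * (n : ℝ)))) * Real.exp X *
        ∑ U ∈ (gd (n + 1)).powerset, G U := hsum2
    _ ≤ (Real.exp 3 * L ^ 2 * Real.exp (F (n + 1) W - (n + 1))) * Real.exp X *
        ∑ U ∈ (gd (n + 1)).powerset, G U := by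
        refine mul_le_mul_of_nonneg_right ?_ hG1
        exact mul_le_mul_of_nonneg_right hconst (Real.exp_pos _).le
    _ ≤ (Real.exp 3 * Real.exp (2 * L) * ((Ys n).card *
          Real.exp (((n : ℝ) + 1) / (z : ℝ) ^ 39))) * Real.exp X *
        Real.exp (lam * E + (4 * ((n : ℝ) + 1) + 2) * (|lam| * (3 * L / κ0 ^ 2)) ^ 2) := by
        refine mul_le_mul ?_ hGm hG1 (by positivity)
        refine mul_le_mul_of_nonneg_right ?_ (Real.exp_pos _).le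
        refine mul_le_mul ?_ hFc (Real.exp_pos _).le (by positivity)
        exact mul_le_mul_of_nonneg_left hL2 (Real.exp_pos _).le
    _ = (Ys n).card * Real.exp ((3 + 2 * L) + ((n : ℝ) + 1) / (z : ℝ) ^ 39 + X +
        (lam * E + (4 * ((n : ℝ) + 1) + 2) * (|lam| * (3 * L / κ0 ^ 2)) ^ 2)) := by
        obtain ⟨Y1, hY1⟩ : ∃ Y1 : ℝ, Y1 = lam * E + (4 * ((n : ℝ) + 1) + 2) *
          (|lam| * (3 * L / κ0 ^ 2)) ^ 2 := ⟨_, rfl⟩
        rw [← hY1, Real.exp_add _ Y1, Real.exp_add _ X, Real.exp_add (3 + 2 * L),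
          Real.exp_add 3 (2 * L)]
        ring
    _ ≤ (Ys n).card * Real.exp (θ * TR n W a r g +
        (30 * L + 4 + 216 * L ^ 2 + 2 * Cs + 2 * Ce) * (n + 1) / (z : ℝ) ^ 8) := by
        refine mul_le_mul_of_nonneg_left (Real.exp_le_exp.2 ?_) (by positivity)
        rw [hX, hκ0]
        exact hexpo

end Pool.Agent.NQR
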