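import Pool.Agent.NQR.Defs
import Pool.Agent.NQ.Defs

/-!
# NQR-PMax: existence of a maximiser

PLAN. (1) The set `{W | Adm N W}` is a closed subset of the compact set `Set.pi univ (fun _ => Icc 0 1)`
(entries are `≤` row sum `= 1`, zero outside the board; `isCompact_univ_pi`), all conditions are closed:
finite sums of coordinates are continuous in the product topology of `ℤ × ℤ → ℝ`. (2) `F N` is
continuous: finite sums of `Real.negMulLog` (continuous) and of `phi` (continuous: `x log x` is continuous,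
`(1-u) log (1-u) = - negMulLog (1-u)`). (3) nonempty: `W = 1/N` on the board (a diagonal has at most `N`
squares: the map `e ↦ e.1` is injective on a diagonal and has values in `[0,N)`).
(4) `IsCompact.exists_isMaxOn`.
-/

set_option autoImplicit false

open Finset

namespace Pool.Agent.NQR

open Pool.Agent.NQ (board dsum F Ent Dg phi ln Q Qset st cellD bern)

private theorem pm_phi : Continuous phi := by
  have e : phi = fun u => u - Real.negMulLog (1 - u) := by
    funext u
    unfold phi Real.negMulLog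
    ring
  rw [e]
  exact continuous_id.sub (Real.continuous_negMulLog.comp (continuous_const.sub continuous_id))

private theorem pm_dsum (N : ℕ) (k : Fin 4) (s : ℤ) :
    Continuous fun W : ℤ × ℤ → ℝ => dsum N W k s := by
  unfold dsum
  exact continuous_finsetSum _ fun e _ => continuous_apply e

private theorem pm_F (N : ℕ) : Continuous fun W : ℤ × ℤ → ℝ => F N W := by
  unfold F Ent Dg
  refine Continuous.sub ?_ (Continuous.add ?_ ?_)
  · exact continuous_finsetSum _ fun e _ => Real.continuous_negMulLog.comp (continuous_apply e)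
  · exact continuous_finsetSum _ fun s _ => pm_phi.comp (pm_dsum N 2 s)
  · exact continuous_finsetSum _ fun s _ => pm_phi.comp (pm_dsum N 3 s)

private theorem pm_closed (N : ℕ) : IsClosed {W : ℤ × ℤ → ℝ | Adm N W} := by
  have e : {W : ℤ × ℤ → ℝ | Adm N W} =
      ((⋂ e, {W | 0 ≤ W e}) ∩ (⋂ e, ⋂ (_ : e ∉ board N), {W | W e = 0}) ∩
        (⋂ x : ℤ, ⋂ (_ : 0 ≤ x), ⋂ (_ : x < N), {W | dsum N W 0 x = 1})) ∩
      ((⋂ y : ℤ, ⋂ (_ : 0 ≤ y), ⋂ (_ : y < N), {W | dsum N W 1 y = 1}) ∩
        (⋂ s : ℤ, {W | dsum N W 2 s ≤ 1}) ∩ (⋂ s : ℤ, {W | dsum N W 3 s ≤ 1})) := by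
    ext W
    simp only [Set.mem_inter_iff, Set.mem_iInter, Set.mem_ofPred_eq]
    constructor
    · intro h
      exact ⟨⟨⟨h.nn, h.out⟩, h.row⟩, ⟨⟨h.col, h.sd⟩, h.dd⟩⟩
    · rintro ⟨⟨⟨h1, h2⟩, h3⟩, ⟨⟨h4, h5⟩, h6⟩⟩
      exact ⟨h1, h2, h3, h4, h5, h6⟩
  rw [e]
  refine IsClosed.inter (IsClosed.inter (IsClosed.inter ?_ ?_) ?_)
    (IsClosed.inter (IsClosed.inter ?_ ?_) ?_)
  · exact isClosed_iInter fun e => isClosed_le continuous_const (continuous_apply e)
  · exact isClosed_iInter fun e => isClosed_iInter fun _ =>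
      isClosed_eq (continuous_apply e) continuous_const
  · exact isClosed_iInter fun x => isClosed_iInter fun _ => isClosed_iInter fun _ =>
      isClosed_eq (pm_dsum N 0 x) continuous_const
  · exact isClosed_iInter fun x => isClosed_iInter fun _ => isClosed_iInter fun _ =>
      isClosed_eq (pm_dsum N 1 x) continuous_const
  · exact isClosed_iInter fun s => isClosed_le (pm_dsum N 2 s) continuous_const
  · exact isClosed_iInter fun s => isClosed_le (pm_dsum N 3 s) continuous_const

private theorem pm_box (N : ℕ) : {W : ℤ × ℤ → ℝ | Adm N W} ⊆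
    Set.pi Set.univ fun _ => Set.Icc (0 : ℝ) 1 := by
  intro W hW e _
  have h : Adm N W := hW
  refine ⟨h.nn e, ?_⟩
  by_cases he : e ∈ board N
  · have h1 := NQ.mem_board.1 he
    rw [← h.row e.1 h1.1.1 h1.1.2]
    unfold dsum
    exact Finset.single_le_sum (f := W) (fun i _ => h.nn i) (mem_filter.2 ⟨he, rfl⟩)
  · rw [h.out e he]
    exact zero_le_one

private theorem pm_row (N : ℕ) {x : ℤ} (h0 : 0 ≤ x) (h1 : x < N) :
    ((board N).filter fun e => ln 0 e = x).card = N := by
  have e : (board N).filter (fun e => ln 0 e = x) =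
      (Finset.Ico (0 : ℤ) N).image fun y => (x, y) := by
    ext ⟨a, b⟩
    rw [mem_filter, NQ.mem_board, NQ.ln_zero, mem_image]
    constructor
    · rintro ⟨⟨_, h⟩, rfl⟩
      exact ⟨b, mem_Ico.2 h, rfl⟩
    · rintro ⟨y, hy, hxy⟩
      obtain ⟨rfl, rfl⟩ := Prod.mk.inj hxy
      exact ⟨⟨⟨h0, h1⟩, mem_Ico.1 hy⟩, rfl⟩
  rw [e, card_image_of_injective _ (fun a b h => (Prod.mk.inj h).2), Int.card_Ico]
  simp

private theorem pm_col (N : ℕ) {y : ℤ} (h0 : 0 ≤ y) (h1 : y < N) :
    ((board N).filter fun e => ln 1 e = y).card = N := by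
  have e : (board N).filter (fun e => ln 1 e = y) =
      (Finset.Ico (0 : ℤ) N).image fun x => (x, y) := by
    ext ⟨a, b⟩
    rw [mem_filter, NQ.mem_board, NQ.ln_one, mem_image]
    constructor
    · rintro ⟨⟨h, _⟩, rfl⟩
      exact ⟨a, mem_Ico.2 h, rfl⟩
    · rintro ⟨x, hx, hxy⟩
      obtain ⟨rfl, rfl⟩ := Prod.mk.inj hxy
      exact ⟨⟨mem_Ico.1 hx, ⟨h0, h1⟩⟩, rfl⟩
  rw [e, card_image_of_injective _ (fun a b h => (Prod.mk.inj h).1), Int.card_Ico]
  simp

private theorem pm_diag (N : ℕ) (k : Fin 4) (hk : k = 2 ∨ k = 3) (s : ℤ) :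
    ((board N).filter fun e => ln k e = s).card ≤ N := by
  have h1 : ((board N).filter fun e => ln k e = s).card ≤ (Finset.Ico (0 : ℤ) N).card := by
    refine Finset.card_le_card_of_injOn Prod.fst ?_ ?_
    · intro e he
      have h2 := NQ.mem_board.1 (mem_filter.1 he).1
      exact mem_coe.2 (mem_Ico.2 h2.1)
    · intro e he f hf h
      have h2 := (mem_filter.1 (mem_coe.1 he)).2
      have h3 := (mem_filter.1 (mem_coe.1 hf)).2
      rcases hk with rfl | rfl
      · rw [NQ.ln_two] at h2 h3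
        exact Prod.ext h (by omega)
      · rw [NQ.ln_three] at h2 h3
        exact Prod.ext h (by omega)
  rw [Int.card_Ico] at h1
  simpa using h1

private theorem pm_uni (N : ℕ) (k : Fin 4) (s : ℤ) :
    dsum N (fun e => if e ∈ board N then 1 / (N : ℝ) else 0) k s =
      ((board N).filter fun e => ln k e = s).card * (1 / (N : ℝ)) := by
  unfold dsum
  rw [Finset.sum_congr rfl (g := fun _ => 1 / (N : ℝ)), Finset.sum_const, nsmul_eq_mul]
  intro e he
  exact if_pos (mem_filter.1 he).1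

private theorem pm_ne {N : ℕ} (hN : 0 < N) : ∃ W, Adm N W := by
  have hN' : (0 : ℝ) < N := by exact_mod_cast hN
  refine ⟨fun e => if e ∈ board N then 1 / (N : ℝ) else 0, ?_, ?_, ?_, ?_, ?_, ?_⟩
  · intro e
    split_ifs
    · positivity
    · exact le_rfl
  · intro e he
    exact if_neg he
  · intro x h0 h1
    rw [pm_uni, pm_row N h0 h1]
    field_simp
  · intro y h0 h1
    rw [pm_uni, pm_col N h0 h1]
    field_simp
  · intro s
    rw [pm_uni, mul_one_div, div_le_one hN']
    exact_mod_cast pm_diag N 2 (Or.inl rfl) s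
  · intro s
    rw [pm_uni, mul_one_div, div_le_one hN']
    exact_mod_cast pm_diag N 3 (Or.inr rfl) s

theorem exists_opt {N : ℕ} (hN : 0 < N) : ∃ W, Opt N W := by
  obtain ⟨W0, hW0⟩ := pm_ne hN
  have hc : IsCompact {W : ℤ × ℤ → ℝ | Adm N W} :=
    (isCompact_univ_pi fun _ => isCompact_Icc).of_isClosed_subset (pm_closed N) (pm_box N)
  obtain ⟨W, hW, hmax⟩ := hc.exists_isMaxOn ⟨W0, hW0⟩ (pm_F N).continuousOn
  exact ⟨W, hW, fun V hV => hmax hV⟩

end Pool.Agent.NQR
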