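import Pool.Agent.NQR.Defs
import Pool.Agent.NQR.PFoc

/-!
# NQR-PEl: Euler-Lagrange equation

PLAN. For `x ≠ x'`, `y ≠ y'` in `[0,N)` and small `|t|` the weights `W + t (1_(x,y) + 1_(x',y') - 1_(x,y') - 1_(x',y))` are
admissible (row and column sums unchanged, entries positive and diagonal sums `< 1`, finitely many).
`foc` for `t` and `-t` gives `ell(x,y) + ell(x',y') = ell(x,y') + ell(x',y)`. Hence
`ell(x,y) = ell(x,0) + ell(0,y) - ell(0,0)` for all squares (trivial if `x = 0` or `y = 0`). By the definition of `ell`,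
`W = exp(-ell) hS hD`: put `A x = exp(- ell(x,0))`, `B y = exp(- ell(0,y) + ell(0,0))`.
-/

set_option autoImplicit false

open Finset

namespace Pool.Agent.NQR

open Pool.Agent.NQ (board dsum F Ent Dg phi ln Q Qset st cellD bern)

/-- indicator of a square -/
private noncomputable def ind (p e : ℤ × ℤ) : ℝ := if e = p then 1 else 0

/-- the perturbation -/
private noncomputable def per (x x' y y' : ℤ) (e : ℤ × ℤ) : ℝ :=
  ind (x, y) e + ind (x', y') e - ind (x, y') e - ind (x', y) e

private theorem dsum_ind {N : ℕ} {p : ℤ × ℤ} (hp : p ∈ board N) (k : Fin 4) (s : ℤ) :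
    dsum N (ind p) k s = if ln k p = s then 1 else 0 := by
  unfold dsum ind
  rw [Finset.sum_ite_eq']
  simp [hp]

private theorem dsum_per {N : ℕ} (W : ℤ × ℤ → ℝ) (t : ℝ) {x x' y y' : ℤ}
    (h1 : (x, y) ∈ board N) (h2 : (x', y') ∈ board N) (h3 : (x, y') ∈ board N)
    (h4 : (x', y) ∈ board N) (k : Fin 4) (s : ℤ) :
    dsum N (fun e => W e + t * per x x' y y' e) k s = dsum N W k s +
      t * ((if ln k (x, y) = s then 1 else 0) + (if ln k (x', y') = s then 1 else 0) -
        (if ln k (x, y') = s then 1 else 0) - (if ln k (x', y) = s then 1 else 0)) := by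
  rw [← dsum_ind h1, ← dsum_ind h2, ← dsum_ind h3, ← dsum_ind h4]
  unfold dsum per
  rw [Finset.sum_add_distrib, ← Finset.mul_sum, Finset.sum_sub_distrib, Finset.sum_sub_distrib,
    Finset.sum_add_distrib]

private theorem sum_ind {N : ℕ} {p : ℤ × ℤ} (hp : p ∈ board N) (f : ℤ × ℤ → ℝ) :
    ∑ e ∈ board N, ind p e * f e = f p := by
  unfold ind
  simp only [ite_mul, one_mul, zero_mul]
  rw [Finset.sum_ite_eq']
  simp [hp]

private theorem small {N : ℕ} {W : ℤ × ℤ → ℝ}
    (h0 : ∀ e ∈ board N, 0 < W e) (h2 : ∀ s, dsum N W 2 s < 1) (h3 : ∀ s, dsum N W 3 s < 1) :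
    ∃ t : ℝ, 0 < t ∧ ∀ p ∈ board N, 2 * t < W p ∧ 2 * t < 1 - dsum N W 2 (ln 2 p) ∧
      2 * t < 1 - dsum N W 3 (ln 3 p) := by
  have key : ∀ᶠ t in nhdsWithin (0 : ℝ) (Set.Ioi 0), 0 < t ∧ ∀ p ∈ board N,
      2 * t < W p ∧ 2 * t < 1 - dsum N W 2 (ln 2 p) ∧ 2 * t < 1 - dsum N W 3 (ln 3 p) := by
    have pos : ∀ c : ℝ, 0 < c → ∀ᶠ t in nhdsWithin (0 : ℝ) (Set.Ioi 0), 2 * t < c := by
      intro c hc
      have := Ioo_mem_nhdsGT (show (0 : ℝ) < c / 2 by positivity)
      filter_upwards [this] with t ht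
      have := ht.2
      linarith
    refine Filter.Eventually.and self_mem_nhdsWithin ?_
    refine (Filter.eventually_all_finset (board N)).2 (fun p hp => ?_)
    exact (pos _ (h0 p hp)).and ((pos _ (by linarith [h2 (ln 2 p)])).and
      (pos _ (by linarith [h3 (ln 3 p)])))
  exact key.exists

private theorem four {N : ℕ} {W : ℤ × ℤ → ℝ} (h : Opt N W)
    (h0 : ∀ e ∈ board N, 0 < W e) (h2 : ∀ s, dsum N W 2 s < 1) (h3 : ∀ s, dsum N W 3 s < 1)
    {x x' y y' : ℤ} (p1 : (x, y) ∈ board N) (p2 : (x', y') ∈ board N) (p3 : (x, y') ∈ board N)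
    (p4 : (x', y) ∈ board N) :
    ell N W (x, y) + ell N W (x', y') ≤ ell N W (x, y') + ell N W (x', y) := by
  obtain ⟨t, ht, hs⟩ := small h0 h2 h3
  have hV : Adm N (fun e => W e + t * per x x' y y' e) := by
    refine ⟨?_, ?_, ?_, ?_, ?_, ?_⟩
    · intro e
      have hW := h.1.nn e
      have a1 := (hs _ p1).1
      have a2 := (hs _ p2).1
      have a3 := (hs _ p3).1
      have a4 := (hs _ p4).1
      unfold per ind
      by_cases e3 : e = (x, y')
      · subst e3
        split_ifs <;> nlinarith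
      · by_cases e4 : e = (x', y)
        · subst e4
          split_ifs <;> nlinarith
        · simp only [e3, e4, if_false]
          split_ifs <;> nlinarith
    · intro e he
      have b1 : e ≠ (x, y) := fun h => he (h ▸ p1)
      have b2 : e ≠ (x', y') := fun h => he (h ▸ p2)
      have b3 : e ≠ (x, y') := fun h => he (h ▸ p3)
      have b4 : e ≠ (x', y) := fun h => he (h ▸ p4)
      simp only [per, ind, b1, b2, b3, b4, if_false, h.1.out e he]
      ring
    · intro s hs0 hs1
      rw [dsum_per W t p1 p2 p3 p4, h.1.row s hs0 hs1]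
      simp only [Pool.Agent.NQ.ln_zero]
      ring_nf
    · intro s hs0 hs1
      rw [dsum_per W t p1 p2 p3 p4, h.1.col s hs0 hs1]
      simp only [Pool.Agent.NQ.ln_one]
      ring_nf
    · intro s
      rw [dsum_per W t p1 p2 p3 p4]
      have hW := h.1.sd s
      have a1 := (hs _ p1).2.1
      have a2 := (hs _ p2).2.1
      by_cases e1 : ln 2 (x, y) = s
      · rw [e1] at a1
        split_ifs <;> nlinarith
      · by_cases e2 : ln 2 (x', y') = s
        · rw [e2] at a2
          split_ifs <;> nlinarith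
        · simp only [e1, e2, if_false]
          split_ifs <;> nlinarith
    · intro s
      rw [dsum_per W t p1 p2 p3 p4]
      have hW := h.1.dd s
      have a1 := (hs _ p1).2.2
      have a2 := (hs _ p2).2.2
      by_cases e1 : ln 3 (x, y) = s
      · rw [e1] at a1
        split_ifs <;> nlinarith
      · by_cases e2 : ln 3 (x', y') = s
        · rw [e2] at a2
          split_ifs <;> nlinarith
        · simp only [e1, e2, if_false]
          split_ifs <;> nlinarith
  have hf := foc h h0 h2 h3 hV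
  have e1 : ∑ e ∈ board N, ((W e + t * per x x' y y' e) - W e) * ell N W e =
      t * (ell N W (x, y) + ell N W (x', y') - ell N W (x, y') - ell N W (x', y)) := by
    have e2 : ∀ e ∈ board N, ((W e + t * per x x' y y' e) - W e) * ell N W e =
        t * (ind (x, y) e * ell N W e + ind (x', y') e * ell N W e - ind (x, y') e * ell N W e -
          ind (x', y) e * ell N W e) := by
      intro e _
      unfold per
      ring
    rw [Finset.sum_congr rfl e2, ← Finset.mul_sum, Finset.sum_sub_distrib, Finset.sum_sub_distrib,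
      Finset.sum_add_distrib, sum_ind p1, sum_ind p2, sum_ind p3, sum_ind p4]
  rw [e1] at hf
  by_contra hc
  push Not at hc
  have : 0 < t * (ell N W (x, y) + ell N W (x', y') - ell N W (x, y') - ell N W (x', y)) :=
    mul_pos ht (by linarith)
  linarith

theorem euler_lagrange {N : ℕ} (hN : 2 ≤ N) {W : ℤ × ℤ → ℝ} (h : Opt N W)
    (h0 : ∀ e ∈ board N, 0 < W e) (h2 : ∀ s, dsum N W 2 s < 1) (h3 : ∀ s, dsum N W 3 s < 1) :
    ∃ A B : ℤ → ℝ, (∀ x, 0 < A x) ∧ (∀ y, 0 < B y) ∧
      ∀ e ∈ board N, W e = A e.1 * B e.2 * hh N W e.1 e.2 := by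
  refine ⟨fun x => Real.exp (- ell N W (x, 0)), fun y => Real.exp (- ell N W (0, y) + ell N W (0, 0)),
    fun x => Real.exp_pos _, fun y => Real.exp_pos _, ?_⟩
  rintro ⟨x, y⟩ he
  have hN' : (0 : ℤ) < N := by exact_mod_cast (by omega : 0 < N)
  have hb := Pool.Agent.NQ.mem_board.1 he
  simp only at hb
  have p2 : ((0 : ℤ), (0 : ℤ)) ∈ board N := Pool.Agent.NQ.mem_board.2 ⟨⟨le_refl _, hN'⟩, ⟨le_refl _, hN'⟩⟩
  have p3 : (x, (0 : ℤ)) ∈ board N := Pool.Agent.NQ.mem_board.2 ⟨hb.1, ⟨le_refl _, hN'⟩⟩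
  have p4 : ((0 : ℤ), y) ∈ board N := Pool.Agent.NQ.mem_board.2 ⟨⟨le_refl _, hN'⟩, hb.2⟩
  have f1 := four h h0 h2 h3 he p2 p3 p4
  have f2 := four h h0 h2 h3 p3 p4 he p2
  have hel : ell N W (x, y) = ell N W (x, 0) + ell N W (0, y) - ell N W (0, 0) := by linarith
  have hW := h0 _ he
  have hS0 : 0 < hS N W (x + y) := by unfold hS; linarith [h2 (x + y)]
  have hD0 : 0 < hD N W (x - y) := by unfold hD; linarith [h3 (x - y)]
  have e1 : Real.log (W (x, y)) = (- ell N W (x, 0)) + (- ell N W (0, y) + ell N W (0, 0)) +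
      (Real.log (hS N W (x + y)) + Real.log (hD N W (x - y))) := by
    have : ell N W (x, y) = - Real.log (W (x, y)) + Real.log (hS N W (x + y)) +
        Real.log (hD N W (x - y)) := rfl
    linarith
  show W (x, y) = Real.exp (- ell N W (x, 0)) * Real.exp (- ell N W (0, y) + ell N W (0, 0)) *
    (hS N W (x + y) * hD N W (x - y))
  have gen : ∀ a b c d : ℝ, Real.exp (a + b + (c + d)) =
      Real.exp a * Real.exp b * (Real.exp c * Real.exp d) := by
    intro a b c d
    rw [Real.exp_add, Real.exp_add, Real.exp_add]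
  rw [← Real.exp_log hW, e1, gen, Real.exp_log hS0, Real.exp_log hD0]

end Pool.Agent.NQR
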