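import Pool.Agent.NQR.Defs
import Pool.Agent.NQ.Nice

/-!
# NQR-PNice: an admissible weight function with small diagonal sums
-/

set_option autoImplicit false

open Finset

namespace Pool.Agent.NQR

open Pool.Agent.NQ (board dsum F Ent Dg phi ln Q Qset st cellD bern)

/-- the mean of the sign pattern -/
private noncomputable def cc (N : ℕ) : ℝ := (∑ i ∈ Finset.Ico (0 : ℤ) N, Pool.Agent.NQ.sg N i) / N

/-- the centred sign pattern -/
private noncomputable def s0 (N : ℕ) (i : ℤ) : ℝ := Pool.Agent.NQ.sg N i - cc N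

private noncomputable def W0 (N : ℕ) (e : ℤ × ℤ) : ℝ :=
  (1 / (N : ℝ)) * (1 - (1 / 10) * (s0 N e.1 * s0 N e.2))

private noncomputable def Wn (N : ℕ) (e : ℤ × ℤ) : ℝ := if e ∈ board N then W0 N e else 0

private theorem cc_bd {N : ℕ} (hN : 1000 ≤ N) : 0 ≤ cc N ∧ cc N ≤ 3 * (1 / (N : ℝ)) := by
  have hN1 : (1000 : ℝ) ≤ N := by exact_mod_cast hN
  obtain ⟨h1, h2⟩ := Pool.Agent.NQ.sum_sg (n := N) (le_trans (by norm_num) hN)
  have h3 : 0 < (N : ℝ) := by linarith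
  unfold cc
  refine ⟨div_nonneg h1 h3.le, ?_⟩
  rw [div_eq_mul_one_div]
  exact mul_le_mul_of_nonneg_right h2 (by positivity)

private theorem x_bd {N : ℕ} (hN : 1000 ≤ N) : 0 < 1 / (N : ℝ) ∧ 1 / (N : ℝ) ≤ 1 / 1000 := by
  have hN1 : (1000 : ℝ) ≤ N := by exact_mod_cast hN
  have h3 : 0 < (N : ℝ) := by linarith
  exact ⟨by positivity, one_div_le_one_div_of_le (by norm_num) hN1⟩

private theorem s0_sum {N : ℕ} (hN : 1000 ≤ N) : ∑ i ∈ Finset.Ico (0 : ℤ) N, s0 N i = 0 := by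
  have hN1 : (1000 : ℝ) ≤ N := by exact_mod_cast hN
  have h3 : (N : ℝ) ≠ 0 := by
    intro h
    rw [h] at hN1
    norm_num at hN1
  unfold s0
  rw [sum_sub_distrib, sum_const, Int.card_Ico, nsmul_eq_mul]
  unfold cc
  have h4 : ((((N : ℤ) - 0).toNat : ℕ) : ℝ) = N := by simp
  rw [h4, mul_div_cancel₀ _ h3, sub_self]

private theorem s0_prod {N : ℕ} (hN : 1000 ≤ N) (i j : ℤ) :
    -2 ≤ s0 N i * s0 N j ∧ s0 N i * s0 N j ≤ 2 := by
  obtain ⟨h1, h2⟩ := cc_bd hN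
  obtain ⟨h3, h4⟩ := x_bd hN
  unfold s0
  generalize cc N = c at h1 h2
  generalize 1 / (N : ℝ) = x at h2 h3 h4
  rcases Pool.Agent.NQ.sg_cases N i with h | h <;> rcases Pool.Agent.NQ.sg_cases N j with h' | h' <;>
    rw [h, h'] <;> constructor <;> nlinarith

private theorem W0_lo {N : ℕ} (hN : 1000 ≤ N) (e : ℤ × ℤ) : 1 / (2 * (N : ℝ)) ≤ W0 N e := by
  obtain ⟨h1, h2⟩ := s0_prod hN e.1 e.2
  obtain ⟨h3, h4⟩ := x_bd hN
  have e1 : 1 / (2 * (N : ℝ)) = (1 / (N : ℝ)) * (1 / 2) := by ring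
  unfold W0
  rw [e1]
  exact mul_le_mul_of_nonneg_left (by linarith) h3.le

private theorem W0_hi {N : ℕ} (hN : 1000 ≤ N) (e : ℤ × ℤ) : W0 N e ≤ 2 / (N : ℝ) := by
  obtain ⟨h1, h2⟩ := s0_prod hN e.1 e.2
  obtain ⟨h3, h4⟩ := x_bd hN
  have e1 : 2 / (N : ℝ) = (1 / (N : ℝ)) * 2 := by ring
  unfold W0
  rw [e1]
  exact mul_le_mul_of_nonneg_left (by linarith) h3.le

private theorem W0_wn {N : ℕ} (hN : 1000 ≤ N) (e : ℤ × ℤ) :
    W0 N e ≤ Pool.Agent.NQ.wn N e + 2 * (1 / (N : ℝ)) ^ 2 := by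
  obtain ⟨h1, h2⟩ := cc_bd hN
  obtain ⟨h3, h4⟩ := x_bd hN
  unfold W0 s0 Pool.Agent.NQ.wn
  generalize cc N = c at h1 h2
  generalize 1 / (N : ℝ) = x at h2 h3 h4
  have key : ∀ a b : ℝ, (a = 1 ∨ a = -1) → (b = 1 ∨ b = -1) →
      1 - 1 / 10 * ((a - c) * (b - c)) ≤ (1 - x) * (1 - 1 / 10 * (a * b)) + 2 * x := by
    intro a b ha hb
    rcases ha with rfl | rfl <;> rcases hb with rfl | rfl <;> nlinarith
  have h5 := mul_le_mul_of_nonneg_left (key _ _ (Pool.Agent.NQ.sg_cases N e.1)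
    (Pool.Agent.NQ.sg_cases N e.2)) h3.le
  linarith

private theorem Wn_sum {N : ℕ} (k : Fin 4) (s : ℤ) :
    dsum N (Wn N) k s = ∑ e ∈ (board N).filter (fun e => Pool.Agent.NQ.ln k e = s), W0 N e := by
  unfold dsum
  refine sum_congr rfl fun e he => ?_
  exact if_pos (mem_filter.1 he).1

private theorem pn_row {N : ℕ} (hN : 1000 ≤ N) {s : ℤ} (h0 : 0 ≤ s) (h1 : s < N) :
    dsum N (Wn N) 0 s = 1 := by
  have hN1 : (1000 : ℝ) ≤ N := by exact_mod_cast hN
  have h3 : (N : ℝ) ≠ 0 := by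
    intro h
    rw [h] at hN1
    norm_num at hN1
  have h2 : dsum N (Wn N) 0 s = ∑ j ∈ Finset.Ico (0 : ℤ) N, W0 N (s, j) := by
    rw [Wn_sum]
    refine sum_nbij' (fun e => e.2) (fun j => (s, j)) ?_ ?_ ?_ ?_ ?_
    · intro e he
      rw [mem_filter, Pool.Agent.NQ.mem_board] at he
      rw [mem_Ico]
      exact he.1.2
    · intro j hj
      rw [mem_Ico] at hj
      rw [mem_filter, Pool.Agent.NQ.mem_board]
      exact ⟨⟨⟨h0, h1⟩, hj⟩, rfl⟩
    · intro e he
      rw [mem_filter] at he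
      exact Prod.ext he.2.symm rfl
    · intro j _
      rfl
    · intro e he
      rw [mem_filter] at he
      have h3 : e.1 = s := he.2
      rw [← h3]
  rw [h2]
  unfold W0
  simp only
  rw [← mul_sum, sum_sub_distrib, ← mul_sum, ← mul_sum, s0_sum hN, sum_const, Int.card_Ico,
    nsmul_eq_mul, mul_one]
  have h4 : ((((N : ℤ) - 0).toNat : ℕ) : ℝ) = N := by simp
  rw [h4, mul_zero, mul_zero, sub_zero]
  field_simp

private theorem pn_swap (N : ℕ) (s : ℤ) : dsum N (Wn N) 1 s = dsum N (Wn N) 0 s := by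
  rw [Wn_sum, Wn_sum]
  refine sum_nbij' Prod.swap Prod.swap ?_ ?_ ?_ ?_ ?_
  · intro e he
    rw [mem_filter, Pool.Agent.NQ.mem_board] at he ⊢
    exact ⟨⟨he.1.2, he.1.1⟩, he.2⟩
  · intro e he
    rw [mem_filter, Pool.Agent.NQ.mem_board] at he ⊢
    exact ⟨⟨he.1.2, he.1.1⟩, he.2⟩
  · intro e _
    rfl
  · intro e _
    rfl
  · intro e _
    unfold W0
    rw [Prod.fst_swap, Prod.snd_swap, mul_comm (s0 N e.2)]

private theorem pn_diag {N : ℕ} (hN : 1000 ≤ N) (k : Fin 4) (s : ℤ)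
    (hk : ∀ e f : ℤ × ℤ, Pool.Agent.NQ.ln k e = Pool.Agent.NQ.ln k f → e.1 = f.1 → e.2 = f.2) :
    dsum N (Wn N) k s ≤ dsum N (Pool.Agent.NQ.wn N) k s + 2 * (1 / (N : ℝ)) := by
  obtain ⟨hx, -⟩ := x_bd hN
  have hN1 : (1000 : ℝ) ≤ N := by exact_mod_cast hN
  have hN0 : (N : ℝ) ≠ 0 := by
    intro h
    rw [h] at hN1
    norm_num at hN1
  rw [Wn_sum]
  refine (sum_le_sum fun e _ => W0_wn hN e).trans ?_
  rw [sum_add_distrib, sum_const, nsmul_eq_mul]
  have hc : ((board N).filter (fun e => Pool.Agent.NQ.ln k e = s)).card ≤ N := by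
    have h1 : ((board N).filter (fun e => Pool.Agent.NQ.ln k e = s)).card ≤
        (Finset.Ico (0 : ℤ) N).card := by
      refine card_le_card_of_injOn (fun e => e.1) ?_ ?_
      · intro e he
        have he2 := mem_coe.1 he
        rw [mem_filter, Pool.Agent.NQ.mem_board] at he2
        exact mem_coe.2 (mem_Ico.2 he2.1.1)
      · intro e he f hf hef
        have he2 := mem_filter.1 (mem_coe.1 he)
        have hf2 := mem_filter.1 (mem_coe.1 hf)
        exact Prod.ext hef (hk e f (he2.2.trans hf2.2.symm) hef)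
    rw [Int.card_Ico] at h1
    simpa using h1
  have hc' : (((board N).filter (fun e => Pool.Agent.NQ.ln k e = s)).card : ℝ) ≤ N := by
    exact_mod_cast hc
  have h2 : (((board N).filter (fun e => Pool.Agent.NQ.ln k e = s)).card : ℝ) *
      (2 * (1 / (N : ℝ)) ^ 2) ≤ 2 * (1 / (N : ℝ)) := by
    refine (mul_le_mul_of_nonneg_right hc' (by positivity)).trans (le_of_eq ?_)
    field_simp
  unfold dsum
  linarith

private theorem pn_small {x : ℝ} (hx : 1000 ≤ x) : 2 * (1 / x) ≤ 1 / 100 := by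
  have h := one_div_le_one_div_of_le (by norm_num : (0 : ℝ) < 1000) hx
  linarith

theorem exists_nice {N : ℕ} (hN : 1000 ≤ N) : ∃ W, Adm N W ∧ (∀ e ∈ board N, 1 / (2 * (N : ℝ)) ≤ W e) ∧
    (∀ e ∈ board N, W e ≤ 2 / (N : ℝ)) ∧ (∀ s, dsum N W 2 s ≤ 19 / 20) ∧
    (∀ s, dsum N W 3 s ≤ 19 / 20) := by
  have hN1 : (1000 : ℝ) ≤ N := by exact_mod_cast hN
  have hN10 : 10 ≤ N := le_trans (by norm_num) hN
  have hb : ∀ e ∈ board N, Wn N e = W0 N e := fun e he => if_pos he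
  refine ⟨Wn N, ⟨?_, ?_, ?_, ?_, ?_, ?_⟩, ?_, ?_, ?_, ?_⟩
  · intro e
    by_cases he : e ∈ board N
    · rw [hb e he]
      exact le_trans (by positivity) (W0_lo hN e)
    · rw [Wn, if_neg he]
  · intro e he
    exact if_neg he
  · intro x h0 h1
    exact pn_row hN h0 h1
  · intro y h0 h1
    rw [pn_swap]
    exact pn_row hN h0 h1
  · intro s
    refine le_trans (pn_diag hN 2 s ?_) ?_
    · intro e f h1 h2
      rw [Pool.Agent.NQ.ln_two] at h1
      rw [Pool.Agent.NQ.ln_two] at h1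
      omega
    · have h := Pool.Agent.NQ.wn_sd hN10 s
      have h2 := pn_small hN1
      linarith
  · intro s
    refine le_trans (pn_diag hN 3 s ?_) ?_
    · intro e f h1 h2
      rw [Pool.Agent.NQ.ln_three] at h1
      rw [Pool.Agent.NQ.ln_three] at h1
      omega
    · have h := Pool.Agent.NQ.wn_dd hN10 s
      have h2 := pn_small hN1
      linarith
  · intro e he
    rw [hb e he]
    exact W0_lo hN e
  · intro e he
    rw [hb e he]
    exact W0_hi hN e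
  · intro s
    refine le_trans (pn_diag hN 2 s ?_) ?_
    · intro e f h1 h2
      rw [Pool.Agent.NQ.ln_two] at h1
      rw [Pool.Agent.NQ.ln_two] at h1
      omega
    · have h := Pool.Agent.NQ.wn_sd hN10 s
      have h2 := pn_small hN1
      linarith
  · intro s
    refine le_trans (pn_diag hN 3 s ?_) ?_
    · intro e f h1 h2
      rw [Pool.Agent.NQ.ln_three] at h1
      rw [Pool.Agent.NQ.ln_three] at h1
      omega
    · have h := Pool.Agent.NQ.wn_dd hN10 s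
      have h2 := pn_small hN1
      linarith

end Pool.Agent.NQR
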