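import Pool.Agent.NQR.Defs
import Pool.Agent.NQR.PNice

/-!
# NQR-PPos: the maximiser is positive and its diagonal sums are smaller than one

PLAN. Let `W0` be the weights of `exists_nice`, `W_t = (1-t) W + t W0`, `0 < t < 1`; `Adm N W_t` (convexity). So
`F N W_t ≤ F N W`. Lower bound for the difference, term by term:
* squares with `W e > 0`: `negMulLog` is concave: `negMulLog (W_t e) ≥ (1-t) negMulLog (W e) + t negMulLog (W0 e)`
  so the difference is `≥ - t C`;
* squares with `W e = 0`: the difference is `negMulLog (t W0 e) = t W0 e (- log (t W0 e)) ≥ t W0 e log (1/t)`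
  as `W0 e ≤ 1`;
* diagonals with sum `u < 1`: `-phi` is concave on `[0,1]` (`phi u = u - negMulLog (1-u)`), difference `≥ -t C`;
* diagonals with sum `u = 1`: `v = (1-t) + t u0`, `1 - v = t (1 - u0) ≥ t/20`, `phi 1 = 1`,
  `- phi v + phi 1 = (1 - v) + negMulLog (1 - v) ≥ t (1-u0) log (1/(t(1-u0))) ≥ (t/20) log (1/t)`.
Hence if there is a square with `W e = 0` or a diagonal with sum one then
`0 ≥ F N W_t - F N W ≥ t (c log (1/t) - C)` with `c > 0`, `C` independent of `t`: false for small `t`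
(take `t = exp(-(C+1)/c)`, or use a limit). One can treat all cases by the single inequality for concave
functions and one distinguished term.
-/

set_option autoImplicit false

open Finset

namespace Pool.Agent.NQR

open Pool.Agent.NQ (board dsum F Ent Dg phi ln Q Qset st cellD bern)

/-- the convex combination of two weight functions -/
private noncomputable def mix (t : ℝ) (W W0 : ℤ × ℤ → ℝ) : ℤ × ℤ → ℝ :=
  fun e => (1 - t) * W e + t * W0 e

private theorem dsum_mix (N : ℕ) (t : ℝ) (W W0 : ℤ × ℤ → ℝ) (k : Fin 4) (s : ℤ) :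
    dsum N (mix t W W0) k s = (1 - t) * dsum N W k s + t * dsum N W0 k s := by
  unfold dsum mix
  rw [Finset.sum_add_distrib, ← Finset.mul_sum, ← Finset.mul_sum]

private theorem adm_mix {N : ℕ} {t : ℝ} (h0 : 0 ≤ t) (h1 : t ≤ 1) {W W0 : ℤ × ℤ → ℝ}
    (h : Adm N W) (h' : Adm N W0) : Adm N (mix t W W0) where
  nn e := add_nonneg (mul_nonneg (by linarith) (h.nn e)) (mul_nonneg h0 (h'.nn e))
  out e he := by simp [mix, h.out e he, h'.out e he]
  row x hx hx' := by rw [dsum_mix, h.row x hx hx', h'.row x hx hx']; ring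
  col x hx hx' := by rw [dsum_mix, h.col x hx hx', h'.col x hx hx']; ring
  sd s := by rw [dsum_mix]; nlinarith [h.sd s, h'.sd s]
  dd s := by rw [dsum_mix]; nlinarith [h.dd s, h'.dd s]

/-- the concavity gap -/
private noncomputable def gap (t a b : ℝ) : ℝ :=
  Real.negMulLog ((1 - t) * a + t * b) - (1 - t) * Real.negMulLog a - t * Real.negMulLog b

private theorem gap_nonneg {t a b : ℝ} (h0 : 0 ≤ t) (h1 : t ≤ 1) (ha : 0 ≤ a) (hb : 0 ≤ b) :
    0 ≤ gap t a b := by
  have h2 := Real.concaveOn_negMulLog.2 (Set.mem_Ici.2 ha) (Set.mem_Ici.2 hb)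
    (show (0 : ℝ) ≤ 1 - t by linarith) h0 (by ring)
  simp only [smul_eq_mul] at h2
  unfold gap
  linarith

private theorem gap_zero {t b : ℝ} : gap t 0 b = b * Real.negMulLog t := by
  unfold gap
  rw [mul_zero, zero_add, Real.negMulLog_mul, Real.negMulLog_zero]
  ring

private theorem phi_mix (t u u0 : ℝ) :
    phi ((1 - t) * u + t * u0) = (1 - t) * phi u + t * phi u0 - gap t (1 - u) (1 - u0) := by
  have e : 1 - ((1 - t) * u + t * u0) = (1 - t) * (1 - u) + t * (1 - u0) := by ring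
  unfold phi gap Real.negMulLog
  rw [e]
  ring

private theorem F_mix (N : ℕ) (t : ℝ) (W W0 : ℤ × ℤ → ℝ) :
    F N (mix t W W0) = (1 - t) * F N W + t * F N W0 + ∑ e ∈ board N, gap t (W e) (W0 e) +
      ∑ s ∈ Finset.Ico (0 : ℤ) (2 * N), gap t (1 - dsum N W 2 s) (1 - dsum N W0 2 s) +
      ∑ s ∈ Finset.Ioo (-(N : ℤ)) N, gap t (1 - dsum N W 3 s) (1 - dsum N W0 3 s) := by
  have h1 : Ent N (mix t W W0) = (1 - t) * Ent N W + t * Ent N W0 +
      ∑ e ∈ board N, gap t (W e) (W0 e) := by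
    unfold Ent
    rw [Finset.mul_sum, Finset.mul_sum, ← Finset.sum_add_distrib, ← Finset.sum_add_distrib]
    refine Finset.sum_congr rfl fun e _ => ?_
    unfold gap mix
    ring
  have h2 : ∀ (k : Fin 4) (S : Finset ℤ), ∑ s ∈ S, phi (dsum N (mix t W W0) k s) =
      (1 - t) * ∑ s ∈ S, phi (dsum N W k s) + t * ∑ s ∈ S, phi (dsum N W0 k s) -
        ∑ s ∈ S, gap t (1 - dsum N W k s) (1 - dsum N W0 k s) := by
    intro k S
    rw [Finset.mul_sum, Finset.mul_sum, ← Finset.sum_add_distrib, ← Finset.sum_sub_distrib]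
    refine Finset.sum_congr rfl fun s _ => ?_
    rw [dsum_mix, phi_mix]
  unfold F Dg
  rw [h1, h2, h2]
  ring

/-- the gap terms of a maximiser cannot grow faster than linearly -/
private theorem no_gap {x y b : ℝ} (hb : 0 < b)
    (h : ∀ t : ℝ, 0 < t → t < 1 → (1 - t) * x + t * y + b * Real.negMulLog t ≤ x) : False := by
  have h1 := h (Real.exp (-((|x - y| + 1) / b))) (Real.exp_pos _) (by
    rw [Real.exp_lt_one_iff]
    have : 0 < (|x - y| + 1) / b := by positivity
    linarith)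
  unfold Real.negMulLog at h1
  rw [Real.log_exp] at h1
  have h2 : 0 < Real.exp (-((|x - y| + 1) / b)) := Real.exp_pos _
  have h3 : b * (-Real.exp (-((|x - y| + 1) / b)) * -((|x - y| + 1) / b)) =
      Real.exp (-((|x - y| + 1) / b)) * (|x - y| + 1) := by
    field_simp
  rw [h3] at h1
  have h4 := le_abs_self (x - y)
  nlinarith

private theorem one_sub_nonneg {N : ℕ} {W : ℤ × ℤ → ℝ} (h : Adm N W) (s : ℤ) :
    0 ≤ 1 - dsum N W 2 s ∧ 0 ≤ 1 - dsum N W 3 s :=
  ⟨by linarith [h.sd s], by linarith [h.dd s]⟩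

private theorem dsum_out2 {N : ℕ} (W : ℤ × ℤ → ℝ) {s : ℤ} (hs : s ∉ Finset.Ico (0 : ℤ) (2 * N)) :
    dsum N W 2 s = 0 := by
  unfold dsum
  refine Finset.sum_eq_zero fun e he => ?_
  exfalso
  rw [Finset.mem_filter] at he
  obtain ⟨he, hs'⟩ := he
  simp only [board, Finset.mem_product, Finset.mem_Ico, Pool.Agent.NQ.ln_two] at he hs'
  rw [Finset.mem_Ico] at hs
  omega

private theorem dsum_out3 {N : ℕ} (W : ℤ × ℤ → ℝ) {s : ℤ} (hs : s ∉ Finset.Ioo (-(N : ℤ)) N) :
    dsum N W 3 s = 0 := by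
  unfold dsum
  refine Finset.sum_eq_zero fun e he => ?_
  exfalso
  rw [Finset.mem_filter] at he
  obtain ⟨he, hs'⟩ := he
  simp only [board, Finset.mem_product, Finset.mem_Ico, Pool.Agent.NQ.ln_three] at he hs'
  rw [Finset.mem_Ioo] at hs
  omega

theorem opt_pos {N : ℕ} (hN : 1000 ≤ N) {W : ℤ × ℤ → ℝ} (h : Opt N W) :
    (∀ e ∈ board N, 0 < W e) ∧ (∀ s, dsum N W 2 s < 1) ∧ (∀ s, dsum N W 3 s < 1) := by
  obtain ⟨W0, hW0, hlo, -, h2, h3⟩ := exists_nice hN
  obtain ⟨hW, hopt⟩ := h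
  have hN' : (0 : ℝ) < N := by
    have : (1000 : ℝ) ≤ N := by exact_mod_cast hN
    linarith
  -- the three groups of terms are nonnegative
  have g1 : ∀ t : ℝ, 0 < t → t < 1 → ∀ e ∈ board N, 0 ≤ gap t (W e) (W0 e) :=
    fun t h0 h1 e _ => gap_nonneg h0.le h1.le (hW.nn e) (hW0.nn e)
  have g2 : ∀ t : ℝ, 0 < t → t < 1 → ∀ s ∈ Finset.Ico (0 : ℤ) (2 * N),
      0 ≤ gap t (1 - dsum N W 2 s) (1 - dsum N W0 2 s) :=
    fun t h0 h1 s _ => gap_nonneg h0.le h1.le (one_sub_nonneg hW s).1 (one_sub_nonneg hW0 s).1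
  have g3 : ∀ t : ℝ, 0 < t → t < 1 → ∀ s ∈ Finset.Ioo (-(N : ℤ)) N,
      0 ≤ gap t (1 - dsum N W 3 s) (1 - dsum N W0 3 s) :=
    fun t h0 h1 s _ => gap_nonneg h0.le h1.le (one_sub_nonneg hW s).2 (one_sub_nonneg hW0 s).2
  have key : ∀ t : ℝ, 0 < t → t < 1 → (1 - t) * F N W + t * F N W0 +
      ∑ e ∈ board N, gap t (W e) (W0 e) +
      ∑ s ∈ Finset.Ico (0 : ℤ) (2 * N), gap t (1 - dsum N W 2 s) (1 - dsum N W0 2 s) +
      ∑ s ∈ Finset.Ioo (-(N : ℤ)) N, gap t (1 - dsum N W 3 s) (1 - dsum N W0 3 s) ≤ F N W := by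
    intro t h0 h1
    rw [← F_mix]
    exact hopt _ (adm_mix h0.le h1.le hW hW0)
  refine ⟨fun e he => ?_, fun s => ?_, fun s => ?_⟩
  · refine lt_of_le_of_ne (hW.nn e) fun h0 => ?_
    have hb : 0 < W0 e := lt_of_lt_of_le (by positivity) (hlo e he)
    refine no_gap (y := F N W0) hb fun t ht0 ht1 => le_trans ?_ (key t ht0 ht1)
    have s1 := Finset.single_le_sum (g1 t ht0 ht1) he
    have s2 := Finset.sum_nonneg (g2 t ht0 ht1)
    have s3 := Finset.sum_nonneg (g3 t ht0 ht1)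
    rw [← h0, gap_zero] at s1
    linarith
  · by_cases hs : s ∈ Finset.Ico (0 : ℤ) (2 * N)
    · refine lt_of_le_of_ne (hW.sd s) fun h0 => ?_
      have hb : 0 < 1 - dsum N W0 2 s := by linarith [h2 s]
      refine no_gap (y := F N W0) hb fun t ht0 ht1 => le_trans ?_ (key t ht0 ht1)
      have s1 := Finset.sum_nonneg (g1 t ht0 ht1)
      have s2 := Finset.single_le_sum (g2 t ht0 ht1) hs
      have s3 := Finset.sum_nonneg (g3 t ht0 ht1)
      simp only [h0, sub_self, gap_zero] at s2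
      linarith
    · rw [dsum_out2 W hs]
      exact one_pos
  · by_cases hs : s ∈ Finset.Ioo (-(N : ℤ)) N
    · refine lt_of_le_of_ne (hW.dd s) fun h0 => ?_
      have hb : 0 < 1 - dsum N W0 3 s := by linarith [h3 s]
      refine no_gap (y := F N W0) hb fun t ht0 ht1 => le_trans ?_ (key t ht0 ht1)
      have s1 := Finset.sum_nonneg (g1 t ht0 ht1)
      have s2 := Finset.sum_nonneg (g2 t ht0 ht1)
      have s3 := Finset.single_le_sum (g3 t ht0 ht1) hs
      simp only [h0, sub_self, gap_zero] at s3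
      linarith
    · rw [dsum_out3 W hs]
      exact one_pos

end Pool.Agent.NQR
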