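import Pool.Agent.NQR.Defs
import Pool.Agent.NQR.PFoc
import Pool.Agent.NQR.PNice
import Pool.Agent.NQR.PPos

/-!
# NQR-PLog: bounds for logarithmic sums

PLAN. `foc` with `V = W0` (the weights of `exists_nice`), written with `sum_dsum2`, `sum_dsum3`:
`∑_s log(1/hS s)(q_s - q0_s) + ∑_s log(1/hD s)(p_s - p0_s) ≤ ∑_e (W0 - W) log W`   (*)
(`q_s = dsum N W 2 s` etc., `q0 ≤ 19/20`). RHS: `- ∑ W log W = Ent ≤ N log N` (Jensen, or `negMulLog_le`:
`-w log w ≤ w log N + 1/N - w ...`; sum over the `N²` squares with `∑ W = N`), and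
`∑ W0 log W ≤ ∑ W0 log W0 + ∑ (W - W0) = ∑ W0 log W0 ≤ N log (2/N)`
(`W0 log (W/W0) ≤ W - W0`). So RHS `≤ N log 2`.
LHS: if `q_s ≥ 39/40` then `q_s - q0_s ≥ 1/40`, the term is `≥ (1/40) log(1/hS s)`; otherwise
`log(1/hS s) ≤ log 40` and the term is `≥ - log 40`, and `(1/40) log(1/hS s) ≤ log 40`. So every term is
`≥ (1/40) log(1/hS s) - 2 log 40`. There are `≤ 4N` diagonals: first claim.
Second claim: (*) also gives `- ∑ W0 log W ≤ N log N + ∑ log(1/h)(q0 - q)^+ ≤ N log N + 4 N log 20 ` (if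
`q0_s > q_s` then `q_s < 19/20`, `log(1/hS) ≤ log 20`), i.e. `∑ W0 log(N W) ≥ - C N`. With
`log x = log⁺ x - log⁻ x`, `W0 ≤ 2/N`, `∑ (2/N) log⁺(N W) ≤ (2/N) ∑ N W = 2N`, `W0 ≥ 1/(2N)`:
`∑ (1/(2N)) log⁻(N W) ≤ C N + 2 N`, so `- ∑ log (N W) ≤ C' N²`.
-/

set_option autoImplicit false

open Finset

namespace Pool.Agent.NQR

open Pool.Agent.NQ (board dsum F Ent Dg phi ln Q Qset st cellD bern)

private theorem pl_term1 {q q0 : ℝ} (h0 : 0 ≤ q) (h1 : q < 1) (h2 : q0 ≤ 19 / 20) :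
    1 / 40 * (-Real.log (1 - q)) - 2 * Real.log 40 ≤ (q - q0) * (-Real.log (1 - q)) := by
  have ha : 0 ≤ -Real.log (1 - q) := by
    have := Real.log_nonpos (by linarith : 0 ≤ 1 - q) (by linarith)
    linarith
  have hL : 0 < Real.log 40 := Real.log_pos (by norm_num)
  rcases le_or_gt (39 / 40) q with h3 | h3
  · have := mul_le_mul_of_nonneg_right (show 1 / 40 ≤ q - q0 by linarith) ha
    linarith
  · have h4 : Real.log (1 / 40) ≤ Real.log (1 - q) :=
      Real.log_le_log (by norm_num) (by linarith)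
    have h5 : Real.log (1 / 40) = -Real.log 40 := by
      rw [one_div, Real.log_inv]
    have h6 := mul_le_mul_of_nonneg_right (show -1 ≤ q - q0 by linarith) ha
    linarith

private theorem pl_term2 {q q0 : ℝ} (h0 : 0 ≤ q) (h1 : q < 1) (h2 : q0 ≤ 19 / 20) :
    -Real.log 40 ≤ (q - q0) * (-Real.log (1 - q)) := by
  have ha : 0 ≤ -Real.log (1 - q) := by
    have := Real.log_nonpos (by linarith : 0 ≤ 1 - q) (by linarith)
    linarith
  have hL : 0 < Real.log 40 := Real.log_pos (by norm_num)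
  rcases le_or_gt (39 / 40) q with h3 | h3
  · have := mul_nonneg (show 0 ≤ q - q0 by linarith) ha
    linarith
  · have h4 : Real.log (1 / 40) ≤ Real.log (1 - q) :=
      Real.log_le_log (by norm_num) (by linarith)
    have h5 : Real.log (1 / 40) = -Real.log 40 := by
      rw [one_div, Real.log_inv]
    have h6 := mul_le_mul_of_nonneg_right (show -1 ≤ q - q0 by linarith) ha
    linarith

private theorem pl_nn {N : ℕ} {W : ℤ × ℤ → ℝ} (h0 : ∀ e, 0 ≤ W e) (k : Fin 4) (s : ℤ) :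
    0 ≤ dsum N W k s := Finset.sum_nonneg fun e _ => h0 e

private theorem pl_card (N : ℕ) : (board N).card = N * N := by
  unfold Pool.Agent.NQ.board
  rw [Finset.card_product, Int.card_Ico]
  simp

/-- the main inequality -/
private theorem pl_key {N : ℕ} (hN : 1000 ≤ N) {W W0 : ℤ × ℤ → ℝ} (h : Opt N W) (h0 : Adm N W0) :
    (∑ s ∈ Finset.Ico (0 : ℤ) (2 * N),
        (dsum N W 2 s - dsum N W0 2 s) * (-Real.log (1 - dsum N W 2 s))) +
      (∑ s ∈ Finset.Ioo (-(N : ℤ)) N,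
        (dsum N W 3 s - dsum N W0 3 s) * (-Real.log (1 - dsum N W 3 s))) ≤
    (∑ e ∈ board N, W0 e * Real.log (N * W e)) - ∑ e ∈ board N, W e * Real.log (N * W e) := by
  obtain ⟨hp, h2, h3⟩ := opt_pos hN h
  have hf := foc h hp h2 h3 h0
  have hN0 : (N : ℝ) ≠ 0 := by
    have : 0 < N := by omega
    exact_mod_cast this.ne'
  obtain ⟨fS, hfS⟩ : ∃ f : ℤ → ℝ, ∀ s, f s = Real.log (hS N W s) := ⟨_, fun _ => rfl⟩
  obtain ⟨fD, hfD⟩ : ∃ f : ℤ → ℝ, ∀ s, f s = Real.log (hD N W s) := ⟨_, fun _ => rfl⟩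
  have e1 : ∑ e ∈ board N, (W0 e - W e) * ell N W e =
      ((∑ e ∈ board N, W e * Real.log (N * W e)) - ∑ e ∈ board N, W0 e * Real.log (N * W e)) +
      ((∑ e ∈ board N, W0 e * Real.log N) - ∑ e ∈ board N, W e * Real.log N) +
      ((∑ e ∈ board N, W0 e * fS (e.1 + e.2)) - ∑ e ∈ board N, W e * fS (e.1 + e.2)) +
      ((∑ e ∈ board N, W0 e * fD (e.1 - e.2)) - ∑ e ∈ board N, W e * fD (e.1 - e.2)) := by
    rw [← Finset.sum_sub_distrib, ← Finset.sum_sub_distrib, ← Finset.sum_sub_distrib,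
      ← Finset.sum_sub_distrib, ← Finset.sum_add_distrib, ← Finset.sum_add_distrib,
      ← Finset.sum_add_distrib]
    refine Finset.sum_congr rfl fun e he => ?_
    have h4 : Real.log (N * W e) = Real.log N + Real.log (W e) :=
      Real.log_mul hN0 (hp e he).ne'
    rw [h4, hfS, hfD]
    unfold ell
    ring
  rw [e1, sum_dsum2, sum_dsum2, sum_dsum3, sum_dsum3, ← Finset.sum_mul, ← Finset.sum_mul,
    adm_mass h0, adm_mass h.1] at hf
  have e2 : ∑ s ∈ Finset.Ico (0 : ℤ) (2 * N),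
        (dsum N W 2 s - dsum N W0 2 s) * (-Real.log (1 - dsum N W 2 s)) =
      (∑ s ∈ Finset.Ico (0 : ℤ) (2 * N), dsum N W0 2 s * fS s) -
        ∑ s ∈ Finset.Ico (0 : ℤ) (2 * N), dsum N W 2 s * fS s := by
    rw [← Finset.sum_sub_distrib]
    refine Finset.sum_congr rfl fun s _ => ?_
    rw [hfS]
    unfold hS
    ring
  have e3 : ∑ s ∈ Finset.Ioo (-(N : ℤ)) N,
        (dsum N W 3 s - dsum N W0 3 s) * (-Real.log (1 - dsum N W 3 s)) =
      (∑ s ∈ Finset.Ioo (-(N : ℤ)) N, dsum N W0 3 s * fD s) -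
        ∑ s ∈ Finset.Ioo (-(N : ℤ)) N, dsum N W 3 s * fD s := by
    rw [← Finset.sum_sub_distrib]
    refine Finset.sum_congr rfl fun s _ => ?_
    rw [hfD]
    unfold hD
    ring
  rw [e2, e3]
  linarith

theorem log_sums : ∃ C : ℝ, 0 < C ∧ ∀ N : ℕ, 1000 ≤ N → ∀ W : ℤ × ℤ → ℝ, Opt N W →
    (∑ s ∈ Finset.Ico (0 : ℤ) (2 * N), (- Real.log (hS N W s)) ≤ C * N) ∧
    (∑ s ∈ Finset.Ioo (-(N : ℤ)) N, (- Real.log (hD N W s)) ≤ C * N) ∧
    (∑ e ∈ board N, (- Real.log (N * W e)) ≤ C * (N : ℝ) ^ 2) := by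
  have hL : 0 < Real.log 40 := Real.log_pos (by norm_num)
  refine ⟨40 * (2 + 8 * Real.log 40), by positivity, fun N hN W hW => ?_⟩
  obtain ⟨W0, hA, hlo, hhi, hq0, hp0⟩ := exists_nice hN
  obtain ⟨hp, h2, h3⟩ := opt_pos hN hW
  have key := pl_key hN hW hA
  have hNpos : (0 : ℝ) < N := by
    have : 0 < N := by omega
    exact_mod_cast this
  -- the two bounds on the right-hand side
  have hWnn : ∀ e, 0 ≤ W e := hW.1.nn
  have hR1 : 0 ≤ ∑ e ∈ board N, W e * Real.log (N * W e) := by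
    have h4 : ∑ e ∈ board N, (W e - 1 / N) ≤ ∑ e ∈ board N, W e * Real.log (N * W e) := by
      refine Finset.sum_le_sum fun e he => ?_
      have h5 : 0 < N * W e := mul_pos hNpos (hp e he)
      have h6 := Real.one_sub_inv_le_log_of_pos h5
      have h7 := mul_le_mul_of_nonneg_left h6 (hWnn e)
      have h8 : W e * (1 - (N * W e)⁻¹) = W e - 1 / N := by
        have h9 := (hp e he).ne'
        field_simp
      linarith
    rw [Finset.sum_sub_distrib, adm_mass hW.1, Finset.sum_const, pl_card] at h4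
    have h5 : (N : ℝ) - (N * N) • (1 / (N : ℝ)) = 0 := by
      rw [nsmul_eq_mul, Nat.cast_mul]
      field_simp
      ring
    rw [h5] at h4
    exact h4
  have hR2 : ∀ e ∈ board N, W0 e * Real.log (N * W e) ≤ 2 * W e := by
    intro e he
    have h5 : 0 < N * W e := mul_pos hNpos (hp e he)
    have h6 : Real.log (N * W e) ≤ N * W e := by
      have := Real.log_le_sub_one_of_pos h5
      linarith
    have h7 := mul_le_mul_of_nonneg_left h6 (hA.nn e)
    have h8 := mul_le_mul_of_nonneg_right (hhi e he) h5.le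
    have h9 : 2 / (N : ℝ) * (N * W e) = 2 * W e := by
      field_simp
    linarith
  have hR2s : ∑ e ∈ board N, W0 e * Real.log (N * W e) ≤ 2 * N := by
    have h4 := Finset.sum_le_sum hR2
    rw [← Finset.mul_sum, adm_mass hW.1] at h4
    exact h4
  -- the left-hand side
  have hS1 : ∀ s, 1 / 40 * (-Real.log (1 - dsum N W 2 s)) - 2 * Real.log 40 ≤
      (dsum N W 2 s - dsum N W0 2 s) * (-Real.log (1 - dsum N W 2 s)) :=
    fun s => pl_term1 (pl_nn hWnn 2 s) (h2 s) (hq0 s)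
  have hD1 : ∀ s, 1 / 40 * (-Real.log (1 - dsum N W 3 s)) - 2 * Real.log 40 ≤
      (dsum N W 3 s - dsum N W0 3 s) * (-Real.log (1 - dsum N W 3 s)) :=
    fun s => pl_term1 (pl_nn hWnn 3 s) (h3 s) (hp0 s)
  have hS2 : ∀ s, -Real.log 40 ≤
      (dsum N W 2 s - dsum N W0 2 s) * (-Real.log (1 - dsum N W 2 s)) :=
    fun s => pl_term2 (pl_nn hWnn 2 s) (h2 s) (hq0 s)
  have hD2 : ∀ s, -Real.log 40 ≤
      (dsum N W 3 s - dsum N W0 3 s) * (-Real.log (1 - dsum N W 3 s)) :=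
    fun s => pl_term2 (pl_nn hWnn 3 s) (h3 s) (hp0 s)
  have hc1 : ((Finset.Ico (0 : ℤ) (2 * N)).card : ℝ) = 2 * N := by
    rw [Int.card_Ico]
    have : (2 * (N : ℤ) - 0).toNat = 2 * N := by omega
    rw [this]
    push_cast
    ring
  have hc2 : ((Finset.Ioo (-(N : ℤ)) N).card : ℝ) ≤ 2 * N := by
    rw [Int.card_Ioo]
    have : ((N : ℤ) - -(N : ℤ) - 1).toNat ≤ 2 * N := by omega
    exact_mod_cast this
  have hSs : 1 / 40 * (∑ s ∈ Finset.Ico (0 : ℤ) (2 * N), (-Real.log (hS N W s))) -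
      2 * Real.log 40 * (2 * N) ≤ ∑ s ∈ Finset.Ico (0 : ℤ) (2 * N),
        (dsum N W 2 s - dsum N W0 2 s) * (-Real.log (1 - dsum N W 2 s)) := by
    have h4 := Finset.sum_le_sum fun s (_ : s ∈ Finset.Ico (0 : ℤ) (2 * N)) => hS1 s
    rw [Finset.sum_sub_distrib, ← Finset.mul_sum, Finset.sum_const, nsmul_eq_mul, hc1] at h4
    unfold hS
    linarith
  have hDs : 1 / 40 * (∑ s ∈ Finset.Ioo (-(N : ℤ)) N, (-Real.log (hD N W s))) -
      2 * Real.log 40 * (2 * N) ≤ ∑ s ∈ Finset.Ioo (-(N : ℤ)) N,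
        (dsum N W 3 s - dsum N W0 3 s) * (-Real.log (1 - dsum N W 3 s)) := by
    have h4 := Finset.sum_le_sum fun s (_ : s ∈ Finset.Ioo (-(N : ℤ)) N) => hD1 s
    rw [Finset.sum_sub_distrib, ← Finset.mul_sum, Finset.sum_const, nsmul_eq_mul] at h4
    have h5 := mul_le_mul_of_nonneg_right hc2 (by positivity : 0 ≤ 2 * Real.log 40)
    unfold hD
    linarith
  have hSt : -Real.log 40 * (2 * N) ≤ ∑ s ∈ Finset.Ico (0 : ℤ) (2 * N),
        (dsum N W 2 s - dsum N W0 2 s) * (-Real.log (1 - dsum N W 2 s)) := by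
    have h4 := Finset.sum_le_sum fun s (_ : s ∈ Finset.Ico (0 : ℤ) (2 * N)) => hS2 s
    rw [Finset.sum_const, nsmul_eq_mul, hc1] at h4
    linarith
  have hDt : -Real.log 40 * (2 * N) ≤ ∑ s ∈ Finset.Ioo (-(N : ℤ)) N,
        (dsum N W 3 s - dsum N W0 3 s) * (-Real.log (1 - dsum N W 3 s)) := by
    have h4 := Finset.sum_le_sum fun s (_ : s ∈ Finset.Ioo (-(N : ℤ)) N) => hD2 s
    rw [Finset.sum_const, nsmul_eq_mul] at h4
    have h5 := mul_le_mul_of_nonneg_right hc2 hL.le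
    linarith
  have hSn : 0 ≤ ∑ s ∈ Finset.Ico (0 : ℤ) (2 * N), (-Real.log (hS N W s)) := by
    refine Finset.sum_nonneg fun s _ => ?_
    unfold hS
    have := Real.log_nonpos (by linarith [h2 s] : 0 ≤ 1 - dsum N W 2 s)
      (by linarith [pl_nn (N := N) hWnn 2 s])
    linarith
  have hDn : 0 ≤ ∑ s ∈ Finset.Ioo (-(N : ℤ)) N, (-Real.log (hD N W s)) := by
    refine Finset.sum_nonneg fun s _ => ?_
    unfold hD
    have := Real.log_nonpos (by linarith [h3 s] : 0 ≤ 1 - dsum N W 3 s)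
      (by linarith [pl_nn (N := N) hWnn 3 s])
    linarith
  have hLN : 0 < Real.log 40 * N := mul_pos hL hNpos
  refine ⟨?_, ?_, ?_⟩
  · nlinarith
  · nlinarith
  · -- the third claim
    have h4 : ∀ e ∈ board N, 1 / (2 * (N : ℝ)) * (-Real.log (N * W e)) ≤
        -(W0 e * Real.log (N * W e)) + 2 * W e := by
      intro e he
      rcases le_or_gt (Real.log (N * W e)) 0 with h5 | h5
      · have h6 := mul_le_mul_of_nonneg_right (hlo e he) (neg_nonneg.2 h5)
        have h7 := hWnn e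
        linarith
      · have h6 := hR2 e he
        have h7 : 1 / (2 * (N : ℝ)) * (-Real.log (N * W e)) ≤ 0 := by
          have : 0 ≤ 1 / (2 * (N : ℝ)) * Real.log (N * W e) := by positivity
          linarith
        linarith
    have h5 := Finset.sum_le_sum h4
    rw [← Finset.mul_sum, Finset.sum_add_distrib, ← Finset.mul_sum, adm_mass hW.1] at h5
    have h9 : ∑ e ∈ board N, -(W0 e * Real.log (N * W e)) =
        -∑ e ∈ board N, W0 e * Real.log (N * W e) := Finset.sum_neg_distrib _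
    rw [h9] at h5
    have h6 : 1 / (2 * (N : ℝ)) * (∑ e ∈ board N, (-Real.log (N * W e))) ≤
        (4 * Real.log 40 + 2) * N := by
      linarith
    have h7 := mul_le_mul_of_nonneg_left h6 (by positivity : 0 ≤ 2 * (N : ℝ))
    have h8 : 2 * (N : ℝ) * (1 / (2 * (N : ℝ)) * (∑ e ∈ board N, (-Real.log (N * W e)))) =
        ∑ e ∈ board N, (-Real.log (N * W e)) := by
      field_simp
    rw [h8] at h7
    nlinarith [mul_pos hL (mul_pos hNpos hNpos), mul_pos hNpos hNpos]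

end Pool.Agent.NQR
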