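import Pool.Agent.NQR.Defs
import Pool.Agent.NQR.PFoc
import Pool.Agent.NQR.PPos
import Pool.Agent.NQR.PEl
import Pool.Agent.NQR.PLog

/-!
# NQR-PBd: bounds for the maximiser

`W = A B hS hD`.  Jensen's inequality for the row and the column sums (in the form
`log z ≤ z - 1`) and `log_sums` give `N A x B y ≤ exp (5 C)`; then the diagonal sums are bounded
away from `1`, and the row and column sums give the lower bound for `A x B y`.
-/

set_option autoImplicit false

open Finset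

namespace Pool.Agent.NQR

open Pool.Agent.NQ (board dsum F Ent Dg phi ln Q Qset st cellD bern)

private theorem mem_brd {N : ℕ} {e : ℤ × ℤ} : e ∈ board N ↔
    e.1 ∈ Finset.Ico (0 : ℤ) N ∧ e.2 ∈ Finset.Ico (0 : ℤ) N := by
  unfold board
  rw [mem_product]

private theorem brd_sum {N : ℕ} (f : ℤ × ℤ → ℝ) : ∑ e ∈ board N, f e =
    ∑ x ∈ Finset.Ico (0 : ℤ) N, ∑ y ∈ Finset.Ico (0 : ℤ) N, f (x, y) := by
  unfold board
  rw [sum_product]

private theorem row_sum {N : ℕ} {W : ℤ × ℤ → ℝ} (h : Adm N W) {x : ℤ}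
    (hx : x ∈ Finset.Ico (0 : ℤ) N) : ∑ y ∈ Finset.Ico (0 : ℤ) N, W (x, y) = 1 := by
  obtain ⟨h1, h2⟩ := mem_Ico.1 hx
  rw [← h.row x h1 h2]
  unfold dsum
  rw [sum_filter, brd_sum]
  symm
  rw [sum_eq_single x]
  · refine sum_congr rfl fun y _ => ?_
    exact if_pos rfl
  · intro a _ ha
    refine sum_eq_zero fun y _ => ?_
    exact if_neg ha
  · intro h3
    exact absurd hx h3

private theorem col_sum {N : ℕ} {W : ℤ × ℤ → ℝ} (h : Adm N W) {y : ℤ}
    (hy : y ∈ Finset.Ico (0 : ℤ) N) : ∑ x ∈ Finset.Ico (0 : ℤ) N, W (x, y) = 1 := by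
  obtain ⟨h1, h2⟩ := mem_Ico.1 hy
  rw [← h.col y h1 h2]
  unfold dsum
  rw [sum_filter, brd_sum]
  refine sum_congr rfl fun x _ => ?_
  symm
  rw [sum_eq_single y]
  · exact if_pos rfl
  · intro a _ ha
    exact if_neg ha
  · intro h3
    exact absurd hy h3

private theorem sum_inj_le (s T : Finset ℤ) (g : ℤ → ℤ) (hg : Set.InjOn g s)
    (hT : ∀ y ∈ s, g y ∈ T) (f : ℤ → ℝ) (hf : ∀ t, 0 ≤ f t) :
    ∑ y ∈ s, f (g y) ≤ ∑ t ∈ T, f t := by
  classical
  rw [← sum_image hg]
  exact sum_le_sum_of_subset_of_nonneg (image_subset_iff.2 hT) (fun _ _ _ => hf _)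

private theorem dsum_nonneg {N : ℕ} {W : ℤ × ℤ → ℝ} (h : Adm N W) (k : Fin 4) (s : ℤ) :
    0 ≤ dsum N W k s := sum_nonneg fun e _ => h.nn e

private theorem log_sum_le {s : Finset ℤ} {z : ℤ → ℝ} (hz : ∀ y ∈ s, 0 < z y)
    (hs : ∑ y ∈ s, z y = s.card) : ∑ y ∈ s, Real.log (z y) ≤ 0 := by
  have h1 : ∑ y ∈ s, Real.log (z y) ≤ ∑ y ∈ s, (z y - 1) :=
    sum_le_sum fun y hy => Real.log_le_sub_one_of_pos (hz y hy)
  rw [sum_sub_distrib, hs, sum_const, nsmul_eq_mul, mul_one, sub_self] at h1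
  exact h1

/-- the number of squares on a diagonal -/
private theorem card_diag {N : ℕ} (k : Fin 4) (hk : 2 ≤ k) (s : ℤ) :
    ((board N).filter (fun e => ln k e = s)).card ≤ N := by
  have h1 : ((board N).filter (fun e => ln k e = s)).card ≤ (Finset.Ico (0 : ℤ) N).card := by
    refine card_le_card_of_injOn Prod.fst ?_ ?_
    · intro e he
      exact (mem_brd.1 (mem_filter.1 he).1).1
    · intro e he e' he' hee
      have h2 := (mem_filter.1 he).2
      have h3 := (mem_filter.1 he').2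
      have hee' : e.1 = e'.1 := hee
      refine Prod.ext hee' ?_
      fin_cases k
      · exact absurd hk (by decide)
      · exact absurd hk (by decide)
      · have h4 : e.1 + e.2 = s := h2
        have h5 : e'.1 + e'.2 = s := h3
        omega
      · have h4 : e.1 - e.2 = s := h2
        have h5 : e'.1 - e'.2 = s := h3
        omega
  rw [Int.card_Ico, sub_zero, Int.toNat_natCast] at h1
  exact h1

private theorem main_bd {N : ℕ} (hN : 1000 ≤ N) {W : ℤ × ℤ → ℝ} (hadm : Adm N W) {C : ℝ}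
    (h2 : ∀ s, dsum N W 2 s < 1) (h3 : ∀ s, dsum N W 3 s < 1) {A B : ℤ → ℝ}
    (hA : ∀ x, 0 < A x) (hB : ∀ y, 0 < B y)
    (hel : ∀ e ∈ board N, W e = A e.1 * B e.2 * hh N W e.1 e.2)
    (hl1 : ∑ s ∈ Finset.Ico (0 : ℤ) (2 * N), (- Real.log (hS N W s)) ≤ C * N)
    (hl2 : ∑ s ∈ Finset.Ioo (-(N : ℤ)) N, (- Real.log (hD N W s)) ≤ C * N)
    (hl3 : ∑ e ∈ board N, (- Real.log (N * W e)) ≤ C * (N : ℝ) ^ 2) {x y : ℤ}
    (hx : x ∈ Finset.Ico (0 : ℤ) N) (hy : y ∈ Finset.Ico (0 : ℤ) N) :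
    A x * B y ≤ Real.exp (5 * C) / N := by
  have hNpos : (0 : ℝ) < N := by
    have : (1000 : ℝ) ≤ N := by exact_mod_cast hN
    linarith
  have hSpos : ∀ s, 0 < hS N W s := fun s => by unfold hS; linarith [h2 s]
  have hDpos : ∀ s, 0 < hD N W s := fun s => by unfold hD; linarith [h3 s]
  have hSle : ∀ s, hS N W s ≤ 1 := fun s => by unfold hS; linarith [dsum_nonneg hadm 2 s]
  have hDle : ∀ s, hD N W s ≤ 1 := fun s => by unfold hD; linarith [dsum_nonneg hadm 3 s]
  have hS0 : ∀ s, 0 ≤ - Real.log (hS N W s) := fun s =>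
    neg_nonneg.2 (Real.log_nonpos (hSpos s).le (hSle s))
  have hD0 : ∀ s, 0 ≤ - Real.log (hD N W s) := fun s =>
    neg_nonneg.2 (Real.log_nonpos (hDpos s).le (hDle s))
  have hWpos : ∀ x ∈ Finset.Ico (0 : ℤ) N, ∀ y ∈ Finset.Ico (0 : ℤ) N, 0 < W (x, y) := by
    intro x hx y hy
    rw [hel (x, y) (mem_brd.2 ⟨hx, hy⟩)]
    exact mul_pos (mul_pos (hA _) (hB _)) (mul_pos (hSpos _) (hDpos _))
  have hlog : ∀ x ∈ Finset.Ico (0 : ℤ) N, ∀ y ∈ Finset.Ico (0 : ℤ) N,
      Real.log (N * W (x, y)) = Real.log N + Real.log (A x) + Real.log (B y) -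
        (- Real.log (hS N W (x + y))) - (- Real.log (hD N W (x - y))) := by
    intro x hx y hy
    rw [hel (x, y) (mem_brd.2 ⟨hx, hy⟩)]
    unfold hh
    rw [Real.log_mul hNpos.ne' (mul_pos (mul_pos (hA _) (hB _))
        (mul_pos (hSpos _) (hDpos _))).ne',
      Real.log_mul (mul_pos (hA _) (hB _)).ne' (mul_pos (hSpos _) (hDpos _)).ne',
      Real.log_mul (hA _).ne' (hB _).ne', Real.log_mul (hSpos _).ne' (hDpos _).ne']
    ring
  have hcard : ((Finset.Ico (0 : ℤ) N).card : ℝ) = N := by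
    rw [Int.card_Ico, sub_zero, Int.toNat_natCast]
  obtain ⟨a, ha⟩ : ∃ a : ℝ, a = ∑ x ∈ Finset.Ico (0 : ℤ) N, Real.log (A x) := ⟨_, rfl⟩
  obtain ⟨b, hb⟩ : ∃ b : ℝ, b = ∑ y ∈ Finset.Ico (0 : ℤ) N, Real.log (B y) := ⟨_, rfl⟩
  -- rows
  have hrow : N * (Real.log N + Real.log (A x)) + b ≤ 2 * C * N := by
    have h4 : ∑ y ∈ Finset.Ico (0 : ℤ) N, Real.log (N * W (x, y)) ≤ 0 := by
      refine log_sum_le (fun y hy => mul_pos hNpos (hWpos x hx y hy)) ?_
      rw [← mul_sum, row_sum hadm hx, mul_one, hcard]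
    have h5 : ∑ y ∈ Finset.Ico (0 : ℤ) N, Real.log (N * W (x, y)) =
        N * (Real.log N + Real.log (A x)) + b -
        ∑ y ∈ Finset.Ico (0 : ℤ) N, (- Real.log (hS N W (x + y))) -
        ∑ y ∈ Finset.Ico (0 : ℤ) N, (- Real.log (hD N W (x - y))) := by
      rw [sum_congr rfl (fun y hy => hlog x hx y hy), sum_sub_distrib, sum_sub_distrib,
        sum_add_distrib, sum_const, nsmul_eq_mul, hcard, hb]
    have h6 : ∑ y ∈ Finset.Ico (0 : ℤ) N, (- Real.log (hS N W (x + y))) ≤ C * N := by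
      refine le_trans (sum_inj_le _ (Finset.Ico (0 : ℤ) (2 * N)) (fun y => x + y) ?_ ?_
        (fun t => - Real.log (hS N W t)) hS0) hl1
      · intro u _ v _ huv
        have : x + u = x + v := huv
        omega
      · intro u hu
        rw [mem_Ico] at hx hu ⊢
        omega
    have h7 : ∑ y ∈ Finset.Ico (0 : ℤ) N, (- Real.log (hD N W (x - y))) ≤ C * N := by
      refine le_trans (sum_inj_le _ (Finset.Ioo (-(N : ℤ)) N) (fun y => x - y) ?_ ?_
        (fun t => - Real.log (hD N W t)) hD0) hl2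
      · intro u _ v _ huv
        have : x - u = x - v := huv
        omega
      · intro u hu
        rw [mem_Ico] at hx hu
        rw [mem_Ioo]
        omega
    linarith
  have hcol : N * (Real.log N + Real.log (B y)) + a ≤ 2 * C * N := by
    have h4 : ∑ x ∈ Finset.Ico (0 : ℤ) N, Real.log (N * W (x, y)) ≤ 0 := by
      refine log_sum_le (z := fun x => N * W (x, y))
        (fun x hx => mul_pos hNpos (hWpos x hx y hy)) ?_
      rw [← mul_sum, col_sum hadm hy, mul_one, hcard]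
    have h5 : ∑ x ∈ Finset.Ico (0 : ℤ) N, Real.log (N * W (x, y)) =
        N * (Real.log N + Real.log (B y)) + a -
        ∑ x ∈ Finset.Ico (0 : ℤ) N, (- Real.log (hS N W (x + y))) -
        ∑ x ∈ Finset.Ico (0 : ℤ) N, (- Real.log (hD N W (x - y))) := by
      rw [sum_congr rfl (fun x hx => hlog x hx y hy), sum_sub_distrib, sum_sub_distrib,
        sum_add_distrib, sum_add_distrib, sum_const, sum_const, nsmul_eq_mul, nsmul_eq_mul,
        hcard, ha]
      ring
    have h6 : ∑ x ∈ Finset.Ico (0 : ℤ) N, (- Real.log (hS N W (x + y))) ≤ C * N := by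
      refine le_trans (sum_inj_le _ (Finset.Ico (0 : ℤ) (2 * N)) (fun x => x + y) ?_ ?_
        (fun t => - Real.log (hS N W t)) hS0) hl1
      · intro u _ v _ huv
        have : u + y = v + y := huv
        omega
      · intro u hu
        rw [mem_Ico] at hy hu ⊢
        omega
    have h7 : ∑ x ∈ Finset.Ico (0 : ℤ) N, (- Real.log (hD N W (x - y))) ≤ C * N := by
      refine le_trans (sum_inj_le _ (Finset.Ioo (-(N : ℤ)) N) (fun x => x - y) ?_ ?_
        (fun t => - Real.log (hD N W t)) hD0) hl2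
      · intro u _ v _ huv
        have : u - y = v - y := huv
        omega
      · intro u hu
        rw [mem_Ico] at hy hu
        rw [mem_Ioo]
        omega
    linarith
  have htot : - (C * N) ≤ N * Real.log N + a + b := by
    have h4 : ∑ e ∈ board N, Real.log (N * W e) ≤
        N * (N * Real.log N + a + b) := by
      rw [brd_sum]
      have h5 : ∀ x ∈ Finset.Ico (0 : ℤ) N, ∑ y ∈ Finset.Ico (0 : ℤ) N, Real.log (N * W (x, y)) ≤
          N * Real.log N + N * Real.log (A x) + b := by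
        intro x hx
        have h6 : ∑ y ∈ Finset.Ico (0 : ℤ) N, Real.log (N * W (x, y)) ≤
            ∑ y ∈ Finset.Ico (0 : ℤ) N, (Real.log N + Real.log (A x) + Real.log (B y)) := by
          refine sum_le_sum fun y hy => ?_
          rw [hlog x hx y hy]
          linarith [hS0 (x + y), hD0 (x - y)]
        rw [sum_add_distrib, sum_const, nsmul_eq_mul, hcard, ← hb] at h6
        linarith
      refine le_trans (sum_le_sum h5) ?_
      rw [sum_add_distrib, sum_add_distrib, sum_const, sum_const, nsmul_eq_mul, nsmul_eq_mul,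
        hcard, ← mul_sum, ← ha]
      apply le_of_eq
      ring
    rw [sum_neg_distrib] at hl3
    have h8 : N * (-(C * N)) ≤ N * (N * Real.log N + a + b) := by nlinarith
    exact le_of_mul_le_mul_left h8 hNpos
  have h9 : N * (Real.log N + Real.log (A x) + Real.log (B y)) ≤ N * (5 * C) := by nlinarith
  have h10 : Real.log N + Real.log (A x) + Real.log (B y) ≤ 5 * C :=
    le_of_mul_le_mul_left h9 hNpos
  have h11 : Real.log (A x * B y * N) ≤ 5 * C := by
    rw [Real.log_mul (mul_pos (hA _) (hB _)).ne' hNpos.ne', Real.log_mul (hA _).ne' (hB _).ne']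
    linarith
  rw [le_div_iff₀ hNpos]
  exact (Real.log_le_iff_le_exp (mul_pos (mul_pos (hA _) (hB _)) hNpos)).1 h11

/-- a diagonal sum is bounded away from one -/
private theorem diag_bd {N : ℕ} (hN : 1000 ≤ N) {W : ℤ × ℤ → ℝ} {M : ℝ} (hM : 0 < M) (k : Fin 4)
    (hk : 2 ≤ k) (s : ℤ) (h1 : dsum N W k s < 1)
    (hW : ∀ e ∈ board N, ln k e = s → W e ≤ M / N * (1 - dsum N W k s)) :
    1 / (1 + M) ≤ 1 - dsum N W k s := by
  have hNpos : (0 : ℝ) < N := by
    have : (1000 : ℝ) ≤ N := by exact_mod_cast hN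
    linarith
  have h2 : dsum N W k s ≤ N * (M / N * (1 - dsum N W k s)) := by
    have h3 : dsum N W k s ≤ ((board N).filter (fun e => ln k e = s)).card •
        (M / N * (1 - dsum N W k s)) := by
      conv_lhs => unfold dsum
      refine sum_le_card_nsmul _ _ _ ?_
      intro e he
      exact hW e (mem_filter.1 he).1 (mem_filter.1 he).2
    rw [nsmul_eq_mul] at h3
    refine h3.trans (mul_le_mul_of_nonneg_right ?_ ?_)
    · exact_mod_cast card_diag k hk s
    · exact mul_nonneg (by positivity) (by linarith)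
  have h4 : (N : ℝ) * (M / N * (1 - dsum N W k s)) = M * (1 - dsum N W k s) := by
    field_simp
  rw [h4] at h2
  rw [div_le_iff₀ (by positivity)]
  linarith

theorem bounds : ∃ L : ℝ, 1 ≤ L ∧ ∀ N : ℕ, 1000 ≤ N → ∀ W : ℤ × ℤ → ℝ, Opt N W → Bd L N W ∧
    ∃ A B : ℤ → ℝ, (∀ x, 0 < A x) ∧ (∀ y, 0 < B y) ∧
      (∀ e ∈ board N, W e = A e.1 * B e.2 * hh N W e.1 e.2) ∧
      (∀ e ∈ board N, 1 / (L * N) ≤ A e.1 * B e.2 ∧ A e.1 * B e.2 ≤ L / N) := by
  obtain ⟨C, hC, hlog⟩ := log_sums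
  obtain ⟨M, hM⟩ : ∃ M : ℝ, M = Real.exp (5 * C) := ⟨_, rfl⟩
  have hM1 : 1 ≤ M := by
    rw [hM]
    exact Real.one_le_exp (by positivity)
  refine ⟨M * (1 + M) ^ 2, by nlinarith, fun N hN W hopt => ?_⟩
  obtain ⟨hl1, hl2, hl3⟩ := hlog N hN W hopt
  obtain ⟨h0, h2, h3⟩ := opt_pos hN hopt
  obtain ⟨A, B, hA, hB, hel⟩ := euler_lagrange (by omega) hopt h0 h2 h3
  have hadm := hopt.1
  have hNpos : (0 : ℝ) < N := by
    have : (1000 : ℝ) ≤ N := by exact_mod_cast hN
    linarith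
  have hSpos : ∀ s, 0 < hS N W s := fun s => by unfold hS; linarith [h2 s]
  have hDpos : ∀ s, 0 < hD N W s := fun s => by unfold hD; linarith [h3 s]
  have hSle : ∀ s, hS N W s ≤ 1 := fun s => by unfold hS; linarith [dsum_nonneg hadm 2 s]
  have hDle : ∀ s, hD N W s ≤ 1 := fun s => by unfold hD; linarith [dsum_nonneg hadm 3 s]
  have hAB : ∀ x ∈ Finset.Ico (0 : ℤ) N, ∀ y ∈ Finset.Ico (0 : ℤ) N, A x * B y ≤ M / N := by
    intro x hx y hy
    rw [hM]
    exact main_bd hN hadm h2 h3 hA hB hel hl1 hl2 hl3 hx hy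
  have hABpos : ∀ x y, 0 < A x * B y := fun x y => mul_pos (hA x) (hB y)
  have hSlo : ∀ s, 1 / (1 + M) ≤ hS N W s := by
    intro s
    refine diag_bd hN (by linarith) 2 le_rfl s (h2 s) ?_
    intro e he hes
    have hes' : e.1 + e.2 = s := hes
    rw [hel e he]
    unfold hh
    rw [hes']
    have h4 := hAB e.1 (mem_brd.1 he).1 e.2 (mem_brd.1 he).2
    calc A e.1 * B e.2 * (hS N W s * hD N W (e.1 - e.2))
        ≤ M / N * (hS N W s * 1) := by
          refine mul_le_mul h4 (mul_le_mul_of_nonneg_left (hDle _) (hSpos _).le)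
            (mul_pos (hSpos _) (hDpos _)).le (by positivity)
      _ = M / N * (1 - dsum N W 2 s) := by rw [mul_one]; rfl
  have hDlo : ∀ s, 1 / (1 + M) ≤ hD N W s := by
    intro s
    refine diag_bd hN (by linarith) 3 (by decide) s (h3 s) ?_
    intro e he hes
    have hes' : e.1 - e.2 = s := hes
    rw [hel e he]
    unfold hh
    rw [hes']
    have h4 := hAB e.1 (mem_brd.1 he).1 e.2 (mem_brd.1 he).2
    calc A e.1 * B e.2 * (hS N W (e.1 + e.2) * hD N W s)
        ≤ M / N * (1 * hD N W s) := by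
          refine mul_le_mul h4 (mul_le_mul_of_nonneg_right (hSle _) (hDpos _).le)
            (mul_pos (hSpos _) (hDpos _)).le (by positivity)
      _ = M / N * (1 - dsum N W 3 s) := by rw [one_mul]; rfl
  have hhle : ∀ x y, hh N W x y ≤ 1 := fun x y => by
    unfold hh
    exact mul_le_one₀ (hSle _) (hDpos _).le (hDle _)
  have hhpos : ∀ x y, 0 < hh N W x y := fun x y => mul_pos (hSpos _) (hDpos _)
  have hcard : ((Finset.Ico (0 : ℤ) N).card : ℝ) = N := by
    rw [Int.card_Ico, sub_zero, Int.toNat_natCast]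
  have hABlo : ∀ x ∈ Finset.Ico (0 : ℤ) N, ∀ y ∈ Finset.Ico (0 : ℤ) N,
      1 / (M * N) ≤ A x * B y := by
    intro x hx y hy
    have h4 : 1 ≤ ∑ v ∈ Finset.Ico (0 : ℤ) N, A x * B v := by
      rw [← row_sum hadm hx]
      refine sum_le_sum fun v hv => ?_
      rw [hel (x, v) (mem_brd.2 ⟨hx, hv⟩)]
      exact mul_le_of_le_one_right (hABpos _ _).le (hhle _ _)
    have h5 : 1 ≤ ∑ u ∈ Finset.Ico (0 : ℤ) N, A u * B y := by
      rw [← col_sum hadm hy]
      refine sum_le_sum fun u hu => ?_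
      rw [hel (u, y) (mem_brd.2 ⟨hu, hy⟩)]
      exact mul_le_of_le_one_right (hABpos _ _).le (hhle _ _)
    have h6 : ∑ u ∈ Finset.Ico (0 : ℤ) N, ∑ v ∈ Finset.Ico (0 : ℤ) N, A u * B v ≤ N * M := by
      have h7 : ∀ u ∈ Finset.Ico (0 : ℤ) N, ∑ v ∈ Finset.Ico (0 : ℤ) N, A u * B v ≤ M := by
        intro u hu
        have h8 := sum_le_card_nsmul (Finset.Ico (0 : ℤ) N) (fun v => A u * B v) (M / N)
          (fun v hv => hAB u hu v hv)
        rw [nsmul_eq_mul, hcard, mul_div_cancel₀ _ hNpos.ne'] at h8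
        exact h8
      have h9 := sum_le_card_nsmul (Finset.Ico (0 : ℤ) N)
        (fun u => ∑ v ∈ Finset.Ico (0 : ℤ) N, A u * B v) M h7
      rw [nsmul_eq_mul, hcard] at h9
      exact h9
    have h10 : (∑ v ∈ Finset.Ico (0 : ℤ) N, A x * B v) * (∑ u ∈ Finset.Ico (0 : ℤ) N, A u * B y) =
        A x * B y * ∑ u ∈ Finset.Ico (0 : ℤ) N, ∑ v ∈ Finset.Ico (0 : ℤ) N, A u * B v := by
      rw [← mul_sum, ← sum_mul, mul_sum, sum_congr rfl (fun u _ => (mul_sum _ _ _).symm),
        ← sum_mul, mul_sum, ← mul_sum, ← mul_sum]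
      ring
    have h11 : 1 ≤ A x * B y * (N * M) := by
      calc (1 : ℝ) = 1 * 1 := (one_mul 1).symm
        _ ≤ (∑ v ∈ Finset.Ico (0 : ℤ) N, A x * B v) * (∑ u ∈ Finset.Ico (0 : ℤ) N, A u * B y) :=
            mul_le_mul h4 h5 zero_le_one (le_trans zero_le_one h4)
        _ = _ := h10
        _ ≤ A x * B y * (N * M) := mul_le_mul_of_nonneg_left h6 (hABpos _ _).le
    rw [div_le_iff₀ (by positivity)]
    linarith
  have hL1 : M ≤ M * (1 + M) ^ 2 := le_mul_of_one_le_right (by linarith) (by nlinarith)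
  refine ⟨⟨?_, ?_, ?_, ?_⟩, A, B, hA, hB, hel, ?_⟩
  · intro e he
    have h4 := hABlo e.1 (mem_brd.1 he).1 e.2 (mem_brd.1 he).2
    rw [hel e he]
    have h5 : 1 / (1 + M) * (1 / (1 + M)) ≤ hh N W e.1 e.2 := by
      unfold hh
      exact mul_le_mul (hSlo _) (hDlo _) (by positivity) (hSpos _).le
    calc 1 / (M * (1 + M) ^ 2 * N) = 1 / (M * N) * (1 / (1 + M) * (1 / (1 + M))) := by
          field_simp
      _ ≤ A e.1 * B e.2 * hh N W e.1 e.2 :=
          mul_le_mul h4 h5 (by positivity) (hABpos _ _).le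
  · intro e he
    have h4 := hAB e.1 (mem_brd.1 he).1 e.2 (mem_brd.1 he).2
    rw [hel e he]
    calc A e.1 * B e.2 * hh N W e.1 e.2 ≤ A e.1 * B e.2 :=
          mul_le_of_le_one_right (hABpos _ _).le (hhle _ _)
      _ ≤ M / N := h4
      _ ≤ M * (1 + M) ^ 2 / N := div_le_div_of_nonneg_right hL1 hNpos.le
  · intro s
    refine le_trans ?_ (hSlo s)
    apply one_div_le_one_div_of_le (by linarith)
    nlinarith
  · intro s
    refine le_trans ?_ (hDlo s)
    apply one_div_le_one_div_of_le (by linarith)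
    nlinarith
  · intro e he
    have h4 := hAB e.1 (mem_brd.1 he).1 e.2 (mem_brd.1 he).2
    have h5 := hABlo e.1 (mem_brd.1 he).1 e.2 (mem_brd.1 he).2
    constructor
    · refine le_trans ?_ h5
      apply one_div_le_one_div_of_le (by positivity)
      exact mul_le_mul_of_nonneg_right hL1 hNpos.le
    · exact h4.trans (div_le_div_of_nonneg_right hL1 hNpos.le)

end Pool.Agent.NQR
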