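import Pool.Agent.NQR.Defs

/-!
# NQR-PHolA: Hoelder continuity of `A` and `B`

PLAN. `1 / A x = ∑_{y in [0,N)} B y h(x,y)` (row sum one). For `0 ≤ x ≤ x + t < N`:
`|1/A(x+t) - 1/A x| ≤ max B * ∑_y |h(x+t,y) - h(x,y)| ≤ (L/√N) (∑_y |q_{x+t+y} - q_{x+y}| + ∑_y |p_{x+t-y} - p_{x-y}|)`
(all factors `0 ≤ h ≤ 1`; `q_s = dsum N W 2 s`, `p_s = dsum N W 3 s`), each sum is part of the sum in the hypothesis
(`hsh`; the numbers `x + y`, `x - y` are distinct, in `[-N, 2N]`): `≤ (L/√N) 2 C √(N t)`. Multiply by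
`A(x+t) A x ≤ L²/N`: `|A(x+t) - A x| ≤ 2 C L³ √t / N`... `= (2 C L³ / √N) √(t/N)`. Same for `B` (columns; there
`p_{x-y}` is shifted to the left: substitute, `|p_{s-t} - p_s|` with `s ∈ [-N,N]` is the same sum after
translation, the missing terms vanish or lie in the range since `p_s = 0` for `|s| ≥ N`).
-/

set_option autoImplicit false

open Finset

namespace Pool.Agent.NQR

open Pool.Agent.NQ (board dsum F Ent Dg phi ln Q Qset st cellD bern)

private theorem row_sum {N : ℕ} {W : ℤ × ℤ → ℝ} {x : ℤ} (h0 : 0 ≤ x) (h1 : x < N) :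
    dsum N W 0 x = ∑ y ∈ Finset.Ico (0 : ℤ) N, W (x, y) := by
  unfold dsum
  refine Finset.sum_nbij' (fun e => e.2) (fun y => (x, y)) ?_ ?_ ?_ ?_ ?_
  · intro e he
    rw [mem_filter] at he
    exact (Finset.mem_product.1 he.1).2
  · intro y hy
    rw [mem_filter]
    exact ⟨Finset.mem_product.2 ⟨Finset.mem_Ico.2 ⟨h0, h1⟩, hy⟩, rfl⟩
  · intro e he
    rw [mem_filter] at he
    exact Prod.ext he.2.symm rfl
  · intro y _
    rfl
  · intro e he
    rw [mem_filter] at he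
    rw [show (x, e.2) = e from Prod.ext he.2.symm rfl]

private theorem col_sum {N : ℕ} {W : ℤ × ℤ → ℝ} {y : ℤ} (h0 : 0 ≤ y) (h1 : y < N) :
    dsum N W 1 y = ∑ x ∈ Finset.Ico (0 : ℤ) N, W (x, y) := by
  unfold dsum
  refine Finset.sum_nbij' (fun e => e.1) (fun x => (x, y)) ?_ ?_ ?_ ?_ ?_
  · intro e he
    rw [mem_filter] at he
    exact (Finset.mem_product.1 he.1).1
  · intro x hx
    rw [mem_filter]
    exact ⟨Finset.mem_product.2 ⟨hx, Finset.mem_Ico.2 ⟨h0, h1⟩⟩, rfl⟩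
  · intro e he
    rw [mem_filter] at he
    exact Prod.ext rfl he.2.symm
  · intro y _
    rfl
  · intro e he
    rw [mem_filter] at he
    rw [show (e.1, y) = e from Prod.ext rfl he.2.symm]

private theorem core {L C : ℝ} (hL : 1 ≤ L) (hC : 0 < C) {N : ℕ} (hN : 1 ≤ N) {A S : ℤ → ℝ}
    (hA : ∀ x : ℤ, 0 ≤ x → x < N → 0 < A x ∧ A x ≤ L / Real.sqrt N)
    (hAS : ∀ x : ℤ, 0 ≤ x → x < N → A x * S x = 1)
    (hS : ∀ (x : ℤ) (t : ℕ), 0 ≤ x → x + t < N →
      |S (x + t) - S x| ≤ L / Real.sqrt N * (C * Real.sqrt (N * t) + C * Real.sqrt (N * t)))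
    (x y : ℤ) (hx0 : 0 ≤ x) (hx : x < N) (hy0 : 0 ≤ y) (hy : y < N) :
      |A x - A y| ≤ 2 * C * L ^ 3 / Real.sqrt N * Real.sqrt ((|x - y| : ℤ) / N) := by
  wlog hxy : x ≤ y generalizing x y
  · have h1 := this y x hy0 hy hx0 hx (le_of_not_ge hxy)
    rw [abs_sub_comm (A x), abs_sub_comm x]
    exact h1
  obtain ⟨t, ht⟩ : ∃ t : ℕ, y = x + t := ⟨(y - x).toNat, by omega⟩
  subst ht
  have h1 : A x - A (x + t) = A x * A (x + t) * (S (x + t) - S x) := by
    have e1 := hAS x hx0 hx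
    have e2 := hAS (x + t) hy0 hy
    calc A x - A (x + t) = A x * (A (x + t) * S (x + t)) - A (x + t) * (A x * S x) := by
          rw [e1, e2]; ring
      _ = _ := by ring
  have hN0 : (0 : ℝ) < N := by exact_mod_cast hN
  have hs : 0 < Real.sqrt N := Real.sqrt_pos.2 hN0
  have habs : |x - (x + t)| = (t : ℤ) := by
    rw [show x - (x + (t : ℤ)) = -(t : ℤ) by ring, abs_neg]
    exact abs_of_nonneg (Int.natCast_nonneg t)
  obtain ⟨a1, a2⟩ := hA x hx0 hx
  obtain ⟨a3, a4⟩ := hA (x + t) hy0 hy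
  have hLs : 0 < L / Real.sqrt N := div_pos (by linarith) hs
  rw [habs, h1, abs_mul, abs_of_pos (mul_pos a1 a3)]
  have h2 := hS x t hx0 hy
  calc A x * A (x + t) * |S (x + t) - S x|
      ≤ (L / Real.sqrt N * (L / Real.sqrt N)) *
        (L / Real.sqrt N * (C * Real.sqrt (N * t) + C * Real.sqrt (N * t))) :=
        mul_le_mul (mul_le_mul a2 a4 a3.le hLs.le) h2 (abs_nonneg _) (mul_nonneg hLs.le hLs.le)
    _ = 2 * C * L ^ 3 / Real.sqrt N * Real.sqrt (((t : ℤ) : ℝ) / N) := by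
        rw [Int.cast_natCast, Real.sqrt_mul hN0.le, Real.sqrt_div (Nat.cast_nonneg t)]
        field_simp
        ring

private theorem hdiff {a b a' b' : ℝ} (ha'0 : 0 ≤ a') (ha' : a' ≤ 1) (hb0 : 0 ≤ b) (hb : b ≤ 1) :
    |a * b - a' * b'| ≤ |a - a'| + |b - b'| := by
  have h1 : a * b - a' * b' = (a - a') * b + a' * (b - b') := by ring
  rw [h1]
  calc |(a - a') * b + a' * (b - b')| ≤ |(a - a') * b| + |a' * (b - b')| := abs_add_le _ _
    _ = |a - a'| * b + a' * |b - b'| := by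
        rw [abs_mul, abs_mul, abs_of_nonneg hb0, abs_of_nonneg ha'0]
    _ ≤ |a - a'| * 1 + 1 * |b - b'| :=
        add_le_add (mul_le_mul_of_nonneg_left hb (abs_nonneg _))
          (mul_le_mul_of_nonneg_right ha' (abs_nonneg _))
    _ = _ := by ring

private theorem sum_part {f : ℤ → ℝ} (hf : ∀ s, 0 ≤ f s) {N : ℕ} (g : ℤ → ℤ)
    (hg : Function.Injective g)
    (hm : ∀ y : ℤ, 0 ≤ y → y < N → -(N : ℤ) ≤ g y ∧ g y ≤ 2 * N) :
    ∑ y ∈ Finset.Ico (0 : ℤ) N, f (g y) ≤ ∑ s ∈ Finset.Icc (-(N : ℤ)) (2 * N), f s := by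
  rw [← Finset.sum_image (fun a _ b _ h => hg h)]
  refine Finset.sum_le_sum_of_subset_of_nonneg ?_ (fun s _ _ => hf s)
  intro s hs
  obtain ⟨y, hy, rfl⟩ := Finset.mem_image.1 hs
  rw [Finset.mem_Ico] at hy
  exact Finset.mem_Icc.2 (hm y hy.1 hy.2)

private theorem dsum_nn {N : ℕ} {W : ℤ × ℤ → ℝ} (hW : Adm N W) (k : Fin 4) (s : ℤ) :
    0 ≤ dsum N W k s := Finset.sum_nonneg fun e _ => hW.nn e

private theorem sum_bd {Λ : ℝ} {N : ℕ} {B f g p q : ℤ → ℝ} {C' : ℝ} (hΛ : 0 ≤ Λ)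
    (hB : ∀ y : ℤ, 0 ≤ y → y < N → 0 < B y ∧ B y ≤ Λ)
    (hfg : ∀ y : ℤ, 0 ≤ y → y < N → |f y - g y| ≤ p y + q y)
    (hp : ∑ y ∈ Finset.Ico (0 : ℤ) N, p y ≤ C') (hq : ∑ y ∈ Finset.Ico (0 : ℤ) N, q y ≤ C') :
    |∑ y ∈ Finset.Ico (0 : ℤ) N, B y * f y - ∑ y ∈ Finset.Ico (0 : ℤ) N, B y * g y| ≤
      Λ * (C' + C') := by
  rw [← Finset.sum_sub_distrib]
  calc |∑ y ∈ Finset.Ico (0 : ℤ) N, (B y * f y - B y * g y)|
      ≤ ∑ y ∈ Finset.Ico (0 : ℤ) N, |B y * f y - B y * g y| := Finset.abs_sum_le_sum_abs _ _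
    _ ≤ ∑ y ∈ Finset.Ico (0 : ℤ) N, Λ * (p y + q y) := by
        refine Finset.sum_le_sum fun y hy => ?_
        rw [Finset.mem_Ico] at hy
        obtain ⟨b1, b2⟩ := hB y hy.1 hy.2
        rw [← mul_sub, abs_mul, abs_of_pos b1]
        exact mul_le_mul b2 (hfg y hy.1 hy.2) (abs_nonneg _) hΛ
    _ = Λ * (∑ y ∈ Finset.Ico (0 : ℤ) N, p y + ∑ y ∈ Finset.Ico (0 : ℤ) N, q y) := by
        rw [← Finset.mul_sum, Finset.sum_add_distrib]
    _ ≤ Λ * (C' + C') := mul_le_mul_of_nonneg_left (add_le_add hp hq) hΛ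

theorem holder_AB {L C : ℝ} (hL : 1 ≤ L) (hC : 0 < C) {N : ℕ} (hN : 1 ≤ N) {W : ℤ × ℤ → ℝ} (hW : Adm N W)
    {A B : ℤ → ℝ} (he : ∀ e ∈ board N, W e = A e.1 * B e.2 * hh N W e.1 e.2)
    (hA : ∀ x : ℤ, 0 ≤ x → x < N → 0 < A x ∧ A x ≤ L / Real.sqrt N)
    (hB : ∀ x : ℤ, 0 ≤ x → x < N → 0 < B x ∧ B x ≤ L / Real.sqrt N)
    (hsh : ∀ t : ℕ,
    (∑ s ∈ Finset.Icc (-(N : ℤ)) (2 * N), |dsum N W 2 (s + t) - dsum N W 2 s| ≤ C * Real.sqrt (N * t)) ∧
    (∑ s ∈ Finset.Icc (-(N : ℤ)) (2 * N), |dsum N W 3 (s + t) - dsum N W 3 s| ≤ C * Real.sqrt (N * t))) :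
    (∀ x y : ℤ, 0 ≤ x → x < N → 0 ≤ y → y < N →
      |A x - A y| ≤ 2 * C * L ^ 3 / Real.sqrt N * Real.sqrt ((|x - y| : ℤ) / N)) ∧
    (∀ x y : ℤ, 0 ≤ x → x < N → 0 ≤ y → y < N →
      |B x - B y| ≤ 2 * C * L ^ 3 / Real.sqrt N * Real.sqrt ((|x - y| : ℤ) / N)) := by
  have hN0 : (0 : ℝ) < N := by exact_mod_cast hN
  have hs : 0 < Real.sqrt N := Real.sqrt_pos.2 hN0
  have hLs : 0 ≤ L / Real.sqrt N := (div_pos (by linarith) hs).le
  have hS0 : ∀ s, 0 ≤ hS N W s := fun s => sub_nonneg.2 (hW.sd s)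
  have hS1 : ∀ s, hS N W s ≤ 1 := fun s => sub_le_self 1 (dsum_nn hW 2 s)
  have hD0 : ∀ s, 0 ≤ hD N W s := fun s => sub_nonneg.2 (hW.dd s)
  have hD1 : ∀ s, hD N W s ≤ 1 := fun s => sub_le_self 1 (dsum_nn hW 3 s)
  have hSd : ∀ s t : ℤ, hS N W s - hS N W t = -(dsum N W 2 s - dsum N W 2 t) := by
    intro s t
    unfold hS
    ring
  have hDd : ∀ s t : ℤ, hD N W s - hD N W t = -(dsum N W 3 s - dsum N W 3 t) := by
    intro s t
    unfold hD
    ring
  constructor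
  · refine core hL hC hN hA (S := fun x => ∑ y ∈ Finset.Ico (0 : ℤ) N, B y * hh N W x y) ?_ ?_
    · intro x hx0 hx
      have h1 := hW.row x hx0 hx
      rw [row_sum hx0 hx] at h1
      rw [← h1, Finset.mul_sum]
      refine Finset.sum_congr rfl fun y hy => ?_
      rw [he (x, y) (Finset.mem_product.2 ⟨Finset.mem_Ico.2 ⟨hx0, hx⟩, hy⟩), mul_assoc]
    · intro x t hx0 hx
      refine sum_bd hLs hB (p := fun y => |dsum N W 2 (x + y + t) - dsum N W 2 (x + y)|)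
        (q := fun y => |dsum N W 3 (x - y + t) - dsum N W 3 (x - y)|) ?_ ?_ ?_
      · intro y _ _
        unfold hh
        have h1 := hdiff (a := hS N W (x + y + t)) (b := hD N W (x - y + t)) (b' := hD N W (x - y))
          (hS0 (x + y)) (hS1 (x + y)) (hD0 (x - y + t)) (hD1 (x - y + t))
        rw [hSd, hDd, abs_neg, abs_neg] at h1
        rw [show x + (t : ℤ) + y = x + y + t by ring, show x + (t : ℤ) - y = x - y + t by ring]
        exact h1
      · refine le_trans (sum_part (f := fun s => |dsum N W 2 (s + t) - dsum N W 2 s|)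
          (fun s => abs_nonneg _) (fun y => x + y) (fun a b h => by simpa using h) ?_) (hsh t).1
        intro y hy0 hy
        constructor <;> omega
      · refine le_trans (sum_part (f := fun s => |dsum N W 3 (s + t) - dsum N W 3 s|)
          (fun s => abs_nonneg _) (fun y => x - y) (fun a b h => by simpa using h) ?_) (hsh t).2
        intro y hy0 hy
        constructor <;> omega
  · refine core hL hC hN hB (S := fun y => ∑ x ∈ Finset.Ico (0 : ℤ) N, A x * hh N W x y) ?_ ?_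
    · intro y hy0 hy
      have h1 := hW.col y hy0 hy
      rw [col_sum hy0 hy] at h1
      rw [← h1, Finset.mul_sum]
      refine Finset.sum_congr rfl fun x hx => ?_
      rw [he (x, y) (Finset.mem_product.2 ⟨hx, Finset.mem_Ico.2 ⟨hy0, hy⟩⟩)]
      ring
    · intro y t hy0 hy
      refine sum_bd hLs hA (p := fun x => |dsum N W 2 (x + y + t) - dsum N W 2 (x + y)|)
        (q := fun x => |dsum N W 3 (x - (y + t) + t) - dsum N W 3 (x - (y + t))|) ?_ ?_ ?_
      · intro x _ _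
        unfold hh
        have h1 := hdiff (a := hS N W (x + y + t)) (b := hD N W (x - (y + t)))
          (b' := hD N W (x - (y + t) + t))
          (hS0 (x + y)) (hS1 (x + y)) (hD0 (x - (y + t))) (hD1 (x - (y + t)))
        rw [hSd, hDd, abs_neg, abs_neg, abs_sub_comm (dsum N W 3 (x - (y + t)))] at h1
        rw [show x + (y + (t : ℤ)) = x + y + t by ring]
        rw [show hD N W (x - y) = hD N W (x - (y + t) + t) by
          rw [show x - (y + (t : ℤ)) + t = x - y by ring]]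
        exact h1
      · refine le_trans (sum_part (f := fun s => |dsum N W 2 (s + t) - dsum N W 2 s|)
          (fun s => abs_nonneg _) (fun x => x + y) (fun a b h => by simpa using h) ?_) (hsh t).1
        intro x hx0 hx
        constructor <;> omega
      · refine le_trans (sum_part (f := fun s => |dsum N W 3 (s + t) - dsum N W 3 s|)
          (fun s => abs_nonneg _) (fun x => x - (y + t)) (fun a b h => by simpa using h) ?_)
          (hsh t).2
        intro x hx0 hx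
        constructor <;> omega

end Pool.Agent.NQR
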