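import Pool.Agent.NQR.Defs

/-!
# NQR-PHolP: Hoelder continuity of the diagonal sums

`p_s = (1 - p_s) P s` with `P s = ∑ A(x) B(x-s) (1 - q_{2x-s})`, and `q_s = (1 - q_s) Q s` with
`Q s = ∑ A(x) B(s-x) (1 - p_{2x-s})`; both `P` and `Q` are sums of the form treated in `gen_holder`.
-/

set_option autoImplicit false

open Finset

namespace Pool.Agent.NQR

open Pool.Agent.NQ (board dsum F Ent Dg phi ln Q Qset st cellD bern)

private theorem card_ind (N t : ℕ) (m : ℤ) :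
    ∑ x ∈ Finset.Ico (0 : ℤ) N, (if m ≤ x ∧ x < m + t then (1 : ℝ) else 0) ≤ t := by
  rw [← Finset.sum_filter, Finset.sum_const, nsmul_eq_mul, mul_one]
  have h1 : (Finset.Ico (0 : ℤ) N).filter (fun x => m ≤ x ∧ x < m + t) ⊆ Finset.Ico m (m + t) := by
    intro x hx
    rw [Finset.mem_filter] at hx
    exact Finset.mem_Ico.2 hx.2
  have h2 := Finset.card_le_card h1
  rw [Int.card_Ico] at h2
  have h3 : (m + (t : ℤ) - m).toNat = t := by omega
  rw [h3] at h2
  exact_mod_cast h2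

/-- the part of the difference which comes from `b` -/
private theorem part_b {N : ℕ} {b : ℤ → ℝ} {M H : ℝ} {c : ℤ} (hM : 0 ≤ M) (hH : 0 ≤ H)
    (hb0 : ∀ y, ¬ (c ≤ y ∧ y < c + N) → b y = 0) (hb : ∀ y, |b y| ≤ M) (s : ℤ) (t : ℕ)
    (hbH : ∀ y, c ≤ y → y < c + N → c ≤ y - t → y - t < c + N → |b (y - t) - b y| ≤ H) :
    ∑ x ∈ Finset.Ico (0 : ℤ) N, |b (x - s - t) - b (x - s)| ≤ N * H + 2 * t * M := by
  have h1 : ∀ x : ℤ, |b (x - s - t) - b (x - s)| ≤ H + M * (if c + s ≤ x ∧ x < c + s + t then (1 : ℝ) else 0) +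
      M * (if c + N + s ≤ x ∧ x < c + N + s + t then (1 : ℝ) else 0) := by
    intro x
    have e1 : 0 ≤ M * (if c + s ≤ x ∧ x < c + s + t then (1 : ℝ) else 0) := by
      split_ifs <;> simp [hM]
    have e2 : 0 ≤ M * (if c + N + s ≤ x ∧ x < c + N + s + t then (1 : ℝ) else 0) := by
      split_ifs <;> simp [hM]
    by_cases h2 : c ≤ x - s ∧ x - s < c + N
    · by_cases h3 : c ≤ x - s - t ∧ x - s - t < c + N
      · have := hbH (x - s) h2.1 h2.2 h3.1 h3.2
        linarith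
      · rw [hb0 _ h3, zero_sub, abs_neg]
        have h4 : c + s ≤ x ∧ x < c + s + t := by
          constructor
          · omega
          · by_contra h5
            exact h3 ⟨by omega, by omega⟩
        rw [if_pos h4] at e1 ⊢
        have := hb (x - s)
        linarith
    · rw [hb0 _ h2, sub_zero]
      by_cases h3 : c ≤ x - s - t ∧ x - s - t < c + N
      · have h4 : c + N + s ≤ x ∧ x < c + N + s + t := by
          constructor
          · by_contra h5
            exact h2 ⟨by omega, by omega⟩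
          · omega
        rw [if_pos h4] at e2 ⊢
        have := hb (x - s - t)
        linarith
      · rw [hb0 _ h3, abs_zero]
        linarith
  calc ∑ x ∈ Finset.Ico (0 : ℤ) N, |b (x - s - t) - b (x - s)|
      ≤ ∑ x ∈ Finset.Ico (0 : ℤ) N, (H + M * (if c + s ≤ x ∧ x < c + s + t then (1 : ℝ) else 0) +
      M * (if c + N + s ≤ x ∧ x < c + N + s + t then (1 : ℝ) else 0)) := Finset.sum_le_sum fun x _ => h1 x
    _ = N * H + M * ∑ x ∈ Finset.Ico (0 : ℤ) N, (if c + s ≤ x ∧ x < c + s + t then (1 : ℝ) else 0) +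
        M * ∑ x ∈ Finset.Ico (0 : ℤ) N, (if c + N + s ≤ x ∧ x < c + N + s + t then (1 : ℝ) else 0) := by
      rw [Finset.sum_add_distrib, Finset.sum_add_distrib, ← Finset.mul_sum, ← Finset.mul_sum,
        Finset.sum_const, Int.card_Ico, nsmul_eq_mul]
      simp
    _ ≤ N * H + M * t + M * t := by
      have h2 := card_ind N t (c + s)
      have h3 := card_ind N t (c + N + s)
      gcongr
    _ = N * H + 2 * t * M := by ring

/-- the part of the difference which comes from `r` -/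
private theorem part_r {N : ℕ} {b r : ℤ → ℝ} {M R : ℝ} {c : ℤ} (hM : 0 ≤ M)
    (hc : -(N : ℤ) ≤ c ∧ c ≤ 0)
    (hb0 : ∀ y, ¬ (c ≤ y ∧ y < c + N) → b y = 0) (hb : ∀ y, |b y| ≤ M)
    (hr : ∀ s s', |r s - r s'| ≤ 1) (s : ℤ) (t : ℕ)
    (hsum : ∑ σ ∈ Finset.Icc (-(N : ℤ)) (2 * N), |r (σ + t) - r σ| ≤ R) :
    ∑ x ∈ Finset.Ico (0 : ℤ) N, |b (x - s)| * |r (2 * x - s - t) - r (2 * x - s)| ≤ M * (R + t) := by
  set S : Finset ℤ := (Finset.Ico (0 : ℤ) N).filter fun x => c ≤ x - s ∧ x - s < c + N with hS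
  have h1 : ∑ x ∈ Finset.Ico (0 : ℤ) N, |b (x - s)| * |r (2 * x - s - t) - r (2 * x - s)| ≤
      M * ∑ x ∈ S, |r (2 * x - s - t) - r (2 * x - s)| := by
    rw [Finset.mul_sum, hS, Finset.sum_filter]
    refine Finset.sum_le_sum fun x _ => ?_
    by_cases h : c ≤ x - s ∧ x - s < c + N
    · rw [if_pos h]
      exact mul_le_mul_of_nonneg_right (hb _) (abs_nonneg _)
    · rw [if_neg h, hb0 _ h, abs_zero, zero_mul]
  refine h1.trans (mul_le_mul_of_nonneg_left ?_ hM)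
  rw [← Finset.sum_filter_add_sum_filter_not S (fun x => -(N : ℤ) ≤ 2 * x - s - t)]
  refine add_le_add ?_ ?_
  · refine le_trans ?_ hsum
    have h2 : ∑ x ∈ S.filter (fun x => -(N : ℤ) ≤ 2 * x - s - t), |r (2 * x - s - t) - r (2 * x - s)| =
        ∑ σ ∈ (S.filter (fun x => -(N : ℤ) ≤ 2 * x - s - t)).image (fun x => 2 * x - s - t),
          |r (σ + t) - r σ| := by
      rw [Finset.sum_image]
      · refine Finset.sum_congr rfl fun x _ => ?_
        rw [sub_add_cancel, abs_sub_comm]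
      · intro x _ y _ hxy
        have : 2 * x - s - t = 2 * y - s - t := hxy
        omega
    rw [h2]
    refine Finset.sum_le_sum_of_subset_of_nonneg ?_ fun _ _ _ => abs_nonneg _
    intro σ hσ
    rw [Finset.mem_image] at hσ
    obtain ⟨x, hx, rfl⟩ := hσ
    rw [Finset.mem_filter, hS, Finset.mem_filter, Finset.mem_Ico] at hx
    rw [Finset.mem_Icc]
    omega
  · have h2 : ∑ x ∈ S.filter (fun x => ¬ -(N : ℤ) ≤ 2 * x - s - t), |r (2 * x - s - t) - r (2 * x - s)| ≤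
        ∑ _x ∈ S.filter (fun x => ¬ -(N : ℤ) ≤ 2 * x - s - t), (1 : ℝ) :=
      Finset.sum_le_sum fun x _ => hr _ _
    refine h2.trans ?_
    rw [Finset.sum_const, nsmul_eq_mul, mul_one]
    have h3 : (S.filter (fun x => ¬ -(N : ℤ) ≤ 2 * x - s - t)).card ≤
        (Finset.Ico (-(N : ℤ)) (-(N : ℤ) + t)).card := by
      refine Finset.card_le_card_of_injOn (fun x => 2 * x - s) ?_ ?_
      · intro x hx
        rw [Finset.mem_coe, Finset.mem_filter, hS, Finset.mem_filter, Finset.mem_Ico] at hx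
        rw [Finset.mem_coe, Finset.mem_Ico]
        show -(N : ℤ) ≤ 2 * x - s ∧ 2 * x - s < -(N : ℤ) + t
        omega
      · intro x _ y _ hxy
        have : 2 * x - s = 2 * y - s := hxy
        omega
    rw [Int.card_Ico] at h3
    have h4 : (-(N : ℤ) + (t : ℤ) - -(N : ℤ)).toNat = t := by omega
    rw [h4] at h3
    exact_mod_cast h3

private theorem sqrt_facts {N : ℕ} (hN : 1 ≤ N) {t : ℕ} (ht : t ≤ N) {u : ℝ} (hu : u = Real.sqrt ((t : ℝ) / N)) :
    0 ≤ u ∧ u ≤ 1 ∧ (t : ℝ) = N * u ^ 2 ∧ Real.sqrt (N * t) = N * u := by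
  have hN0 : (0 : ℝ) < N := by exact_mod_cast hN
  have ht' : (t : ℝ) ≤ N := by exact_mod_cast ht
  have h0 : (0 : ℝ) ≤ (t : ℝ) / N := by positivity
  have h1 : u ^ 2 = (t : ℝ) / N := by rw [hu, Real.sq_sqrt h0]
  have hu0 : 0 ≤ u := by rw [hu]; exact Real.sqrt_nonneg _
  have h2 : (t : ℝ) = N * u ^ 2 := by
    rw [h1]
    field_simp
  refine ⟨hu0, ?_, h2, ?_⟩
  · have h3 : u ^ 2 ≤ 1 := by
      rw [h1, div_le_one hN0]
      exact ht'
    nlinarith
  · rw [h2]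
    have : (N : ℝ) * (N * u ^ 2) = (N * u) ^ 2 := by ring
    rw [this, Real.sqrt_sq (by positivity)]

/-- Hoelder continuity of `s ↦ ∑ a(x) b(x-s) r(2x-s)` -/
private theorem gen_holder {N : ℕ} (hN : 1 ≤ N) {a b r : ℤ → ℝ} {L K C : ℝ} {c : ℤ} (hL : 0 ≤ L) (hK : 0 ≤ K)
    (hC : 0 ≤ C) (hc : -(N : ℤ) ≤ c ∧ c ≤ 0)
    (ha : ∀ x : ℤ, 0 ≤ x → x < N → |a x| ≤ L / Real.sqrt N)
    (hb0 : ∀ y, ¬ (c ≤ y ∧ y < c + N) → b y = 0) (hb : ∀ y, |b y| ≤ L / Real.sqrt N)
    (hbH : ∀ y y' : ℤ, c ≤ y → y < c + N → c ≤ y' → y' < c + N →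
      |b y - b y'| ≤ K / Real.sqrt N * Real.sqrt ((|y - y'| : ℤ) / N))
    (hr1 : ∀ s, |r s| ≤ 1) (hr : ∀ s s', |r s - r s'| ≤ 1)
    (hsum : ∀ t : ℕ, ∑ σ ∈ Finset.Icc (-(N : ℤ)) (2 * N), |r (σ + t) - r σ| ≤ C * Real.sqrt (N * t))
    (s : ℤ) (t : ℕ) (ht : t ≤ N) :
    |∑ x ∈ Finset.Ico (0 : ℤ) N, a x * b (x - (s + t)) * r (2 * x - (s + t)) -
      ∑ x ∈ Finset.Ico (0 : ℤ) N, a x * b (x - s) * r (2 * x - s)| ≤
      (L * K + 2 * L ^ 2 + L ^ 2 * (C + 1)) * Real.sqrt ((t : ℝ) / N) := by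
  obtain ⟨u, hu⟩ : ∃ u, u = Real.sqrt ((t : ℝ) / N) := ⟨_, rfl⟩
  obtain ⟨hu0, hu1, ht1, ht2⟩ := sqrt_facts hN ht hu
  rw [← hu]
  have hN0 : (0 : ℝ) < N := by exact_mod_cast hN
  have hsN : 0 < Real.sqrt N := Real.sqrt_pos.2 hN0
  obtain ⟨M, hM⟩ : ∃ M, M = L / Real.sqrt N := ⟨_, rfl⟩
  have hM0 : 0 ≤ M := by rw [hM]; positivity
  have hMM : M * M = L ^ 2 / N := by
    rw [hM, div_mul_div_comm, Real.mul_self_sqrt hN0.le, pow_two]
  have hMK : M * (K / Real.sqrt N) = L * K / N := by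
    rw [hM, div_mul_div_comm, Real.mul_self_sqrt hN0.le]
  rw [← hM] at ha hb
  have hH0 : 0 ≤ K / Real.sqrt N * u := by positivity
  have h1 := part_b hM0 hH0 hb0 hb s t (fun y h1 h2 h3 h4 => by
    have h5 := hbH (y - t) y h3 h4 h1 h2
    have h6 : |y - (t : ℤ) - y| = (t : ℤ) := by
      have : y - (t : ℤ) - y = -(t : ℤ) := by ring
      rw [this, abs_neg, abs_of_nonneg (by positivity)]
    rw [h6, Int.cast_natCast, ← hu] at h5
    exact h5)
  have h2 := part_r hM0 hc hb0 hb hr s t (hsum t)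
  rw [← Finset.sum_sub_distrib]
  have h3 : ∀ x ∈ Finset.Ico (0 : ℤ) N, |a x * b (x - (s + t)) * r (2 * x - (s + t)) - a x * b (x - s) * r (2 * x - s)| ≤
      M * |b (x - s - t) - b (x - s)| + M * (|b (x - s)| * |r (2 * x - s - t) - r (2 * x - s)|) := by
    intro x hx
    rw [Finset.mem_Ico] at hx
    have e1 : x - (s + t) = x - s - t := by ring
    have e2 : 2 * x - (s + t) = 2 * x - s - t := by ring
    rw [e1, e2]
    have e3 : a x * b (x - s - t) * r (2 * x - s - t) - a x * b (x - s) * r (2 * x - s) =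
        a x * (b (x - s - t) - b (x - s)) * r (2 * x - s - t) +
          a x * (b (x - s) * (r (2 * x - s - t) - r (2 * x - s))) := by ring
    rw [e3]
    refine (abs_add_le _ _).trans (add_le_add ?_ ?_)
    · rw [abs_mul, abs_mul]
      calc |a x| * |b (x - s - t) - b (x - s)| * |r (2 * x - s - t)|
          ≤ |a x| * |b (x - s - t) - b (x - s)| * 1 :=
            mul_le_mul_of_nonneg_left (hr1 _) (by positivity)
        _ = |a x| * |b (x - s - t) - b (x - s)| := mul_one _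
        _ ≤ M * |b (x - s - t) - b (x - s)| := mul_le_mul_of_nonneg_right (ha x hx.1 hx.2) (abs_nonneg _)
    · rw [abs_mul, abs_mul]
      exact mul_le_mul_of_nonneg_right (ha x hx.1 hx.2) (by positivity)
  have h4 := (Finset.abs_sum_le_sum_abs (fun x => a x * b (x - (s + t)) * r (2 * x - (s + t)) -
    a x * b (x - s) * r (2 * x - s)) (Finset.Ico (0 : ℤ) N)).trans (Finset.sum_le_sum h3)
  refine h4.trans ?_
  rw [Finset.sum_add_distrib, ← Finset.mul_sum, ← Finset.mul_sum]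
  have h5 : M * (N * (K / Real.sqrt N * u) + 2 * t * M) + M * (M * (C * Real.sqrt (N * t) + t)) ≤
      (L * K + 2 * L ^ 2 + L ^ 2 * (C + 1)) * u := by
    rw [ht2, ht1]
    have e1 : M * (N * (K / Real.sqrt N * u) + 2 * (N * u ^ 2) * M) + M * (M * (C * (N * u) + N * u ^ 2)) =
        (M * (K / Real.sqrt N)) * N * u + (M * M) * N * (2 * u ^ 2 + C * u + u ^ 2) := by ring
    rw [e1, hMK, hMM]
    have e2 : L * K / N * N * u + L ^ 2 / N * N * (2 * u ^ 2 + C * u + u ^ 2) =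
        L * K * u + L ^ 2 * (2 * u ^ 2 + C * u + u ^ 2) := by
      field_simp
    rw [e2]
    have e3 : u ^ 2 ≤ u := by nlinarith
    have e4 : L ^ 2 * (2 * u ^ 2 + C * u + u ^ 2) ≤ L ^ 2 * (2 * u + C * u + u) := by
      gcongr
    calc L * K * u + L ^ 2 * (2 * u ^ 2 + C * u + u ^ 2) ≤ L * K * u + L ^ 2 * (2 * u + C * u + u) := by
          linarith
      _ = (L * K + 2 * L ^ 2 + L ^ 2 * (C + 1)) * u := by ring
  refine le_trans (add_le_add (mul_le_mul_of_nonneg_left h1 hM0) (mul_le_mul_of_nonneg_left h2 hM0)) h5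

private theorem dsum_nn {N : ℕ} {W : ℤ × ℤ → ℝ} (hW : Adm N W) (k : Fin 4) (s : ℤ) : 0 ≤ dsum N W k s :=
  Finset.sum_nonneg fun e _ => hW.nn e

/-- from the ratios `p / (1 - p)` to `p` -/
private theorem ratio_lip {p q P Q : ℝ} (hp : p = (1 - p) * P) (hq : q = (1 - q) * Q) (hp0 : 0 ≤ p) (hp1 : p ≤ 1)
    (hq0 : 0 ≤ q) (hq1 : q ≤ 1) : |p - q| ≤ |P - Q| := by
  have e : p - q = (P - Q) * ((1 - p) * (1 - q)) := by
    calc p - q = p * (1 - q) - q * (1 - p) := by ring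
      _ = ((1 - p) * P) * (1 - q) - ((1 - q) * Q) * (1 - p) := by rw [← hp, ← hq]
      _ = (P - Q) * ((1 - p) * (1 - q)) := by ring
  rw [e, abs_mul]
  have h1 : |(1 - p) * (1 - q)| ≤ 1 := by
    rw [abs_of_nonneg (mul_nonneg (by linarith) (by linarith))]
    nlinarith
  exact mul_le_of_le_one_right (abs_nonneg _) h1

private theorem finish {N : ℕ} (hN : 1 ≤ N) {p P : ℤ → ℝ} {M : ℝ} (hM : 0 ≤ M) (hp : ∀ s, p s = (1 - p s) * P s)
    (hp0 : ∀ s, 0 ≤ p s) (hp1 : ∀ s, p s ≤ 1)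
    (h : ∀ (s : ℤ) (t : ℕ), t ≤ N → |P (s + t) - P s| ≤ M * Real.sqrt ((t : ℝ) / N)) (s t : ℤ) :
    |p s - p t| ≤ (M + 1) * Real.sqrt ((|s - t| : ℤ) / N) := by
  have hN0 : (0 : ℝ) < N := by exact_mod_cast hN
  have key : ∀ (s : ℤ) (τ : ℕ), |p (s + τ) - p s| ≤ (M + 1) * Real.sqrt ((τ : ℝ) / N) := by
    intro s τ
    by_cases hτ : τ ≤ N
    · refine (ratio_lip (hp _) (hp _) (hp0 _) (hp1 _) (hp0 _) (hp1 _)).trans ((h s τ hτ).trans ?_)
      have := Real.sqrt_nonneg ((τ : ℝ) / N)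
      nlinarith
    · have h1 : |p (s + τ) - p s| ≤ 1 := by
        rw [abs_le]
        constructor
        · linarith [hp0 (s + τ), hp1 s]
        · linarith [hp1 (s + τ), hp0 s]
      have h2 : 1 ≤ Real.sqrt ((τ : ℝ) / N) := by
        rw [Real.one_le_sqrt, one_le_div hN0]
        exact_mod_cast (not_le.1 hτ).le
      nlinarith
  rcases le_total s t with hst | hst
  · have h1 := key s (t - s).toNat
    have h2 : ((t - s).toNat : ℤ) = t - s := Int.toNat_of_nonneg (by omega)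
    have h3 : (((t - s).toNat : ℕ) : ℝ) = ((|s - t| : ℤ) : ℝ) := by
      have h4 : |s - t| = ((t - s).toNat : ℤ) := by
        rw [abs_sub_comm, abs_of_nonneg (by omega : (0 : ℤ) ≤ t - s), h2]
      rw [h4, Int.cast_natCast]
    rw [h3, h2, add_sub_cancel, abs_sub_comm] at h1
    exact h1
  · have h1 := key t (s - t).toNat
    have h2 : ((s - t).toNat : ℤ) = s - t := Int.toNat_of_nonneg (by omega)
    have h3 : (((s - t).toNat : ℕ) : ℝ) = ((|s - t| : ℤ) : ℝ) := by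
      have h4 : |s - t| = ((s - t).toNat : ℤ) := by
        rw [abs_of_nonneg (by omega : (0 : ℤ) ≤ s - t), h2]
      rw [h4, Int.cast_natCast]
    rw [h3, h2, add_sub_cancel] at h1
    exact h1

theorem holder_pq (L K C : ℝ) (hL : 1 ≤ L) (hK : 0 < K) (hC : 0 < C) : ∃ L' : ℝ, 0 < L' ∧
    ∀ (N : ℕ), 1 ≤ N → ∀ (W : ℤ × ℤ → ℝ), Adm N W →
    ∀ (A B : ℤ → ℝ), (∀ e ∈ board N, W e = A e.1 * B e.2 * hh N W e.1 e.2) →
    (∀ s, 0 < hS N W s) → (∀ s, 0 < hD N W s) →
    (∀ x : ℤ, 0 ≤ x → x < N → 0 < A x ∧ A x ≤ L / Real.sqrt N) →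
    (∀ x : ℤ, 0 ≤ x → x < N → 0 < B x ∧ B x ≤ L / Real.sqrt N) →
    (∀ x y : ℤ, 0 ≤ x → x < N → 0 ≤ y → y < N →
      |A x - A y| ≤ K / Real.sqrt N * Real.sqrt ((|x - y| : ℤ) / N)) →
    (∀ x y : ℤ, 0 ≤ x → x < N → 0 ≤ y → y < N →
      |B x - B y| ≤ K / Real.sqrt N * Real.sqrt ((|x - y| : ℤ) / N)) →
    (∀ t : ℕ,
    (∑ s ∈ Finset.Icc (-(N : ℤ)) (2 * N), |dsum N W 2 (s + t) - dsum N W 2 s| ≤ C * Real.sqrt (N * t)) ∧
    (∑ s ∈ Finset.Icc (-(N : ℤ)) (2 * N), |dsum N W 3 (s + t) - dsum N W 3 s| ≤ C * Real.sqrt (N * t))) →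
    (∀ s t : ℤ, |dsum N W 3 s - dsum N W 3 t| ≤ L' * Real.sqrt ((|s - t| : ℤ) / N)) ∧
    (∀ s t : ℤ, |dsum N W 2 s - dsum N W 2 t| ≤ L' * Real.sqrt ((|s - t| : ℤ) / N)) := by
  have hM0 : 0 ≤ L * K + 2 * L ^ 2 + L ^ 2 * (C + 1) := by positivity
  refine ⟨L * K + 2 * L ^ 2 + L ^ 2 * (C + 1) + 1, by linarith, ?_⟩
  intro N hN W hW A B hWe _ _ hA hB _ hBH hsh
  have hN0 : (0 : ℝ) < N := by exact_mod_cast hN
  have hsN : 0 < Real.sqrt N := Real.sqrt_pos.2 hN0
  have hLs : 0 ≤ L / Real.sqrt N := by positivity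
  have hA' : ∀ x : ℤ, 0 ≤ x → x < N → |A x| ≤ L / Real.sqrt N := fun x h1 h2 => by
    rw [abs_of_pos (hA x h1 h2).1]
    exact (hA x h1 h2).2
  have hS1 : ∀ s, |hS N W s| ≤ 1 := fun s => by
    rw [hS, abs_le]
    constructor <;> linarith [dsum_nn hW 2 s, hW.sd s]
  have hS2 : ∀ s s', |hS N W s - hS N W s'| ≤ 1 := fun s s' => by
    rw [hS, hS, abs_le]
    constructor <;> linarith [dsum_nn hW 2 s, hW.sd s, dsum_nn hW 2 s', hW.sd s']
  have hD1 : ∀ s, |hD N W s| ≤ 1 := fun s => by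
    rw [hD, abs_le]
    constructor <;> linarith [dsum_nn hW 3 s, hW.dd s]
  have hD2 : ∀ s s', |hD N W s - hD N W s'| ≤ 1 := fun s s' => by
    rw [hD, hD, abs_le]
    constructor <;> linarith [dsum_nn hW 3 s, hW.dd s, dsum_nn hW 3 s', hW.dd s']
  constructor
  · -- difference diagonals
    have hlem := gen_holder hN (a := A) (b := fun y => if 0 ≤ y ∧ y < (N : ℤ) then B y else 0) (r := hS N W)
      (L := L) (K := K) (C := C) (c := 0) (by linarith) hK.le hC.le ⟨by omega, le_rfl⟩ hA'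
      (fun y hy => if_neg (by rwa [zero_add] at hy)) (fun y => by
        show |if 0 ≤ y ∧ y < (N : ℤ) then B y else 0| ≤ _
        split_ifs with h
        · rw [abs_of_pos (hB y h.1 h.2).1]
          exact (hB y h.1 h.2).2
        · rw [abs_zero]
          exact hLs)
      (fun y y' h1 h2 h3 h4 => by
        rw [zero_add] at h2 h4
        show |(if 0 ≤ y ∧ y < (N : ℤ) then B y else 0) - (if 0 ≤ y' ∧ y' < (N : ℤ) then B y' else 0)| ≤ _
        rw [if_pos ⟨h1, h2⟩, if_pos ⟨h3, h4⟩]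
        exact hBH y y' h1 h2 h3 h4)
      hS1 hS2 (fun t => by
        refine le_trans (le_of_eq ?_) (hsh t).1
        refine Finset.sum_congr rfl fun σ _ => ?_
        rw [hS, hS, sub_sub_sub_cancel_left, abs_sub_comm])
    refine finish hN hM0 (P := fun s => ∑ x ∈ Finset.Ico (0 : ℤ) N,
      A x * (if 0 ≤ x - s ∧ x - s < (N : ℤ) then B (x - s) else 0) * hS N W (2 * x - s)) ?_
      (dsum_nn hW 3) hW.dd hlem
    intro s
    show dsum N W 3 s = (1 - dsum N W 3 s) * ∑ x ∈ Finset.Ico (0 : ℤ) N,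
      A x * (if 0 ≤ x - s ∧ x - s < (N : ℤ) then B (x - s) else 0) * hS N W (2 * x - s)
    have e1 : dsum N W 3 s = ∑ x ∈ Finset.Ico (0 : ℤ) N, ∑ y ∈ Finset.Ico (0 : ℤ) N,
        if y = x - s then W (x, y) else 0 := by
      rw [dsum, Finset.sum_filter, board, Finset.sum_product]
      refine Finset.sum_congr rfl fun x _ => Finset.sum_congr rfl fun y _ => ?_
      rw [NQ.ln_three]
      have : (x - y = s) ↔ (y = x - s) := by omega
      simp only [this]
    conv_lhs => rw [e1]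
    rw [Finset.mul_sum]
    refine Finset.sum_congr rfl fun x hx => ?_
    rw [Finset.mem_Ico] at hx
    rw [Finset.sum_ite_eq']
    simp only [Finset.mem_Ico]
    by_cases h : 0 ≤ x - s ∧ x - s < (N : ℤ)
    · rw [if_pos h, if_pos h, hWe (x, x - s) (NQ.mem_board.2 ⟨hx, h⟩)]
      show A x * B (x - s) * (hS N W (x + (x - s)) * hD N W (x - (x - s))) = _
      have e2 : x + (x - s) = 2 * x - s := by ring
      have e3 : x - (x - s) = s := by ring
      rw [e2, e3, hD]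
      ring
    · rw [if_neg h, if_neg h]
      ring
  · -- sum diagonals
    have hlem := gen_holder hN (a := A) (b := fun y => if 0 ≤ -y ∧ -y < (N : ℤ) then B (-y) else 0) (r := hD N W)
      (L := L) (K := K) (C := C) (c := 1 - N) (by linarith) hK.le hC.le ⟨by omega, by omega⟩ hA'
      (fun y hy => if_neg (fun h => hy ⟨by omega, by omega⟩)) (fun y => by
        show |if 0 ≤ -y ∧ -y < (N : ℤ) then B (-y) else 0| ≤ _
        split_ifs with h
        · rw [abs_of_pos (hB _ h.1 h.2).1]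
          exact (hB _ h.1 h.2).2
        · rw [abs_zero]
          exact hLs)
      (fun y y' h1 h2 h3 h4 => by
        show |(if 0 ≤ -y ∧ -y < (N : ℤ) then B (-y) else 0) - (if 0 ≤ -y' ∧ -y' < (N : ℤ) then B (-y') else 0)| ≤ _
        rw [if_pos ⟨by omega, by omega⟩, if_pos ⟨by omega, by omega⟩]
        have h5 := hBH (-y) (-y') (by omega) (by omega) (by omega) (by omega)
        have h6 : |-y - -y'| = |y - y'| := by
          have : -y - -y' = -(y - y') := by ring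
          rw [this, abs_neg]
        rw [h6] at h5
        exact h5)
      hD1 hD2 (fun t => by
        refine le_trans (le_of_eq ?_) (hsh t).2
        refine Finset.sum_congr rfl fun σ _ => ?_
        rw [hD, hD, sub_sub_sub_cancel_left, abs_sub_comm])
    refine finish hN hM0 (P := fun s => ∑ x ∈ Finset.Ico (0 : ℤ) N,
      A x * (if 0 ≤ -(x - s) ∧ -(x - s) < (N : ℤ) then B (-(x - s)) else 0) * hD N W (2 * x - s)) ?_
      (dsum_nn hW 2) hW.sd hlem
    intro s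
    show dsum N W 2 s = (1 - dsum N W 2 s) * ∑ x ∈ Finset.Ico (0 : ℤ) N,
      A x * (if 0 ≤ -(x - s) ∧ -(x - s) < (N : ℤ) then B (-(x - s)) else 0) * hD N W (2 * x - s)
    have e1 : dsum N W 2 s = ∑ x ∈ Finset.Ico (0 : ℤ) N, ∑ y ∈ Finset.Ico (0 : ℤ) N,
        if y = -(x - s) then W (x, y) else 0 := by
      rw [dsum, Finset.sum_filter, board, Finset.sum_product]
      refine Finset.sum_congr rfl fun x _ => Finset.sum_congr rfl fun y _ => ?_
      rw [NQ.ln_two]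
      have : (x + y = s) ↔ (y = -(x - s)) := by omega
      simp only [this]
    conv_lhs => rw [e1]
    rw [Finset.mul_sum]
    refine Finset.sum_congr rfl fun x hx => ?_
    rw [Finset.mem_Ico] at hx
    rw [Finset.sum_ite_eq']
    simp only [Finset.mem_Ico]
    by_cases h : 0 ≤ -(x - s) ∧ -(x - s) < (N : ℤ)
    · rw [if_pos h, if_pos h, hWe (x, -(x - s)) (NQ.mem_board.2 ⟨hx, h⟩)]
      show A x * B (-(x - s)) * (hS N W (x + -(x - s)) * hD N W (x - -(x - s))) = _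
      have e2 : x + -(x - s) = s := by ring
      have e3 : x - -(x - s) = 2 * x - s := by ring
      rw [e2, e3, hS]
      ring
    · rw [if_neg h, if_neg h]
      ring

end Pool.Agent.NQR
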