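import Pool.Agent.NQR.Defs
import Pool.Agent.NQR.PFoc

/-!
# NQR-PNorm: normalisation of `A`, `B` and the value of the functional

PLAN. `norm`: multiply `A` by `t`, `B` by `1/t` with `t = √(B 0 / A 0)`; then `A' 0 = B' 0`,
`A' 0 ² = A 0 * B 0 ∈ [1/(LN), L/N]`; `A' x = (A' x B' 0)/B' 0 ≤ (L/N) √(L N) `, etc.: constant `L² `.
`value`: `- W log W = - W log A - W log B - W log hS - W log hD`, summed with `sum_dsum0..3` and row and column
sums `1`: `Ent = - ∑ log A - ∑ log B - ∑ q log hS - ∑ p log hD`; `Dg = ∑ (q + (1-q) log hS) + ∑ (p + (1-p) log hD)` and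
`∑ q = ∑ p = N`. So `F - N = - ∑ log A - ∑ log B - ∑ log hS - ∑ log hD - 3N`.
-/

set_option autoImplicit false

open Finset

namespace Pool.Agent.NQR

open Pool.Agent.NQ (board dsum F Ent Dg phi ln Q Qset st cellD bern)

private theorem up_aux {u c s L : ℝ} (hu : 0 < u) (hc : 0 < c) (hs : 0 < s) (hL : 1 ≤ L)
    (h1 : u * c ≤ L / s ^ 2) (h2 : 1 / (L * s ^ 2) ≤ c ^ 2) : u ≤ L ^ 2 / s := by
  have hL0 : 0 < L := by linarith
  by_contra hcon
  rw [not_le] at hcon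
  have h3 : (L ^ 2 / s) ^ 2 < u ^ 2 := pow_lt_pow_left₀ hcon (by positivity) two_ne_zero
  have h4 : (L ^ 2 / s) ^ 2 * (1 / (L * s ^ 2)) < u ^ 2 * c ^ 2 := by
    calc (L ^ 2 / s) ^ 2 * (1 / (L * s ^ 2)) < u ^ 2 * (1 / (L * s ^ 2)) :=
          mul_lt_mul_of_pos_right h3 (by positivity)
      _ ≤ u ^ 2 * c ^ 2 := mul_le_mul_of_nonneg_left h2 (by positivity)
  have h5 : (u * c) ^ 2 ≤ (L / s ^ 2) ^ 2 := pow_le_pow_left₀ (by positivity) h1 2
  have h6 : (L ^ 2 / s) ^ 2 * (1 / (L * s ^ 2)) = L * (L / s ^ 2) ^ 2 := by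
    field_simp
  have h7 : (L / s ^ 2) ^ 2 ≤ L * (L / s ^ 2) ^ 2 := by
    nlinarith [sq_nonneg (L / s ^ 2)]
  rw [h6] at h4
  have h8 : (u * c) ^ 2 = u ^ 2 * c ^ 2 := by ring
  linarith

private theorem lo_aux {u c s L : ℝ} (hu : 0 < u) (hc : 0 < c) (hs : 0 < s) (hL : 1 ≤ L)
    (h1 : 1 / (L * s ^ 2) ≤ u * c) (h2 : c ^ 2 ≤ L / s ^ 2) : 1 / (L ^ 2 * s) ≤ u := by
  have hL0 : 0 < L := by linarith
  by_contra hcon
  rw [not_le] at hcon
  have h3 : u ^ 2 < (1 / (L ^ 2 * s)) ^ 2 := pow_lt_pow_left₀ hcon hu.le two_ne_zero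
  have h4 : u ^ 2 * c ^ 2 < (1 / (L ^ 2 * s)) ^ 2 * (L / s ^ 2) := by
    calc u ^ 2 * c ^ 2 < (1 / (L ^ 2 * s)) ^ 2 * c ^ 2 :=
          mul_lt_mul_of_pos_right h3 (by positivity)
      _ ≤ (1 / (L ^ 2 * s)) ^ 2 * (L / s ^ 2) := mul_le_mul_of_nonneg_left h2 (by positivity)
  have h5 : (1 / (L * s ^ 2)) ^ 2 ≤ (u * c) ^ 2 := pow_le_pow_left₀ (by positivity) h1 2
  have h6 : (1 / (L ^ 2 * s)) ^ 2 * (L / s ^ 2) = (1 / L) * (1 / (L * s ^ 2)) ^ 2 := by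
    field_simp
  have h7 : (1 / L) * (1 / (L * s ^ 2)) ^ 2 ≤ (1 / (L * s ^ 2)) ^ 2 := by
    have h9 : 1 / L ≤ 1 := by
      rw [div_le_one hL0]
      exact hL
    exact mul_le_of_le_one_left (sq_nonneg _) h9
  rw [h6] at h4
  have h8 : (u * c) ^ 2 = u ^ 2 * c ^ 2 := by ring
  linarith

theorem norm_AB {L : ℝ} (hL : 1 ≤ L) {N : ℕ} (hN : 1 ≤ N) {A B : ℤ → ℝ} (hA : ∀ x, 0 < A x)
    (hB : ∀ x, 0 < B x)
    (h : ∀ e ∈ board N, 1 / (L * N) ≤ A e.1 * B e.2 ∧ A e.1 * B e.2 ≤ L / N) :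
    ∃ A' B' : ℤ → ℝ, (∀ x, 0 < A' x) ∧ (∀ x, 0 < B' x) ∧ (∀ x y, A' x * B' y = A x * B y) ∧
      (∀ x : ℤ, 0 ≤ x → x < N → 1 / (L ^ 2 * Real.sqrt N) ≤ A' x ∧ A' x ≤ L ^ 2 / Real.sqrt N) ∧
      (∀ x : ℤ, 0 ≤ x → x < N → 1 / (L ^ 2 * Real.sqrt N) ≤ B' x ∧ B' x ≤ L ^ 2 / Real.sqrt N) := by
  have hA0 := hA 0
  have hB0 := hB 0
  have hN0 : (0 : ℝ) < N := by exact_mod_cast hN
  have hs : 0 < Real.sqrt N := Real.sqrt_pos.2 hN0
  have hs2 : Real.sqrt N ^ 2 = N := Real.sq_sqrt hN0.le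
  have ht : 0 < Real.sqrt (B 0 / A 0) := Real.sqrt_pos.2 (div_pos hB0 hA0)
  have ht2 : Real.sqrt (B 0 / A 0) ^ 2 = B 0 / A 0 := Real.sq_sqrt (div_pos hB0 hA0).le
  set t := Real.sqrt (B 0 / A 0) with htdef
  have hmem : ∀ x y : ℤ, 0 ≤ x → x < N → 0 ≤ y → y < N → (x, y) ∈ board N := by
    intro x y h1 h2 h3 h4
    unfold board
    exact Finset.mem_product.2 ⟨Finset.mem_Ico.2 ⟨h1, h2⟩, Finset.mem_Ico.2 ⟨h3, h4⟩⟩
  have hNz : (0 : ℤ) < N := by exact_mod_cast hN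
  have hc2 : (t * A 0) ^ 2 = A 0 * B 0 := by
    rw [mul_pow, ht2]
    field_simp
  have hcB : B 0 / t = t * A 0 := by
    rw [div_eq_iff ht.ne']
    have : t * A 0 * t = t ^ 2 * A 0 := by ring
    rw [this, ht2]
    field_simp
  have hc : 0 < t * A 0 := mul_pos ht hA0
  have h00 := h (0, 0) (hmem 0 0 le_rfl hNz le_rfl hNz)
  have hlo : 1 / (L * Real.sqrt N ^ 2) ≤ (t * A 0) ^ 2 := by
    rw [hs2, hc2]
    exact h00.1
  have hhi : (t * A 0) ^ 2 ≤ L / Real.sqrt N ^ 2 := by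
    rw [hs2, hc2]
    exact h00.2
  refine ⟨fun x => t * A x, fun x => B x / t, fun x => mul_pos ht (hA x),
    fun x => div_pos (hB x) ht, fun x y => ?_, fun x hx0 hxN => ?_, fun x hx0 hxN => ?_⟩
  · show t * A x * (B y / t) = A x * B y
    field_simp
  · have h1 := h (x, 0) (hmem x 0 hx0 hxN le_rfl hNz)
    have h2 : t * A x * (t * A 0) = A x * B 0 := by
      rw [← hcB]
      field_simp
    refine ⟨lo_aux (mul_pos ht (hA x)) hc hs hL ?_ hhi, up_aux (mul_pos ht (hA x)) hc hs hL ?_ hlo⟩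
    · rw [h2, hs2]
      exact h1.1
    · rw [h2, hs2]
      exact h1.2
  · have h1 := h (0, x) (hmem 0 x le_rfl hNz hx0 hxN)
    have h2 : B x / t * (t * A 0) = A 0 * B x := by
      field_simp
    refine ⟨lo_aux (div_pos (hB x) ht) hc hs hL ?_ hhi, up_aux (div_pos (hB x) ht) hc hs hL ?_ hlo⟩
    · rw [h2, hs2]
      exact h1.1
    · rw [h2, hs2]
      exact h1.2

theorem value {N : ℕ} {W : ℤ × ℤ → ℝ} (h : Adm N W) {A B : ℤ → ℝ} (hA : ∀ x, 0 < A x)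
    (hB : ∀ x, 0 < B x) (h2 : ∀ s, dsum N W 2 s < 1) (h3 : ∀ s, dsum N W 3 s < 1)
    (he : ∀ e ∈ board N, W e = A e.1 * B e.2 * hh N W e.1 e.2) :
    F N W - N = - (∑ x ∈ Finset.Ico (0 : ℤ) N, Real.log (A x)) -
    (∑ x ∈ Finset.Ico (0 : ℤ) N, Real.log (B x)) -
    (∑ s ∈ Finset.Ico (0 : ℤ) (2 * N), Real.log (hS N W s)) -
    (∑ s ∈ Finset.Ioo (-(N : ℤ)) N, Real.log (hD N W s)) - 3 * N := by
  have hSp : ∀ s, 0 < hS N W s := fun s => by
    unfold hS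
    linarith [h2 s]
  have hDp : ∀ s, 0 < hD N W s := fun s => by
    unfold hD
    linarith [h3 s]
  have hEnt : Ent N W = - (∑ x ∈ Finset.Ico (0 : ℤ) N, Real.log (A x)) -
      (∑ x ∈ Finset.Ico (0 : ℤ) N, Real.log (B x)) -
      (∑ s ∈ Finset.Ico (0 : ℤ) (2 * N), dsum N W 2 s * Real.log (hS N W s)) -
      (∑ s ∈ Finset.Ioo (-(N : ℤ)) N, dsum N W 3 s * Real.log (hD N W s)) := by
    have e1 : Ent N W = - (∑ e ∈ board N, W e * Real.log (A e.1)) -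
        (∑ e ∈ board N, W e * Real.log (B e.2)) -
        (∑ e ∈ board N, W e * Real.log (hS N W (e.1 + e.2))) -
        (∑ e ∈ board N, W e * Real.log (hD N W (e.1 - e.2))) := by
      unfold Ent
      rw [← Finset.sum_neg_distrib, ← Finset.sum_sub_distrib, ← Finset.sum_sub_distrib,
        ← Finset.sum_sub_distrib]
      refine Finset.sum_congr rfl fun e hemem => ?_
      have e2 : Real.log (W e) = Real.log (A e.1) + Real.log (B e.2) +
          (Real.log (hS N W (e.1 + e.2)) + Real.log (hD N W (e.1 - e.2))) := by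
        rw [he e hemem]
        unfold hh
        rw [Real.log_mul (mul_pos (hA _) (hB _)).ne' (mul_pos (hSp _) (hDp _)).ne',
          Real.log_mul (hA _).ne' (hB _).ne', Real.log_mul (hSp _).ne' (hDp _).ne']
      unfold Real.negMulLog
      rw [e2]
      ring
    rw [e1, sum_dsum0 N W (fun x => Real.log (A x)), sum_dsum1 N W (fun x => Real.log (B x)),
      sum_dsum2 N W (fun s => Real.log (hS N W s)), sum_dsum3 N W (fun s => Real.log (hD N W s))]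
    have e3 : ∑ x ∈ Finset.Ico (0 : ℤ) N, dsum N W 0 x * Real.log (A x) =
        ∑ x ∈ Finset.Ico (0 : ℤ) N, Real.log (A x) := by
      refine Finset.sum_congr rfl fun x hx => ?_
      rw [Finset.mem_Ico] at hx
      rw [h.row x hx.1 hx.2, one_mul]
    have e4 : ∑ x ∈ Finset.Ico (0 : ℤ) N, dsum N W 1 x * Real.log (B x) =
        ∑ x ∈ Finset.Ico (0 : ℤ) N, Real.log (B x) := by
      refine Finset.sum_congr rfl fun x hx => ?_
      rw [Finset.mem_Ico] at hx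
      rw [h.col x hx.1 hx.2, one_mul]
    rw [e3, e4]
  have hq : ∑ s ∈ Finset.Ico (0 : ℤ) (2 * N), dsum N W 2 s = N := by
    have e1 := sum_dsum2 N W (fun _ => 1)
    simp only [mul_one] at e1
    rw [← e1]
    exact adm_mass h
  have hp : ∑ s ∈ Finset.Ioo (-(N : ℤ)) N, dsum N W 3 s = N := by
    have e1 := sum_dsum3 N W (fun _ => 1)
    simp only [mul_one] at e1
    rw [← e1]
    exact adm_mass h
  have hDg : Dg N W = (∑ s ∈ Finset.Ico (0 : ℤ) (2 * N), Real.log (hS N W s)) -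
      (∑ s ∈ Finset.Ico (0 : ℤ) (2 * N), dsum N W 2 s * Real.log (hS N W s)) +
      (∑ s ∈ Finset.Ioo (-(N : ℤ)) N, Real.log (hD N W s)) -
      (∑ s ∈ Finset.Ioo (-(N : ℤ)) N, dsum N W 3 s * Real.log (hD N W s)) + 2 * N := by
    have e1 : ∑ s ∈ Finset.Ico (0 : ℤ) (2 * N), phi (dsum N W 2 s) =
        (∑ s ∈ Finset.Ico (0 : ℤ) (2 * N), dsum N W 2 s) +
        (∑ s ∈ Finset.Ico (0 : ℤ) (2 * N), Real.log (hS N W s)) -
        (∑ s ∈ Finset.Ico (0 : ℤ) (2 * N), dsum N W 2 s * Real.log (hS N W s)) := by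
      rw [← Finset.sum_add_distrib, ← Finset.sum_sub_distrib]
      refine Finset.sum_congr rfl fun s _ => ?_
      unfold phi hS
      ring
    have e2 : ∑ s ∈ Finset.Ioo (-(N : ℤ)) N, phi (dsum N W 3 s) =
        (∑ s ∈ Finset.Ioo (-(N : ℤ)) N, dsum N W 3 s) +
        (∑ s ∈ Finset.Ioo (-(N : ℤ)) N, Real.log (hD N W s)) -
        (∑ s ∈ Finset.Ioo (-(N : ℤ)) N, dsum N W 3 s * Real.log (hD N W s)) := by
      rw [← Finset.sum_add_distrib, ← Finset.sum_sub_distrib]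
      refine Finset.sum_congr rfl fun s _ => ?_
      unfold phi hD
      ring
    unfold Dg
    rw [e1, e2, hq, hp]
    ring
  unfold F
  rw [hEnt, hDg]
  ring

end Pool.Agent.NQR
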