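import Pool.Agent.NQR.Defs
import Pool.Agent.NQR.PKl
import Pool.Agent.NQR.PPos

/-!
# NQR-PShf: cyclic shifts of the maximiser

The rows of the maximiser `W` are shifted cyclically by `t`; the loss in the functional is `O(t)`, so the
stability bound `l1_le` gives a distance `O(√(N t))`, and the diagonal sums of the shifted weights are the
shifted diagonal sums of `W` up to `L t / N`.
-/

set_option autoImplicit false

open Finset

namespace Pool.Agent.NQR

open Pool.Agent.NQ (board dsum F Ent Dg phi ln Q Qset st cellD bern)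

/-- the shifted weights -/
private noncomputable def Vs (N : ℕ) (W : ℤ × ℤ → ℝ) (t : ℕ) (e : ℤ × ℤ) : ℝ :=
  open Classical in if e ∈ board N then W ((e.1 + t) % N, e.2) else 0

private lemma Vs_mem {N : ℕ} {W : ℤ × ℤ → ℝ} {t : ℕ} {e : ℤ × ℤ} (he : e ∈ board N) :
    Vs N W t e = W ((e.1 + t) % N, e.2) := by
  unfold Vs
  rw [if_pos he]

private lemma sh_mem {N : ℕ} (a : ℤ) {e : ℤ × ℤ} (he : e ∈ board N) :
    ((e.1 + a) % N, e.2) ∈ board N := by
  rw [Pool.Agent.NQ.mem_board] at he ⊢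
  obtain ⟨⟨h1, h2⟩, h3⟩ := he
  have hN : (0 : ℤ) < N := by omega
  exact ⟨⟨Int.emod_nonneg _ hN.ne', Int.emod_lt_of_pos _ hN⟩, h3⟩

private lemma sh_inv {N : ℕ} (a : ℤ) {e : ℤ × ℤ} (he : e ∈ board N) :
    (((e.1 + a) % N + -a) % N, e.2) = e := by
  rw [Pool.Agent.NQ.mem_board] at he
  obtain ⟨⟨h1, h2⟩, h3⟩ := he
  have : ((e.1 + a) % N + -a) % N = e.1 := by
    rw [Int.emod_add_emod]
    rw [show e.1 + a + -a = e.1 by ring]
    exact Int.emod_eq_of_lt h1 h2
  rw [this]

/-- the cyclic shift is a bijection of the board -/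
private lemma sum_sh (N : ℕ) (t : ℕ) (P : ℤ × ℤ → Prop) [DecidablePred P] (g : ℤ × ℤ → ℝ) :
    ∑ e ∈ (board N).filter (fun e => P ((e.1 + t) % N, e.2)), g ((e.1 + t) % N, e.2) =
      ∑ e ∈ (board N).filter P, g e := by
  refine Finset.sum_nbij' (fun e => ((e.1 + t) % N, e.2)) (fun e => ((e.1 + -(t : ℤ)) % N, e.2)) ?_ ?_ ?_ ?_ ?_
  · intro e he
    rw [mem_filter] at he ⊢
    exact ⟨sh_mem _ he.1, he.2⟩
  · intro e he
    rw [mem_filter] at he ⊢
    refine ⟨sh_mem _ he.1, ?_⟩
    have h := sh_inv (-(t : ℤ)) he.1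
    rw [neg_neg] at h
    simp only
    rw [h]
    exact he.2
  · intro e he
    rw [mem_filter] at he
    exact sh_inv (t : ℤ) he.1
  · intro e he
    rw [mem_filter] at he
    have h := sh_inv (-(t : ℤ)) he.1
    rw [neg_neg] at h
    exact h
  · intro e _
    rfl

private lemma card_rows {k : Fin 4} (hinj : ∀ e f : ℤ × ℤ, ln k e = ln k f → e.1 = f.1 → e = f)
    {A : Finset (ℤ × ℤ)} {s a b : ℤ} (hA : ∀ e ∈ A, ln k e = s ∧ a ≤ e.1 ∧ e.1 < b) {t : ℕ}
    (hab : b - a = t) : (A.card : ℝ) ≤ t := by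
  have h1 : A.card ≤ (Finset.Ico a b).card := by
    refine Finset.card_le_card_of_injOn Prod.fst ?_ ?_
    · intro e he
      have := hA e (Finset.mem_coe.1 he)
      exact Finset.mem_coe.2 (mem_Ico.2 ⟨this.2.1, this.2.2⟩)
    · intro e he f hf hef
      exact hinj e f ((hA e (Finset.mem_coe.1 he)).1.trans (hA f (Finset.mem_coe.1 hf)).1.symm) hef
  rw [Int.card_Ico, hab, Int.toNat_natCast] at h1
  exact_mod_cast h1

private lemma dsV_le {N : ℕ} {W : ℤ × ℤ → ℝ} {L : ℝ} (hL : 0 ≤ L) (hN : 0 < N) (hW : Adm N W)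
    (hhi : ∀ e ∈ board N, W e ≤ L / N) {k : Fin 4}
    (hk : ∀ (e : ℤ × ℤ) (a : ℤ), ln k (e.1 + a, e.2) = ln k e + a)
    (hinj : ∀ e f : ℤ × ℤ, ln k e = ln k f → e.1 = f.1 → e = f) {t : ℕ} (s : ℤ) :
    dsum N (Vs N W t) k s ≤ dsum N W k (s + t) + L * t / N := by
  classical
  have hN' : (0 : ℝ) < N := by exact_mod_cast hN
  unfold dsum
  rw [← Finset.sum_filter_add_sum_filter_not ((board N).filter (fun e => ln k e = s))
    (fun e => e.1 + (t : ℤ) < N)]
  refine add_le_add ?_ ?_
  · have h1 : ∑ e ∈ ((board N).filter (fun e => ln k e = s)).filter (fun e => e.1 + (t : ℤ) < N), Vs N W t e =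
        ∑ e ∈ ((board N).filter (fun e => ln k e = s)).filter (fun e => e.1 + (t : ℤ) < N), W (e.1 + t, e.2) := by
      refine Finset.sum_congr rfl fun e he => ?_
      rw [mem_filter, mem_filter] at he
      rw [Vs_mem he.1.1]
      have hb := he.1.1
      rw [Pool.Agent.NQ.mem_board] at hb
      rw [Int.emod_eq_of_lt (by have := hb.1.1; omega) he.2]
    rw [h1, ← Finset.sum_image (f := fun e => W e) (g := fun e : ℤ × ℤ => (e.1 + (t : ℤ), e.2))]
    · refine Finset.sum_le_sum_of_subset_of_nonneg ?_ fun e _ _ => hW.nn e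
      intro e he
      rw [mem_image] at he
      obtain ⟨f, hf, rfl⟩ := he
      rw [mem_filter, mem_filter] at hf
      have hb := hf.1.1
      rw [Pool.Agent.NQ.mem_board] at hb
      rw [mem_filter, Pool.Agent.NQ.mem_board, hk, hf.1.2]
      refine ⟨⟨⟨?_, hf.2⟩, hb.2⟩, rfl⟩
      have := hb.1.1
      simp only
      omega
    · intro e _ f _ hef
      simp only [Prod.mk.injEq] at hef
      exact Prod.ext (by omega) hef.2
  · have h1 : ∀ e ∈ ((board N).filter (fun e => ln k e = s)).filter (fun e => ¬ e.1 + (t : ℤ) < N),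
        Vs N W t e ≤ L / N := by
      intro e he
      rw [mem_filter, mem_filter] at he
      rw [Vs_mem he.1.1]
      exact hhi _ (sh_mem _ he.1.1)
    refine (Finset.sum_le_card_nsmul _ _ _ h1).trans ?_
    rw [nsmul_eq_mul]
    have h2 := card_rows hinj (A := ((board N).filter (fun e => ln k e = s)).filter
      (fun e => ¬ e.1 + (t : ℤ) < N)) (s := s) (a := (N : ℤ) - t) (b := N) (t := t) ?_ (by ring)
    · calc _ ≤ (t : ℝ) * (L / N) := mul_le_mul_of_nonneg_right h2 (div_nonneg hL hN'.le)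
        _ = L * t / N := by ring
    · intro e he
      rw [mem_filter, mem_filter, Pool.Agent.NQ.mem_board] at he
      exact ⟨he.1.2, by have := he.2; omega, he.1.1.1.2⟩

private lemma dsW_le {N : ℕ} {W : ℤ × ℤ → ℝ} {L : ℝ} (hL : 0 ≤ L) (hN : 0 < N) (hW : Adm N W)
    (hhi : ∀ e ∈ board N, W e ≤ L / N) {k : Fin 4}
    (hk : ∀ (e : ℤ × ℤ) (a : ℤ), ln k (e.1 + a, e.2) = ln k e + a)
    (hinj : ∀ e f : ℤ × ℤ, ln k e = ln k f → e.1 = f.1 → e = f) {t : ℕ} (s : ℤ) :
    dsum N W k (s + t) ≤ dsum N (Vs N W t) k s + L * t / N := by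
  classical
  have hN' : (0 : ℝ) < N := by exact_mod_cast hN
  unfold dsum
  rw [← Finset.sum_filter_add_sum_filter_not ((board N).filter (fun e => ln k e = s + t))
    (fun e => (t : ℤ) ≤ e.1)]
  have hVnn : ∀ e, 0 ≤ Vs N W t e := by
    intro e
    unfold Vs
    split_ifs
    · exact hW.nn _
    · exact le_refl _
  refine add_le_add ?_ ?_
  · have h1 : ∑ e ∈ ((board N).filter (fun e => ln k e = s + t)).filter (fun e => (t : ℤ) ≤ e.1), W e =
        ∑ e ∈ ((board N).filter (fun e => ln k e = s + t)).filter (fun e => (t : ℤ) ≤ e.1),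
          Vs N W t (e.1 + -(t : ℤ), e.2) := by
      refine Finset.sum_congr rfl fun e he => ?_
      rw [mem_filter, mem_filter] at he
      have hb := he.1.1
      rw [Pool.Agent.NQ.mem_board] at hb
      have hb2 : (e.1 + -(t : ℤ), e.2) ∈ board N := by
        rw [Pool.Agent.NQ.mem_board]
        have := he.2
        exact ⟨⟨by simp only; omega, by simp only; omega⟩, hb.2⟩
      rw [Vs_mem hb2]
      simp only
      rw [show e.1 + -(t : ℤ) + t = e.1 by ring, Int.emod_eq_of_lt hb.1.1 hb.1.2]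
    rw [h1, ← Finset.sum_image (f := fun e => Vs N W t e) (g := fun e : ℤ × ℤ => (e.1 + -(t : ℤ), e.2))]
    · refine Finset.sum_le_sum_of_subset_of_nonneg ?_ fun e _ _ => hVnn e
      intro e he
      rw [mem_image] at he
      obtain ⟨f, hf, rfl⟩ := he
      rw [mem_filter, mem_filter] at hf
      have hb := hf.1.1
      rw [Pool.Agent.NQ.mem_board] at hb
      rw [mem_filter, Pool.Agent.NQ.mem_board, hk, hf.1.2]
      have := hf.2
      refine ⟨⟨⟨?_, ?_⟩, hb.2⟩, by ring⟩
      · simp only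
        omega
      · simp only
        omega
    · intro e _ f _ hef
      simp only [Prod.mk.injEq] at hef
      exact Prod.ext (by omega) hef.2
  · have h1 : ∀ e ∈ ((board N).filter (fun e => ln k e = s + t)).filter (fun e => ¬ (t : ℤ) ≤ e.1),
        W e ≤ L / N := by
      intro e he
      rw [mem_filter, mem_filter] at he
      exact hhi _ he.1.1
    refine (Finset.sum_le_card_nsmul _ _ _ h1).trans ?_
    rw [nsmul_eq_mul]
    have h2 := card_rows hinj (A := ((board N).filter (fun e => ln k e = s + t)).filter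
      (fun e => ¬ (t : ℤ) ≤ e.1)) (s := s + t) (a := 0) (b := t) (t := t) ?_ (by ring)
    · calc _ ≤ (t : ℝ) * (L / N) := mul_le_mul_of_nonneg_right h2 (div_nonneg hL hN'.le)
        _ = L * t / N := by ring
    · intro e he
      rw [mem_filter, mem_filter, Pool.Agent.NQ.mem_board] at he
      exact ⟨he.1.2, he.1.1.1.1, by have := he.2; omega⟩

/-- summation over diagonals is bounded by the sum over the board -/
private lemma fib_le (N : ℕ) (k : Fin 4) (g : ℤ × ℤ → ℝ) (hg : ∀ e, 0 ≤ g e) (T : Finset ℤ) :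
    ∑ s ∈ T, dsum N g k s ≤ ∑ e ∈ board N, g e := by
  classical
  unfold dsum
  have h1 : ∀ s ∈ T, ∑ e ∈ (board N).filter (fun e => ln k e = s), g e =
      ∑ e ∈ board N, if ln k e = s then g e else 0 := fun s _ => Finset.sum_filter _ _
  rw [Finset.sum_congr rfl h1, Finset.sum_comm]
  refine Finset.sum_le_sum fun e _ => ?_
  rw [Finset.sum_ite_eq]
  split_ifs
  · exact le_refl _
  · exact hg e

private lemma l1_ge (N : ℕ) (k : Fin 4) (V W : ℤ × ℤ → ℝ) (T : Finset ℤ) :
    ∑ s ∈ T, |dsum N V k s - dsum N W k s| ≤ l1 N V W := by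
  refine le_trans (Finset.sum_le_sum (g := fun s => dsum N (fun e => |V e - W e|) k s) fun s _ => ?_)
    (fib_le N k (fun e => |V e - W e|) (fun e => abs_nonneg _) T)
  unfold dsum
  rw [← Finset.sum_sub_distrib]
  exact Finset.abs_sum_le_sum_abs _ _

private lemma dsum_nn {N : ℕ} {W : ℤ × ℤ → ℝ} (hW : ∀ e, 0 ≤ W e) (k : Fin 4) (s : ℤ) :
    0 ≤ dsum N W k s := Finset.sum_nonneg fun e _ => hW e

/-- the slope of `phi` -/
private lemma phi_le {u v : ℝ} (hu : u < 1) (hv : v < 1) :
    phi v ≤ phi u + (- Real.log (1 - v)) * (v - u) := by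
  unfold phi
  have h1 : 0 < 1 - u := by linarith
  have h2 : 0 < 1 - v := by linarith
  have h3 := Real.log_le_sub_one_of_pos (div_pos h2 h1)
  rw [Real.log_div h2.ne' h1.ne'] at h3
  have h4 : (1 - u) * (Real.log (1 - v) - Real.log (1 - u)) ≤ (1 - u) * ((1 - v) / (1 - u) - 1) :=
    mul_le_mul_of_nonneg_left h3 h1.le
  have h5 : (1 - u) * ((1 - v) / (1 - u) - 1) = (1 - v) - (1 - u) := by
    field_simp
  rw [h5] at h4
  nlinarith [h4]

private lemma phi_nn {u : ℝ} (hu : u < 1) : 0 ≤ phi u := by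
  have h := phi_le (u := u) (v := 0) hu (by norm_num)
  unfold phi at h ⊢
  simp only [sub_zero, Real.log_one, mul_zero, neg_zero, zero_mul, add_zero] at h
  exact h

private lemma phi_zero : phi 0 = 0 := by
  unfold phi
  simp

/-- monotone, slope at most `log (2 L)` -/
private lemma phi_step {L u v d : ℝ} (hL : 1 ≤ L) (hu : u ≤ 1 - 1 / L) (hd : 0 ≤ d)
    (hd1 : d ≤ 1 / (2 * L)) (hv : 0 ≤ v) (hvu : v ≤ u + d) :
    phi v ≤ phi u + d * Real.log (2 * L) := by
  have hL0 : 0 < L := by linarith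
  have hiL : 0 < 1 / L := by positivity
  have h2 : 1 / (2 * L) = 1 / L / 2 := by
    field_simp
  have hv1 : v ≤ 1 - 1 / (2 * L) := by
    rw [h2]; rw [h2] at hd1; linarith
  have hv2 : 0 < 1 - v := by
    have : 0 < 1 / (2 * L) := by positivity
    linarith
  have h := phi_le (u := u) (v := v) (by linarith) (by linarith)
  have hlog : 0 ≤ - Real.log (1 - v) := by
    have := Real.log_nonpos hv2.le (by linarith)
    linarith
  have hlog2 : - Real.log (1 - v) ≤ Real.log (2 * L) := by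
    rw [← Real.log_inv]
    refine Real.log_le_log (by positivity) ?_
    rw [inv_le_comm₀ hv2 (by positivity)]
    rw [inv_eq_one_div]
    linarith
  have h3 : (- Real.log (1 - v)) * (v - u) ≤ (- Real.log (1 - v)) * d :=
    mul_le_mul_of_nonneg_left (by linarith) hlog
  have h4 : (- Real.log (1 - v)) * d ≤ Real.log (2 * L) * d := mul_le_mul_of_nonneg_right hlog2 hd
  linarith

/-- sum of a shifted function vanishing outside -/
private lemma sum_shift_le (f : ℤ → ℝ) (hf : ∀ s, 0 ≤ f s) (I : Finset ℤ) (hI : ∀ s, s ∉ I → f s = 0)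
    (t : ℤ) : ∑ s ∈ I, f (s + t) ≤ ∑ s ∈ I, f s := by
  classical
  have h1 : ∑ s ∈ I, f (s + t) = ∑ s ∈ I.image (fun s => s + t), f s := by
    rw [Finset.sum_image]
    intro a _ b _ hab
    simpa using hab
  rw [h1, ← Finset.sum_filter_add_sum_filter_not (I.image (fun s => s + t)) (fun s => s ∈ I)]
  have h2 : ∑ s ∈ (I.image (fun s => s + t)).filter (fun s => ¬ s ∈ I), f s = 0 := by
    refine Finset.sum_eq_zero fun s hs => ?_
    rw [mem_filter] at hs
    exact hI s hs.2
  rw [h2, add_zero]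
  refine Finset.sum_le_sum_of_subset_of_nonneg ?_ fun s _ _ => hf s
  intro s hs
  rw [mem_filter] at hs
  exact hs.2

private lemma dsum2_out {N : ℕ} (W : ℤ × ℤ → ℝ) {s : ℤ} (hs : s ∉ Finset.Ico (0 : ℤ) (2 * N)) :
    dsum N W 2 s = 0 := by
  unfold dsum
  refine Finset.sum_eq_zero fun e he => ?_
  exfalso
  rw [mem_filter, Pool.Agent.NQ.mem_board, Pool.Agent.NQ.ln_two] at he
  apply hs
  rw [mem_Ico]
  omega

private lemma dsum3_out {N : ℕ} (W : ℤ × ℤ → ℝ) {s : ℤ} (hs : s ∉ Finset.Ioo (-(N : ℤ)) N) :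
    dsum N W 3 s = 0 := by
  unfold dsum
  refine Finset.sum_eq_zero fun e he => ?_
  exfalso
  rw [mem_filter, Pool.Agent.NQ.mem_board, Pool.Agent.NQ.ln_three] at he
  apply hs
  rw [mem_Ioo]
  omega

private lemma hk2 : ∀ (e : ℤ × ℤ) (a : ℤ), ln 2 (e.1 + a, e.2) = ln 2 e + a := by
  intro e a
  rw [Pool.Agent.NQ.ln_two, Pool.Agent.NQ.ln_two]
  simp only
  ring

private lemma hk3 : ∀ (e : ℤ × ℤ) (a : ℤ), ln 3 (e.1 + a, e.2) = ln 3 e + a := by
  intro e a
  rw [Pool.Agent.NQ.ln_three, Pool.Agent.NQ.ln_three]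
  simp only
  ring

private lemma hi2 : ∀ e f : ℤ × ℤ, ln 2 e = ln 2 f → e.1 = f.1 → e = f := by
  intro e f h1 h2
  rw [Pool.Agent.NQ.ln_two, Pool.Agent.NQ.ln_two] at h1
  exact Prod.ext h2 (by omega)

private lemma hi3 : ∀ e f : ℤ × ℤ, ln 3 e = ln 3 f → e.1 = f.1 → e = f := by
  intro e f h1 h2
  rw [Pool.Agent.NQ.ln_three, Pool.Agent.NQ.ln_three] at h1
  exact Prod.ext h2 (by omega)

/-- the shifted weights are admissible -/
private lemma adm_Vs {N : ℕ} (hN : 0 < N) {W : ℤ × ℤ → ℝ} (hW : Adm N W) {t : ℕ}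
    (h2 : ∀ s, dsum N (Vs N W t) 2 s ≤ 1) (h3 : ∀ s, dsum N (Vs N W t) 3 s ≤ 1) : Adm N (Vs N W t) where
  nn := by
    intro e
    unfold Vs
    split_ifs
    · exact hW.nn _
    · exact le_refl _
  out := by
    intro e he
    unfold Vs
    rw [if_neg he]
  row := by
    intro x hx0 hx1
    have hNz : (0 : ℤ) < N := by exact_mod_cast hN
    have h1 : dsum N (Vs N W t) 0 x = dsum N W 0 ((x + t) % N) := by
      unfold dsum
      have h := sum_sh N t (fun e => ln 0 e = (x + t) % N) W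
      rw [← h]
      have h4 : (board N).filter (fun e => ln 0 e = x) =
          (board N).filter (fun e => ln 0 ((e.1 + t) % N, e.2) = (x + t) % N) := by
        refine Finset.filter_congr fun e he => ?_
        rw [Pool.Agent.NQ.mem_board] at he
        rw [Pool.Agent.NQ.ln_zero, Pool.Agent.NQ.ln_zero]
        simp only
        constructor
        · intro h5
          rw [h5]
        · intro h5
          have h6 : (e.1 + t + -(t : ℤ)) % N = (x + t + -(t : ℤ)) % N := by
            rw [Int.add_emod, h5, ← Int.add_emod]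
          rw [show e.1 + t + -(t : ℤ) = e.1 by ring, show x + t + -(t : ℤ) = x by ring,
            Int.emod_eq_of_lt he.1.1 he.1.2, Int.emod_eq_of_lt hx0 hx1] at h6
          exact h6
      rw [h4]
      refine Finset.sum_congr rfl fun e he => ?_
      rw [mem_filter] at he
      exact Vs_mem he.1
    rw [h1]
    exact hW.row _ (Int.emod_nonneg _ hNz.ne') (Int.emod_lt_of_pos _ hNz)
  col := by
    intro y hy0 hy1
    have h1 : dsum N (Vs N W t) 1 y = dsum N W 1 y := by
      unfold dsum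
      have h := sum_sh N t (fun e => ln 1 e = y) W
      rw [← h]
      refine Finset.sum_congr rfl fun e he => ?_
      rw [mem_filter] at he
      exact Vs_mem he.1
    rw [h1]
    exact hW.col _ hy0 hy1
  sd := h2
  dd := h3

private lemma ent_Vs {N : ℕ} (W : ℤ × ℤ → ℝ) (t : ℕ) : Ent N (Vs N W t) = Ent N W := by
  unfold Ent
  have h := sum_sh N t (fun _ => True) (fun e => Real.negMulLog (W e))
  rw [Finset.filter_true_of_mem (fun _ _ => trivial)] at h
  rw [← h]
  exact Finset.sum_congr rfl fun e he => by rw [Vs_mem he]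

private lemma dg_Vs {N : ℕ} (hN : 0 < N) {W : ℤ × ℤ → ℝ} {L : ℝ} (hL : 1 ≤ L) (hW : Adm N W)
    (hB : Bd L N W) {t : ℕ} (ht : L * t / N ≤ 1 / (2 * L)) :
    Dg N (Vs N W t) ≤ Dg N W + 4 * (L * Real.log (2 * L)) * t := by
  have hN' : (0 : ℝ) < N := by exact_mod_cast hN
  have hL0 : 0 < L := by linarith
  have hVnn : ∀ e, 0 ≤ Vs N W t e := by
    intro e
    unfold Vs
    split_ifs
    · exact hW.nn _
    · exact le_refl _
  have hlog : 0 ≤ Real.log (2 * L) := Real.log_nonneg (by linarith)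
  have hd : 0 ≤ L * t / N := by positivity
  have hq : ∀ s, dsum N W 2 s ≤ 1 - 1 / L := by
    intro s
    have := hB.sd s
    unfold hS at this
    linarith
  have hp : ∀ s, dsum N W 3 s ≤ 1 - 1 / L := by
    intro s
    have := hB.dd s
    unfold hD at this
    linarith
  have hiL : 0 < 1 / L := by positivity
  have s2 : ∑ s ∈ Finset.Ico (0 : ℤ) (2 * N), phi (dsum N (Vs N W t) 2 s) ≤
      ∑ s ∈ Finset.Ico (0 : ℤ) (2 * N), phi (dsum N W 2 s) + 2 * (L * Real.log (2 * L)) * t := by
    have h1 : ∀ s ∈ Finset.Ico (0 : ℤ) (2 * N), phi (dsum N (Vs N W t) 2 s) ≤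
        phi (dsum N W 2 (s + t)) + L * t / N * Real.log (2 * L) := fun s _ =>
      phi_step hL (hq _) hd ht (dsum_nn hVnn 2 s) (dsV_le hL0.le hN hW hB.hi hk2 hi2 s)
    refine (Finset.sum_le_sum h1).trans ?_
    rw [Finset.sum_add_distrib]
    refine add_le_add ?_ ?_
    · refine sum_shift_le (fun s => phi (dsum N W 2 s)) (fun s => phi_nn (by have := hq s; linarith)) _ ?_ _
      intro s hs
      rw [dsum2_out W hs, phi_zero]
    · rw [Finset.sum_const, Int.card_Ico, nsmul_eq_mul]
      have : ((((2 * (N : ℤ) - 0).toNat : ℕ)) : ℝ) = 2 * N := by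
        rw [sub_zero, show (2 * (N : ℤ)) = ((2 * N : ℕ) : ℤ) by push_cast; ring, Int.toNat_natCast]
        push_cast; ring
      rw [this]
      apply le_of_eq
      field_simp
  have s3 : ∑ s ∈ Finset.Ioo (-(N : ℤ)) N, phi (dsum N (Vs N W t) 3 s) ≤
      ∑ s ∈ Finset.Ioo (-(N : ℤ)) N, phi (dsum N W 3 s) + 2 * (L * Real.log (2 * L)) * t := by
    have h1 : ∀ s ∈ Finset.Ioo (-(N : ℤ)) N, phi (dsum N (Vs N W t) 3 s) ≤
        phi (dsum N W 3 (s + t)) + L * t / N * Real.log (2 * L) := fun s _ =>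
      phi_step hL (hp _) hd ht (dsum_nn hVnn 3 s) (dsV_le hL0.le hN hW hB.hi hk3 hi3 s)
    refine (Finset.sum_le_sum h1).trans ?_
    rw [Finset.sum_add_distrib]
    refine add_le_add ?_ ?_
    · refine sum_shift_le (fun s => phi (dsum N W 3 s)) (fun s => phi_nn (by have := hp s; linarith)) _ ?_ _
      intro s hs
      rw [dsum3_out W hs, phi_zero]
    · rw [Finset.sum_const, Int.card_Ioo, nsmul_eq_mul]
      have h5 : (((((N : ℤ) - -(N : ℤ) - 1).toNat : ℕ)) : ℝ) ≤ 2 * N := by
        have : ((N : ℤ) - -(N : ℤ) - 1).toNat ≤ 2 * N := by omega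
        exact_mod_cast this
      calc _ ≤ (2 * N : ℝ) * (L * t / N * Real.log (2 * L)) :=
            mul_le_mul_of_nonneg_right h5 (mul_nonneg hd hlog)
        _ = 2 * (L * Real.log (2 * L)) * t := by field_simp
  unfold Dg
  linarith

private lemma one_k {N : ℕ} (hN : 1000 ≤ N) {W : ℤ × ℤ → ℝ} {L : ℝ} (hL : 1 ≤ L) (hO : Opt N W)
    (hB : Bd L N W) (t : ℕ) {k : Fin 4}
    (hk : ∀ (e : ℤ × ℤ) (a : ℤ), ln k (e.1 + a, e.2) = ln k e + a)
    (hinj : ∀ e f : ℤ × ℤ, ln k e = ln k f → e.1 = f.1 → e = f) :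
    ∑ s ∈ Finset.Icc (-(N : ℤ)) (2 * N), |dsum N W k (s + t) - dsum N W k s| ≤
      (4 * L * Real.log (2 * L) + 8 * L) * Real.sqrt (N * t) := by
  have hN0 : 0 < N := by omega
  have hN' : (0 : ℝ) < N := by exact_mod_cast hN0
  have hL0 : 0 < L := by linarith
  have hlog : 0 ≤ Real.log (2 * L) := Real.log_nonneg (by linarith)
  have ht0 : (0 : ℝ) ≤ t := Nat.cast_nonneg t
  have hsq0 : 0 ≤ Real.sqrt (N * t) := Real.sqrt_nonneg _
  have hW := hO.1
  have hq : ∀ s, dsum N W 2 s ≤ 1 - 1 / L := by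
    intro s
    have := hB.sd s
    unfold hS at this
    linarith
  have hp : ∀ s, dsum N W 3 s ≤ 1 - 1 / L := by
    intro s
    have := hB.dd s
    unfold hD at this
    linarith
  have hiL : 0 < 1 / L := by positivity
  have hVnn : ∀ e, 0 ≤ Vs N W t e := by
    intro e
    unfold Vs
    split_ifs
    · exact hW.nn _
    · exact le_refl _
  by_cases hcase : L * t / N ≤ 1 / (2 * L)
  · -- small shifts
    have h2L : 1 / (2 * L) = 1 / L / 2 := by field_simp
    have hV2 : ∀ s, dsum N (Vs N W t) 2 s ≤ 1 := by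
      intro s
      have h1 := dsV_le hL0.le hN0 hW hB.hi hk2 hi2 (t := t) s
      have h2 := hq (s + t)
      rw [h2L] at hcase
      linarith
    have hV3 : ∀ s, dsum N (Vs N W t) 3 s ≤ 1 := by
      intro s
      have h1 := dsV_le hL0.le hN0 hW hB.hi hk3 hi3 (t := t) s
      have h2 := hp (s + t)
      rw [h2L] at hcase
      linarith
    have hadm := adm_Vs hN0 hW hV2 hV3
    have hpos : ∀ e ∈ board N, 0 < W e := fun e he =>
      lt_of_lt_of_le (by positivity) (hB.lo e he)
    have hl1 := l1_le hO hpos (fun s => by have := hq s; linarith) (fun s => by have := hp s; linarith) hadm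
    have hdg := dg_Vs hN0 hL hW hB hcase
    have hF : F N W - F N (Vs N W t) ≤ 4 * (L * Real.log (2 * L)) * t := by
      unfold F
      rw [ent_Vs]
      linarith
    have hl1nn : 0 ≤ l1 N (Vs N W t) W := Finset.sum_nonneg fun e _ => abs_nonneg _
    have hlogle : Real.log (2 * L) ≤ 2 * L := (Real.log_le_sub_one_of_pos (by positivity)).trans (by linarith)
    -- the distance
    have hl1' : l1 N (Vs N W t) W ≤ (4 * L * Real.log (2 * L) + 4 * L) * Real.sqrt (N * t) := by
      refine le_of_sq_le_sq ?_ (by positivity)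
      rw [mul_pow, Real.sq_sqrt (by positivity)]
      have h1 : (l1 N (Vs N W t) W) ^ 2 ≤ 4 * N * (4 * (L * Real.log (2 * L)) * t) :=
        hl1.trans (mul_le_mul_of_nonneg_left hF (by positivity))
      refine h1.trans ?_
      have h3 : 16 * (L * Real.log (2 * L)) ≤ (4 * L * Real.log (2 * L) + 4 * L) ^ 2 := by
        have : 0 ≤ L * Real.log (2 * L) := by positivity
        nlinarith [mul_nonneg this (sub_nonneg.2 hL), mul_nonneg this this]
      calc 4 * N * (4 * (L * Real.log (2 * L)) * t) = 16 * (L * Real.log (2 * L)) * (N * t) := by ring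
        _ ≤ _ := mul_le_mul_of_nonneg_right h3 (by positivity)
    -- t is at most N
    have htN : (t : ℝ) ≤ N := by
      have h1 : L * t / N ≤ 1 := by
        refine hcase.trans ?_
        rw [div_le_one (by positivity)]
        linarith
      rw [div_le_one hN'] at h1
      nlinarith
    have htsq : (t : ℝ) ≤ Real.sqrt (N * t) := by
      refine Real.le_sqrt_of_sq_le ?_
      nlinarith
    have hterm : ∀ s ∈ Finset.Icc (-(N : ℤ)) (2 * N), |dsum N W k (s + t) - dsum N W k s| ≤
        |dsum N (Vs N W t) k s - dsum N W k s| + L * t / N := by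
      intro s _
      have h1 := dsV_le hL0.le hN0 hW hB.hi hk hinj (t := t) s
      have h2 := dsW_le hL0.le hN0 hW hB.hi hk hinj (t := t) s
      have h3 : |dsum N W k (s + t) - dsum N (Vs N W t) k s| ≤ L * t / N := by
        rw [abs_le]
        constructor <;> linarith
      calc |dsum N W k (s + t) - dsum N W k s| =
          |(dsum N (Vs N W t) k s - dsum N W k s) + (dsum N W k (s + t) - dsum N (Vs N W t) k s)| := by
            congr 1; ring
        _ ≤ _ := (abs_add_le _ _).trans (add_le_add (le_refl _) h3)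
    refine (Finset.sum_le_sum hterm).trans ?_
    rw [Finset.sum_add_distrib, Finset.sum_const, Int.card_Icc, nsmul_eq_mul]
    have hcard : ((((2 * (N : ℤ) + 1 - -(N : ℤ)).toNat : ℕ)) : ℝ) ≤ 4 * N := by
      have : (2 * (N : ℤ) + 1 - -(N : ℤ)).toNat ≤ 4 * N := by omega
      exact_mod_cast this
    have h4 : ((((2 * (N : ℤ) + 1 - -(N : ℤ)).toNat : ℕ)) : ℝ) * (L * t / N) ≤ 4 * L * Real.sqrt (N * t) := by
      calc _ ≤ (4 * N : ℝ) * (L * t / N) := mul_le_mul_of_nonneg_right hcard (by positivity)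
        _ = 4 * L * t := by field_simp
        _ ≤ _ := mul_le_mul_of_nonneg_left htsq (by positivity)
    have h5 := l1_ge N k (Vs N W t) W (Finset.Icc (-(N : ℤ)) (2 * N))
    linarith
  · -- large shifts
    push Not at hcase
    have hmass := adm_mass hW
    have h1 : ∑ s ∈ Finset.Icc (-(N : ℤ)) (2 * N), |dsum N W k (s + t) - dsum N W k s| ≤ 2 * N := by
      calc ∑ s ∈ Finset.Icc (-(N : ℤ)) (2 * N), |dsum N W k (s + t) - dsum N W k s| ≤
          ∑ s ∈ Finset.Icc (-(N : ℤ)) (2 * N), (dsum N W k (s + t) + dsum N W k s) := by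
            refine Finset.sum_le_sum fun s _ => ?_
            have ha := dsum_nn (N := N) hW.nn k (s + t)
            have hb := dsum_nn (N := N) hW.nn k s
            rw [abs_le]
            constructor <;> linarith
        _ = ∑ s ∈ Finset.Icc (-(N : ℤ)) (2 * N), dsum N W k (s + t) +
          ∑ s ∈ Finset.Icc (-(N : ℤ)) (2 * N), dsum N W k s := Finset.sum_add_distrib
        _ ≤ N + N := by
            refine add_le_add ?_ ?_
            · have h2 : ∑ s ∈ Finset.Icc (-(N : ℤ)) (2 * N), dsum N W k (s + t) =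
                  ∑ s ∈ (Finset.Icc (-(N : ℤ)) (2 * N)).image (fun s => s + (t : ℤ)), dsum N W k s := by
                classical
                rw [Finset.sum_image]
                intro a _ b _ hab
                simpa using hab
              rw [h2, ← hmass]
              exact fib_le N k W hW.nn _
            · rw [← hmass]
              exact fib_le N k W hW.nn _
        _ = 2 * N := by ring
    refine h1.trans ?_
    have h2 : (N : ℝ) ≤ 2 * L ^ 2 * t := by
      rw [div_lt_div_iff₀ (by positivity) hN'] at hcase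
      nlinarith
    have h3 : (N : ℝ) ≤ 2 * L * Real.sqrt (N * t) := by
      refine le_of_sq_le_sq ?_ (by positivity)
      rw [mul_pow, Real.sq_sqrt (by positivity)]
      nlinarith [mul_nonneg hN'.le ht0, mul_nonneg (mul_nonneg hN'.le ht0) (sq_nonneg L)]
    have h4 : 0 ≤ 4 * L * Real.log (2 * L) * Real.sqrt (N * t) := by positivity
    have h5 : 0 ≤ L * Real.sqrt (N * t) := by positivity
    nlinarith

theorem shift (L : ℝ) (hL : 1 ≤ L) : ∃ C : ℝ, 0 < C ∧ ∀ N : ℕ, 1000 ≤ N → ∀ W : ℤ × ℤ → ℝ, Opt N W →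
    Bd L N W → ∀ t : ℕ,
    (∑ s ∈ Finset.Icc (-(N : ℤ)) (2 * N), |dsum N W 2 (s + t) - dsum N W 2 s| ≤ C * Real.sqrt (N * t)) ∧
    (∑ s ∈ Finset.Icc (-(N : ℤ)) (2 * N), |dsum N W 3 (s + t) - dsum N W 3 s| ≤ C * Real.sqrt (N * t)) := by
  have hlog : 0 ≤ Real.log (2 * L) := Real.log_nonneg (by linarith)
  have hL0 : 0 < L := by linarith
  refine ⟨4 * L * Real.log (2 * L) + 8 * L, by positivity, ?_⟩
  intro N hN W hO hB t
  exact ⟨one_k hN hL hO hB t hk2 hi2, one_k hN hL hO hB t hk3 hi3⟩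

end Pool.Agent.NQR
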