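import Pool.Agent.NQR.Defs
import Pool.Agent.NQR.PMax
import Pool.Agent.NQR.PPos
import Pool.Agent.NQR.PBd
import Pool.Agent.NQR.PNorm
import Pool.Agent.NQR.PShf
import Pool.Agent.NQR.PHolA
import Pool.Agent.NQR.PHolP

/-!
# NQR-PRef: the reference weights (assembly of part I)

`bounds` gives `L0`; `opt_pos`; `norm_AB` gives `A'`, `B'` with constant `L0²`; `shift L0` gives `C`;
`holder_AB` (with `L = L0²`), `holder_pq`; `value`. Take `L` = maximum of all constants (all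
conditions of `Rf` and `Bd` are monotone in `L`; `Bd.mono` is a small lemma).
-/

set_option autoImplicit false

open Finset

namespace Pool.Agent.NQR

open Pool.Agent.NQ (board dsum F Ent Dg phi ln Q Qset st cellD bern)

private theorem lo_mono {L L' r a : ℝ} (hL : 0 < L) (h : L ≤ L') (hr : 0 < r) (ha : 1 / (L * r) ≤ a) :
    1 / (L' * r) ≤ a :=
  le_trans (one_div_le_one_div_of_le (mul_pos hL hr) (mul_le_mul_of_nonneg_right h hr.le)) ha

private theorem hi_mono {L L' r a : ℝ} (h : L ≤ L') (hr : 0 < r) (ha : a ≤ L / r) : a ≤ L' / r :=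
  le_trans ha (div_le_div_of_nonneg_right h hr.le)

private theorem bd_mono {L L' : ℝ} {N : ℕ} {W : ℤ × ℤ → ℝ} (hL : 0 < L) (h : L ≤ L') (hN : 0 < (N : ℝ))
    (hb : Bd L N W) : Bd L' N W where
  lo e he := lo_mono hL h hN (hb.lo e he)
  hi e he := hi_mono h hN (hb.hi e he)
  sd s := le_trans (one_div_le_one_div_of_le hL h) (hb.sd s)
  dd s := le_trans (one_div_le_one_div_of_le hL h) (hb.dd s)

theorem exists_ref : ∃ L : ℝ, 1 ≤ L ∧ ∀ N : ℕ, 1000 ≤ N → ∀ W : ℤ × ℤ → ℝ, Opt N W →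
    ∃ A B : ℤ → ℝ, Rf L N W A B := by
  obtain ⟨L0, hL0, hb⟩ := bounds
  obtain ⟨C, hC, hsh⟩ := shift L0 hL0
  have hL1 : 1 ≤ L0 ^ 2 := one_le_pow₀ hL0
  have hK : 0 < 2 * C * (L0 ^ 2) ^ 3 := by positivity
  obtain ⟨L', hL', hpq⟩ := holder_pq (L0 ^ 2) (2 * C * (L0 ^ 2) ^ 3) C hL1 hK hC
  have m0 : L0 ≤ max (max L0 (L0 ^ 2)) (max (2 * C * (L0 ^ 2) ^ 3) L') :=
    le_trans (le_max_left _ _) (le_max_left _ _)
  have m1 : L0 ^ 2 ≤ max (max L0 (L0 ^ 2)) (max (2 * C * (L0 ^ 2) ^ 3) L') :=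
    le_trans (le_max_right _ _) (le_max_left _ _)
  have m2 : 2 * C * (L0 ^ 2) ^ 3 ≤ max (max L0 (L0 ^ 2)) (max (2 * C * (L0 ^ 2) ^ 3) L') :=
    le_trans (le_max_left _ _) (le_max_right _ _)
  have m3 : L' ≤ max (max L0 (L0 ^ 2)) (max (2 * C * (L0 ^ 2) ^ 3) L') :=
    le_trans (le_max_right _ _) (le_max_right _ _)
  refine ⟨max (max L0 (L0 ^ 2)) (max (2 * C * (L0 ^ 2) ^ 3) L'), le_trans hL0 m0, ?_⟩
  intro N hN W hW
  have hN1 : 1 ≤ N := by omega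
  have hNr : 0 < (N : ℝ) := by exact_mod_cast hN1
  have hNs : 0 < Real.sqrt N := Real.sqrt_pos.2 hNr
  obtain ⟨hBd, A, B, hA, hB, he, hAB⟩ := hb N hN W hW
  obtain ⟨A', B', hA', hB', hpr, hAb, hBb⟩ := norm_AB hL0 hN1 hA hB hAB
  have he' : ∀ e ∈ board N, W e = A' e.1 * B' e.2 * hh N W e.1 e.2 := by
    intro e h
    rw [hpr]
    exact he e h
  obtain ⟨-, h2, h3⟩ := opt_pos hN hW
  have hs := hsh N hN W hW hBd
  obtain ⟨hHA, hHB⟩ := holder_AB hL1 hC hN1 hW.1 he' (fun x h0 h1 => ⟨hA' x, (hAb x h0 h1).2⟩)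
    (fun x h0 h1 => ⟨hB' x, (hBb x h0 h1).2⟩) hs
  obtain ⟨hHp, hHq⟩ := hpq N hN1 W hW.1 A' B' he' (fun s => sub_pos.2 (h2 s)) (fun s => sub_pos.2 (h3 s))
    (fun x h0 h1 => ⟨hA' x, (hAb x h0 h1).2⟩) (fun x h0 h1 => ⟨hB' x, (hBb x h0 h1).2⟩) hHA hHB hs
  have hL1p : 0 < L0 ^ 2 := lt_of_lt_of_le one_pos hL1
  have hL0p : 0 < L0 := lt_of_lt_of_le one_pos hL0
  exact ⟨A', B',
    { adm := hW.1
      bd := bd_mono hL0p m0 hNr hBd
      el := he'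
      A1 := fun x h0 h1 => lo_mono hL1p m1 hNs (hAb x h0 h1).1
      A2 := fun x h0 h1 => hi_mono m1 hNs (hAb x h0 h1).2
      B1 := fun x h0 h1 => lo_mono hL1p m1 hNs (hBb x h0 h1).1
      B2 := fun x h0 h1 => hi_mono m1 hNs (hBb x h0 h1).2
      hA := fun x y h0 h1 h2 h3 => le_trans (hHA x y h0 h1 h2 h3)
        (mul_le_mul_of_nonneg_right (div_le_div_of_nonneg_right m2 hNs.le) (Real.sqrt_nonneg _))
      hB := fun x y h0 h1 h2 h3 => le_trans (hHB x y h0 h1 h2 h3)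
        (mul_le_mul_of_nonneg_right (div_le_div_of_nonneg_right m2 hNs.le) (Real.sqrt_nonneg _))
      hp := fun s t => le_trans (hHp s t) (mul_le_mul_of_nonneg_right m3 (Real.sqrt_nonneg _))
      hq := fun s t => le_trans (hHq s t) (mul_le_mul_of_nonneg_right m3 (Real.sqrt_nonneg _))
      val := value hW.1 hA' hB' h2 h3 he' }⟩

end Pool.Agent.NQR
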