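import Pool.Agent.NQR.Defs
import Pool.Agent.NQR.YCnt

/-!
# NQR-YMov: the walk of the hole

PLAN. If `Y ∈ Ys n`, `a = hole Y` and the square `(k, a)` is free then `Y' = update Y k a ∈ Ys n`, `hole Y' = Y k`, the square
`(k, Y k)` is free for `Y'` (its difference and sum diagonals were occupied by the queen `(k, Y k)` only, and
`a ≠ Y k`), and `update Y' k (hole Y') = Y`. So `(Y, k) ↦ (Y', k)` is an involution of the set of pairs
`{(Y,k) | Y ∈ Ys n, Fr (occ Y) (ro k) (cl (hole Y))}`: `Finset.sum_nbij'` on a sigma/product type.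
-/

set_option autoImplicit false

open Finset

namespace Pool.Agent.NQR

open Pool.Agent.NQ (board dsum F Ent Dg phi ln Q Qset st cellD bern)

private theorem ym_fr {n : ℕ} (Y : Fin n → Fin (n + 1)) (x y : ℤ) :
    Fr (occ Y) x y ↔ ∀ i, ro i - cl (Y i) ≠ x - y ∧ ro i + cl (Y i) ≠ x + y := by
  unfold Fr occ
  simp only [mem_union, mem_image, mem_univ, true_and, not_or, not_exists, Sum.inl.injEq,
    Sum.inr.injEq, reduceCtorEq, not_false_eq_true, implies_true, and_true]
  constructor
  · rintro ⟨h1, h2⟩ i
    exact ⟨h1 i, h2 i⟩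
  · intro h
    exact ⟨fun i => (h i).1, fun i => (h i).2⟩

private theorem ym_cl {n : ℕ} {a b : Fin (n + 1)} (h : cl a = cl b) : a = b := by
  unfold cl at h
  exact Fin.ext (by exact_mod_cast h)

theorem move_mem {n : ℕ} {Y : Fin n → Fin (n + 1)} (h : Y ∈ Ys n) {k : Fin n}
    (hk : Fr (occ Y) (ro k) (cl (hole Y))) : Function.update Y k (hole Y) ∈ Ys n := by
  rw [mem_Ys] at h ⊢
  rw [ym_fr] at hk
  obtain ⟨h1, h2, h3⟩ := h
  have h0 := hole_ne ⟨h1, h2, h3⟩
  refine ⟨?_, ?_, ?_⟩
  · intro i j hij
    by_cases hi : i = k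
    · by_cases hj : j = k
      · rw [hi, hj]
      · rw [hi, Function.update_self, Function.update_of_ne hj] at hij
        exact absurd hij.symm (h0 j)
    · by_cases hj : j = k
      · rw [hj, Function.update_self, Function.update_of_ne hi] at hij
        exact absurd hij (h0 i)
      · rw [Function.update_of_ne hi, Function.update_of_ne hj] at hij
        exact h1 hij
  · intro i j hij
    dsimp only at hij
    by_cases hi : i = k
    · by_cases hj : j = k
      · rw [hi, hj]
      · rw [hi, Function.update_self, Function.update_of_ne hj] at hij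
        exact absurd hij.symm (hk j).2
    · by_cases hj : j = k
      · rw [hj, Function.update_self, Function.update_of_ne hi] at hij
        exact absurd hij (hk i).2
      · rw [Function.update_of_ne hi, Function.update_of_ne hj] at hij
        exact h2 hij
  · intro i j hij
    dsimp only at hij
    by_cases hi : i = k
    · by_cases hj : j = k
      · rw [hi, hj]
      · rw [hi, Function.update_self, Function.update_of_ne hj] at hij
        exact absurd hij.symm (hk j).1
    · by_cases hj : j = k
      · rw [hj, Function.update_self, Function.update_of_ne hi] at hij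
        exact absurd hij (hk i).1
      · rw [Function.update_of_ne hi, Function.update_of_ne hj] at hij
        exact h3 hij

theorem hole_move {n : ℕ} {Y : Fin n → Fin (n + 1)} (h : Y ∈ Ys n) {k : Fin n}
    (hk : Fr (occ Y) (ro k) (cl (hole Y))) : hole (Function.update Y k (hole Y)) = Y k := by
  have h' := mem_Ys.1 (move_mem h hk)
  rw [mem_Ys] at h
  by_contra hcon
  obtain ⟨i, hi⟩ := hole_unique h' (Ne.symm hcon)
  by_cases hik : i = k
  · rw [hik, Function.update_self] at hi
    exact hole_ne h k hi.symm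
  · rw [Function.update_of_ne hik] at hi
    exact hik (h.1 hi)

private theorem move_fr {n : ℕ} {Y : Fin n → Fin (n + 1)} (h : Y ∈ Ys n) {k : Fin n}
    (hk : Fr (occ Y) (ro k) (cl (hole Y))) :
    Fr (occ (Function.update Y k (hole Y))) (ro k)
      (cl (hole (Function.update Y k (hole Y)))) := by
  rw [hole_move h hk, ym_fr]
  rw [mem_Ys] at h
  intro i
  by_cases hik : i = k
  · rw [hik, Function.update_self]
    have h0 : cl (hole Y) ≠ cl (Y k) := fun h1 => hole_ne h k (ym_cl h1).symm
    exact ⟨fun h1 => h0 (by omega), fun h1 => h0 (by omega)⟩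
  · rw [Function.update_of_ne hik]
    exact ⟨fun h1 => hik (h.2.2 h1), fun h1 => hik (h.2.1 h1)⟩

theorem move_sum {n : ℕ} (G : (Fin n → Fin (n + 1)) → Fin n → ℝ) :
    ∑ Y ∈ Ys n, ∑ k, (if Fr (occ Y) (ro k) (cl (hole Y)) then G Y k else 0) =
    ∑ Y ∈ Ys n, ∑ k, (if Fr (occ Y) (ro k) (cl (hole Y)) then
      G (Function.update Y k (hole Y)) k else 0) := by
  rw [← Finset.sum_product', ← Finset.sum_product', ← Finset.sum_filter, ← Finset.sum_filter]
  refine Finset.sum_nbij' (fun p => (Function.update p.1 p.2 (hole p.1), p.2))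
    (fun p => (Function.update p.1 p.2 (hole p.1), p.2)) ?_ ?_ ?_ ?_ ?_
  · rintro ⟨Y, k⟩ hp
    rw [mem_filter, mem_product] at hp ⊢
    exact ⟨⟨move_mem hp.1.1 hp.2, mem_univ _⟩, move_fr hp.1.1 hp.2⟩
  · rintro ⟨Y, k⟩ hp
    rw [mem_filter, mem_product] at hp ⊢
    exact ⟨⟨move_mem hp.1.1 hp.2, mem_univ _⟩, move_fr hp.1.1 hp.2⟩
  · rintro ⟨Y, k⟩ hp
    rw [mem_filter, mem_product] at hp
    dsimp only
    rw [hole_move hp.1.1 hp.2, Function.update_idem, Function.update_eq_self]
  · rintro ⟨Y, k⟩ hp
    rw [mem_filter, mem_product] at hp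
    dsimp only
    rw [hole_move hp.1.1 hp.2, Function.update_idem, Function.update_eq_self]
  · rintro ⟨Y, k⟩ hp
    rw [mem_filter, mem_product] at hp
    dsimp only
    rw [hole_move hp.1.1 hp.2, Function.update_idem, Function.update_eq_self]

end Pool.Agent.NQR
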