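import Pool.Agent.NQR.Defs
import Pool.Agent.NQR.YMov

/-!
# NQR-BalA: balance equations of the hole walk

`bal_core` is the common form of the four statements: by `move_sum` the average of `∑_k [(k, hole Y) free] G Y k`
equals the average of `∑_k [(k, hole Y) free] G (Y^k) k`, `Y^k = update Y k (hole Y)`, and it remains to compare
`G (Y^k) k` with `H Y k`.  For `x ≠ ro k` the square `(x, Y k)` is free for `Y^k` iff it is free for `Y`, except if
`ro k + Y k = x + a` or `ro k - Y k = x - a` with `a = hole Y` (`fr_upd`), at most one `k` each.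
-/

set_option autoImplicit false

open Finset

namespace Pool.Agent.NQR

open Pool.Agent.NQ (board dsum F Ent Dg phi ln Q Qset st cellD bern)

private lemma inl_mem {n : ℕ} (Y : Fin n → Fin (n + 1)) (s : ℤ) :
    Sum.inl s ∈ occ Y ↔ ∃ i, ro i - cl (Y i) = s := by
  simp [occ]

private lemma inr_mem {n : ℕ} (Y : Fin n → Fin (n + 1)) (s : ℤ) :
    Sum.inr s ∈ occ Y ↔ ∃ i, ro i + cl (Y i) = s := by
  simp [occ]

private lemma fr_upd {n : ℕ} {Y : Fin n → Fin (n + 1)} {k : Fin n} {a : Fin (n + 1)} {x : ℤ}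
    (hx : x ≠ ro k) (h1 : ro k + cl (Y k) ≠ x + cl a) (h2 : ro k - cl (Y k) ≠ x - cl a) :
    Fr (occ (Function.update Y k a)) x (cl (Y k)) ↔ Fr (occ Y) x (cl (Y k)) := by
  unfold Fr
  rw [inl_mem, inr_mem, inl_mem, inr_mem]
  have e1 : (∃ i, ro i - cl (Function.update Y k a i) = x - cl (Y k)) ↔
      ∃ i, ro i - cl (Y i) = x - cl (Y k) := by
    constructor
    · rintro ⟨i, hi⟩
      rcases eq_or_ne i k with rfl | hik
      · rw [Function.update_self] at hi
        exact absurd (by linarith) h1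
      · rw [Function.update_of_ne hik] at hi
        exact ⟨i, hi⟩
    · rintro ⟨i, hi⟩
      rcases eq_or_ne i k with rfl | hik
      · exact absurd (by linarith) hx
      · refine ⟨i, ?_⟩
        rw [Function.update_of_ne hik]
        exact hi
  have e2 : (∃ i, ro i + cl (Function.update Y k a i) = x + cl (Y k)) ↔
      ∃ i, ro i + cl (Y i) = x + cl (Y k) := by
    constructor
    · rintro ⟨i, hi⟩
      rcases eq_or_ne i k with rfl | hik
      · rw [Function.update_self] at hi
        exact absurd (by linarith) h2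
      · rw [Function.update_of_ne hik] at hi
        exact ⟨i, hi⟩
    · rintro ⟨i, hi⟩
      rcases eq_or_ne i k with rfl | hik
      · exact absurd (by linarith) hx
      · refine ⟨i, ?_⟩
        rw [Function.update_of_ne hik]
        exact hi
  rw [e1, e2]

private lemma sum_one {n : ℕ} {T : Type} [DecidableEq T] {f : Fin n → T} (hf : Function.Injective f)
    (t : T) : ∑ k, (if f k = t then (1 : ℝ) else 0) ≤ 1 := by
  rw [Finset.sum_boole]
  have : (univ.filter (fun k => f k = t)).card ≤ 1 := by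
    rw [Finset.card_le_one]
    intro a ha b hb
    rw [mem_filter] at ha hb
    exact hf (ha.2.trans hb.2.symm)
  exact_mod_cast this

private lemma av_congr' {n : ℕ} {f g : (Fin n → Fin (n + 1)) → ℝ} (h : ∀ Y ∈ Ys n, f Y = g Y) :
    av n f = av n g := by
  unfold av
  rw [Finset.sum_congr rfl h]

private lemma av_sum' {n : ℕ} {T : Type} (s : Finset T) (f : T → (Fin n → Fin (n + 1)) → ℝ) :
    ∑ r ∈ s, av n (f r) = av n (fun Y => ∑ r ∈ s, f r Y) := by
  unfold av
  rw [← Finset.sum_div, Finset.sum_comm]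

private lemma pr_eq {n : ℕ} {E : (Fin n → Fin (n + 1)) → Prop} {f : (Fin n → Fin (n + 1)) → ℝ}
    (h1 : ∀ Y, E Y → f Y = 1) (h0 : ∀ Y, ¬ E Y → f Y = 0) : pr n E = av n f := by
  unfold pr
  refine av_congr' fun Y _ => ?_
  by_cases h : E Y
  · rw [if_pos h, h1 Y h]
  · rw [if_neg h, h0 Y h]

private lemma bal_core {n : ℕ} (G H : (Fin n → Fin (n + 1)) → Fin n → ℝ) {C c : ℝ} (hC : 0 ≤ C)
    (hGH : ∀ Y ∈ Ys n, ∑ k : Fin n, (if Fr (occ Y) (ro k) (cl (hole Y)) then
      |G (Function.update Y k (hole Y)) k - H Y k| else 0) ≤ C + c * (if hole Y = 0 then 1 else 0)) :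
    |av n (fun Y => ∑ k : Fin n, (if Fr (occ Y) (ro k) (cl (hole Y)) then G Y k else 0) -
      ∑ k : Fin n, (if Fr (occ Y) (ro k) (cl (hole Y)) then H Y k else 0))| ≤
      C + c * pr n (fun Y => hole Y = 0) := by
  have hpr : pr n (fun Y => hole Y = 0) = av n (fun Y => if hole Y = 0 then 1 else 0) :=
    pr_eq (fun Y h => if_pos h) (fun Y h => if_neg h)
  rw [hpr]
  unfold av
  rw [Finset.sum_sub_distrib, move_sum, ← Finset.sum_sub_distrib]
  have h1 : |∑ Y ∈ Ys n, (∑ k : Fin n, (if Fr (occ Y) (ro k) (cl (hole Y)) then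
        G (Function.update Y k (hole Y)) k else 0) -
      ∑ k : Fin n, (if Fr (occ Y) (ro k) (cl (hole Y)) then H Y k else 0))| ≤
      C * (Ys n).card + c * ∑ Y ∈ Ys n, (if hole Y = 0 then (1 : ℝ) else 0) := by
    refine (Finset.abs_sum_le_sum_abs _ _).trans ?_
    rw [Finset.mul_sum, mul_comm C, ← nsmul_eq_mul, ← Finset.sum_const, ← Finset.sum_add_distrib]
    refine Finset.sum_le_sum fun Y hY => ?_
    refine le_trans ?_ (hGH Y hY)
    rw [← Finset.sum_sub_distrib]
    refine (Finset.abs_sum_le_sum_abs _ _).trans (Finset.sum_le_sum fun k _ => ?_)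
    by_cases h : Fr (occ Y) (ro k) (cl (hole Y))
    · rw [if_pos h, if_pos h, if_pos h]
    · rw [if_neg h, if_neg h, if_neg h, sub_zero, abs_zero]
  rcases Nat.eq_zero_or_pos (Ys n).card with h0 | hpos
  · rw [h0]
    simp [hC]
  · have hp : (0 : ℝ) < (Ys n).card := by exact_mod_cast hpos
    rw [abs_div, abs_of_pos hp, div_le_iff₀ hp, add_mul, mul_assoc, div_mul_cancel₀ _ hp.ne']
    exact h1

open Classical in
theorem bal_i {n : ℕ} (g : Fin n → ℝ) :
    av n (fun Y => if hole Y = 0 then TT Y 0 none (fun k _ => g k) else 0) =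
      ∑ r, g r * pr n (fun Y => Y r = 0 ∧ Fr (occ Y) (ro r) (cl (hole Y))) := by
  have h1 : ∀ r, g r * pr n (fun Y => Y r = 0 ∧ Fr (occ Y) (ro r) (cl (hole Y))) =
      av n (fun Y => if Fr (occ Y) (ro r) (cl (hole Y)) then (if Y r = 0 then g r else 0) else 0) := by
    intro r
    rw [pr_eq (f := fun Y => if Y r = 0 ∧ Fr (occ Y) (ro r) (cl (hole Y)) then 1 else 0)
      (fun Y h => if_pos h) (fun Y h => if_neg h)]
    unfold av
    rw [← mul_div_assoc, Finset.mul_sum]
    congr 1
    refine Finset.sum_congr rfl fun Y _ => ?_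
    by_cases h : Fr (occ Y) (ro r) (cl (hole Y)) <;> by_cases h' : Y r = 0 <;> simp [h, h']
  rw [Finset.sum_congr rfl (fun r _ => h1 r), av_sum']
  unfold av
  congr 1
  have h2 := move_sum (n := n) (fun Y k => if hole Y = 0 then g k else 0)
  have h3 : ∀ Y ∈ Ys n, (if hole Y = 0 then TT Y 0 none (fun k _ => g k) else 0) =
      ∑ k : Fin n, (if Fr (occ Y) (ro k) (cl (hole Y)) then (if hole Y = 0 then g k else 0) else 0) := by
    intro Y _
    by_cases h : hole Y = 0
    · rw [if_pos h, h]
      simp [TT, mk]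
    · rw [if_neg h]
      simp [h]
  rw [Finset.sum_congr rfl h3]
  refine h2.trans (Finset.sum_congr rfl fun Y hY => Finset.sum_congr rfl fun k _ => ?_)
  by_cases h : Fr (occ Y) (ro k) (cl (hole Y))
  · rw [if_pos h, if_pos h]
    show (if hole (Function.update Y k (hole Y)) = 0 then g k else 0) = _
    rw [hole_move hY h]
  · rw [if_neg h, if_neg h]

open Classical in
theorem bal_iii {n : ℕ} (g : Fin n → Fin (n + 1) → ℝ) (hg : ∀ k b, 0 ≤ g k b ∧ g k b ≤ 1) :
    |∑ r, av n (fun Y => if Y r = 0 then TT Y (hole Y) none (fun _ _ => g r (hole Y)) -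
      TT Y (hole Y) none (fun _ b => g r b) else 0)| ≤ 1 + n * pr n (fun Y => hole Y = 0) := by
  rw [av_sum']
  have h1 : ∀ Y : Fin n → Fin (n + 1),
      (∑ r, (if Y r = 0 then TT Y (hole Y) none (fun _ _ => g r (hole Y)) -
        TT Y (hole Y) none (fun _ b => g r b) else 0)) =
      ∑ k : Fin n, (if Fr (occ Y) (ro k) (cl (hole Y)) then (∑ r, if Y r = 0 then g r (hole Y) else 0) else 0) -
      ∑ k : Fin n, (if Fr (occ Y) (ro k) (cl (hole Y)) then (∑ r, if Y r = 0 then g r (Y k) else 0) else 0) := by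
    intro Y
    have e1 : ∀ k : Fin n, (if Fr (occ Y) (ro k) (cl (hole Y)) then
        (∑ r, if Y r = 0 then g r (hole Y) else 0) else 0) =
        ∑ r, (if Fr (occ Y) (ro k) (cl (hole Y)) then (if Y r = 0 then g r (hole Y) else 0) else 0) := by
      intro k
      by_cases h : Fr (occ Y) (ro k) (cl (hole Y)) <;> simp [h]
    have e2 : ∀ k : Fin n, (if Fr (occ Y) (ro k) (cl (hole Y)) then
        (∑ r, if Y r = 0 then g r (Y k) else 0) else 0) =
        ∑ r, (if Fr (occ Y) (ro k) (cl (hole Y)) then (if Y r = 0 then g r (Y k) else 0) else 0) := by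
      intro k
      by_cases h : Fr (occ Y) (ro k) (cl (hole Y)) <;> simp [h]
    rw [Finset.sum_congr rfl (fun k _ => e1 k), Finset.sum_congr rfl (fun k _ => e2 k),
      Finset.sum_comm, Finset.sum_comm (f := fun k r => if Fr (occ Y) (ro k) (cl (hole Y)) then
        (if Y r = 0 then g r (Y k) else 0) else 0), ← Finset.sum_sub_distrib]
    refine Finset.sum_congr rfl fun r _ => ?_
    by_cases h : Y r = 0
    · simp [h, TT, mk]
    · simp [h]
  rw [av_congr' (fun Y _ => h1 Y)]
  refine bal_core (fun Y _ => ∑ r, if Y r = 0 then g r (hole Y) else 0)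
    (fun Y k => ∑ r, if Y r = 0 then g r (Y k) else 0) zero_le_one (fun Y hY => ?_)
  have h2 : ∀ k : Fin n, (if Fr (occ Y) (ro k) (cl (hole Y)) then
      |(∑ r, if (Function.update Y k (hole Y)) r = 0 then
        g r (hole (Function.update Y k (hole Y))) else 0) -
        (∑ r, if Y r = 0 then g r (Y k) else 0)| else 0) ≤
      (if Y k = 0 then 1 else 0) + (if hole Y = 0 then (1 : ℝ) else 0) := by
    intro k
    by_cases h : Fr (occ Y) (ro k) (cl (hole Y))
    · rw [if_pos h, hole_move hY h, ← Finset.sum_sub_distrib, Finset.sum_eq_single k]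
      · rw [Function.update_self]
        obtain ⟨g0, g1⟩ := hg k (Y k)
        rw [abs_le]
        split_ifs <;> constructor <;> linarith
      · intro r _ hr
        rw [Function.update_of_ne hr, sub_self]
      · intro h'
        exact absurd (mem_univ k) h'
    · rw [if_neg h]
      positivity
  refine (Finset.sum_le_sum fun k _ => h2 k).trans ?_
  rw [Finset.sum_add_distrib, Finset.sum_const, Finset.card_univ, Fintype.card_fin, nsmul_eq_mul]
  have h3 := sum_one (mem_Ys.1 hY).1 (0 : Fin (n + 1))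
  linarith

/-- the comparison of the masks -/
private lemma mask_diff {n : ℕ} {Y : Fin n → Fin (n + 1)} {k : Fin n} {a : Fin (n + 1)} {x : ℤ} {γ : ℝ}
    (hx : x ≠ ro k) (g0 : 0 ≤ γ) (g1 : γ ≤ 1) :
    |(if Fr (occ (Function.update Y k a)) x (cl (Y k)) then γ else 0) -
      mk (occ Y) (some x) (cl (Y k)) * γ| ≤
      (if ro k + cl (Y k) = x + cl a then 1 else 0) + (if ro k - cl (Y k) = x - cl a then (1 : ℝ) else 0) := by
  have e : mk (occ Y) (some x) (cl (Y k)) * γ = if Fr (occ Y) x (cl (Y k)) then γ else 0 := by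
    unfold mk
    by_cases h : Fr (occ Y) x (cl (Y k)) <;> simp [h]
  rw [e]
  by_cases h1 : ro k + cl (Y k) = x + cl a
  · rw [if_pos h1, abs_le]
    split_ifs <;> constructor <;> linarith
  · by_cases h2 : ro k - cl (Y k) = x - cl a
    · rw [if_pos h2, abs_le]
      split_ifs <;> constructor <;> linarith
    · rw [if_neg h1, if_neg h2]
      have h3 := fr_upd hx h1 h2
      by_cases h : Fr (occ Y) x (cl (Y k))
      · rw [if_pos h, if_pos (h3.2 h), sub_self, abs_zero, add_zero]
      · rw [if_neg h, if_neg (fun h' => h (h3.1 h')), sub_self, abs_zero, add_zero]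

open Classical in
theorem bal_ii {n : ℕ} (g : Fin n → Fin (n + 1) → ℝ) (hg : ∀ k b, 0 ≤ g k b ∧ g k b ≤ 1) :
    |∑ r, av n (fun Y => if Y r = 0 then (if Fr (occ Y) (ro r) (cl (hole Y)) then
      TT Y (hole Y) none (fun _ _ => g r (hole Y)) else 0) -
      TT Y (hole Y) (some (ro r)) (fun _ b => g r b) else 0)| ≤
      3 + n * pr n (fun Y => hole Y = 0) := by
  rw [av_sum']
  have h1 : ∀ Y : Fin n → Fin (n + 1),
      (∑ r, (if Y r = 0 then (if Fr (occ Y) (ro r) (cl (hole Y)) then
        TT Y (hole Y) none (fun _ _ => g r (hole Y)) else 0) -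
        TT Y (hole Y) (some (ro r)) (fun _ b => g r b) else 0)) =
      ∑ k : Fin n, (if Fr (occ Y) (ro k) (cl (hole Y)) then (∑ r, if Y r = 0 then
        (if Fr (occ Y) (ro r) (cl (hole Y)) then g r (hole Y) else 0) else 0) else 0) -
      ∑ k : Fin n, (if Fr (occ Y) (ro k) (cl (hole Y)) then (∑ r, if Y r = 0 then
        mk (occ Y) (some (ro r)) (cl (Y k)) * g r (Y k) else 0) else 0) := by
    intro Y
    have e1 : ∀ k : Fin n, (if Fr (occ Y) (ro k) (cl (hole Y)) then (∑ r, if Y r = 0 then
        (if Fr (occ Y) (ro r) (cl (hole Y)) then g r (hole Y) else 0) else 0) else 0) =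
        ∑ r, (if Fr (occ Y) (ro k) (cl (hole Y)) then (if Y r = 0 then
        (if Fr (occ Y) (ro r) (cl (hole Y)) then g r (hole Y) else 0) else 0) else 0) := by
      intro k
      by_cases h : Fr (occ Y) (ro k) (cl (hole Y)) <;> simp [h]
    have e2 : ∀ k : Fin n, (if Fr (occ Y) (ro k) (cl (hole Y)) then (∑ r, if Y r = 0 then
        mk (occ Y) (some (ro r)) (cl (Y k)) * g r (Y k) else 0) else 0) =
        ∑ r, (if Fr (occ Y) (ro k) (cl (hole Y)) then (if Y r = 0 then
        mk (occ Y) (some (ro r)) (cl (Y k)) * g r (Y k) else 0) else 0) := by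
      intro k
      by_cases h : Fr (occ Y) (ro k) (cl (hole Y)) <;> simp [h]
    rw [Finset.sum_congr rfl (fun k _ => e1 k), Finset.sum_congr rfl (fun k _ => e2 k),
      Finset.sum_comm, Finset.sum_comm (f := fun k r => if Fr (occ Y) (ro k) (cl (hole Y)) then
        (if Y r = 0 then mk (occ Y) (some (ro r)) (cl (Y k)) * g r (Y k) else 0) else 0),
      ← Finset.sum_sub_distrib]
    refine Finset.sum_congr rfl fun r _ => ?_
    by_cases h : Y r = 0
    · rw [if_pos h]
      congr 1
      · by_cases h' : Fr (occ Y) (ro r) (cl (hole Y)) <;> simp [h, h', TT, mk]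
      · simp only [TT, if_pos h]
    · simp [h]
  rw [av_congr' (fun Y _ => h1 Y)]
  have hC : (0 : ℝ) ≤ 3 := by norm_num
  refine bal_core (fun Y _ => ∑ r, if Y r = 0 then
      (if Fr (occ Y) (ro r) (cl (hole Y)) then g r (hole Y) else 0) else 0)
    (fun Y k => ∑ r, if Y r = 0 then
        mk (occ Y) (some (ro r)) (cl (Y k)) * g r (Y k) else 0) hC (fun Y hY => ?_)
  have h2 : ∀ k : Fin n, (if Fr (occ Y) (ro k) (cl (hole Y)) then
      |(∑ r, if (Function.update Y k (hole Y)) r = 0 then
        (if Fr (occ (Function.update Y k (hole Y))) (ro r) (cl (hole (Function.update Y k (hole Y)))) then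
          g r (hole (Function.update Y k (hole Y))) else 0) else 0) -
        (∑ r, if Y r = 0 then mk (occ Y) (some (ro r)) (cl (Y k)) * g r (Y k) else 0)| else 0) ≤
      (∑ r, if Y r = 0 then ((if ro k + cl (Y k) = ro r + cl (hole Y) then 1 else 0) +
        (if ro k - cl (Y k) = ro r - cl (hole Y) then (1 : ℝ) else 0)) else 0) +
        (if hole Y = 0 then (1 : ℝ) else 0) := by
    intro k
    have hnn : ∀ r, (0 : ℝ) ≤ (if Y r = 0 then ((if ro k + cl (Y k) = ro r + cl (hole Y) then 1 else 0) +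
        (if ro k - cl (Y k) = ro r - cl (hole Y) then (1 : ℝ) else 0)) else 0) := by
      intro r
      positivity
    by_cases h : Fr (occ Y) (ro k) (cl (hole Y))
    · rw [if_pos h, hole_move hY h, ← Finset.sum_sub_distrib]
      have e3 : (if hole Y = 0 then (1 : ℝ) else 0) =
          ∑ r, (if r = k then (if hole Y = 0 then (1 : ℝ) else 0) else 0) := by
        rw [Finset.sum_ite_eq' univ k, if_pos (mem_univ k)]
      rw [e3, ← Finset.sum_add_distrib]
      refine (Finset.abs_sum_le_sum_abs _ _).trans (Finset.sum_le_sum fun r _ => ?_)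
      rcases eq_or_ne r k with rfl | hr
      · rw [Function.update_self, if_pos rfl]
        have hz : mk (occ Y) (some (ro r)) (cl (Y r)) = 0 := by
          unfold mk
          refine if_neg (fun hF => hF.1 ?_)
          rw [inl_mem]
          exact ⟨r, rfl⟩
        rw [hz, zero_mul, ite_self, sub_zero]
        have h4 := hnn r
        obtain ⟨g0, g1⟩ := hg r (Y r)
        refine le_trans ?_ (le_add_of_nonneg_left h4)
        rw [abs_le]
        split_ifs <;> constructor <;> linarith
      · rw [Function.update_of_ne hr, if_neg hr, add_zero]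
        by_cases h5 : Y r = 0
        · rw [if_pos h5, if_pos h5, if_pos h5]
          obtain ⟨g0, g1⟩ := hg r (Y k)
          refine mask_diff (fun e => hr ?_) g0 g1
          unfold ro at e
          exact Fin.ext (by omega)
        · rw [if_neg h5, if_neg h5, if_neg h5, sub_zero, abs_zero]
    · rw [if_neg h]
      exact add_nonneg (Finset.sum_nonneg fun r _ => hnn r) (by positivity)
  refine (Finset.sum_le_sum fun k _ => h2 k).trans ?_
  rw [Finset.sum_add_distrib, Finset.sum_const, Finset.card_univ, Fintype.card_fin, nsmul_eq_mul,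
    Finset.sum_comm]
  have hYF := mem_Ys.1 hY
  have h6 : ∀ r, ∑ k, (if Y r = 0 then ((if ro k + cl (Y k) = ro r + cl (hole Y) then 1 else 0) +
        (if ro k - cl (Y k) = ro r - cl (hole Y) then (1 : ℝ) else 0)) else 0) ≤
      2 * (if Y r = 0 then 1 else 0) := by
    intro r
    by_cases h5 : Y r = 0
    · simp only [if_pos h5]
      rw [Finset.sum_add_distrib]
      have h7 := sum_one hYF.2.1 (ro r + cl (hole Y))
      have h8 := sum_one hYF.2.2 (ro r - cl (hole Y))
      linarith
    · simp [h5]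
  have h9 : ∑ r, ∑ k, (if Y r = 0 then ((if ro k + cl (Y k) = ro r + cl (hole Y) then 1 else 0) +
        (if ro k - cl (Y k) = ro r - cl (hole Y) then (1 : ℝ) else 0)) else 0) ≤
      ∑ r, 2 * (if Y r = 0 then (1 : ℝ) else 0) := Finset.sum_le_sum fun r _ => h6 r
  rw [← Finset.mul_sum] at h9
  have h3 := sum_one hYF.1 (0 : Fin (n + 1))
  linarith

open Classical in
theorem bal_E {n : ℕ} (g : Fin (n + 1) → ℝ) (hg : ∀ b, 0 ≤ g b ∧ g b ≤ 1) :
    |av n (fun Y => (if Fr (occ Y) 0 (cl (hole Y)) then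
      TT Y (hole Y) none (fun _ _ => g (hole Y)) else 0) -
      TT Y (hole Y) (some 0) (fun _ b => g b))| ≤ 2 := by
  have h1 : ∀ Y : Fin n → Fin (n + 1), ((if Fr (occ Y) 0 (cl (hole Y)) then
      TT Y (hole Y) none (fun _ _ => g (hole Y)) else 0) -
      TT Y (hole Y) (some 0) (fun _ b => g b)) =
      ∑ k : Fin n, (if Fr (occ Y) (ro k) (cl (hole Y)) then
        (if Fr (occ Y) 0 (cl (hole Y)) then g (hole Y) else 0) else 0) -
      ∑ k : Fin n, (if Fr (occ Y) (ro k) (cl (hole Y)) then mk (occ Y) (some 0) (cl (Y k)) * g (Y k) else 0) := by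
    intro Y
    congr 1
    by_cases h' : Fr (occ Y) 0 (cl (hole Y)) <;> simp [h', TT, mk]
  rw [av_congr' (fun Y _ => h1 Y)]
  have h0 : (0 : ℝ) ≤ 2 := by norm_num
  refine (bal_core (C := 2) (c := 0) (fun Y _ => if Fr (occ Y) 0 (cl (hole Y)) then g (hole Y) else 0)
    (fun Y k => mk (occ Y) (some 0) (cl (Y k)) * g (Y k)) h0 (fun Y hY => ?_)).trans_eq (by ring)
  have h2 : ∀ k : Fin n, (if Fr (occ Y) (ro k) (cl (hole Y)) then
      |(if Fr (occ (Function.update Y k (hole Y))) 0 (cl (hole (Function.update Y k (hole Y)))) then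
          g (hole (Function.update Y k (hole Y))) else 0) -
        mk (occ Y) (some 0) (cl (Y k)) * g (Y k)| else 0) ≤
      (if ro k + cl (Y k) = 0 + cl (hole Y) then 1 else 0) +
        (if ro k - cl (Y k) = 0 - cl (hole Y) then (1 : ℝ) else 0) := by
    intro k
    by_cases h : Fr (occ Y) (ro k) (cl (hole Y))
    · rw [if_pos h, hole_move hY h]
      obtain ⟨g0, g1⟩ := hg (Y k)
      refine mask_diff (fun e => ?_) g0 g1
      unfold ro at e
      omega
    · rw [if_neg h]
      positivity
  refine (Finset.sum_le_sum fun k _ => h2 k).trans ?_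
  rw [Finset.sum_add_distrib]
  have hYF := mem_Ys.1 hY
  have h7 := sum_one hYF.2.1 (0 + cl (hole Y))
  have h8 := sum_one hYF.2.2 (0 - cl (hole Y))
  linarith

end Pool.Agent.NQR
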