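import Pool.Agent.NQR.Defs
import Pool.Agent.NQR.BalA

/-!
# NQR-BalB: balance equations with the statistics replaced by their reference values

`M r a = pr (Y r = 0 ∧ hole = a)`, `ME r a = pr (Y r = 0 ∧ hole = a ∧ (r, a) free)`.

PLAN. `TR_const`: `TR n W a none (fun _ _ => c) = c * uu n W a` (row sums of `W` are one: `∑_b W (ro k, cl b) = dsum (n+1) W 0 (ro k)`),
`TR n W a none (fun _ b => g b) = ∑_b GG a b * g b`, with mask `some x`: `∑_b GG a b * (hh x b * g b)`. For every event `E` and fixed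
`a, r, g`: `|av (1_E (TT - TR))| ≤ ε pr E + n δ` (`Lev`, `0 ≤ TT, TR ≤ n`). Decompose `1[Y r = 0] f(hole Y)` as
`∑_a 1[Y r = 0, hole Y = a] f(a)`; sum over the `n (n+1)` pairs `(r,a)`: total error `≤ ε + n² (n+1) δ` for each of
the two statistics, plus the error in `bal_..`. In `bal_ii` the event is `(r,a)` free in the first part.
For (i): `E = {hole Y = 0}`.
-/

set_option autoImplicit false

open Finset

namespace Pool.Agent.NQR

open Pool.Agent.NQ (board dsum F Ent Dg phi ln Q Qset st cellD bern)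


private lemma bb_row {n : ℕ} {W : ℤ × ℤ → ℝ} (hW : Adm (n + 1) W) (k : Fin n) :
    ∑ b : Fin (n + 1), W (ro k, cl b) = 1 := by
  have hk : (ro k : ℤ) < ((n + 1 : ℕ) : ℤ) := by
    unfold ro
    have := k.2
    omega
  have hk0 : 0 ≤ ro k := by
    unfold ro
    omega
  rw [← hW.row (ro k) hk0 hk]
  unfold dsum
  refine Finset.sum_bij' (fun b _ => (ro k, cl b)) (fun e _ => Fin.ofNat (n + 1) e.2.toNat) ?_ ?_ ?_ ?_ ?_
  · intro b _
    rw [mem_filter]
    refine ⟨?_, rfl⟩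
    unfold board
    rw [Finset.mem_product, Finset.mem_Ico, Finset.mem_Ico]
    refine ⟨⟨hk0, hk⟩, ?_, ?_⟩
    · show (0 : ℤ) ≤ cl b
      unfold cl
      omega
    · show cl b < _
      unfold cl
      have := b.2
      omega
  · intro e _
    exact mem_univ _
  · intro b _
    refine Fin.ext ?_
    show (cl b).toNat % (n + 1) = b
    unfold cl
    rw [Int.toNat_natCast, Nat.mod_eq_of_lt b.2]
  · intro e he
    rw [mem_filter] at he
    unfold board at he
    rw [Finset.mem_product, Finset.mem_Ico, Finset.mem_Ico] at he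
    obtain ⟨⟨_, h3, h4⟩, h5⟩ := he
    refine Prod.ext h5.symm ?_
    show (((e.2.toNat % (n + 1) : ℕ)) : ℤ) = e.2
    rw [Nat.mod_eq_of_lt (by omega)]
    omega
  · intro b _
    rfl

private lemma bb_dsum_nn {N : ℕ} {W : ℤ × ℤ → ℝ} (h : Adm N W) (k : Fin 4) (s : ℤ) :
    0 ≤ dsum N W k s := by
  unfold dsum
  exact Finset.sum_nonneg fun e _ => h.nn e

private lemma bb_hh {N : ℕ} {W : ℤ × ℤ → ℝ} (h : Adm N W) (x y : ℤ) :
    0 ≤ hh N W x y ∧ hh N W x y ≤ 1 := by
  unfold hh hS hD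
  have h1 := bb_dsum_nn h 2 (x + y)
  have h2 := bb_dsum_nn h 3 (x - y)
  have h3 := h.sd (x + y)
  have h4 := h.dd (x - y)
  refine ⟨mul_nonneg (by linarith) (by linarith), mul_le_one₀ (by linarith) (by linarith) (by linarith)⟩

private lemma bb_mk0 {N : ℕ} {W : ℤ × ℤ → ℝ} (h : Adm N W) (r : Option ℤ) (y : ℤ) :
    0 ≤ mk0 N W r y ∧ mk0 N W r y ≤ 1 := by
  cases r with
  | none => exact ⟨zero_le_one, le_refl _⟩
  | some x => exact bb_hh h x y

private lemma bb_mk (U : Finset (ℤ ⊕ ℤ)) (r : Option ℤ) (y : ℤ) :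
    0 ≤ mk U r y ∧ mk U r y ≤ 1 := by
  cases r with
  | none => exact ⟨zero_le_one, le_refl _⟩
  | some x =>
    unfold mk
    by_cases h : Fr U x y <;> simp [h]

private lemma bb_TT {n : ℕ} (Y : Fin n → Fin (n + 1)) (a : Fin (n + 1)) (r : Option ℤ)
    (g : Fin n → Fin (n + 1) → ℝ) (hg : ∀ k b, 0 ≤ g k b ∧ g k b ≤ 1) :
    0 ≤ TT Y a r g ∧ TT Y a r g ≤ n := by
  have h1 : ∀ k : Fin n, 0 ≤ (if Fr (occ Y) (ro k) (cl a) then mk (occ Y) r (cl (Y k)) * g k (Y k) else 0) ∧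
      (if Fr (occ Y) (ro k) (cl a) then mk (occ Y) r (cl (Y k)) * g k (Y k) else 0) ≤ 1 := by
    intro k
    have h2 := bb_mk (occ Y) r (cl (Y k))
    have h3 := hg k (Y k)
    by_cases h : Fr (occ Y) (ro k) (cl a)
    · rw [if_pos h]
      exact ⟨mul_nonneg h2.1 h3.1, mul_le_one₀ h2.2 h3.1 h3.2⟩
    · rw [if_neg h]
      exact ⟨le_refl _, zero_le_one⟩
  refine ⟨Finset.sum_nonneg fun k _ => (h1 k).1, ?_⟩
  refine (Finset.sum_le_sum fun k _ => (h1 k).2).trans ?_
  rw [Finset.sum_const, Finset.card_univ, Fintype.card_fin, nsmul_eq_mul, mul_one]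

private lemma bb_TR {n : ℕ} {W : ℤ × ℤ → ℝ} (hW : Adm (n + 1) W) (a : Fin (n + 1)) (r : Option ℤ)
    (g : Fin n → Fin (n + 1) → ℝ) (hg : ∀ k b, 0 ≤ g k b ∧ g k b ≤ 1) :
    0 ≤ TR n W a r g ∧ TR n W a r g ≤ n := by
  have h1 : ∀ k : Fin n, 0 ≤ hh (n + 1) W (ro k) (cl a) *
      ∑ b : Fin (n + 1), W (ro k, cl b) * mk0 (n + 1) W r (cl b) * g k b ∧
      hh (n + 1) W (ro k) (cl a) *
      ∑ b : Fin (n + 1), W (ro k, cl b) * mk0 (n + 1) W r (cl b) * g k b ≤ 1 := by
    intro k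
    have h2 : ∀ b, 0 ≤ W (ro k, cl b) * mk0 (n + 1) W r (cl b) * g k b ∧
        W (ro k, cl b) * mk0 (n + 1) W r (cl b) * g k b ≤ W (ro k, cl b) := by
      intro b
      have h3 := bb_mk0 hW r (cl b)
      have h4 := hg k b
      have h5 := hW.nn (ro k, cl b)
      refine ⟨mul_nonneg (mul_nonneg h5 h3.1) h4.1, ?_⟩
      rw [mul_assoc]
      exact mul_le_of_le_one_right h5 (mul_le_one₀ h3.2 h4.1 h4.2)
    have h6 : 0 ≤ ∑ b : Fin (n + 1), W (ro k, cl b) * mk0 (n + 1) W r (cl b) * g k b :=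
      Finset.sum_nonneg fun b _ => (h2 b).1
    have h7 : ∑ b : Fin (n + 1), W (ro k, cl b) * mk0 (n + 1) W r (cl b) * g k b ≤ 1 := by
      rw [← bb_row hW k]
      exact Finset.sum_le_sum fun b _ => (h2 b).2
    have h8 := bb_hh hW (ro k) (cl a)
    exact ⟨mul_nonneg h8.1 h6, mul_le_one₀ h8.2 h6 h7⟩
  refine ⟨Finset.sum_nonneg fun k _ => (h1 k).1, ?_⟩
  refine (Finset.sum_le_sum fun k _ => (h1 k).2).trans ?_
  rw [Finset.sum_const, Finset.card_univ, Fintype.card_fin, nsmul_eq_mul, mul_one]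

private lemma bb_av_congr {n : ℕ} {f g : (Fin n → Fin (n + 1)) → ℝ} (h : ∀ Y ∈ Ys n, f Y = g Y) :
    av n f = av n g := by
  unfold av
  rw [Finset.sum_congr rfl h]

private lemma bb_av_sum {n : ℕ} {T : Type} (s : Finset T) (f : T → (Fin n → Fin (n + 1)) → ℝ) :
    ∑ r ∈ s, av n (f r) = av n (fun Y => ∑ r ∈ s, f r Y) := by
  unfold av
  rw [← Finset.sum_div, Finset.sum_comm]

private lemma bb_av_sub {n : ℕ} (f g : (Fin n → Fin (n + 1)) → ℝ) :
    av n (fun Y => f Y - g Y) = av n f - av n g := by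
  unfold av
  rw [Finset.sum_sub_distrib, sub_div]

private lemma bb_av_mul {n : ℕ} (c : ℝ) (f : (Fin n → Fin (n + 1)) → ℝ) :
    av n (fun Y => c * f Y) = c * av n f := by
  unfold av
  rw [← Finset.mul_sum, mul_div_assoc]

private lemma bb_pr {n : ℕ} (E : (Fin n → Fin (n + 1)) → Prop) [DecidablePred E] :
    pr n E = av n (fun Y => if E Y then 1 else 0) := by
  unfold pr
  refine bb_av_congr fun Y _ => ?_
  by_cases h : E Y
  · rw [if_pos h, if_pos h]
  · rw [if_neg h, if_neg h]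

private lemma bb_pr_sum {n : ℕ} {T : Type} (s : Finset T) (E : T → (Fin n → Fin (n + 1)) → Prop)
    (F' : (Fin n → Fin (n + 1)) → Prop) [∀ t, DecidablePred (E t)] [DecidablePred F']
    (h : ∀ Y ∈ Ys n, ∑ t ∈ s, (if E t Y then (1 : ℝ) else 0) = if F' Y then 1 else 0) :
    ∑ t ∈ s, pr n (E t) = pr n F' := by
  rw [Finset.sum_congr rfl (fun t _ => bb_pr (E t)), bb_av_sum, bb_pr]
  exact bb_av_congr h

/-- the statistic against its reference value on an event -/
private lemma bb_key {n : ℕ} {W : ℤ × ℤ → ℝ} (hW : Adm (n + 1) W)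
    {ε δ : ℝ} (hε : 0 ≤ ε) (hL : Lev n W ε δ) (hY : 0 < (Ys n).card)
    (E : (Fin n → Fin (n + 1)) → Prop) [DecidablePred E] (a : Fin (n + 1)) (r : Option ℤ)
    (hr : ∀ x ∈ r, 0 ≤ x ∧ x ≤ n)
    (g : Fin n → Fin (n + 1) → ℝ) (hg : ∀ k b, 0 ≤ g k b ∧ g k b ≤ 1) :
    |av n (fun Y => if E Y then TT Y a r g else 0) - pr n E * TR n W a r g| ≤
      ε * pr n E + n * δ := by
  have h1 : av n (fun Y => if E Y then TT Y a r g else 0) - pr n E * TR n W a r g =
      av n (fun Y => if E Y then TT Y a r g - TR n W a r g else 0) := by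
    rw [bb_pr, mul_comm, ← bb_av_mul, ← bb_av_sub]
    refine bb_av_congr fun Y _ => ?_
    by_cases h : E Y <;> simp [h]
  rw [h1, bb_pr]
  unfold av
  have hp : (0 : ℝ) < (Ys n).card := by exact_mod_cast hY
  rw [abs_div, abs_of_pos hp, div_le_iff₀ hp, add_mul, mul_assoc, div_mul_cancel₀ _ hp.ne', mul_assoc]
  refine (Finset.abs_sum_le_sum_abs _ _).trans ?_
  have h2 : ∀ Y ∈ Ys n, |(if E Y then TT Y a r g - TR n W a r g else 0)| ≤
      ε * (if E Y then 1 else 0) + n * (if ε < |TT Y a r g - TR n W a r g| then 1 else 0) := by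
    intro Y _
    obtain ⟨t1, t2⟩ := bb_TT Y a r g hg
    obtain ⟨t3, t4⟩ := bb_TR hW a r g hg
    have t5 : |TT Y a r g - TR n W a r g| ≤ n := by
      rw [abs_le]
      constructor <;> linarith
    have t6 : (0 : ℝ) ≤ n := Nat.cast_nonneg n
    by_cases h : E Y
    · rw [if_pos h, if_pos h]
      by_cases h' : ε < |TT Y a r g - TR n W a r g|
      · rw [if_pos h']
        linarith
      · rw [if_neg h']
        push Not at h'
        linarith
    · rw [if_neg h, if_neg h, abs_zero, mul_zero, zero_add]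
      split_ifs
      · rw [mul_one]
        exact t6
      · rw [mul_zero]
  refine (Finset.sum_le_sum h2).trans ?_
  rw [Finset.sum_add_distrib, ← Finset.mul_sum, ← Finset.mul_sum]
  have h3 : ∑ Y ∈ Ys n, (if ε < |TT Y a r g - TR n W a r g| then (1 : ℝ) else 0) ≤ δ * (Ys n).card := by
    rw [Finset.sum_boole]
    exact hL a r hr g hg
  have h4 : (0 : ℝ) ≤ n := Nat.cast_nonneg n
  have h5 := mul_le_mul_of_nonneg_left h3 h4
  linarith

private lemma bb_TR_c {n : ℕ} {W : ℤ × ℤ → ℝ} (hW : Adm (n + 1) W) (a : Fin (n + 1)) (c : ℝ) :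
    TR n W a none (fun _ _ => c) = c * uu n W a := by
  unfold TR uu
  rw [Finset.mul_sum]
  refine Finset.sum_congr rfl fun k _ => ?_
  have h1 : ∑ b : Fin (n + 1), W (ro k, cl b) * mk0 (n + 1) W none (cl b) * c = c := by
    rw [← Finset.sum_mul]
    have : ∑ b : Fin (n + 1), W (ro k, cl b) * mk0 (n + 1) W none (cl b) = 1 := by
      rw [← bb_row hW k]
      refine Finset.sum_congr rfl fun b _ => ?_
      exact mul_one _
    rw [this, one_mul]
  rw [h1, mul_comm]

private lemma bb_TR_k {n : ℕ} {W : ℤ × ℤ → ℝ} (hW : Adm (n + 1) W) (a : Fin (n + 1)) (c : Fin n → ℝ) :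
    TR n W a none (fun k _ => c k) = ∑ k, hh (n + 1) W (ro k) (cl a) * c k := by
  unfold TR
  refine Finset.sum_congr rfl fun k _ => ?_
  congr 1
  rw [← Finset.sum_mul]
  have : ∑ b : Fin (n + 1), W (ro k, cl b) * mk0 (n + 1) W none (cl b) = 1 := by
    rw [← bb_row hW k]
    refine Finset.sum_congr rfl fun b _ => ?_
    exact mul_one _
  rw [this, one_mul]

private lemma bb_TR_m {n : ℕ} {W : ℤ × ℤ → ℝ} (a : Fin (n + 1)) (r : Option ℤ) (c : Fin (n + 1) → ℝ) :
    TR n W a r (fun _ b => c b) = ∑ b, GG n W a b * (mk0 (n + 1) W r (cl b) * c b) := by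
  unfold TR GG
  have h1 : ∀ b : Fin (n + 1), (∑ k : Fin n, hh (n + 1) W (ro k) (cl a) * W (ro k, cl b)) *
      (mk0 (n + 1) W r (cl b) * c b) = ∑ k : Fin n, hh (n + 1) W (ro k) (cl a) *
        (W (ro k, cl b) * mk0 (n + 1) W r (cl b) * c b) := by
    intro b
    rw [Finset.sum_mul]
    refine Finset.sum_congr rfl fun k _ => ?_
    ring
  rw [Finset.sum_congr rfl (fun b _ => h1 b), Finset.sum_comm]
  refine Finset.sum_congr rfl fun k _ => ?_
  rw [Finset.mul_sum]

/-- decomposition by the value of the hole -/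
private lemma bb_split {n : ℕ} (E : (Fin n → Fin (n + 1)) → Prop) [DecidablePred E]
    (X : (Fin n → Fin (n + 1)) → Fin (n + 1) → ℝ) :
    av n (fun Y => if E Y then X Y (hole Y) else 0) =
      ∑ a, av n (fun Y => if E Y ∧ hole Y = a then X Y a else 0) := by
  rw [bb_av_sum]
  refine bb_av_congr fun Y _ => ?_
  rw [Finset.sum_eq_single (hole Y)]
  · by_cases h : E Y <;> simp [h]
  · intro a _ ha
    rw [if_neg]
    intro h
    exact ha h.2.symm
  · intro h
    exact absurd (mem_univ _) h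

private lemma bb_tot {n : ℕ} (Y : Fin n → Fin (n + 1)) (hY : Y ∈ Ys n) :
    ∑ r : Fin n, ∑ a : Fin (n + 1), (if Y r = 0 ∧ hole Y = a then (1 : ℝ) else 0) =
      if hole Y = 0 then 0 else 1 := by
  have hYF := mem_Ys.1 hY
  have h1 : ∀ r : Fin n, ∑ a : Fin (n + 1), (if Y r = 0 ∧ hole Y = a then (1 : ℝ) else 0) =
      if Y r = 0 then 1 else 0 := by
    intro r
    by_cases h : Y r = 0
    · simp [h]
    · simp [h]
  rw [Finset.sum_congr rfl (fun r _ => h1 r)]
  by_cases h : hole Y = 0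
  · rw [if_pos h]
    refine Finset.sum_eq_zero fun r _ => ?_
    rw [if_neg]
    intro h2
    exact hole_ne hYF r (h2.trans h.symm)
  · rw [if_neg h]
    obtain ⟨i, hi⟩ := hole_unique hYF (b := 0) (fun h' => h h'.symm)
    rw [Finset.sum_eq_single i]
    · rw [if_pos hi]
    · intro r _ hr
      rw [if_neg]
      intro h2
      exact hr (hYF.1 (h2.trans hi.symm))
    · intro h'
      exact absurd (mem_univ _) h'

private lemma bb_mass {n : ℕ} :
    ∑ r : Fin n, ∑ a, pr n (fun Y => Y r = 0 ∧ hole Y = a) ≤ 1 := by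
  have h1 : ∑ r : Fin n, ∑ a, pr n (fun Y => Y r = 0 ∧ hole Y = a) =
      av n (fun Y => ∑ r : Fin n, ∑ a : Fin (n + 1), (if Y r = 0 ∧ hole Y = a then (1 : ℝ) else 0)) := by
    rw [← bb_av_sum]
    refine Finset.sum_congr rfl fun r _ => ?_
    rw [← bb_av_sum]
    refine Finset.sum_congr rfl fun a _ => ?_
    rw [bb_pr]
  rw [h1]
  unfold av
  rcases Nat.eq_zero_or_pos (Ys n).card with h0 | hpos
  · rw [h0]
    simp
  · have hp : (0 : ℝ) < (Ys n).card := by exact_mod_cast hpos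
    rw [div_le_iff₀ hp, one_mul]
    refine (Finset.sum_le_sum (g := fun _ => (1 : ℝ)) fun Y hY => ?_).trans ?_
    · rw [bb_tot Y hY]
      split_ifs <;> norm_num
    · rw [Finset.sum_const, nsmul_eq_mul, mul_one]

private lemma bb_ro {n : ℕ} (r : Fin n) : ∀ x ∈ (some (ro r) : Option ℤ), 0 ≤ x ∧ x ≤ n := by
  intro x hx
  rw [Option.mem_some_iff] at hx
  subst hx
  unfold ro
  have := r.2
  omega

private lemma bb_none {n : ℕ} : ∀ x ∈ (none : Option ℤ), 0 ≤ x ∧ x ≤ n := by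
  intro x hx
  cases hx

private lemma bb_num {n : ℕ} (hn : 1 ≤ n) {δ : ℝ} (hδ : 0 ≤ δ) :
    (n : ℝ) * ((n : ℝ) + 1) * (2 * (n * δ)) ≤ 2 * (n + 1 : ℝ) ^ 4 * δ := by
  have h0 : (0 : ℝ) ≤ n := Nat.cast_nonneg n
  have h1 : (n : ℝ) * ((n : ℝ) + 1) * n ≤ ((n : ℝ) + 1) ^ 4 := by
    have e : ((n : ℝ) + 1) ^ 4 - (n : ℝ) * ((n : ℝ) + 1) * n =
      (n : ℝ) ^ 4 + 3 * (n : ℝ) ^ 3 + 5 * (n : ℝ) ^ 2 + 4 * n + 1 := by ring
    have : 0 ≤ (n : ℝ) ^ 4 + 3 * (n : ℝ) ^ 3 + 5 * (n : ℝ) ^ 2 + 4 * n + 1 := by positivity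
    linarith
  have h2 := mul_le_mul_of_nonneg_right h1 hδ
  linarith

open Classical in
theorem rel_iii {n : ℕ} {L : ℝ} {W : ℤ × ℤ → ℝ} (hn : 1 ≤ n) (hW : Adm (n + 1) W) (hB : Bd L (n + 1) W)
    {ε δ : ℝ} (hε : 0 ≤ ε) (hδ : 0 ≤ δ) (hL : Lev n W ε δ) (hY : 0 < (Ys n).card)
    (g : Fin n → Fin (n + 1) → ℝ) (hg : ∀ k b, 0 ≤ g k b ∧ g k b ≤ 1) :
    |∑ r, ∑ a, pr n (fun Y => Y r = 0 ∧ hole Y = a) * (g r a * uu n W a - ∑ b, GG n W a b * g r b)| ≤
      2 * ε + 2 * (n + 1 : ℝ) ^ 4 * δ + 3 + n * pr n (fun Y => hole Y = 0) := by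
  have key := bal_iii (n := n) g hg
  have h1 : ∀ r : Fin n, av n (fun Y => if Y r = 0 then TT Y (hole Y) none (fun _ _ => g r (hole Y)) -
      TT Y (hole Y) none (fun _ b => g r b) else 0) =
      ∑ a, (av n (fun Y => if Y r = 0 ∧ hole Y = a then TT Y a none (fun _ _ => g r a) else 0) -
        av n (fun Y => if Y r = 0 ∧ hole Y = a then TT Y a none (fun _ b => g r b) else 0)) := by
    intro r
    refine (bb_split (fun Y => Y r = 0) (fun Y a => TT Y a none (fun _ _ => g r a) -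
      TT Y a none (fun _ b => g r b))).trans ?_
    refine Finset.sum_congr rfl fun a _ => ?_
    rw [← bb_av_sub]
    refine bb_av_congr fun Y _ => ?_
    by_cases h : Y r = 0 ∧ hole Y = a
    · rw [if_pos h, if_pos h, if_pos h]
    · rw [if_neg h, if_neg h, if_neg h, sub_zero]
  rw [Finset.sum_congr rfl (fun r _ => h1 r)] at key
  have h2 : |∑ r : Fin n, ∑ a, pr n (fun Y => Y r = 0 ∧ hole Y = a) *
        (g r a * uu n W a - ∑ b, GG n W a b * g r b) -
      ∑ r : Fin n, ∑ a, (av n (fun Y => if Y r = 0 ∧ hole Y = a then TT Y a none (fun _ _ => g r a) else 0) -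
        av n (fun Y => if Y r = 0 ∧ hole Y = a then TT Y a none (fun _ b => g r b) else 0))| ≤
      2 * ε + 2 * (n + 1 : ℝ) ^ 4 * δ := by
    rw [← Finset.sum_sub_distrib]
    refine (Finset.abs_sum_le_sum_abs _ _).trans ?_
    have h3 : ∀ r : Fin n, |∑ a, pr n (fun Y => Y r = 0 ∧ hole Y = a) *
        (g r a * uu n W a - ∑ b, GG n W a b * g r b) -
        ∑ a, (av n (fun Y => if Y r = 0 ∧ hole Y = a then TT Y a none (fun _ _ => g r a) else 0) -
        av n (fun Y => if Y r = 0 ∧ hole Y = a then TT Y a none (fun _ b => g r b) else 0))| ≤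
        ∑ a, (2 * ε * pr n (fun Y => Y r = 0 ∧ hole Y = a) + 2 * (n * δ)) := by
      intro r
      rw [← Finset.sum_sub_distrib]
      refine (Finset.abs_sum_le_sum_abs _ _).trans (Finset.sum_le_sum fun a _ => ?_)
      have k1 := bb_key hW hε hL hY (fun Y => Y r = 0 ∧ hole Y = a) a none bb_none
        (fun _ _ => g r a) (fun _ _ => hg r a)
      have k2 := bb_key hW hε hL hY (fun Y => Y r = 0 ∧ hole Y = a) a none bb_none
        (fun _ b => g r b) (fun _ b => hg r b)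
      rw [bb_TR_c hW] at k1
      rw [bb_TR_m] at k2
      have e2 : ∑ b, GG n W a b * (mk0 (n + 1) W none (cl b) * g r b) = ∑ b, GG n W a b * g r b := by
        refine Finset.sum_congr rfl fun b _ => ?_
        show GG n W a b * (1 * g r b) = _
        rw [one_mul]
      rw [e2] at k2
      rw [abs_le] at k1 k2 ⊢
      constructor <;> linarith [k1.1, k1.2, k2.1, k2.2]
    refine (Finset.sum_le_sum fun r _ => h3 r).trans ?_
    have h4 : ∑ r : Fin n, ∑ a, (2 * ε * pr n (fun Y => Y r = 0 ∧ hole Y = a) + 2 * (n * δ)) =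
        2 * ε * (∑ r : Fin n, ∑ a, pr n (fun Y => Y r = 0 ∧ hole Y = a)) +
          (n : ℝ) * ((n : ℝ) + 1) * (2 * (n * δ)) := by
      rw [Finset.mul_sum]
      have h5 : ∀ r : Fin n, ∑ a : Fin (n + 1), (2 * ε * pr n (fun Y => Y r = 0 ∧ hole Y = a) + 2 * (n * δ)) =
          2 * ε * ∑ a, pr n (fun Y => Y r = 0 ∧ hole Y = a) + ((n : ℝ) + 1) * (2 * (n * δ)) := by
        intro r
        rw [Finset.sum_add_distrib, ← Finset.mul_sum, Finset.sum_const, Finset.card_univ,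
          Fintype.card_fin, nsmul_eq_mul]
        push_cast
        ring
      rw [Finset.sum_congr rfl (fun r _ => h5 r), Finset.sum_add_distrib, Finset.sum_const,
        Finset.card_univ, Fintype.card_fin, nsmul_eq_mul]
      ring
    rw [h4]
    have h6 := mul_le_mul_of_nonneg_left (bb_mass (n := n)) (by linarith : (0 : ℝ) ≤ 2 * ε)
    have h7 := bb_num hn hδ
    linarith
  rw [abs_le] at key h2 ⊢
  constructor <;> linarith [key.1, key.2, h2.1, h2.2]

open Classical in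
theorem rel_ii {n : ℕ} {L : ℝ} {W : ℤ × ℤ → ℝ} (hn : 1 ≤ n) (hW : Adm (n + 1) W) (hB : Bd L (n + 1) W)
    {ε δ : ℝ} (hε : 0 ≤ ε) (hδ : 0 ≤ δ) (hL : Lev n W ε δ) (hY : 0 < (Ys n).card)
    (g : Fin n → Fin (n + 1) → ℝ) (hg : ∀ k b, 0 ≤ g k b ∧ g k b ≤ 1) :
    |∑ r, ∑ a, (pr n (fun Y => Y r = 0 ∧ hole Y = a ∧ Fr (occ Y) (ro r) (cl a)) * (g r a * uu n W a) -
      pr n (fun Y => Y r = 0 ∧ hole Y = a) *
        ∑ b, GG n W a b * (hh (n + 1) W (ro r) (cl b) * g r b))| ≤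
      2 * ε + 2 * (n + 1 : ℝ) ^ 4 * δ + 3 + n * pr n (fun Y => hole Y = 0) := by
  have key := bal_ii (n := n) g hg
  have h1 : ∀ r : Fin n, av n (fun Y => if Y r = 0 then (if Fr (occ Y) (ro r) (cl (hole Y)) then
      TT Y (hole Y) none (fun _ _ => g r (hole Y)) else 0) -
      TT Y (hole Y) (some (ro r)) (fun _ b => g r b) else 0) =
      ∑ a, (av n (fun Y => if Y r = 0 ∧ hole Y = a ∧ Fr (occ Y) (ro r) (cl a) then
        TT Y a none (fun _ _ => g r a) else 0) -
        av n (fun Y => if Y r = 0 ∧ hole Y = a then TT Y a (some (ro r)) (fun _ b => g r b) else 0)) := by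
    intro r
    refine (bb_split (fun Y => Y r = 0) (fun Y a => (if Fr (occ Y) (ro r) (cl a) then
      TT Y a none (fun _ _ => g r a) else 0) -
      TT Y a (some (ro r)) (fun _ b => g r b))).trans ?_
    refine Finset.sum_congr rfl fun a _ => ?_
    rw [← bb_av_sub]
    refine bb_av_congr fun Y _ => ?_
    by_cases h : Y r = 0 ∧ hole Y = a
    · rw [if_pos h, if_pos h]
      by_cases h' : Fr (occ Y) (ro r) (cl a)
      · rw [if_pos h', if_pos ⟨h.1, h.2, h'⟩]
      · rw [if_neg h', if_neg (fun hh => h' hh.2.2)]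
    · rw [if_neg h, if_neg h, if_neg (fun hh => h ⟨hh.1, hh.2.1⟩), sub_zero]
  rw [Finset.sum_congr rfl (fun r _ => h1 r)] at key
  have h2 : |∑ r : Fin n, ∑ a, (pr n (fun Y => Y r = 0 ∧ hole Y = a ∧ Fr (occ Y) (ro r) (cl a)) *
        (g r a * uu n W a) - pr n (fun Y => Y r = 0 ∧ hole Y = a) *
        ∑ b, GG n W a b * (hh (n + 1) W (ro r) (cl b) * g r b)) -
      ∑ r : Fin n, ∑ a, (av n (fun Y => if Y r = 0 ∧ hole Y = a ∧ Fr (occ Y) (ro r) (cl a) then
        TT Y a none (fun _ _ => g r a) else 0) -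
        av n (fun Y => if Y r = 0 ∧ hole Y = a then TT Y a (some (ro r)) (fun _ b => g r b) else 0))| ≤
      2 * ε + 2 * (n + 1 : ℝ) ^ 4 * δ := by
    rw [← Finset.sum_sub_distrib]
    refine (Finset.abs_sum_le_sum_abs _ _).trans ?_
    have h3 : ∀ r : Fin n, |∑ a, (pr n (fun Y => Y r = 0 ∧ hole Y = a ∧ Fr (occ Y) (ro r) (cl a)) *
        (g r a * uu n W a) - pr n (fun Y => Y r = 0 ∧ hole Y = a) *
        ∑ b, GG n W a b * (hh (n + 1) W (ro r) (cl b) * g r b)) -
        ∑ a, (av n (fun Y => if Y r = 0 ∧ hole Y = a ∧ Fr (occ Y) (ro r) (cl a) then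
        TT Y a none (fun _ _ => g r a) else 0) -
        av n (fun Y => if Y r = 0 ∧ hole Y = a then TT Y a (some (ro r)) (fun _ b => g r b) else 0))| ≤
        ∑ a, (2 * ε * pr n (fun Y => Y r = 0 ∧ hole Y = a) + 2 * (n * δ)) := by
      intro r
      rw [← Finset.sum_sub_distrib]
      refine (Finset.abs_sum_le_sum_abs _ _).trans (Finset.sum_le_sum fun a _ => ?_)
      have k1 := bb_key hW hε hL hY (fun Y => Y r = 0 ∧ hole Y = a ∧ Fr (occ Y) (ro r) (cl a)) a none bb_none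
        (fun _ _ => g r a) (fun _ _ => hg r a)
      have k2 := bb_key hW hε hL hY (fun Y => Y r = 0 ∧ hole Y = a) a (some (ro r)) (bb_ro r)
        (fun _ b => g r b) (fun _ b => hg r b)
      rw [bb_TR_c hW] at k1
      rw [bb_TR_m] at k2
      have e2 : ∑ b, GG n W a b * (mk0 (n + 1) W (some (ro r)) (cl b) * g r b) =
          ∑ b, GG n W a b * (hh (n + 1) W (ro r) (cl b) * g r b) := rfl
      rw [e2] at k2
      have k3 : pr n (fun Y => Y r = 0 ∧ hole Y = a ∧ Fr (occ Y) (ro r) (cl a)) ≤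
          pr n (fun Y => Y r = 0 ∧ hole Y = a) := by
        rw [bb_pr, bb_pr]
        unfold av
        refine div_le_div_of_nonneg_right (Finset.sum_le_sum fun Y _ => ?_) (Nat.cast_nonneg _)
        by_cases h : Y r = 0 ∧ hole Y = a
        · rw [if_pos h]
          split_ifs <;> norm_num
        · rw [if_neg h, if_neg (fun hh => h ⟨hh.1, hh.2.1⟩)]
      have k4 := mul_le_mul_of_nonneg_left k3 hε
      rw [abs_le] at k1 k2 ⊢
      constructor <;> linarith [k1.1, k1.2, k2.1, k2.2]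
    refine (Finset.sum_le_sum fun r _ => h3 r).trans ?_
    have h4 : ∑ r : Fin n, ∑ a, (2 * ε * pr n (fun Y => Y r = 0 ∧ hole Y = a) + 2 * (n * δ)) =
        2 * ε * (∑ r : Fin n, ∑ a, pr n (fun Y => Y r = 0 ∧ hole Y = a)) +
          (n : ℝ) * ((n : ℝ) + 1) * (2 * (n * δ)) := by
      rw [Finset.mul_sum]
      have h5 : ∀ r : Fin n, ∑ a : Fin (n + 1), (2 * ε * pr n (fun Y => Y r = 0 ∧ hole Y = a) + 2 * (n * δ)) =
          2 * ε * ∑ a, pr n (fun Y => Y r = 0 ∧ hole Y = a) + ((n : ℝ) + 1) * (2 * (n * δ)) := by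
        intro r
        rw [Finset.sum_add_distrib, ← Finset.mul_sum, Finset.sum_const, Finset.card_univ,
          Fintype.card_fin, nsmul_eq_mul]
        push_cast
        ring
      rw [Finset.sum_congr rfl (fun r _ => h5 r), Finset.sum_add_distrib, Finset.sum_const,
        Finset.card_univ, Fintype.card_fin, nsmul_eq_mul]
      ring
    rw [h4]
    have h6 := mul_le_mul_of_nonneg_left (bb_mass (n := n)) (by linarith : (0 : ℝ) ≤ 2 * ε)
    have h7 := bb_num hn hδ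
    linarith
  rw [abs_le] at key h2 ⊢
  constructor <;> linarith [key.1, key.2, h2.1, h2.2]

open Classical in
theorem rel_E {n : ℕ} {L : ℝ} {W : ℤ × ℤ → ℝ} (hn : 1 ≤ n) (hW : Adm (n + 1) W) (hB : Bd L (n + 1) W)
    {ε δ : ℝ} (hε : 0 ≤ ε) (hδ : 0 ≤ δ) (hL : Lev n W ε δ) (hY : 0 < (Ys n).card)
    (g : Fin (n + 1) → ℝ) (hg : ∀ b, 0 ≤ g b ∧ g b ≤ 1) :
    |∑ a, (pr n (fun Y => hole Y = a ∧ Fr (occ Y) 0 (cl a)) * (g a * uu n W a) -
      pr n (fun Y => hole Y = a) * ∑ b, GG n W a b * (hh (n + 1) W 0 (cl b) * g b))| ≤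
      2 * ε + 2 * (n + 1 : ℝ) ^ 4 * δ + 3 := by
  have key := bal_E (n := n) g hg
  have h1 : av n (fun Y => (if Fr (occ Y) 0 (cl (hole Y)) then
      TT Y (hole Y) none (fun _ _ => g (hole Y)) else 0) -
      TT Y (hole Y) (some 0) (fun _ b => g b)) =
      ∑ a, (av n (fun Y => if hole Y = a ∧ Fr (occ Y) 0 (cl a) then
        TT Y a none (fun _ _ => g a) else 0) -
        av n (fun Y => if hole Y = a then TT Y a (some 0) (fun _ b => g b) else 0)) := by
    have h0 := bb_split (n := n) (fun _ => True) (fun Y a => (if Fr (occ Y) 0 (cl a) then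
      TT Y a none (fun _ _ => g a) else 0) -
      TT Y a (some 0) (fun _ b => g b))
    simp only [if_true, true_and] at h0
    refine h0.trans ?_
    refine Finset.sum_congr rfl fun a _ => ?_
    rw [← bb_av_sub]
    refine bb_av_congr fun Y _ => ?_
    by_cases h : hole Y = a
    · rw [if_pos h, if_pos h]
      by_cases h' : Fr (occ Y) 0 (cl a)
      · rw [if_pos h', if_pos ⟨h, h'⟩]
      · rw [if_neg h', if_neg (fun hh => h' hh.2)]
    · rw [if_neg h, if_neg h, if_neg (fun hh => h hh.1), sub_zero]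
  rw [h1] at key
  have hz : ∀ x ∈ (some (0 : ℤ) : Option ℤ), 0 ≤ x ∧ x ≤ n := by
    intro x hx
    rw [Option.mem_some_iff] at hx
    subst hx
    omega
  have hm : ∑ a, pr n (fun Y => hole Y = a) = 1 := by
    rw [bb_pr_sum univ (fun a Y => hole Y = a) (fun _ => True)]
    · rw [bb_pr]
      unfold av
      have hp : (0 : ℝ) < (Ys n).card := by exact_mod_cast hY
      simp only [if_true]
      rw [Finset.sum_const, nsmul_eq_mul, mul_one, div_self hp.ne']
    · intro Y _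
      simp
  have h2 : |∑ a, (pr n (fun Y => hole Y = a ∧ Fr (occ Y) 0 (cl a)) *
        (g a * uu n W a) - pr n (fun Y => hole Y = a) *
        ∑ b, GG n W a b * (hh (n + 1) W 0 (cl b) * g b)) -
      ∑ a, (av n (fun Y => if hole Y = a ∧ Fr (occ Y) 0 (cl a) then
        TT Y a none (fun _ _ => g a) else 0) -
        av n (fun Y => if hole Y = a then TT Y a (some 0) (fun _ b => g b) else 0))| ≤
      2 * ε + 2 * (n + 1 : ℝ) ^ 4 * δ := by
    rw [← Finset.sum_sub_distrib]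
    refine (Finset.abs_sum_le_sum_abs _ _).trans ?_
    have h3 : ∀ a ∈ (univ : Finset (Fin (n + 1))), |(pr n (fun Y => hole Y = a ∧ Fr (occ Y) 0 (cl a)) *
        (g a * uu n W a) - pr n (fun Y => hole Y = a) *
        ∑ b, GG n W a b * (hh (n + 1) W 0 (cl b) * g b)) -
        (av n (fun Y => if hole Y = a ∧ Fr (occ Y) 0 (cl a) then
        TT Y a none (fun _ _ => g a) else 0) -
        av n (fun Y => if hole Y = a then TT Y a (some 0) (fun _ b => g b) else 0))| ≤
        (2 * ε * pr n (fun Y => hole Y = a) + 2 * (n * δ)) := by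
      intro a _
      have k1 := bb_key hW hε hL hY (fun Y => hole Y = a ∧ Fr (occ Y) 0 (cl a)) a none bb_none
        (fun _ _ => g a) (fun _ _ => hg a)
      have k2 := bb_key hW hε hL hY (fun Y => hole Y = a) a (some 0) hz
        (fun _ b => g b) (fun _ b => hg b)
      rw [bb_TR_c hW] at k1
      rw [bb_TR_m] at k2
      have e2 : ∑ b, GG n W a b * (mk0 (n + 1) W (some 0) (cl b) * g b) =
          ∑ b, GG n W a b * (hh (n + 1) W 0 (cl b) * g b) := rfl
      rw [e2] at k2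
      have k3 : pr n (fun Y => hole Y = a ∧ Fr (occ Y) 0 (cl a)) ≤
          pr n (fun Y => hole Y = a) := by
        rw [bb_pr, bb_pr]
        unfold av
        refine div_le_div_of_nonneg_right (Finset.sum_le_sum fun Y _ => ?_) (Nat.cast_nonneg _)
        by_cases h : hole Y = a
        · rw [if_pos h]
          split_ifs <;> norm_num
        · rw [if_neg h, if_neg (fun hh => h hh.1)]
      have k4 := mul_le_mul_of_nonneg_left k3 hε
      rw [abs_le] at k1 k2 ⊢
      constructor <;> linarith [k1.1, k1.2, k2.1, k2.2]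
    refine (Finset.sum_le_sum h3).trans ?_
    rw [Finset.sum_add_distrib, ← Finset.mul_sum, hm, Finset.sum_const, Finset.card_univ,
      Fintype.card_fin, nsmul_eq_mul]
    push_cast
    have h7 := bb_num hn hδ
    have h8 : (1 : ℝ) ≤ n := by exact_mod_cast hn
    have h9 : ((n : ℝ) + 1) * (2 * (n * δ)) ≤ (n : ℝ) * ((n : ℝ) + 1) * (2 * (n * δ)) := by
      have : 0 ≤ ((n : ℝ) + 1) * (2 * (n * δ)) := by positivity
      nlinarith
    linarith
  rw [abs_le] at key h2 ⊢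
  constructor <;> linarith [key.1, key.2, h2.1, h2.2]

open Classical in
theorem rel_i {n : ℕ} {L : ℝ} {W : ℤ × ℤ → ℝ} (hn : 1 ≤ n) (hW : Adm (n + 1) W) (hB : Bd L (n + 1) W)
    {ε δ : ℝ} (hε : 0 ≤ ε) (hδ : 0 ≤ δ) (hL : Lev n W ε δ) (hY : 0 < (Ys n).card)
    (g : Fin n → ℝ) (hg : ∀ k, 0 ≤ g k ∧ g k ≤ 1) :
    |pr n (fun Y => hole Y = 0) * (∑ r, hh (n + 1) W (ro r) 0 * g r) -
      ∑ r, g r * ∑ a, pr n (fun Y => Y r = 0 ∧ hole Y = a ∧ Fr (occ Y) (ro r) (cl a))| ≤
      ε * pr n (fun Y => hole Y = 0) + (n + 1 : ℝ) ^ 2 * δ := by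
  have key := bal_i (n := n) g
  have h1 : ∀ r : Fin n, ∑ a, pr n (fun Y => Y r = 0 ∧ hole Y = a ∧ Fr (occ Y) (ro r) (cl a)) =
      pr n (fun Y => Y r = 0 ∧ Fr (occ Y) (ro r) (cl (hole Y))) := by
    intro r
    refine bb_pr_sum univ (fun a Y => Y r = 0 ∧ hole Y = a ∧ Fr (occ Y) (ro r) (cl a))
      (fun Y => Y r = 0 ∧ Fr (occ Y) (ro r) (cl (hole Y))) (fun Y _ => ?_)
    rw [Finset.sum_eq_single (hole Y)]
    · by_cases h : Y r = 0 <;> simp [h]
    · intro a _ ha
      rw [if_neg]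
      intro h
      exact ha h.2.1.symm
    · intro h
      exact absurd (mem_univ _) h
  have h1' : ∑ r, g r * ∑ a, pr n (fun Y => Y r = 0 ∧ hole Y = a ∧ Fr (occ Y) (ro r) (cl a)) =
      ∑ r, g r * pr n (fun Y => Y r = 0 ∧ Fr (occ Y) (ro r) (cl (hole Y))) :=
    Finset.sum_congr rfl fun r _ => by rw [h1 r]
  rw [h1', ← key]
  have k1 := bb_key hW hε hL hY (fun Y => hole Y = 0) 0 none bb_none
    (fun k _ => g k) (fun k _ => hg k)
  rw [bb_TR_k hW] at k1
  have e1 : ∑ k : Fin n, hh (n + 1) W (ro k) (cl (0 : Fin (n + 1))) * g k = ∑ r, hh (n + 1) W (ro r) 0 * g r := by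
    refine Finset.sum_congr rfl fun k _ => ?_
    have : cl (0 : Fin (n + 1)) = 0 := by simp [cl]
    rw [this]
  rw [e1, abs_sub_comm] at k1
  refine k1.trans ?_
  have h8 : (0 : ℝ) ≤ n := Nat.cast_nonneg n
  have h9 : (n : ℝ) * δ ≤ (n + 1 : ℝ) ^ 2 * δ := by
    refine mul_le_mul_of_nonneg_right ?_ hδ
    nlinarith
  linarith

open Classical in
/-- total masses -/
theorem mass_M {n : ℕ} (hY : 0 < (Ys n).card) :
    (∑ r, ∑ a, pr n (fun Y => Y r = 0 ∧ hole Y = a)) + pr n (fun Y => hole Y = 0) = 1 ∧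
    (∀ r, pr n (fun Y => Y r = 0 ∧ hole Y = 0) = 0) ∧
    (∀ a, a ≠ 0 → pr n (fun Y => hole Y = a) = ∑ r, pr n (fun Y => Y r = 0 ∧ hole Y = a)) := by
  refine ⟨?_, ?_, ?_⟩
  · have h1 : ∑ r : Fin n, ∑ a, pr n (fun Y => Y r = 0 ∧ hole Y = a) =
        av n (fun Y => ∑ r : Fin n, ∑ a : Fin (n + 1), (if Y r = 0 ∧ hole Y = a then (1 : ℝ) else 0)) := by
      rw [← bb_av_sum]
      refine Finset.sum_congr rfl fun r _ => ?_
      rw [← bb_av_sum]
      refine Finset.sum_congr rfl fun a _ => ?_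
      rw [bb_pr]
    rw [h1, bb_pr]
    unfold av
    have hp : (0 : ℝ) < (Ys n).card := by exact_mod_cast hY
    rw [← add_div, div_eq_one_iff_eq hp.ne', ← Finset.sum_add_distrib]
    rw [Finset.sum_congr rfl (g := fun _ => (1 : ℝ))]
    · rw [Finset.sum_const, nsmul_eq_mul, mul_one]
    · intro Y hY'
      rw [bb_tot Y hY']
      split_ifs <;> norm_num
  · intro r
    rw [bb_pr]
    unfold av
    rw [Finset.sum_eq_zero, zero_div]
    intro Y hY'
    rw [if_neg]
    intro h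
    exact hole_ne (mem_Ys.1 hY') r (h.1.trans h.2.symm)
  · intro a ha
    symm
    refine bb_pr_sum univ (fun r Y => Y r = 0 ∧ hole Y = a) (fun Y => hole Y = a) (fun Y hY' => ?_)
    have hYF := mem_Ys.1 hY'
    by_cases h : hole Y = a
    · rw [if_pos h]
      obtain ⟨i, hi⟩ := hole_unique hYF (b := 0) (fun h' => ha (h.symm.trans h'.symm))
      rw [Finset.sum_eq_single i]
      · rw [if_pos ⟨hi, h⟩]
      · intro r _ hr
        rw [if_neg]
        intro h2
        exact hr (hYF.1 (h2.1.trans hi.symm))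
      · intro h'
        exact absurd (mem_univ _) h'
    · rw [if_neg h]
      refine Finset.sum_eq_zero fun r _ => ?_
      rw [if_neg (fun hh => h hh.2)]

end Pool.Agent.NQR
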