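import Pool.Agent.NQ.UDefs

/-!
# PROJECT NQR (MP_6ea1bd_co): ratio theorem for the n-queens count, definitions

THEOREM. There are `α`, `C` with `|log Q(n+1) - log Q(n) - log n - 1 + α| ≤ C n^(-1/30000)`.

Notation. `N` = size of the board `[0,N)²` (`board N` of NQ.Defs), `dsum N W k s` = sum of `W` over the
line number `s` of type `k` (0 rows, 1 columns, 2 sum diagonals, 3 difference diagonals),
`F N W = Ent N W - Dg N W` the functional of NQ.Defs, `phi u = u + (1 - u) log (1 - u)`.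

`Y : Fin n → Fin (n+1)` = `n` queens in the rows `1, ..., n` (`ro i = i + 1`) and the columns
`0, ..., n` (`cl b = b`) of the board of size `n + 1`; one column (the hole) stays empty.
-/

set_option autoImplicit false

open Finset

namespace Pool.Agent.NQR

open Pool.Agent.NQ (board dsum F Ent Dg phi ln Q Qset st cellD bern)

/-! ### Weights -/

/-- doubly stochastic weights on the board whose diagonal sums are at most one -/
structure Adm (N : ℕ) (W : ℤ × ℤ → ℝ) : Prop where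
  nn : ∀ e, 0 ≤ W e
  out : ∀ e, e ∉ board N → W e = 0
  row : ∀ x : ℤ, 0 ≤ x → x < N → dsum N W 0 x = 1
  col : ∀ y : ℤ, 0 ≤ y → y < N → dsum N W 1 y = 1
  sd : ∀ s, dsum N W 2 s ≤ 1
  dd : ∀ s, dsum N W 3 s ≤ 1

/-- maximisers of the functional -/
def Opt (N : ℕ) (W : ℤ × ℤ → ℝ) : Prop := Adm N W ∧ ∀ V, Adm N V → F N V ≤ F N W

/-- `1 - q_s`, sum diagonals -/
noncomputable def hS (N : ℕ) (W : ℤ × ℤ → ℝ) (s : ℤ) : ℝ := 1 - dsum N W 2 s

/-- `1 - p_s`, difference diagonals -/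
noncomputable def hD (N : ℕ) (W : ℤ × ℤ → ℝ) (s : ℤ) : ℝ := 1 - dsum N W 3 s

/-- `h(x,y) = (1 - q_{x+y}) (1 - p_{x-y})` -/
noncomputable def hh (N : ℕ) (W : ℤ × ℤ → ℝ) (x y : ℤ) : ℝ := hS N W (x + y) * hD N W (x - y)

/-- gradient of the functional (up to a constant) -/
noncomputable def ell (N : ℕ) (W : ℤ × ℤ → ℝ) (e : ℤ × ℤ) : ℝ :=
  - Real.log (W e) + Real.log (hS N W (e.1 + e.2)) + Real.log (hD N W (e.1 - e.2))

/-- L¹ distance on the board -/
noncomputable def l1 (N : ℕ) (V W : ℤ × ℤ → ℝ) : ℝ := ∑ e ∈ board N, |V e - W e|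

/-- relative entropy -/
noncomputable def KL (N : ℕ) (V W : ℤ × ℤ → ℝ) : ℝ := ∑ e ∈ board N, V e * Real.log (V e / W e)

/-- bounds for the maximiser -/
structure Bd (L : ℝ) (N : ℕ) (W : ℤ × ℤ → ℝ) : Prop where
  lo : ∀ e ∈ board N, 1 / (L * N) ≤ W e
  hi : ∀ e ∈ board N, W e ≤ L / N
  sd : ∀ s, 1 / L ≤ hS N W s
  dd : ∀ s, 1 / L ≤ hD N W s

/-- the reference weights with all their properties -/
structure Rf (L : ℝ) (N : ℕ) (W : ℤ × ℤ → ℝ) (A B : ℤ → ℝ) : Prop where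
  adm : Adm N W
  bd : Bd L N W
  el : ∀ e ∈ board N, W e = A e.1 * B e.2 * hh N W e.1 e.2
  A1 : ∀ x : ℤ, 0 ≤ x → x < N → 1 / (L * Real.sqrt N) ≤ A x
  A2 : ∀ x : ℤ, 0 ≤ x → x < N → A x ≤ L / Real.sqrt N
  B1 : ∀ x : ℤ, 0 ≤ x → x < N → 1 / (L * Real.sqrt N) ≤ B x
  B2 : ∀ x : ℤ, 0 ≤ x → x < N → B x ≤ L / Real.sqrt N
  hA : ∀ x y : ℤ, 0 ≤ x → x < N → 0 ≤ y → y < N →
    |A x - A y| ≤ L / Real.sqrt N * Real.sqrt ((|x - y| : ℤ) / N)
  hB : ∀ x y : ℤ, 0 ≤ x → x < N → 0 ≤ y → y < N →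
    |B x - B y| ≤ L / Real.sqrt N * Real.sqrt ((|x - y| : ℤ) / N)
  hp : ∀ s t : ℤ, |dsum N W 3 s - dsum N W 3 t| ≤ L * Real.sqrt ((|s - t| : ℤ) / N)
  hq : ∀ s t : ℤ, |dsum N W 2 s - dsum N W 2 t| ≤ L * Real.sqrt ((|s - t| : ℤ) / N)
  val : F N W - N = - (∑ x ∈ Finset.Ico (0 : ℤ) N, Real.log (A x)) -
    (∑ x ∈ Finset.Ico (0 : ℤ) N, Real.log (B x)) -
    (∑ s ∈ Finset.Ico (0 : ℤ) (2 * N), Real.log (hS N W s)) -
    (∑ s ∈ Finset.Ioo (-(N : ℤ)) N, Real.log (hD N W s)) - 3 * N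

/-- the range of board sizes treated with the parameter `z` -/
def InR (z N : ℕ) : Prop := (z ^ 40) ^ 500 ≤ N ∧ N ≤ (z ^ 40) ^ 1001

/-! ### Configurations with one hole -/

/-- the coordinate of the row with index `i` (rows `1,...,n`; row `0` of the board is empty) -/
def ro {n : ℕ} (i : Fin n) : ℤ := ((i : ℕ) : ℤ) + 1

/-- the coordinate of the column with index `b` -/
def cl {n : ℕ} (b : Fin (n + 1)) : ℤ := ((b : ℕ) : ℤ)

/-- no two queens attack each other -/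
def YF (n : ℕ) (Y : Fin n → Fin (n + 1)) : Prop :=
  Function.Injective Y ∧ Function.Injective (fun i => ro i + cl (Y i)) ∧
    Function.Injective (fun i => ro i - cl (Y i))

open Classical in
/-- all configurations of `n` queens in the rows `1,...,n`, columns `0,...,n` -/
noncomputable def Ys (n : ℕ) : Finset (Fin n → Fin (n + 1)) := univ.filter (YF n)

theorem mem_Ys {n : ℕ} {Y : Fin n → Fin (n + 1)} : Y ∈ Ys n ↔ YF n Y := by
  classical
  unfold Ys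
  rw [mem_filter]
  exact ⟨fun h => h.2, fun h => ⟨mem_univ _, h⟩⟩

open Classical in
/-- the empty column -/
noncomputable def hole {n : ℕ} (Y : Fin n → Fin (n + 1)) : Fin (n + 1) :=
  if h : ∃ a, ∀ i, Y i ≠ a then h.choose else 0

/-- the set of occupied diagonals: `inl s` difference diagonal, `inr s` sum diagonal -/
def occ {n : ℕ} (Y : Fin n → Fin (n + 1)) : Finset (ℤ ⊕ ℤ) :=
  (univ.image (fun i => Sum.inl (ro i - cl (Y i)))) ∪ (univ.image (fun i => Sum.inr (ro i + cl (Y i))))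

/-- all diagonals of the board of size `N` (and two empty ones) -/
noncomputable def gd (N : ℕ) : Finset (ℤ ⊕ ℤ) := (Finset.Icc (-(N : ℤ)) N).disjSum (Finset.Icc (0 : ℤ) (2 * N))

/-- the square `(x, y)` is free with respect to the diagonals in `U` -/
def Fr (U : Finset (ℤ ⊕ ℤ)) (x y : ℤ) : Prop := Sum.inl (x - y) ∉ U ∧ Sum.inr (x + y) ∉ U

instance (U : Finset (ℤ ⊕ ℤ)) (x y : ℤ) : Decidable (Fr U x y) := by unfold Fr; infer_instance

/-- both diagonals of the square `(x, y)` belong to `U` -/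
def Oc (U : Finset (ℤ ⊕ ℤ)) (x y : ℤ) : Prop := Sum.inl (x - y) ∈ U ∧ Sum.inr (x + y) ∈ U

instance (U : Finset (ℤ ⊕ ℤ)) (x y : ℤ) : Decidable (Oc U x y) := by unfold Oc; infer_instance

/-! ### Statistics -/

/-- the mask: `1`, or the indicator that the square `(x, y)` is free, `r = some x` -/
noncomputable def mk (U : Finset (ℤ ⊕ ℤ)) (r : Option ℤ) (y : ℤ) : ℝ :=
  match r with
  | none => 1
  | some x => if Fr U x y then 1 else 0

/-- expected value of the mask -/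
noncomputable def mk0 (N : ℕ) (W : ℤ × ℤ → ℝ) (r : Option ℤ) (y : ℤ) : ℝ :=
  match r with
  | none => 1
  | some x => hh N W x y

/-- the statistic: the queens `(k, Y k)` in rows where the square in column `a` is free, weighted by
the mask and by `g` -/
noncomputable def TT {n : ℕ} (Y : Fin n → Fin (n + 1)) (a : Fin (n + 1)) (r : Option ℤ)
    (g : Fin n → Fin (n + 1) → ℝ) : ℝ :=
  ∑ k, if Fr (occ Y) (ro k) (cl a) then mk (occ Y) r (cl (Y k)) * g k (Y k) else 0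

/-- its reference value -/
noncomputable def TR (n : ℕ) (W : ℤ × ℤ → ℝ) (a : Fin (n + 1)) (r : Option ℤ)
    (g : Fin n → Fin (n + 1) → ℝ) : ℝ :=
  ∑ k : Fin n, hh (n + 1) W (ro k) (cl a) *
    ∑ b : Fin (n + 1), W (ro k, cl b) * mk0 (n + 1) W r (cl b) * g k b

/-- all statistics are concentrated -/
def Lev (n : ℕ) (W : ℤ × ℤ → ℝ) (ε δ : ℝ) : Prop :=
  ∀ (a : Fin (n + 1)) (r : Option ℤ), (∀ x ∈ r, 0 ≤ x ∧ x ≤ n) →
    ∀ g : Fin n → Fin (n + 1) → ℝ, (∀ k b, 0 ≤ g k b ∧ g k b ≤ 1) →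
      (((Ys n).filter (fun Y => ε < |TT Y a r g - TR n W a r g|)).card : ℝ) ≤ δ * (Ys n).card

/-! ### Strips -/

/-- the length of the strips (an even number, `N/z^80 ≤ ll z N ≤ 2N/z^80`) -/
def ll (z N : ℕ) : ℤ := 2 * ((N / z ^ 80 : ℕ) : ℤ)

/-- indices of the parity strips -/
noncomputable def SI (N : ℕ) (l : ℤ) : Finset (ℤ × ℤ) := (Finset.Icc (-(N : ℤ)) (2 * N)).image (st l)

/-- indices of the parity cells that meet the board -/
noncomputable def DI (N : ℕ) (l : ℤ) : Finset ((ℤ × ℤ) × (ℤ × ℤ)) := (board N).image (cellD l)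

/-- number of difference diagonals of `U` in the strip `σ` -/
def cD (l : ℤ) (U : Finset (ℤ ⊕ ℤ)) (σ : ℤ × ℤ) : ℕ := (U.toLeft.filter (fun s => st l s = σ)).card

/-- number of sum diagonals of `U` in the strip `σ` -/
def cS (l : ℤ) (U : Finset (ℤ ⊕ ℤ)) (σ : ℤ × ℤ) : ℕ := (U.toRight.filter (fun s => st l s = σ)).card

/-- mass of `W` in the difference strip `σ` -/
noncomputable def mD (N : ℕ) (W : ℤ × ℤ → ℝ) (l : ℤ) (σ : ℤ × ℤ) : ℝ :=
  ∑ s ∈ (Finset.Icc (-(N : ℤ)) N).filter (fun s => st l s = σ), dsum N W 3 s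

/-- mass of `W` in the sum strip `σ` -/
noncomputable def mS (N : ℕ) (W : ℤ × ℤ → ℝ) (l : ℤ) (σ : ℤ × ℤ) : ℝ :=
  ∑ s ∈ (Finset.Icc (0 : ℤ) (2 * N)).filter (fun s => st l s = σ), dsum N W 2 s

/-- deviation of the strip counts from the reference -/
noncomputable def dev (N : ℕ) (W : ℤ × ℤ → ℝ) (l : ℤ) (U : Finset (ℤ ⊕ ℤ)) : ℝ :=
  ∑ σ ∈ SI N l, (|(cD l U σ : ℝ) - mD N W l σ| + |(cS l U σ : ℝ) - mS N W l σ|)

/-- number of queens in the parity cell `D` (`D.1` sum strip, `D.2` difference strip) -/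
def cY {n : ℕ} (l : ℤ) (Y : Fin n → Fin (n + 1)) (D : (ℤ × ℤ) × (ℤ × ℤ)) : ℕ :=
  (univ.filter (fun i => cellD l (ro i, cl (Y i)) = D)).card

open Classical in
/-- a square of the board in the cell `D` -/
noncomputable def rp (N : ℕ) (l : ℤ) (D : (ℤ × ℤ) × (ℤ × ℤ)) : ℤ × ℤ :=
  if h : ∃ e ∈ board N, cellD l e = D then h.choose else (0, 0)

/-- reference number of queens in the cell `D` (for cells inside the board) -/
noncomputable def Wh (N : ℕ) (W : ℤ × ℤ → ℝ) (A B : ℤ → ℝ) (l : ℤ) (D : (ℤ × ℤ) × (ℤ × ℤ)) : ℝ :=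
  ((l : ℝ) / 2) ^ 2 * (1 - mS N W l D.1 / ((l : ℝ) / 2)) * (1 - mD N W l D.2 / ((l : ℝ) / 2)) *
    (A (rp N l D).1 * B (rp N l D).2)

/-- mass of `W` in the cell `D` -/
noncomputable def Wc (N : ℕ) (W : ℤ × ℤ → ℝ) (l : ℤ) (D : (ℤ × ℤ) × (ℤ × ℤ)) : ℝ :=
  ∑ e ∈ (board N).filter (fun e => cellD l e = D), W e

/-! ### Bernoulli comparison -/

/-- occupation probabilities of the diagonals, at least `κ` -/
noncomputable def pp (N : ℕ) (W : ℤ × ℤ → ℝ) (κ : ℝ) : ℤ ⊕ ℤ → ℝ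
  | Sum.inl s => max (dsum N W 3 s) κ
  | Sum.inr s => max (dsum N W 2 s) κ

/-- the weights `W / (p q)` with `p`, `q` at least `κ` -/
noncomputable def om (N : ℕ) (W : ℤ × ℤ → ℝ) (κ : ℝ) (x y : ℤ) : ℝ :=
  W (x, y) / (max (dsum N W 3 (x - y)) κ * max (dsum N W 2 (x + y)) κ)

/-- the square is not on a diagonal with small reference mass -/
def Mn (N : ℕ) (W : ℤ × ℤ → ℝ) (κ0 : ℝ) (x y : ℤ) : Prop :=
  κ0 ≤ dsum N W 3 (x - y) ∧ κ0 ≤ dsum N W 2 (x + y)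

open Classical in
/-- the statistic with the queens replaced by their expectation given the set `U` of occupied
diagonals; all squares -/
noncomputable def TA (n : ℕ) (W : ℤ × ℤ → ℝ) (κ : ℝ) (U : Finset (ℤ ⊕ ℤ)) (a : Fin (n + 1))
    (r : Option ℤ) (g : Fin n → Fin (n + 1) → ℝ) : ℝ :=
  ∑ k : Fin n, ∑ b : Fin (n + 1), if Oc U (ro k) (cl b) ∧ Fr U (ro k) (cl a) then
    om (n + 1) W κ (ro k) (cl b) * mk U r (cl b) * g k b else 0

open Classical in
/-- the same, main squares only -/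
noncomputable def TM (n : ℕ) (W : ℤ × ℤ → ℝ) (κ κ0 : ℝ) (U : Finset (ℤ ⊕ ℤ)) (a : Fin (n + 1))
    (r : Option ℤ) (g : Fin n → Fin (n + 1) → ℝ) : ℝ :=
  ∑ k : Fin n, ∑ b : Fin (n + 1),
    if Mn (n + 1) W κ0 (ro k) (cl b) ∧ Oc U (ro k) (cl b) ∧ Fr U (ro k) (cl a) then
    om (n + 1) W κ (ro k) (cl b) * mk U r (cl b) * g k b else 0

/-- total weight of the squares whose two diagonals are in `U` -/
noncomputable def SU (n : ℕ) (W : ℤ × ℤ → ℝ) (κ : ℝ) (U : Finset (ℤ ⊕ ℤ)) : ℝ :=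
  ∑ k : Fin n, ∑ b : Fin (n + 1), if Oc U (ro k) (cl b) then om (n + 1) W κ (ro k) (cl b) else 0

open Classical in
/-- the part of `SU` of the squares that are not main -/
noncomputable def SC (n : ℕ) (W : ℤ × ℤ → ℝ) (κ κ0 : ℝ) (U : Finset (ℤ ⊕ ℤ)) : ℝ :=
  ∑ k : Fin n, ∑ b : Fin (n + 1),
    if Oc U (ro k) (cl b) ∧ ¬ Mn (n + 1) W κ0 (ro k) (cl b) then om (n + 1) W κ (ro k) (cl b) else 0

/-! ### Averages over all configurations -/

/-- average over `Ys n` -/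
noncomputable def av (n : ℕ) (f : (Fin n → Fin (n + 1)) → ℝ) : ℝ := (∑ Y ∈ Ys n, f Y) / (Ys n).card

open Classical in
/-- probability of an event -/
noncomputable def pr (n : ℕ) (E : (Fin n → Fin (n + 1)) → Prop) : ℝ := av n (fun Y => if E Y then 1 else 0)

/-- `u a = ∑_k h(k, a)` -/
noncomputable def uu (n : ℕ) (W : ℤ × ℤ → ℝ) (a : Fin (n + 1)) : ℝ :=
  ∑ k : Fin n, hh (n + 1) W (ro k) (cl a)

/-- `G a b = ∑_k h(k, a) W(k, b)` -/
noncomputable def GG (n : ℕ) (W : ℤ × ℤ → ℝ) (a b : Fin (n + 1)) : ℝ :=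
  ∑ k : Fin n, hh (n + 1) W (ro k) (cl a) * W (ro k, cl b)

end Pool.Agent.NQR
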