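import Pool.Agent.NQR.Defs

/-!
# NQR-KNum: from ratios to the limit (real analysis, Mathlib only)

The ratios are averaged over a block of length `n^(999/1000)`.
-/

set_option autoImplicit false

open Finset

namespace Pool.Agent.NQR

open Pool.Agent.NQ (board dsum F Ent Dg phi ln Q Qset st cellD bern)

/-- primitive of the logarithm -/
private noncomputable def gK (x : ℝ) : ℝ := x * Real.log x - x

private theorem gK_step {k : ℝ} (hk : 0 < k) :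
    0 ≤ Real.log (k + 1) - (gK (k + 1) - gK k) ∧
      Real.log (k + 1) - (gK (k + 1) - gK k) ≤ Real.log (k + 1) - Real.log k := by
  have hk1 : 0 < k + 1 := by linarith
  have h1 : Real.log ((k + 1) / k) ≤ (k + 1) / k - 1 := Real.log_le_sub_one_of_pos (div_pos hk1 hk)
  have h2 : Real.log (k / (k + 1)) ≤ k / (k + 1) - 1 := Real.log_le_sub_one_of_pos (div_pos hk hk1)
  rw [Real.log_div hk1.ne' hk.ne'] at h1
  rw [Real.log_div hk.ne' hk1.ne'] at h2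
  have e1 : (k + 1) / k - 1 = 1 / k := by field_simp; ring
  have e2 : k / (k + 1) - 1 = -(1 / (k + 1)) := by field_simp; ring
  rw [e1] at h1
  rw [e2] at h2
  have f1 : k * (Real.log (k + 1) - Real.log k) ≤ 1 := by
    have := mul_le_mul_of_nonneg_left h1 hk.le
    have e3 : k * (1 / k) = 1 := by field_simp
    linarith
  have f2 : 1 ≤ (k + 1) * (Real.log (k + 1) - Real.log k) := by
    have := mul_le_mul_of_nonneg_left h2 hk1.le
    have e3 : (k + 1) * -(1 / (k + 1)) = -1 := by field_simp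
    linarith
  unfold gK
  constructor
  · nlinarith
  · nlinarith

private theorem log_bd {n : ℝ} (hn : 1 ≤ n) : Real.log (n + 1) ≤ 3000 * n ^ (1 / 1500 : ℝ) := by
  have h1 : Real.log (n + 1) ≤ (n + 1) ^ (1 / 1500 : ℝ) / (1 / 1500) :=
    Real.log_le_rpow_div (by linarith) (by norm_num)
  have h2 : (n + 1) ^ (1 / 1500 : ℝ) ≤ (2 * n) ^ (1 / 1500 : ℝ) :=
    Real.rpow_le_rpow (by linarith) (by linarith) (by norm_num)
  have h3 : (2 * n) ^ (1 / 1500 : ℝ) = (2 : ℝ) ^ (1 / 1500 : ℝ) * n ^ (1 / 1500 : ℝ) :=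
    Real.mul_rpow (by norm_num) (by linarith)
  have h4 : (2 : ℝ) ^ (1 / 1500 : ℝ) ≤ 2 := by
    have := Real.rpow_le_rpow_of_exponent_le (x := 2) (by norm_num) (show (1 / 1500 : ℝ) ≤ 1 by norm_num)
    rwa [Real.rpow_one] at this
  have h5 : 0 ≤ n ^ (1 / 1500 : ℝ) := Real.rpow_nonneg (by linarith) _
  have h6 : (n + 1) ^ (1 / 1500 : ℝ) ≤ 2 * n ^ (1 / 1500 : ℝ) := by
    rw [h3] at h2
    nlinarith
  have h7 : (n + 1) ^ (1 / 1500 : ℝ) / (1 / 1500) = 1500 * (n + 1) ^ (1 / 1500 : ℝ) := by ring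
  rw [h7] at h1
  linarith

private theorem D_bd {n m i : ℝ} (hn : 1 ≤ n) (hi : 0 ≤ i) (him : i ≤ m)
    (hm : m ≤ 2 * n ^ (999 / 1000 : ℝ)) :
    ((i / (n + 1) : ℝ) * Real.log (n + 1)) ^ (1 / 10 : ℝ) ≤ 6000 * n ^ (-(1 / 30000) : ℝ) := by
  have hn0 : 0 < n := by linarith
  have h0 : 0 ≤ Real.log (n + 1) := Real.log_nonneg (by linarith)
  have h1 : i / (n + 1) ≤ 2 * n ^ (-(1 / 1000) : ℝ) := by
    rw [div_le_iff₀ (by linarith)]
    have e1 : n ^ (-(1 / 1000) : ℝ) * n = n ^ (999 / 1000 : ℝ) := by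
      nth_rewrite 2 [← Real.rpow_one n]
      rw [← Real.rpow_add hn0]
      norm_num
    have e2 : 0 ≤ n ^ (-(1 / 1000) : ℝ) := Real.rpow_nonneg hn0.le _
    nlinarith
  have h2 := log_bd hn
  have h3 : (i / (n + 1) : ℝ) * Real.log (n + 1) ≤
      (2 * n ^ (-(1 / 1000) : ℝ)) * (3000 * n ^ (1 / 1500 : ℝ)) :=
    mul_le_mul h1 h2 h0 (mul_nonneg (by norm_num) (Real.rpow_nonneg hn0.le _))
  have h4 : (2 * n ^ (-(1 / 1000) : ℝ)) * (3000 * n ^ (1 / 1500 : ℝ)) =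
      6000 * n ^ (-(1 / 3000) : ℝ) := by
    have e1 : n ^ (-(1 / 1000) : ℝ) * n ^ (1 / 1500 : ℝ) = n ^ (-(1 / 3000) : ℝ) := by
      rw [← Real.rpow_add hn0]
      norm_num
    rw [← e1]
    ring
  rw [h4] at h3
  have h5 : 0 ≤ (i / (n + 1) : ℝ) * Real.log (n + 1) :=
    mul_nonneg (div_nonneg hi (by linarith)) h0
  have h6 := Real.rpow_le_rpow h5 h3 (show (0 : ℝ) ≤ 1 / 10 by norm_num)
  have h7 : (6000 * n ^ (-(1 / 3000) : ℝ)) ^ (1 / 10 : ℝ) =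
      (6000 : ℝ) ^ (1 / 10 : ℝ) * n ^ (-(1 / 30000) : ℝ) := by
    rw [Real.mul_rpow (by norm_num) (Real.rpow_nonneg hn0.le _), ← Real.rpow_mul hn0.le]
    norm_num
  have h8 : (6000 : ℝ) ^ (1 / 10 : ℝ) ≤ 6000 := by
    have := Real.rpow_le_rpow_of_exponent_le (x := 6000) (by norm_num)
      (show (1 / 10 : ℝ) ≤ 1 by norm_num)
    rwa [Real.rpow_one] at this
  rw [h7] at h6
  exact h6.trans (mul_le_mul_of_nonneg_right h8 (Real.rpow_nonneg hn0.le _))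

private theorem mono_exp {n : ℝ} (hn : 1 ≤ n) {a : ℝ} (ha : a ≤ -(1 / 30000)) :
    n ^ a ≤ n ^ (-(1 / 30000) : ℝ) := Real.rpow_le_rpow_of_exponent_le hn ha

private theorem core {q ψ : ℕ → ℝ} {α C : ℝ} {n0 : ℕ}
    (h1 : ∀ n : ℕ, 1 ≤ n → |q n - n * Real.log n + α * n| ≤ C * (n : ℝ) ^ (1 - 1 / 500 : ℝ))
    (h2 : ∀ n : ℕ, n0 ≤ n → |q (n + 1) - q n - Real.log (n + 1) - ψ (n + 1)| ≤
      C * (n : ℝ) ^ (-(1 / 20000) : ℝ))
    (h3 : ∀ n m : ℕ, n0 ≤ n → m ≤ n → |ψ n - ψ (n + m)| ≤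
      C * ((m / n : ℝ) * Real.log n) ^ (1 / 10 : ℝ)) (hC : 0 ≤ C) {n : ℕ} (hn0 : n0 ≤ n)
    (hn : 1 ≤ n) :
    |ψ (n + 1) - (1 - α)| ≤ (6004 * C + 1) * (n : ℝ) ^ (-(1 / 30000) : ℝ) := by
  have hnR : (1 : ℝ) ≤ n := by exact_mod_cast hn
  have hnpos : (0 : ℝ) < n := by linarith
  set m : ℕ := ⌈(n : ℝ) ^ (999 / 1000 : ℝ)⌉₊ with hm
  have hp1 : (1 : ℝ) ≤ (n : ℝ) ^ (999 / 1000 : ℝ) := Real.one_le_rpow hnR (by norm_num)
  have hmge : (n : ℝ) ^ (999 / 1000 : ℝ) ≤ m := Nat.le_ceil _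
  have hmle : (m : ℝ) ≤ 2 * (n : ℝ) ^ (999 / 1000 : ℝ) := by
    have := Nat.ceil_lt_add_one (show (0 : ℝ) ≤ (n : ℝ) ^ (999 / 1000 : ℝ) by linarith)
    linarith
  have hmn : m ≤ n := by
    rw [hm, Nat.ceil_le]
    have := Real.rpow_le_rpow_of_exponent_le hnR (show (999 / 1000 : ℝ) ≤ 1 by norm_num)
    rwa [Real.rpow_one] at this
  have hmpos : (0 : ℝ) < m := by linarith
  have hmnR : (m : ℝ) ≤ n := by exact_mod_cast hmn
  set e : ℕ → ℝ := fun k => q k - k * Real.log k + α * k with he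
  set r : ℕ → ℝ := fun i => q (n + i + 1) - q (n + i) - Real.log ((n + i : ℕ) + 1) - ψ (n + i + 1)
    with hr
  set d : ℕ → ℝ := fun i => Real.log ((n + i : ℕ) + 1) - (gK ((n + i : ℕ) + 1) - gK ((n + i : ℕ)))
    with hd
  have hrb : ∀ i, |r i| ≤ C * (n : ℝ) ^ (-(1 / 20000) : ℝ) := by
    intro i
    have a1 := h2 (n + i) (by omega)
    refine a1.trans (mul_le_mul_of_nonneg_left ?_ hC)
    refine Real.rpow_le_rpow_of_nonpos hnpos ?_ (by norm_num)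
    push_cast
    have : (0 : ℝ) ≤ i := Nat.cast_nonneg i
    linarith
  have hdb : ∀ i, 0 ≤ d i ∧ d i ≤ Real.log ((n + (i + 1) : ℕ)) - Real.log ((n + i : ℕ)) := by
    intro i
    have hk : (0 : ℝ) < ((n + i : ℕ) : ℝ) := by
      have : 0 < n + i := by omega
      exact_mod_cast this
    have a1 := gK_step hk
    have a2 : ((n + (i + 1) : ℕ) : ℝ) = ((n + i : ℕ) : ℝ) + 1 := by push_cast; ring
    rw [a2]
    exact a1
  have hsd0 : 0 ≤ ∑ i ∈ range m, d i := sum_nonneg (fun i _ => (hdb i).1)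
  have hsd1 : ∑ i ∈ range m, d i ≤ 1 := by
    have a1 : ∑ i ∈ range m, d i ≤
        ∑ i ∈ range m, (Real.log ((n + (i + 1) : ℕ)) - Real.log ((n + i : ℕ))) :=
      sum_le_sum (fun i _ => (hdb i).2)
    rw [Finset.sum_range_sub (fun i => Real.log ((n + i : ℕ) : ℝ))] at a1
    have a2 : Real.log ((n + m : ℕ) : ℝ) - Real.log ((n + 0 : ℕ) : ℝ) ≤ 1 := by
      have b1 : ((n + m : ℕ) : ℝ) = n + m := by push_cast; ring
      have b2 : ((n + 0 : ℕ) : ℝ) = n := by push_cast; ring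
      rw [b1, b2, ← Real.log_div (by linarith) hnpos.ne']
      have b3 : Real.log ((n + m : ℝ) / n) ≤ (n + m : ℝ) / n - 1 :=
        Real.log_le_sub_one_of_pos (div_pos (by linarith) hnpos)
      have b4 : (n + m : ℝ) / n - 1 ≤ 1 := by
        rw [sub_le_iff_le_add, div_le_iff₀ hnpos]
        linarith
      linarith
    linarith
  have hsr : |∑ i ∈ range m, r i| ≤ m * (C * (n : ℝ) ^ (-(1 / 20000) : ℝ)) := by
    refine (abs_sum_le_sum_abs _ _).trans ?_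
    refine (sum_le_sum (fun i _ => hrb i)).trans ?_
    rw [sum_const, card_range, nsmul_eq_mul]
  have htel : ∑ i ∈ range m, ψ (n + i + 1) - (1 - α) * m =
      e (n + m) - e n - ∑ i ∈ range m, d i - ∑ i ∈ range m, r i := by
    have a1 : ∀ i, ψ (n + i + 1) = (q (n + (i + 1)) - q (n + i)) -
        (gK ((n + (i + 1) : ℕ) : ℝ) - gK ((n + i : ℕ) : ℝ)) - d i - r i := by
      intro i
      have a2 : ((n + (i + 1) : ℕ) : ℝ) = ((n + i : ℕ) : ℝ) + 1 := by push_cast; ring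
      have a3 : n + (i + 1) = n + i + 1 := rfl
      simp only [hr, hd]
      rw [a2, a3]
      ring
    have a4 : ∑ i ∈ range m, ψ (n + i + 1) =
        (q (n + m) - q (n + 0)) - (gK ((n + m : ℕ) : ℝ) - gK ((n + 0 : ℕ) : ℝ)) -
          ∑ i ∈ range m, d i - ∑ i ∈ range m, r i := by
      rw [sum_congr rfl (fun i _ => a1 i), sum_sub_distrib, sum_sub_distrib, sum_sub_distrib,
        Finset.sum_range_sub (fun i => q (n + i)),
        Finset.sum_range_sub (fun i => gK ((n + i : ℕ) : ℝ))]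
    rw [a4]
    simp only [he, gK, add_zero]
    push_cast
    ring
  have hψ : |(m : ℝ) * ψ (n + 1) - ∑ i ∈ range m, ψ (n + i + 1)| ≤
      m * (C * (6000 * (n : ℝ) ^ (-(1 / 30000) : ℝ))) := by
    have a1 : (m : ℝ) * ψ (n + 1) - ∑ i ∈ range m, ψ (n + i + 1) =
        ∑ i ∈ range m, (ψ (n + 1) - ψ (n + 1 + i)) := by
      rw [sum_sub_distrib, sum_const, card_range, nsmul_eq_mul]
      congr 1
      refine sum_congr rfl (fun i _ => ?_)
      congr 1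
      omega
    rw [a1]
    refine (abs_sum_le_sum_abs _ _).trans ?_
    have a2 : ∀ i ∈ range m, |ψ (n + 1) - ψ (n + 1 + i)| ≤
        C * (6000 * (n : ℝ) ^ (-(1 / 30000) : ℝ)) := by
      intro i hi
      rw [mem_range] at hi
      refine (h3 (n + 1) i (by omega) (by omega)).trans (mul_le_mul_of_nonneg_left ?_ hC)
      have b1 : (i : ℝ) ≤ m := by exact_mod_cast hi.le
      have b2 := D_bd hnR (Nat.cast_nonneg i) b1 hmle
      push_cast
      exact b2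
    refine (sum_le_sum a2).trans ?_
    rw [sum_const, card_range, nsmul_eq_mul]
  have hen : |e n| ≤ C * (n : ℝ) ^ (1 - 1 / 500 : ℝ) := h1 n hn
  have henm : |e (n + m)| ≤ 2 * (C * (n : ℝ) ^ (1 - 1 / 500 : ℝ)) := by
    refine (h1 (n + m) (by omega)).trans ?_
    have a1 : ((n + m : ℕ) : ℝ) ^ (1 - 1 / 500 : ℝ) ≤ (2 * n : ℝ) ^ (1 - 1 / 500 : ℝ) := by
      refine Real.rpow_le_rpow (Nat.cast_nonneg _) ?_ (by norm_num)
      push_cast
      linarith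
    rw [Real.mul_rpow (by norm_num) hnpos.le] at a1
    have a2 : (2 : ℝ) ^ (1 - 1 / 500 : ℝ) ≤ 2 := by
      have := Real.rpow_le_rpow_of_exponent_le (x := 2) (by norm_num)
        (show (1 - 1 / 500 : ℝ) ≤ 1 by norm_num)
      rwa [Real.rpow_one] at this
    have a3 : 0 ≤ (n : ℝ) ^ (1 - 1 / 500 : ℝ) := Real.rpow_nonneg hnpos.le _
    have a4 : ((n + m : ℕ) : ℝ) ^ (1 - 1 / 500 : ℝ) ≤ 2 * (n : ℝ) ^ (1 - 1 / 500 : ℝ) := by
      nlinarith
    nlinarith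
  have hpow : (n : ℝ) ^ (1 - 1 / 500 : ℝ) ≤ m * (n : ℝ) ^ (-(1 / 1000) : ℝ) := by
    have a1 : (n : ℝ) ^ (1 - 1 / 500 : ℝ) =
        (n : ℝ) ^ (999 / 1000 : ℝ) * (n : ℝ) ^ (-(1 / 1000) : ℝ) := by
      rw [← Real.rpow_add hnpos]
      norm_num
    rw [a1]
    exact mul_le_mul_of_nonneg_right hmge (Real.rpow_nonneg hnpos.le _)
  have hone : (1 : ℝ) ≤ m * (n : ℝ) ^ (-(999 / 1000) : ℝ) := by
    have a1 : (1 : ℝ) = (n : ℝ) ^ (999 / 1000 : ℝ) * (n : ℝ) ^ (-(999 / 1000) : ℝ) := by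
      rw [← Real.rpow_add hnpos]
      norm_num
    rw [a1]
    exact mul_le_mul_of_nonneg_right hmge (Real.rpow_nonneg hnpos.le _)
  set T : ℝ := (n : ℝ) ^ (-(1 / 30000) : ℝ) with hT
  have hT0 : 0 ≤ T := Real.rpow_nonneg hnpos.le _
  have t1 : (n : ℝ) ^ (-(1 / 1000) : ℝ) ≤ T := mono_exp hnR (by norm_num)
  have t2 : (n : ℝ) ^ (-(999 / 1000) : ℝ) ≤ T := mono_exp hnR (by norm_num)
  have t3 : (n : ℝ) ^ (-(1 / 20000) : ℝ) ≤ T := mono_exp hnR (by norm_num)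
  have p1 : (n : ℝ) ^ (1 - 1 / 500 : ℝ) ≤ m * T := hpow.trans (mul_le_mul_of_nonneg_left t1 hmpos.le)
  have p2 : (1 : ℝ) ≤ m * T := hone.trans (mul_le_mul_of_nonneg_left t2 hmpos.le)
  have p3 : m * (C * (n : ℝ) ^ (-(1 / 20000) : ℝ)) ≤ m * (C * T) :=
    mul_le_mul_of_nonneg_left (mul_le_mul_of_nonneg_left t3 hC) hmpos.le
  have p4 : C * (n : ℝ) ^ (1 - 1 / 500 : ℝ) ≤ C * (m * T) := mul_le_mul_of_nonneg_left p1 hC
  have hfin : |(m : ℝ) * (ψ (n + 1) - (1 - α))| ≤ m * ((6004 * C + 1) * T) := by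
    have a1 : (m : ℝ) * (ψ (n + 1) - (1 - α)) =
        ((m : ℝ) * ψ (n + 1) - ∑ i ∈ range m, ψ (n + i + 1)) +
          (e (n + m) - e n - ∑ i ∈ range m, d i - ∑ i ∈ range m, r i) := by
      rw [← htel]
      ring
    rw [a1]
    have b1 := abs_le.1 hψ
    have b2 := abs_le.1 hen
    have b3 := abs_le.1 henm
    have b4 := abs_le.1 hsr
    have e1 : m * ((6004 * C + 1) * T) = 6004 * (C * (m * T)) + m * T := by ring
    have e2 : m * (C * (6000 * T)) = 6000 * (C * (m * T)) := by ring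
    have e3 : m * (C * T) = C * (m * T) := by ring
    rw [e2] at b1
    rw [e3] at p3
    rw [e1, abs_le]
    obtain ⟨b11, b12⟩ := b1
    obtain ⟨b21, b22⟩ := b2
    obtain ⟨b31, b32⟩ := b3
    obtain ⟨b41, b42⟩ := b4
    constructor <;> linarith
  rw [abs_mul, abs_of_pos hmpos] at hfin
  exact le_of_mul_le_mul_left hfin hmpos

theorem numeric {q ψ : ℕ → ℝ} {α C : ℝ} {n0 : ℕ}
    (h1 : ∀ n : ℕ, 1 ≤ n → |q n - n * Real.log n + α * n| ≤ C * (n : ℝ) ^ (1 - 1 / 500 : ℝ))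
    (h2 : ∀ n : ℕ, n0 ≤ n → |q (n + 1) - q n - Real.log (n + 1) - ψ (n + 1)| ≤
      C * (n : ℝ) ^ (-(1 / 20000) : ℝ))
    (h3 : ∀ n m : ℕ, n0 ≤ n → m ≤ n → |ψ n - ψ (n + m)| ≤
      C * ((m / n : ℝ) * Real.log n) ^ (1 / 10 : ℝ)) :
    ∃ C' : ℝ, ∀ n : ℕ, 1 ≤ n → |q (n + 1) - q n - Real.log n - 1 + α| ≤
      C' * (n : ℝ) ^ (-(1 / 30000) : ℝ) := by
  have hC : 0 ≤ C := by
    have := h1 1 le_rfl
    simp only [Nat.cast_one, Real.one_rpow, mul_one] at this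
    exact (abs_nonneg _).trans this
  let S : ℝ := ∑ k ∈ range n0, |q (k + 1) - q k - Real.log k - 1 + α| * (k : ℝ) ^ (1 / 30000 : ℝ)
  refine ⟨(6005 * C + 2) + S, fun n hn => ?_⟩
  have hnR : (1 : ℝ) ≤ n := by exact_mod_cast hn
  have hnpos : (0 : ℝ) < n := by linarith
  have hT0 : 0 < (n : ℝ) ^ (-(1 / 30000) : ℝ) := Real.rpow_pos_of_pos hnpos _
  have hS0 : 0 ≤ S := sum_nonneg (fun k _ => mul_nonneg (abs_nonneg _)
    (Real.rpow_nonneg (Nat.cast_nonneg k) _))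
  by_cases hn0 : n0 ≤ n
  · have a1 := core h1 h2 h3 hC hn0 hn
    have a2 := h2 n hn0
    have a3 : Real.log (n + 1 : ℝ) - Real.log n ≤ (n : ℝ) ^ (-(1 / 30000) : ℝ) := by
      have b1 : Real.log ((n + 1 : ℝ) / n) ≤ (n + 1 : ℝ) / n - 1 :=
        Real.log_le_sub_one_of_pos (div_pos (by linarith) hnpos)
      rw [Real.log_div (by linarith) hnpos.ne'] at b1
      have b2 : (n + 1 : ℝ) / n - 1 = (n : ℝ) ^ (-1 : ℝ) := by
        rw [Real.rpow_neg_one]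
        field_simp
        ring
      rw [b2] at b1
      exact b1.trans (mono_exp hnR (by norm_num))
    have a4 : 0 ≤ Real.log (n + 1 : ℝ) - Real.log n := by
      have := Real.log_le_log hnpos (show (n : ℝ) ≤ n + 1 by linarith)
      linarith
    have a5 : (n : ℝ) ^ (-(1 / 20000) : ℝ) ≤ (n : ℝ) ^ (-(1 / 30000) : ℝ) := mono_exp hnR (by norm_num)
    have a6 : C * (n : ℝ) ^ (-(1 / 20000) : ℝ) ≤ C * (n : ℝ) ^ (-(1 / 30000) : ℝ) :=
      mul_le_mul_of_nonneg_left a5 hC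
    have b1 := abs_le.1 a1
    have b2 := abs_le.1 a2
    have b3 : 0 ≤ S * (n : ℝ) ^ (-(1 / 30000) : ℝ) := mul_nonneg hS0 hT0.le
    rw [abs_le]
    constructor <;> nlinarith
  · have hlt : n ∈ range n0 := mem_range.2 (by omega)
    have a1 : |q (n + 1) - q n - Real.log n - 1 + α| * (n : ℝ) ^ (1 / 30000 : ℝ) ≤ S :=
      single_le_sum (f := fun k : ℕ => |q (k + 1) - q k - Real.log k - 1 + α| *
        (k : ℝ) ^ (1 / 30000 : ℝ)) (fun k _ => mul_nonneg (abs_nonneg _)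
          (Real.rpow_nonneg (Nat.cast_nonneg k) _)) hlt
    have a2 : (n : ℝ) ^ (1 / 30000 : ℝ) * (n : ℝ) ^ (-(1 / 30000) : ℝ) = 1 := by
      rw [← Real.rpow_add hnpos]
      norm_num
    have a3 : |q (n + 1) - q n - Real.log n - 1 + α| ≤ S * (n : ℝ) ^ (-(1 / 30000) : ℝ) := by
      calc |q (n + 1) - q n - Real.log n - 1 + α| =
            (|q (n + 1) - q n - Real.log n - 1 + α| * (n : ℝ) ^ (1 / 30000 : ℝ)) *
              (n : ℝ) ^ (-(1 / 30000) : ℝ) := by rw [mul_assoc, a2, mul_one]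
        _ ≤ S * (n : ℝ) ^ (-(1 / 30000) : ℝ) := mul_le_mul_of_nonneg_right a1 hT0.le
    have a4 : 0 ≤ (6005 * C + 2) * (n : ℝ) ^ (-(1 / 30000) : ℝ) :=
      mul_nonneg (by linarith) hT0.le
    rw [add_mul]
    linarith

end Pool.Agent.NQR
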