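import Pool.Agent.NQR.Defs

/-!
# NQR-LAlg: the balance equations determine the probabilities (finite linear algebra)
-/

set_option autoImplicit false

open Finset

namespace Pool.Agent.NQR

open Pool.Agent.NQ (board dsum F Ent Dg phi ln Q Qset st cellD bern)

private theorem la_bal {m : ℕ} {G : Fin m → Fin m → ℝ} {u π : Fin m → ℝ}
    (hbal : ∀ b, ∑ a, π a * G a b = π b * u b) (t : Fin m → ℝ) :
    ∑ a, π a * ∑ b, G a b * t b = ∑ b, π b * u b * t b := by
  have h1 : ∀ a, π a * ∑ b, G a b * t b = ∑ b, π a * G a b * t b := by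
    intro a
    rw [mul_sum]
    refine sum_congr rfl fun b _ => ?_
    ring
  rw [sum_congr rfl fun a _ => h1 a, sum_comm]
  refine sum_congr rfl fun b _ => ?_
  rw [← sum_mul, hbal]

private theorem la_err {m n : ℕ} {G : Fin m → Fin m → ℝ} {u : Fin m → ℝ} (hG : ∀ a b, 0 ≤ G a b)
    (hGu : ∀ a, ∑ b, G a b = u a) (hun : ∀ a, u a ≤ n) (w t : Fin m → ℝ)
    (ht : ∀ b, 0 ≤ t b ∧ t b ≤ 1) : |∑ a, w a * ∑ b, G a b * t b| ≤ n * ∑ a, |w a| := by
  refine (abs_sum_le_sum_abs _ _).trans ?_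
  rw [mul_sum]
  refine sum_le_sum fun a _ => ?_
  rw [abs_mul]
  have h1 : 0 ≤ ∑ b, G a b * t b := sum_nonneg fun b _ => mul_nonneg (hG a b) (ht b).1
  have h2 : ∑ b, G a b * t b ≤ n := by
    refine le_trans ?_ (hun a)
    rw [← hGu a]
    refine sum_le_sum fun b _ => ?_
    have h3 := mul_le_mul_of_nonneg_left (ht b).2 (hG a b)
    linarith
  rw [abs_of_nonneg h1, mul_comm]
  exact mul_le_mul_of_nonneg_right h2 (abs_nonneg _)

private theorem la_dual {m : ℕ} (G : Fin m → Fin m → ℝ) (u w g : Fin m → ℝ) :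
    ∑ a, w a * (g a * u a - ∑ b, G a b * g b) = ∑ y, (w y * u y - ∑ a, w a * G a y) * g y := by
  have h1 : ∀ a, w a * (g a * u a - ∑ b, G a b * g b) =
      w a * u a * g a - ∑ b, w a * G a b * g b := by
    intro a
    rw [mul_sub, mul_sum]
    have h2 : ∑ b, w a * (G a b * g b) = ∑ b, w a * G a b * g b :=
      sum_congr rfl fun b _ => by ring
    rw [h2]
    ring
  have h3 : ∀ y, (w y * u y - ∑ a, w a * G a y) * g y =
      w y * u y * g y - ∑ a, w a * G a y * g y := by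
    intro y
    rw [sub_mul, sum_mul]
  rw [sum_congr rfl fun a _ => h1 a, sum_congr rfl fun y _ => h3 y, sum_sub_distrib,
    sum_sub_distrib]
  congr 1
  exact sum_comm

private theorem la_row {n : ℕ} {c : ℝ} (hc : 0 < c) {u : Fin (n + 1) → ℝ}
    {G : Fin (n + 1) → Fin (n + 1) → ℝ} (hG : ∀ a b, c ≤ G a b) (hGu : ∀ a, ∑ b, G a b = u a)
    (w : Fin (n + 1) → ℝ) (hw : ∑ a, w a = 0) :
    c * (n + 1) * ∑ a, |w a| ≤ ∑ y, |w y * u y - ∑ a, w a * G a y| := by
  have hu0 : ∀ y, 0 ≤ u y := by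
    intro y
    rw [← hGu y]
    exact sum_nonneg fun b _ => hc.le.trans (hG y b)
  have h1 : ∀ y, |w y| * u y ≤ |w y * u y - ∑ a, w a * G a y| + ∑ a, |w a| * (G a y - c) := by
    intro y
    have e1 : w y * u y = (w y * u y - ∑ a, w a * G a y) + ∑ a, w a * (G a y - c) := by
      have e2 : ∑ a, w a * (G a y - c) = ∑ a, w a * G a y - (∑ a, w a) * c := by
        rw [sum_mul, ← sum_sub_distrib]
        refine sum_congr rfl fun a _ => ?_
        ring
      rw [e2, hw]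
      ring
    have e3 : |w y| * u y = |w y * u y| := by rw [abs_mul, abs_of_nonneg (hu0 y)]
    rw [e3]
    conv_lhs => rw [e1]
    refine (abs_add_le _ _).trans (add_le_add le_rfl ?_)
    refine (abs_sum_le_sum_abs _ _).trans (sum_le_sum fun a _ => ?_)
    rw [abs_mul, abs_of_nonneg (sub_nonneg.2 (hG a y))]
  have h2 := sum_le_sum (s := univ) fun (y : Fin (n + 1)) _ => h1 y
  rw [sum_add_distrib] at h2
  have h3 : ∑ y, ∑ a, |w a| * (G a y - c) = ∑ a, |w a| * u a - c * (n + 1) * ∑ a, |w a| := by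
    rw [sum_comm, mul_sum, ← sum_sub_distrib]
    refine sum_congr rfl fun a _ => ?_
    rw [← mul_sum, sum_sub_distrib, hGu, sum_const, card_univ, Fintype.card_fin, nsmul_eq_mul]
    push_cast
    ring
  rw [h3] at h2
  linarith

private theorem la_nu {n : ℕ} {c η : ℝ} {u : Fin (n + 1) → ℝ}
    {G : Fin (n + 1) → Fin (n + 1) → ℝ} {π : Fin (n + 1) → ℝ} {M : Fin n → Fin (n + 1) → ℝ}
    (hG : ∀ a b, c ≤ G a b) (hGu : ∀ a, ∑ b, G a b = u a) (hc : 0 < c)
    (hπ1 : ∑ a, π a = 1) (hbal : ∀ b, ∑ a, π a * G a b = π b * u b)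
    (hiii : ∀ g : Fin n → Fin (n + 1) → ℝ, (∀ r a, 0 ≤ g r a ∧ g r a ≤ 1) →
      |∑ r, ∑ a, M r a * (g r a * u a - ∑ b, G a b * g r b)| ≤ η) :
    c * (n + 1) * ∑ r, ∑ a, |M r a - (∑ b, M r b) * π a| ≤ 2 * η := by
  classical
  obtain ⟨ν, hν⟩ : ∃ ν : Fin n → Fin (n + 1) → ℝ, ν = fun r a => M r a - (∑ b, M r b) * π a :=
    ⟨_, rfl⟩
  have hνv : ∀ r a, M r a - (∑ b, M r b) * π a = ν r a := fun r a => by rw [hν]
  have hν0 : ∀ r, ∑ a, ν r a = 0 := by
    intro r
    rw [hν]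
    simp only
    rw [sum_sub_distrib, ← mul_sum, hπ1, mul_one, sub_self]
  obtain ⟨D, hD⟩ : ∃ D : Fin n → Fin (n + 1) → ℝ,
      D = fun r y => ν r y * u y - ∑ a, ν r a * G a y := ⟨_, rfl⟩
  have hT : ∀ g : Fin n → Fin (n + 1) → ℝ, (∀ r a, 0 ≤ g r a ∧ g r a ≤ 1) →
      |∑ r, ∑ y, D r y * g r y| ≤ η := by
    intro g hg
    have h1 : ∑ r, ∑ y, D r y * g r y = ∑ r, ∑ a, M r a * (g r a * u a - ∑ b, G a b * g r b) := by
      refine sum_congr rfl fun r _ => ?_
      rw [hD]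
      simp only
      rw [← la_dual]
      have e1 : ∑ a, π a * (g r a * u a - ∑ b, G a b * g r b) = 0 := by
        have e2 : ∀ a, π a * (g r a * u a - ∑ b, G a b * g r b) =
            π a * u a * g r a - π a * ∑ b, G a b * g r b := by
          intro a
          ring
        rw [sum_congr rfl fun a _ => e2 a, sum_sub_distrib, la_bal hbal, sub_self]
      have e3 : ∀ a, ν r a * (g r a * u a - ∑ b, G a b * g r b) =
          M r a * (g r a * u a - ∑ b, G a b * g r b) -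
            (∑ b, M r b) * (π a * (g r a * u a - ∑ b, G a b * g r b)) := by
        intro a
        rw [← hνv]
        ring
      rw [sum_congr rfl fun a _ => e3 a, sum_sub_distrib, ← mul_sum, e1, mul_zero, sub_zero]
    rw [h1]
    exact hiii g hg
  have hp := hT (fun r y => if 0 < D r y then 1 else 0) (fun r a => by split_ifs <;> norm_num)
  have hm := hT (fun r y => if D r y < 0 then 1 else 0) (fun r a => by split_ifs <;> norm_num)
  have habs : ∑ r, ∑ y, |D r y| =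
      (∑ r, ∑ y, D r y * (if 0 < D r y then 1 else 0)) -
        ∑ r, ∑ y, D r y * (if D r y < 0 then 1 else 0) := by
    rw [← sum_sub_distrib]
    refine sum_congr rfl fun r _ => ?_
    rw [← sum_sub_distrib]
    refine sum_congr rfl fun y _ => ?_
    rcases lt_trichotomy (D r y) 0 with h | h | h
    · rw [if_neg (not_lt.2 h.le), if_pos h, abs_of_neg h]
      ring
    · rw [h]
      simp
    · rw [if_pos h, if_neg (not_lt.2 h.le), abs_of_pos h]
      ring
  have h2 : ∑ r, ∑ y, |D r y| ≤ 2 * η := by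
    rw [habs]
    have h3 := abs_le.1 hp
    have h4 := abs_le.1 hm
    linarith
  refine le_trans ?_ h2
  rw [mul_sum]
  refine sum_le_sum fun r _ => ?_
  simp only [hνv]
  rw [hD]
  exact la_row hc hG hGu (ν r) (hν0 r)

theorem lin_alg {n : ℕ} (hn : 1 ≤ n) {c K η η' z0 : ℝ} (hc : 0 < c) (hc1 : c ≤ 1) (hK : 1 ≤ K)
    (hη : 0 ≤ η) (hη' : 0 ≤ η') (hz0 : 0 ≤ z0)
    (u : Fin (n + 1) → ℝ) (G : Fin (n + 1) → Fin (n + 1) → ℝ) (h : Fin n → Fin (n + 1) → ℝ)
    (h0 π : Fin (n + 1) → ℝ) (M ME : Fin n → Fin (n + 1) → ℝ) (pE q : Fin (n + 1) → ℝ)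
    (hG : ∀ a b, c ≤ G a b) (hGu : ∀ a, ∑ b, G a b = u a) (hun : ∀ a, u a ≤ n)
    (hπ : ∀ a, 0 ≤ π a) (hπ1 : ∑ a, π a = 1) (hbal : ∀ b, ∑ a, π a * G a b = π b * u b)
    (hh1 : ∀ r a, 1 / K ≤ h r a ∧ h r a ≤ 1) (hh0 : ∀ a, 1 / K ≤ h0 a ∧ h0 a ≤ 1)
    (hM : ∀ r a, 0 ≤ M r a) (hM1 : (∑ r, ∑ a, M r a) + z0 = 1)
    (hME : ∀ r a, 0 ≤ ME r a ∧ ME r a ≤ M r a) (hpE : ∀ a, 0 ≤ pE a)
    (hq : ∀ a, q a = (if a = 0 then z0 else 0) + ∑ r, M r a)
    (hiii : ∀ g : Fin n → Fin (n + 1) → ℝ, (∀ r a, 0 ≤ g r a ∧ g r a ≤ 1) →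
      |∑ r, ∑ a, M r a * (g r a * u a - ∑ b, G a b * g r b)| ≤ η)
    (hii : ∀ g : Fin n → Fin (n + 1) → ℝ, (∀ r a, 0 ≤ g r a ∧ g r a ≤ 1) →
      |∑ r, ∑ a, (ME r a * (g r a * u a) - M r a * ∑ b, G a b * (h r b * g r b))| ≤ η)
    (hE : ∀ g : Fin (n + 1) → ℝ, (∀ a, 0 ≤ g a ∧ g a ≤ 1) →
      |∑ a, (pE a * (g a * u a) - q a * ∑ b, G a b * (h0 b * g b))| ≤ η)
    (hi : ∀ g : Fin n → ℝ, (∀ r, 0 ≤ g r ∧ g r ≤ 1) →
      |z0 * (∑ r, h r 0 * g r) - ∑ r, g r * ∑ a, ME r a| ≤ η') :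
    |z0 * (∑ r, h r 0 / (∑ a, π a * h r a)) - 1| ≤ 4 * K / c ^ 2 * (η / (n + 1) + η' + z0) ∧
    |(∑ a, pE a) - ∑ a, π a * h0 a| ≤ 4 * K / c ^ 2 * (η / (n + 1) + η' + z0) := by
  have hnR : (0 : ℝ) < (n : ℝ) + 1 := by positivity
  have hn0 : (0 : ℝ) ≤ (n : ℝ) := Nat.cast_nonneg n
  have hG0 : ∀ a b, 0 ≤ G a b := fun a b => hc.le.trans (hG a b)
  have hu : ∀ a, c * (n + 1) ≤ u a := by
    intro a
    rw [← hGu a]
    have h1 := sum_le_sum (s := univ) fun (b : Fin (n + 1)) _ => hG a b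
    rw [sum_const, card_univ, Fintype.card_fin, nsmul_eq_mul] at h1
    push_cast at h1
    linarith
  have hcn : 0 < c * ((n : ℝ) + 1) := mul_pos hc hnR
  have hu0 : ∀ a, 0 < u a := fun a => hcn.trans_le (hu a)
  -- the error sum
  obtain ⟨E, hE0, hEdef⟩ : ∃ E : ℝ, 0 ≤ E ∧ E = ∑ r, ∑ a, |M r a - (∑ b, M r b) * π a| :=
    ⟨_, sum_nonneg fun r _ => sum_nonneg fun a _ => abs_nonneg _, rfl⟩
  have hEb : c * (n + 1) * E ≤ 2 * η := by
    rw [hEdef]
    exact la_nu hG hGu hc hπ1 hbal hiii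
  have hnE : (n : ℝ) * E ≤ 2 * η / c := by
    rw [le_div_iff₀ hc]
    have h1 : 0 ≤ c * E := mul_nonneg hc.le hE0
    linarith
  -- hat
  have hhat : ∀ r, 1 / K ≤ ∑ a, π a * h r a := by
    intro r
    have h1 : ∑ a, π a * (1 / K) ≤ ∑ a, π a * h r a :=
      sum_le_sum fun a _ => mul_le_mul_of_nonneg_left (hh1 r a).1 (hπ a)
    rw [← sum_mul, hπ1, one_mul] at h1
    exact h1
  have hK0 : 0 < K := by linarith
  have hKi : 0 < 1 / K := by positivity
  have hhat0 : ∀ r, 0 < ∑ a, π a * h r a := fun r => hKi.trans_le (hhat r)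
  have hKh : ∀ r, 1 ≤ K * ∑ a, π a * h r a := by
    intro r
    have h1 := mul_le_mul_of_nonneg_left (hhat r) hK0.le
    rwa [mul_one_div_cancel hK0.ne'] at h1
  obtain ⟨hat, hatdef⟩ : ∃ hat : Fin n → ℝ, hat = fun r => ∑ a, π a * h r a := ⟨_, rfl⟩
  have hhv : ∀ r, ∑ a, π a * h r a = hat r := fun r => by rw [hatdef]
  simp only [hhv] at hhat hhat0 hKh ⊢
  -- (ii)
  have hA1 : |(∑ r, (∑ a, ME r a) / hat r) - ∑ r, ∑ a, M r a| ≤ K / (c * (n + 1)) * (η + 2 * η / c) := by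
    have hg : ∀ (r : Fin n) (a : Fin (n + 1)), 0 ≤ c * (n + 1) / (K * u a * hat r) ∧
        c * (n + 1) / (K * u a * hat r) ≤ 1 := by
      intro r a
      have h2 : 0 < K * u a * hat r := mul_pos (mul_pos hK0 (hu0 a)) (hhat0 r)
      refine ⟨div_nonneg hcn.le h2.le, ?_⟩
      rw [div_le_one h2]
      have h3 : u a * 1 ≤ u a * (K * hat r) := mul_le_mul_of_nonneg_left (hKh r) (hu0 a).le
      have h4 := hu a
      linarith
    have h1 := hii (fun r a => c * (n + 1) / (K * u a * hat r)) hg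
    have e1 : ∑ r, ∑ a, (ME r a * (c * (n + 1) / (K * u a * hat r) * u a) -
        M r a * ∑ b, G a b * (h r b * (c * (n + 1) / (K * u b * hat r)))) =
        c * (n + 1) / K * ((∑ r, (∑ a, ME r a) / hat r) - ∑ r, ∑ a, M r a) -
          ∑ r, ∑ a, (M r a - (∑ b, M r b) * π a) *
            ∑ b, G a b * (h r b * (c * (n + 1) / (K * u b * hat r))) := by
      rw [← sum_sub_distrib, mul_sum, ← sum_sub_distrib]
      refine sum_congr rfl fun r _ => ?_
      have e2 : ∑ a, ME r a * (c * (n + 1) / (K * u a * hat r) * u a) =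
          c * (n + 1) / K * ((∑ a, ME r a) / hat r) := by
        rw [sum_div, mul_sum]
        refine sum_congr rfl fun a _ => ?_
        have h5 := (hu0 a).ne'
        have h6 := (hhat0 r).ne'
        field_simp
      have e3 : ∑ a, π a * ∑ b, G a b * (h r b * (c * (n + 1) / (K * u b * hat r))) =
          c * (n + 1) / K := by
        rw [la_bal hbal]
        have e4 : ∀ b, π b * u b * (h r b * (c * (n + 1) / (K * u b * hat r))) =
            (π b * h r b) * (c * (n + 1) / (K * hat r)) := by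
          intro b
          have h5 := (hu0 b).ne'
          have h6 := (hhat0 r).ne'
          field_simp
        rw [sum_congr rfl fun b _ => e4 b, ← sum_mul, hhv]
        have h6 := (hhat0 r).ne'
        field_simp
      rw [sum_sub_distrib, e2]
      have e5 : ∑ a, (M r a - (∑ b, M r b) * π a) *
            ∑ b, G a b * (h r b * (c * (n + 1) / (K * u b * hat r))) =
          ∑ a, M r a * ∑ b, G a b * (h r b * (c * (n + 1) / (K * u b * hat r))) -
            (∑ b, M r b) * (c * (n + 1) / K) := by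
        rw [← e3, mul_sum, ← sum_sub_distrib]
        refine sum_congr rfl fun a _ => ?_
        ring
      rw [e5]
      ring
    rw [e1] at h1
    have h2 : |∑ r, ∑ a, (M r a - (∑ b, M r b) * π a) *
            ∑ b, G a b * (h r b * (c * (n + 1) / (K * u b * hat r)))| ≤ n * E := by
      rw [hEdef, mul_sum]
      refine (abs_sum_le_sum_abs _ _).trans (sum_le_sum fun r _ => ?_)
      refine la_err hG0 hGu hun _ _ fun b => ⟨mul_nonneg (hKi.le.trans (hh1 r b).1) (hg r b).1, ?_⟩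
      exact mul_le_one₀ (hh1 r b).2 (hg r b).1 (hg r b).2
    have h3 : |c * (n + 1) / K * ((∑ r, (∑ a, ME r a) / hat r) - ∑ r, ∑ a, M r a)| ≤
        η + 2 * η / c := by
      have h4 := abs_sub_abs_le_abs_sub (c * (n + 1) / K * ((∑ r, (∑ a, ME r a) / hat r) -
        ∑ r, ∑ a, M r a)) (∑ r, ∑ a, (M r a - (∑ b, M r b) * π a) *
            ∑ b, G a b * (h r b * (c * (n + 1) / (K * u b * hat r))))
      linarith
    have h5 : 0 < c * (n + 1) / K := by positivity
    rw [abs_mul, abs_of_pos h5] at h3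
    have h6 : |(∑ r, (∑ a, ME r a) / hat r) - ∑ r, ∑ a, M r a| ≤
        (η + 2 * η / c) / (c * (n + 1) / K) := by
      rw [le_div_iff₀ h5]
      linarith
    refine h6.trans (le_of_eq ?_)
    field_simp
  -- (i)
  have hA2 : |z0 * (∑ r, h r 0 / hat r) - ∑ r, (∑ a, ME r a) / hat r| ≤ K * η' := by
    have hg : ∀ r : Fin n, 0 ≤ 1 / (K * hat r) ∧ 1 / (K * hat r) ≤ 1 := by
      intro r
      have h2 : 0 < K * hat r := mul_pos hK0 (hhat0 r)
      refine ⟨by positivity, ?_⟩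
      rw [div_le_one h2]
      exact hKh r
    have h1 := hi (fun r => 1 / (K * hat r)) hg
    have e1 : z0 * (∑ r, h r 0 * (1 / (K * hat r))) - ∑ r, 1 / (K * hat r) * ∑ a, ME r a =
        1 / K * (z0 * (∑ r, h r 0 / hat r) - ∑ r, (∑ a, ME r a) / hat r) := by
      have e2 : ∀ r, h r 0 * (1 / (K * hat r)) = 1 / K * (h r 0 / hat r) := by
        intro r
        have h6 := (hhat0 r).ne'
        field_simp
      have e3 : ∀ r, 1 / (K * hat r) * ∑ a, ME r a = 1 / K * ((∑ a, ME r a) / hat r) := by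
        intro r
        have h6 := (hhat0 r).ne'
        field_simp
      rw [sum_congr rfl fun r _ => e2 r, sum_congr rfl fun r _ => e3 r, ← mul_sum, ← mul_sum]
      ring
    rw [e1, abs_mul, abs_of_pos hKi] at h1
    have h2 := mul_le_mul_of_nonneg_left h1 hK0.le
    rw [← mul_assoc, mul_one_div_cancel hK0.ne', one_mul] at h2
    exact h2
  have hnum1 : K / (c * (n + 1)) * (η + 2 * η / c) ≤ 3 * K / c ^ 2 * (η / (n + 1)) := by
    have e1 : 3 * K / c ^ 2 * (η / (n + 1)) = K / (c * (n + 1)) * (3 * (η / c)) := by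
      field_simp
    rw [e1]
    refine mul_le_mul_of_nonneg_left ?_ (by positivity)
    have h1 : η ≤ η / c := by
      rw [le_div_iff₀ hc]
      nlinarith
    have e2 : 2 * η / c = 2 * (η / c) := by ring
    rw [e2]
    linarith
  have hKc : K ≤ K / c ^ 2 := by
    rw [le_div_iff₀ (by positivity)]
    have h1 : c ^ 2 ≤ 1 := by nlinarith
    nlinarith
  have h1c : 1 ≤ 1 / c := by
    rw [le_div_iff₀ hc]
    linarith
  have h1cc : 1 / c ≤ 1 / c ^ 2 := by
    rw [div_le_div_iff₀ hc (by positivity)]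
    nlinarith
  have hcK : 1 / c ^ 2 ≤ K / c ^ 2 := div_le_div_of_nonneg_right hK (by positivity)
  have e4 : 4 * K / c ^ 2 * (η / (n + 1) + η' + z0) =
      4 * (K / c ^ 2) * (η / (n + 1)) + 4 * (K / c ^ 2) * η' + 4 * (K / c ^ 2) * z0 := by ring
  have e3 : 3 * K / c ^ 2 * (η / (n + 1)) = 3 * (K / c ^ 2) * (η / (n + 1)) := by ring
  have hη1 : 0 ≤ η / ((n : ℝ) + 1) := by positivity
  have hP : 1 ≤ K / c ^ 2 := by linarith
  refine ⟨?_, ?_⟩
  · have h1 : z0 * (∑ r, h r 0 / hat r) - 1 =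
        (z0 * (∑ r, h r 0 / hat r) - ∑ r, (∑ a, ME r a) / hat r) +
        ((∑ r, (∑ a, ME r a) / hat r) - ∑ r, ∑ a, M r a) - z0 := by
      linarith
    rw [h1, e4]
    have h2 := abs_le.1 hA1
    have h3 := abs_le.1 hA2
    rw [e3] at hnum1
    have h4 : 0 ≤ (K / c ^ 2) * (η / (n + 1)) := mul_nonneg (by linarith) hη1
    have h5 : K * η' ≤ K / c ^ 2 * η' := mul_le_mul_of_nonneg_right hKc hη'
    have h6 : 1 * z0 ≤ K / c ^ 2 * z0 := mul_le_mul_of_nonneg_right hP hz0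
    have h7 : 0 ≤ K * η' := mul_nonneg hK0.le hη'
    rw [abs_le]
    constructor <;> linarith
  · have hqE : ∑ a, |q a - π a| ≤ E + 2 * z0 := by
      have h1 : ∀ a, q a - π a = ((if a = 0 then z0 else 0) - z0 * π a) +
          ∑ r, (M r a - (∑ b, M r b) * π a) := by
        intro a
        rw [hq a, sum_sub_distrib, ← sum_mul]
        have h2 : ∑ r, ∑ b, M r b = 1 - z0 := by linarith
        rw [h2]
        ring
      have h2 : ∑ a, |q a - π a| ≤ ∑ a, (((if a = 0 then z0 else 0) + z0 * π a) +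
          ∑ r, |M r a - (∑ b, M r b) * π a|) := by
        refine sum_le_sum fun a _ => ?_
        rw [h1 a]
        refine (abs_add_le _ _).trans (add_le_add ?_ (abs_sum_le_sum_abs _ _))
        have h3 : 0 ≤ (if a = 0 then z0 else 0) := by
          split_ifs
          · exact hz0
          · exact le_rfl
        have h4 : 0 ≤ z0 * π a := mul_nonneg hz0 (hπ a)
        rw [abs_le]
        constructor <;> linarith
      refine h2.trans (le_of_eq ?_)
      rw [sum_add_distrib, sum_add_distrib, ← mul_sum, hπ1, sum_ite_eq' univ (0 : Fin (n + 1)),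
        if_pos (mem_univ _), hEdef, sum_comm]
      ring
    have hg : ∀ a : Fin (n + 1), 0 ≤ c * (n + 1) / u a ∧ c * (n + 1) / u a ≤ 1 := by
      intro a
      refine ⟨div_nonneg hcn.le (hu0 a).le, ?_⟩
      rw [div_le_one (hu0 a)]
      exact hu a
    have h1 := hE (fun a => c * (n + 1) / u a) hg
    have e1 : ∑ a, (pE a * (c * (n + 1) / u a * u a) -
        q a * ∑ b, G a b * (h0 b * (c * (n + 1) / u b))) =
        c * (n + 1) * ((∑ a, pE a) - ∑ a, π a * h0 a) -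
          ∑ a, (q a - π a) * ∑ b, G a b * (h0 b * (c * (n + 1) / u b)) := by
      have e2 : ∑ a, pE a * (c * (n + 1) / u a * u a) = c * (n + 1) * ∑ a, pE a := by
        rw [mul_sum]
        refine sum_congr rfl fun a _ => ?_
        rw [div_mul_cancel₀ _ (hu0 a).ne']
        ring
      have e3 : ∑ a, π a * ∑ b, G a b * (h0 b * (c * (n + 1) / u b)) =
          c * (n + 1) * ∑ a, π a * h0 a := by
        rw [la_bal hbal, mul_sum]
        refine sum_congr rfl fun b _ => ?_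
        have h5 := (hu0 b).ne'
        field_simp
      rw [sum_sub_distrib, e2]
      have e5 : ∑ a, (q a - π a) * ∑ b, G a b * (h0 b * (c * (n + 1) / u b)) =
          ∑ a, q a * ∑ b, G a b * (h0 b * (c * (n + 1) / u b)) - c * (n + 1) * ∑ a, π a * h0 a := by
        rw [← e3, ← sum_sub_distrib]
        refine sum_congr rfl fun a _ => ?_
        ring
      rw [e5]
      ring
    rw [e1] at h1
    have h2 : |∑ a, (q a - π a) * ∑ b, G a b * (h0 b * (c * (n + 1) / u b))| ≤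
        n * (E + 2 * z0) := by
      refine (la_err hG0 hGu hun _ _ fun b => ⟨mul_nonneg (hKi.le.trans (hh0 b).1) (hg b).1, ?_⟩).trans
        (mul_le_mul_of_nonneg_left hqE hn0)
      exact mul_le_one₀ (hh0 b).2 (hg b).1 (hg b).2
    have h3 : |c * (n + 1) * ((∑ a, pE a) - ∑ a, π a * h0 a)| ≤
        η + 2 * η / c + 2 * (n + 1) * z0 := by
      have h4 := abs_sub_abs_le_abs_sub (c * (n + 1) * ((∑ a, pE a) - ∑ a, π a * h0 a))
        (∑ a, (q a - π a) * ∑ b, G a b * (h0 b * (c * (n + 1) / u b)))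
      linarith
    rw [abs_mul, abs_of_pos hcn] at h3
    have h6 : |(∑ a, pE a) - ∑ a, π a * h0 a| ≤
        (η + 2 * η / c + 2 * (n + 1) * z0) / (c * (n + 1)) := by
      rw [le_div_iff₀ hcn]
      linarith
    refine h6.trans ?_
    have e6 : (η + 2 * η / c + 2 * (n + 1) * z0) / (c * (n + 1)) =
        1 / c * (η / (n + 1)) + 2 * (1 / c ^ 2) * (η / (n + 1)) + 2 * (1 / c) * z0 := by
      field_simp
    rw [e6, e4]
    have h7 : 1 / c * (η / (n + 1)) ≤ K / c ^ 2 * (η / (n + 1)) :=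
      mul_le_mul_of_nonneg_right (by linarith) hη1
    have h8 : 1 / c ^ 2 * (η / (n + 1)) ≤ K / c ^ 2 * (η / (n + 1)) :=
      mul_le_mul_of_nonneg_right hcK hη1
    have h9 : 1 / c * z0 ≤ K / c ^ 2 * z0 := mul_le_mul_of_nonneg_right (by linarith) hz0
    have h10 : 0 ≤ K / c ^ 2 * η' := mul_nonneg (by linarith) hη'
    have h11 : 0 ≤ (K / c ^ 2) * (η / (n + 1)) := mul_nonneg (by linarith) hη1
    have h12 : 0 ≤ K / c ^ 2 * z0 := mul_nonneg (by linarith) hz0
    linarith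

end Pool.Agent.NQR
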