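import Pool.Agent.NQR.Defs
import Pool.Agent.NQR.SL1b
import Pool.Agent.NQR.TMgf

/-!
# NQR-TFin: all statistics are concentrated

Configurations that are not typical are counted by `level1`; for the typical ones Markov's
inequality with `mgf`, `θ = ± z^(-6)`.
-/

set_option autoImplicit false

open Finset

namespace Pool.Agent.NQR

open Pool.Agent.NQ (board dsum F Ent Dg phi ln Q Qset st cellD bern)

private theorem markov {ι : Type} (s : Finset ι) (f : ι → ℝ) (K t u : ℝ)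
    (h : ∑ Y ∈ s, Real.exp (f Y) ≤ K * Real.exp u) (p : ι → Prop) [DecidablePred p]
    (hp : ∀ Y ∈ s, p Y → t ≤ f Y) : ((s.filter p).card : ℝ) ≤ K * Real.exp (u - t) := by
  have h1 : ((s.filter p).card : ℝ) * Real.exp t ≤ ∑ Y ∈ s, Real.exp (f Y) := by
    calc ((s.filter p).card : ℝ) * Real.exp t = ∑ Y ∈ s.filter p, Real.exp t := by
          rw [sum_const, nsmul_eq_mul]
      _ ≤ ∑ Y ∈ s.filter p, Real.exp (f Y) :=
          sum_le_sum fun Y hY => Real.exp_le_exp.2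
            (hp Y (mem_filter.1 hY).1 (mem_filter.1 hY).2)
      _ ≤ ∑ Y ∈ s, Real.exp (f Y) :=
          sum_le_sum_of_subset_of_nonneg (filter_subset _ _) fun _ _ _ => (Real.exp_pos _).le
  have h2 := h1.trans h
  rw [Real.exp_sub, ← mul_div_assoc, le_div_iff₀ (Real.exp_pos t)]
  exact h2

theorem level2 (L : ℝ) (hL : 1 ≤ L) : ∃ z0 : ℕ, ∀ z n : ℕ, z0 ≤ z → InR z (n + 1) →
    ∀ (W : ℤ × ℤ → ℝ) (A B : ℤ → ℝ), Rf L (n + 1) W A B → 0 < (Ys n).card →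
    F (n + 1) W - (n + 1) - (n + 1) / (z : ℝ) ^ 39 ≤ Real.log (Ys n).card →
    Lev n W ((n + 1) / (z : ℝ)) (Real.exp (-((n + 1) / (z : ℝ) ^ 40))) := by
  classical
  obtain ⟨z1, h1⟩ := level1 L hL
  obtain ⟨C, z2, hC, h2⟩ := mgf L hL
  refine ⟨max (max z1 z2) (max 3 ⌈2 * C⌉₊), fun z n hz hR W A B hRf hpos hF a r hr g hg => ?_⟩
  have hz1 : z1 ≤ z := le_trans (le_trans (le_max_left _ _) (le_max_left _ _)) hz
  have hz2 : z2 ≤ z := le_trans (le_trans (le_max_right _ _) (le_max_left _ _)) hz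
  have hz3 : 3 ≤ z := le_trans (le_trans (le_max_left _ _) (le_max_right _ _)) hz
  have hz4 : ⌈2 * C⌉₊ ≤ z := le_trans (le_trans (le_max_right _ _) (le_max_right _ _)) hz
  have hzr : (3 : ℝ) ≤ z := by exact_mod_cast hz3
  have hz0 : (0 : ℝ) < z := by linarith
  have hzC : 2 * C ≤ z := (Nat.le_ceil _).trans (by exact_mod_cast hz4)
  have hn0 : (0 : ℝ) < (n : ℝ) + 1 := by positivity
  have hlev := h1 z n hz1 hR W A B hRf hpos hF
  have hplus := h2 z n hz2 hR W A B hRf hpos hF a r hr g hg (1 / (z : ℝ) ^ 6) (Or.inl rfl)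
  have hminus := h2 z n hz2 hR W A B hRf hpos hF a r hr g hg (-(1 / (z : ℝ) ^ 6)) (Or.inr rfl)
  obtain ⟨T, hT⟩ : ∃ T : Finset (Fin n → Fin (n + 1)), T = (Ys n).filter
      (fun Y => dev (n + 1) W (ll z (n + 1)) (occ Y) ≤ (n + 1) / (z : ℝ) ^ 18) := ⟨_, rfl⟩
  rw [← hT] at hplus hminus
  obtain ⟨tr, htr⟩ : ∃ tr : ℝ, tr = TR n W a r g := ⟨_, rfl⟩
  rw [← htr] at hplus hminus
  have hN7 : ((n : ℝ) + 1) / (z : ℝ) * (1 / (z : ℝ) ^ 6) = (n + 1) / (z : ℝ) ^ 7 := by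
    field_simp
  have hcp := markov T (fun Y => 1 / (z : ℝ) ^ 6 * TT Y a r g) _
    (1 / (z : ℝ) ^ 6 * tr + (n + 1) / (z : ℝ) ^ 7) _ hplus
    (fun Y => (n + 1) / (z : ℝ) < TT Y a r g - tr) (by
      intro Y _ hY
      have h3 : 1 / (z : ℝ) ^ 6 * (tr + (n + 1) / (z : ℝ)) ≤ 1 / (z : ℝ) ^ 6 * TT Y a r g :=
        mul_le_mul_of_nonneg_left (by linarith) (by positivity)
      have h4 : 1 / (z : ℝ) ^ 6 * (tr + (n + 1) / (z : ℝ)) =
          1 / (z : ℝ) ^ 6 * tr + (n + 1) / (z : ℝ) ^ 7 := by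
        rw [← hN7]; ring
      rw [h4] at h3
      exact h3)
  have hcm := markov T (fun Y => -(1 / (z : ℝ) ^ 6) * TT Y a r g) _
    (-(1 / (z : ℝ) ^ 6) * tr + (n + 1) / (z : ℝ) ^ 7) _ hminus
    (fun Y => (n + 1) / (z : ℝ) < tr - TT Y a r g) (by
      intro Y _ hY
      have h3 : 1 / (z : ℝ) ^ 6 * ((n + 1) / (z : ℝ) - tr) ≤ 1 / (z : ℝ) ^ 6 * (- TT Y a r g) :=
        mul_le_mul_of_nonneg_left (by linarith) (by positivity)
      have h4 : 1 / (z : ℝ) ^ 6 * ((n + 1) / (z : ℝ) - tr) =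
          -(1 / (z : ℝ) ^ 6) * tr + (n + 1) / (z : ℝ) ^ 7 := by
        rw [← hN7]; ring
      rw [h4] at h3
      show _ ≤ -(1 / (z : ℝ) ^ 6) * TT Y a r g
      linarith)
  have e1 : 1 / (z : ℝ) ^ 6 * tr + C * (n + 1) / (z : ℝ) ^ 8 -
      (1 / (z : ℝ) ^ 6 * tr + (n + 1) / (z : ℝ) ^ 7) =
      C * (n + 1) / (z : ℝ) ^ 8 - (n + 1) / (z : ℝ) ^ 7 := by ring
  have e2 : -(1 / (z : ℝ) ^ 6) * tr + C * (n + 1) / (z : ℝ) ^ 8 -
      (-(1 / (z : ℝ) ^ 6) * tr + (n + 1) / (z : ℝ) ^ 7) =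
      C * (n + 1) / (z : ℝ) ^ 8 - (n + 1) / (z : ℝ) ^ 7 := by ring
  rw [e1] at hcp
  rw [e2] at hcm
  -- numerical comparison
  have hexpo : C * (n + 1) / (z : ℝ) ^ 8 - (n + 1) / (z : ℝ) ^ 7 ≤ -((n + 1) / (z : ℝ) ^ 39) := by
    have h3 : C * (n + 1) / (z : ℝ) ^ 8 ≤ (n + 1) / (z : ℝ) ^ 7 / 2 := by
      rw [div_div, div_le_div_iff₀ (by positivity) (by positivity)]
      have h4 : C * (n + 1) * ((z : ℝ) ^ 7 * 2) = (2 * C) * ((n + 1) * (z : ℝ) ^ 7) := by ring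
      have h5 : (n + 1) * (z : ℝ) ^ 8 = z * ((n + 1) * (z : ℝ) ^ 7) := by ring
      rw [h4, h5]
      exact mul_le_mul_of_nonneg_right hzC (by positivity)
    have h6 : (n + 1) / (z : ℝ) ^ 39 ≤ (n + 1) / (z : ℝ) ^ 7 / 2 := by
      rw [div_div]
      apply div_le_div_of_nonneg_left hn0.le (by positivity)
      have h7 : (2 : ℝ) ≤ (z : ℝ) ^ 32 := by
        calc (2 : ℝ) ≤ z := by linarith
          _ ≤ (z : ℝ) ^ 32 := le_self_pow₀ (by linarith) (by norm_num)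
      calc (z : ℝ) ^ 7 * 2 ≤ (z : ℝ) ^ 7 * (z : ℝ) ^ 32 :=
            mul_le_mul_of_nonneg_left h7 (by positivity)
        _ = (z : ℝ) ^ 39 := by ring
    linarith
  have h3exp : 3 * Real.exp (-((n + 1) / (z : ℝ) ^ 39)) ≤ Real.exp (-((n + 1) / (z : ℝ) ^ 40)) := by
    have h4 : (1 : ℝ) ≤ (n + 1) / (z : ℝ) ^ 40 := by
      rw [le_div_iff₀ (by positivity), one_mul]
      have h5 : (z ^ 40) ^ 500 ≤ n + 1 := hR.1
      have h6 : z ^ 40 ≤ (z ^ 40) ^ 500 := Nat.le_self_pow (by norm_num) _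
      have h7 : z ^ 40 ≤ n + 1 := h6.trans h5
      exact_mod_cast h7
    have h8 : ((n : ℝ) + 1) / (z : ℝ) ^ 39 = z * ((n + 1) / (z : ℝ) ^ 40) := by
      field_simp
    have h9 : 2 + -((n + 1) / (z : ℝ) ^ 39) ≤ -((n + 1) / (z : ℝ) ^ 40) := by
      rw [h8]
      nlinarith
    calc 3 * Real.exp (-((n + 1) / (z : ℝ) ^ 39))
        ≤ Real.exp 2 * Real.exp (-((n + 1) / (z : ℝ) ^ 39)) := by
          refine mul_le_mul_of_nonneg_right ?_ (Real.exp_pos _).le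
          have := Real.add_one_le_exp (2 : ℝ)
          linarith
      _ = Real.exp (2 + -((n + 1) / (z : ℝ) ^ 39)) := (Real.exp_add _ _).symm
      _ ≤ _ := Real.exp_le_exp.2 h9
  have hYs : (0 : ℝ) ≤ (Ys n).card := Nat.cast_nonneg _
  have hcp' : ((T.filter (fun Y => (n + 1) / (z : ℝ) < TT Y a r g - tr)).card : ℝ) ≤
      (Ys n).card * Real.exp (-((n + 1) / (z : ℝ) ^ 39)) :=
    hcp.trans (mul_le_mul_of_nonneg_left (Real.exp_le_exp.2 hexpo) hYs)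
  have hcm' : ((T.filter (fun Y => (n + 1) / (z : ℝ) < tr - TT Y a r g)).card : ℝ) ≤
      (Ys n).card * Real.exp (-((n + 1) / (z : ℝ) ^ 39)) :=
    hcm.trans (mul_le_mul_of_nonneg_left (Real.exp_le_exp.2 hexpo) hYs)
  -- the union bound
  have hsub : (Ys n).filter (fun Y => (n + 1) / (z : ℝ) < |TT Y a r g - TR n W a r g|) ⊆
      ((Ys n).filter (fun Y => (n + 1) / (z : ℝ) ^ 18 < dev (n + 1) W (ll z (n + 1)) (occ Y))) ∪
      ((T.filter (fun Y => (n + 1) / (z : ℝ) < TT Y a r g - tr)) ∪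
        (T.filter (fun Y => (n + 1) / (z : ℝ) < tr - TT Y a r g))) := by
    intro Y hY
    obtain ⟨hY1, hY2⟩ := mem_filter.1 hY
    rw [← htr] at hY2
    rcases lt_or_ge ((n + 1) / (z : ℝ) ^ 18) (dev (n + 1) W (ll z (n + 1)) (occ Y)) with h5 | h5
    · exact mem_union_left _ (mem_filter.2 ⟨hY1, h5⟩)
    · refine mem_union_right _ ?_
      have hYT : Y ∈ T := by
        rw [hT]
        exact mem_filter.2 ⟨hY1, h5⟩
      rcases lt_abs.1 hY2 with h6 | h6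
      · exact mem_union_left _ (mem_filter.2 ⟨hYT, h6⟩)
      · refine mem_union_right _ (mem_filter.2 ⟨hYT, ?_⟩)
        linarith
  have hcard := (card_le_card hsub).trans ((card_union_le _ _).trans
    (Nat.add_le_add_left (card_union_le _ _) _))
  have hcard' : (((Ys n).filter (fun Y => (n + 1) / (z : ℝ) < |TT Y a r g - TR n W a r g|)).card : ℝ) ≤
      (((Ys n).filter (fun Y => (n + 1) / (z : ℝ) ^ 18 < dev (n + 1) W (ll z (n + 1)) (occ Y))).card : ℝ) +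
      (((T.filter (fun Y => (n + 1) / (z : ℝ) < TT Y a r g - tr)).card : ℝ) +
        ((T.filter (fun Y => (n + 1) / (z : ℝ) < tr - TT Y a r g)).card : ℝ)) := by
    exact_mod_cast hcard
  refine hcard'.trans ?_
  calc _ ≤ Real.exp (-((n + 1) / (z : ℝ) ^ 39)) * (Ys n).card +
        ((Ys n).card * Real.exp (-((n + 1) / (z : ℝ) ^ 39)) +
          (Ys n).card * Real.exp (-((n + 1) / (z : ℝ) ^ 39))) :=
        add_le_add hlev (add_le_add hcp' hcm')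
    _ = (3 * Real.exp (-((n + 1) / (z : ℝ) ^ 39))) * (Ys n).card := by ring
    _ ≤ Real.exp (-((n + 1) / (z : ℝ) ^ 40)) * (Ys n).card :=
        mul_le_mul_of_nonneg_right h3exp hYs

end Pool.Agent.NQR
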