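import Pool.Agent.NQR.Defs
import Pool.Agent.NQR.BalB
import Pool.Agent.NQR.LAlg
import Pool.Agent.NQR.YCnt
import Pool.Agent.NQR.TFin
import Pool.Agent.NQR.PLow

/-!
# NQR-LFin: the ratio `Q(n+1)/Q(n)`

PLAN. `N = n + 1`. `low` for the board `N` (`Adm`, `Bd` from `Rf`) and `le_card`: `0 < Q N ≤ |Ys n|`, hence the hypothesis of `level2`, so
`Lev n W (N/z) (exp (-N/z^40))`, and `(N)^9 exp (-N/z^40) ≤ 1` for large `z`. Let `z0 = pr (hole = 0)`.
* `rel_i` with `g = 1`: `z0 (∑_r hh (ro r) 0 - N/z) ≤ 1 + 1`, `∑ hh ≥ n/L²`: `z0 ≤ 4 L²/n`.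
* `lin_alg` with `c = 1/(2 L³)`, `K = L²`, `u = uu`, `G = GG`, `h r a = hh (ro r) (cl a)`, `h0 a = hh 0 (cl a)`, `π a = B (cl a)/∑ B`,
  `M, ME, pE, q` the probabilities (`mass_M`), `η = 3 N/z`, `η' = (N/z) z0 + 1/N ≤ 5 L²/z`. `hbal`: `∑_a B a hh(k,a) A k = 1` for each
  row `k` (row sum of `W`), so `∑_a π a GG a b = (∑ B)⁻¹ ∑_k W(k,b) (∑_a B a hh (k,a)) = (∑ B)⁻¹ ∑_k B b hh(k,b) = π b uu b`.
* `∑_a π a h r a = 1/(A (ro r) ∑B)`, `∑_a π a h0 a = 1/(A 0 ∑B)`, `∑_r h r 0/hat r = (∑B) ∑_r hh (ro r) 0 A (ro r) = (∑B)(1 - W(0,0))/B 0`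
  (column `0` of `W`).
* So `z0 = (B 0/∑B)(1 + O(1/z))`, `∑ pE = (1/(A 0 ∑B))(1 + O(1/z))` and by `card_free`, `card_zero`
  `Q(n+1)/Q(n) = ∑ pE/z0 = (1/(A 0 B 0))(1 + O(1/z))`.
-/

set_option autoImplicit false

open Finset

namespace Pool.Agent.NQR

open Pool.Agent.NQ (board dsum F Ent Dg phi ln Q Qset st cellD bern)

private theorem lf_cl_mem {n : ℕ} (b : Fin (n + 1)) : 0 ≤ cl b ∧ cl b < ((n + 1 : ℕ) : ℤ) := by
  unfold cl
  have := b.2
  omega

private theorem lf_ro_mem {n : ℕ} (i : Fin n) : 0 ≤ ro i ∧ ro i < ((n + 1 : ℕ) : ℤ) := by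
  unfold ro
  have := i.2
  omega

private theorem lf_row {n : ℕ} (W : ℤ × ℤ → ℝ) {x : ℤ} (hx : 0 ≤ x ∧ x < ((n + 1 : ℕ) : ℤ)) :
    ∑ b : Fin (n + 1), W (x, cl b) = dsum (n + 1) W 0 x := by
  unfold dsum
  refine Finset.sum_bij (fun b _ => (x, cl b)) ?_ ?_ ?_ ?_
  · intro b _
    rw [mem_filter, NQ.mem_board]
    exact ⟨⟨hx, lf_cl_mem b⟩, rfl⟩
  · intro b _ b' _ h
    have h1 : cl b = cl b' := congrArg Prod.snd h
    unfold cl at h1
    exact Fin.ext (by omega)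
  · intro e he
    rw [mem_filter, NQ.mem_board] at he
    obtain ⟨⟨_, h2⟩, h3⟩ := he
    have h4 : e.1 = x := h3
    refine ⟨⟨e.2.toNat, by omega⟩, mem_univ _, ?_⟩
    refine Prod.ext h4.symm ?_
    show ((e.2.toNat : ℕ) : ℤ) = e.2
    omega
  · intro b _
    rfl

private theorem lf_col {n : ℕ} (W : ℤ × ℤ → ℝ) {y : ℤ} (hy : 0 ≤ y ∧ y < ((n + 1 : ℕ) : ℤ)) :
    ∑ b : Fin (n + 1), W (cl b, y) = dsum (n + 1) W 1 y := by
  unfold dsum
  refine Finset.sum_bij (fun b _ => (cl b, y)) ?_ ?_ ?_ ?_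
  · intro b _
    rw [mem_filter, NQ.mem_board]
    exact ⟨⟨lf_cl_mem b, hy⟩, rfl⟩
  · intro b _ b' _ h
    have h1 : cl b = cl b' := congrArg Prod.fst h
    unfold cl at h1
    exact Fin.ext (by omega)
  · intro e he
    rw [mem_filter, NQ.mem_board] at he
    obtain ⟨⟨h2, _⟩, h3⟩ := he
    have h4 : e.2 = y := h3
    refine ⟨⟨e.1.toNat, by omega⟩, mem_univ _, ?_⟩
    refine Prod.ext ?_ h4.symm
    show ((e.1.toNat : ℕ) : ℤ) = e.1
    omega
  · intro b _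
    rfl

private theorem lf_hS {L : ℝ} {n : ℕ} {W : ℤ × ℤ → ℝ} (hL : 1 ≤ L) (hW : Adm (n + 1) W)
    (hB : Bd L (n + 1) W) (x y : ℤ) : 1 / L ^ 2 ≤ hh (n + 1) W x y ∧ hh (n + 1) W x y ≤ 1 := by
  have h0 : ∀ k s, 0 ≤ dsum (n + 1) W k s := fun k s => Finset.sum_nonneg fun e _ => hW.nn e
  have h1 := hB.sd (x + y)
  have h2 := hB.dd (x - y)
  have h3 : hS (n + 1) W (x + y) ≤ 1 := by
    unfold hS
    linarith [h0 2 (x + y)]
  have h4 : hD (n + 1) W (x - y) ≤ 1 := by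
    unfold hD
    linarith [h0 3 (x - y)]
  have hL0 : 0 < 1 / L := by positivity
  unfold hh
  constructor
  · have h5 : 1 / L ^ 2 = 1 / L * (1 / L) := by
      rw [div_mul_div_comm, one_mul, pow_two]
    rw [h5]
    exact mul_le_mul h1 h2 hL0.le (hL0.le.trans h1)
  · exact mul_le_one₀ h3 (hL0.le.trans h2) h4

private theorem lf_rowB {L : ℝ} {n : ℕ} {W : ℤ × ℤ → ℝ} {A B : ℤ → ℝ} (R : Rf L (n + 1) W A B)
    {x : ℤ} (hx : 0 ≤ x ∧ x < ((n + 1 : ℕ) : ℤ)) :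
    A x * ∑ a : Fin (n + 1), B (cl a) * hh (n + 1) W x (cl a) = 1 := by
  rw [← R.adm.row x hx.1 hx.2, ← lf_row W hx, Finset.mul_sum]
  refine Finset.sum_congr rfl fun a _ => ?_
  rw [R.el (x, cl a) (NQ.mem_board.2 ⟨hx, lf_cl_mem a⟩)]
  ring

private theorem lf_colA {L : ℝ} {n : ℕ} {W : ℤ × ℤ → ℝ} {A B : ℤ → ℝ} (R : Rf L (n + 1) W A B) :
    B 0 * ∑ r : Fin n, A (ro r) * hh (n + 1) W (ro r) 0 = 1 - W (0, 0) := by
  have hy : (0 : ℤ) ≤ 0 ∧ (0 : ℤ) < ((n + 1 : ℕ) : ℤ) := ⟨le_refl _, by omega⟩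
  have h1 := R.adm.col 0 hy.1 hy.2
  rw [← lf_col W hy, Fin.sum_univ_succ] at h1
  have h2 : cl (0 : Fin (n + 1)) = 0 := rfl
  rw [h2] at h1
  have h3 : ∀ r : Fin n, W (cl r.succ, 0) = B 0 * (A (ro r) * hh (n + 1) W (ro r) 0) := by
    intro r
    have h4 : cl r.succ = ro r := by
      unfold cl ro
      rw [Fin.val_succ]
      push_cast
      rfl
    rw [h4, R.el (ro r, 0) (NQ.mem_board.2 ⟨lf_ro_mem r, hy⟩)]
    ring
  rw [Finset.mul_sum, ← Finset.sum_congr rfl fun r _ => h3 r]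
  linarith

private theorem lf_pr {n : ℕ} (E : (Fin n → Fin (n + 1)) → Prop) [DecidablePred E] :
    pr n E = (((Ys n).filter E).card : ℝ) / (Ys n).card := by
  unfold pr av
  congr 1
  rw [← Finset.sum_boole]
  refine Finset.sum_congr rfl fun Y _ => ?_
  by_cases h : E Y
  · rw [if_pos h]
    exact if_pos h
  · rw [if_neg h]
    exact if_neg h

private theorem lf_pr_nonneg {n : ℕ} (E : (Fin n → Fin (n + 1)) → Prop) : 0 ≤ pr n E := by
  classical
  rw [lf_pr]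
  positivity

private theorem lf_pr_mono {n : ℕ} {E E' : (Fin n → Fin (n + 1)) → Prop} (h : ∀ Y, E Y → E' Y) :
    pr n E ≤ pr n E' := by
  classical
  rw [lf_pr, lf_pr]
  refine div_le_div_of_nonneg_right ?_ (Nat.cast_nonneg _)
  exact_mod_cast Finset.card_le_card fun Y hY =>
    mem_filter.2 ⟨(mem_filter.1 hY).1, h Y (mem_filter.1 hY).2⟩

private theorem lf_pr_sum {n : ℕ} (P : (Fin n → Fin (n + 1)) → Fin (n + 1) → Prop) :
    ∑ a, pr n (fun Y => hole Y = a ∧ P Y a) = pr n (fun Y => P Y (hole Y)) := by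
  classical
  simp only [lf_pr]
  rw [← Finset.sum_div]
  congr 1
  rw [← Nat.cast_sum]
  congr 1
  rw [Finset.card_eq_sum_card_fiberwise (f := hole) (t := Finset.univ) (fun _ _ => mem_univ _)]
  refine Finset.sum_congr rfl fun a _ => ?_
  congr 1
  ext Y
  simp only [mem_filter]
  constructor
  · rintro ⟨h1, h2, h3⟩
    exact ⟨⟨h1, by rw [h2]; exact h3⟩, h2⟩
  · rintro ⟨⟨h1, h2⟩, h3⟩
    exact ⟨h1, h3, by rw [← h3]; exact h2⟩

private theorem lf_abs_log {t : ℝ} (h : |t - 1| ≤ 1 / 2) : |Real.log t| ≤ 2 * |t - 1| := by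
  have h1 := abs_le.1 h
  have ht : 0 < t := by linarith
  have h2 := Real.log_le_sub_one_of_pos ht
  have h3 := Real.one_sub_inv_le_log_of_pos ht
  have h4 : 1 - t⁻¹ = (t - 1) * t⁻¹ := by
    rw [sub_mul, mul_inv_cancel₀ ht.ne', one_mul]
  have h5 : t⁻¹ ≤ 2 := by
    rw [inv_le_comm₀ ht (by norm_num)]
    linarith
  have h6 : 0 < t⁻¹ := inv_pos.2 ht
  have h7 : -(2 * |t - 1|) ≤ 1 - t⁻¹ := by
    rw [h4]
    have h8 : -|t - 1| ≤ t - 1 := neg_abs_le _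
    have h9 : 0 ≤ |t - 1| := abs_nonneg _
    nlinarith
  rw [abs_le]
  constructor
  · linarith
  · linarith [le_abs_self (t - 1), abs_nonneg (t - 1)]

private theorem lf_log_ratio {ze PE S A0 B0 w e K : ℝ} (hze : 0 ≤ ze) (hS : 0 < S) (hA : 0 < A0)
    (hB : 0 < B0) (hw : 0 ≤ w) (hw2 : w ≤ 1 / 2) (he : 0 ≤ e) (hK : 1 ≤ K) (hKe : K * e ≤ 1 / 2)
    (hAS : A0 * S ≤ K) (h1 : |ze * (S * (1 - w) / B0) - 1| ≤ e) (h2 : |PE - 1 / (A0 * S)| ≤ e) :
    0 < ze ∧ 0 < PE ∧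
      |Real.log PE - Real.log ze + Real.log (A0 * B0)| ≤ 2 * K * e + 2 * e + 2 * w := by
  have he2 : e ≤ 1 / 2 := by nlinarith
  have hX := abs_le.1 h1
  have hze0 : 0 < ze := by
    rcases hze.eq_or_lt with h | h
    · rw [← h, zero_mul] at hX
      linarith
    · exact h
  have hw1 : 0 < 1 - w := by linarith
  have hASp : 0 < A0 * S := mul_pos hA hS
  have h3 : |PE * (A0 * S) - 1| ≤ K * e := by
    have h4 : PE * (A0 * S) - 1 = (PE - 1 / (A0 * S)) * (A0 * S) := by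
      rw [sub_mul, one_div, inv_mul_cancel₀ hASp.ne']
    rw [h4, abs_mul, abs_of_pos hASp, mul_comm K e]
    exact mul_le_mul h2 hAS hASp.le he
  have hPE : 0 < PE := by
    have h4 := abs_le.1 (h3.trans hKe)
    by_contra hn
    rw [not_lt] at hn
    have : PE * (A0 * S) ≤ 0 := mul_nonpos_of_nonpos_of_nonneg hn hASp.le
    linarith
  refine ⟨hze0, hPE, ?_⟩
  have hl1 := lf_abs_log (h1.trans he2)
  have hl2 := lf_abs_log (h3.trans hKe)
  have hl3 : |Real.log (1 - w)| ≤ 2 * w := by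
    have h5 : |(1 - w) - 1| = w := by
      rw [show (1 - w) - 1 = -w by ring, abs_neg, abs_of_nonneg hw]
    have := lf_abs_log (t := 1 - w) (by rw [h5]; exact hw2)
    rwa [h5] at this
  have e1 : Real.log (ze * (S * (1 - w) / B0)) =
      Real.log ze + (Real.log S + Real.log (1 - w) - Real.log B0) := by
    rw [Real.log_mul hze0.ne' (by positivity), Real.log_div (by positivity) hB.ne',
      Real.log_mul hS.ne' hw1.ne']
  have e2 : Real.log (PE * (A0 * S)) = Real.log PE + (Real.log A0 + Real.log S) := by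
    rw [Real.log_mul hPE.ne' hASp.ne', Real.log_mul hA.ne' hS.ne']
  have e3 : Real.log (A0 * B0) = Real.log A0 + Real.log B0 := Real.log_mul hA.ne' hB.ne'
  have e4 : Real.log PE - Real.log ze + Real.log (A0 * B0) =
      Real.log (PE * (A0 * S)) - Real.log (ze * (S * (1 - w) / B0)) + Real.log (1 - w) := by
    rw [e1, e2, e3]
    ring
  rw [e4]
  have a1 := abs_le.1 (hl1.trans (mul_le_mul_of_nonneg_left h1 (by norm_num)))
  have a2 := abs_le.1 (hl2.trans (mul_le_mul_of_nonneg_left h3 (by norm_num)))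
  have a3 := abs_le.1 hl3
  rw [abs_le]
  constructor
  · nlinarith [a1.1, a1.2, a2.1, a2.2, a3.1, a3.2]
  · nlinarith [a1.1, a1.2, a2.1, a2.2, a3.1, a3.2]

private theorem lf_exp {z N : ℝ} (hz : (Nat.factorial 19 : ℝ) ≤ z) (hN : z ^ 20000 ≤ N) :
    N ^ 9 * Real.exp (-(N / z ^ 40)) ≤ 1 := by
  have hz1 : 1 ≤ z := by
    have : (1 : ℝ) ≤ (Nat.factorial 19 : ℝ) := by exact_mod_cast Nat.succ_le_of_lt (Nat.factorial_pos 19)
    linarith
  have hz0 : 0 < z := by linarith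
  have hz40 : 0 < z ^ 40 := by positivity
  obtain ⟨t, ht⟩ : ∃ t, t = N / z ^ 40 := ⟨_, rfl⟩
  have h1 : z ^ 19960 ≤ t := by
    rw [ht, le_div_iff₀ hz40, ← pow_add]
    exact hN
  have h2 : z ^ 40 ≤ t := (pow_le_pow_right₀ hz1 (by norm_num)).trans h1
  have h3 : z ≤ t := by
    have : z ^ 1 ≤ z ^ 19960 := pow_le_pow_right₀ hz1 (by norm_num)
    rw [pow_one] at this
    exact this.trans h1
  have ht0 : 0 < t := lt_of_lt_of_le hz0 h3
  have hNt : N = t * z ^ 40 := by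
    rw [ht, div_mul_cancel₀ _ hz40.ne']
  have h4 : N ≤ t ^ 2 := by
    rw [hNt, pow_two]
    exact mul_le_mul_of_nonneg_left h2 ht0.le
  have hN0 : 0 ≤ N := by rw [hNt]; positivity
  have h5 : N ^ 9 ≤ t ^ 18 := by
    calc N ^ 9 ≤ (t ^ 2) ^ 9 := pow_le_pow_left₀ hN0 h4 9
      _ = t ^ 18 := by rw [← pow_mul]
  have h6 := Real.pow_div_factorial_le_exp t ht0.le 19
  rw [← ht, Real.exp_neg, ← div_eq_mul_inv, div_le_one (Real.exp_pos t)]
  refine h5.trans (le_trans ?_ h6)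
  have hf : (0 : ℝ) < (Nat.factorial 19 : ℝ) := by exact_mod_cast Nat.factorial_pos 19
  rw [le_div_iff₀ hf, pow_succ t 18]
  exact mul_le_mul_of_nonneg_left (hz.trans h3) (by positivity)

/-- numerical part: the errors -/
private theorem lf_err {L Z N n ze δ : ℝ} (hL : 1 ≤ L) (hZ : 1 ≤ Z) (hN : Z ≤ N)
    (hnN : N ≤ 2 * n) (hδ : 0 ≤ δ) (hδ9 : N ^ 9 * δ ≤ 1) (hze : 0 ≤ ze)
    (hz : n * ze ≤ 4 * L ^ 2) :
    4 * L ^ 2 / (1 / (2 * L ^ 3)) ^ 2 *
      ((2 * (N / Z) + 2 * N ^ 4 * δ + 3 + n * ze) / N + (N / Z * ze + N ^ 2 * δ) + ze) ≤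
      448 * L ^ 10 / Z := by
  have hL0 : 0 < L := by linarith
  have hZ0 : 0 < Z := by linarith
  have hN1 : 1 ≤ N := hZ.trans hN
  have hN0 : 0 < N := by linarith
  have hL2 : 1 ≤ L ^ 2 := one_le_pow₀ hL
  have e0 : 4 * L ^ 2 / (1 / (2 * L ^ 3)) ^ 2 = 16 * L ^ 8 := by
    field_simp
    ring
  have hinv : 1 / N ≤ 1 / Z := one_div_le_one_div_of_le hZ0 hN
  have hinv0 : 0 < 1 / N := by positivity
  have hNze : N * ze ≤ 8 * L ^ 2 := by
    have h1 := mul_le_mul_of_nonneg_right hnN hze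
    linarith
  have h3 : ze ≤ 8 * L ^ 2 * (1 / Z) := by
    have h4 : ze = N * ze * (1 / N) := by field_simp
    rw [h4]
    exact mul_le_mul hNze hinv hinv0.le (by positivity)
  have h5 : N / Z * ze ≤ 8 * L ^ 2 * (1 / Z) := by
    have h4 : N / Z * ze = N * ze * (1 / Z) := by field_simp
    rw [h4]
    exact mul_le_mul_of_nonneg_right hNze (by positivity)
  have h6 : N ^ 4 * δ ≤ 1 := by
    refine le_trans ?_ hδ9
    exact mul_le_mul_of_nonneg_right (pow_le_pow_right₀ hN1 (by norm_num)) hδ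
  have h7 : N ^ 2 * δ ≤ 1 / Z := by
    have h8 : N ^ 3 * δ ≤ 1 := by
      refine le_trans ?_ hδ9
      exact mul_le_mul_of_nonneg_right (pow_le_pow_right₀ hN1 (by norm_num)) hδ
    have h9 : N ^ 2 * δ = N ^ 3 * δ * (1 / N) := by field_simp
    rw [h9]
    calc N ^ 3 * δ * (1 / N) ≤ 1 * (1 / Z) := mul_le_mul h8 hinv hinv0.le (by norm_num)
      _ = 1 / Z := one_mul _
  have h10 : (2 * (N / Z) + 2 * N ^ 4 * δ + 3 + n * ze) / N ≤ 11 * L ^ 2 * (1 / Z) := by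
    have h11 : (2 * (N / Z) + 2 * N ^ 4 * δ + 3 + n * ze) / N =
        2 * (1 / Z) + (2 * (N ^ 4 * δ) + 3 + n * ze) * (1 / N) := by
      field_simp
      ring
    rw [h11]
    have h12 : (2 * (N ^ 4 * δ) + 3 + n * ze) * (1 / N) ≤ (9 * L ^ 2) * (1 / Z) := by
      refine mul_le_mul ?_ hinv hinv0.le (by positivity)
      linarith
    have h13 : 0 < 1 / Z := by positivity
    nlinarith
  rw [e0]
  have h14 : 0 < 1 / Z := by positivity
  have h15 : (2 * (N / Z) + 2 * N ^ 4 * δ + 3 + n * ze) / N + (N / Z * ze + N ^ 2 * δ) + ze ≤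
      28 * L ^ 2 * (1 / Z) := by nlinarith
  calc 16 * L ^ 8 * ((2 * (N / Z) + 2 * N ^ 4 * δ + 3 + n * ze) / N + (N / Z * ze + N ^ 2 * δ) + ze)
      ≤ 16 * L ^ 8 * (28 * L ^ 2 * (1 / Z)) := mul_le_mul_of_nonneg_left h15 (by positivity)
    _ = 448 * L ^ 10 / Z := by ring

theorem ratio (L : ℝ) (hL : 1 ≤ L) : ∃ (C : ℝ) (z0 : ℕ), 1 ≤ C ∧ ∀ z n : ℕ, z0 ≤ z → InR z (n + 1) →
    ∀ (W : ℤ × ℤ → ℝ) (A B : ℤ → ℝ), Rf L (n + 1) W A B →
      0 < Q n ∧ 0 < Q (n + 1) ∧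
      |Real.log (Q (n + 1)) - Real.log (Q n) + Real.log (A 0 * B 0)| ≤ C / z := by
  classical
  obtain ⟨z1, hz1⟩ := low L hL
  obtain ⟨z2, hz2⟩ := level2 L hL
  have hL0 : 0 < L := by linarith
  have hL12 : 1 ≤ L ^ 12 := one_le_pow₀ hL
  refine ⟨2000 * L ^ 12, max (max z1 z2) (max ⌈896 * L ^ 12⌉₊ (Nat.factorial 19)), by linarith, ?_⟩
  intro z n hz hR W A B R
  have hzz1 : z1 ≤ z := (le_max_left _ _).trans ((le_max_left _ _).trans hz)
  have hzz2 : z2 ≤ z := (le_max_right _ _).trans ((le_max_left _ _).trans hz)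
  have hz3 : ⌈896 * L ^ 12⌉₊ ≤ z := (le_max_left _ _).trans ((le_max_right _ _).trans hz)
  have hz4 : Nat.factorial 19 ≤ z := (le_max_right _ _).trans ((le_max_right _ _).trans hz)
  have hZ3 : 896 * L ^ 12 ≤ (z : ℝ) := (Nat.le_ceil _).trans (by exact_mod_cast hz3)
  have hZ4 : (Nat.factorial 19 : ℝ) ≤ (z : ℝ) := by exact_mod_cast hz4
  have hz1' : 1 ≤ z := le_trans (Nat.factorial_pos 19) hz4
  have hZ1 : (1 : ℝ) ≤ z := by exact_mod_cast hz1'
  have hZ0 : (0 : ℝ) < z := by linarith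
  obtain ⟨N, hNdef⟩ : ∃ N : ℝ, N = (n : ℝ) + 1 := ⟨_, rfl⟩
  have hNc : ((n + 1 : ℕ) : ℝ) = N := by rw [hNdef]; push_cast; rfl
  have hzN : (z : ℝ) ^ 20000 ≤ N := by
    have h1 : (z ^ 40) ^ 500 ≤ n + 1 := hR.1
    rw [← pow_mul] at h1
    rw [← hNc]
    exact_mod_cast h1
  have hZN : (z : ℝ) ≤ N := by
    have : (z : ℝ) ^ 1 ≤ (z : ℝ) ^ 20000 := pow_le_pow_right₀ hZ1 (by norm_num)
    rw [pow_one] at this
    exact this.trans hzN
  have hN2 : 2 ≤ N := by linarith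
  have hn1r : (1 : ℝ) ≤ n := by rw [hNdef] at hN2; linarith
  have hn1 : 1 ≤ n := by exact_mod_cast hn1r
  have hn0 : (0 : ℝ) < n := by linarith
  have hN0 : 0 < N := by linarith
  -- the concentration of the statistics
  obtain ⟨hQ1, hlow⟩ := hz1 z (n + 1) hzz1 hR W R.adm R.bd
  have hYle := le_card n
  have hY : 0 < (Ys n).card := lt_of_lt_of_le hQ1 hYle
  have hYr : (0 : ℝ) < (Ys n).card := by exact_mod_cast hY
  have hLev : Lev n W (N / z) (Real.exp (-(N / (z : ℝ) ^ 40))) := by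
    rw [hNdef]
    refine hz2 z n hzz2 hR W A B R hY ?_
    have h1 : Real.log (Q (n + 1)) ≤ Real.log (Ys n).card :=
      Real.log_le_log (by exact_mod_cast hQ1) (by exact_mod_cast hYle)
    have h2 := hlow
    rw [hNc, hNdef] at h2
    exact h2.trans h1
  obtain ⟨δ, hδdef⟩ : ∃ δ, δ = Real.exp (-(N / (z : ℝ) ^ 40)) := ⟨_, rfl⟩
  have hδ : 0 ≤ δ := by rw [hδdef]; exact (Real.exp_pos _).le
  have hδ9 : N ^ 9 * δ ≤ 1 := by rw [hδdef]; exact lf_exp hZ4 hzN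
  rw [← hδdef] at hLev
  have hε : 0 ≤ N / z := by positivity
  -- bounds
  have hhb := lf_hS hL R.adm R.bd
  have hW0 : ∀ e, 0 ≤ W e := R.adm.nn
  obtain ⟨ze, hze⟩ : ∃ ze, ze = pr n (fun Y => hole Y = 0) := ⟨_, rfl⟩
  have hze0 : 0 ≤ ze := by rw [hze]; exact lf_pr_nonneg _
  obtain ⟨hm1, hm2, hm3⟩ := mass_M hY
  have hcl0 : cl (0 : Fin (n + 1)) = 0 := rfl
  have hrel1 : ∀ g : Fin n → ℝ, (∀ r, 0 ≤ g r ∧ g r ≤ 1) →
      |ze * (∑ r, hh (n + 1) W (ro r) (cl (0 : Fin (n + 1))) * g r) - ∑ r, g r *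
        ∑ a, pr n (fun Y => Y r = 0 ∧ hole Y = a ∧ Fr (occ Y) (ro r) (cl a))| ≤
        N / z * ze + N ^ 2 * δ := by
    intro g hg
    rw [hze, hcl0, hNdef]
    have := rel_i hn1 R.adm R.bd hε hδ hLev hY g hg
    rwa [hNdef] at this
  -- the probability that the hole is zero
  have hnze : n * ze ≤ 4 * L ^ 2 := by
    have h1 := hrel1 (fun _ => 1) fun _ => ⟨zero_le_one, le_refl _⟩
    simp only [mul_one, one_mul] at h1
    have h2 : ∑ r, ∑ a, pr n (fun Y => Y r = 0 ∧ hole Y = a ∧ Fr (occ Y) (ro r) (cl a)) ≤ 1 := by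
      have h3 : ∑ r, ∑ a, pr n (fun Y => Y r = 0 ∧ hole Y = a ∧ Fr (occ Y) (ro r) (cl a)) ≤
          ∑ r, ∑ a, pr n (fun Y => Y r = 0 ∧ hole Y = a) :=
        Finset.sum_le_sum fun r _ => Finset.sum_le_sum fun a _ =>
          lf_pr_mono fun Y h => ⟨h.1, h.2.1⟩
      rw [← hze] at hm1
      linarith
    have h3 : n * (1 / L ^ 2) ≤ ∑ r : Fin n, hh (n + 1) W (ro r) (cl (0 : Fin (n + 1))) := by
      have h4 := Finset.card_nsmul_le_sum (Finset.univ : Finset (Fin n))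
        (fun r => hh (n + 1) W (ro r) (cl (0 : Fin (n + 1)))) (1 / L ^ 2) fun r _ => (hhb _ _).1
      rw [Finset.card_univ, Fintype.card_fin, nsmul_eq_mul] at h4
      exact h4
    have h4 := (abs_le.1 h1).2
    have h5 : N ^ 2 * δ ≤ 1 := by
      refine le_trans ?_ hδ9
      exact mul_le_mul_of_nonneg_right (pow_le_pow_right₀ (by linarith) (by norm_num)) hδ
    have h6 : ze * (n * (1 / L ^ 2)) ≤ ze * ∑ r : Fin n, hh (n + 1) W (ro r) (cl (0 : Fin (n + 1))) :=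
      mul_le_mul_of_nonneg_left h3 hze0
    have h7 : N / z ≤ n * (1 / (2 * L ^ 2)) := by
      have h8 : 4 * L ^ 2 ≤ z := by
        have h9 : L ^ 2 ≤ L ^ 12 := pow_le_pow_right₀ hL (by norm_num)
        linarith
      rw [div_le_iff₀ hZ0]
      have h9 : (n : ℝ) * (1 / (2 * L ^ 2)) * z ≥ n * (1 / (2 * L ^ 2)) * (4 * L ^ 2) :=
        mul_le_mul_of_nonneg_left h8 (by positivity)
      have h10 : (n : ℝ) * (1 / (2 * L ^ 2)) * (4 * L ^ 2) = 2 * n := by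
        field_simp
        ring
      linarith
    have h8 : N / z * ze ≤ n * (1 / (2 * L ^ 2)) * ze := mul_le_mul_of_nonneg_right h7 hze0
    have h9 : (n : ℝ) * ze * (1 / (2 * L ^ 2)) ≤ 2 := by
      have h10 : ze * (n * (1 / L ^ 2)) = 2 * (n * ze * (1 / (2 * L ^ 2))) := by
        field_simp
      have h11 : (n : ℝ) * (1 / (2 * L ^ 2)) * ze = n * ze * (1 / (2 * L ^ 2)) := by ring
      linarith
    rw [mul_one_div, div_le_iff₀ (by positivity)] at h9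
    linarith
  -- the linear algebra
  obtain ⟨SB, hSB⟩ : ∃ SB, SB = ∑ a : Fin (n + 1), B (cl a) := ⟨_, rfl⟩
  have hBp : ∀ x : ℤ, 0 ≤ x → x < ((n + 1 : ℕ) : ℤ) → 0 < B x := by
    intro x h1 h2
    refine lt_of_lt_of_le ?_ (R.B1 x h1 h2)
    rw [hNc]
    positivity
  have hAp : ∀ x : ℤ, 0 ≤ x → x < ((n + 1 : ℕ) : ℤ) → 0 < A x := by
    intro x h1 h2
    refine lt_of_lt_of_le ?_ (R.A1 x h1 h2)
    rw [hNc]
    positivity
  have hSB0 : 0 < SB := by
    rw [hSB]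
    exact Finset.sum_pos (fun a _ => hBp _ (lf_cl_mem a).1 (lf_cl_mem a).2) ⟨0, mem_univ _⟩
  have h0m : (0 : ℤ) ≤ 0 ∧ (0 : ℤ) < ((n + 1 : ℕ) : ℤ) := ⟨le_refl _, by omega⟩
  have hpi : ∀ x : ℤ, 0 ≤ x → x < ((n + 1 : ℕ) : ℤ) →
      ∑ a : Fin (n + 1), B (cl a) / SB * hh (n + 1) W x (cl a) = 1 / (A x * SB) := by
    intro x h1 h2
    have h3 := lf_rowB R ⟨h1, h2⟩
    have hA := hAp x h1 h2
    have h4 : ∑ a : Fin (n + 1), B (cl a) / SB * hh (n + 1) W x (cl a) =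
        (∑ a : Fin (n + 1), B (cl a) * hh (n + 1) W x (cl a)) / SB := by
      rw [Finset.sum_div]
      exact Finset.sum_congr rfl fun a _ => by ring
    rw [h4, eq_div_iff (by positivity), div_mul_eq_mul_div, div_eq_iff hSB0.ne', one_mul]
    calc (∑ a : Fin (n + 1), B (cl a) * hh (n + 1) W x (cl a)) * (A x * SB)
        = (A x * ∑ a : Fin (n + 1), B (cl a) * hh (n + 1) W x (cl a)) * SB := by ring
      _ = SB := by rw [h3, one_mul]
  have hnN : N ≤ 2 * n := by rw [hNdef]; linarith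
  have hL3 : 1 ≤ L ^ 3 := one_le_pow₀ hL
  have hL2 : 1 ≤ L ^ 2 := one_le_pow₀ hL
  have hlin := lin_alg hn1 (c := 1 / (2 * L ^ 3)) (K := L ^ 2)
    (η := 2 * (N / z) + 2 * N ^ 4 * δ + 3 + n * ze) (η' := N / z * ze + N ^ 2 * δ) (z0 := ze)
    (by positivity) (by rw [div_le_one (by positivity)]; linarith) hL2 (by positivity)
    (by positivity) hze0 (uu n W) (GG n W) (fun r a => hh (n + 1) W (ro r) (cl a))
    (fun a => hh (n + 1) W 0 (cl a)) (fun a => B (cl a) / SB)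
    (fun r a => pr n (fun Y => Y r = 0 ∧ hole Y = a))
    (fun r a => pr n (fun Y => Y r = 0 ∧ hole Y = a ∧ Fr (occ Y) (ro r) (cl a)))
    (fun a => pr n (fun Y => hole Y = a ∧ Fr (occ Y) 0 (cl a)))
    (fun a => pr n (fun Y => hole Y = a))
    (by -- hG
      intro a b
      unfold GG
      have h1 : ∀ k : Fin n, 1 / L ^ 2 * (1 / (L * N)) ≤
          hh (n + 1) W (ro k) (cl a) * W (ro k, cl b) := by
        intro k
        refine mul_le_mul (hhb _ _).1 ?_ (by positivity) (le_trans (by positivity) (hhb _ _).1)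
        have := R.bd.lo (ro k, cl b) (NQ.mem_board.2 ⟨lf_ro_mem k, lf_cl_mem b⟩)
        rwa [hNc] at this
      have h2 := Finset.card_nsmul_le_sum (Finset.univ : Finset (Fin n))
        (fun k => hh (n + 1) W (ro k) (cl a) * W (ro k, cl b)) _ fun k _ => h1 k
      rw [Finset.card_univ, Fintype.card_fin, nsmul_eq_mul] at h2
      refine le_trans ?_ h2
      have h3 : (n : ℝ) * (1 / L ^ 2 * (1 / (L * N))) = n / (L ^ 3 * N) := by
        field_simp
      rw [h3, div_le_div_iff₀ (by positivity) (by positivity)]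
      nlinarith)
    (by -- hGu
      intro a
      unfold GG uu
      rw [Finset.sum_comm]
      refine Finset.sum_congr rfl fun k _ => ?_
      rw [← Finset.mul_sum, lf_row W (lf_ro_mem k), R.adm.row _ (lf_ro_mem k).1 (lf_ro_mem k).2,
        mul_one])
    (by -- hun
      intro a
      unfold uu
      have h2 := Finset.sum_le_card_nsmul (Finset.univ : Finset (Fin n))
        (fun k => hh (n + 1) W (ro k) (cl a)) 1 fun k _ => (hhb _ _).2
      rw [Finset.card_univ, Fintype.card_fin, nsmul_eq_mul, mul_one] at h2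
      exact h2)
    (by -- hπ
      intro a
      exact div_nonneg (hBp _ (lf_cl_mem a).1 (lf_cl_mem a).2).le hSB0.le)
    (by -- hπ1
      rw [← Finset.sum_div, ← hSB, div_self hSB0.ne'])
    (by -- hbal
      intro b
      unfold GG uu
      simp only [Finset.mul_sum]
      rw [Finset.sum_comm]
      refine Finset.sum_congr rfl fun k _ => ?_
      have h1 : ∀ a : Fin (n + 1), B (cl a) / SB * (hh (n + 1) W (ro k) (cl a) * W (ro k, cl b)) =
          W (ro k, cl b) * (B (cl a) / SB * hh (n + 1) W (ro k) (cl a)) := fun a => by ring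
      simp only [h1]
      rw [← Finset.mul_sum, hpi _ (lf_ro_mem k).1 (lf_ro_mem k).2,
        R.el (ro k, cl b) (NQ.mem_board.2 ⟨lf_ro_mem k, lf_cl_mem b⟩)]
      have hA := hAp _ (lf_ro_mem k).1 (lf_ro_mem k).2
      field_simp)
    (fun r a => hhb _ _) (fun a => hhb _ _) (fun r a => lf_pr_nonneg _)
    (by rw [hze]; exact hm1)
    (fun r a => ⟨lf_pr_nonneg _, lf_pr_mono fun Y h => ⟨h.1, h.2.1⟩⟩) (fun a => lf_pr_nonneg _)
    (by -- hq
      intro a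
      by_cases ha : a = 0
      · subst ha
        rw [if_pos rfl, Finset.sum_eq_zero fun r _ => hm2 r, add_zero, hze]
      · rw [if_neg ha, zero_add]
        exact hm3 a ha)
    (by -- hiii
      intro g hg
      have := rel_iii hn1 R.adm R.bd hε hδ hLev hY g hg
      rwa [← hze, ← hNdef] at this)
    (by -- hii
      intro g hg
      have := rel_ii hn1 R.adm R.bd hε hδ hLev hY g hg
      rwa [← hze, ← hNdef] at this)
    (by -- hE
      intro g hg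
      have := rel_E hn1 R.adm R.bd hε hδ hLev hY g hg
      rw [← hNdef] at this
      refine this.trans ?_
      have : 0 ≤ n * ze := by positivity
      linarith)
    hrel1
  rw [← hNdef] at hlin
  have herr := lf_err hL hZ1 hZN hnN hδ hδ9 hze0 hnze
  obtain ⟨hl1, hl2⟩ := hlin
  have hl1' := hl1.trans herr
  have hl2' := hl2.trans herr
  rw [lf_pr_sum (fun Y a => Fr (occ Y) 0 (cl a)), hpi 0 h0m.1 h0m.2] at hl2'
  have hsum : ∑ r : Fin n, hh (n + 1) W (ro r) (cl (0 : Fin (n + 1))) /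
      (∑ a : Fin (n + 1), B (cl a) / SB * hh (n + 1) W (ro r) (cl a)) =
      SB * (1 - W (0, 0)) / B 0 := by
    have hB0 := hBp 0 h0m.1 h0m.2
    rw [← lf_colA R, eq_div_iff hB0.ne', Finset.sum_mul, Finset.mul_sum, Finset.mul_sum]
    refine Finset.sum_congr rfl fun r _ => ?_
    rw [hpi _ (lf_ro_mem r).1 (lf_ro_mem r).2, hcl0]
    have hA := hAp _ (lf_ro_mem r).1 (lf_ro_mem r).2
    field_simp
  rw [hsum] at hl1'
  have hAS : A 0 * SB ≤ L ^ 2 := by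
    have h1 := lf_rowB R h0m
    have h2 : SB * (1 / L ^ 2) ≤ ∑ a : Fin (n + 1), B (cl a) * hh (n + 1) W 0 (cl a) := by
      rw [hSB, Finset.sum_mul]
      exact Finset.sum_le_sum fun a _ => mul_le_mul_of_nonneg_left (hhb _ _).1
        (hBp _ (lf_cl_mem a).1 (lf_cl_mem a).2).le
    have h3 : A 0 * (SB * (1 / L ^ 2)) ≤ 1 :=
      (mul_le_mul_of_nonneg_left h2 (hAp 0 h0m.1 h0m.2).le).trans h1.le
    rw [← mul_assoc, mul_one_div, div_le_one (by positivity)] at h3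
    exact h3
  have hw : W (0, 0) ≤ L / z := by
    have h1 := R.bd.hi (0, 0) (NQ.mem_board.2 ⟨h0m, h0m⟩)
    rw [hNc] at h1
    exact h1.trans (div_le_div_of_nonneg_left hL0.le hZ0 hZN)
  have hLL : L ≤ L ^ 12 := by
    calc L = L ^ 1 := (pow_one L).symm
      _ ≤ L ^ 12 := pow_le_pow_right₀ hL (by norm_num)
  have hL10 : L ^ 10 ≤ L ^ 12 := pow_le_pow_right₀ hL (by norm_num)
  have hw2 : W (0, 0) ≤ 1 / 2 := by
    refine hw.trans ?_
    rw [div_le_div_iff₀ hZ0 (by norm_num)]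
    linarith
  have hKe : L ^ 2 * (448 * L ^ 10 / z) ≤ 1 / 2 := by
    have h1 : L ^ 2 * (448 * L ^ 10 / z) = 448 * L ^ 12 / z := by ring
    rw [h1, div_le_div_iff₀ hZ0 (by norm_num)]
    linarith
  obtain ⟨hf1, hf2, hf3⟩ := lf_log_ratio hze0 hSB0 (hAp 0 h0m.1 h0m.2) (hBp 0 h0m.1 h0m.2)
    (hW0 _) hw2 (by positivity) hL2 hKe hAS hl1' hl2'
  have hPEq : pr n (fun Y => Fr (occ Y) 0 (cl (hole Y))) = (Q (n + 1) : ℝ) / (Ys n).card := by
    rw [lf_pr, card_free]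
  have hZEq : ze = (Q n : ℝ) / (Ys n).card := by
    rw [hze, lf_pr, card_zero]
  have hQn : (0 : ℝ) < Q n := by
    rw [hZEq] at hf1
    by_contra hcon
    rw [not_lt] at hcon
    exact absurd hf1 (not_lt.2 (div_nonpos_of_nonpos_of_nonneg hcon hYr.le))
  have hQn1 : (0 : ℝ) < Q (n + 1) := by exact_mod_cast hQ1
  refine ⟨by exact_mod_cast hQn, hQ1, ?_⟩
  rw [hPEq, hZEq, Real.log_div hQn1.ne' hYr.ne', Real.log_div hQn.ne' hYr.ne'] at hf3
  have h1 : Real.log (Q (n + 1)) - Real.log (Ys n).card - (Real.log (Q n) - Real.log (Ys n).card) +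
      Real.log (A 0 * B 0) = Real.log (Q (n + 1)) - Real.log (Q n) + Real.log (A 0 * B 0) := by ring
  rw [h1] at hf3
  refine hf3.trans ?_
  have h2 : 2 * L ^ 2 * (448 * L ^ 10 / z) + 2 * (448 * L ^ 10 / z) + 2 * W (0, 0) ≤
      (896 * L ^ 12 + 896 * L ^ 10 + 2 * L) / z := by
    have h3 : (896 * L ^ 12 + 896 * L ^ 10 + 2 * L) / (z : ℝ) =
        2 * L ^ 2 * (448 * L ^ 10 / z) + 2 * (448 * L ^ 10 / z) + 2 * (L / z) := by ring
    rw [h3]
    linarith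
  refine h2.trans (div_le_div_of_nonneg_right ?_ hZ0.le)
  linarith

end Pool.Agent.NQR
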