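import Pool.Agent.NQR.Defs
import Pool.Agent.NQR.PFoc
import Pool.Agent.NQ.APhi

/-!
# NQR-PExt: from the board of size `N` to the board of size `N + m`

PLAN. `ε = 2 L m / N` (small as `m ≤ c N`). `X (x,y) = W (min x (N-1), min y (N-1))` on `board (N+m)`. Row and column
sums of `X` are in `[1, 1 + L m/N]`, those of `(1-ε) X` in `[1-ε, 1-ε/2]`. Deficits `r_x`, `c_y ∈ [ε/2, ε]`, total
deficit `S = ∑ r_x = ∑ c_y ≥ ε N/2`. `V = (1-ε) X + r_x c_y / S`: row and column sums one, the added entries are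
`≤ 2 ε/N`. So `|V - W| ≤ ε L/N + 2 ε/N` on `board N`: sum `≤ (L + 2) ε N = C m`. Diagonal sums of `V` are at most
those of `W` plus `2 m L/N` (squares with `x ≥ N` or `y ≥ N`, at most `2m` per diagonal) plus `(N+m) 2 ε/N`:
`≤ 1 - 1/(2L)` for `c` small. `F`: `Ent (N+m) V ≥ Ent N W - C m log N`: on `board N`, `|negMulLog V - negMulLog W| ≤
|V - W| (|log| + 1) ≤ (C ε/N)(log N + C)` (mean value theorem between `V` and `W`, both in `[1/(2LN), 2L/N]`), `N²`
squares; outside `negMulLog V ≥ 0`. `Dg (N+m) V ≤ Dg N W + C m`: `phi` has derivative `≤ log (2L)` on `[0,1-1/(2L)]`,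
the diagonal sums differ by `≤ C m/N`, `≤ 8N` diagonals. (For `m = 0` take `V = W`.)
-/

set_option autoImplicit false

open Finset

namespace Pool.Agent.NQR

open Pool.Agent.NQ (board dsum F Ent Dg phi ln Q Qset st cellD bern)

private theorem pe_key {v w : ℝ} (hv : 0 < v) (hw : 0 < w) : w - v ≤ w * (Real.log w - Real.log v) := by
  rw [← Real.log_div hw.ne' hv.ne']
  have h1 := Real.one_sub_inv_le_log_of_pos (div_pos hw hv)
  rw [inv_div] at h1
  calc w - v = w * (1 - v / w) := by field_simp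
    _ ≤ w * Real.log (w / v) := mul_le_mul_of_nonneg_left h1 hw.le

private theorem pe_mem {n : ℕ} {e : ℤ × ℤ} :
    e ∈ board n ↔ (0 ≤ e.1 ∧ e.1 < n) ∧ (0 ≤ e.2 ∧ e.2 < n) := by
  rw [board, mem_product, mem_Ico, mem_Ico]

private theorem pe_row {M : ℕ} (V : ℤ × ℤ → ℝ) {x : ℤ} (h0 : 0 ≤ x) (h1 : x < M) :
    dsum M V 0 x = ∑ y ∈ Ico (0 : ℤ) M, V (x, y) := by
  rw [dsum, sum_filter, board, sum_product]
  have h2 : ∀ a ∈ Ico (0 : ℤ) M, (∑ b ∈ Ico (0 : ℤ) M, if ln 0 (a, b) = x then V (a, b) else 0)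
      = if a = x then ∑ b ∈ Ico (0 : ℤ) M, V (a, b) else 0 := by
    intro a _
    by_cases h : a = x
    · rw [if_pos h]
      exact sum_congr rfl (fun b _ => if_pos h)
    · rw [if_neg h]
      exact sum_eq_zero (fun b _ => if_neg h)
  rw [sum_congr rfl h2, sum_ite_eq', if_pos (mem_Ico.2 ⟨h0, h1⟩)]

private theorem pe_col {M : ℕ} (V : ℤ × ℤ → ℝ) {y : ℤ} (h0 : 0 ≤ y) (h1 : y < M) :
    dsum M V 1 y = ∑ x ∈ Ico (0 : ℤ) M, V (x, y) := by
  rw [dsum, sum_filter, board, sum_product_right]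
  have h2 : ∀ b ∈ Ico (0 : ℤ) M, (∑ a ∈ Ico (0 : ℤ) M, if ln 1 (a, b) = y then V (a, b) else 0)
      = if b = y then ∑ a ∈ Ico (0 : ℤ) M, V (a, b) else 0 := by
    intro b _
    by_cases h : b = y
    · rw [if_pos h]
      exact sum_congr rfl (fun a _ => if_pos h)
    · rw [if_neg h]
      exact sum_eq_zero (fun a _ => if_neg h)
  rw [sum_congr rfl h2, sum_ite_eq', if_pos (mem_Ico.2 ⟨h0, h1⟩)]

/-- sums of a clamped function -/
private theorem pe_clamp (N m : ℕ) (hN : 1 ≤ N) (f : ℤ → ℝ) :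
    ∑ y ∈ Ico (0 : ℤ) ((N + m : ℕ) : ℤ), f (min y (N - 1)) = ∑ y ∈ Ico (0 : ℤ) N, f y + m * f (N - 1) := by
  have h1 : Ico (0 : ℤ) ((N + m : ℕ) : ℤ) = Ico (0 : ℤ) N ∪ Ico (N : ℤ) ((N + m : ℕ) : ℤ) := by
    rw [Finset.Ico_union_Ico_eq_Ico (by omega) (by push_cast; omega)]
  rw [h1, sum_union (Finset.Ico_disjoint_Ico_consecutive _ _ _)]
  congr 1
  · refine sum_congr rfl (fun y hy => ?_)
    rw [mem_Ico] at hy
    rw [min_eq_left (by omega)]
  · have h2 : ∀ y ∈ Ico (N : ℤ) ((N + m : ℕ) : ℤ), f (min y (N - 1)) = f (N - 1) := by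
      intro y hy
      rw [mem_Ico] at hy
      rw [min_eq_right (by omega)]
    rw [sum_congr rfl h2, sum_const, Int.card_Ico, nsmul_eq_mul]
    congr 2
    push_cast
    omega

private theorem pe_exV {L : ℝ} (hL : 1 ≤ L) {N m : ℕ} (hm : 1 ≤ m) (hN : 1 ≤ N) (hN2 : 4 * L * m ≤ N)
    {W : ℤ × ℤ → ℝ} (hA : Adm N W) (hB : Bd L N W) :
    ∃ V : ℤ × ℤ → ℝ, (∀ e, 0 ≤ V e) ∧ (∀ e, e ∉ board (N + m) → V e = 0) ∧
      (∀ x : ℤ, 0 ≤ x → x < ((N + m : ℕ) : ℤ) → dsum (N + m) V 0 x = 1) ∧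
      (∀ y : ℤ, 0 ≤ y → y < ((N + m : ℕ) : ℤ) → dsum (N + m) V 1 y = 1) ∧
      (∀ e ∈ board N, (1 - 2 * L * m / N) * W e ≤ V e ∧ V e ≤ W e + 2 * (2 * L * m / N) / N) ∧
      (∀ e ∈ board (N + m), V e ≤ L / N + 2 * (2 * L * m / N) / N) := by
  have hNR : (1 : ℝ) ≤ N := by exact_mod_cast hN
  have hmR : (1 : ℝ) ≤ m := by exact_mod_cast hm
  have hN0 : (0 : ℝ) < N := by linarith
  set ε : ℝ := 2 * L * m / N with hε
  have hε0 : 0 < ε := by rw [hε]; positivity
  have hε1 : ε ≤ 1 / 2 := by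
    rw [hε, div_le_iff₀ hN0]
    linarith
  have hmL : (m : ℝ) * (L / N) = ε / 2 := by rw [hε]; ring
  set κ : ℤ → ℤ := fun x => min x (N - 1) with hκ
  have hκr : ∀ x : ℤ, 0 ≤ x → 0 ≤ κ x ∧ κ x < N := by
    intro x hx
    rw [hκ]
    dsimp only
    omega
  have hWm : ∀ x y : ℤ, 0 ≤ x → 0 ≤ y → (κ x, κ y) ∈ board N := by
    intro x y hx hy
    rw [pe_mem]
    exact ⟨hκr x hx, hκr y hy⟩
  set RX : ℤ → ℝ := fun x => ∑ y ∈ Ico (0 : ℤ) ((N + m : ℕ) : ℤ), W (κ x, κ y) with hRX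
  set CX : ℤ → ℝ := fun y => ∑ x ∈ Ico (0 : ℤ) ((N + m : ℕ) : ℤ), W (κ x, κ y) with hCX
  have hNN : ((N : ℤ) - 1, (0 : ℤ)).1 = (N : ℤ) - 1 := rfl
  have hRXe : ∀ x : ℤ, 0 ≤ x → RX x = 1 + m * W (κ x, N - 1) := by
    intro x hx
    have h1 := pe_clamp N m hN (fun y => W (κ x, y))
    have h2 : ∑ y ∈ Ico (0 : ℤ) N, W (κ x, y) = 1 := by
      rw [← pe_row W (hκr x hx).1 (hκr x hx).2]
      exact hA.row _ (hκr x hx).1 (hκr x hx).2
    rw [h2] at h1
    exact h1
  have hCXe : ∀ y : ℤ, 0 ≤ y → CX y = 1 + m * W (N - 1, κ y) := by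
    intro y hy
    have h1 := pe_clamp N m hN (fun x => W (x, κ y))
    have h2 : ∑ x ∈ Ico (0 : ℤ) N, W (x, κ y) = 1 := by
      rw [← pe_col W (hκr y hy).1 (hκr y hy).2]
      exact hA.col _ (hκr y hy).1 (hκr y hy).2
    rw [h2] at h1
    exact h1
  have hRXb : ∀ x : ℤ, 0 ≤ x → 1 ≤ RX x ∧ RX x ≤ 1 + ε / 2 := by
    intro x hx
    have hmem : (κ x, (N : ℤ) - 1) ∈ board N := by
      rw [pe_mem]
      exact ⟨hκr x hx, by dsimp only; omega⟩
    have h1 := hB.hi _ hmem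
    have h2 := hA.nn (κ x, (N : ℤ) - 1)
    rw [hRXe x hx, ← hmL]
    refine ⟨?_, ?_⟩
    · have := mul_nonneg (by linarith : (0 : ℝ) ≤ m) h2
      linarith
    · have := mul_le_mul_of_nonneg_left h1 (by linarith : (0 : ℝ) ≤ m)
      linarith
  have hCXb : ∀ y : ℤ, 0 ≤ y → 1 ≤ CX y ∧ CX y ≤ 1 + ε / 2 := by
    intro y hy
    have hmem : ((N : ℤ) - 1, κ y) ∈ board N := by
      rw [pe_mem]
      exact ⟨by dsimp only; omega, hκr y hy⟩
    have h1 := hB.hi _ hmem
    have h2 := hA.nn ((N : ℤ) - 1, κ y)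
    rw [hCXe y hy, ← hmL]
    refine ⟨?_, ?_⟩
    · have := mul_nonneg (by linarith : (0 : ℝ) ≤ m) h2
      linarith
    · have := mul_le_mul_of_nonneg_left h1 (by linarith : (0 : ℝ) ≤ m)
      linarith
  set r : ℤ → ℝ := fun x => 1 - (1 - ε) * RX x with hr
  set c : ℤ → ℝ := fun y => 1 - (1 - ε) * CX y with hc
  have hdef : ∀ t : ℝ, 1 ≤ t ∧ t ≤ 1 + ε / 2 → ε / 2 ≤ 1 - (1 - ε) * t ∧ 1 - (1 - ε) * t ≤ ε := by
    rintro t ⟨h1, h2⟩
    have h3 : 0 ≤ 1 - ε := by linarith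
    have h4 := mul_le_mul_of_nonneg_left h1 h3
    have h5 := mul_le_mul_of_nonneg_left h2 h3
    have h6 : 0 ≤ ε * ε := by positivity
    constructor
    · nlinarith
    · linarith
  have hrb : ∀ x : ℤ, 0 ≤ x → ε / 2 ≤ r x ∧ r x ≤ ε := fun x hx => hdef _ (hRXb x hx)
  have hcb : ∀ y : ℤ, 0 ≤ y → ε / 2 ≤ c y ∧ c y ≤ ε := fun y hy => hdef _ (hCXb y hy)
  set S : ℝ := ∑ x ∈ Ico (0 : ℤ) ((N + m : ℕ) : ℤ), r x with hS
  have hScol : ∑ y ∈ Ico (0 : ℤ) ((N + m : ℕ) : ℤ), c y = S := by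
    rw [hS, hr, hc, hRX, hCX]
    simp only [sum_sub_distrib, ← mul_sum]
    rw [sum_comm]
  have hSlo : (N : ℝ) * (ε / 2) ≤ S := by
    have h1 : ∑ _x ∈ Ico (0 : ℤ) ((N + m : ℕ) : ℤ), ε / 2 ≤ S :=
      sum_le_sum (fun x hx => (hrb x (mem_Ico.1 hx).1).1)
    rw [sum_const, Int.card_Ico, nsmul_eq_mul] at h1
    refine le_trans ?_ h1
    refine mul_le_mul_of_nonneg_right ?_ (by positivity)
    rw [sub_zero, Int.toNat_natCast]
    push_cast
    linarith
  have hS0 : 0 < S := lt_of_lt_of_le (by positivity) hSlo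
  have hadd : ∀ x y : ℤ, 0 ≤ x → 0 ≤ y → 0 ≤ r x * c y / S ∧ r x * c y / S ≤ 2 * ε / N := by
    intro x y hx hy
    obtain ⟨h1, h2⟩ := hrb x hx
    obtain ⟨h3, h4⟩ := hcb y hy
    have h5 : 0 ≤ r x := by linarith
    have h6 : 0 ≤ c y := by linarith
    refine ⟨div_nonneg (mul_nonneg h5 h6) hS0.le, ?_⟩
    rw [div_le_div_iff₀ hS0 hN0]
    calc r x * c y * N ≤ ε * ε * N :=
          mul_le_mul_of_nonneg_right (mul_le_mul h2 h4 h6 hε0.le) hN0.le
      _ = 2 * ε * (N * (ε / 2)) := by ring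
      _ ≤ 2 * ε * S := mul_le_mul_of_nonneg_left hSlo (by positivity)
  classical
  refine ⟨fun e => if e ∈ board (N + m) then (1 - ε) * W (κ e.1, κ e.2) + r e.1 * c e.2 / S else 0,
    ?_, ?_, ?_, ?_, ?_, ?_⟩
  · intro e
    dsimp only
    split_ifs with h
    · rw [pe_mem] at h
      have h1 := (hadd e.1 e.2 h.1.1 h.2.1).1
      have h2 := mul_nonneg (by linarith : (0 : ℝ) ≤ 1 - ε) (hA.nn (κ e.1, κ e.2))
      linarith
    · exact le_rfl
  · intro e h
    dsimp only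
    rw [if_neg h]
  · intro x h0 h1
    rw [pe_row _ h0 h1]
    have h2 : ∀ y ∈ Ico (0 : ℤ) ((N + m : ℕ) : ℤ), (if (x, y) ∈ board (N + m) then
        (1 - ε) * W (κ x, κ y) + r x * c y / S else 0) = (1 - ε) * W (κ x, κ y) + r x / S * c y := by
      intro y hy
      rw [mem_Ico] at hy
      rw [if_pos (pe_mem.2 ⟨⟨h0, h1⟩, hy⟩)]
      ring
    rw [sum_congr rfl h2, sum_add_distrib, ← mul_sum, ← mul_sum, hScol, div_mul_cancel₀ _ hS0.ne']
    show (1 - ε) * RX x + (1 - (1 - ε) * RX x) = 1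
    ring
  · intro y h0 h1
    rw [pe_col _ h0 h1]
    have h2 : ∀ x ∈ Ico (0 : ℤ) ((N + m : ℕ) : ℤ), (if (x, y) ∈ board (N + m) then
        (1 - ε) * W (κ x, κ y) + r x * c y / S else 0) = (1 - ε) * W (κ x, κ y) + c y / S * r x := by
      intro x hx
      rw [mem_Ico] at hx
      rw [if_pos (pe_mem.2 ⟨hx, ⟨h0, h1⟩⟩)]
      ring
    rw [sum_congr rfl h2, sum_add_distrib, ← mul_sum, ← mul_sum, ← hS, div_mul_cancel₀ _ hS0.ne']
    show (1 - ε) * CX y + (1 - (1 - ε) * CX y) = 1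
    ring
  · intro e he
    have he' := pe_mem.1 he
    have h1 : e ∈ board (N + m) := by
      rw [pe_mem]
      push_cast
      omega
    dsimp only
    rw [if_pos h1]
    have h2 : κ e.1 = e.1 := by rw [hκ]; dsimp only; omega
    have h3 : κ e.2 = e.2 := by rw [hκ]; dsimp only; omega
    rw [h2, h3]
    obtain ⟨h4, h5⟩ := hadd e.1 e.2 he'.1.1 he'.2.1
    have h6 := mul_nonneg hε0.le (hA.nn e)
    refine ⟨by linarith, ?_⟩
    have h7 : (1 - ε) * W (e.1, e.2) = W e - ε * W e := by ring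
    rw [h7]
    linarith
  · intro e he
    have he' := pe_mem.1 he
    dsimp only
    rw [if_pos he]
    obtain ⟨h4, h5⟩ := hadd e.1 e.2 he'.1.1 he'.2.1
    have h6 := hB.hi _ (hWm e.1 e.2 he'.1.1 he'.2.1)
    have h7 := mul_nonneg hε0.le (hA.nn (κ e.1, κ e.2))
    have h8 : (1 - ε) * W (κ e.1, κ e.2) = W (κ e.1, κ e.2) - ε * W (κ e.1, κ e.2) := by ring
    rw [h8]
    linarith

private theorem pe_inj1 {k : Fin 4} (hk : k = 2 ∨ k = 3) {e f : ℤ × ℤ} (h : ln k e = ln k f)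
    (h1 : e.1 = f.1) : e = f := by
  refine Prod.ext h1 ?_
  rcases hk with hk | hk <;> subst hk <;> simp only [Pool.Agent.NQ.ln_two, Pool.Agent.NQ.ln_three] at h <;> omega

private theorem pe_inj2 {k : Fin 4} (hk : k = 2 ∨ k = 3) {e f : ℤ × ℤ} (h : ln k e = ln k f)
    (h1 : e.2 = f.2) : e = f := by
  refine Prod.ext ?_ h1
  rcases hk with hk | hk <;> subst hk <;> simp only [Pool.Agent.NQ.ln_two, Pool.Agent.NQ.ln_three] at h <;> omega

private theorem pe_card1 {k : Fin 4} (hk : k = 2 ∨ k = 3) (s : ℤ) (a b : ℤ) (Q : Finset (ℤ × ℤ))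
    (h : ∀ e ∈ Q, ln k e = s ∧ a ≤ e.1 ∧ e.1 < b) : Q.card ≤ (b - a).toNat := by
  rw [← Int.card_Ico]
  refine card_le_card_of_injOn (fun e => e.1) (fun e he => ?_) (fun e he f hf hef => ?_)
  · have := h e he
    simp only [coe_Ico, Set.mem_Ico]
    exact this.2
  · exact pe_inj1 hk ((h e he).1.trans (h f hf).1.symm) hef

private theorem pe_card2 {k : Fin 4} (hk : k = 2 ∨ k = 3) (s : ℤ) (a b : ℤ) (Q : Finset (ℤ × ℤ))
    (h : ∀ e ∈ Q, ln k e = s ∧ a ≤ e.2 ∧ e.2 < b) : Q.card ≤ (b - a).toNat := by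
  rw [← Int.card_Ico]
  refine card_le_card_of_injOn (fun e => e.2) (fun e he => ?_) (fun e he f hf hef => ?_)
  · have := h e he
    simp only [coe_Ico, Set.mem_Ico]
    exact this.2
  · exact pe_inj2 hk ((h e he).1.trans (h f hf).1.symm) hef

/-- diagonal sums -/
private theorem pe_ds {N m : ℕ} {V W : ℤ × ℤ → ℝ} {δ η : ℝ} (hδ : 0 ≤ δ) (hη : 0 ≤ η)
    (h1 : ∀ e ∈ board N, V e ≤ W e + δ) (h2 : ∀ e ∈ board (N + m), V e ≤ η)
    {k : Fin 4} (hk : k = 2 ∨ k = 3) (s : ℤ) :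
    dsum (N + m) V k s ≤ dsum N W k s + N * δ + 2 * m * η := by
  classical
  have hsplit : (board (N + m)).filter (fun e => ln k e = s) =
      (board N).filter (fun e => ln k e = s) ∪
        (((board (N + m)).filter (fun e => ln k e = s ∧ (N : ℤ) ≤ e.1)) ∪
          ((board (N + m)).filter (fun e => ln k e = s ∧ e.1 < N ∧ (N : ℤ) ≤ e.2))) := by
    ext e
    simp only [mem_union, mem_filter, pe_mem]
    push_cast
    constructor
    · rintro ⟨h, h'⟩
      by_cases ha : (N : ℤ) ≤ e.1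
      · exact Or.inr (Or.inl ⟨h, h', ha⟩)
      · by_cases hb : (N : ℤ) ≤ e.2
        · exact Or.inr (Or.inr ⟨h, h', by omega, hb⟩)
        · exact Or.inl ⟨⟨by omega, by omega⟩, h'⟩
    · rintro (⟨h, h'⟩ | ⟨h, h', _⟩ | ⟨h, h', _⟩)
      · exact ⟨⟨by omega, by omega⟩, h'⟩
      · exact ⟨h, h'⟩
      · exact ⟨h, h'⟩
  have hd1 : Disjoint ((board N).filter (fun e => ln k e = s))
      (((board (N + m)).filter (fun e => ln k e = s ∧ (N : ℤ) ≤ e.1)) ∪
          ((board (N + m)).filter (fun e => ln k e = s ∧ e.1 < N ∧ (N : ℤ) ≤ e.2))) := by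
    rw [Finset.disjoint_left]
    intro e he hf
    simp only [mem_union, mem_filter, pe_mem] at he hf
    omega
  have hd2 : Disjoint ((board (N + m)).filter (fun e => ln k e = s ∧ (N : ℤ) ≤ e.1))
          ((board (N + m)).filter (fun e => ln k e = s ∧ e.1 < N ∧ (N : ℤ) ≤ e.2)) := by
    rw [Finset.disjoint_left]
    intro e he hf
    simp only [mem_filter] at he hf
    omega
  rw [dsum, hsplit, sum_union hd1, sum_union hd2]
  have e1 : ∑ e ∈ (board N).filter (fun e => ln k e = s), V e ≤ dsum N W k s + N * δ := by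
    calc ∑ e ∈ (board N).filter (fun e => ln k e = s), V e
        ≤ ∑ e ∈ (board N).filter (fun e => ln k e = s), (W e + δ) :=
          sum_le_sum (fun e he => h1 e (mem_filter.1 he).1)
      _ = dsum N W k s + ((board N).filter (fun e => ln k e = s)).card * δ := by
          rw [sum_add_distrib, sum_const, nsmul_eq_mul, dsum]
      _ ≤ dsum N W k s + N * δ := by
          have hc := pe_card1 hk s 0 N ((board N).filter (fun e => ln k e = s)) (fun e he => by
            rw [mem_filter, pe_mem] at he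
            exact ⟨he.2, he.1.1⟩)
          rw [sub_zero, Int.toNat_natCast] at hc
          have hc' : (((board N).filter (fun e => ln k e = s)).card : ℝ) ≤ N := by exact_mod_cast hc
          have := mul_le_mul_of_nonneg_right hc' hδ
          linarith
  have e2 : ∑ e ∈ (board (N + m)).filter (fun e => ln k e = s ∧ (N : ℤ) ≤ e.1), V e ≤ m * η := by
    have hc := pe_card1 hk s N (N + m) ((board (N + m)).filter (fun e => ln k e = s ∧ (N : ℤ) ≤ e.1))
      (fun e he => by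
        rw [mem_filter, pe_mem] at he
        push_cast at he
        exact ⟨he.2.1, by omega, by omega⟩)
    have hc2 : ((N : ℤ) + m - N).toNat = m := by omega
    rw [hc2] at hc
    have hc' : (((board (N + m)).filter (fun e => ln k e = s ∧ (N : ℤ) ≤ e.1)).card : ℝ) ≤ m := by
      exact_mod_cast hc
    calc _ ≤ ∑ _e ∈ (board (N + m)).filter (fun e => ln k e = s ∧ (N : ℤ) ≤ e.1), η :=
          sum_le_sum (fun e he => h2 e (mem_filter.1 he).1)
      _ = ((board (N + m)).filter (fun e => ln k e = s ∧ (N : ℤ) ≤ e.1)).card * η := by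
          rw [sum_const, nsmul_eq_mul]
      _ ≤ m * η := mul_le_mul_of_nonneg_right hc' hη
  have e3 : ∑ e ∈ (board (N + m)).filter (fun e => ln k e = s ∧ e.1 < N ∧ (N : ℤ) ≤ e.2), V e ≤ m * η := by
    have hc := pe_card2 hk s N (N + m)
      ((board (N + m)).filter (fun e => ln k e = s ∧ e.1 < N ∧ (N : ℤ) ≤ e.2))
      (fun e he => by
        rw [mem_filter, pe_mem] at he
        push_cast at he
        exact ⟨he.2.1, by omega, by omega⟩)
    have hc2 : ((N : ℤ) + m - N).toNat = m := by omega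
    rw [hc2] at hc
    have hc' : (((board (N + m)).filter (fun e => ln k e = s ∧ e.1 < N ∧ (N : ℤ) ≤ e.2)).card : ℝ) ≤ m := by
      exact_mod_cast hc
    calc _ ≤ ∑ _e ∈ (board (N + m)).filter (fun e => ln k e = s ∧ e.1 < N ∧ (N : ℤ) ≤ e.2), η :=
          sum_le_sum (fun e he => h2 e (mem_filter.1 he).1)
      _ = ((board (N + m)).filter (fun e => ln k e = s ∧ e.1 < N ∧ (N : ℤ) ≤ e.2)).card * η := by
          rw [sum_const, nsmul_eq_mul]
      _ ≤ m * η := mul_le_mul_of_nonneg_right hc' hη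
  linarith

/-- entropy of one square -/
private theorem pe_e1 {L n ε w v : ℝ} (hL : 1 ≤ L) (hn : 1 ≤ n) (hε : 0 ≤ ε) (hε1 : ε ≤ 1 / 2)
    (hw : 1 / (L * n) ≤ w) (hw2 : w ≤ L / n) (hv : (1 - ε) * w ≤ v) (hv2 : v ≤ w + 2 * ε / n) (hv3 : v ≤ 1) :
    |v - w| ≤ ε * (L + 2) / n ∧ Real.negMulLog w - ε * (L + 2) / n * (Real.log n + Real.log (2 * L) + 1)
      ≤ Real.negMulLog v := by
  have hn0 : 0 < n := by linarith
  have hL0 : 0 < L := by linarith
  have hw0 : 0 < w := lt_of_lt_of_le (by positivity) hw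
  have hv0 : 0 < v := lt_of_lt_of_le (mul_pos (by linarith) hw0) hv
  have habs : |v - w| ≤ ε * (L + 2) / n := by
    have h1 : ε * w ≤ ε * (L / n) := mul_le_mul_of_nonneg_left hw2 hε
    have h2 : ε * (L + 2) / n = ε * (L / n) + 2 * ε / n := by ring
    have h3 : 0 ≤ ε * (L / n) := by positivity
    have h4 : 0 ≤ 2 * ε / n := by positivity
    rw [h2, abs_le]
    constructor
    · nlinarith
    · linarith
  refine ⟨habs, ?_⟩
  have hlv : Real.log v ≤ 0 := Real.log_nonpos hv0.le hv3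
  have hlv2 : -(Real.log n + Real.log (2 * L)) ≤ Real.log v := by
    rw [← Real.log_mul hn0.ne' (by positivity), ← Real.log_inv]
    refine Real.log_le_log (by positivity) ?_
    have h1 : (n * (2 * L))⁻¹ = 1 / 2 * (1 / (L * n)) := by
      field_simp
    rw [h1]
    have h2 : 1 / 2 * (1 / (L * n)) ≤ 1 / 2 * w := mul_le_mul_of_nonneg_left hw (by norm_num)
    have h3 : 1 / 2 * w ≤ (1 - ε) * w := mul_le_mul_of_nonneg_right (by linarith) hw0.le
    linarith
  have hln : 0 ≤ Real.log n := Real.log_nonneg hn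
  have hlL : 0 ≤ Real.log (2 * L) := Real.log_nonneg (by linarith)
  have habs2 : |Real.log v + 1| ≤ Real.log n + Real.log (2 * L) + 1 := by
    rw [abs_le]
    constructor <;> linarith
  have hk := pe_key hw0 hv0
  have h1 : Real.negMulLog w - Real.negMulLog v = (v - w) * Real.log v + w * (Real.log v - Real.log w) := by
    simp only [Real.negMulLog]
    ring
  have hk2 := pe_key hv0 hw0
  have h2 : w * (Real.log v - Real.log w) ≤ v - w := by
    have : w * (Real.log v - Real.log w) = - (w * (Real.log w - Real.log v)) := by ring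
    rw [this]
    linarith
  have h3 : (v - w) * Real.log v + w * (Real.log v - Real.log w) ≤ (v - w) * (Real.log v + 1) := by
    linarith
  have h4 : (v - w) * (Real.log v + 1) ≤ |v - w| * |Real.log v + 1| := by
    rw [← abs_mul]
    exact le_abs_self _
  have h5 : |v - w| * |Real.log v + 1| ≤ ε * (L + 2) / n * (Real.log n + Real.log (2 * L) + 1) :=
    mul_le_mul habs habs2 (abs_nonneg _) (by positivity)
  linarith

/-- change of `phi` -/
private theorem pe_phi {L a b δ : ℝ} (hL : 1 ≤ L) (ha : 0 ≤ a) (ha1 : a ≤ 1 - 1 / (2 * L)) (hb : b ≤ 1)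
    (hδ : 0 ≤ δ) (hab : a ≤ b + δ) : phi a ≤ phi b + δ * Real.log (2 * L) := by
  have hL0 : 0 < L := by linarith
  have h0 : 0 < 1 / (2 * L) := by positivity
  have ht := Pool.Agent.NQ.phi_tangent (a := a) (b := b) (by linarith) hb
  have h1 : Real.log (1 - a) ≤ 0 := Real.log_nonpos (by linarith) (by linarith)
  have h2 : - Real.log (2 * L) ≤ Real.log (1 - a) := by
    rw [← Real.log_inv]
    refine Real.log_le_log (by positivity) ?_
    rw [← one_div]
    linarith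
  have h3 : 0 ≤ Real.log (2 * L) := Real.log_nonneg (by linarith)
  have h4 : - Real.log (1 - a) * (a - b) ≤ δ * Real.log (2 * L) := by
    by_cases hc : a ≤ b
    · have h5 : - Real.log (1 - a) * (a - b) ≤ 0 :=
        mul_nonpos_of_nonneg_of_nonpos (by linarith) (by linarith)
      have h6 := mul_nonneg hδ h3
      linarith
    · rw [mul_comm δ]
      exact mul_le_mul (by linarith) (by linarith) (by linarith) h3
  nlinarith

private theorem pe_out2 {N : ℕ} (W : ℤ × ℤ → ℝ) {s : ℤ} (h : s ∉ Ico (0 : ℤ) (2 * N)) : dsum N W 2 s = 0 := by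
  rw [dsum, filter_false_of_mem, sum_empty]
  intro e he hs
  rw [pe_mem] at he
  rw [Pool.Agent.NQ.ln_two] at hs
  rw [mem_Ico] at h
  omega

private theorem pe_out3 {N : ℕ} (W : ℤ × ℤ → ℝ) {s : ℤ} (h : s ∉ Ioo (-(N : ℤ)) N) : dsum N W 3 s = 0 := by
  rw [dsum, filter_false_of_mem, sum_empty]
  intro e he hs
  rw [pe_mem] at he
  rw [Pool.Agent.NQ.ln_three] at hs
  rw [mem_Ioo] at h
  omega

/-- change of `Dg` -/
private theorem pe_dg {L δ : ℝ} (hL : 1 ≤ L) (hδ : 0 ≤ δ) {N m : ℕ} {V W : ℤ × ℤ → ℝ}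
    (h : ∀ k : Fin 4, k = 2 ∨ k = 3 → ∀ s, 0 ≤ dsum (N + m) V k s ∧ dsum (N + m) V k s ≤ 1 - 1 / (2 * L) ∧
      dsum N W k s ≤ 1 ∧ dsum (N + m) V k s ≤ dsum N W k s + δ) :
    Dg (N + m) V ≤ Dg N W + 4 * (N + m) * (δ * Real.log (2 * L)) := by
  have hlog : 0 ≤ δ * Real.log (2 * L) := mul_nonneg hδ (Real.log_nonneg (by linarith))
  have hstep : ∀ k : Fin 4, k = 2 ∨ k = 3 → ∀ s, phi (dsum (N + m) V k s) ≤
      phi (dsum N W k s) + δ * Real.log (2 * L) := by
    intro k hk s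
    obtain ⟨h1, h2, h3, h4⟩ := h k hk s
    exact pe_phi hL h1 h2 h3 hδ h4
  have e2 : ∑ s ∈ Ico (0 : ℤ) (2 * ((N + m : ℕ) : ℤ)), phi (dsum (N + m) V 2 s) ≤
      ∑ s ∈ Ico (0 : ℤ) (2 * N), phi (dsum N W 2 s) + 2 * (N + m) * (δ * Real.log (2 * L)) := by
    have h1 : ∑ s ∈ Ico (0 : ℤ) (2 * N), phi (dsum N W 2 s) =
        ∑ s ∈ Ico (0 : ℤ) (2 * ((N + m : ℕ) : ℤ)), phi (dsum N W 2 s) := by
      refine sum_subset (fun s hs => ?_) (fun s _ hs => ?_)
      · rw [mem_Ico] at hs ⊢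
        push_cast
        omega
      · rw [pe_out2 W hs, Pool.Agent.NQ.phi_zero]
    rw [h1]
    calc _ ≤ ∑ s ∈ Ico (0 : ℤ) (2 * ((N + m : ℕ) : ℤ)), (phi (dsum N W 2 s) + δ * Real.log (2 * L)) :=
          sum_le_sum (fun s _ => hstep 2 (Or.inl rfl) s)
      _ = _ := by
          rw [sum_add_distrib, sum_const, Int.card_Ico, nsmul_eq_mul]
          congr 2
          have : (2 * ((N + m : ℕ) : ℤ) - 0).toNat = 2 * (N + m) := by omega
          rw [this]
          push_cast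
          ring
  have e3 : ∑ s ∈ Ioo (-((N + m : ℕ) : ℤ)) ((N + m : ℕ) : ℤ), phi (dsum (N + m) V 3 s) ≤
      ∑ s ∈ Ioo (-(N : ℤ)) N, phi (dsum N W 3 s) + 2 * (N + m) * (δ * Real.log (2 * L)) := by
    have h1 : ∑ s ∈ Ioo (-(N : ℤ)) N, phi (dsum N W 3 s) =
        ∑ s ∈ Ioo (-((N + m : ℕ) : ℤ)) ((N + m : ℕ) : ℤ), phi (dsum N W 3 s) := by
      refine sum_subset (fun s hs => ?_) (fun s _ hs => ?_)
      · rw [mem_Ioo] at hs ⊢
        push_cast
        omega
      · rw [pe_out3 W hs, Pool.Agent.NQ.phi_zero]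
    rw [h1]
    calc _ ≤ ∑ s ∈ Ioo (-((N + m : ℕ) : ℤ)) ((N + m : ℕ) : ℤ), (phi (dsum N W 3 s) + δ * Real.log (2 * L)) :=
          sum_le_sum (fun s _ => hstep 3 (Or.inr rfl) s)
      _ ≤ _ := by
          rw [sum_add_distrib, sum_const, Int.card_Ioo, nsmul_eq_mul]
          have h2 : (((((N + m : ℕ) : ℤ) - (-((N + m : ℕ) : ℤ)) - 1).toNat : ℕ) : ℝ) ≤ 2 * (N + m) := by
            have : ((((N + m : ℕ) : ℤ) - (-((N + m : ℕ) : ℤ)) - 1).toNat) ≤ 2 * (N + m) := by omega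
            exact_mod_cast this
          have := mul_le_mul_of_nonneg_right h2 hlog
          linarith
  rw [Dg, Dg]
  linarith

theorem extend (L : ℝ) (hL : 1 ≤ L) : ∃ C : ℝ, 0 < C ∧ ∀ N m : ℕ, 1000 ≤ N → C * m ≤ N →
    ∀ W : ℤ × ℤ → ℝ, Adm N W → Bd L N W → ∃ V, Adm (N + m) V ∧
      F N W - C * m * Real.log N ≤ F (N + m) V ∧ l1 N V W ≤ C * m := by
  have hL0 : 0 < L := by linarith
  refine ⟨200 * L ^ 3, by positivity, ?_⟩
  intro N m hN hm W hA hB
  rcases Nat.eq_zero_or_pos m with h0 | hm1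
  · subst h0
    refine ⟨W, hA, ?_, ?_⟩
    · rw [Nat.cast_zero, mul_zero, zero_mul, sub_zero]
      exact le_rfl
    · rw [Nat.cast_zero, mul_zero, l1]
      simp
  have hNR : (1000 : ℝ) ≤ N := by exact_mod_cast hN
  have hN0 : (0 : ℝ) < N := by linarith
  have hmR : (1 : ℝ) ≤ m := by exact_mod_cast hm1
  have hL2 : 1 ≤ L ^ 2 := one_le_pow₀ hL
  have hL3 : L ≤ L ^ 3 := by nlinarith
  have hL23 : L ^ 2 ≤ L ^ 3 := by nlinarith
  have hLm : L * m ≤ L ^ 3 * m := mul_le_mul_of_nonneg_right hL3 (by linarith)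
  have hN4 : 4 * L * m ≤ N := by
    have : 0 ≤ L * m := by positivity
    linarith
  obtain ⟨V, hV0, hVo, hVr, hVc, hVb, hVu⟩ := pe_exV hL hm1 (by omega) hN4 hA hB
  set ε : ℝ := 2 * L * m / N with hε
  have hε0 : 0 ≤ ε := by rw [hε]; positivity
  have hNε : N * ε = 2 * L * m := by
    rw [hε]
    field_simp
  have hεs : 100 * L ^ 2 * ε ≤ 1 := by
    have h1 : 100 * L ^ 2 * ε = 200 * L ^ 3 * m / N := by rw [hε]; ring
    rw [h1, div_le_one hN0]
    exact hm
  have hεL : 100 * ε ≤ 1 := by nlinarith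
  have hε2L : 10 * ε ≤ 1 / L := by
    rw [le_div_iff₀ hL0]
    nlinarith
  have hm4 : 4 * (m : ℝ) ≤ N := by nlinarith
  -- diagonal sums
  have hds : ∀ k : Fin 4, k = 2 ∨ k = 3 → ∀ s, dsum (N + m) V k s ≤ dsum N W k s + 5 * ε := by
    intro k hk s
    have h1 := pe_ds (N := N) (m := m) (V := V) (W := W) (δ := 2 * ε / N) (η := L / N + 2 * ε / N)
      (by positivity) (by positivity) (fun e he => (hVb e he).2) hVu hk s
    have h2 : (N : ℝ) * (2 * ε / N) = 2 * ε := by field_simp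
    have h3 : 2 * (m : ℝ) * (L / N + 2 * ε / N) = ε + 4 * m / N * ε := by rw [hε]; ring
    have h4 : 4 * (m : ℝ) / N ≤ 1 := by rw [div_le_one hN0]; exact hm4
    have h5 := mul_le_mul_of_nonneg_right h4 hε0
    rw [h2, h3] at h1
    linarith
  have hdsn : ∀ k : Fin 4, ∀ s, 0 ≤ dsum (N + m) V k s := by
    intro k s
    rw [dsum]
    exact sum_nonneg (fun e _ => hV0 e)
  have hWd : ∀ k : Fin 4, k = 2 ∨ k = 3 → ∀ s, dsum N W k s ≤ 1 - 1 / L := by
    intro k hk s
    rcases hk with hk | hk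
    · subst hk
      have := hB.sd s
      rw [hS] at this
      linarith
    · subst hk
      have := hB.dd s
      rw [hD] at this
      linarith
  have h2L : 1 / (2 * L) = 1 / L / 2 := by
    field_simp
  have hiL : 0 < 1 / L := by positivity
  have hVd : ∀ k : Fin 4, k = 2 ∨ k = 3 → ∀ s, dsum (N + m) V k s ≤ 1 - 1 / (2 * L) := by
    intro k hk s
    have h1 := hds k hk s
    have h2 := hWd k hk s
    rw [h2L]
    linarith
  have hAV : Adm (N + m) V := by
    refine ⟨hV0, hVo, hVr, hVc, fun s => ?_, fun s => ?_⟩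
    · have := hVd 2 (Or.inl rfl) s
      rw [h2L] at this
      linarith
    · have := hVd 3 (Or.inr rfl) s
      rw [h2L] at this
      linarith
  have hlN : 1 ≤ Real.log N := by
    rw [Real.le_log_iff_exp_le hN0]
    have := Real.exp_one_lt_d9
    linarith
  have hl2 : Real.log (2 * L) ≤ 2 * L := by
    have := Real.log_le_sub_one_of_pos (by linarith : 0 < 2 * L)
    linarith
  have hl20 : 0 ≤ Real.log (2 * L) := Real.log_nonneg (by linarith)
  have hVle : ∀ e ∈ board (N + m), V e ≤ 1 := by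
    intro e he
    refine le_trans (hVu e he) ?_
    have hLN : L / N ≤ 1 / 4 := by
      rw [div_le_div_iff₀ hN0 (by norm_num)]
      nlinarith
    have h1 : 2 * ε / N ≤ 2 * ε := div_le_self (by positivity) (by linarith)
    linarith
  have hsub : board N ⊆ board (N + m) := by
    intro e he
    rw [pe_mem] at he ⊢
    push_cast
    omega
  have hsq : ∀ e ∈ board N, |V e - W e| ≤ ε * (L + 2) / N ∧
      Real.negMulLog (W e) - ε * (L + 2) / N * (Real.log N + Real.log (2 * L) + 1) ≤ Real.negMulLog (V e) := by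
    intro e he
    refine pe_e1 hL (by linarith) hε0 (by linarith) (hB.lo e he) (hB.hi e he) (hVb e he).1 (hVb e he).2
      (hVle e (hsub he))
  have hcardN : ((board N).card : ℝ) = N * N := by
    rw [board, card_product, Int.card_Ico, sub_zero, Int.toNat_natCast]
    push_cast
    ring
  have hNN : (N : ℝ) * N * (ε * (L + 2) / N) = 2 * L * m * (L + 2) := by
    have : (N : ℝ) * N * (ε * (L + 2) / N) = N * ε * (L + 2) := by field_simp
    rw [this, hNε]
  have hEnt : Ent N W - 2 * L * m * (L + 2) * (Real.log N + Real.log (2 * L) + 1) ≤ Ent (N + m) V := by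
    have h1 : ∑ e ∈ board N, Real.negMulLog (V e) ≤ Ent (N + m) V := by
      rw [Ent]
      refine sum_le_sum_of_subset_of_nonneg hsub (fun e he _ => ?_)
      exact Real.negMulLog_nonneg (hV0 e) (hVle e he)
    refine le_trans ?_ h1
    have h2 : ∑ e ∈ board N, (Real.negMulLog (W e) -
        ε * (L + 2) / N * (Real.log N + Real.log (2 * L) + 1)) ≤ ∑ e ∈ board N, Real.negMulLog (V e) :=
      sum_le_sum (fun e he => (hsq e he).2)
    refine le_trans (le_of_eq ?_) h2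
    rw [sum_sub_distrib, sum_const, nsmul_eq_mul, hcardN, ← mul_assoc, hNN, Ent]
  have hDg : Dg (N + m) V ≤ Dg N W + 80 * L * m * Real.log (2 * L) := by
    have h1 := pe_dg (δ := 5 * ε) (V := V) (W := W) (N := N) (m := m) hL (by positivity)
      (fun k hk s => ⟨hdsn k s, hVd k hk s, by linarith [hWd k hk s], hds k hk s⟩)
    have h2 : 4 * ((N : ℝ) + m) * (5 * ε * Real.log (2 * L)) ≤ 80 * L * m * Real.log (2 * L) := by
      have h3 : 80 * L * m * Real.log (2 * L) = 4 * (2 * N) * (5 * ε * Real.log (2 * L)) := by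
        have : 4 * (2 * (N : ℝ)) * (5 * ε * Real.log (2 * L)) = 40 * (N * ε) * Real.log (2 * L) := by ring
        rw [this, hNε]
        ring
      rw [h3]
      refine mul_le_mul_of_nonneg_right ?_ (by positivity)
      linarith
    linarith
  refine ⟨V, hAV, ?_, ?_⟩
  · rw [F, F]
    have hLm0 : 0 ≤ L * m := by positivity
    have h1 : 2 * L * m * (L + 2) * (Real.log N + Real.log (2 * L) + 1) ≤ 24 * L ^ 3 * m * Real.log N := by
      have ha : Real.log N + Real.log (2 * L) + 1 ≤ 4 * L * Real.log N := by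
        have hb : 2 * L ≤ 2 * L * Real.log N := le_mul_of_one_le_right (by linarith) hlN
        have hc : Real.log N ≤ L * Real.log N := le_mul_of_one_le_left (by linarith) hL
        linarith
      have hb : 2 * L * m * (L + 2) ≤ 6 * L ^ 2 * m := by
        have : 6 * L ^ 2 * m - 2 * L * m * (L + 2) = 4 * (L * m) * (L - 1) := by ring
        have h' : 0 ≤ 4 * (L * m) * (L - 1) := mul_nonneg (by linarith) (by linarith)
        linarith
      calc 2 * L * m * (L + 2) * (Real.log N + Real.log (2 * L) + 1) ≤ 6 * L ^ 2 * m * (4 * L * Real.log N) :=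
            mul_le_mul hb ha (by linarith) (by positivity)
        _ = _ := by ring
    have h2 : 80 * L * m * Real.log (2 * L) ≤ 160 * L ^ 3 * m * Real.log N := by
      have ha : 80 * L * m * Real.log (2 * L) ≤ 80 * L * m * (2 * L) :=
        mul_le_mul_of_nonneg_left hl2 (by positivity)
      have hb : 80 * L * m * (2 * L) ≤ 160 * L ^ 3 * m := by
        have := mul_le_mul_of_nonneg_right hL23 (by positivity : (0 : ℝ) ≤ 160 * m)
        linarith
      have hc : 160 * L ^ 3 * m ≤ 160 * L ^ 3 * m * Real.log N := le_mul_of_one_le_right (by positivity) hlN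
      linarith
    have h3 : 0 ≤ L ^ 3 * m * Real.log N := by positivity
    have h4 : 200 * L ^ 3 * m * Real.log N = 24 * L ^ 3 * m * Real.log N + 160 * L ^ 3 * m * Real.log N +
        16 * (L ^ 3 * m * Real.log N) := by ring
    linarith
  · rw [l1]
    have h1 : ∑ e ∈ board N, |V e - W e| ≤ ∑ _e ∈ board N, ε * (L + 2) / N :=
      sum_le_sum (fun e he => (hsq e he).1)
    rw [sum_const, nsmul_eq_mul, hcardN, hNN] at h1
    have h2 : 2 * L * m * (L + 2) ≤ 200 * L ^ 3 * m := by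
      have h3 : 2 * L * m * (L + 2) = 2 * (L ^ 2 * m) + 4 * (L * m) := by ring
      have h4 := mul_le_mul_of_nonneg_right hL23 (by linarith : (0 : ℝ) ≤ m)
      have h5 : 0 ≤ L ^ 3 * m := by positivity
      linarith
    linarith

end Pool.Agent.NQR
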