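import Pool.Agent.NQR.Defs
import Pool.Agent.NQR.PFoc

/-!
# NQR-PRes: from the board of size `N + m` to the board of size `N`

PLAN. `W` lives on `board (N+m)` with `Bd L (N+m) W`. `ε = L m/N`. Row sums over `y < N` (for `x < N`) are in
`[1 - ε, 1]` (entries `≤ L/(N+m) ≤ L/N`). `V = (1-ε) W + r_x c_y/S` on `board N`, deficits
`r_x, c_y ∈ [ε, 2ε]`, `S ≥ ε N`, added entries `≤ 4 ε/N`; diagonal sums `≤ 1 - 1/L + 4 ε ≤ 1`. `F`:
`Ent N V ≥ Ent (N+m) W - C m log N`: the `2mN + m²` squares outside have `negMulLog W ≤ (C/N)(log N + C)` each;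
inside `|negMulLog V - negMulLog W| ≤ (C ε/N)(log N + C)`. `Dg N V ≤ Dg (N+m) W + C m`. (`m = 0`: `V = W`.)
-/

set_option autoImplicit false

open Finset

namespace Pool.Agent.NQR

open Pool.Agent.NQ (board dsum F Ent Dg phi ln Q Qset st cellD bern)

private theorem res_row (n : ℕ) (W : ℤ × ℤ → ℝ) {x : ℤ} (h0 : 0 ≤ x) (h1 : x < n) :
    dsum n W 0 x = ∑ y ∈ Finset.Ico (0 : ℤ) n, W (x, y) := by
  unfold dsum board
  rw [Finset.sum_filter, Finset.sum_product]
  rw [Finset.sum_eq_single x]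
  · refine Finset.sum_congr rfl fun y _ => ?_
    rw [if_pos (Pool.Agent.NQ.ln_zero _)]
  · intro b _ hb
    refine Finset.sum_eq_zero fun y _ => ?_
    rw [if_neg]
    rw [Pool.Agent.NQ.ln_zero]
    exact hb
  · intro h
    exact absurd (Finset.mem_Ico.2 ⟨h0, h1⟩) h

private theorem res_col (n : ℕ) (W : ℤ × ℤ → ℝ) {y : ℤ} (h0 : 0 ≤ y) (h1 : y < n) :
    dsum n W 1 y = ∑ x ∈ Finset.Ico (0 : ℤ) n, W (x, y) := by
  unfold dsum board
  rw [Finset.sum_filter, Finset.sum_product]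
  refine Finset.sum_congr rfl fun x _ => ?_
  rw [Finset.sum_eq_single y]
  · rw [if_pos (Pool.Agent.NQ.ln_one _)]
  · intro b _ hb
    rw [if_neg]
    rw [Pool.Agent.NQ.ln_one]
    exact hb
  · intro h
    exact absurd (Finset.mem_Ico.2 ⟨h0, h1⟩) h

private theorem res_mul {a b : ℝ} (ha : 0 < a) (hb : 0 < b) : a * (Real.log b - Real.log a) ≤ b - a := by
  have h := Real.log_le_sub_one_of_pos (div_pos hb ha)
  rw [Real.log_div hb.ne' ha.ne'] at h
  have h2 := mul_le_mul_of_nonneg_left h ha.le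
  have h3 : a * (b / a - 1) = b - a := by
    field_simp
  rw [h3] at h2
  exact h2

private theorem res_phi_up {u v : ℝ} (huv : u ≤ v) (hv : v < 1) :
    phi v - phi u ≤ (v - u) * (- Real.log (1 - v)) := by
  have ha : 0 < 1 - u := by linarith
  have hb : 0 < 1 - v := by linarith
  have h2 := res_mul ha hb
  unfold phi
  linarith

private theorem res_phi_mono {u v : ℝ} (hu : 0 ≤ u) (huv : u ≤ v) (hv : v < 1) : phi u ≤ phi v := by
  have ha : 0 < 1 - u := by linarith
  have hb : 0 < 1 - v := by linarith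
  have h2 := res_mul hb ha
  have h3 : Real.log (1 - u) ≤ 0 := Real.log_nonpos ha.le (by linarith)
  have h4 := mul_nonneg (sub_nonneg.2 huv) (neg_nonneg.2 h3)
  unfold phi
  linarith

private theorem res_phi_nn {v : ℝ} (h0 : 0 ≤ v) (hv : v < 1) : 0 ≤ phi v := by
  have h := res_phi_mono le_rfl h0 hv
  have h1 : phi 0 = 0 := by
    unfold phi
    rw [sub_zero, Real.log_one, mul_zero, add_zero]
  rw [h1] at h
  exact h

private theorem res_nml {v w : ℝ} (hv : 0 < v) (hw : 0 < w) :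
    Real.negMulLog w + (v - w) * (- Real.log v - 1) ≤ Real.negMulLog v := by
  have h := res_mul hw hv
  unfold Real.negMulLog
  linarith

private theorem res_cardI (N : ℕ) : ((Finset.Ico (0 : ℤ) N).card : ℝ) = N := by
  rw [Int.card_Ico, sub_zero, Int.toNat_natCast]

private theorem res_cardB (N : ℕ) : (board N).card = N * N := by
  unfold board
  rw [Finset.card_product, Int.card_Ico, sub_zero, Int.toNat_natCast]

private theorem res_sub {N m : ℕ} : board N ⊆ board (N + m) := by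
  intro e he
  rw [Pool.Agent.NQ.mem_board] at he ⊢
  push_cast
  omega

private theorem res_fix {N : ℕ} (hN : 0 < N) {ε : ℝ} (h0 : 0 < ε) (h1 : ε ≤ 1) {W : ℤ × ℤ → ℝ}
    (hr : ∀ x ∈ Finset.Ico (0 : ℤ) N, 1 - ε ≤ ∑ y ∈ Finset.Ico (0 : ℤ) N, W (x, y) ∧
      ∑ y ∈ Finset.Ico (0 : ℤ) N, W (x, y) ≤ 1)
    (hc : ∀ y ∈ Finset.Ico (0 : ℤ) N, 1 - ε ≤ ∑ x ∈ Finset.Ico (0 : ℤ) N, W (x, y) ∧
      ∑ x ∈ Finset.Ico (0 : ℤ) N, W (x, y) ≤ 1) :
    ∃ V : ℤ × ℤ → ℝ, (∀ e, e ∉ board N → V e = 0) ∧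
      (∀ x : ℤ, 0 ≤ x → x < N → dsum N V 0 x = 1) ∧ (∀ y : ℤ, 0 ≤ y → y < N → dsum N V 1 y = 1) ∧
      ∀ e ∈ board N, (1 - ε) * W e ≤ V e ∧ V e ≤ (1 - ε) * W e + 4 * ε / N := by
  have hN' : (0 : ℝ) < N := by exact_mod_cast hN
  obtain ⟨r, hr'⟩ : ∃ r : ℤ → ℝ, ∀ x, r x = 1 - (1 - ε) * ∑ y ∈ Finset.Ico (0 : ℤ) N, W (x, y) :=
    ⟨_, fun _ => rfl⟩
  obtain ⟨c, hc'⟩ : ∃ c : ℤ → ℝ, ∀ y, c y = 1 - (1 - ε) * ∑ x ∈ Finset.Ico (0 : ℤ) N, W (x, y) :=
    ⟨_, fun _ => rfl⟩
  obtain ⟨S, hS⟩ : ∃ S : ℝ, ∑ x ∈ Finset.Ico (0 : ℤ) N, r x = S := ⟨_, rfl⟩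
  have hS2 : ∑ y ∈ Finset.Ico (0 : ℤ) N, c y = S := by
    rw [← hS]
    simp only [hr', hc']
    rw [Finset.sum_sub_distrib, Finset.sum_sub_distrib, ← Finset.mul_sum, ← Finset.mul_sum,
      Finset.sum_comm]
  have hr1 : ∀ x ∈ Finset.Ico (0 : ℤ) N, ε ≤ r x ∧ r x ≤ 2 * ε := by
    intro x hx
    obtain ⟨h2, h3⟩ := hr x hx
    rw [hr']
    constructor
    · nlinarith
    · nlinarith
  have hc1 : ∀ y ∈ Finset.Ico (0 : ℤ) N, ε ≤ c y ∧ c y ≤ 2 * ε := by
    intro y hy
    obtain ⟨h2, h3⟩ := hc y hy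
    rw [hc']
    constructor
    · nlinarith
    · nlinarith
  have hSp : N * ε ≤ S := by
    have h2 := Finset.card_nsmul_le_sum (Finset.Ico (0 : ℤ) N) r ε (fun x hx => (hr1 x hx).1)
    rw [nsmul_eq_mul, res_cardI, hS] at h2
    exact h2
  have hS0 : 0 < S := lt_of_lt_of_le (mul_pos hN' h0) hSp
  have hmem : ∀ x y : ℤ, x ∈ Finset.Ico (0 : ℤ) N → y ∈ Finset.Ico (0 : ℤ) N → (x, y) ∈ board N :=
    fun x y hx hy => Finset.mem_product.2 ⟨hx, hy⟩
  refine ⟨fun e => if e ∈ board N then (1 - ε) * W e + r e.1 * c e.2 / S else 0, ?_, ?_, ?_, ?_⟩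
  · intro e he
    exact if_neg he
  · intro x hx0 hx1
    rw [res_row N _ hx0 hx1]
    have hx : x ∈ Finset.Ico (0 : ℤ) N := Finset.mem_Ico.2 ⟨hx0, hx1⟩
    have e1 : ∀ y ∈ Finset.Ico (0 : ℤ) N,
        (fun e : ℤ × ℤ => if e ∈ board N then (1 - ε) * W e + r e.1 * c e.2 / S else 0) (x, y) =
          (1 - ε) * W (x, y) + r x / S * c y := by
      intro y hy
      show (if (x, y) ∈ board N then (1 - ε) * W (x, y) + r x * c y / S else 0) = _
      rw [if_pos (hmem x y hx hy)]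
      ring
    rw [Finset.sum_congr rfl e1, Finset.sum_add_distrib, ← Finset.mul_sum, ← Finset.mul_sum, hS2,
      div_mul_cancel₀ _ hS0.ne', hr']
    ring
  · intro y hy0 hy1
    rw [res_col N _ hy0 hy1]
    have hy : y ∈ Finset.Ico (0 : ℤ) N := Finset.mem_Ico.2 ⟨hy0, hy1⟩
    have e1 : ∀ x ∈ Finset.Ico (0 : ℤ) N,
        (fun e : ℤ × ℤ => if e ∈ board N then (1 - ε) * W e + r e.1 * c e.2 / S else 0) (x, y) =
          (1 - ε) * W (x, y) + c y / S * r x := by
      intro x hx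
      show (if (x, y) ∈ board N then (1 - ε) * W (x, y) + r x * c y / S else 0) = _
      rw [if_pos (hmem x y hx hy)]
      ring
    rw [Finset.sum_congr rfl e1, Finset.sum_add_distrib, ← Finset.mul_sum, ← Finset.mul_sum, hS,
      div_mul_cancel₀ _ hS0.ne', hc']
    ring
  · intro e he
    have he1 : e.1 ∈ Finset.Ico (0 : ℤ) N := (Finset.mem_product.1 he).1
    have he2 : e.2 ∈ Finset.Ico (0 : ℤ) N := (Finset.mem_product.1 he).2
    obtain ⟨a1, a2⟩ := hr1 e.1 he1
    obtain ⟨b1, b2⟩ := hc1 e.2 he2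
    show (1 - ε) * W e ≤ (if e ∈ board N then (1 - ε) * W e + r e.1 * c e.2 / S else 0) ∧
      (if e ∈ board N then (1 - ε) * W e + r e.1 * c e.2 / S else 0) ≤ (1 - ε) * W e + 4 * ε / N
    rw [if_pos he]
    have hnn : 0 ≤ r e.1 * c e.2 / S :=
      div_nonneg (mul_nonneg (h0.le.trans a1) (h0.le.trans b1)) hS0.le
    have hup : r e.1 * c e.2 / S ≤ 4 * ε / N := by
      rw [div_le_div_iff₀ hS0 hN']
      have h5 : r e.1 * c e.2 ≤ (2 * ε) * (2 * ε) :=
        mul_le_mul a2 b2 (h0.le.trans b1) (by linarith)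
      have h6 : r e.1 * c e.2 * N ≤ (2 * ε) * (2 * ε) * N := mul_le_mul_of_nonneg_right h5 hN'.le
      have h7 : 4 * ε * (N * ε) ≤ 4 * ε * S := mul_le_mul_of_nonneg_left hSp (by linarith)
      nlinarith
    constructor
    · linarith
    · linarith

private theorem res_diag {N m : ℕ} (hN : 0 < N) {ε : ℝ} (h0 : 0 ≤ ε) {V W : ℤ × ℤ → ℝ}
    (hW : ∀ e, 0 ≤ W e) (hV : ∀ e ∈ board N, V e ≤ (1 - ε) * W e + 4 * ε / N) (k : Fin 4)
    (hk : k = 2 ∨ k = 3) (s : ℤ) : dsum N V k s ≤ dsum (N + m) W k s + 4 * ε := by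
  have hN' : (0 : ℝ) < N := by exact_mod_cast hN
  have hcard : ((board N).filter (fun e => ln k e = s)).card ≤ N := by
    have h1 : (Finset.Ico (0 : ℤ) N).card = N := by
      rw [Int.card_Ico, sub_zero, Int.toNat_natCast]
    refine (Finset.card_le_card_of_injOn (t := Finset.Ico (0 : ℤ) N) (fun e => e.1) ?_ ?_).trans h1.le
    · intro e he
      have he' := (Finset.mem_filter.1 (Finset.mem_coe.1 he)).1
      exact Finset.mem_coe.2 (Finset.mem_product.1 he').1
    · intro e he f hf hef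
      have he' := (Finset.mem_filter.1 (Finset.mem_coe.1 he)).2
      have hf' := (Finset.mem_filter.1 (Finset.mem_coe.1 hf)).2
      have hef' : e.1 = f.1 := hef
      rcases hk with rfl | rfl
      · rw [Pool.Agent.NQ.ln_two] at he' hf'
        exact Prod.ext hef' (by omega)
      · rw [Pool.Agent.NQ.ln_three] at he' hf'
        exact Prod.ext hef' (by omega)
  have hc0 : 0 ≤ 4 * ε / N := by positivity
  unfold dsum
  calc ∑ e ∈ (board N).filter (fun e => ln k e = s), V e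
      ≤ ∑ e ∈ (board N).filter (fun e => ln k e = s), (W e + 4 * ε / N) := by
        refine Finset.sum_le_sum fun e he => ?_
        have h2 := hV e (Finset.mem_filter.1 he).1
        have h3 := mul_nonneg h0 (hW e)
        linarith
    _ = ∑ e ∈ (board N).filter (fun e => ln k e = s), W e +
          ((board N).filter (fun e => ln k e = s)).card * (4 * ε / N) := by
        rw [Finset.sum_add_distrib, Finset.sum_const, nsmul_eq_mul]
    _ ≤ ∑ e ∈ (board (N + m)).filter (fun e => ln k e = s), W e + N * (4 * ε / N) := by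
        refine add_le_add ?_ ?_
        · exact Finset.sum_le_sum_of_subset_of_nonneg (Finset.filter_subset_filter _ res_sub)
            (fun e _ _ => hW e)
        · exact mul_le_mul_of_nonneg_right (by exact_mod_cast hcard) hc0
    _ = ∑ e ∈ (board (N + m)).filter (fun e => ln k e = s), W e + 4 * ε := by
        rw [mul_div_cancel₀ _ hN'.ne']

private theorem res_dsum_nn {n : ℕ} {W : ℤ × ℤ → ℝ} (hW : ∀ e, 0 ≤ W e) (k : Fin 4) (s : ℤ) :
    0 ≤ dsum n W k s := Finset.sum_nonneg fun e _ => hW e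

/-- bound for one diagonal -/
private theorem res_one {L : ℝ} (hL : 1 ≤ L) {ε : ℝ} (h0 : 0 ≤ ε) (hε : 8 * L * ε ≤ 1) {u v : ℝ}
    (hv0 : 0 ≤ v) (hu : 1 / L ≤ 1 - u) (hvu : v ≤ u + 4 * ε) :
    phi v ≤ phi u + 8 * L * ε := by
  have hL0 : 0 < L := by linarith
  have h1 : 1 / (2 * L) ≤ 1 - (u + 4 * ε) := by
    have h2 : 4 * ε ≤ 1 / (2 * L) := by
      rw [le_div_iff₀ (by positivity)]
      linarith
    have h3 : 1 / L = 1 / (2 * L) + 1 / (2 * L) := by
      field_simp
      norm_num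
    linarith
  have h4 : 0 < 1 / (2 * L) := by positivity
  have h5 : u + 4 * ε < 1 := by linarith
  have h6 := res_phi_mono hv0 hvu h5
  have h7 := res_phi_up (show u ≤ u + 4 * ε by linarith) h5
  have h8 : - Real.log (1 - (u + 4 * ε)) ≤ 2 * L := by
    have h9 := Real.log_le_log h4 h1
    rw [one_div, Real.log_inv] at h9
    have h10 := Real.log_le_sub_one_of_pos (show 0 < 2 * L by linarith)
    linarith
  have h9 : (u + 4 * ε - u) * (- Real.log (1 - (u + 4 * ε))) ≤ (4 * ε) * (2 * L) := by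
    rw [add_sub_cancel_left]
    exact mul_le_mul_of_nonneg_left h8 (by linarith)
  linarith

private theorem res_dg {L : ℝ} (hL : 1 ≤ L) {N m : ℕ} {ε : ℝ} (h0 : 0 ≤ ε)
    (hε : 8 * L * ε ≤ 1) {V W : ℤ × ℤ → ℝ} (hB : Bd L (N + m) W) (hW : ∀ e, 0 ≤ W e)
    (hV : ∀ e, 0 ≤ V e)
    (hd : ∀ k : Fin 4, (k = 2 ∨ k = 3) → ∀ s, dsum N V k s ≤ dsum (N + m) W k s + 4 * ε) :
    Dg N V ≤ Dg (N + m) W + 32 * L * (N * ε) := by
  have hL0 : 0 < L := by linarith
  have hLi : 0 < 1 / L := by positivity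
  have hc : 0 ≤ 8 * L * ε := by positivity
  have b2 : ∀ s, 1 / L ≤ 1 - dsum (N + m) W 2 s := fun s => hB.sd s
  have b3 : ∀ s, 1 / L ≤ 1 - dsum (N + m) W 3 s := fun s => hB.dd s
  have p2 : ∀ s, 0 ≤ phi (dsum (N + m) W 2 s) := fun s =>
    res_phi_nn (res_dsum_nn hW 2 s) (by have := b2 s; linarith)
  have p3 : ∀ s, 0 ≤ phi (dsum (N + m) W 3 s) := fun s =>
    res_phi_nn (res_dsum_nn hW 3 s) (by have := b3 s; linarith)
  have e2 : ∑ s ∈ Finset.Ico (0 : ℤ) (2 * N), phi (dsum N V 2 s) ≤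
      ∑ s ∈ Finset.Ico (0 : ℤ) (2 * (N + m : ℕ)), phi (dsum (N + m) W 2 s) + 2 * N * (8 * L * ε) := by
    calc ∑ s ∈ Finset.Ico (0 : ℤ) (2 * N), phi (dsum N V 2 s)
        ≤ ∑ s ∈ Finset.Ico (0 : ℤ) (2 * N), (phi (dsum (N + m) W 2 s) + 8 * L * ε) :=
          Finset.sum_le_sum fun s _ => res_one hL h0 hε (res_dsum_nn hV 2 s)
            (b2 s) (hd 2 (Or.inl rfl) s)
      _ = ∑ s ∈ Finset.Ico (0 : ℤ) (2 * N), phi (dsum (N + m) W 2 s) + 2 * N * (8 * L * ε) := by
          rw [Finset.sum_add_distrib, Finset.sum_const, nsmul_eq_mul, Int.card_Ico]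
          have : (2 * (N : ℤ) - 0).toNat = 2 * N := by omega
          rw [this]
          push_cast
          ring
      _ ≤ _ := by
          refine add_le_add ?_ le_rfl
          refine Finset.sum_le_sum_of_subset_of_nonneg ?_ (fun s _ _ => p2 s)
          intro s hs
          rw [Finset.mem_Ico] at hs ⊢
          push_cast
          omega
  have e3 : ∑ s ∈ Finset.Ioo (-(N : ℤ)) N, phi (dsum N V 3 s) ≤
      ∑ s ∈ Finset.Ioo (-((N + m : ℕ) : ℤ)) (N + m : ℕ), phi (dsum (N + m) W 3 s) +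
        2 * N * (8 * L * ε) := by
    calc ∑ s ∈ Finset.Ioo (-(N : ℤ)) N, phi (dsum N V 3 s)
        ≤ ∑ s ∈ Finset.Ioo (-(N : ℤ)) N, (phi (dsum (N + m) W 3 s) + 8 * L * ε) :=
          Finset.sum_le_sum fun s _ => res_one hL h0 hε (res_dsum_nn hV 3 s)
            (b3 s) (hd 3 (Or.inr rfl) s)
      _ = ∑ s ∈ Finset.Ioo (-(N : ℤ)) N, phi (dsum (N + m) W 3 s) +
            ((Finset.Ioo (-(N : ℤ)) N).card : ℝ) * (8 * L * ε) := by
          rw [Finset.sum_add_distrib, Finset.sum_const, nsmul_eq_mul]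
      _ ≤ _ := by
          refine add_le_add ?_ (mul_le_mul_of_nonneg_right ?_ hc)
          · refine Finset.sum_le_sum_of_subset_of_nonneg ?_ (fun s _ _ => p3 s)
            intro s hs
            rw [Finset.mem_Ioo] at hs ⊢
            push_cast
            omega
          · have h5 : (Finset.Ioo (-(N : ℤ)) N).card ≤ 2 * N := by
              rw [Int.card_Ioo]
              omega
            exact_mod_cast h5
  unfold Dg
  have e4 : 2 * (N : ℝ) * (8 * L * ε) + 2 * N * (8 * L * ε) = 32 * L * (N * ε) := by ring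
  linarith

private theorem res_ent {L : ℝ} (hL : 1 ≤ L) {N m : ℕ} (hN : 1000 ≤ N) (hmN : m ≤ N) (hLN : 8 * L ≤ N)
    {ε : ℝ} (h0 : 0 ≤ ε) (h1 : ε ≤ 1 / 8) {V W : ℤ × ℤ → ℝ} (hB : Bd L (N + m) W)
    (hV : ∀ e ∈ board N, (1 - ε) * W e ≤ V e ∧ V e ≤ (1 - ε) * W e + 4 * ε / N) :
    Ent (N + m) W ≤ Ent N V + 3 * L * (1 + 2 * L) * m * Real.log N +
      N * ε * (L + 4) * (2 + 4 * L) * Real.log N := by
  have hL0 : 0 < L := by linarith
  have hN1 : (1000 : ℝ) ≤ N := by exact_mod_cast hN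
  have hN' : (0 : ℝ) < N := by linarith
  have hm' : (m : ℝ) ≤ N := by exact_mod_cast hmN
  have hm0 : (0 : ℝ) ≤ m := Nat.cast_nonneg m
  have hlog : 1 ≤ Real.log N := by
    rw [Real.le_log_iff_exp_le hN']
    have := Real.exp_one_lt_d9
    linarith
  have hn : ((N + m : ℕ) : ℝ) = N + m := by push_cast; ring
  -- bounds for the entries
  have wlo : ∀ e ∈ board (N + m), 1 / (2 * L * N) ≤ W e := by
    intro e he
    refine le_trans ?_ (hB.lo e he)
    rw [hn]
    refine one_div_le_one_div_of_le (by positivity) ?_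
    nlinarith
  have whi : ∀ e ∈ board (N + m), W e ≤ L / N := by
    intro e he
    refine (hB.hi e he).trans ?_
    rw [hn]
    exact div_le_div_of_nonneg_left hL0.le hN' (by linarith)
  have hLN1 : L / N ≤ 1 / 8 := by
    rw [div_le_iff₀ hN']
    linarith
  have hlogL : Real.log (2 * L * N) ≤ (1 + 2 * L) * Real.log N := by
    rw [Real.log_mul (by positivity) hN'.ne']
    have h2 := Real.log_le_sub_one_of_pos (show 0 < 2 * L by linarith)
    nlinarith
  have hlogL4 : Real.log (4 * L * N) + 1 ≤ (2 + 4 * L) * Real.log N := by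
    rw [Real.log_mul (by positivity) hN'.ne']
    have h2 := Real.log_le_sub_one_of_pos (show 0 < 4 * L by linarith)
    nlinarith
  -- the squares outside
  have hout : ∑ e ∈ board (N + m) \ board N, Real.negMulLog (W e) ≤
      3 * L * (1 + 2 * L) * m * Real.log N := by
    have hb : ∀ e ∈ board (N + m) \ board N, Real.negMulLog (W e) ≤ L / N * ((1 + 2 * L) * Real.log N) := by
      intro e he
      have he' := (Finset.mem_sdiff.1 he).1
      have a1 := wlo e he'
      have a2 := whi e he'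
      have a0 : 0 < 1 / (2 * L * N) := by positivity
      have a3 : 0 < W e := lt_of_lt_of_le a0 a1
      have a4 : - Real.log (W e) ≤ Real.log (2 * L * N) := by
        have := Real.log_le_log a0 a1
        rw [one_div, Real.log_inv] at this
        linarith
      have a5 : 0 ≤ - Real.log (W e) := by
        have := Real.log_nonpos a3.le (by linarith)
        linarith
      have a6 : Real.negMulLog (W e) = W e * (- Real.log (W e)) := by
        unfold Real.negMulLog
        ring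
      rw [a6]
      exact mul_le_mul a2 (a4.trans hlogL) a5 (by positivity)
    have hcard : ((board (N + m) \ board N).card : ℝ) ≤ 3 * m * N := by
      have h3 := Finset.card_sdiff_add_card_eq_card (res_sub (N := N) (m := m))
      rw [res_cardB, res_cardB] at h3
      have h4 : ((board (N + m) \ board N).card : ℝ) + N * N = (N + m) * (N + m) := by
        exact_mod_cast h3
      nlinarith
    have h5 := Finset.sum_le_card_nsmul _ _ _ hb
    rw [nsmul_eq_mul] at h5
    have h6 : 0 ≤ L / N * ((1 + 2 * L) * Real.log N) := by positivity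
    refine h5.trans ((mul_le_mul_of_nonneg_right hcard h6).trans (le_of_eq ?_))
    field_simp
  -- the squares inside
  have hin : ∑ e ∈ board N, Real.negMulLog (W e) ≤ Ent N V + N * ε * (L + 4) * (2 + 4 * L) * Real.log N := by
    have hb : ∀ e ∈ board N, Real.negMulLog (W e) ≤
        Real.negMulLog (V e) + ε * (L + 4) / N * ((2 + 4 * L) * Real.log N) := by
      intro e he
      have he' := res_sub (m := m) he
      have a1 := wlo e he'
      have a2 := whi e he'
      have a0 : 0 < 1 / (2 * L * N) := by positivity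
      have a3 : 0 < W e := lt_of_lt_of_le a0 a1
      obtain ⟨v1, v2⟩ := hV e he
      have v3 : W e / 2 ≤ V e := by nlinarith
      have v4 : 1 / (4 * L * N) ≤ V e := by
        have : 1 / (4 * L * N) = 1 / (2 * L * N) / 2 := by
          field_simp
          norm_num
        rw [this]
        linarith
      have v5 : 0 < V e := by linarith
      have v6 : 4 * ε / N ≤ 1 / 2 := by
        rw [div_le_iff₀ hN']
        nlinarith
      have v7 : V e ≤ 1 := by nlinarith
      have l1 : - Real.log (V e) ≤ Real.log (4 * L * N) := by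
        have h3 : 0 < 1 / (4 * L * N) := by positivity
        have := Real.log_le_log h3 v4
        rw [one_div, Real.log_inv] at this
        linarith
      have l2 : 0 ≤ - Real.log (V e) := by
        have := Real.log_nonpos v5.le v7
        linarith
      have d1 : |V e - W e| ≤ ε * (L + 4) / N := by
        have e1 : ε * W e ≤ ε * (L / N) := mul_le_mul_of_nonneg_left a2 h0
        have e2 : ε * (L + 4) / N = ε * (L / N) + 4 * ε / N := by ring
        have e3 : 0 ≤ 4 * ε / N := by positivity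
        have e4 : 0 ≤ ε * (L / N) := by positivity
        have e5 : 0 ≤ ε * W e := mul_nonneg h0 a3.le
        rw [e2, abs_le]
        constructor
        · linarith
        · linarith
      have n1 := res_nml v5 a3
      have n2 : -(|V e - W e| * |- Real.log (V e) - 1|) ≤ (V e - W e) * (- Real.log (V e) - 1) := by
        rw [← abs_mul]
        exact neg_abs_le _
      have n3 : |- Real.log (V e) - 1| ≤ (2 + 4 * L) * Real.log N := by
        rw [abs_le]
        constructor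
        · linarith
        · linarith
      have n4 : |V e - W e| * |- Real.log (V e) - 1| ≤
          ε * (L + 4) / N * ((2 + 4 * L) * Real.log N) :=
        mul_le_mul d1 n3 (abs_nonneg _) (by positivity)
      linarith
    calc ∑ e ∈ board N, Real.negMulLog (W e)
        ≤ ∑ e ∈ board N, (Real.negMulLog (V e) + ε * (L + 4) / N * ((2 + 4 * L) * Real.log N)) :=
          Finset.sum_le_sum hb
      _ = Ent N V + N * ε * (L + 4) * (2 + 4 * L) * Real.log N := by
          rw [Finset.sum_add_distrib, Finset.sum_const, nsmul_eq_mul, res_cardB]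
          unfold Ent
          push_cast
          field_simp
  have hsplit : Ent (N + m) W = ∑ e ∈ board (N + m) \ board N, Real.negMulLog (W e) +
      ∑ e ∈ board N, Real.negMulLog (W e) := by
    unfold Ent
    rw [Finset.sum_sdiff res_sub]
  rw [hsplit]
  linarith

private theorem res_part {N m : ℕ} {c : ℝ} {f : ℤ → ℝ}
    (hf : ∀ y ∈ Finset.Ico (0 : ℤ) (N + m : ℕ), 0 ≤ f y ∧ f y ≤ c)
    (h1 : ∑ y ∈ Finset.Ico (0 : ℤ) (N + m : ℕ), f y = 1) :
    1 - m * c ≤ ∑ y ∈ Finset.Ico (0 : ℤ) N, f y ∧ ∑ y ∈ Finset.Ico (0 : ℤ) N, f y ≤ 1 := by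
  have hsub : Finset.Ico (0 : ℤ) N ⊆ Finset.Ico (0 : ℤ) (N + m : ℕ) := by
    intro s hs
    rw [Finset.mem_Ico] at hs ⊢
    push_cast
    omega
  have h2 := Finset.sum_sdiff (f := f) hsub
  rw [h1] at h2
  have h3 : 0 ≤ ∑ y ∈ Finset.Ico (0 : ℤ) (N + m : ℕ) \ Finset.Ico (0 : ℤ) N, f y :=
    Finset.sum_nonneg fun y hy => (hf y (Finset.mem_sdiff.1 hy).1).1
  have h4 := Finset.sum_le_card_nsmul (Finset.Ico (0 : ℤ) (N + m : ℕ) \ Finset.Ico (0 : ℤ) N) f c
    (fun y hy => (hf y (Finset.mem_sdiff.1 hy).1).2)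
  have h5 : (Finset.Ico (0 : ℤ) (N + m : ℕ) \ Finset.Ico (0 : ℤ) N).card = m := by
    have h6 := Finset.card_sdiff_add_card_eq_card hsub
    rw [Int.card_Ico, Int.card_Ico] at h6
    omega
  rw [nsmul_eq_mul, h5] at h4
  constructor
  · linarith
  · linarith

theorem restrict (L : ℝ) (hL : 1 ≤ L) : ∃ C : ℝ, 0 < C ∧ ∀ N m : ℕ, 1000 ≤ N → C * m ≤ N →
    ∀ W : ℤ × ℤ → ℝ, Adm (N + m) W → Bd L (N + m) W → ∃ V, Adm N V ∧
      F (N + m) W - C * m * Real.log N ≤ F N V := by
  have hL0 : 0 < L := by linarith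
  refine ⟨3 * L * (1 + 2 * L) + L * (L + 4) * (2 + 4 * L) + 40 * L ^ 2, by positivity, ?_⟩
  intro N m hN hC W hW hB
  rcases Nat.eq_zero_or_pos m with rfl | hm
  · refine ⟨W, hW, ?_⟩
    show F (N + 0) W - _ ≤ F (N + 0) W
    rw [Nat.cast_zero, mul_zero, zero_mul, sub_zero]
  have hN1 : (1000 : ℝ) ≤ N := by exact_mod_cast hN
  have hN' : (0 : ℝ) < N := by linarith
  have hm1 : (1 : ℝ) ≤ m := by exact_mod_cast hm
  have hm0 : (0 : ℝ) < m := by linarith
  have hC2 : 40 * L ^ 2 * m ≤ N := by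
    refine le_trans (mul_le_mul_of_nonneg_right ?_ hm0.le) hC
    have : 0 ≤ 3 * L * (1 + 2 * L) + L * (L + 4) * (2 + 4 * L) := by positivity
    linarith
  have hL2 : L ≤ L ^ 2 := by nlinarith
  have hLN : 8 * L ≤ N := by nlinarith
  have hmN : m ≤ N := by
    have : (m : ℝ) ≤ N := by nlinarith
    exact_mod_cast this
  obtain ⟨ε, hε⟩ : ∃ ε : ℝ, ε = L * m / N := ⟨_, rfl⟩
  have hNε : N * ε = L * m := by
    rw [hε]
    field_simp
  have hε0 : 0 < ε := by
    rw [hε]
    positivity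
  have hε8 : 8 * L * ε ≤ 1 := by
    rw [hε, ← mul_div_assoc, div_le_one hN']
    nlinarith
  have hε1 : ε ≤ 1 / 8 := by nlinarith
  have hn : ((N + m : ℕ) : ℝ) = N + m := by push_cast; ring
  have whi : ∀ e, W e ≤ L / N := by
    intro e
    by_cases he : e ∈ board (N + m)
    · refine (hB.hi e he).trans ?_
      rw [hn]
      exact div_le_div_of_nonneg_left hL0.le hN' (by linarith)
    · rw [hW.out e he]
      positivity
  have hmc : (m : ℝ) * (L / N) = ε := by
    rw [hε]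
    ring
  have hr : ∀ x ∈ Finset.Ico (0 : ℤ) N, 1 - ε ≤ ∑ y ∈ Finset.Ico (0 : ℤ) N, W (x, y) ∧
      ∑ y ∈ Finset.Ico (0 : ℤ) N, W (x, y) ≤ 1 := by
    intro x hx
    rw [Finset.mem_Ico] at hx
    have hx1 : x < ((N + m : ℕ) : ℤ) := by
      push_cast
      omega
    have h2 := hW.row x hx.1 hx1
    rw [res_row (N + m) W hx.1 hx1] at h2
    rw [← hmc]
    exact res_part (fun y _ => ⟨hW.nn _, whi _⟩) h2
  have hc : ∀ y ∈ Finset.Ico (0 : ℤ) N, 1 - ε ≤ ∑ x ∈ Finset.Ico (0 : ℤ) N, W (x, y) ∧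
      ∑ x ∈ Finset.Ico (0 : ℤ) N, W (x, y) ≤ 1 := by
    intro y hy
    rw [Finset.mem_Ico] at hy
    have hy1 : y < ((N + m : ℕ) : ℤ) := by
      push_cast
      omega
    have h2 := hW.col y hy.1 hy1
    rw [res_col (N + m) W hy.1 hy1] at h2
    rw [← hmc]
    exact res_part (f := fun x => W (x, y)) (fun x _ => ⟨hW.nn _, whi _⟩) h2
  obtain ⟨V, V0, Vr, Vc, VB⟩ := res_fix (show 0 < N by omega) hε0 (by linarith) hr hc
  have Vnn : ∀ e, 0 ≤ V e := by
    intro e
    by_cases he : e ∈ board N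
    · exact le_trans (mul_nonneg (by linarith) (hW.nn e)) (VB e he).1
    · rw [V0 e he]
  have hd : ∀ k : Fin 4, (k = 2 ∨ k = 3) → ∀ s, dsum N V k s ≤ dsum (N + m) W k s + 4 * ε :=
    fun k hk s => res_diag (show 0 < N by omega) hε0.le hW.nn (fun e he => (VB e he).2) k hk s
  have h4ε : 4 * ε ≤ 1 / L := by
    rw [le_div_iff₀ hL0]
    nlinarith
  refine ⟨V, ⟨Vnn, V0, Vr, Vc, ?_, ?_⟩, ?_⟩
  · intro s
    have h2 := hd 2 (Or.inl rfl) s
    have h3 : 1 / L ≤ 1 - dsum (N + m) W 2 s := hB.sd s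
    linarith
  · intro s
    have h2 := hd 3 (Or.inr rfl) s
    have h3 : 1 / L ≤ 1 - dsum (N + m) W 3 s := hB.dd s
    linarith
  · have hlog : 1 ≤ Real.log N := by
      rw [Real.le_log_iff_exp_le hN']
      have := Real.exp_one_lt_d9
      linarith
    have h5 := res_ent hL hN hmN hLN hε0.le hε1 hB VB
    have h6 := res_dg (m := m) hL hε0.le hε8 hB hW.nn Vnn hd
    rw [hNε] at h5 h6
    have h7 : 32 * L * (L * m) ≤ 40 * L ^ 2 * m * Real.log N := by
      have h8 : 0 ≤ L ^ 2 * m := by positivity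
      nlinarith
    unfold F
    have h9 : (3 * L * (1 + 2 * L) + L * (L + 4) * (2 + 4 * L) + 40 * L ^ 2) * m * Real.log N =
        3 * L * (1 + 2 * L) * m * Real.log N + L * m * (L + 4) * (2 + 4 * L) * Real.log N +
          40 * L ^ 2 * m * Real.log N := by ring
    rw [h9]
    linarith

end Pool.Agent.NQR
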