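import Pool.Agent.NQR.Defs
import Pool.Agent.NQR.PExt
import Pool.Agent.NQR.PRes
import Pool.Agent.NQR.PKl
import Pool.Agent.NQR.PPos

/-!
# NQR-PCmp: the maximisers of neighbouring boards

PLAN. `V` from `extend` (for `W`), `V'` from `restrict` (for `W'`): `F (N+m) W' ≤ F N V' + C m log N ≤ F N W + C m log N
≤ F (N+m) V + 2 C m log N`. `l1_le` on the board `N + m`: `l1 (N+m) V W' ≤ √(4 (N+m) 2 C m log N) ≤ C' √(N m log N)`;
so `l1 N W' W ≤ l1 (N+m) V W' + l1 N V W ≤ C'' √(N m log N)` (`m ≤ √(N m log N)` for `m ≤ N`, `log N ≥ 1`).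
Second claim: `dsum (N+m) W' 3 s` = part in `board N` (compare with `l1 N W' W`, each square is on one diagonal) plus part
outside `board N`, total mass outside `≤ 2m`.
-/

set_option autoImplicit false

open Finset

namespace Pool.Agent.NQR

open Pool.Agent.NQ (board dsum F Ent Dg phi ln Q Qset st cellD bern)

private theorem pc_sub {N M : ℕ} (h : N ≤ M) : board N ⊆ board M := by
  intro e he
  rw [NQ.mem_board] at he ⊢
  have h1 : (N : ℤ) ≤ M := by exact_mod_cast h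
  exact ⟨⟨he.1.1, he.1.2.trans_le h1⟩, ⟨he.2.1, he.2.2.trans_le h1⟩⟩

private theorem pc_card (N m : ℕ) :
    ∑ x ∈ Finset.Ico (0 : ℤ) ((N + m : ℕ) : ℤ), (if (N : ℤ) ≤ x then (1 : ℝ) else 0) = m := by
  rw [Finset.sum_boole]
  have e : (Finset.Ico (0 : ℤ) ((N + m : ℕ) : ℤ)).filter (fun x => (N : ℤ) ≤ x) =
      Finset.Ico (N : ℤ) ((N + m : ℕ) : ℤ) := by
    ext x
    rw [mem_filter, mem_Ico, mem_Ico]
    constructor
    · rintro ⟨⟨_, h1⟩, h2⟩
      exact ⟨h2, h1⟩
    · rintro ⟨h2, h1⟩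
      exact ⟨⟨le_trans (Int.natCast_nonneg N) h2, h1⟩, h2⟩
  rw [e, Int.card_Ico]
  have e2 : (((N + m : ℕ) : ℤ) - N).toNat = m := by
    push_cast
    rw [add_sub_cancel_left, Int.toNat_natCast]
  rw [e2]

private theorem pc_outside {N m : ℕ} {W' : ℤ × ℤ → ℝ} (h : Adm (N + m) W') :
    ∑ e ∈ board (N + m) \ board N, W' e ≤ 2 * m := by
  have h0 := sum_dsum0 (N + m) W' (fun x => if (N : ℤ) ≤ x then 1 else 0)
  have h1 := sum_dsum1 (N + m) W' (fun x => if (N : ℤ) ≤ x then 1 else 0)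
  have e0 : ∑ x ∈ Finset.Ico (0 : ℤ) ((N + m : ℕ) : ℤ),
      dsum (N + m) W' 0 x * (if (N : ℤ) ≤ x then 1 else 0) = m := by
    rw [← pc_card N m]
    refine sum_congr rfl fun x hx => ?_
    rw [mem_Ico] at hx
    rw [h.row x hx.1 hx.2, one_mul]
  have e1 : ∑ x ∈ Finset.Ico (0 : ℤ) ((N + m : ℕ) : ℤ),
      dsum (N + m) W' 1 x * (if (N : ℤ) ≤ x then 1 else 0) = m := by
    rw [← pc_card N m]
    refine sum_congr rfl fun x hx => ?_
    rw [mem_Ico] at hx
    rw [h.col x hx.1 hx.2, one_mul]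
  have hnn : ∀ e : ℤ × ℤ, 0 ≤ W' e * (if (N : ℤ) ≤ e.1 then 1 else 0) +
      W' e * (if (N : ℤ) ≤ e.2 then 1 else 0) := by
    intro e
    have hn := h.nn e
    split_ifs <;> linarith
  calc ∑ e ∈ board (N + m) \ board N, W' e
      ≤ ∑ e ∈ board (N + m) \ board N, (W' e * (if (N : ℤ) ≤ e.1 then 1 else 0) +
          W' e * (if (N : ℤ) ≤ e.2 then 1 else 0)) := by
        refine sum_le_sum fun e he => ?_
        rw [mem_sdiff, NQ.mem_board, NQ.mem_board] at he
        have hn := h.nn e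
        by_cases h1 : (N : ℤ) ≤ e.1
        · rw [if_pos h1]
          split_ifs <;> linarith
        · have h2 : (N : ℤ) ≤ e.2 := by
            by_contra h2
            exact he.2 ⟨⟨he.1.1.1, not_le.1 h1⟩, ⟨he.1.2.1, not_le.1 h2⟩⟩
          rw [if_neg h1, if_pos h2]
          linarith
    _ ≤ ∑ e ∈ board (N + m), (W' e * (if (N : ℤ) ≤ e.1 then 1 else 0) +
          W' e * (if (N : ℤ) ≤ e.2 then 1 else 0)) :=
        sum_le_sum_of_subset_of_nonneg sdiff_subset fun e _ _ => hnn e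
    _ = m + m := by
        rw [sum_add_distrib, h0, h1, e0, e1]
    _ = 2 * m := by ring

private theorem pc_lt {L : ℝ} (hL : 1 ≤ L) {N : ℕ} {W : ℤ × ℤ → ℝ} (hB : Bd L N W) (hN : 1 ≤ N) :
    (∀ e ∈ board N, 0 < W e) ∧ (∀ s, dsum N W 2 s < 1) ∧ (∀ s, dsum N W 3 s < 1) := by
  have hL0 : 0 < L := by linarith
  have hN0 : (0 : ℝ) < N := by exact_mod_cast hN
  have hL1 : 0 < 1 / L := by positivity
  refine ⟨fun e he => ?_, fun s => ?_, fun s => ?_⟩
  · exact lt_of_lt_of_le (by positivity) (hB.lo e he)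
  · have h1 := hB.sd s
    unfold hS at h1
    linarith
  · have h1 := hB.dd s
    unfold hD at h1
    linarith

private theorem pc_diag (N m : ℕ) (W W' : ℤ × ℤ → ℝ) (h : Adm (N + m) W') :
    ∑ s ∈ Finset.Ioo (-(N : ℤ)) N, |dsum (N + m) W' 3 s - dsum N W 3 s| ≤
      l1 N W' W + 2 * m := by
  have h1 : ∀ s : ℤ, |dsum (N + m) W' 3 s - dsum N W 3 s| ≤
      (∑ e ∈ (board N).filter (fun e => ln 3 e = s), |W' e - W e|) +
        ∑ e ∈ (board (N + m) \ board N).filter (fun e => ln 3 e = s), W' e := by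
    intro s
    have e1 : dsum (N + m) W' 3 s = (∑ e ∈ (board N).filter (fun e => ln 3 e = s), W' e) +
        ∑ e ∈ (board (N + m) \ board N).filter (fun e => ln 3 e = s), W' e := by
      unfold dsum
      rw [← Finset.sum_union]
      · rw [← Finset.filter_union, Finset.union_sdiff_of_subset (pc_sub (Nat.le_add_right N m))]
      · exact Finset.disjoint_filter_filter Finset.disjoint_sdiff
    have e2 : dsum (N + m) W' 3 s - dsum N W 3 s =
        (∑ e ∈ (board N).filter (fun e => ln 3 e = s), (W' e - W e)) +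
        ∑ e ∈ (board (N + m) \ board N).filter (fun e => ln 3 e = s), W' e := by
      rw [e1, Finset.sum_sub_distrib]
      unfold dsum
      ring
    rw [e2]
    refine (abs_add_le _ _).trans (add_le_add (Finset.abs_sum_le_sum_abs _ _) ?_)
    rw [abs_of_nonneg (Finset.sum_nonneg fun e _ => h.nn e)]
  calc ∑ s ∈ Finset.Ioo (-(N : ℤ)) N, |dsum (N + m) W' 3 s - dsum N W 3 s|
      ≤ ∑ s ∈ Finset.Ioo (-(N : ℤ)) N,
          ((∑ e ∈ (board N).filter (fun e => ln 3 e = s), |W' e - W e|) +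
          ∑ e ∈ (board (N + m) \ board N).filter (fun e => ln 3 e = s), W' e) :=
        Finset.sum_le_sum fun s _ => h1 s
    _ = (∑ s ∈ Finset.Ioo (-(N : ℤ)) N,
          ∑ e ∈ (board N).filter (fun e => ln 3 e = s), |W' e - W e|) +
        ∑ s ∈ Finset.Ioo (-(N : ℤ)) N,
          ∑ e ∈ (board (N + m) \ board N).filter (fun e => ln 3 e = s), W' e :=
        Finset.sum_add_distrib
    _ ≤ (∑ e ∈ board N, |W' e - W e|) + ∑ e ∈ board (N + m) \ board N, W' e := by
        refine add_le_add ?_ ?_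
        · exact Finset.sum_fiberwise_le_sum_of_sum_fiber_nonneg fun s _ =>
            Finset.sum_nonneg fun e _ => abs_nonneg _
        · exact Finset.sum_fiberwise_le_sum_of_sum_fiber_nonneg fun s _ =>
            Finset.sum_nonneg fun e _ => h.nn e
    _ ≤ l1 N W' W + 2 * m := add_le_add le_rfl (pc_outside h)

theorem compare (L : ℝ) (hL : 1 ≤ L) : ∃ C : ℝ, 0 < C ∧ ∀ N m : ℕ, 1000 ≤ N → C * m ≤ N →
    ∀ W W' : ℤ × ℤ → ℝ, Opt N W → Bd L N W → Opt (N + m) W' → Bd L (N + m) W' →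
      l1 N W' W ≤ C * Real.sqrt (N * m * Real.log N) ∧
      ∑ s ∈ Finset.Ioo (-(N : ℤ)) N, |dsum (N + m) W' 3 s - dsum N W 3 s| ≤
        C * Real.sqrt (N * m * Real.log N) := by
  obtain ⟨C1, hC1, hE⟩ := extend L hL
  obtain ⟨C2, hC2, hR⟩ := restrict L hL
  refine ⟨Real.sqrt (8 * (C1 + C2)) + C1 + C2 + 2, by positivity, ?_⟩
  intro N m hN hm W W' hW hBW hW' hBW'
  have hs0 : 0 ≤ Real.sqrt (8 * (C1 + C2)) := Real.sqrt_nonneg _
  have hm0 : (0 : ℝ) ≤ m := Nat.cast_nonneg m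
  have hN0 : (1000 : ℝ) ≤ N := by exact_mod_cast hN
  have hmN : (m : ℝ) ≤ N := by nlinarith
  have hm1 : C1 * m ≤ N := by nlinarith
  have hm2 : C2 * m ≤ N := by nlinarith
  have hlog : 1 ≤ Real.log N := by
    rw [Real.le_log_iff_exp_le (by linarith)]
    have := Real.exp_one_lt_d9
    linarith
  obtain ⟨V, hV, hFV, hlV⟩ := hE N m hN hm1 W hW.1 hBW
  obtain ⟨V', hV', hFV'⟩ := hR N m hN hm2 W' hW'.1 hBW'
  have hopt := hW.2 V' hV'
  obtain ⟨p0, p2, p3⟩ := pc_lt hL hBW' (by omega : 1 ≤ N + m)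
  have hl := l1_le hW' p0 p2 p3 hV
  have hX0 : 0 ≤ (N : ℝ) * m * Real.log N := by positivity
  have hF : F (N + m) W' - F (N + m) V ≤ (C1 + C2) * (m * Real.log N) := by nlinarith
  have hl2 : (l1 (N + m) V W') ^ 2 ≤ 8 * (C1 + C2) * (N * m * Real.log N) := by
    refine hl.trans ?_
    have h1 : (4 : ℝ) * ((N + m : ℕ) : ℝ) ≤ 8 * N := by
      push_cast
      linarith
    have h2 : 0 ≤ (C1 + C2) * (m * Real.log N) := by positivity
    calc (4 : ℝ) * ((N + m : ℕ) : ℝ) * (F (N + m) W' - F (N + m) V)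
        ≤ 4 * ((N + m : ℕ) : ℝ) * ((C1 + C2) * (m * Real.log N)) :=
          mul_le_mul_of_nonneg_left hF (by positivity)
      _ ≤ 8 * N * ((C1 + C2) * (m * Real.log N)) := mul_le_mul_of_nonneg_right h1 h2
      _ = 8 * (C1 + C2) * (N * m * Real.log N) := by ring
  have hl3 : l1 (N + m) V W' ≤ Real.sqrt (8 * (C1 + C2)) * Real.sqrt (N * m * Real.log N) := by
    rw [← Real.sqrt_mul (by positivity)]
    exact (le_abs_self _).trans (Real.abs_le_sqrt hl2)
  have hmR : (m : ℝ) ≤ Real.sqrt (N * m * Real.log N) := by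
    refine (le_abs_self _).trans (Real.abs_le_sqrt ?_)
    calc (m : ℝ) ^ 2 = m * m * 1 := by ring
      _ ≤ N * m * Real.log N :=
          mul_le_mul (mul_le_mul_of_nonneg_right hmN hm0) hlog zero_le_one (by positivity)
  have hl4 : l1 N W' W ≤ l1 (N + m) V W' + l1 N V W := by
    unfold l1
    calc ∑ e ∈ board N, |W' e - W e| ≤ ∑ e ∈ board N, (|V e - W' e| + |V e - W e|) := by
          refine Finset.sum_le_sum fun e _ => ?_
          have h1 := abs_sub_le (W' e) (V e) (W e)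
          rwa [abs_sub_comm (W' e) (V e)] at h1
      _ = ∑ e ∈ board N, |V e - W' e| + ∑ e ∈ board N, |V e - W e| := Finset.sum_add_distrib
      _ ≤ ∑ e ∈ board (N + m), |V e - W' e| + ∑ e ∈ board N, |V e - W e| := by
          refine add_le_add ?_ le_rfl
          exact Finset.sum_le_sum_of_subset_of_nonneg (pc_sub (Nat.le_add_right N m))
            fun e _ _ => abs_nonneg _
  have hR0 := Real.sqrt_nonneg ((N : ℝ) * m * Real.log N)
  have hd := pc_diag N m W W' hW'.1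
  generalize Real.sqrt ((N : ℝ) * m * Real.log N) = R at hl3 hmR hR0 ⊢
  have h5 : l1 N W' W ≤ Real.sqrt (8 * (C1 + C2)) * R + C1 * R := by
    have h6 : C1 * (m : ℝ) ≤ C1 * R := mul_le_mul_of_nonneg_left hmR hC1.le
    linarith
  have h7 : 0 ≤ C2 * R := by positivity
  constructor
  · nlinarith
  · refine hd.trans ?_
    nlinarith

end Pool.Agent.NQR
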