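import Pool.Agent.NQR.Defs
import Pool.Agent.NQR.PCmp

/-!
# NQR-PCor: the corner value varies slowly with the size of the board

PLAN. `N' = N + m`, `η = √((m/N) log N)`, we may assume `η ≤ c` (otherwise both logarithms are bounded by
`2 log L` each plus `log 2`, as `A 0 * B 0 * N ∈ [1/L², L²]`) and `m ≥ 1`. Block `[0,b)²`, `b = ⌈η^(2/5) N⌉ ≤ N`.
* Corner: by `Rf`, for `x, y < b`: `|N W(x,y) - N W(0,0)| ≤ C √(b/N)` (product of four Hoelder functions, all
  bounded; differences of the diagonal numbers `≤ 2b`), same for `W'` with `N'`, and `N'/N = 1 + O(m/N)`.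
  So `N |W'(0,0) - W(0,0)| ≤ C √(b/N) + C m/N + (N/b²) l1 N W' W ≤ C √(b/N) + C m/N + C (N/b)² η`
  `≤ C' η^(1/5)`.
* `|p'_0 - p_0| ≤ C √(b/N) + (1/b) ∑_{0 ≤ s < b} |p'_s - p_s| ≤ C √(b/N) + (N/b) C η ≤ C' η^(1/5)`.
* `q_0 = W(0,0) ≤ L/N` is the sum of the diagonal `{(0,0)}`; so `A 0 B 0 N = N W(0,0)/((1 - q_0)(1 - p_0))` differs from
  the value for `N'` by `≤ C η^(1/5)`, both are in `[1/L², L²]`, so the logarithms differ by `≤ C η^(1/5)`.
`η^(1/5) = ((m/N) log N)^(1/10)`.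
-/

set_option autoImplicit false

open Finset

namespace Pool.Agent.NQR

open Pool.Agent.NQ (board dsum F Ent Dg phi ln Q Qset st cellD bern)

private theorem log_lip {x y L : ℝ} (hL : 0 < L) (hx : 1 / L ≤ x) (hy : 1 / L ≤ y) :
    |Real.log x - Real.log y| ≤ L * |x - y| := by
  have hL' : 0 < 1 / L := by positivity
  have key : ∀ a b : ℝ, 1 / L ≤ a → 1 / L ≤ b → Real.log a - Real.log b ≤ L * |a - b| := by
    intro a b ha hb
    have ha0 : 0 < a := hL'.trans_le ha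
    have hb0 : 0 < b := hL'.trans_le hb
    rw [← Real.log_div ha0.ne' hb0.ne']
    have h1 := Real.log_le_sub_one_of_pos (div_pos ha0 hb0)
    have h2 : a / b - 1 = (a - b) * b⁻¹ := by
      field_simp
    have h3 : b⁻¹ ≤ L := by
      rw [inv_le_comm₀ hb0 hL, ← one_div]
      exact hb
    have h4 : (a - b) * b⁻¹ ≤ |a - b| * L :=
      mul_le_mul (le_abs_self _) h3 (inv_pos.2 hb0).le (abs_nonneg _)
    rw [h2] at h1
    linarith
  rw [abs_le]
  constructor
  · have := key y x hy hx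
    rw [abs_sub_comm] at this
    linarith
  · exact key x y hx hy

private theorem dsum_two_zero {N : ℕ} (hN : 1 ≤ N) (W : ℤ × ℤ → ℝ) :
    dsum N W 2 0 = W (0, 0) := by
  unfold dsum
  have : (board N).filter (fun e => ln 2 e = 0) = {(0, 0)} := by
    ext ⟨x, y⟩
    simp only [mem_filter, board, mem_product, mem_Ico, Pool.Agent.NQ.ln_two, mem_singleton,
      Prod.mk.injEq]
    omega
  rw [this, sum_singleton]

private theorem dsum_nn {N : ℕ} {W : ℤ × ℤ → ℝ} (h : Adm N W) (k : Fin 4) (s : ℤ) :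
    0 ≤ dsum N W k s := sum_nonneg fun e _ => h.nn e

private theorem prod4 {L r a a0 b b0 s s0 d d0 : ℝ} (hL : 1 ≤ L) (hr : 0 ≤ r)
    (ha0 : 0 ≤ a0) (ha0' : a0 ≤ L) (hb : 0 ≤ b) (hb' : b ≤ L)
    (hb0 : 0 ≤ b0) (hb0' : b0 ≤ L) (hs : 0 ≤ s) (hs' : s ≤ 1) (hs0 : 0 ≤ s0) (hs0' : s0 ≤ 1)
    (hd : 0 ≤ d) (hd' : d ≤ 1) (h1 : |a - a0| ≤ L * r) (h2 : |b - b0| ≤ L * r)
    (h3 : |s - s0| ≤ 2 * L * r) (h4 : |d - d0| ≤ L * r) :
    |a * b * s * d - a0 * b0 * s0 * d0| ≤ 5 * L ^ 3 * r := by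
  have e : a * b * s * d - a0 * b0 * s0 * d0 = (a - a0) * (b * s * d) +
      (a0 * s * d) * (b - b0) + (a0 * b0 * d) * (s - s0) + (a0 * b0 * s0) * (d - d0) := by ring
  have hL0 : 0 ≤ L := zero_le_one.trans hL
  have hsd : s * d ≤ 1 := mul_le_one₀ hs' hd hd'
  have hsd0 : 0 ≤ s * d := mul_nonneg hs hd
  have b1 : |(a - a0) * (b * s * d)| ≤ L ^ 2 * r := by
    rw [abs_mul, abs_of_nonneg (a := b * s * d) (by positivity)]
    calc |a - a0| * (b * s * d) ≤ (L * r) * (L * 1) := by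
          apply mul_le_mul h1 _ (by positivity) (by positivity)
          rw [mul_assoc]
          exact mul_le_mul hb' hsd hsd0 hL0
      _ = L ^ 2 * r := by ring
  have b2 : |(a0 * s * d) * (b - b0)| ≤ L ^ 2 * r := by
    rw [abs_mul, abs_of_nonneg (a := a0 * s * d) (by positivity)]
    calc (a0 * s * d) * |b - b0| ≤ (L * 1) * (L * r) := by
          apply mul_le_mul _ h2 (abs_nonneg _) (by positivity)
          rw [mul_assoc]
          exact mul_le_mul ha0' hsd hsd0 hL0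
      _ = L ^ 2 * r := by ring
  have hab : a0 * b0 ≤ L * L := mul_le_mul ha0' hb0' hb0 hL0
  have b3 : |(a0 * b0 * d) * (s - s0)| ≤ 2 * L ^ 3 * r := by
    rw [abs_mul, abs_of_nonneg (a := a0 * b0 * d) (by positivity)]
    calc (a0 * b0 * d) * |s - s0| ≤ (L * L * 1) * (2 * L * r) := by
          apply mul_le_mul _ h3 (abs_nonneg _) (by positivity)
          exact mul_le_mul hab hd' hd (by positivity)
      _ = 2 * L ^ 3 * r := by ring
  have b4 : |(a0 * b0 * s0) * (d - d0)| ≤ L ^ 3 * r := by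
    rw [abs_mul, abs_of_nonneg (a := a0 * b0 * s0) (by positivity)]
    calc (a0 * b0 * s0) * |d - d0| ≤ (L * L * 1) * (L * r) := by
          apply mul_le_mul _ h4 (abs_nonneg _) (by positivity)
          exact mul_le_mul hab hs0' hs0 (by positivity)
      _ = L ^ 3 * r := by ring
  have hL3 : L ^ 2 * r ≤ L ^ 3 * r := by
    apply mul_le_mul_of_nonneg_right _ hr
    nlinarith [sq_nonneg L]
  rw [e]
  have t1 := abs_add_le ((a - a0) * (b * s * d) + (a0 * s * d) * (b - b0) +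
    (a0 * b0 * d) * (s - s0)) ((a0 * b0 * s0) * (d - d0))
  have t2 := abs_add_le ((a - a0) * (b * s * d) + (a0 * s * d) * (b - b0))
    ((a0 * b0 * d) * (s - s0))
  have t3 := abs_add_le ((a - a0) * (b * s * d)) ((a0 * s * d) * (b - b0))
  linarith

/-- the weights are nearly constant on the corner block -/
private theorem block {L : ℝ} (hL : 1 ≤ L) {N : ℕ} (hN : 1 ≤ N) {W : ℤ × ℤ → ℝ} {A B : ℤ → ℝ}
    (h : Rf L N W A B) {b M : ℕ} (hb : b ≤ N) (hM : M ≤ N) (hM1 : 1 ≤ M) {x y : ℤ} (hx : 0 ≤ x)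
    (hx' : x < b) (hy : 0 ≤ y) (hy' : y < b) :
    |N * W (x, y) - N * W (0, 0)| ≤ 5 * L ^ 3 * Real.sqrt (b / M : ℝ) := by
  have hN0 : (0 : ℝ) < N := by exact_mod_cast hN
  have hL0 : 0 < L := zero_lt_one.trans_le hL
  have hrM : Real.sqrt (b / N : ℝ) ≤ Real.sqrt (b / M : ℝ) := by
    apply Real.sqrt_le_sqrt
    apply div_le_div_of_nonneg_left (Nat.cast_nonneg b) (by exact_mod_cast hM1)
    exact_mod_cast hM
  have hbN : (b : ℤ) ≤ N := by exact_mod_cast hb
  have hxN : x < N := hx'.trans_le hbN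
  have hyN : y < N := hy'.trans_le hbN
  have h0N : (0 : ℤ) < N := by exact_mod_cast hN
  have hs0 : 0 < Real.sqrt N := Real.sqrt_pos.2 hN0
  have hss : Real.sqrt N * Real.sqrt N = N := Real.mul_self_sqrt hN0.le
  have mem1 : (x, y) ∈ board N := by
    simp only [board, mem_product, mem_Ico]
    exact ⟨⟨hx, hxN⟩, hy, hyN⟩
  have mem0 : ((0 : ℤ), (0 : ℤ)) ∈ board N := by
    simp only [board, mem_product, mem_Ico]
    exact ⟨⟨le_rfl, h0N⟩, le_rfl, h0N⟩
  have e1 : (N : ℝ) * W (x, y) = (Real.sqrt N * A x) * (Real.sqrt N * B y) * hS N W (x + y) *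
      hD N W (x - y) := by
    rw [h.el _ mem1, hh]
    nth_rewrite 1 [← hss]
    ring
  have e0 : (N : ℝ) * W (0, 0) = (Real.sqrt N * A 0) * (Real.sqrt N * B 0) * hS N W 0 *
      hD N W 0 := by
    rw [h.el _ mem0, hh]
    nth_rewrite 1 [← hss]
    simp only [add_zero, sub_zero]
    ring
  have up : ∀ {t : ℝ}, t ≤ L / Real.sqrt N → Real.sqrt N * t ≤ L := by
    intro t ht
    rw [le_div_iff₀ hs0] at ht
    linarith
  have lo : ∀ {t : ℝ}, 1 / (L * Real.sqrt N) ≤ t → 0 ≤ Real.sqrt N * t := by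
    intro t ht
    have : 0 < 1 / (L * Real.sqrt N) := by positivity
    exact mul_nonneg hs0.le (this.le.trans ht)
  have hol : ∀ {t : ℝ} {z : ℤ}, |z| < b → |t| ≤ L / Real.sqrt N * Real.sqrt ((|z| : ℤ) / N) →
      |Real.sqrt N * t| ≤ L * Real.sqrt (b / N : ℝ) := by
    intro t z hz ht
    rw [abs_mul, abs_of_pos hs0]
    have h1 : Real.sqrt (((|z| : ℤ) : ℝ) / N) ≤ Real.sqrt (b / N : ℝ) := by
      apply Real.sqrt_le_sqrt
      apply div_le_div_of_nonneg_right _ hN0.le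
      exact_mod_cast hz.le
    have h2 : Real.sqrt N * |t| ≤ Real.sqrt N * (L / Real.sqrt N * Real.sqrt (b / N : ℝ)) := by
      apply mul_le_mul_of_nonneg_left _ hs0.le
      exact ht.trans (mul_le_mul_of_nonneg_left h1 (by positivity))
    have h3 : Real.sqrt N * (L / Real.sqrt N * Real.sqrt (b / N : ℝ)) =
        L * Real.sqrt (b / N : ℝ) := by
      field_simp
    rw [h3] at h2
    exact h2
  have d1 : |Real.sqrt N * A x - Real.sqrt N * A 0| ≤ L * Real.sqrt (b / N : ℝ) := by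
    rw [← mul_sub]
    apply hol (z := x - 0) _ (h.hA x 0 hx hxN le_rfl h0N)
    rw [sub_zero, abs_of_nonneg hx]
    exact hx'
  have d2 : |Real.sqrt N * B y - Real.sqrt N * B 0| ≤ L * Real.sqrt (b / N : ℝ) := by
    rw [← mul_sub]
    apply hol (z := y - 0) _ (h.hB y 0 hy hyN le_rfl h0N)
    rw [sub_zero, abs_of_nonneg hy]
    exact hy'
  have d3 : |hS N W (x + y) - hS N W 0| ≤ 2 * L * Real.sqrt (b / N : ℝ) := by
    have h1 := h.hq (x + y) 0
    have h2 : |hS N W (x + y) - hS N W 0| = |dsum N W 2 (x + y) - dsum N W 2 0| := by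
      unfold hS
      rw [show 1 - dsum N W 2 (x + y) - (1 - dsum N W 2 0) =
        -(dsum N W 2 (x + y) - dsum N W 2 0) by ring, abs_neg]
    rw [h2]
    refine h1.trans ?_
    have h3 : Real.sqrt (((|x + y - 0| : ℤ) : ℝ) / N) ≤ 2 * Real.sqrt (b / N : ℝ) := by
      have h4 : (2 : ℝ) = Real.sqrt 4 := by
        rw [show (4 : ℝ) = 2 ^ 2 by norm_num, Real.sqrt_sq (by norm_num)]
      rw [h4, ← Real.sqrt_mul (by norm_num)]
      apply Real.sqrt_le_sqrt
      rw [← mul_div_assoc]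
      apply div_le_div_of_nonneg_right _ hN0.le
      have h5 : |x + y - 0| ≤ 4 * (b : ℤ) := by
        rw [sub_zero, abs_of_nonneg (by omega)]
        omega
      exact_mod_cast h5
    calc L * Real.sqrt (((|x + y - 0| : ℤ) : ℝ) / N) ≤ L * (2 * Real.sqrt (b / N : ℝ)) :=
          mul_le_mul_of_nonneg_left h3 hL0.le
      _ = 2 * L * Real.sqrt (b / N : ℝ) := by ring
  have d4 : |hD N W (x - y) - hD N W 0| ≤ L * Real.sqrt (b / N : ℝ) := by
    have h1 := h.hp (x - y) 0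
    have h2 : |hD N W (x - y) - hD N W 0| = |dsum N W 3 (x - y) - dsum N W 3 0| := by
      unfold hD
      rw [show 1 - dsum N W 3 (x - y) - (1 - dsum N W 3 0) =
        -(dsum N W 3 (x - y) - dsum N W 3 0) by ring, abs_neg]
    rw [h2]
    refine h1.trans (mul_le_mul_of_nonneg_left ?_ hL0.le)
    apply Real.sqrt_le_sqrt
    apply div_le_div_of_nonneg_right _ hN0.le
    have h5 : |x - y - 0| ≤ (b : ℤ) := by
      rw [sub_zero, abs_le]
      omega
    exact_mod_cast h5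
  have hSn : ∀ s, 0 ≤ hS N W s := fun s => sub_nonneg.2 (h.adm.sd s)
  have hSo : ∀ s, hS N W s ≤ 1 := fun s => sub_le_self 1 (dsum_nn h.adm 2 s)
  have hDn : ∀ s, 0 ≤ hD N W s := fun s => sub_nonneg.2 (h.adm.dd s)
  have hDo : ∀ s, hD N W s ≤ 1 := fun s => sub_le_self 1 (dsum_nn h.adm 3 s)
  rw [e1, e0]
  refine (prod4 hL (Real.sqrt_nonneg _) (lo (h.A1 0 le_rfl h0N))
    (up (h.A2 0 le_rfl h0N)) (lo (h.B1 y hy hyN)) (up (h.B2 y hy hyN)) (lo (h.B1 0 le_rfl h0N))
    (up (h.B2 0 le_rfl h0N)) (hSn _) (hSo _) (hSn _) (hSo _) (hDn _) (hDo _) d1 d2 d3 d4).trans ?_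
  exact mul_le_mul_of_nonneg_left hrM (by positivity)

/-- the value at the corner in terms of the weights -/
private theorem corner_val {L : ℝ} (hL : 1 ≤ L) {N : ℕ} (hN : 1 ≤ N) {W : ℤ × ℤ → ℝ}
    {A B : ℤ → ℝ} (h : Rf L N W A B) :
    Real.log (A 0 * B 0 * N) = Real.log (N * W (0, 0)) - Real.log (1 - W (0, 0)) -
      Real.log (1 - dsum N W 3 0) ∧ 1 / L ≤ N * W (0, 0) ∧ N * W (0, 0) ≤ L ∧
      1 / L ≤ 1 - W (0, 0) ∧ 1 / L ≤ 1 - dsum N W 3 0 ∧
      |Real.log (A 0 * B 0 * N)| ≤ 2 * Real.log L := by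
  have hN0 : (0 : ℝ) < N := by exact_mod_cast hN
  have hL0 : 0 < L := zero_lt_one.trans_le hL
  have h0N : (0 : ℤ) < N := by exact_mod_cast hN
  have hs0 : 0 < Real.sqrt N := Real.sqrt_pos.2 hN0
  have hss : Real.sqrt N * Real.sqrt N = N := Real.mul_self_sqrt hN0.le
  have mem0 : ((0 : ℤ), (0 : ℤ)) ∈ board N := by
    simp only [board, mem_product, mem_Ico]
    exact ⟨⟨le_rfl, h0N⟩, le_rfl, h0N⟩
  have q0 := dsum_two_zero hN W
  have b1 : 1 / L ≤ 1 - W (0, 0) := by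
    have := h.bd.sd 0
    unfold hS at this
    rwa [q0] at this
  have b2 : 1 / L ≤ 1 - dsum N W 3 0 := h.bd.dd 0
  have hL' : 0 < 1 / L := by positivity
  have b10 : 0 < 1 - W (0, 0) := hL'.trans_le b1
  have b20 : 0 < 1 - dsum N W 3 0 := hL'.trans_le b2
  have lo := h.bd.lo _ mem0
  have hi := h.bd.hi _ mem0
  have lo' : 1 / L ≤ N * W (0, 0) := by
    have h1 : (N : ℝ) * (1 / (L * N)) = 1 / L := by
      field_simp
    rw [← h1]
    exact mul_le_mul_of_nonneg_left lo hN0.le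
  have hi' : N * W (0, 0) ≤ L := by
    have h1 : (N : ℝ) * (L / N) = L := by
      field_simp
    rw [← h1]
    exact mul_le_mul_of_nonneg_left hi hN0.le
  have el : W (0, 0) = A 0 * B 0 * ((1 - W (0, 0)) * (1 - dsum N W 3 0)) := by
    have h1 := h.el _ mem0
    simp only [hh, hS, hD, add_zero, sub_zero] at h1
    rw [q0] at h1
    exact h1
  have hA1 := h.A1 0 le_rfl h0N
  have hA2 := h.A2 0 le_rfl h0N
  have hB1 := h.B1 0 le_rfl h0N
  have hB2 := h.B2 0 le_rfl h0N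
  have hA0 : 0 < A 0 := (by positivity : 0 < 1 / (L * Real.sqrt N)).trans_le hA1
  have hB0 : 0 < B 0 := (by positivity : 0 < 1 / (L * Real.sqrt N)).trans_le hB1
  have hprod : (A 0 * B 0 * N) * ((1 - W (0, 0)) * (1 - dsum N W 3 0)) = N * W (0, 0) := by
    nth_rewrite 2 [el]
    ring
  refine ⟨?_, lo', hi', b1, b2, ?_⟩
  · have hne : A 0 * B 0 * (N : ℝ) ≠ 0 := (by positivity : 0 < A 0 * B 0 * (N : ℝ)).ne'
    have hl1 := Real.log_mul hne (mul_pos b10 b20).ne'
    have hl2 := Real.log_mul b10.ne' b20.ne'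
    rw [← hprod, hl1, hl2]
    ring
  · have u1 : A 0 * B 0 * N ≤ L ^ 2 := by
      have h1 : A 0 * B 0 ≤ (L / Real.sqrt N) * (L / Real.sqrt N) :=
        mul_le_mul hA2 hB2 hB0.le (by positivity)
      have h2 : (L / Real.sqrt N) * (L / Real.sqrt N) * N = L ^ 2 := by
        nth_rewrite 3 [← hss]
        field_simp
      calc A 0 * B 0 * N ≤ (L / Real.sqrt N) * (L / Real.sqrt N) * N :=
            mul_le_mul_of_nonneg_right h1 hN0.le
        _ = L ^ 2 := h2
    have l1' : (L ^ 2)⁻¹ ≤ A 0 * B 0 * N := by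
      have h1 : (1 / (L * Real.sqrt N)) * (1 / (L * Real.sqrt N)) ≤ A 0 * B 0 :=
        mul_le_mul hA1 hB1 (by positivity) hA0.le
      have h2 : (1 / (L * Real.sqrt N)) * (1 / (L * Real.sqrt N)) * N = (L ^ 2)⁻¹ := by
        nth_rewrite 3 [← hss]
        field_simp
      calc (L ^ 2)⁻¹ = (1 / (L * Real.sqrt N)) * (1 / (L * Real.sqrt N)) * N := h2.symm
        _ ≤ A 0 * B 0 * N := mul_le_mul_of_nonneg_right h1 hN0.le
    have hlog : Real.log (L ^ 2) = 2 * Real.log L := by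
      rw [Real.log_pow]
      norm_num
    rw [abs_le]
    constructor
    · have := Real.log_le_log (by positivity) l1'
      rw [Real.log_inv, hlog] at this
      exact this
    · have := Real.log_le_log (by positivity) u1
      rw [hlog] at this
      exact this

/-- averaging over the block -/
private theorem avg_block {L : ℝ} (hL : 1 ≤ L) {N m : ℕ} (hN : 1 ≤ N) {W W' : ℤ × ℤ → ℝ}
    {A B A' B' : ℤ → ℝ} (h : Rf L N W A B) (h' : Rf L (N + m) W' A' B') {b : ℕ} (hb : b ≤ N) :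
    (b : ℝ) ^ 2 * (N * |W' (0, 0) - W (0, 0)|) ≤
      (b : ℝ) ^ 2 * (10 * L ^ 3 * Real.sqrt (b / N : ℝ)) + N * l1 N W' W := by
  have hN0 : (0 : ℝ) < N := by exact_mod_cast hN
  have hsub : Finset.Ico (0 : ℤ) b ×ˢ Finset.Ico (0 : ℤ) b ⊆ board N := by
    unfold board
    apply product_subset_product <;> apply Finset.Ico_subset_Ico_right <;> exact_mod_cast hb
  have hcard : ((Finset.Ico (0 : ℤ) b ×ˢ Finset.Ico (0 : ℤ) b).card : ℝ) = (b : ℝ) ^ 2 := by
    rw [card_product, Int.card_Ico]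
    simp
    ring
  have hpt : ∀ e ∈ Finset.Ico (0 : ℤ) b ×ˢ Finset.Ico (0 : ℤ) b,
      N * |W' (0, 0) - W (0, 0)| ≤ 10 * L ^ 3 * Real.sqrt (b / N : ℝ) + N * |W' e - W e| := by
    rintro ⟨x, y⟩ he
    simp only [mem_product, mem_Ico] at he
    obtain ⟨⟨hx, hx'⟩, hy, hy'⟩ := he
    have k1 := block hL hN h hb le_rfl hN hx hx' hy hy'
    have k2 := block hL (by omega : 1 ≤ N + m) h' (by omega : b ≤ N + m) (by omega : N ≤ N + m) hN
      hx hx' hy hy'
    have k3 : |(N : ℝ) * W' (x, y) - N * W' (0, 0)| ≤ 5 * L ^ 3 * Real.sqrt (b / N : ℝ) := by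
      rw [← mul_sub, abs_mul] at k2 ⊢
      refine (mul_le_mul_of_nonneg_right ?_ (abs_nonneg _)).trans k2
      rw [abs_of_pos hN0, abs_of_nonneg (Nat.cast_nonneg _)]
      push_cast
      linarith [(Nat.cast_nonneg m : (0 : ℝ) ≤ m)]
    have e1 : (N : ℝ) * (W' (0, 0) - W (0, 0)) = -(N * W' (x, y) - N * W' (0, 0)) +
        N * (W' (x, y) - W (x, y)) + (N * W (x, y) - N * W (0, 0)) := by ring
    have e2 : (N : ℝ) * |W' (0, 0) - W (0, 0)| = |(N : ℝ) * (W' (0, 0) - W (0, 0))| := by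
      rw [abs_mul, abs_of_pos hN0]
    have e3 : (N : ℝ) * |W' (x, y) - W (x, y)| = |(N : ℝ) * (W' (x, y) - W (x, y))| := by
      rw [abs_mul, abs_of_pos hN0]
    rw [e2, e3, e1]
    have t1 := abs_add_le (-(N * W' (x, y) - N * W' (0, 0)) +
        N * (W' (x, y) - W (x, y))) (N * W (x, y) - N * W (0, 0))
    have t2 := abs_add_le (-(N * W' (x, y) - N * W' (0, 0))) (N * (W' (x, y) - W (x, y)))
    rw [abs_neg] at t2
    linarith
  have hsum := sum_le_sum hpt
  rw [sum_const, nsmul_eq_mul, hcard, sum_add_distrib, sum_const, nsmul_eq_mul, hcard,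
    ← mul_sum] at hsum
  refine hsum.trans (add_le_add_right (mul_le_mul_of_nonneg_left ?_ hN0.le) _)
  unfold l1
  exact sum_le_sum_of_subset_of_nonneg hsub fun _ _ _ => abs_nonneg _

/-- averaging over the central difference diagonals -/
private theorem avg_diag {L : ℝ} (hL : 1 ≤ L) {N m : ℕ} (hN : 1 ≤ N) {W W' : ℤ × ℤ → ℝ}
    {A B A' B' : ℤ → ℝ} (h : Rf L N W A B) (h' : Rf L (N + m) W' A' B') {b : ℕ} (hb : b ≤ N) :
    (b : ℝ) * |dsum (N + m) W' 3 0 - dsum N W 3 0| ≤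
      (b : ℝ) * (2 * L * Real.sqrt (b / N : ℝ)) +
        ∑ s ∈ Finset.Ioo (-(N : ℤ)) N, |dsum (N + m) W' 3 s - dsum N W 3 s| := by
  have hN0 : (0 : ℝ) < N := by exact_mod_cast hN
  have hL0 : 0 < L := zero_lt_one.trans_le hL
  have hsub : Finset.Ico (0 : ℤ) b ⊆ Finset.Ioo (-(N : ℤ)) N := by
    intro s hs
    rw [mem_Ico] at hs
    rw [mem_Ioo]
    omega
  have hcard : ((Finset.Ico (0 : ℤ) b).card : ℝ) = (b : ℝ) := by
    rw [Int.card_Ico]
    simp
  have hpt : ∀ s ∈ Finset.Ico (0 : ℤ) b,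
      |dsum (N + m) W' 3 0 - dsum N W 3 0| ≤
        2 * L * Real.sqrt (b / N : ℝ) + |dsum (N + m) W' 3 s - dsum N W 3 s| := by
    intro s hs
    rw [mem_Ico] at hs
    have k1 : |dsum N W 3 s - dsum N W 3 0| ≤ L * Real.sqrt (b / N : ℝ) := by
      refine (h.hp s 0).trans (mul_le_mul_of_nonneg_left ?_ hL0.le)
      apply Real.sqrt_le_sqrt
      apply div_le_div_of_nonneg_right _ hN0.le
      have h5 : |s - 0| ≤ (b : ℤ) := by
        rw [sub_zero, abs_le]
        omega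
      exact_mod_cast h5
    have k2 : |dsum (N + m) W' 3 s - dsum (N + m) W' 3 0| ≤ L * Real.sqrt (b / N : ℝ) := by
      refine (h'.hp s 0).trans (mul_le_mul_of_nonneg_left ?_ hL0.le)
      apply Real.sqrt_le_sqrt
      have h5 : |s - 0| ≤ (b : ℤ) := by
        rw [sub_zero, abs_le]
        omega
      apply div_le_div₀ (Nat.cast_nonneg b) (by exact_mod_cast h5) hN0
      push_cast
      linarith [(Nat.cast_nonneg m : (0 : ℝ) ≤ m)]
    have e1 : dsum (N + m) W' 3 0 - dsum N W 3 0 =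
        -(dsum (N + m) W' 3 s - dsum (N + m) W' 3 0) + (dsum (N + m) W' 3 s - dsum N W 3 s) +
          (dsum N W 3 s - dsum N W 3 0) := by ring
    rw [e1]
    have t1 := abs_add_le (-(dsum (N + m) W' 3 s - dsum (N + m) W' 3 0) +
      (dsum (N + m) W' 3 s - dsum N W 3 s)) (dsum N W 3 s - dsum N W 3 0)
    have t2 := abs_add_le (-(dsum (N + m) W' 3 s - dsum (N + m) W' 3 0))
      (dsum (N + m) W' 3 s - dsum N W 3 s)
    rw [abs_neg] at t2
    linarith
  have hsum := sum_le_sum hpt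
  rw [sum_const, nsmul_eq_mul, hcard, sum_add_distrib, sum_const, nsmul_eq_mul, hcard] at hsum
  refine hsum.trans (add_le_add_right ?_ _)
  exact sum_le_sum_of_subset_of_nonneg hsub fun _ _ _ => abs_nonneg _

theorem corner (L : ℝ) (hL : 1 ≤ L) : ∃ C : ℝ, 0 < C ∧ ∀ N m : ℕ, 1000 ≤ N → 1 ≤ m → m ≤ N →
    ∀ (W W' : ℤ × ℤ → ℝ) (A B A' B' : ℤ → ℝ), Opt N W → Rf L N W A B → Opt (N + m) W' →
      Rf L (N + m) W' A' B' →
      |Real.log (A 0 * B 0 * N) - Real.log (A' 0 * B' 0 * (N + m))| ≤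
        C * ((m / N : ℝ) * Real.log N) ^ (1 / 10 : ℝ) := by
  obtain ⟨C0, hC0, hcmp⟩ := compare L hL
  have hL0 : 0 < L := zero_lt_one.trans_le hL
  have hlogL : 0 ≤ Real.log L := Real.log_nonneg hL
  set c : ℝ := min 1 (1 / C0) with hc
  have hc0 : 0 < c := lt_min zero_lt_one (by positivity)
  have hc1 : c ≤ 1 := min_le_left _ _
  have hcC : c ≤ 1 / C0 := min_le_right _ _
  set K : ℝ := L * ((20 * L ^ 3 + C0 + L) + (20 * L ^ 3 + C0) + (4 * L + C0)) with hK
  have hK0 : 0 < K := by positivity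
  have hcp : 0 < c ^ (1 / 10 : ℝ) := Real.rpow_pos_of_pos hc0 _
  refine ⟨4 * Real.log L / c ^ (1 / 10 : ℝ) + K, by positivity, ?_⟩
  intro N m hN hm hmN W W' A B A' B' hO hR hO' hR'
  have hN1 : 1 ≤ N := by omega
  have hN0 : (0 : ℝ) < N := by exact_mod_cast (by omega : 0 < N)
  have hm0 : (0 : ℝ) < m := by exact_mod_cast (by omega : 0 < m)
  have hm1 : (1 : ℝ) ≤ m := by exact_mod_cast hm
  have hlogN : 1 ≤ Real.log N := by
    rw [Real.le_log_iff_exp_le hN0]
    have h1 := Real.exp_one_lt_d9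
    have h2 : (1000 : ℝ) ≤ N := by exact_mod_cast hN
    linarith
  obtain ⟨v1, v2, v3, v4, v5, v6⟩ := corner_val hL hN1 hR
  obtain ⟨w1, w2, w3, w4, w5, w6⟩ := corner_val hL (by omega : 1 ≤ N + m) hR'
  have hcast : ((N + m : ℕ) : ℝ) = (N : ℝ) + m := by push_cast; ring
  rw [hcast] at w1 w2 w3 w6
  set t : ℝ := (m / N : ℝ) * Real.log N with ht
  have ht0 : 0 < t := by positivity
  set u : ℝ := t ^ (1 / 10 : ℝ) with hu
  have hu0 : 0 < u := Real.rpow_pos_of_pos ht0 _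
  have hu10 : u ^ 10 = t := by
    rw [hu, ← Real.rpow_natCast, ← Real.rpow_mul ht0.le]
    norm_num
  rcases lt_or_ge t c with htc | htc
  swap
  · -- trivial case
    have h1 : c ^ (1 / 10 : ℝ) ≤ u := Real.rpow_le_rpow hc0.le htc (by norm_num)
    have h2 : |Real.log (A 0 * B 0 * N) - Real.log (A' 0 * B' 0 * (N + m))| ≤ 4 * Real.log L := by
      have t1 := abs_sub (Real.log (A 0 * B 0 * N)) (Real.log (A' 0 * B' 0 * (N + m)))
      linarith
    have h3 : 4 * Real.log L ≤ 4 * Real.log L / c ^ (1 / 10 : ℝ) * u := by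
      rw [div_mul_eq_mul_div, le_div_iff₀ hcp]
      exact mul_le_mul_of_nonneg_left h1 (by positivity)
    have h4 : 0 ≤ K * u := by positivity
    rw [add_mul]
    linarith
  · have ht1 : t < 1 := htc.trans_le hc1
    have hu1 : u ≤ 1 := Real.rpow_le_one ht0.le ht1.le (by norm_num)
    have hmNt : (m / N : ℝ) ≤ t := by
      rw [ht]
      exact le_mul_of_one_le_right (by positivity) hlogN
    have hcm : C0 * m ≤ N := by
      have h1 : (m / N : ℝ) < 1 / C0 := hmNt.trans_lt (htc.trans_le hcC)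
      rw [div_lt_div_iff₀ hN0 hC0] at h1
      linarith
    obtain ⟨c1, c2⟩ := hcmp N m hN hcm W W' hO hR.bd hO' hR'.bd
    have hsq : Real.sqrt (N * m * Real.log N) = N * u ^ 5 := by
      have h1 : (N : ℝ) * m * Real.log N = (N * u ^ 5) ^ 2 := by
        have h2 : ((N : ℝ) * u ^ 5) ^ 2 = N ^ 2 * u ^ 10 := by ring
        rw [h2, hu10, ht]
        field_simp
      rw [h1, Real.sqrt_sq (by positivity)]
    rw [hsq] at c1 c2
    -- the block
    have hx1 : 1 ≤ u ^ 2 * N := by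
      have h1 : 1 ≤ (u ^ 2 * N) ^ 5 := by
        have h2 : (u ^ 2 * (N : ℝ)) ^ 5 = u ^ 10 * N ^ 5 := by ring
        rw [h2, hu10]
        have h3 : 1 / (N : ℝ) ≤ t := by
          refine le_trans ?_ hmNt
          exact div_le_div_of_nonneg_right hm1 hN0.le
        have h4 : 1 / (N : ℝ) * N ^ 5 ≤ t * N ^ 5 :=
          mul_le_mul_of_nonneg_right h3 (by positivity)
        have h5 : 1 / (N : ℝ) * N ^ 5 = N ^ 4 := by
          field_simp
        have h6 : (1 : ℝ) ≤ N := by exact_mod_cast hN1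
        have h7 : (1 : ℝ) ≤ (N : ℝ) ^ 4 := one_le_pow₀ h6
        linarith
      by_contra hlt
      push Not at hlt
      have h2 : (u ^ 2 * (N : ℝ)) ^ 5 < 1 := pow_lt_one₀ (by positivity) hlt (by norm_num)
      linarith
    set b : ℕ := ⌈u ^ 2 * (N : ℝ)⌉₊ with hb
    have hblo : u ^ 2 * N ≤ b := Nat.le_ceil _
    have hbhi : (b : ℝ) ≤ 2 * (u ^ 2 * N) := by
      have := (Nat.ceil_lt_add_one (by positivity : (0 : ℝ) ≤ u ^ 2 * N)).le
      linarith
    have hbN : b ≤ N := by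
      rw [hb]
      apply Nat.ceil_le.2
      have : u ^ 2 ≤ 1 := pow_le_one₀ hu0.le hu1
      exact mul_le_of_le_one_left hN0.le this
    have hb1 : 1 ≤ b := by
      have : (1 : ℝ) ≤ b := hx1.trans hblo
      exact_mod_cast this
    have hb0 : (0 : ℝ) < b := by exact_mod_cast (by omega : 0 < b)
    have hr : Real.sqrt (b / N : ℝ) ≤ 2 * u := by
      have h1 : (b / N : ℝ) ≤ (2 * u) ^ 2 := by
        rw [div_le_iff₀ hN0]
        nlinarith [sq_nonneg u, mul_nonneg (sq_nonneg u) hN0.le]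
      calc Real.sqrt (b / N : ℝ) ≤ Real.sqrt ((2 * u) ^ 2) := Real.sqrt_le_sqrt h1
        _ = 2 * u := Real.sqrt_sq (by positivity)
    have hu5 : u ^ 5 ≤ u * (u ^ 2) ^ 2 := le_of_eq (by ring)
    -- corner weights
    have D1 : N * |W' (0, 0) - W (0, 0)| ≤ (20 * L ^ 3 + C0) * u := by
      have h1 := avg_block hL hN1 hR hR' hbN
      have h2 : N * l1 N W' W ≤ (b : ℝ) ^ 2 * (C0 * u) := by
        have h3 : N * l1 N W' W ≤ N * (C0 * (N * u ^ 5)) := mul_le_mul_of_nonneg_left c1 hN0.le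
        have h4 : (u ^ 2 * (N : ℝ)) ^ 2 ≤ (b : ℝ) ^ 2 :=
          pow_le_pow_left₀ (by positivity) hblo 2
        have h5 : (N : ℝ) * (C0 * (N * u ^ 5)) = (u ^ 2 * (N : ℝ)) ^ 2 * (C0 * u) := by ring
        rw [h5] at h3
        exact h3.trans (mul_le_mul_of_nonneg_right h4 (by positivity))
      have h3 : (b : ℝ) ^ 2 * (N * |W' (0, 0) - W (0, 0)|) ≤
          (b : ℝ) ^ 2 * (10 * L ^ 3 * (2 * u) + C0 * u) := by
        have h4 : (b : ℝ) ^ 2 * (10 * L ^ 3 * Real.sqrt (b / N : ℝ)) ≤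
            (b : ℝ) ^ 2 * (10 * L ^ 3 * (2 * u)) :=
          mul_le_mul_of_nonneg_left (mul_le_mul_of_nonneg_left hr (by positivity)) (by positivity)
        rw [mul_add]
        linarith
      have h4 := le_of_mul_le_mul_left h3 (by positivity)
      linarith
    -- central diagonals
    have D2 : |dsum (N + m) W' 3 0 - dsum N W 3 0| ≤ (4 * L + C0) * u := by
      have h1 := avg_diag hL hN1 hR hR' hbN
      have h2 : C0 * (N * u ^ 5) ≤ (b : ℝ) * (C0 * u) := by
        have h4 : C0 * (N * u ^ 5) ≤ (u ^ 2 * N) * (C0 * u) := by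
          have h5 : u ^ 5 ≤ u ^ 3 := pow_le_pow_of_le_one hu0.le hu1 (by norm_num)
          have h6 : C0 * (N * u ^ 5) ≤ C0 * (N * u ^ 3) := by
            apply mul_le_mul_of_nonneg_left _ hC0.le
            exact mul_le_mul_of_nonneg_left h5 hN0.le
          have h7 : C0 * (N * u ^ 3) = (u ^ 2 * N) * (C0 * u) := by ring
          linarith
        exact h4.trans (mul_le_mul_of_nonneg_right hblo (by positivity))
      have h3 : (b : ℝ) * |dsum (N + m) W' 3 0 - dsum N W 3 0| ≤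
          (b : ℝ) * (2 * L * (2 * u) + C0 * u) := by
        have h4 : (b : ℝ) * (2 * L * Real.sqrt (b / N : ℝ)) ≤ (b : ℝ) * (2 * L * (2 * u)) :=
          mul_le_mul_of_nonneg_left (mul_le_mul_of_nonneg_left hr (by positivity)) hb0.le
        rw [mul_add]
        linarith
      have h4 := le_of_mul_le_mul_left h3 hb0
      linarith
    have D3 : |W (0, 0) - W' (0, 0)| ≤ (20 * L ^ 3 + C0) * u := by
      rw [abs_sub_comm]
      have h6 : (1 : ℝ) ≤ N := by exact_mod_cast hN1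
      exact (le_mul_of_one_le_left (abs_nonneg _) h6).trans D1
    have D4 : |N * W (0, 0) - (N + m) * W' (0, 0)| ≤ (20 * L ^ 3 + C0 + L) * u := by
      have e1 : (N : ℝ) * W (0, 0) - (N + m) * W' (0, 0) =
          -(N * (W' (0, 0) - W (0, 0))) + -(m * W' (0, 0)) := by ring
      rw [e1]
      refine (abs_add_le _ _).trans ?_
      rw [abs_neg, abs_neg, abs_mul, abs_of_pos hN0, abs_of_nonneg (a := (m : ℝ) * W' (0, 0))
        (mul_nonneg hm0.le (hR'.adm.nn _))]
      have h1 : (m : ℝ) * W' (0, 0) ≤ L * u := by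
        have h2 : (N : ℝ) * W' (0, 0) ≤ L := by
          refine le_trans (mul_le_mul_of_nonneg_right ?_ (hR'.adm.nn _)) w3
          linarith
        have h3 : (m : ℝ) ≤ u * N := by
          have h4 : (m / N : ℝ) ≤ u := by
            refine hmNt.trans ?_
            rw [← hu10]
            calc u ^ 10 ≤ u ^ 1 := pow_le_pow_of_le_one hu0.le hu1 (by norm_num)
              _ = u := pow_one u
          rwa [div_le_iff₀ hN0] at h4
        calc (m : ℝ) * W' (0, 0) ≤ (u * N) * W' (0, 0) :=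
              mul_le_mul_of_nonneg_right h3 (hR'.adm.nn _)
          _ = u * (N * W' (0, 0)) := by ring
          _ ≤ u * L := mul_le_mul_of_nonneg_left h2 hu0.le
          _ = L * u := mul_comm _ _
      linarith
    have E1 := log_lip hL0 v2 w2
    have E2 := log_lip hL0 v4 w4
    have E3 := log_lip hL0 v5 w5
    have E1' : L * |N * W (0, 0) - (N + m) * W' (0, 0)| ≤ L * ((20 * L ^ 3 + C0 + L) * u) :=
      mul_le_mul_of_nonneg_left D4 hL0.le
    have E2' : L * |1 - W (0, 0) - (1 - W' (0, 0))| ≤ L * ((20 * L ^ 3 + C0) * u) := by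
      apply mul_le_mul_of_nonneg_left _ hL0.le
      rw [show 1 - W (0, 0) - (1 - W' (0, 0)) = -(W (0, 0) - W' (0, 0)) by ring, abs_neg]
      exact D3
    have E3' : L * |1 - dsum N W 3 0 - (1 - dsum (N + m) W' 3 0)| ≤ L * ((4 * L + C0) * u) := by
      apply mul_le_mul_of_nonneg_left _ hL0.le
      rw [show 1 - dsum N W 3 0 - (1 - dsum (N + m) W' 3 0) =
        dsum (N + m) W' 3 0 - dsum N W 3 0 by ring]
      exact D2
    rw [v1, w1]
    have e5 : Real.log (N * W (0, 0)) - Real.log (1 - W (0, 0)) - Real.log (1 - dsum N W 3 0) -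
        (Real.log ((N + m) * W' (0, 0)) - Real.log (1 - W' (0, 0)) -
          Real.log (1 - dsum (N + m) W' 3 0)) =
        (Real.log (N * W (0, 0)) - Real.log ((N + m) * W' (0, 0))) +
        -(Real.log (1 - W (0, 0)) - Real.log (1 - W' (0, 0))) +
        -(Real.log (1 - dsum N W 3 0) - Real.log (1 - dsum (N + m) W' 3 0)) := by ring
    rw [e5]
    have t1 := abs_add_le ((Real.log (N * W (0, 0)) - Real.log ((N + m) * W' (0, 0))) +
        -(Real.log (1 - W (0, 0)) - Real.log (1 - W' (0, 0))))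
        (-(Real.log (1 - dsum N W 3 0) - Real.log (1 - dsum (N + m) W' 3 0)))
    have t2 := abs_add_le (Real.log (N * W (0, 0)) - Real.log ((N + m) * W' (0, 0)))
        (-(Real.log (1 - W (0, 0)) - Real.log (1 - W' (0, 0))))
    rw [abs_neg] at t1 t2
    have hKu : K * u = L * ((20 * L ^ 3 + C0 + L) * u) + L * ((20 * L ^ 3 + C0) * u) +
        L * ((4 * L + C0) * u) := by
      rw [hK]
      ring
    have hpos : 0 ≤ 4 * Real.log L / c ^ (1 / 10 : ℝ) * u := by positivity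
    refine (t1.trans (add_le_add t2 le_rfl)).trans ?_
    refine (add_le_add (add_le_add (E1.trans E1') (E2.trans E2')) (E3.trans E3')).trans ?_
    rw [← hKu, add_mul]
    exact le_add_of_nonneg_left hpos

end Pool.Agent.NQR
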