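import Pool.Agent.NQR.Defs
import Pool.Agent.NQR.LFin
import Pool.Agent.NQR.KNum
import Pool.Agent.NQR.PRef
import Pool.Agent.NQR.PMax
import Pool.Agent.NQR.PCor
import Pool.Agent.NQ.KFin

/-!
# NQR-KFin: the theorem

PLAN. `L` from `exists_ref`; for `N ≥ 1000` choose `W N` (`exists_opt`), `A N`, `B N` with `Rf L N (W N) (A N) (B N)`,
`ψ N = - log (A N 0 * B N 0 * N)`. Hypotheses of `numeric` with `q n = log (QN n)` (`QN_eq : QN n = Q n`): h1 is
`Pool.Agent.NQ.power_saving`; h3 is `corner` (`n0 = 1000`); h2: for large `n` let `z` be the largest natural number with `z^20000 ≤ n + 1`: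
`InR z (n+1)` (`n + 1 < (z+1)^20000 ≤ z^40040`), `z → ∞`, `1/z ≤ 2 n^(-1/20000)`; `ratio` and
`log (A 0 * B 0) = - ψ (n+1) - log (n+1)`. Avoid the evaluation of large powers (`pow_mul`, exponents as
products, `Nat.pow_le_pow_left`).
-/

set_option autoImplicit false

open Finset

namespace Pool.Agent.NQR

open Pool.Agent.NQ (board dsum F Ent Dg phi ln Q Qset st cellD bern)

open Pool.Agent.NQ (QN)

private theorem exZ (K z0 n : ℕ) (hK : K ≠ 0) (h : z0 ^ K ≤ n + 1) :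
    ∃ z : ℕ, z0 ≤ z ∧ z ^ K ≤ n + 1 ∧ n + 1 < (z + 1) ^ K := by
  classical
  have hex : ∃ z : ℕ, n + 1 < (z + 1) ^ K := by
    refine ⟨n + 1, ?_⟩
    calc n + 1 < n + 1 + 1 := Nat.lt_succ_self _
      _ = (n + 1 + 1) ^ 1 := (pow_one _).symm
      _ ≤ (n + 1 + 1) ^ K := Nat.pow_le_pow_right (by omega) (by omega)
  refine ⟨Nat.find hex, ?_, ?_, Nat.find_spec hex⟩
  · by_contra hlt
    push Not at hlt
    have h1 : (Nat.find hex + 1) ^ K ≤ z0 ^ K := Nat.pow_le_pow_left (by omega) K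
    have h2 := Nat.find_spec hex
    omega
  · rcases Nat.eq_zero_or_pos (Nat.find hex) with h0 | h0
    · rw [h0, zero_pow hK]
      omega
    · have h1 := Nat.find_min hex (m := Nat.find hex - 1) (by omega)
      rw [Nat.sub_add_cancel h0] at h1
      exact not_lt.1 h1

private theorem zb (K z n : ℕ) (hK : K ≠ 0) (hz : 1 ≤ z) (hn : 1 ≤ n) (h : n + 1 < (z + 1) ^ K) :
    (1 / z : ℝ) ≤ 2 * (n : ℝ) ^ (-(1 / (K : ℝ))) := by
  have hn0 : (0 : ℝ) < n := by exact_mod_cast hn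
  have hz0 : (1 : ℝ) ≤ z := by exact_mod_cast hz
  have h1 : (n : ℝ) ≤ ((z : ℝ) + 1) ^ K := by
    have h2 : n ≤ (z + 1) ^ K := by omega
    exact_mod_cast h2
  have h3 : (n : ℝ) ^ (1 / (K : ℝ)) ≤ (z : ℝ) + 1 := by
    calc (n : ℝ) ^ (1 / (K : ℝ)) ≤ (((z : ℝ) + 1) ^ K) ^ (1 / (K : ℝ)) :=
          Real.rpow_le_rpow hn0.le h1 (by positivity)
      _ = (z : ℝ) + 1 := by
          rw [one_div]
          exact Real.pow_rpow_inv_natCast (by linarith) hK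
  have h4 : 0 < (n : ℝ) ^ (1 / (K : ℝ)) := Real.rpow_pos_of_pos hn0 _
  rw [Real.rpow_neg hn0.le]
  have h5 : ((z : ℝ) + 1)⁻¹ ≤ ((n : ℝ) ^ (1 / (K : ℝ)))⁻¹ := inv_anti₀ h4 h3
  have h6 : (1 / z : ℝ) ≤ 2 * ((z : ℝ) + 1)⁻¹ := by
    rw [← div_eq_mul_inv, div_le_div_iff₀ (by linarith) (by linarith)]
    linarith
  linarith

private theorem inR {z n K : ℕ} (hK : K = 20000) (hz : 2 ≤ z) (h1 : z ^ K ≤ n + 1)
    (h2 : n + 1 < (z + 1) ^ K) : InR z (n + 1) := by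
  have e1 : K = 40 * 500 := by omega
  obtain ⟨K2, hK2⟩ : ∃ K2 : ℕ, K2 = 40 * 1001 := ⟨_, rfl⟩
  have e2 : 2 * K ≤ K2 := by omega
  unfold InR
  rw [← pow_mul, ← pow_mul, ← e1, ← hK2]
  refine ⟨h1, ?_⟩
  have h3 : z + 1 ≤ z ^ 2 := by nlinarith
  calc n + 1 ≤ (z + 1) ^ K := h2.le
    _ ≤ (z ^ 2) ^ K := Nat.pow_le_pow_left h3 K
    _ = z ^ (2 * K) := (pow_mul z 2 K).symm
    _ ≤ z ^ K2 := Nat.pow_le_pow_right (by omega) e2

private theorem pos0 {L : ℝ} (hL : 1 ≤ L) {N : ℕ} (hN : 0 < N) {W : ℤ × ℤ → ℝ} {A B : ℤ → ℝ}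
    (h : Rf L N W A B) : 0 < A 0 * B 0 := by
  have hN0 : (0 : ℝ) < N := by exact_mod_cast hN
  have hN1 : (0 : ℤ) < N := by exact_mod_cast hN
  have h1 := h.A1 0 le_rfl hN1
  have h2 := h.B1 0 le_rfl hN1
  have h3 : 0 < 1 / (L * Real.sqrt N) := by
    have := Real.sqrt_pos.2 hN0
    positivity
  exact mul_pos (lt_of_lt_of_le h3 h1) (lt_of_lt_of_le h3 h2)

private theorem coreK {K : ℕ} (hK : K = 20000) : ∃ α C : ℝ,
    (∀ n : ℕ, 1 ≤ n → |Real.log (QN n) - n * Real.log n + α * n| ≤ C * (n : ℝ) ^ (1 - 1 / 500 : ℝ)) ∧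
    ∃ (ψ : ℕ → ℝ) (n0 : ℕ),
      (∀ n : ℕ, n0 ≤ n → |Real.log (QN (n + 1)) - Real.log (QN n) - Real.log (n + 1) - ψ (n + 1)| ≤
        C * (n : ℝ) ^ (-(1 / (K : ℝ)))) ∧
      (∀ n m : ℕ, n0 ≤ n → m ≤ n → |ψ n - ψ (n + m)| ≤
        C * ((m / n : ℝ) * Real.log n) ^ (1 / 10 : ℝ)) := by
  obtain ⟨α, C0, h1⟩ := Pool.Agent.NQ.power_saving
  obtain ⟨L, hL, href⟩ := exists_ref
  obtain ⟨C1, z0, hC1, hr⟩ := ratio L hL
  obtain ⟨C2, hC2, hc⟩ := corner L hL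
  have hex : ∀ N : ℕ, ∃ (W : ℤ × ℤ → ℝ) (A B : ℤ → ℝ), 1000 ≤ N → Opt N W ∧ Rf L N W A B := by
    intro N
    by_cases hN : 1000 ≤ N
    · obtain ⟨W, hW⟩ := exists_opt (N := N) (by omega)
      obtain ⟨A, B, hAB⟩ := href N hN W hW
      exact ⟨W, A, B, fun _ => ⟨hW, hAB⟩⟩
    · exact ⟨fun _ => 0, fun _ => 0, fun _ => 0, fun h => absurd h hN⟩
  choose W A B hWAB using hex
  have hKz : K ≠ 0 := by omega
  refine ⟨α, |C0| + 2 * C1 + C2, fun n hn => ?_, fun N => - Real.log (A N 0 * B N 0 * N),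
    1000 + (z0 + 2) ^ K, fun n hn => ?_, fun n m hn hm => ?_⟩
  · have hx : 0 ≤ (n : ℝ) ^ (1 - 1 / 500 : ℝ) := Real.rpow_nonneg (Nat.cast_nonneg n) _
    have h2 : C0 ≤ |C0| + 2 * C1 + C2 := by
      have := le_abs_self C0
      linarith
    exact (h1 n hn).trans (mul_le_mul_of_nonneg_right h2 hx)
  · obtain ⟨z, hz0, hz1, hz2⟩ := exZ K (z0 + 2) n hKz (by omega)
    have hRf := (hWAB (n + 1) (by omega)).2
    obtain ⟨-, -, h3⟩ := hr z n (by omega) (inR hK (by omega) hz1 hz2) _ _ _ hRf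
    have hp := pos0 hL (by omega) hRf
    have hb := zb K z n hKz (by omega) (by omega) hz2
    have hn1 : (0 : ℝ) < ((n + 1 : ℕ) : ℝ) := by positivity
    have hx : 0 ≤ (n : ℝ) ^ (-(1 / (K : ℝ))) := Real.rpow_nonneg (Nat.cast_nonneg n) _
    have e1 : Real.log (A (n + 1) 0 * B (n + 1) 0 * ((n + 1 : ℕ) : ℝ)) =
        Real.log (A (n + 1) 0 * B (n + 1) 0) + Real.log ((n : ℝ) + 1) := by
      rw [Real.log_mul hp.ne' hn1.ne']
      push_cast
      rfl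
    have e2 : Real.log (QN (n + 1)) - Real.log (QN n) - Real.log (n + 1) -
        (- Real.log (A (n + 1) 0 * B (n + 1) 0 * ((n + 1 : ℕ) : ℝ))) =
        Real.log (Q (n + 1)) - Real.log (Q n) + Real.log (A (n + 1) 0 * B (n + 1) 0) := by
      rw [e1, Pool.Agent.NQ.QN_eq, Pool.Agent.NQ.QN_eq]
      ring
    show |Real.log (QN (n + 1)) - Real.log (QN n) - Real.log (n + 1) -
        (- Real.log (A (n + 1) 0 * B (n + 1) 0 * ((n + 1 : ℕ) : ℝ)))| ≤ _
    rw [e2]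
    refine h3.trans ?_
    calc C1 / (z : ℝ) = C1 * (1 / z) := by ring
      _ ≤ C1 * (2 * (n : ℝ) ^ (-(1 / (K : ℝ)))) := mul_le_mul_of_nonneg_left hb (by linarith)
      _ = (2 * C1) * (n : ℝ) ^ (-(1 / (K : ℝ))) := by ring
      _ ≤ (|C0| + 2 * C1 + C2) * (n : ℝ) ^ (-(1 / (K : ℝ))) := by
          apply mul_le_mul_of_nonneg_right _ hx
          have := abs_nonneg C0
          linarith
  · have hn3 : 1000 ≤ n := by omega
    have hn1 : (1 : ℝ) ≤ n := by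
      have : 1 ≤ n := by omega
      exact_mod_cast this
    have hx : 0 ≤ ((m / n : ℝ) * Real.log n) ^ (1 / 10 : ℝ) :=
      Real.rpow_nonneg (mul_nonneg (by positivity) (Real.log_nonneg hn1)) _
    have hC : C2 ≤ |C0| + 2 * C1 + C2 := by
      have := abs_nonneg C0
      linarith
    rcases Nat.eq_zero_or_pos m with h0 | h0
    · subst h0
      have e0 : |(fun N : ℕ => - Real.log (A N 0 * B N 0 * N)) n -
          (fun N : ℕ => - Real.log (A N 0 * B N 0 * N)) (n + 0)| = 0 := by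
        rw [Nat.add_zero, sub_self, abs_zero]
      rw [e0]
      exact mul_nonneg (by linarith) hx
    · have h4 := hc n m hn3 h0 hm (W n) (W (n + m)) (A n) (B n) (A (n + m)) (B (n + m))
        (hWAB n hn3).1 (hWAB n hn3).2 (hWAB (n + m) (by omega)).1 (hWAB (n + m) (by omega)).2
      have e1 : (fun N : ℕ => - Real.log (A N 0 * B N 0 * N)) n -
          (fun N : ℕ => - Real.log (A N 0 * B N 0 * N)) (n + m) =
          - (Real.log (A n 0 * B n 0 * n) - Real.log (A (n + m) 0 * B (n + m) 0 * (n + m))) := by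
        show - Real.log (A n 0 * B n 0 * n) -
          (- Real.log (A (n + m) 0 * B (n + m) 0 * ((n + m : ℕ) : ℝ))) = _
        push_cast
        ring
      rw [e1, abs_neg]
      exact h4.trans (mul_le_mul_of_nonneg_right hC hx)

theorem final : ∃ α C : ℝ,
    (∀ n : ℕ, 1 ≤ n → |Real.log (QN n) - n * Real.log n + α * n| ≤ C * (n : ℝ) ^ (1 - 1 / 500 : ℝ)) ∧
    (∀ n : ℕ, 1 ≤ n → |Real.log (QN (n + 1)) - Real.log (QN n) - Real.log n - 1 + α| ≤
      C * (n : ℝ) ^ (-(1 / 30000) : ℝ)) := by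
  obtain ⟨α, C, h1, ψ, n0, h2, h3⟩ := coreK (K := 20000) rfl
  have h2' : ∀ n : ℕ, n0 ≤ n →
      |(fun k : ℕ => Real.log (QN k)) (n + 1) - (fun k : ℕ => Real.log (QN k)) n -
        Real.log (n + 1) - ψ (n + 1)| ≤ C * (n : ℝ) ^ (-(1 / 20000) : ℝ) := by
    intro n hn
    have h := h2 n hn
    rw [Nat.cast_ofNat] at h
    exact h
  obtain ⟨C', h4⟩ := numeric (q := fun k : ℕ => Real.log (QN k)) h1 h2' h3
  refine ⟨α, max C C', fun n hn => ?_, fun n hn => ?_⟩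
  · exact (h1 n hn).trans (mul_le_mul_of_nonneg_right (le_max_left _ _)
      (Real.rpow_nonneg (Nat.cast_nonneg n) _))
  · exact (h4 n hn).trans (mul_le_mul_of_nonneg_right (le_max_right _ _)
      (Real.rpow_nonneg (Nat.cast_nonneg n) _))

end Pool.Agent.NQR
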