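import Pool.Agent.NQR.KFin

/-!
# NQR-KLim: the statement of the hand-in
-/

set_option autoImplicit false

open Filter Topology

namespace Pool.Agent.NQR

open Pool.Agent.NQ (QN)

theorem main : ∃ α C : ℝ,
    Tendsto (fun n : ℕ => (n * Real.log n - Real.log (QN n)) / n) atTop (𝓝 α) ∧
    ∀ n : ℕ, 1 ≤ n → |Real.log (QN (n + 1)) - Real.log (QN n) - Real.log n - 1 + α| ≤
      C * (n : ℝ) ^ (-(1 / 30000) : ℝ) := by
  obtain ⟨α, C, h1, h2⟩ := final
  refine ⟨α, C, ?_, h2⟩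
  have h3 : Tendsto (fun n : ℕ => C * (n : ℝ) ^ (-(1 / 500) : ℝ)) atTop (𝓝 0) := by
    have h4 : Tendsto (fun n : ℕ => (n : ℝ) ^ (-(1 / 500) : ℝ)) atTop (𝓝 0) :=
      (tendsto_rpow_neg_atTop (by norm_num : (0 : ℝ) < 1 / 500)).comp tendsto_natCast_atTop_atTop
    simpa using h4.const_mul C
  rw [tendsto_iff_norm_sub_tendsto_zero]
  refine squeeze_zero' (Eventually.of_forall fun n => norm_nonneg _) ?_ h3
  filter_upwards [eventually_ge_atTop 1] with n hn
  have hn0 : (0 : ℝ) < n := by exact_mod_cast hn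
  have h5 : (n * Real.log n - Real.log (QN n)) / n - α =
      -((Real.log (QN n) - n * Real.log n + α * n) / n) := by
    field_simp
    ring
  rw [h5, norm_neg, Real.norm_eq_abs, abs_div, abs_of_pos hn0, div_le_iff₀ hn0]
  refine (h1 n hn).trans (le_of_eq ?_)
  have h6 : (n : ℝ) ^ (1 - 1 / 500 : ℝ) = (n : ℝ) ^ (-(1 / 500) : ℝ) * n := by
    rw [show (1 - 1 / 500 : ℝ) = -(1 / 500) + 1 by ring, Real.rpow_add hn0, Real.rpow_one]
  rw [h6]
  ring

end Pool.Agent.NQR
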